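import Mathlib
import Pool.Agent.Work.MP_47f387_co.Defs

/-! Bundle of small proof modules (one section per former module). -/

section

/-!
# MP_47f387_co (equitable colouring), large connected graphs: definitions and basic lemmas

`f : V → Option (Fin d)` is a partial colouring, `none` is a hole.
-/

namespace Pool.Agent.Work.MP_47f387_co.Large

open Finset Classical

noncomputable section

/-- `Near G r v u`: there is a walk of length at most `r` from `v` to `u`. -/
def Near {V : Type} (G : SimpleGraph V) : ℕ → V → V → Prop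
  | 0, v, u => v = u
  | r + 1, v, u => Near G r v u ∨ ∃ w, Near G r v w ∧ G.Adj w u

/-- `f` is a proper partial colouring. -/
def Proper {V : Type} {d : ℕ} (G : SimpleGraph V) (f : V → Option (Fin d)) : Prop :=
  ∀ u v c, G.Adj u v → f u = some c → f v ≠ some c

/-- `v` has a neighbour of colour `c`. -/
def Sees {V : Type} {d : ℕ} (G : SimpleGraph V) (f : V → Option (Fin d)) (v : V) (c : Fin d) :
    Prop :=
  ∃ u, G.Adj v u ∧ f u = some c

/-- `w` has colour `i` and can be recoloured with `j`. -/
def Switch {V : Type} {d : ℕ} (G : SimpleGraph V) (f : V → Option (Fin d)) (w : V)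
    (i j : Fin d) : Prop :=
  f w = some i ∧ i ≠ j ∧ ¬ Sees G f w j

/-- A permutation of the vertices within distance 2 of `v` makes a switch of type `(i, j)`
within distance 2 of `v` (and keeps the colouring proper near `v`). -/
def Flex {V : Type} {d : ℕ} (G : SimpleGraph V) (f : V → Option (Fin d)) (i j : Fin d) (v : V) :
    Prop :=
  ∃ e : Equiv.Perm V, (∀ u, e u ≠ u → Near G 2 v u) ∧
    (∀ u w c, Near G 2 v u → G.Adj u w → f (e u) = some c → f (e w) ≠ some c) ∧
    ∃ w, Near G 2 v w ∧ Switch G (fun u => f (e u)) w i j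

/-- the degree -/
def Deg {V : Type} [Fintype V] (G : SimpleGraph V) (v : V) : ℕ :=
  (univ.filter (fun u => G.Adj v u)).card

/-- all degrees are at most `d` -/
def BD {V : Type} [Fintype V] (d : ℕ) (G : SimpleGraph V) : Prop := ∀ v, Deg G v ≤ d

/-- `v` lies in a complete subgraph on `d` vertices -/
def InK {V : Type} (d : ℕ) (G : SimpleGraph V) (v : V) : Prop :=
  ∃ s : Finset V, v ∈ s ∧ G.IsNClique d s

/-- the number of vertices with colour (or hole) `o` -/
def cnt {V : Type} [Fintype V] {d : ℕ} (f : V → Option (Fin d)) (o : Option (Fin d)) : ℕ :=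
  (univ.filter (fun v => f v = o)).card

/-- `v` is rigid: no hole within distance 3, no flexibility, not in a `K_d`. -/
def Good {V : Type} {d : ℕ} (G : SimpleGraph V) (f : V → Option (Fin d)) (v : V) : Prop :=
  (∀ u, Near G 3 v u → f u ≠ none) ∧ (∀ i j, ¬ Flex G f i j v) ∧ ¬ InK d G v

/-- `v` is coloured, all its neighbours are coloured, and it sees all other colours. -/
def Tt {V : Type} {d : ℕ} (G : SimpleGraph V) (f : V → Option (Fin d)) (v : V) : Prop :=
  f v ≠ none ∧ (∀ u, G.Adj v u → f u ≠ none) ∧ ∀ j, f v ≠ some j → Sees G f v j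

/-- the neighbours of `y` whose colour is repeated in the neighbourhood of `y` -/
def pr {V : Type} [Fintype V] {d : ℕ} (G : SimpleGraph V) (f : V → Option (Fin d)) (y : V) :
    Finset V :=
  univ.filter (fun u => G.Adj y u ∧ ∃ u', u' ≠ u ∧ G.Adj y u' ∧ f u' = f u)

/-- the tight vertices `y` with `v ∈ pr y` -/
def II {V : Type} [Fintype V] {d : ℕ} (G : SimpleGraph V) (f : V → Option (Fin d)) (v : V) :
    Finset V :=
  univ.filter (fun y => Tt G f y ∧ v ∈ pr G f y)

/-- `u`, `v` are adjacent and each is the only neighbour of the other one with its colour -/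
def Mut {V : Type} [Fintype V] {d : ℕ} (G : SimpleGraph V) (f : V → Option (Fin d)) (u v : V) :
    Prop :=
  G.Adj u v ∧ u ∉ pr G f v ∧ v ∉ pr G f u

/-- good, of degree `d`, and in exactly two pairs -/
def Reg {V : Type} [Fintype V] {d : ℕ} (G : SimpleGraph V) (f : V → Option (Fin d)) (v : V) :
    Prop :=
  Good G f v ∧ Deg G v = d ∧ (II G f v).card = 2

/-- `v` has degree `d` and is in one pair, in two pairs, or (only for `d = 6`) in four pairs such
that all the tight vertices of these pairs are in one pair -/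
def Zero {V : Type} [Fintype V] {d : ℕ} (G : SimpleGraph V) (f : V → Option (Fin d)) (v : V) :
    Prop :=
  Deg G v = d ∧ ((II G f v).card = 1 ∨ (II G f v).card = 2 ∨
    ((II G f v).card = 4 ∧ d = 6 ∧ ∀ y ∈ II G f v, (II G f y).card = 1))

/-- the radius in `A8` and `A13` -/
def rad (d : ℕ) : ℕ := if d = 6 then 9 else 5

/-- `v` and its neighbours outside `II v` -/
def CC {V : Type} [Fintype V] {d : ℕ} (G : SimpleGraph V) (f : V → Option (Fin d)) (v : V) :
    Finset V :=
  univ.filter (fun u => u = v ∨ (G.Adj v u ∧ u ∉ II G f v))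

/-! ### Basic lemmas on `Near` -/

section Near

variable {V : Type} {G : SimpleGraph V}

lemma near_refl (r : ℕ) (v : V) : Near G r v v := by
  induction r with
  | zero => rfl
  | succ r ih => exact Or.inl ih

lemma near_succ {r : ℕ} {v u : V} (h : Near G r v u) : Near G (r + 1) v u := Or.inl h

lemma near_mono {r s : ℕ} (hrs : r ≤ s) {v u : V} (h : Near G r v u) : Near G s v u := by
  induction hrs with
  | refl => exact h
  | step _ ih => exact Or.inl ih

lemma near_of_adj {v u : V} (h : G.Adj v u) : Near G 1 v u := Or.inr ⟨v, rfl, h⟩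

lemma near_adj {r : ℕ} {v u w : V} (h : Near G r v u) (hu : G.Adj u w) : Near G (r + 1) v w :=
  Or.inr ⟨u, h, hu⟩

lemma near_trans {r s : ℕ} {u v w : V} (h : Near G r u v) (h' : Near G s v w) :
    Near G (r + s) u w := by
  induction s generalizing w with
  | zero => cases h'; exact h
  | succ s ih =>
    rcases h' with h' | ⟨x, hx, hxw⟩
    · exact near_mono (by omega) (ih h')
    · exact Or.inr ⟨x, ih hx, hxw⟩

lemma near_symm {r : ℕ} {u v : V} (h : Near G r u v) : Near G r v u := by
  induction r generalizing v with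
  | zero => cases h; rfl
  | succ r ih =>
    rcases h with h | ⟨x, hx, hxw⟩
    · exact Or.inl (ih h)
    · have h1 : Near G 1 v x := near_of_adj hxw.symm
      have h2 := near_trans h1 (ih hx)
      exact near_mono (by omega) h2

lemma near_one {u v : V} : Near G 1 u v ↔ u = v ∨ G.Adj u v := by
  constructor
  · rintro (h | ⟨x, hx, h⟩)
    · exact Or.inl h
    · cases hx; exact Or.inr h
  · rintro (h | h)
    · exact Or.inl h
    · exact near_of_adj h

lemma near_card {V : Type} [Fintype V] {G : SimpleGraph V} {d : ℕ} (hd : BD d G) (r : ℕ) (v : V) :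
    (univ.filter (fun u => Near G r v u)).card ≤ (d + 1) ^ r := by
  induction r with
  | zero =>
    have : (univ.filter (fun u => Near G 0 v u)) = {v} := by
      ext u; simp [Near, eq_comm]
    simp [this]
  | succ r ih =>
    have hsub : (univ.filter (fun u => Near G (r + 1) v u)) ⊆
        (univ.filter (fun u => Near G r v u)).biUnion
          (fun w => insert w (univ.filter (fun u => G.Adj w u))) := by
      intro u hu
      rw [mem_filter] at hu
      rw [mem_biUnion]
      rcases hu.2 with h | ⟨w, hw, hwu⟩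
      · exact ⟨u, by simp [h], mem_insert_self _ _⟩
      · exact ⟨w, by simp [hw], mem_insert_of_mem (by simp [hwu])⟩
    calc (univ.filter (fun u => Near G (r + 1) v u)).card
        ≤ ((univ.filter (fun u => Near G r v u)).biUnion
          (fun w => insert w (univ.filter (fun u => G.Adj w u)))).card := card_le_card hsub
      _ ≤ (univ.filter (fun u => Near G r v u)).card * (d + 1) := by
          apply card_biUnion_le_card_mul
          intro w _
          refine (card_insert_le _ _).trans ?_
          exact Nat.succ_le_succ (hd w)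
      _ ≤ (d + 1) ^ r * (d + 1) := Nat.mul_le_mul_right _ ih
      _ = (d + 1) ^ (r + 1) := (pow_succ _ _).symm

end Near

/-! ### membership lemmas -/

section Mem

variable {V : Type} [Fintype V] {d : ℕ} {G : SimpleGraph V} {f : V → Option (Fin d)}

lemma mem_pr {y u : V} :
    u ∈ pr G f y ↔ G.Adj y u ∧ ∃ u', u' ≠ u ∧ G.Adj y u' ∧ f u' = f u := by
  simp [pr]

lemma mem_II {v y : V} : y ∈ II G f v ↔ Tt G f y ∧ v ∈ pr G f y := by
  simp [II]

lemma mem_CC {v u : V} : u ∈ CC G f v ↔ u = v ∨ (G.Adj v u ∧ u ∉ II G f v) := by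
  simp [CC]

lemma adj_of_mem_II {v y : V} (h : y ∈ II G f v) : G.Adj v y :=
  (mem_pr.1 (mem_II.1 h).2).1.symm

lemma Mut.symm {u v : V} (h : Mut G f u v) : Mut G f v u := ⟨h.1.symm, h.2.2, h.2.1⟩

end Mem

end

end Pool.Agent.Work.MP_47f387_co.Large

end

section

/-!
# MP_47f387_co, large connected graphs: the statements of the items
-/

namespace Pool.Agent.Work.MP_47f387_co.Large

open Finset Classical

noncomputable section

/-! ## Part 1: many flexible places -/

/-- A1: structure of tight vertices. -/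
def A1 : Prop := ∀ (d : ℕ) (V : Type) [Fintype V] (G : SimpleGraph V)
  (f : V → Option (Fin d)), BD d G → Proper G f → ∀ y, Tt G f y →
    (Deg G y = d ∧ ∃ p p', p ≠ p' ∧ f p = f p' ∧ G.Adj y p ∧ G.Adj y p' ∧ ¬ G.Adj p p' ∧
      pr G f y = {p, p'}) ∨ (Deg G y + 1 = d ∧ pr G f y = ∅)

/-- A2: a mutual swap is proper. -/
def A2 : Prop := ∀ (d : ℕ) (V : Type) [Fintype V] (G : SimpleGraph V)
  (f : V → Option (Fin d)), Proper G f → ∀ u v, Mut G f u v →
    Proper G (fun x => f (Equiv.swap u v x))

/-- A3: near a good vertex everything is tight. -/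
def A3 : Prop := ∀ (d : ℕ) (V : Type) [Fintype V] (G : SimpleGraph V)
  (f : V → Option (Fin d)), Proper G f → ∀ v, Good G f v → ∀ w, Near G 2 v w → Tt G f w

/-- A4: one swap at a good vertex creates no switch. -/
def A4 : Prop := ∀ (d : ℕ) (V : Type) [Fintype V] (G : SimpleGraph V)
  (f : V → Option (Fin d)), Proper G f → ∀ v v', Good G f v → Mut G f v v' →
    (∀ w, G.Adj w v → w ≠ v' → ¬ G.Adj w v' → v ∈ pr G f w) ∧
    (∀ w, G.Adj w v' → w ≠ v → ¬ G.Adj w v → v' ∈ pr G f w)

/-- A5: a good vertex is in some pair. -/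
def A5 : Prop := ∀ (d : ℕ) (V : Type) [Fintype V] (G : SimpleGraph V)
  (f : V → Option (Fin d)), BD d G → Proper G f → ∀ v, Good G f v → (II G f v).Nonempty

/-- A6: a good vertex of degree `d` in exactly one pair. -/
def A6 : Prop := ∀ (d : ℕ) (V : Type) [Fintype V] (G : SimpleGraph V)
  (f : V → Option (Fin d)), BD d G → Proper G f → ∀ v, Good G f v → Deg G v = d →
    (II G f v).card = 1 → ∀ p ∈ pr G f v, d ≤ (II G f p).card + 2

/-- A7: discharging. -/
def A7 : Prop := ∀ (d : ℕ) (V : Type) [Fintype V] (G : SimpleGraph V)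
  (f : V → Option (Fin d)), 6 ≤ d → BD d G → Proper G f →
    (univ.filter (fun v => Good G f v ∧ ¬ Zero G f v)).card ≤
      4 * (univ.filter (fun v => ¬ Good G f v)).card

/-- A8: a region of charge zero. -/
def A8 : Prop := ∀ (d : ℕ) (V : Type) [Fintype V] (G : SimpleGraph V)
  (f : V → Option (Fin d)), 6 ≤ d → BD d G → Proper G f →
    5 * (d + 1) ^ rad d * (univ.filter (fun v => ¬ Good G f v)).card < Fintype.card V →
    ∃ v₀, ∀ u, Near G (rad d) v₀ u → Good G f u ∧ Zero G f u

/-- A9: pair and `II` meet, and `CC v` is a clique with `d - 1` elements. -/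
def A9 : Prop := ∀ (d : ℕ) (V : Type) [Fintype V] (G : SimpleGraph V)
  (f : V → Option (Fin d)), 6 ≤ d → BD d G → Proper G f → ∀ v, (∀ u, Near G 1 v u → Reg G f u) →
    (∃ x ∈ pr G f v, x ∈ II G f v) ∧ G.IsNClique (d - 1) (CC G f v)

/-- A10: `pr v = II v`. -/
def A10 : Prop := ∀ (d : ℕ) (V : Type) [Fintype V] (G : SimpleGraph V)
  (f : V → Option (Fin d)), 6 ≤ d → BD d G → Proper G f → ∀ v, (∀ u, Near G 2 v u → Reg G f u) →
    pr G f v = II G f v

/-- A11: the cliques `CC` are blocks. -/
def A11 : Prop := ∀ (d : ℕ) (V : Type) [Fintype V] (G : SimpleGraph V)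
  (f : V → Option (Fin d)), 6 ≤ d → BD d G → Proper G f → ∀ v, (∀ u, Near G 3 v u → Reg G f u) →
    ∀ u ∈ CC G f v, CC G f u = CC G f v

/-- A12: there is no regular region. -/
def A12 : Prop := ∀ (d : ℕ) (V : Type) [Fintype V] (G : SimpleGraph V)
  (f : V → Option (Fin d)), 6 ≤ d → BD d G → Proper G f → ∀ v, ¬ ∀ u, Near G 4 v u → Reg G f u

/-- A13: a positive proportion of vertices is not good. -/
def A13 : Prop := ∀ (d : ℕ) (V : Type) [Fintype V] (G : SimpleGraph V)
  (f : V → Option (Fin d)), 6 ≤ d → BD d G → Proper G f →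
    Fintype.card V ≤ 5 * (d + 1) ^ rad d * (univ.filter (fun v => ¬ Good G f v)).card

/-! ## Part 2: random greedy colouring -/

/-- B1: a sparse dominating set. -/
def B1 : Prop := ∀ (V : Type) [Fintype V] (G : SimpleGraph V) (R : ℕ), G.Connected →
  R ≤ Fintype.card V →
    ∃ Z : Finset V, R * Z.card ≤ 2 * Fintype.card V ∧ ∀ v, ∃ z ∈ Z, Near G R z v

/-- B2: the order of colouring. -/
def B2 : Prop := ∀ (d : ℕ) (V : Type) [Fintype V] (G : SimpleGraph V) (R : ℕ) (Z : Finset V),
  BD d G → (∀ v, ∃ z ∈ Z, Near G R z v) →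
    ∃ key : V → ℕ, (∀ v, key v < (R + 1) * (d + 1)) ∧ (∀ u v, G.Adj u v → key u ≠ key v) ∧
      ∀ v, v ∉ Z → ∃ u, G.Adj v u ∧ key v < key u

/-- B3: the greedy colouring as a function of local choices. -/
def B3 : Prop := ∀ (d : ℕ) (V : Type) [Fintype V] (G : SimpleGraph V) (K : ℕ) (Z : Finset V)
  (key : V → ℕ), BD d G → (∀ v, key v < K) → (∀ u v, G.Adj u v → key u ≠ key v) →
  (∀ v, v ∉ Z → ∃ u, G.Adj v u ∧ key v < key u) →
    ∃ F : (V → Equiv.Perm (Fin d)) → V → Option (Fin d),
      (∀ σ, Proper G (F σ)) ∧ (∀ σ v, v ∉ Z → F σ v ≠ none) ∧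
      (∀ (π : Equiv.Perm (Fin d)) σ v, F (fun u => π * σ u) v = (F σ v).map π) ∧
      (∀ σ τ v, (∀ u, Near G K v u → σ u = τ u) → F σ v = F τ v)

/-- B4: second moment for local indicators. -/
def B4 : Prop := ∀ (V S ι : Type) [Fintype V] [Fintype S] [Nonempty S] [Fintype ι]
  (P : ι → V → (V → S) → Prop) (U : V → Finset V) (D : ℕ),
  (∀ k v σ τ, (∀ u ∈ U v, σ u = τ u) → (P k v σ → P k v τ)) →
  (∀ v, (univ.filter (fun v' => ¬ Disjoint (U v) (U v'))).card ≤ D) →
    ∃ σ : V → S, ∀ k,
      (((univ.filter (fun v => P k v σ)).card : ℝ) -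
        (∑ τ : V → S, ((univ.filter (fun v => P k v τ)).card : ℝ)) /
          (Fintype.card (V → S) : ℝ)) ^ 2 ≤
        (Fintype.card ι : ℝ) * (Fintype.card V : ℝ) * (D : ℝ)

/-- B5: `Flex` is local and equivariant. -/
def B5 : Prop := ∀ (d : ℕ) (V : Type) (G : SimpleGraph V),
  (∀ (f g : V → Option (Fin d)) (i j : Fin d) v, (∀ u, Near G 3 v u → f u = g u) →
    Flex G f i j v → Flex G g i j v) ∧
  (∀ (f : V → Option (Fin d)) (π : Equiv.Perm (Fin d)) (i j : Fin d) v,
    Flex G f i j v → Flex G (fun u => (f u).map π) (π i) (π j) v)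

/-- B6: the averages of the counters. -/
def B6 : Prop := ∀ (d : ℕ) (V : Type) [Fintype V] (G : SimpleGraph V)
  (F : (V → Equiv.Perm (Fin d)) → V → Option (Fin d)),
  (∀ (π : Equiv.Perm (Fin d)) σ v, F (fun u => π * σ u) v = (F σ v).map π) →
    (∀ c c' : Fin d, ∑ σ : V → Equiv.Perm (Fin d), cnt (F σ) (some c) =
      ∑ σ : V → Equiv.Perm (Fin d), cnt (F σ) (some c')) ∧
    (∀ i j i' j' : Fin d, i ≠ j → i' ≠ j' →
      ∑ σ : V → Equiv.Perm (Fin d), (univ.filter (fun v => Flex G (F σ) i j v)).card =
      ∑ σ : V → Equiv.Perm (Fin d), (univ.filter (fun v => Flex G (F σ) i' j' v)).card)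

/-- B7: a good colouring (all the local and average information). -/
def B7 : Prop := ∀ (d K : ℕ), 1 ≤ d → ∃ M : ℕ, ∀ (V : Type) [Fintype V] (G : SimpleGraph V)
  (F : (V → Equiv.Perm (Fin d)) → V → Option (Fin d)), BD d G →
  (∀ (π : Equiv.Perm (Fin d)) σ v, F (fun u => π * σ u) v = (F σ v).map π) →
  (∀ σ τ v, (∀ u, Near G K v u → σ u = τ u) → F σ v = F τ v) →
  ∀ A : ℕ, (∀ σ, A ≤ ∑ i : Fin d, ∑ j : Fin d, (univ.filter (fun v => Flex G (F σ) i j v)).card) →
    ∃ σ, (∀ c c' : Fin d, ((cnt (F σ) (some c) : ℝ) - cnt (F σ) (some c')) ^ 2 ≤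
        (M : ℝ) * Fintype.card V) ∧
      ∀ i j : Fin d, i ≠ j →
        (A : ℝ) / (d : ℝ) ^ 2 ≤ ((univ.filter (fun v => Flex G (F σ) i j v)).card : ℝ) +
          Real.sqrt ((M : ℝ) * Fintype.card V)

/-- B8: the conclusion of Part 2. -/
def B8 : Prop := ∀ d : ℕ, 6 ≤ d → ∃ C : ℕ, 1 ≤ C ∧ ∀ R : ℕ, ∃ N : ℕ,
  ∀ (V : Type) [Fintype V] (G : SimpleGraph V), G.Connected → BD d G →
    C * (univ.filter (fun v => InK d G v)).card ≤ Fintype.card V → N ≤ Fintype.card V →
    ∃ f : V → Option (Fin d), Proper G f ∧ R * cnt f none ≤ Fintype.card V ∧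
      (∀ c c' : Fin d, R * cnt f (some c) ≤ R * cnt f (some c') + Fintype.card V) ∧
      ∀ i j : Fin d, i ≠ j →
        Fintype.card V ≤ C * (univ.filter (fun v => Flex G f i j v)).card

/-! ## Part 3: special vertices -/

/-- C1: selection of far apart places. -/
def C1 : Prop := ∀ (d r : ℕ) (V : Type) [Fintype V] (G : SimpleGraph V) (Q : Type) [Fintype Q]
  (A : Q → Finset V), BD d G → (∀ q, Fintype.card Q * (d + 1) ^ r ≤ (A q).card) →
    ∃ x : Q → V, (∀ q, x q ∈ A q) ∧ ∀ q q', q ≠ q' → ¬ Near G r (x q) (x q')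

/-- C2: simultaneous modifications at far apart places. -/
def C2 : Prop := ∀ (d : ℕ) (V : Type) [Fintype V] (G : SimpleGraph V) (f : V → Option (Fin d))
  (Q : Type) [Fintype Q] (a b : Q → Fin d) (x : Q → V), Proper G f →
  (∀ q, Flex G f (a q) (b q) (x q)) → (∀ q q', q ≠ q' → ¬ Near G 6 (x q) (x q')) →
    ∃ (f' : V → Option (Fin d)) (w : Q → V), Proper G f' ∧ (∀ o, cnt f' o = cnt f o) ∧
      ∀ q, Near G 2 (x q) (w q) ∧ Switch G f' (w q) (a q) (b q)

/-- `W` is a set of special vertices: `w` can be recoloured from `a w` to `b w`, pairwise distances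
are at least 3. -/
def Special {V : Type} {d : ℕ} (G : SimpleGraph V) (f : V → Option (Fin d)) (W : Finset V)
    (a b : V → Fin d) : Prop :=
  (∀ w ∈ W, Switch G f w (a w) (b w)) ∧ ∀ w ∈ W, ∀ w' ∈ W, w ≠ w' → ¬ Near G 2 w w'

/-- C3: a nearly balanced colouring with many special vertices of each type. -/
def C3 : Prop := ∀ d : ℕ, 6 ≤ d → ∃ C : ℕ, 1 ≤ C ∧ ∀ R : ℕ, ∃ N : ℕ,
  ∀ (V : Type) [Fintype V] (G : SimpleGraph V), G.Connected → BD d G →
    C * (univ.filter (fun v => InK d G v)).card ≤ Fintype.card V → N ≤ Fintype.card V →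
    ∃ f : V → Option (Fin d), Proper G f ∧ R * cnt f none ≤ Fintype.card V ∧
      (∀ c c' : Fin d, R * cnt f (some c) ≤ R * cnt f (some c') + Fintype.card V) ∧
      ∃ (W : Finset V) (a b : V → Fin d), Special G f W a b ∧
        ∀ i j : Fin d, i ≠ j →
          Fintype.card V ≤ C * (W.filter (fun w => a w = i ∧ b w = j)).card

/-- C4: filling one hole. -/
def C4 : Prop := ∀ (d : ℕ) (V : Type) [Fintype V] (G : SimpleGraph V) (f : V → Option (Fin d))
  (W : Finset V) (a b : V → Fin d), G.Connected → BD d G → Proper G f → Special G f W a b →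
  W.Nonempty → 1 ≤ cnt f none →
    ∃ (f' : V → Option (Fin d)) (W' : Finset V), Proper G f' ∧ W' ⊆ W ∧ W.card ≤ W'.card + 1 ∧
      Special G f' W' a b ∧ cnt f' none + 1 = cnt f none ∧
      ∀ c, cnt f (some c) ≤ cnt f' (some c) ∧ cnt f' (some c) ≤ cnt f (some c) + 1

/-- C5: filling all holes. -/
def C5 : Prop := ∀ (d : ℕ) (V : Type) [Fintype V] (G : SimpleGraph V) (f : V → Option (Fin d))
  (W : Finset V) (a b : V → Fin d), G.Connected → BD d G → Proper G f → Special G f W a b →
  cnt f none < W.card →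
    ∃ (f' : V → Option (Fin d)) (W' : Finset V), Proper G f' ∧ W' ⊆ W ∧
      W.card ≤ W'.card + cnt f none ∧ Special G f' W' a b ∧ cnt f' none = 0 ∧
      ∀ c, cnt f (some c) ≤ cnt f' (some c) ∧ cnt f' (some c) ≤ cnt f (some c) + cnt f none

/-- C6: balancing with special vertices. -/
def C6 : Prop := ∀ (d : ℕ) (V : Type) [Fintype V] (G : SimpleGraph V) (f : V → Option (Fin d))
  (W : Finset V) (a b : V → Fin d) (t : Fin d → ℕ) (m : ℕ), Proper G f → Special G f W a b →
  cnt f none = 0 → ∑ c, t c = Fintype.card V → ∑ c, (cnt f (some c) - t c) ≤ m →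
  (∀ i j : Fin d, i ≠ j → m ≤ (W.filter (fun w => a w = i ∧ b w = j)).card) →
    ∃ f' : V → Option (Fin d), Proper G f' ∧ cnt f' none = 0 ∧ ∀ c, cnt f' (some c) = t c

/-- C7: the theorem. -/
def C7 : Prop := ∀ d : ℕ, 6 ≤ d → ∃ M N : ℕ, ∀ (V : Type) [Fintype V] [DecidableEq V]
  (G : SimpleGraph V) [DecidableRel G.Adj], G.Connected → (∀ v, G.degree v ≤ d) →
    M * Nat.card {v : V // ∃ s : Finset V, v ∈ s ∧ G.IsNClique d s} ≤ Fintype.card V →
    N ≤ Fintype.card V → Equi G d

end

end Pool.Agent.Work.MP_47f387_co.Large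

end

section

/-!
# MP_47f387_co, item A1: structure of tight vertices
-/

namespace Pool.Agent.Work.MP_47f387_co.Large

open Finset Classical

noncomputable section

theorem prfA1 : A1 := by
  intro d V _ G f hd hf y hy
  obtain ⟨h1, h2, h3⟩ := hy
  obtain ⟨c, hc⟩ := Option.ne_none_iff_exists'.1 h1
  set N : Finset V := univ.filter (fun u => G.Adj y u) with hN
  have hmem : ∀ u, u ∈ N ↔ G.Adj y u := fun u => by simp [hN]
  have hdeg : Deg G y = N.card := rfl
  have himg : N.image f = (univ.erase c).image some := by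
    ext o
    rw [mem_image, mem_image]
    constructor
    · rintro ⟨u, hu, rfl⟩
      obtain ⟨c', hc'⟩ := Option.ne_none_iff_exists'.1 (h2 u ((hmem u).1 hu))
      refine ⟨c', ?_, hc'.symm⟩
      refine mem_erase.2 ⟨?_, mem_univ _⟩
      rintro rfl
      exact hf y u c' ((hmem u).1 hu) hc hc'
    · rintro ⟨j, hj, rfl⟩
      have hjc : j ≠ c := (mem_erase.1 hj).1
      obtain ⟨u, hu, hu'⟩ := h3 j (by rw [hc]; intro h; exact hjc (Option.some.inj h).symm)
      exact ⟨u, (hmem u).2 hu, hu'⟩
  have hd1 : 1 ≤ d := by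
    have := c.2
    omega
  have hcard : (N.image f).card + 1 = d := by
    rw [himg, card_image_of_injective _ (Option.some_injective _), card_erase_of_mem (mem_univ _),
      card_univ, Fintype.card_fin]
    omega
  have hle : (N.image f).card ≤ N.card := card_image_le
  have hub : N.card ≤ d := hd y
  by_cases hcase : N.card = d
  · left
    refine ⟨hcase, ?_⟩
    obtain ⟨p, hp, p', hp', hne, hfe⟩ :=
      Finset.exists_ne_map_eq_of_card_lt_of_maps_to (s := N) (t := N.image f) (f := f)
        (by omega) (fun u hu => mem_coe.2 (mem_image_of_mem f hu))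
    have himg2 : (N.erase p').image f = N.image f := by
      apply Subset.antisymm (image_subset_image (erase_subset _ _))
      intro o ho
      obtain ⟨u, hu, rfl⟩ := mem_image.1 ho
      by_cases hup : u = p'
      · rw [hup, ← hfe]
        exact mem_image_of_mem f (mem_erase.2 ⟨hne, hp⟩)
      · exact mem_image_of_mem f (mem_erase.2 ⟨hup, hu⟩)
    have hinj : Set.InjOn f ((N.erase p' : Finset V) : Set V) := by
      apply Finset.card_image_iff.1
      rw [himg2, card_erase_of_mem hp']
      omega
    have hinj' : ∀ u u', u ∈ N → u' ∈ N → u ≠ p' → u' ≠ p' → f u = f u' → u = u' := by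
      intro u u' hu hu' h h' he
      exact hinj (mem_coe.2 (mem_erase.2 ⟨h, hu⟩)) (mem_coe.2 (mem_erase.2 ⟨h', hu'⟩)) he
    refine ⟨p, p', hne, hfe, (hmem p).1 hp, (hmem p').1 hp', ?_, ?_⟩
    · intro hadj
      obtain ⟨c', hc'⟩ := Option.ne_none_iff_exists'.1 (h2 p ((hmem p).1 hp))
      exact hf p p' c' hadj hc' (hfe ▸ hc')
    · ext u
      rw [mem_pr, mem_insert, mem_singleton]
      constructor
      · rintro ⟨hu, u', hne', hu', he⟩
        by_cases hup : u = p'
        · exact Or.inr hup
        · left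
          by_cases hup' : u' = p'
          · exact hinj' u p ((hmem u).2 hu) hp hup hne (by rw [← he, hup', hfe])
          · exact absurd (hinj' u' u ((hmem u').2 hu') ((hmem u).2 hu) hup' hup he) hne'
      · rintro (rfl | rfl)
        · exact ⟨(hmem u).1 hp, p', hne.symm, (hmem p').1 hp', hfe.symm⟩
        · exact ⟨(hmem u).1 hp', p, hne, (hmem p).1 hp, hfe⟩
  · right
    refine ⟨by rw [hdeg]; omega, ?_⟩
    have hinj : Set.InjOn f ((N : Finset V) : Set V) := by
      apply Finset.card_image_iff.1
      omega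
    apply Finset.eq_empty_of_forall_notMem
    intro u hu
    obtain ⟨hu1, u', hne', hu', he⟩ := mem_pr.1 hu
    exact hne' (hinj (mem_coe.2 ((hmem u').2 hu')) (mem_coe.2 ((hmem u).2 hu1)) he)

end

end Pool.Agent.Work.MP_47f387_co.Large

end

section

/-!
# MP_47f387_co, item A10: in a regular region `pr v = II v`
-/

namespace Pool.Agent.Work.MP_47f387_co.Large

open Finset Classical

noncomputable section

namespace IA10

variable {d : ℕ} {V : Type} [Fintype V] {G : SimpleGraph V} {f : V → Option (Fin d)}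

/-- the elements of `CC v` different from `v` and `p'` are mutual neighbours of `v` -/
lemma mut_of_mem {v p p' w : V} (ht : ∀ w, G.Adj v w → Tt G f w) (hpr : pr G f v = {p, p'})
    (hp : p ∈ II G f v) (hw : w ∈ CC G f v) (hwv : w ≠ v) (hwp : w ≠ p') : Mut G f v w := by
  rcases mem_CC.1 hw with h | ⟨h, h'⟩
  · exact absurd h hwv
  · refine ⟨h, fun h1 => h' (mem_II.2 ⟨ht w h, h1⟩), fun h1 => ?_⟩
    rw [hpr, mem_insert, mem_singleton] at h1
    rcases h1 with h1 | h1
    · exact h' (h1 ▸ hp)
    · exact hwp h1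

/-- the basic contradiction -/
lemma fact (h1 : A1) (h3 : A3) (h4 : A4) (hd : BD d G) (hf : Proper G f) {v o w1 w2 : V}
    (hv : Good G f v) (m1 : Mut G f v w1) (m2 : Mut G f v w2) (hw : G.Adj w1 w2)
    (ho : o ≠ v) (hov : ¬ G.Adj o v) (a1 : G.Adj o w1) (a2 : G.Adj o w2) : False := by
  have b1 := (h4 d V G f hf v w1 hv m1).2 o a1 ho hov
  have b2 := (h4 d V G f hf v w2 hv m2).2 o a2 ho hov
  have hn : Near G 2 v o := near_adj (near_of_adj m1.1) a1.symm
  have hT := h3 d V G f hf v hv o hn
  rcases h1 d V G f hd hf o hT with ⟨_, q, q', _, _, _, _, hq, hpr⟩ | ⟨_, hpr⟩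
  · rw [hpr, mem_insert, mem_singleton] at b1 b2
    rcases b1 with rfl | rfl <;> rcases b2 with rfl | rfl
    · exact hw.ne rfl
    · exact hq hw
    · exact hq hw.symm
    · exact hw.ne rfl
  · rw [hpr] at b1
    exact absurd b1 (notMem_empty _)

omit [Fintype V] in
lemma two_of_card {s : Finset V} (t : Finset V) (h : t.card + 2 ≤ s.card) :
    ∃ a ∈ s, ∃ b ∈ s, a ≠ b ∧ a ∉ t ∧ b ∉ t := by
  have h1 : 1 < (s \ t).card := by
    have := le_card_sdiff t s
    omega
  obtain ⟨a, ha, b, hb, hab⟩ := one_lt_card.1 h1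
  exact ⟨a, (mem_sdiff.1 ha).1, b, (mem_sdiff.1 hb).1, hab, (mem_sdiff.1 ha).2,
    (mem_sdiff.1 hb).2⟩

end IA10

open IA10 in
/-- A10 -/
theorem prfA10 (h1 : A1) (h3 : A3) (h4 : A4) (h9 : A9) : A10 := by
  intro d V _ G f h7 hd hf v hreg
  have hv : Reg G f v := hreg v (near_refl 2 v)
  have hTt : ∀ w, Near G 2 v w → Tt G f w := h3 d V G f hf v hv.1
  have hTv : Tt G f v := hTt v (near_refl 2 v)
  obtain ⟨⟨x, hxp, hxI⟩, hC⟩ := h9 d V G f (by omega) hd hf v
    fun u hu => hreg u (near_succ hu)
  have hpc : (pr G f v).card = 2 := by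
    rcases h1 d V G f hd hf v hTv with ⟨_, p, p', hne, _, _, _, _, hpr⟩ | ⟨hdeg, _⟩
    · rw [hpr, card_pair hne]
    · have := hv.2.1
      omega
  by_contra hne
  -- the element of the pair outside `II v`
  have hex : ∃ p' ∈ pr G f v, p' ∉ II G f v := by
    by_contra hcon
    exact hne (eq_of_subset_of_card_le (fun y hy => by
      by_contra h
      exact hcon ⟨y, hy, h⟩) (by rw [hpc, hv.2.2]))
  obtain ⟨p', hp', hpI⟩ := hex
  have hxne : x ≠ p' := fun h => hpI (h ▸ hxI)
  have hpr : pr G f v = {x, p'} := by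
    refine (eq_of_subset_of_card_le ?_ ?_).symm
    · intro y hy
      rw [mem_insert, mem_singleton] at hy
      rcases hy with rfl | rfl
      · exact hxp
      · exact hp'
    · rw [hpc, card_pair hxne]
  have hap : G.Adj v p' := (mem_pr.1 hp').1
  have hmut : ∀ w ∈ CC G f v, w ≠ v → w ≠ p' → Mut G f v w := fun w hw h h' =>
    mut_of_mem (fun w hw => hTt w (near_succ (near_of_adj hw))) hpr hxI hw h h'
  have hvC : v ∈ CC G f v := mem_CC.2 (Or.inl rfl)
  have hpC : p' ∈ CC G f v := mem_CC.2 (Or.inr ⟨hap, hpI⟩)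
  have hclq : ∀ a ∈ CC G f v, ∀ b ∈ CC G f v, a ≠ b → G.Adj a b := fun a ha b hb hab =>
    hC.1 ha hb hab
  -- the vertex `p'`
  have hrp : Reg G f p' := hreg p' (near_succ (near_of_adj hap))
  have hvI : v ∈ II G f p' := mem_II.2 ⟨hTv, hp'⟩
  obtain ⟨e, heI, hev⟩ : ∃ e ∈ II G f p', e ≠ v := by
    by_contra hcon
    have hcon' : ∀ a ∈ II G f p', a = v := fun a ha => by
      by_contra h
      exact hcon ⟨a, ha, h⟩
    have : (II G f p').card ≤ 1 := card_le_one.2 fun a ha b hb => by
      rw [hcon' a ha, hcon' b hb]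
    have := hrp.2.2
    omega
  have hII : II G f p' = {v, e} := by
    refine (eq_of_subset_of_card_le ?_ ?_).symm
    · intro y hy
      rw [mem_insert, mem_singleton] at hy
      rcases hy with rfl | rfl
      · exact hvI
      · exact heI
    · rw [hrp.2.2, card_pair hev.symm]
  have hape : G.Adj p' e := adj_of_mem_II heI
  obtain ⟨_, hC'⟩ := h9 d V G f (by omega) hd hf p'
    fun u hu => hreg u (near_trans (near_of_adj hap) hu)
  have hclq' : ∀ a ∈ CC G f p', ∀ b ∈ CC G f p', a ≠ b → G.Adj a b := fun a ha b hb hab =>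
    hC'.1 ha hb hab
  have hmem' : ∀ w, G.Adj p' w → w ≠ v → w ≠ e → w ∈ CC G f p' := by
    intro w hw h h'
    refine mem_CC.2 (Or.inr ⟨hw, fun h2 => ?_⟩)
    rw [hII, mem_insert, mem_singleton] at h2
    exact h2.elim h h'
  have hpC' : p' ∈ CC G f p' := mem_CC.2 (Or.inl rfl)
  have hCC' : ∀ w ∈ CC G f v, w ≠ v → w ≠ e → w ∈ CC G f p' := by
    intro w hw h h'
    by_cases hwp : w = p'
    · rw [hwp]; exact hpC'
    · exact hmem' w (hclq p' hpC w hw (Ne.symm hwp)) h h'
  -- the two other neighbours of `p'`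
  have hOc : (univ.filter (fun u => G.Adj p' u) \ CC G f v).card = 2 := by
    have e1 : univ.filter (fun u => G.Adj p' u) ∩ CC G f v = (CC G f v).erase p' := by
      ext u
      rw [mem_inter, mem_filter, mem_erase]
      constructor
      · rintro ⟨⟨_, ha⟩, hb⟩
        exact ⟨ha.ne', hb⟩
      · rintro ⟨ha, hb⟩
        exact ⟨⟨mem_univ _, hclq p' hpC u hb ha.symm⟩, hb⟩
    have e2 := card_sdiff_add_card_inter (univ.filter (fun u => G.Adj p' u)) (CC G f v)
    rw [e1, card_erase_of_mem hpC, hC.2] at e2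
    have e3 : (univ.filter (fun u => G.Adj p' u)).card = d := hrp.2.1
    omega
  obtain ⟨o1, o2, ho12, hO⟩ := card_eq_two.1 hOc
  have hOm : ∀ o, (o = o1 ∨ o = o2) ↔ G.Adj p' o ∧ o ∉ CC G f v := by
    intro o
    have e1 : (o = o1 ∨ o = o2) ↔ o ∈ ({o1, o2} : Finset V) := by
      rw [mem_insert, mem_singleton]
    rw [e1, ← hO, mem_sdiff, mem_filter]
    simp only [mem_univ, true_and]
  have ho1 := (hOm o1).1 (Or.inl rfl)
  have ho2 := (hOm o2).1 (Or.inr rfl)
  by_cases heC : e ∈ CC G f v
  · -- second case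
    have hOC : ∀ o, (o = o1 ∨ o = o2) → o ∈ CC G f p' := by
      intro o ho
      have h := (hOm o).1 ho
      exact hmem' o h.1 (fun h2 => h.2 (h2 ▸ hvC)) (fun h2 => h.2 (h2 ▸ heC))
    have hbad : ¬ (G.Adj o1 v ∧ G.Adj o2 v) := by
      rintro ⟨b1, b2⟩
      apply hv.1.2.2
      refine ⟨insert o1 (insert o2 ((CC G f v).erase e)), ?_, ?_⟩
      · exact mem_insert_of_mem (mem_insert_of_mem (mem_erase.2 ⟨hev.symm, hvC⟩))
      · have hoadj : ∀ o, (o = o1 ∨ o = o2) → ∀ w ∈ (CC G f v).erase e, G.Adj o w := by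
          intro o ho w hw
          rw [mem_erase] at hw
          by_cases hwv : w = v
          · rw [hwv]
            rcases ho with rfl | rfl
            · exact b1
            · exact b2
          · refine hclq' o (hOC o ho) w (hCC' w hw.2 hwv hw.1) fun h => ?_
            exact ((hOm o).1 ho).2 (h ▸ hw.2)
        have ho12a : G.Adj o1 o2 := hclq' o1 (hOC o1 (Or.inl rfl)) o2 (hOC o2 (Or.inr rfl)) ho12
        rw [SimpleGraph.isNClique_iff]
        constructor
        · rw [coe_insert, coe_insert, SimpleGraph.isClique_insert, SimpleGraph.isClique_insert]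
          refine ⟨⟨?_, ?_⟩, ?_⟩
          · exact hC.1.subset (by
              intro y hy
              exact (mem_erase.1 (mem_coe.1 hy)).2)
          · intro w hw _
            exact hoadj o2 (Or.inr rfl) w (mem_coe.1 hw)
          · intro w hw _
            rcases Set.mem_insert_iff.1 hw with rfl | hw
            · exact ho12a
            · exact hoadj o1 (Or.inl rfl) w (mem_coe.1 hw)
        · have n2 : o2 ∉ (CC G f v).erase e := fun h => ho2.2 (mem_erase.1 h).2
          have n1 : o1 ∉ insert o2 ((CC G f v).erase e) := by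
            rw [mem_insert, not_or]
            exact ⟨ho12, fun h => ho1.2 (mem_erase.1 h).2⟩
          rw [card_insert_of_notMem n1, card_insert_of_notMem n2, card_erase_of_mem heC, hC.2]
          omega
    obtain ⟨o, ho, hov⟩ : ∃ o, (o = o1 ∨ o = o2) ∧ ¬ G.Adj o v := by
      by_cases b1 : G.Adj o1 v
      · exact ⟨o2, Or.inr rfl, fun b2 => hbad ⟨b1, b2⟩⟩
      · exact ⟨o1, Or.inl rfl, b1⟩
    obtain ⟨w1, hw1, w2, hw2, hw12, n1, n2⟩ := two_of_card (s := CC G f v) {v, p', e} (by
      rw [hC.2]
      have := card_le_three (a := v) (b := p') (c := e)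
      omega)
    simp only [mem_insert, mem_singleton, not_or] at n1 n2
    have hoC : o ∉ CC G f v := ((hOm o).1 ho).2
    have hovne : o ≠ v := fun h => hoC (by rw [h]; exact hvC)
    have hadj : ∀ w ∈ CC G f v, w ≠ v → w ≠ e → G.Adj o w := fun w hw h h' =>
      hclq' o (hOC o ho) w (hCC' w hw h h') fun h2 => hoC (h2 ▸ hw)
    exact fact h1 h3 h4 hd hf hv.1 (hmut w1 hw1 n1.1 n1.2.1) (hmut w2 hw2 n2.1 n2.2.1)
      (hclq w1 hw1 w2 hw2 hw12) hovne hov (hadj w1 hw1 n1.1 n1.2.2)
      (hadj w2 hw2 n2.1 n2.2.2)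
  · -- first case
    obtain ⟨o, ho, hoe⟩ : ∃ o, (o = o1 ∨ o = o2) ∧ o ≠ e := by
      by_cases b1 : o1 = e
      · exact ⟨o2, Or.inr rfl, fun h => ho12 (b1.trans h.symm)⟩
      · exact ⟨o1, Or.inl rfl, b1⟩
    have hoC : o ∉ CC G f v := ((hOm o).1 ho).2
    have hovne : o ≠ v := fun h => hoC (by rw [h]; exact hvC)
    have hoC' : o ∈ CC G f p' := hmem' o ((hOm o).1 ho).1 hovne hoe
    have hadj : ∀ w ∈ CC G f v, w ≠ v → G.Adj o w := fun w hw h =>
      hclq' o hoC' w (hCC' w hw h fun h2 => heC (h2 ▸ hw)) fun h2 => hoC (h2 ▸ hw)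
    have hov : ¬ G.Adj o v := by
      intro b
      apply hv.1.2.2
      refine ⟨insert o (CC G f v), mem_insert_of_mem hvC, ?_⟩
      rw [SimpleGraph.isNClique_iff]
      constructor
      · rw [coe_insert, SimpleGraph.isClique_insert]
        refine ⟨hC.1, fun w hw _ => ?_⟩
        by_cases hwv : w = v
        · rw [hwv]; exact b
        · exact hadj w (mem_coe.1 hw) hwv
      · rw [card_insert_of_notMem hoC, hC.2]
        omega
    obtain ⟨w1, hw1, w2, hw2, hw12, n1, n2⟩ := two_of_card (s := CC G f v) {v, p'} (by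
      rw [hC.2]
      have := card_le_two (a := v) (b := p')
      omega)
    simp only [mem_insert, mem_singleton, not_or] at n1 n2
    exact fact h1 h3 h4 hd hf hv.1 (hmut w1 hw1 n1.1 n1.2) (hmut w2 hw2 n2.1 n2.2)
      (hclq w1 hw1 w2 hw2 hw12) hovne hov (hadj w1 hw1 n1.1)
      (hadj w2 hw2 n2.1)

end

end Pool.Agent.Work.MP_47f387_co.Large

end

section

namespace Pool.Agent.Work.MP_47f387_co.Large

open Finset Classical

noncomputable section

theorem prfA11 (h1 : A1) (h3 : A3) (h4 : A4) (h9 : A9) (h10 : A10) : A11 := by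
  intro d V _ G f hd hBD hP v hreg u hu
  -- basic facts
  have hreg1 : ∀ e, Near G 1 v e → ∀ x, Near G 2 e x → Reg G f x := fun e he x hx =>
    hreg x (near_trans he hx)
  have hT : ∀ w, Near G 3 v w → Tt G f w := fun w hw =>
    h3 d V G f hP w (hreg w hw).1 w (near_refl 2 w)
  have hII : ∀ e, Near G 1 v e → pr G f e = II G f e := fun e he =>
    h10 d V G f hd hBD hP e (hreg1 e he)
  have hCC : ∀ e, Near G 1 v e → G.IsNClique (d - 1) (CC G f e) := fun e he =>
    (h9 d V G f (by omega) hBD hP e fun x hx => hreg1 e he x (near_succ hx)).2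
  have hcard : ∀ e, Near G 1 v e → (II G f e).card = 2 := fun e he =>
    (hreg e (near_mono (by omega) he)).2.2
  have hgood : ∀ e, Near G 1 v e → Good G f e := fun e he =>
    (hreg e (near_mono (by omega) he)).1
  have hC := hCC v (near_refl 1 v)
  have hvC : v ∈ CC G f v := mem_CC.2 (Or.inl rfl)
  have hnear : ∀ e ∈ CC G f v, Near G 1 v e := by
    intro e he
    rcases mem_CC.1 he with h | h
    · rw [h]
      exact near_refl 1 v
    · exact near_of_adj h.1
  by_cases huv : u = v
  · rw [huv]
  have hadj : ∀ a ∈ CC G f v, ∀ b ∈ CC G f v, a ≠ b → G.Adj a b := fun a ha b hb hab =>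
    hC.isClique ha hb hab
  have hu1 := hnear u hu
  have hCu := hCC u hu1
  by_cases hdis : ∃ e ∈ CC G f v, e ∈ II G f u
  swap
  · -- first case
    have hsub : CC G f v ⊆ CC G f u := by
      intro w hw
      rw [mem_CC]
      by_cases hwu : w = u
      · exact Or.inl hwu
      · exact Or.inr ⟨hadj u hu w hw (Ne.symm hwu), fun h => hdis ⟨w, hw, h⟩⟩
    symm
    refine Finset.eq_of_subset_of_card_le hsub ?_
    rw [hC.card_eq, hCu.card_eq]
  · exfalso
    obtain ⟨e, heC, heII⟩ := hdis
    have hue : G.Adj u e := adj_of_mem_II heII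
    have heu : e ≠ u := hue.ne'
    have he1 := hnear e heC
    -- the pair of u
    obtain ⟨p, p', hpp', hfp, hup, hup', hnp, hpr⟩ : ∃ p p', p ≠ p' ∧ f p = f p' ∧ G.Adj u p ∧
        G.Adj u p' ∧ ¬ G.Adj p p' ∧ pr G f u = {p, p'} := by
      rcases h1 d V G f hBD hP u (hT u (near_mono (by omega) hu1)) with h | h
      · exact h.2
      · exfalso
        have h2 := hcard u hu1
        rw [← hII u hu1, h.2] at h2
        simp at h2
    have hIIu : II G f u = {p, p'} := by rw [← hII u hu1, hpr]
    have honly : ∀ w ∈ CC G f v, w ≠ e → w ∉ II G f u := by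
      intro w hw hwe hwII
      have hew := hadj w hw e heC hwe
      rw [hIIu] at hwII heII
      rw [mem_insert, mem_singleton] at hwII heII
      rcases hwII with rfl | rfl
      · rcases heII with rfl | rfl
        · exact hwe rfl
        · exact hnp hew
      · rcases heII with rfl | rfl
        · exact hnp hew.symm
        · exact hwe rfl
    have hsub : (CC G f v).erase e ⊆ CC G f u := by
      intro w hw
      rw [mem_erase] at hw
      rw [mem_CC]
      by_cases hwu : w = u
      · exact Or.inl hwu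
      · exact Or.inr ⟨hadj u hu w hw.2 (Ne.symm hwu), honly w hw.2 hw.1⟩
    have hcE : ((CC G f v).erase e).card = d - 2 := by
      rw [card_erase_of_mem heC, hC.card_eq]
      omega
    -- the outside vertex
    obtain ⟨o, hoCu, hoE⟩ : ∃ o ∈ CC G f u, o ∉ (CC G f v).erase e := by
      by_contra hne
      push Not at hne
      have h2 := card_le_card (fun o ho => hne o ho : CC G f u ⊆ (CC G f v).erase e)
      rw [hcE, hCu.card_eq] at h2
      omega
    have hoe : o ≠ e := by
      rintro rfl
      rcases mem_CC.1 hoCu with h | h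
      · exact heu h
      · exact h.2 heII
    have hoC : o ∉ CC G f v := fun h => hoE (mem_erase.2 ⟨hoe, h⟩)
    have hou : o ≠ u := fun h => hoC (h ▸ hu)
    have huo : G.Adj u o := by
      rcases mem_CC.1 hoCu with h | h
      · exact absurd h hou
      · exact h.1
    have hoadj : ∀ w ∈ CC G f v, w ≠ e → G.Adj o w := by
      intro w hw hwe
      refine hCu.isClique hoCu (hsub (mem_erase.2 ⟨hwe, hw⟩)) ?_
      rintro rfl
      exact hoC hw
    have hnoe : ¬ G.Adj o e := by
      intro hoe2
      refine (hgood v (near_refl 1 v)).2.2 ⟨insert o (CC G f v), mem_insert_of_mem hvC, ?_⟩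
      refine ⟨?_, ?_⟩
      · rw [coe_insert]
        refine hC.isClique.insert ?_
        intro b hb _
        by_cases hbe : b = e
        · rw [hbe]
          exact hoe2
        · exact hoadj b hb hbe
      · rw [card_insert_of_notMem hoC, hC.card_eq]
        omega
    -- two mutual neighbours of e in C
    have hcard2 : 1 < (((CC G f v).erase e) \ II G f e).card := by
      have h2 := Finset.le_card_sdiff (II G f e) ((CC G f v).erase e)
      rw [hcE, hcard e he1] at h2
      omega
    obtain ⟨w1, hw1, w2, hw2, hw12⟩ := one_lt_card.1 hcard2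
    have hmut : ∀ w ∈ ((CC G f v).erase e) \ II G f e, w ∈ pr G f o := by
      intro w hw
      rw [mem_sdiff, mem_erase] at hw
      have hew := hadj e heC w hw.1.2 (Ne.symm hw.1.1)
      have hM : Mut G f e w := by
        refine ⟨hew, ?_, ?_⟩
        · intro h
          exact hw.2 (mem_II.2 ⟨hT w (near_mono (by omega) (hnear w hw.1.2)), h⟩)
        · rw [hII e he1]
          exact hw.2
      exact (h4 d V G f hP e w (hgood e he1) hM).2 o (hoadj w hw.1.2 hw.1.1) hoe hnoe
    have hw1o := hmut w1 hw1
    have hw2o := hmut w2 hw2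
    have hadj12 : G.Adj w1 w2 := by
      rw [mem_sdiff, mem_erase] at hw1 hw2
      exact hadj w1 hw1.1.2 w2 hw2.1.2 hw12
    have hoT : Tt G f o := hT o (near_mono (by omega) (near_adj hu1 huo))
    rcases h1 d V G f hBD hP o hoT with ⟨_, q, q', _, _, _, _, hnq, hprq⟩ | h
    · rw [hprq, mem_insert, mem_singleton] at hw1o hw2o
      rcases hw1o with rfl | rfl
      · rcases hw2o with rfl | rfl
        · exact hw12 rfl
        · exact hnq hadj12
      · rcases hw2o with rfl | rfl
        · exact hnq hadj12.symm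
        · exact hw12 rfl
    · rw [h.2] at hw1o
      simp at hw1o

end

end Pool.Agent.Work.MP_47f387_co.Large

end

section

/-!
# MP_47f387_co, large connected graphs: A12 (there is no regular region)
-/

namespace Pool.Agent.Work.MP_47f387_co.Large

open Finset Classical

noncomputable section

namespace IA12

variable {V : Type} [Fintype V] {d : ℕ} {G : SimpleGraph V} {f : V → Option (Fin d)}

lemma self_mem_CC (v : V) : v ∈ CC G f v := mem_CC.2 (Or.inl rfl)

omit [Fintype V] in
lemma adj_of_clique {n : ℕ} {s : Finset V} (h : G.IsNClique n s) {a b : V} (ha : a ∈ s)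
    (hb : b ∈ s) (hab : a ≠ b) : G.Adj a b :=
  h.isClique (by simpa using ha) (by simpa using hb) hab

/-- if `y ∈ CC x`, `y ≠ x`, `pr x = II x` and `y` is tight, then `x`, `y` are mutual -/
lemma mut_of_CC {x y : V} (hxy : y ∈ CC G f x) (hne : y ≠ x) (hpr : pr G f x = II G f x)
    (hy : Tt G f y) : Mut G f x y := by
  have h := mem_CC.1 hxy
  rcases h with h | ⟨hadj, hII⟩
  · exact absurd h hne
  · refine ⟨hadj, ?_, ?_⟩
    · intro hx
      exact hII (mem_II.2 ⟨hy, hx⟩)
    · rw [hpr]; exact hII

end IA12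

open IA12 in
theorem prfA12 (h1 : A1) (h2 : A2) (h3 : A3) (h9 : A9) (h10 : A10) (h11 : A11) : A12 := by
  intro d V _ G f hd hBD hP p hreg
  have hT : ∀ u, Near G 4 p u → Tt G f u := fun u hu =>
    h3 d V G f hP u (hreg u hu).1 u (near_refl 2 u)
  have hN1 : ∀ {u : V}, G.Adj p u → Near G 1 p u := fun h => near_of_adj h
  have hR9 : ∀ u, Near G 3 p u → G.IsNClique (d - 1) (CC G f u) := fun u hu =>
    (h9 d V G f (by omega) hBD hP u (fun w hw => hreg w (near_trans hu hw))).2
  have hR10 : ∀ u, Near G 2 p u → pr G f u = II G f u := fun u hu =>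
    h10 d V G f hd hBD hP u (fun w hw => hreg w (near_trans hu hw))
  have hR11 : ∀ u, Near G 1 p u → ∀ w ∈ CC G f u, CC G f w = CC G f u := fun u hu =>
    h11 d V G f hd hBD hP u (fun w hw => hreg w (near_trans hu hw))
  have hTp : Tt G f p := hT p (near_refl 4 p)
  have hDp : Deg G p = d := (hreg p (near_refl 4 p)).2.1
  rcases h1 d V G f hBD hP p hTp with ⟨_, x, x', hxx', hfx, hpx, hpx', hnadj, hpr⟩ | ⟨hbad, _⟩
  swap
  · omega
  -- general facts about a point of the pair
  have key : ∀ a b : V, a ≠ b → G.Adj p a → G.Adj p b → ¬ G.Adj a b → pr G f p = {a, b} →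
      p ∉ CC G f a ∧ ∀ y ∈ CC G f a, y ≠ a → ¬ G.Adj p y := by
    intro a b hab hpa hpb hnab hprab
    have h1' : p ∉ CC G f a := by
      intro hp
      rcases mem_CC.1 hp with h | ⟨_, h⟩
      · exact G.ne_of_adj hpa h
      · apply h
        rw [mem_II]
        refine ⟨hTp, ?_⟩
        rw [hprab]; simp
    refine ⟨h1', ?_⟩
    intro y hy hya hpy
    have hCC : CC G f y = CC G f a := hR11 a (hN1 hpa) y hy
    have hpCy : p ∉ CC G f y := by rw [hCC]; exact h1'
    have hpIIy : p ∈ II G f y := by
      by_contra hcon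
      exact hpCy (mem_CC.2 (Or.inr ⟨hpy.symm, hcon⟩))
    have hyp : y ∈ pr G f p := (mem_II.1 hpIIy).2
    rw [hprab] at hyp
    simp only [mem_insert, mem_singleton] at hyp
    rcases hyp with h | h
    · exact hya h
    · subst h
      have := adj_of_clique (hR9 a (near_mono (by norm_num) (hN1 hpa))) (self_mem_CC a) hy
        (fun h => hya h.symm)
      exact hnab this
  have hpr2 : pr G f p = {x', x} := by rw [hpr]; exact pair_comm x x'
  have hnadj' : ¬ G.Adj x' x := fun h => hnadj h.symm
  obtain ⟨hpC, hyN⟩ := key x x' hxx' hpx hpx' hnadj hpr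
  obtain ⟨hpC', hyN'⟩ := key x' x hxx'.symm hpx' hpx hnadj' hpr2
  have hcl := hR9 x (near_mono (by norm_num) (hN1 hpx))
  have hcl' := hR9 x' (near_mono (by norm_num) (hN1 hpx'))
  -- disjointness
  have hdisj : ∀ z, z ∈ CC G f x → z ∈ CC G f x' → False := by
    intro z hz hz'
    have e1 := hR11 x (hN1 hpx) z hz
    have e2 := hR11 x' (hN1 hpx') z hz'
    have hx'mem : x' ∈ CC G f x := by
      rw [← e1, e2]; exact self_mem_CC x'
    exact hnadj (adj_of_clique hcl (self_mem_CC x) hx'mem hxx')
  -- choice of y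
  have hcard : (CC G f x).card = d - 1 := hcl.card_eq
  have hcard' : (CC G f x').card = d - 1 := hcl'.card_eq
  obtain ⟨y, hy⟩ : ((CC G f x).erase x).Nonempty := by
    rw [← card_pos, card_erase_of_mem (self_mem_CC x), hcard]; omega
  rw [mem_erase] at hy
  obtain ⟨hyx, hyC⟩ := hy
  have hxy : G.Adj x y := adj_of_clique hcl (self_mem_CC x) hyC (fun h => hyx h.symm)
  have hy2 : Near G 2 p y := near_adj (hN1 hpx) hxy
  have hDy : Deg G y = d := (hreg y (near_mono (by norm_num) hy2)).2.1
  have hex : ∃ y' ∈ CC G f x', y' ≠ x' ∧ ¬ G.Adj y y' := by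
    by_contra hcon
    push Not at hcon
    have hsub : ((CC G f x).erase y) ∪ ((CC G f x').erase x') ⊆ univ.filter (fun u => G.Adj y u) := by
      intro z hz
      rw [mem_union] at hz
      rw [mem_filter]
      refine ⟨mem_univ _, ?_⟩
      rcases hz with hz | hz
      · rw [mem_erase] at hz
        exact adj_of_clique hcl hyC hz.2 (fun h => hz.1 h.symm)
      · rw [mem_erase] at hz
        exact hcon z hz.2 hz.1
    have hle := card_le_card hsub
    have hdj : Disjoint ((CC G f x).erase y) ((CC G f x').erase x') := by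
      rw [Finset.disjoint_left]
      intro z hz hz'
      exact hdisj z (mem_of_mem_erase hz) (mem_of_mem_erase hz')
    rw [card_union_of_disjoint hdj, card_erase_of_mem hyC, card_erase_of_mem (self_mem_CC x'),
      hcard, hcard'] at hle
    have : (univ.filter (fun u => G.Adj y u)).card = d := hDy
    omega
  obtain ⟨y', hyC', hyx', hyy'⟩ := hex
  have hxy' : G.Adj x' y' := adj_of_clique hcl' (self_mem_CC x') hyC' (fun h => hyx' h.symm)
  have hy2' : Near G 2 p y' := near_adj (hN1 hpx') hxy'
  have hTy : Tt G f y := hT y (near_mono (by norm_num) hy2)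
  have hTy' : Tt G f y' := hT y' (near_mono (by norm_num) hy2')
  have hM : Mut G f x y := mut_of_CC hyC hyx (hR10 x (near_mono (by norm_num) (hN1 hpx))) hTy
  have hM' : Mut G f x' y' :=
    mut_of_CC hyC' hyx' (hR10 x' (near_mono (by norm_num) (hN1 hpx'))) hTy'
  -- distinctness
  have d1 : x ≠ y' := fun h => hdisj x (self_mem_CC x) (h ▸ hyC')
  have d2 : y ≠ x' := fun h => hdisj y hyC (by rw [h]; exact self_mem_CC x')
  have d3 : y ≠ y' := fun h => hdisj y hyC (h ▸ hyC')
  have hpy : ¬ G.Adj p y := hyN y hyC hyx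
  have hpy' : ¬ G.Adj p y' := hyN' y' hyC' hyx'
  have hpny : p ≠ y := fun h => hpC (h ▸ hyC)
  have hpny' : p ≠ y' := fun h => hpC' (h ▸ hyC')
  have hpnx : p ≠ x := G.ne_of_adj hpx
  have hpnx' : p ≠ x' := G.ne_of_adj hpx'
  -- colours
  obtain ⟨α, hα⟩ : ∃ α, f x = some α := by
    cases h : f x with
    | none => exact absurd h (hTp.2.1 x hpx)
    | some a => exact ⟨a, rfl⟩
  have hα' : f x' = some α := by rw [← hfx, hα]
  obtain ⟨β, hβ⟩ : ∃ β, f p = some β := by
    cases h : f p with
    | none => exact absurd h hTp.1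
    | some a => exact ⟨a, rfl⟩
  have hyα : f y ≠ some α := hP x y α hxy hα
  have hyα' : f y' ≠ some α := hP x' y' α hxy' hα'
  have hβα : β ≠ α := by
    intro h
    have := hP x p α hpx.symm hα
    rw [hβ, h] at this
    exact this rfl
  -- the first swap
  have hP1 : Proper G (fun z => f (Equiv.swap x y z)) := h2 d V G f hP x y hM
  have ex : Equiv.swap x y x = y := Equiv.swap_apply_left x y
  have ey : Equiv.swap x y y = x := Equiv.swap_apply_right x y
  have eo : ∀ z, z ≠ x → z ≠ y → Equiv.swap x y z = z := fun z h h' =>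
    Equiv.swap_apply_of_ne_of_ne h h'
  have ex' : Equiv.swap x' y' x' = y' := Equiv.swap_apply_left x' y'
  have ey' : Equiv.swap x' y' y' = x' := Equiv.swap_apply_right x' y'
  have eo' : ∀ z, z ≠ x' → z ≠ y' → Equiv.swap x' y' z = z := fun z h h' =>
    Equiv.swap_apply_of_ne_of_ne h h'
  have fx' : Equiv.swap x y x' = x' := eo x' hxx'.symm d2.symm
  have fy' : Equiv.swap x y y' = y' := eo y' d1.symm d3.symm
  have hM1 : Mut G (fun z => f (Equiv.swap x y z)) x' y' := by
    refine ⟨hxy', ?_, ?_⟩
    · intro hmem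
      obtain ⟨_, z, hzx', hyz, hz⟩ := mem_pr.1 hmem
      simp only [fx'] at hz
      by_cases hzx : z = x
      · subst hzx
        rw [ex, hα'] at hz
        exact hyα hz
      · by_cases hzy : z = y
        · subst hzy
          exact hyy' hyz.symm
        · rw [eo z hzx hzy] at hz
          exact hM'.2.1 (mem_pr.2 ⟨hxy'.symm, z, hzx', hyz, hz⟩)
    · intro hmem
      obtain ⟨_, z, hzy', hxz, hz⟩ := mem_pr.1 hmem
      simp only [fy'] at hz
      by_cases hzx : z = x
      · subst hzx
        exact hnadj' hxz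
      · by_cases hzy : z = y
        · subst hzy
          rw [ey, hα] at hz
          exact hyα' hz.symm
        · rw [eo z hzx hzy] at hz
          exact hM'.2.2 (mem_pr.2 ⟨hxy', z, hzy', hxz, hz⟩)
  have hP2 := h2 d V G _ hP1 x' y' hM1
  -- the contradiction
  apply (hreg p (near_refl 4 p)).1.2.1 β α
  refine ⟨Equiv.swap x y * Equiv.swap x' y', ?_, ?_, p, near_refl 2 p, ?_⟩
  · intro u hu
    by_cases h1 : u = x
    · subst h1; exact near_mono (by norm_num) (hN1 hpx)
    by_cases h2 : u = y
    · subst h2; exact hy2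
    by_cases h3 : u = x'
    · subst h3; exact near_mono (by norm_num) (hN1 hpx')
    by_cases h4 : u = y'
    · subst h4; exact hy2'
    exfalso
    apply hu
    rw [Equiv.Perm.mul_apply, eo' u h3 h4, eo u h1 h2]
  · intro u w c _ huw hc
    simp only [Equiv.Perm.mul_apply] at hc ⊢
    exact hP2 u w c huw hc
  · refine ⟨?_, hβα, ?_⟩
    · simp only [Equiv.Perm.mul_apply]
      rw [eo' p hpnx' hpny', eo p hpnx hpny]
      exact hβ
    · rintro ⟨z, hpz, hz⟩
      simp only [Equiv.Perm.mul_apply] at hz
      by_cases h3 : z = x'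
      · subst h3
        rw [ex', fy'] at hz
        exact hyα' hz
      by_cases h4 : z = y'
      · subst h4
        exact hpy' hpz
      rw [eo' z h3 h4] at hz
      by_cases h1 : z = x
      · subst h1
        rw [ex] at hz
        exact hyα hz
      by_cases h2 : z = y
      · subst h2
        exact hpy hpz
      rw [eo z h1 h2] at hz
      have hmem : z ∈ pr G f p :=
        mem_pr.2 ⟨hpz, x, fun h => h1 h.symm, hpx, by rw [hα, hz]⟩
      rw [hpr] at hmem
      simp only [mem_insert, mem_singleton] at hmem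
      rcases hmem with h | h
      · exact h1 h
      · exact h3 h

end

end Pool.Agent.Work.MP_47f387_co.Large

end

section

namespace Pool.Agent.Work.MP_47f387_co.Large

open Finset Classical

noncomputable section

theorem prfA2 : A2 := by
  intro d V _ G f hf u v hm x y c hxy hx hy
  obtain ⟨huv, hu, hv⟩ := hm
  beta_reduce at hx hy
  by_cases hxu : x = u
  · subst hxu
    rw [Equiv.swap_apply_left] at hx
    by_cases hyv : y = v
    · subst hyv
      rw [Equiv.swap_apply_right] at hy
      exact hf x y c hxy hy hx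
    · have hyu : y ≠ x := hxy.ne'
      rw [Equiv.swap_apply_of_ne_of_ne hyu hyv] at hy
      exact hv (mem_pr.2 ⟨huv, y, hyv, hxy, by rw [hy, hx]⟩)
  · by_cases hxv : x = v
    · subst hxv
      rw [Equiv.swap_apply_right] at hx
      by_cases hyu : y = u
      · subst hyu
        rw [Equiv.swap_apply_left] at hy
        exact hf x y c hxy hy hx
      · have hyv : y ≠ x := hxy.ne'
        rw [Equiv.swap_apply_of_ne_of_ne hyu hyv] at hy
        exact hu (mem_pr.2 ⟨huv.symm, y, hyu, hxy, by rw [hy, hx]⟩)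
    · rw [Equiv.swap_apply_of_ne_of_ne hxu hxv] at hx
      by_cases hyu : y = u
      · subst hyu
        rw [Equiv.swap_apply_left] at hy
        exact hv (mem_pr.2 ⟨huv, x, hxv, hxy.symm, by rw [hy, hx]⟩)
      · by_cases hyv : y = v
        · subst hyv
          rw [Equiv.swap_apply_right] at hy
          exact hu (mem_pr.2 ⟨huv.symm, x, hxu, hxy.symm, by rw [hy, hx]⟩)
        · rw [Equiv.swap_apply_of_ne_of_ne hyu hyv] at hy
          exact hf x y c hxy hx hy

end

end Pool.Agent.Work.MP_47f387_co.Large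

end

section

namespace Pool.Agent.Work.MP_47f387_co.Large

open Finset Classical

noncomputable section

theorem prfA3 : A3 := by
  intro d V _ G f hf v hg w hw
  refine ⟨hg.1 w (near_succ hw), fun u hu => hg.1 u (near_adj hw hu), fun j hj => ?_⟩
  by_contra hs
  obtain ⟨i, hi⟩ := Option.ne_none_iff_exists'.1 (hg.1 w (near_succ hw))
  refine hg.2.1 i j ⟨Equiv.refl V, fun u hu => absurd rfl hu, ?_, w, hw, ?_⟩
  · intro u w c _ huw h1 h2
    exact hf u w c huw h1 h2
  · refine ⟨hi, ?_, hs⟩
    rintro rfl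
    exact hj hi

end

end Pool.Agent.Work.MP_47f387_co.Large

end

section

namespace Pool.Agent.Work.MP_47f387_co.Large

open Finset Classical

noncomputable section

namespace IA4

/-- the swap of a mutual edge `a b` near `v`, seen from a neighbour `w` of `a` which is not
a neighbour of `b`. -/
lemma key (h2 : A2) (h3 : A3) {d : ℕ} {V : Type} [Fintype V] {G : SimpleGraph V}
    {f : V → Option (Fin d)} (hf : Proper G f) {v a b w : V} (hg : Good G f v)
    (hm : Mut G f a b) (ha : Near G 2 v a) (hb : Near G 2 v b) (hw : Near G 2 v w)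
    (hwa : G.Adj w a) (hwb : w ≠ b) (hnb : ¬ G.Adj w b) : a ∈ pr G f w := by
  by_contra hpr
  have hp := h2 d V G f hf a b hm
  obtain ⟨j, hj⟩ := Option.ne_none_iff_exists'.1 (h3 d V G f hf v hg a ha).1
  obtain ⟨i, hi⟩ := Option.ne_none_iff_exists'.1 (h3 d V G f hf v hg w hw).1
  have hwa' : w ≠ a := hwa.ne
  refine hg.2.1 i j ⟨Equiv.swap a b, ?_, ?_, w, hw, ?_, ?_, ?_⟩
  · intro u hu
    by_cases h1 : u = a
    · subst h1; exact ha
    · by_cases h2 : u = b
      · subst h2; exact hb
      · exact absurd (Equiv.swap_apply_of_ne_of_ne h1 h2) hu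
  · intro u w c _ huw h1 h2
    exact hp u w c huw h1 h2
  · show f (Equiv.swap a b w) = some i
    rw [Equiv.swap_apply_of_ne_of_ne hwa' hwb, hi]
  · rintro rfl
    exact hf w a i hwa hi hj
  · rintro ⟨x, hx, hfx⟩
    have hxb : x ≠ b := by rintro rfl; exact hnb hx
    change f (Equiv.swap a b x) = some j at hfx
    by_cases hxa : x = a
    · subst hxa
      rw [Equiv.swap_apply_left] at hfx
      exact hf x b j hm.1 hj hfx
    · rw [Equiv.swap_apply_of_ne_of_ne hxa hxb] at hfx
      exact hpr (mem_pr.2 ⟨hwa, x, hxa, hx, by rw [hfx, hj]⟩)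

end IA4

theorem prfA4 (h2 : A2) (h3 : A3) : A4 := by
  intro d V _ G f hf v v' hg hm
  have hv' : Near G 1 v v' := near_of_adj hm.1
  refine ⟨fun w h1 h2' h3' => ?_, fun w h1 h2' h3' => ?_⟩
  · exact IA4.key h2 h3 hf hg hm (near_refl 2 v) (near_succ hv')
      (near_succ (near_of_adj h1.symm)) h1 h2' h3'
  · exact IA4.key h2 h3 hf hg hm.symm (near_succ hv') (near_refl 2 v)
      (near_adj hv' h1.symm) h1 h2' h3'

end

end Pool.Agent.Work.MP_47f387_co.Large

end

section

/-!
# MP_47f387_co, large connected graphs: A5, a good vertex lies in some pair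
-/

namespace Pool.Agent.Work.MP_47f387_co.Large

open Finset Classical

noncomputable section

namespace IA5

variable {V : Type} [Fintype V] {d : ℕ} {G : SimpleGraph V} {f : V → Option (Fin d)}

lemma tight1 (h3 : A3) (hf : Proper G f) {v u : V} (hv : Good G f v) (hu : G.Adj v u) :
    Tt G f u :=
  h3 d V G f hf v hv u (near_mono (by norm_num) (near_of_adj hu))

lemma tight0 (h3 : A3) (hf : Proper G f) {v : V} (hv : Good G f v) : Tt G f v :=
  h3 d V G f hf v hv v (near_refl 2 v)

/-- neighbours outside `pr v` and `II v` are adjacent to all neighbours outside `II v` -/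
lemma key (h3 : A3) (h4 : A4) (hf : Proper G f) {v : V} (hv : Good G f v) {u w : V}
    (hu : G.Adj v u) (hup : u ∉ pr G f v) (huI : u ∉ II G f v) (hw : G.Adj v w) (hwu : w ≠ u)
    (hwI : w ∉ II G f v) : G.Adj w u := by
  have hm : Mut G f v u :=
    ⟨hu, fun h => huI (mem_II.mpr ⟨tight1 h3 hf hv hu, h⟩), hup⟩
  by_contra h
  exact hwI (mem_II.mpr ⟨tight1 h3 hf hv hw, (h4 d V G f hf v u hv hm).1 w hw.symm hwu h⟩)

lemma inK {v : V} (T : Finset V) (h1 : ∀ a ∈ T, G.Adj v a)
    (h2 : ∀ a ∈ T, ∀ b ∈ T, a ≠ b → G.Adj a b) (h3 : T.card + 1 = d) : InK d G v := by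
  have hv : v ∉ T := fun h => (h1 v h).ne rfl
  refine ⟨insert v T, mem_insert_self _ _, ?_, ?_⟩
  · intro a ha b hb hab
    rw [mem_coe, mem_insert] at ha hb
    rcases ha with rfl | ha
    · rcases hb with rfl | hb
      · exact absurd rfl hab
      · exact h1 b hb
    · rcases hb with rfl | hb
      · exact (h1 a ha).symm
      · exact h2 a ha b hb hab
  · rw [card_insert_of_notMem hv, h3]

end IA5

theorem prfA5 (h1 : A1) (h3 : A3) (h4 : A4) : A5 := by
  intro d V _ G f hd hf v hv
  by_contra hne
  rw [Finset.not_nonempty_iff_eq_empty] at hne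
  have hI : ∀ u, u ∉ II G f v := fun u => by rw [hne]; simp
  apply hv.2.2
  rcases h1 d V G f hd hf v (IA5.tight0 h3 hf hv) with
    ⟨hdeg, p, p', hpp, _, hp, hp', _, hpr⟩ | ⟨hdeg, hpr⟩
  · refine IA5.inK ((univ.filter (fun u => G.Adj v u)).erase p') ?_ ?_ ?_
    · intro a ha
      simpa using (mem_erase.mp ha).2
    · intro a ha b hb hab
      have ha1 : G.Adj v a := by simpa using (mem_erase.mp ha).2
      have hb1 : G.Adj v b := by simpa using (mem_erase.mp hb).2
      have ha2 := (mem_erase.mp ha).1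
      have hb2 := (mem_erase.mp hb).1
      by_cases hap : a = p
      · have hbp : b ≠ p := fun h => hab (hap.trans h.symm)
        refine IA5.key h3 h4 hf hv hb1 ?_ (hI b) ha1 hab (hI a)
        rw [hpr]
        simp [hbp, hb2]
      · refine (IA5.key h3 h4 hf hv ha1 ?_ (hI a) hb1 hab.symm (hI b)).symm
        rw [hpr]
        simp [hap, ha2]
    · have hm : p' ∈ univ.filter (fun u => G.Adj v u) := by simpa using hp'
      rw [card_erase_add_one hm]
      exact hdeg
  · refine IA5.inK (univ.filter (fun u => G.Adj v u)) ?_ ?_ hdeg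
    · intro a ha
      simpa using ha
    · intro a ha b hb hab
      have ha1 : G.Adj v a := by simpa using ha
      have hb1 : G.Adj v b := by simpa using hb
      refine IA5.key h3 h4 hf hv hb1 ?_ (hI b) ha1 hab (hI a)
      rw [hpr]
      simp

end

end Pool.Agent.Work.MP_47f387_co.Large

end

section

/-!
# MP_47f387_co, large connected graphs: A6, a good vertex of degree `d` in exactly one pair
-/

namespace Pool.Agent.Work.MP_47f387_co.Large

open Finset Classical

noncomputable section

namespace IA6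

variable {V : Type} [Fintype V] {d : ℕ} {G : SimpleGraph V} {f : V → Option (Fin d)}

lemma tight1 (h3 : A3) (hf : Proper G f) {v u : V} (hv : Good G f v) (hu : G.Adj v u) :
    Tt G f u :=
  h3 d V G f hf v hv u (near_mono (by norm_num) (near_of_adj hu))

lemma tight0 (h3 : A3) (hf : Proper G f) {v : V} (hv : Good G f v) : Tt G f v :=
  h3 d V G f hf v hv v (near_refl 2 v)

/-- neighbours outside `pr v` and `II v` are adjacent to all neighbours outside `II v` -/
lemma key (h3 : A3) (h4 : A4) (hf : Proper G f) {v : V} (hv : Good G f v) {u w : V}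
    (hu : G.Adj v u) (hup : u ∉ pr G f v) (huI : u ∉ II G f v) (hw : G.Adj v w) (hwu : w ≠ u)
    (hwI : w ∉ II G f v) : G.Adj w u := by
  have hm : Mut G f v u :=
    ⟨hu, fun h => huI (mem_II.mpr ⟨tight1 h3 hf hv hu, h⟩), hup⟩
  by_contra h
  exact hwI (mem_II.mpr ⟨tight1 h3 hf hv hw, (h4 d V G f hf v u hv hm).1 w hw.symm hwu h⟩)

lemma inK {v : V} (T : Finset V) (h1 : ∀ a ∈ T, G.Adj v a)
    (h2 : ∀ a ∈ T, ∀ b ∈ T, a ≠ b → G.Adj a b) (h3 : T.card + 1 = d) : InK d G v := by
  have hv : v ∉ T := fun h => (h1 v h).ne rfl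
  refine ⟨insert v T, mem_insert_self _ _, ?_, ?_⟩
  · intro a ha b hb hab
    rw [mem_coe, mem_insert] at ha hb
    rcases ha with rfl | ha
    · rcases hb with rfl | hb
      · exact absurd rfl hab
      · exact h1 b hb
    · rcases hb with rfl | hb
      · exact (h1 a ha).symm
      · exact h2 a ha b hb hab
  · rw [card_insert_of_notMem hv, h3]

/-- the pair does not meet `II v` -/
lemma disj (h3 : A3) (h4 : A4) (hf : Proper G f) {v p p' e : V} (hv : Good G f v)
    (hdeg : Deg G v = d) (hpr : pr G f v = {p, p'}) (he : II G f v = {e}) (hep : e ∈ pr G f v) :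
    False := by
  apply hv.2.2
  have hev : G.Adj v e := (mem_pr.mp hep).1
  -- the other element of the pair
  obtain ⟨q, hq⟩ : ∃ q, ∀ a, a ∈ pr G f v → a ≠ e → a = q := by
    rw [hpr, mem_insert, mem_singleton] at hep
    rcases hep with rfl | rfl
    · refine ⟨p', fun a ha hne => ?_⟩
      rw [hpr, mem_insert, mem_singleton] at ha
      exact ha.resolve_left hne
    · refine ⟨p, fun a ha hne => ?_⟩
      rw [hpr, mem_insert, mem_singleton] at ha
      exact ha.resolve_right hne
  refine inK ((univ.filter (fun u => G.Adj v u)).erase e) ?_ ?_ ?_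
  · intro a ha
    simpa using (mem_erase.mp ha).2
  · intro a ha b hb hab
    have ha1 : G.Adj v a := by simpa using (mem_erase.mp ha).2
    have hb1 : G.Adj v b := by simpa using (mem_erase.mp hb).2
    have ha2 := (mem_erase.mp ha).1
    have hb2 := (mem_erase.mp hb).1
    have haI : a ∉ II G f v := by rw [he]; simpa using ha2
    have hbI : b ∉ II G f v := by rw [he]; simpa using hb2
    by_cases haq : a = q
    · have hbp : b ∉ pr G f v := fun h => hab (haq.trans (hq b h hb2).symm)
      exact key h3 h4 hf hv hb1 hbp hbI ha1 hab haI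
    · have hap : a ∉ pr G f v := fun h => haq (hq a h ha2)
      exact (key h3 h4 hf hv ha1 hap haI hb1 hab.symm hbI).symm
  · have hm : e ∈ univ.filter (fun u => G.Adj v u) := by simpa using hev
    rw [card_erase_add_one hm]
    exact hdeg

/-- the conclusion for one element `q` of the pair -/
lemma concl (h3 : A3) (h4 : A4) (hf : Proper G f) {v q q' e : V} (hv : Good G f v)
    (hdeg : Deg G v = d) (hqq : q ≠ q') (hfq : f q = f q') (hq : G.Adj v q) (hq' : G.Adj v q')
    (hpr : pr G f v = {q, q'}) (he : II G f v = {e}) (hep : e ∉ pr G f v) :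
    d ≤ (II G f q).card + 2 := by
  have hev : G.Adj v e := adj_of_mem_II (f := f) (by rw [he]; simp)
  have hqp : q ∈ pr G f v := by rw [hpr]; simp
  have hqp' : q' ∈ pr G f v := by rw [hpr]; simp
  have hqI : q ∉ II G f v := by
    rw [he, mem_singleton]
    rintro rfl
    exact hep hqp
  have hqI' : q' ∉ II G f v := by
    rw [he, mem_singleton]
    rintro rfl
    exact hep hqp'
  have hN : ({q, q', e} : Finset V) ⊆ univ.filter (fun u => G.Adj v u) := by
    intro a ha
    simp only [mem_insert, mem_singleton] at ha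
    rcases ha with rfl | rfl | rfl
    · simpa using hq
    · simpa using hq'
    · simpa using hev
  have h3c : ({q, q', e} : Finset V).card = 3 := by
    rw [card_eq_three]
    refine ⟨q, q', e, hqq, ?_, ?_, rfl⟩
    · rintro rfl
      exact hep hqp
    · rintro rfl
      exact hep hqp'
  set M := (univ.filter (fun u => G.Adj v u)) \ ({q, q', e} : Finset V) with hM
  have hMc : M.card + 3 = d := by
    have h := card_sdiff_add_card_eq_card hN
    rw [h3c] at h
    exact h.trans hdeg
  have hvM : v ∉ M := by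
    intro h
    have := (mem_sdiff.mp h).1
    simp at this
  have hsub : insert v M ⊆ II G f q := by
    intro a ha
    rw [mem_insert] at ha
    rcases ha with rfl | ha
    · exact mem_II.mpr ⟨tight0 h3 hf hv, hqp⟩
    · rw [hM, mem_sdiff, mem_filter] at ha
      obtain ⟨⟨_, ha1⟩, ha2⟩ := ha
      simp only [mem_insert, mem_singleton, not_or] at ha2
      have hap : a ∉ pr G f v := by
        rw [hpr]
        simp [ha2.1, ha2.2.1]
      have haI : a ∉ II G f v := by
        rw [he]
        simpa using ha2.2.2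
      have e1 : G.Adj q a := key h3 h4 hf hv ha1 hap haI hq (Ne.symm ha2.1) hqI
      have e2 : G.Adj q' a := key h3 h4 hf hv ha1 hap haI hq' (Ne.symm ha2.2.1) hqI'
      exact mem_II.mpr ⟨tight1 h3 hf hv ha1, mem_pr.mpr ⟨e1.symm, q', hqq.symm, e2.symm,
        hfq.symm⟩⟩
  have hc := card_le_card hsub
  rw [card_insert_of_notMem hvM] at hc
  omega

end IA6

theorem prfA6 (h1 : A1) (h3 : A3) (h4 : A4) : A6 := by
  intro d V _ G f hd hf v hv hdeg hI p hp
  obtain ⟨e, he⟩ := card_eq_one.mp hI
  rcases h1 d V G f hd hf v (IA6.tight0 h3 hf hv) with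
    ⟨_, q, q', hqq, hfq, hq, hq', _, hpr⟩ | ⟨hdeg', _⟩
  · by_cases hep : e ∈ pr G f v
    · exact (IA6.disj h3 h4 hf hv hdeg hpr he hep).elim
    · have hp' := hp
      rw [hpr, mem_insert, mem_singleton] at hp'
      rcases hp' with rfl | rfl
      · exact IA6.concl h3 h4 hf hv hdeg hqq hfq hq hq' hpr he hep
      · refine IA6.concl h3 h4 hf hv hdeg hqq.symm hfq.symm hq' hq ?_ he hep
        rw [hpr]
        exact Finset.pair_comm _ _
  · omega

end

end Pool.Agent.Work.MP_47f387_co.Large

end

section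

/-!
# MP_47f387_co, large connected graphs: A7, discharging
-/

namespace Pool.Agent.Work.MP_47f387_co.Large

open Finset Classical

noncomputable section

namespace IA7

variable {V : Type} [Fintype V] {d : ℕ} {G : SimpleGraph V} {f : V → Option (Fin d)}

/-- the size of the pair of a tight vertex -/
def ps (G : SimpleGraph V) (f : V → Option (Fin d)) (y : V) : ℕ :=
  if Tt G f y then (pr G f y).card else 0

/-- good, of degree `d`, in exactly one pair -/
def G1 (G : SimpleGraph V) (f : V → Option (Fin d)) : Finset V :=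
  univ.filter (fun v => Good G f v ∧ Deg G v = d ∧ (II G f v).card = 1)

/-- the number of `u` in `G1` with `v ∈ pr u` -/
def xx (G : SimpleGraph V) (f : V → Option (Fin d)) (v : V) : ℕ :=
  ((G1 G f).filter (fun u => v ∈ pr G f u)).card

lemma sum_II : ∑ v : V, (II G f v).card = ∑ y : V, ps G f y := by
  have h := Finset.sum_card_bipartiteAbove_eq_sum_card_bipartiteBelow
    (s := (univ : Finset V)) (t := (univ : Finset V)) (fun v y => Tt G f y ∧ v ∈ pr G f y)
  have h1 : ∀ v : V, (II G f v).card =
      (Finset.bipartiteAbove (fun v y => Tt G f y ∧ v ∈ pr G f y) (univ : Finset V) v).card := by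
    intro v
    rfl
  have h2 : ∀ y : V, ps G f y =
      (Finset.bipartiteBelow (fun v y => Tt G f y ∧ v ∈ pr G f y) (univ : Finset V) y).card := by
    intro y
    unfold ps Finset.bipartiteBelow
    by_cases hy : Tt G f y
    · rw [if_pos hy]
      congr 1
      ext u
      simp [hy]
    · rw [if_neg hy]
      symm
      rw [Finset.card_eq_zero]
      ext u
      simp [hy]
  rw [Finset.sum_congr rfl fun v _ => h1 v, Finset.sum_congr rfl fun y _ => h2 y]
  exact h

lemma sum_xx : ∑ v : V, xx G f v = ∑ u ∈ G1 G f, (pr G f u).card := by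
  have h := Finset.sum_card_bipartiteAbove_eq_sum_card_bipartiteBelow
    (s := (univ : Finset V)) (t := G1 G f) (fun v u => v ∈ pr G f u)
  have h1 : ∀ v : V, xx G f v =
      (Finset.bipartiteAbove (fun v u => v ∈ pr G f u) (G1 G f) v).card := by
    intro v
    rfl
  have h2 : ∀ u : V, (pr G f u).card =
      (Finset.bipartiteBelow (fun v u => v ∈ pr G f u) (univ : Finset V) u).card := by
    intro y
    unfold Finset.bipartiteBelow
    congr 1
    ext u
    simp
  rw [Finset.sum_congr rfl fun v _ => h1 v, Finset.sum_congr rfl fun u _ => h2 u]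
  exact h

lemma mem_G1 {v : V} : v ∈ G1 G f ↔ Good G f v ∧ Deg G v = d ∧ (II G f v).card = 1 := by
  simp [G1]

lemma tight (h3 : A3) (hf : Proper G f) {v : V} (hv : Good G f v) : Tt G f v :=
  h3 d V G f hf v hv v (near_refl 2 v)

lemma xx_le (h3 : A3) (hf : Proper G f) (v : V) : xx G f v ≤ (II G f v).card := by
  apply Finset.card_le_card
  intro u hu
  rw [Finset.mem_filter, mem_G1] at hu
  rw [mem_II]
  exact ⟨tight h3 hf hu.1.1, hu.2⟩

lemma ps_le (h1 : A1) (hd : BD d G) (hf : Proper G f) (y : V) : ps G f y ≤ 2 := by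
  unfold ps
  split_ifs with hy
  · rcases h1 d V G f hd hf y hy with ⟨_, p, p', _, _, _, _, _, h⟩ | ⟨_, h⟩
    · rw [h]
      exact Finset.card_le_two
    · rw [h]
      simp
  · omega

lemma pr_card (h1 : A1) (h3 : A3) (hd : BD d G) (hf : Proper G f) {u : V} (hu : u ∈ G1 G f) :
    (pr G f u).card = 2 := by
  rw [mem_G1] at hu
  rcases h1 d V G f hd hf u (tight h3 hf hu.1) with ⟨_, p, p', hpp, _, _, _, _, h⟩ | ⟨h, _⟩
  · rw [h]
    exact Finset.card_pair hpp
  · omega

/-- the charge -/
def ch (G : SimpleGraph V) (f : V → Option (Fin d)) (v : V) : ℤ :=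
  2 * ((II G f v).card : ℤ) - 2 * (ps G f v : ℤ) + (if v ∈ G1 G f then 2 else 0) - (xx G f v : ℤ)

lemma sum_ch (h1 : A1) (h3 : A3) (hd : BD d G) (hf : Proper G f) : ∑ v : V, ch G f v = 0 := by
  have e1 : (∑ v : V, ((II G f v).card : ℤ)) = ∑ v : V, (ps G f v : ℤ) := by
    have := sum_II (G := G) (f := f)
    exact_mod_cast this
  have e2 : (∑ v : V, (xx G f v : ℤ)) = 2 * ((G1 G f).card : ℤ) := by
    have h := sum_xx (G := G) (f := f)
    rw [Finset.sum_congr rfl fun u hu => pr_card h1 h3 hd hf hu, Finset.sum_const,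
      smul_eq_mul] at h
    have h' : (∑ v : V, (xx G f v : ℤ)) = ((G1 G f).card : ℤ) * 2 := by exact_mod_cast h
    rw [h']
    ring
  have e3 : (∑ v : V, (if v ∈ G1 G f then (2 : ℤ) else 0)) = 2 * ((G1 G f).card : ℤ) := by
    rw [← Finset.sum_filter, Finset.sum_const]
    have : (univ.filter (fun v => v ∈ G1 G f)) = G1 G f := by
      ext u
      simp
    rw [this, nsmul_eq_mul]
    ring
  unfold ch
  rw [Finset.sum_sub_distrib, Finset.sum_add_distrib, Finset.sum_sub_distrib, ← Finset.mul_sum,
    ← Finset.mul_sum, e1, e2, e3]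
  ring

lemma ch_ge (h1 : A1) (h3 : A3) (h5 : A5) (h6 : A6) (h7 : 6 ≤ d) (hd : BD d G)
    (hf : Proper G f) (v : V) :
    (if Good G f v ∧ ¬ Zero G f v then (1 : ℤ) else 0) -
      4 * (if ¬ Good G f v then (1 : ℤ) else 0) ≤ ch G f v := by
  have hx := xx_le h3 hf v
  have hp := ps_le h1 hd hf v
  unfold ch
  by_cases hg : Good G f v
  · have hi : 1 ≤ (II G f v).card := Finset.card_pos.mpr (h5 d V G f hd hf v hg)
    have hx5 : 0 < xx G f v → d ≤ (II G f v).card + 2 := by
      intro h
      obtain ⟨u, hu⟩ := Finset.card_pos.mp h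
      rw [Finset.mem_filter, mem_G1] at hu
      exact h6 d V G f hd hf u hu.1.1 hu.1.2.1 hu.1.2.2 v hu.2
    have ht := tight h3 hf hg
    by_cases hdeg : Deg G v = d
    · by_cases hi1 : (II G f v).card = 1
      · have hm : v ∈ G1 G f := mem_G1.mpr ⟨hg, hdeg, hi1⟩
        have hx0 : xx G f v = 0 := by
          by_contra h
          have := hx5 (Nat.pos_of_ne_zero h)
          omega
        rw [if_pos hm]
        have hnd : ¬ (Good G f v ∧ ¬ Zero G f v) := by
          rintro ⟨_, h⟩
          exact h ⟨hdeg, Or.inl hi1⟩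
        rw [if_neg hnd, if_neg (not_not.mpr hg)]
        omega
      · have hm : v ∉ G1 G f := fun h => hi1 (mem_G1.mp h).2.2
        rw [if_neg hm, if_neg (not_not.mpr hg)]
        by_cases hz : Zero G f v
        · have hnd : ¬ (Good G f v ∧ ¬ Zero G f v) := fun h => h.2 hz
          rw [if_neg hnd]
          rcases Nat.eq_zero_or_pos (xx G f v) with h0 | h0
          · omega
          · have := hx5 h0
            omega
        · rw [if_pos ⟨hg, hz⟩]
          have hi2 : (II G f v).card ≠ 2 := fun h => hz ⟨hdeg, Or.inr (Or.inl h)⟩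
          rcases Nat.eq_zero_or_pos (xx G f v) with h0 | h0
          · omega
          · have h4 := hx5 h0
            by_cases h44 : (II G f v).card = 4
            · have hx3 : xx G f v ≠ 4 := by
                intro hx4
                apply hz
                refine ⟨hdeg, Or.inr (Or.inr ⟨h44, by omega, ?_⟩)⟩
                have hsub : (G1 G f).filter (fun u => v ∈ pr G f u) ⊆ II G f v := by
                  intro u hu
                  rw [Finset.mem_filter, mem_G1] at hu
                  rw [mem_II]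
                  exact ⟨tight h3 hf hu.1.1, hu.2⟩
                have heq : (G1 G f).filter (fun u => v ∈ pr G f u) = II G f v := by
                  apply Finset.eq_of_subset_of_card_le hsub
                  rw [h44]
                  exact hx4.ge
                intro y hy
                rw [← heq, Finset.mem_filter, mem_G1] at hy
                exact hy.1.2.2
              omega
            · omega
    · have hm : v ∉ G1 G f := fun h => hdeg (mem_G1.mp h).2.1
      have hp0 : ps G f v = 0 := by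
        rcases h1 d V G f hd hf v ht with ⟨h, _⟩ | ⟨_, h⟩
        · exact absurd h hdeg
        · unfold ps
          rw [if_pos ht, h]
          rfl
      rw [if_neg hm, if_pos ⟨hg, fun h => hdeg h.1⟩, if_neg (not_not.mpr hg)]
      omega
  · have hm : v ∉ G1 G f := fun h => hg (mem_G1.mp h).1
    have hnd : ¬ (Good G f v ∧ ¬ Zero G f v) := fun h => hg h.1
    rw [if_neg hm, if_neg hnd, if_pos hg]
    omega

end IA7

theorem prfA7 (h1 : A1) (h3 : A3) (h5 : A5) (h6 : A6) : A7 := by
  intro d V _ G f h7 hd hf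
  have hs := IA7.sum_ch h1 h3 hd hf
  have hge := Finset.sum_le_sum fun v (_ : v ∈ (univ : Finset V)) =>
    IA7.ch_ge h1 h3 h5 h6 h7 hd hf v
  rw [hs, Finset.sum_sub_distrib, ← Finset.mul_sum, Finset.sum_boole, Finset.sum_boole] at hge
  have h : (((univ.filter (fun v => Good G f v ∧ ¬ Zero G f v)).card : ℕ) : ℤ) ≤ ((4 * (univ.filter (fun v => ¬ Good G f v)).card : ℕ) : ℤ) := by
    push_cast
    linarith
  exact_mod_cast h

end

end Pool.Agent.Work.MP_47f387_co.Large

end

section

/-!
# Item A8: a regular region exists if there are few bad vertices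
-/

namespace Pool.Agent.Work.MP_47f387_co.Large

open Finset Classical

noncomputable section

theorem prfA8 (h7 : A7) : A8 := by
  intro d V _ G f hd hBD hf hlt
  set X₀ : Finset V := univ.filter (fun v => ¬ Good G f v) with hX₀
  set X₁ : Finset V := univ.filter (fun v => Good G f v ∧ ¬ Zero G f v) with hX₁
  have hX₁c : X₁.card ≤ 4 * X₀.card := h7 d V G f hd hBD hf
  have hXc : (X₀ ∪ X₁).card ≤ 5 * X₀.card := by
    have := card_union_le X₀ X₁
    omega
  have hY : ((X₀ ∪ X₁).biUnion (fun x => univ.filter (fun v => Near G (rad d) x v))).card <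
      Fintype.card V := by
    calc _ ≤ (X₀ ∪ X₁).card * (d + 1) ^ rad d := by
          apply card_biUnion_le_card_mul
          intro x _
          exact near_card hBD (rad d) x
      _ ≤ 5 * X₀.card * (d + 1) ^ rad d := Nat.mul_le_mul_right _ hXc
      _ = 5 * (d + 1) ^ rad d * X₀.card := by ring
      _ < _ := hlt
  obtain ⟨v₀, hv₀⟩ : ∃ v₀, v₀ ∉ (X₀ ∪ X₁).biUnion
      (fun x => univ.filter (fun v => Near G (rad d) x v)) := by
    by_contra hcon
    push Not at hcon
    have : (X₀ ∪ X₁).biUnion (fun x => univ.filter (fun v => Near G (rad d) x v)) = univ :=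
      eq_univ_iff_forall.2 hcon
    rw [this, card_univ] at hY
    exact lt_irrefl _ hY
  refine ⟨v₀, fun x hx => ?_⟩
  have hn : x ∉ X₀ ∪ X₁ := by
    intro h
    exact hv₀ (mem_biUnion.2 ⟨x, h, mem_filter.2 ⟨mem_univ _, near_symm hx⟩⟩)
  rw [mem_union, not_or] at hn
  have hg : Good G f x := by
    by_contra hg
    exact hn.1 (mem_filter.2 ⟨mem_univ _, hg⟩)
  refine ⟨hg, ?_⟩
  by_contra hz
  exact hn.2 (mem_filter.2 ⟨mem_univ _, hg, hz⟩)

end

end Pool.Agent.Work.MP_47f387_co.Large

end

section

/-!
MP_47f387_co, large connected graphs, item A9.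
-/

namespace Pool.Agent.Work.MP_47f387_co.Large

open Finset Classical

noncomputable section

namespace IA9

/-- the key step: a neighbour `u'` outside the pair and outside `II v` is adjacent to all other
neighbours outside `II v` -/
theorem key (h3 : A3) (h4 : A4) (d : ℕ) (V : Type) [Fintype V] (G : SimpleGraph V)
    (f : V → Option (Fin d)) (hf : Proper G f) (v : V) (hg : Good G f v) (u u' : V)
    (hu : G.Adj v u) (huI : u ∉ II G f v) (hu' : G.Adj v u') (hu'I : u' ∉ II G f v)
    (hu'p : u' ∉ pr G f v) (hne : u ≠ u') : G.Adj u u' := by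
  have ht : ∀ w, G.Adj v w → Tt G f w := fun w hw =>
    h3 d V G f hf v hg w (near_succ (near_of_adj hw))
  have hmut : Mut G f v u' := by
    refine ⟨hu', ?_, hu'p⟩
    intro hv
    exact hu'I (mem_II.2 ⟨ht u' hu', hv⟩)
  by_contra hnot
  have := (h4 d V G f hf v u' hg hmut).1 u hu.symm hne hnot
  exact huI (mem_II.2 ⟨ht u hu, this⟩)

end IA9

theorem prfA9 (h1 : A1) (h3 : A3) (h4 : A4) : A9 := by
  intro d V _ G f hd hbd hf v hreg
  obtain ⟨hg, hdeg, hII⟩ := hreg v (near_refl 1 v)
  have ht : ∀ w, Near G 2 v w → Tt G f w := fun w hw => h3 d V G f hf v hg w hw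
  have htv : Tt G f v := ht v (near_refl 2 v)
  have htn : ∀ w, G.Adj v w → Tt G f w := fun w hw => ht w (near_succ (near_of_adj hw))
  obtain ⟨-, p, p', hpp, hfp, hp, hp', hnadj, hpr⟩ :
      Deg G v = d ∧ ∃ p p', p ≠ p' ∧ f p = f p' ∧ G.Adj v p ∧ G.Adj v p' ∧ ¬ G.Adj p p' ∧
      pr G f v = {p, p'} := by
    rcases h1 d V G f hbd hf v htv with h | h
    · exact h
    · exfalso; omega
  set Nv : Finset V := univ.filter (fun u => G.Adj v u) with hNv
  have hNcard : Nv.card = d := hdeg
  have hIIN : II G f v ⊆ Nv := by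
    intro y hy
    rw [hNv, mem_filter]
    exact ⟨mem_univ _, adj_of_mem_II hy⟩
  have hprN : pr G f v ⊆ Nv := by
    intro y hy
    rw [hNv, mem_filter]
    exact ⟨mem_univ _, (mem_pr.1 hy).1⟩
  have part1 : ∃ x ∈ pr G f v, x ∈ II G f v := by
    by_contra hno
    push Not at hno
    have hpI : p ∉ II G f v := hno p (by rw [hpr]; simp)
    have hpI' : p' ∉ II G f v := hno p' (by rw [hpr]; simp)
    set M : Finset V := Nv \ (pr G f v ∪ II G f v) with hM
    have hMcard : d ≤ M.card + 4 := by
      have e1 : Nv.card ≤ M.card + (pr G f v ∪ II G f v).card := by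
        rw [hM]
        exact Finset.card_le_card_sdiff_add_card
      have e2 : (pr G f v ∪ II G f v).card ≤ 4 := by
        refine (card_union_le _ _).trans ?_
        have e3 : (pr G f v).card ≤ 2 := by rw [hpr]; exact card_le_two
        omega
      omega
    have hsub : insert v M ⊆ II G f p := by
      intro a ha
      rw [mem_insert] at ha
      rw [mem_II]
      rcases ha with rfl | ha
      · exact ⟨htv, mem_pr.2 ⟨hp, p', hpp.symm, hp', hfp.symm⟩⟩
      · rw [hM, mem_sdiff, mem_union, not_or, hNv, mem_filter] at ha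
        obtain ⟨⟨-, haN⟩, hap, haI⟩ := ha
        have hne1 : p ≠ a := by
          rintro rfl
          exact hap (by rw [hpr]; simp)
        have hne2 : p' ≠ a := by
          rintro rfl
          exact hap (by rw [hpr]; simp)
        have k1 := IA9.key h3 h4 d V G f hf v hg p a hp hpI haN haI hap hne1
        have k2 := IA9.key h3 h4 d V G f hf v hg p' a hp' hpI' haN haI hap hne2
        exact ⟨htn a haN, mem_pr.2 ⟨k1.symm, p', hpp.symm, k2.symm, hfp.symm⟩⟩
    have hvM : v ∉ M := by
      intro h
      rw [hM, mem_sdiff, hNv, mem_filter] at h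
      exact G.loopless.irrefl v h.1.2
    have hc := card_le_card hsub
    rw [card_insert_of_notMem hvM] at hc
    have hp2 := (hreg p (near_of_adj hp)).2.2
    omega
  refine ⟨part1, ?_⟩
  have hCC : CC G f v = insert v (Nv \ II G f v) := by
    ext u
    rw [mem_CC, mem_insert, mem_sdiff, hNv, mem_filter]
    simp
  rw [SimpleGraph.isNClique_iff]
  constructor
  · rw [SimpleGraph.isClique_iff]
    intro a ha b hb hab
    rw [mem_coe, mem_CC] at ha hb
    rcases ha with rfl | ⟨ha, haI⟩
    · rcases hb with rfl | ⟨hb, -⟩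
      · exact absurd rfl hab
      · exact hb
    · rcases hb with rfl | ⟨hb, hbI⟩
      · exact ha.symm
      · by_cases hbp : b ∈ pr G f v
        · by_cases hap : a ∈ pr G f v
          · exfalso
            obtain ⟨x, hx, hxI⟩ := part1
            rw [hpr] at hap hbp hx
            simp only [mem_insert, mem_singleton] at hap hbp hx
            rcases hap with rfl | rfl
            · rcases hbp with rfl | rfl
              · exact hab rfl
              · rcases hx with rfl | rfl
                · exact haI hxI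
                · exact hbI hxI
            · rcases hbp with rfl | rfl
              · rcases hx with rfl | rfl
                · exact hbI hxI
                · exact haI hxI
              · exact hab rfl
          · exact (IA9.key h3 h4 d V G f hf v hg b a hb hbI ha haI hap hab.symm).symm
        · exact IA9.key h3 h4 d V G f hf v hg a b ha haI hb hbI hbp hab
  · rw [hCC, card_insert_of_notMem, card_sdiff_of_subset hIIN, hNcard, hII]
    · omega
    · intro h
      rw [mem_sdiff, hNv, mem_filter] at h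
      exact G.loopless.irrefl v h.1.2

end

end Pool.Agent.Work.MP_47f387_co.Large

end

section

/-!
# MP_47f387_co, item B1: a sparse dominating set
-/

namespace Pool.Agent.Work.MP_47f387_co.Large

open Finset Classical

noncomputable section

namespace IB1

lemma closed_all {V : Type} {G : SimpleGraph V} (hG : G.Connected) (z : V) (P : V → Prop)
    (hz : P z) (hP : ∀ u w, P u → G.Adj u w → P w) : ∀ u, P u := by
  intro u
  obtain ⟨p⟩ := hG.preconnected z u
  induction p with
  | nil => exact hz
  | cons h _ ih => exact ih (hP _ _ hz h)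

lemma ball_card {V : Type} [Fintype V] {G : SimpleGraph V} (hG : G.Connected) (z z' : V) (s : ℕ)
    (hs : ¬ Near G s z z') : ∀ t ≤ s, t + 1 ≤ (univ.filter (fun u => Near G t z u)).card := by
  intro t
  induction t with
  | zero =>
    intro _
    exact Finset.card_pos.2 ⟨z, by simp [near_refl]⟩
  | succ t ih =>
    intro ht
    have h1 := ih (by omega)
    have hsub : (univ.filter (fun u => Near G t z u)) ⊂ (univ.filter (fun u => Near G (t + 1) z u)) := by
      rw [Finset.ssubset_iff_subset_ne]
      refine ⟨?_, ?_⟩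
      · intro u hu
        simp only [mem_filter, mem_univ, true_and] at hu ⊢
        exact near_succ hu
      · intro heq
        apply hs
        refine near_mono (show t ≤ s by omega) ?_
        refine closed_all hG z (fun u => Near G t z u) (near_refl t z) ?_ z'
        intro u w hu huw
        have hw : w ∈ (univ.filter (fun u => Near G (t + 1) z u)) := by
          simp only [mem_filter, mem_univ, true_and]
          exact near_adj hu huw
        rw [← heq] at hw
        simpa using hw
    have := Finset.card_lt_card hsub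
    omega

end IB1

theorem prfB1 : B1 := by
  intro V _ G R hG hR
  obtain ⟨Z, hZ, hmax⟩ := Finset.exists_max_image
    ((univ : Finset (Finset V)).filter (fun Z => ∀ z ∈ Z, ∀ z' ∈ Z, z ≠ z' → ¬ Near G R z z'))
    Finset.card ⟨∅, by simp⟩
  simp only [mem_filter, mem_univ, true_and] at hZ hmax
  have hdom : ∀ v, ∃ z ∈ Z, Near G R z v := by
    intro v
    by_contra hcon
    push Not at hcon
    have hv : v ∉ Z := fun h => hcon v h (near_refl R v)
    have := hmax (insert v Z) (by
      intro z hz z' hz' hne hN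
      rw [mem_insert] at hz hz'
      rcases hz with rfl | hz
      · rcases hz' with rfl | hz'
        · exact hne rfl
        · exact hcon z' hz' (near_symm hN)
      · rcases hz' with rfl | hz'
        · exact hcon z hz hN
        · exact hZ z hz z' hz' hne hN)
    rw [card_insert_of_notMem hv] at this
    omega
  refine ⟨Z, ?_, hdom⟩
  by_cases h1 : Z.card ≤ 1
  · calc R * Z.card ≤ R * 1 := Nat.mul_le_mul_left _ h1
      _ ≤ 2 * Fintype.card V := by omega
  · push Not at h1
    have hball : ∀ z ∈ Z, R / 2 + 1 ≤ (univ.filter (fun u => Near G (R / 2) z u)).card := by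
      intro z hz
      obtain ⟨z', hz', hne⟩ := Finset.exists_mem_ne h1 z
      refine IB1.ball_card hG z z' R (hZ z hz z' hz' (Ne.symm hne)) (R / 2) (Nat.div_le_self _ _)
    have hdisj : ∀ z ∈ Z, ∀ z' ∈ Z, z ≠ z' →
        Disjoint (univ.filter (fun u => Near G (R / 2) z u))
          (univ.filter (fun u => Near G (R / 2) z' u)) := by
      intro z hz z' hz' hne
      rw [Finset.disjoint_left]
      intro u hu hu'
      simp only [mem_filter, mem_univ, true_and] at hu hu'
      exact hZ z hz z' hz' hne (near_mono (by omega) (near_trans hu (near_symm hu')))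
    have hsum : Z.card * (R / 2 + 1) ≤ Fintype.card V := by
      calc Z.card * (R / 2 + 1) ≤ ∑ z ∈ Z, (univ.filter (fun u => Near G (R / 2) z u)).card := by
            rw [← smul_eq_mul]
            exact Finset.card_nsmul_le_sum _ _ _ hball
        _ = (Z.biUnion (fun z => univ.filter (fun u => Near G (R / 2) z u))).card := by
            rw [Finset.card_biUnion hdisj]
        _ ≤ _ := card_le_univ _
    calc R * Z.card ≤ (2 * (R / 2 + 1)) * Z.card := Nat.mul_le_mul_right _ (by omega)
      _ = 2 * (Z.card * (R / 2 + 1)) := by ring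
      _ ≤ _ := Nat.mul_le_mul_left _ hsum

end

end Pool.Agent.Work.MP_47f387_co.Large

end

section

/-!
# MP_47f387_co, item B2: the order of colouring
-/

namespace Pool.Agent.Work.MP_47f387_co.Large

open Finset Classical

noncomputable section

namespace IB2

lemma greedy {V : Type} [Fintype V] {d : ℕ} {G : SimpleGraph V} (hd : BD d G) (s : Finset V) :
    ∃ g : V → ℕ, (∀ v, g v < d + 1) ∧ ∀ u ∈ s, ∀ v ∈ s, G.Adj u v → g u ≠ g v := by
  induction s using Finset.induction_on with
  | empty => exact ⟨fun _ => 0, fun _ => Nat.succ_pos d, by simp⟩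
  | insert a s ha ih =>
    obtain ⟨g, hg, hgs⟩ := ih
    have hlt : ((univ.filter (fun u => G.Adj a u)).image g).card < (Finset.range (d + 1)).card := by
      rw [card_range]
      exact lt_of_le_of_lt card_image_le (Nat.lt_succ_of_le (hd a))
    obtain ⟨c, hc, hc'⟩ := Finset.exists_mem_notMem_of_card_lt_card hlt
    have hcn : ∀ u, G.Adj a u → g u ≠ c := by
      intro u hu he
      exact hc' (mem_image.2 ⟨u, by simp [hu], he⟩)
    refine ⟨Function.update g a c, ?_, ?_⟩
    · intro v
      by_cases h : v = a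
      · subst h; simpa using hc
      · rw [Function.update_of_ne h]; exact hg v
    · intro u hu v hv huv
      by_cases h : u = a
      · subst h
        have h' : v ≠ u := huv.ne'
        rw [Function.update_self, Function.update_of_ne h']
        exact (hcn v huv).symm
      · by_cases h' : v = a
        · subst h'
          rw [Function.update_self, Function.update_of_ne h]
          exact hcn u huv.symm
        · rw [Function.update_of_ne h, Function.update_of_ne h']
          exact hgs u (mem_of_mem_insert_of_ne hu h) v (mem_of_mem_insert_of_ne hv h') huv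

end IB2

theorem prfB2 : B2 := by
  intro d V _ G R Z hd hZ
  obtain ⟨g, hg, hgs⟩ := IB2.greedy hd (univ : Finset V)
  have hex : ∀ v, ∃ r, ∃ z ∈ Z, Near G r z v := fun v => ⟨R, hZ v⟩
  have hδ : ∀ v, Nat.find (hex v) ≤ R := fun v => Nat.find_le (hZ v)
  refine ⟨fun v => (R - Nat.find (hex v)) * (d + 1) + g v, ?_, ?_, ?_⟩
  · intro v
    have h1 : (R - Nat.find (hex v)) * (d + 1) ≤ R * (d + 1) := Nat.mul_le_mul_right _ (by omega)
    have h2 := hg v
    have h3 : (R + 1) * (d + 1) = R * (d + 1) + (d + 1) := by ring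
    show _ + _ < _
    omega
  · intro u v huv h
    have h1 := congrArg (· % (d + 1)) h
    simp only [Nat.mul_add_mod_self_right] at h1
    rw [Nat.mod_eq_of_lt (hg u), Nat.mod_eq_of_lt (hg v)] at h1
    exact hgs u (mem_univ _) v (mem_univ _) huv h1
  · intro v hv
    obtain ⟨z, hz, hN⟩ := Nat.find_spec (hex v)
    have hmin := fun m => @Nat.find_min _ _ (hex v) m
    rcases hn : Nat.find (hex v) with _ | n
    · rw [hn] at hN
      exfalso
      apply hv
      have : z = v := hN
      rwa [← this]
    · rw [hn] at hN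
      rcases hN with hN | ⟨w, hw, hwv⟩
      · exact absurd ⟨z, hz, hN⟩ (hmin n (by omega))
      · refine ⟨w, hwv.symm, ?_⟩
        have hw' : Nat.find (hex w) ≤ n := Nat.find_le ⟨z, hz, hw⟩
        have hR : n + 1 ≤ R := by rw [← hn]; exact hδ v
        have h1 : (R - n) * (d + 1) ≤ (R - Nat.find (hex w)) * (d + 1) :=
          Nat.mul_le_mul_right _ (by omega)
        have h2 : (R - n) * (d + 1) = (R - (n + 1)) * (d + 1) + (d + 1) := by
          have : R - n = (R - (n + 1)) + 1 := by omega
          rw [this]; ring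
        have h3 := hg v
        show (R - Nat.find (hex v)) * (d + 1) + g v < (R - Nat.find (hex w)) * (d + 1) + g w
        rw [hn]
        omega

end

end Pool.Agent.Work.MP_47f387_co.Large

end
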