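import Pool.Agent.Work.MP_47f387_co.Defs

/-! Bundle of small proof modules (one section per former module). -/

section

/-!
# MP_47f387_co (equitable colouring of graphs with small chromatic number): item statements
-/

namespace Pool.Agent.Work.MP_47f387_co

open Finset

/-- Item Color: from a partition with sizes `s`, `s + 1` to an equitable colouring. -/
def ClaimColor : Prop :=
  ∀ (V : Type) [Fintype V] [DecidableEq V] (G : SimpleGraph V) (L : List ℕ) (s : ℕ),
    PL G L (univ : Finset V) → (∀ a ∈ L, a = s ∨ a = s + 1) → Equi G L.length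

/-- Item Peel: an independent set `X` is completed, piece by piece, by vertices of an
independent set `Y`, when every vertex of `X` has at most `d` neighbours in `Y`. -/
def ClaimPeel : Prop :=
  ∀ (V : Type) [Fintype V] [DecidableEq V] (G : SimpleGraph V) [DecidableRel G.Adj]
    (X Y : Finset V) (S y d : ℕ), Ind G X → Ind G Y → Disjoint X Y → 1 ≤ y → y ≤ S →
    (∀ v ∈ X, (G.neighborFinset v ∩ Y).card ≤ d) →
    y * d + (X.card / y + 1) * S ≤ Y.card →
    ∃ D ⊆ Y, ∃ h : ℕ, h ≤ X.card / y + 1 ∧ X.card + D.card = h * S ∧ Til G S (X ∪ D)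

/-- Item Pure: `q` tiles of size `S`, each inside one class. -/
def ClaimPure : Prop :=
  ∀ (V : Type) [Fintype V] [DecidableEq V] (G : SimpleGraph V) (t q S : ℕ)
    (A : Fin t → Finset V) (W : Finset V), (∀ i, Ind G (A i)) →
    (∀ i j, i ≠ j → Disjoint (A i) (A j)) → W ⊆ univ.biUnion A → 1 ≤ S →
    q * S + t * S ≤ W.card →
    ∃ W' ⊆ W, PL G (List.replicate q S) (W \ W') ∧
      ∀ i, ∃ m : ℕ, (A i ∩ W).card = (A i ∩ W').card + m * S

/-- Item Flex: when both sizes `s` and `s + 1` are plentiful. -/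
def ClaimFlex : Prop :=
  ∀ (V : Type) [Fintype V] [DecidableEq V] (G : SimpleGraph V) [DecidableRel G.Adj]
    (t k s e D : ℕ) (A : Fin t → Finset V), (∀ i, Ind G (A i)) →
    (∀ i j, i ≠ j → Disjoint (A i) (A j)) → univ.biUnion A = (univ : Finset V) →
    (∀ v, G.degree v ≤ D) → 2 ≤ s → Fintype.card V = k * s + e → e ≤ k →
    D + 4 * t * s ^ 3 ≤ Fintype.card V → t * (s + 1) ^ 3 ≤ e → t * (s + 1) ^ 3 + e ≤ k →
    ∃ L : List ℕ, PL G L (univ : Finset V) ∧ L.length = k ∧ ∀ a ∈ L, a = s ∨ a = s + 1

/-- Item B: the blocks are made divisible one after the other. -/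
def ClaimB : Prop :=
  ∀ (V : Type) [Fintype V] [DecidableEq V] (G : SimpleGraph V) [DecidableRel G.Adj]
    (p S y M D Z : ℕ) (B : Fin p → Finset V), (∀ i, Ind G (B i)) →
    (∀ i j, i ≠ j → Disjoint (B i) (B j)) → (∀ v, G.degree v ≤ D) →
    1 ≤ y → y ≤ S → S ≤ M * y → Z = 40 * (5 * M + 13) * S →
    (∀ i, Z ≤ (B i).card + S) → (∀ i, (B i).card ≤ Z) → 100 ≤ p →
    100 * (D * y) ≤ 35 * (p * Z) → S ∣ (univ.biUnion B).card → Til G S (univ.biUnion B)

/-- Item A: the small pieces are completed by vertices of pairwise different blocks. -/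
def ClaimA : Prop :=
  ∀ (V : Type) [Fintype V] [DecidableEq V] (G : SimpleGraph V) [DecidableRel G.Adj]
    (p S y M D Z : ℕ) (B : Fin p → Finset V) (Ls : List (Finset V)), (∀ i, Ind G (B i)) →
    (∀ i j, i ≠ j → Disjoint (B i) (B j)) → (∀ v, G.degree v ≤ D) →
    1 ≤ y → y ≤ S → S ≤ M * y → Z = 40 * (5 * M + 13) * S →
    (∀ i, (B i).card = Z) → 100 ≤ p → 100 * (D * y) ≤ 35 * (p * Z) →
    5 * Ls.length ≤ p → Ls.Pairwise Disjoint →
    (∀ X ∈ Ls, Ind G X ∧ X.card ≤ y ∧ Disjoint X (univ.biUnion B)) →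
    ∃ W ⊆ univ.biUnion B, (∀ i, (B i \ W).card ≤ S) ∧
      Til G S (Ls.foldr (· ∪ ·) ∅ ∪ (univ.biUnion B \ W))

/-- Item AB: blocks of size exactly `Z` and rests of size at most `Z`. -/
def ClaimAB : Prop :=
  ∀ (V : Type) [Fintype V] [DecidableEq V] (G : SimpleGraph V) [DecidableRel G.Adj]
    (p t S y M D Z : ℕ) (B : Fin p → Finset V) (C : Fin t → Finset V),
    (∀ i, Ind G (B i)) → (∀ i, Ind G (C i)) →
    (∀ i j, i ≠ j → Disjoint (B i) (B j)) → (∀ i j, i ≠ j → Disjoint (C i) (C j)) →
    (∀ i j, Disjoint (B i) (C j)) → (∀ v, G.degree v ≤ D) →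
    1 ≤ y → y ≤ S → S ≤ M * y → Z = 40 * (5 * M + 13) * S →
    (∀ i, (B i).card = Z) → (∀ i, (C i).card ≤ Z) →
    100 ≤ p → 5 * ((M + 1) * t) ≤ p → 100 * (D * y) ≤ 35 * (p * Z) →
    S ∣ (univ.biUnion B ∪ univ.biUnion C).card →
    Til G S (univ.biUnion B ∪ univ.biUnion C)

/-- Item One: the divisible case. -/
def ClaimOne : Prop :=
  ∀ (V : Type) [Fintype V] [DecidableEq V] (G : SimpleGraph V) [DecidableRel G.Adj]
    (t S y M D : ℕ) (A : Fin t → Finset V), (∀ i, Ind G (A i)) →
    (∀ i j, i ≠ j → Disjoint (A i) (A j)) → (∀ v, G.degree v ≤ D) →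
    1 ≤ y → y ≤ S → S ≤ M * y → 1 ≤ t →
    (5 * M + 101) * (40 * (5 * M + 13) * S) * t ≤ (univ.biUnion A).card →
    100 * (D * y) ≤ 34 * (univ.biUnion A).card → S ∣ (univ.biUnion A).card →
    Til G S (univ.biUnion A)

/-- Item Two: the general case (`k` classes, sizes `s` and `s + 1`), when the numerical
conditions hold for the majority size. -/
def ClaimTwo : Prop :=
  ∀ (V : Type) [Fintype V] [DecidableEq V] (G : SimpleGraph V) [DecidableRel G.Adj]
    (t k s e y M D S : ℕ), G.Colorable t → (∀ v, G.degree v ≤ D) →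
    1 ≤ t → Fintype.card V = k * s + e → e ≤ k → 2 ≤ s →
    ((2 * e ≤ k ∧ S = s ∧ 100 * (D * y) ≤ 34 * ((k - e) * S)) ∨
      (k < 2 * e ∧ S = s + 1 ∧ 100 * (D * y) ≤ 34 * (e * S))) →
    1 ≤ y → y ≤ S → S ≤ M * y →
    2 * ((5 * M + 101) * (40 * (5 * M + 13)) * t) ≤ k → Equi G k

/-- The main theorem. -/
def MainThm : Prop :=
  (∀ (V : Type) [Fintype V] [DecidableEq V] (G : SimpleGraph V) [DecidableRel G.Adj]
    (t : ℕ), G.Colorable t → 10 ^ 6 * t ≤ G.maxDegree →
    ((10 * Fintype.card V ≤ 19 * G.maxDegree ∨ 21 * G.maxDegree ≤ 10 * Fintype.card V) →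
      Equi G G.maxDegree) ∧ ∃ k ≤ G.maxDegree, Equi G k) ∧
  (∀ R : ℕ, ∃ C : ℕ, ∀ (V : Type) [Fintype V] [DecidableEq V] (G : SimpleGraph V)
    [DecidableRel G.Adj] (t k : ℕ), G.Colorable t → C * t ≤ k → C * k ≤ Fintype.card V →
    G.maxDegree ≤ R * k → Equi G k)

end Pool.Agent.Work.MP_47f387_co

end

section

/-!
# Item Color
-/

namespace Pool.Agent.Work.MP_47f387_co

open Finset

theorem color_aux {V : Type} [DecidableEq V] {G : SimpleGraph V} {L : List ℕ} {U : Finset V}
    (h : PL G L U) : ∃ c : V → ℕ, (∀ v ∈ U, c v < L.length) ∧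
      (∀ v ∈ U, ∀ w ∈ U, G.Adj v w → c v ≠ c w) ∧
      ∀ (i : ℕ) (hi : i < L.length), (U.filter fun v => c v = i).card = L[i] := by
  induction h with
  | nil => exact ⟨fun _ => 0, by simp, by simp, by simp⟩
  | @cons L U W hd hW hU ih =>
    obtain ⟨c, h1, h2, h3⟩ := ih
    have hdU : ∀ v ∈ U, v ∉ W := fun v hv hvW => disjoint_left.1 hd hvW hv
    refine ⟨fun v => if v ∈ W then 0 else c v + 1, fun v hv => ?_, fun v hv w hw hadj => ?_,
      fun i hi => ?_⟩
    · by_cases hvW : v ∈ W
      · simp [hvW]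
      · have := h1 v ((mem_union.1 hv).resolve_left hvW)
        simp [hvW, this]
    · by_cases hvW : v ∈ W <;> by_cases hwW : w ∈ W
      · exact absurd hadj (hW v hvW w hwW)
      · simp [hvW, hwW]
      · simp [hvW, hwW]
      · have := h2 v ((mem_union.1 hv).resolve_left hvW) w ((mem_union.1 hw).resolve_left hwW) hadj
        simp [hvW, hwW, this]
    · rcases i with _ | i
      · have e : ((W ∪ U).filter fun v => (if v ∈ W then 0 else c v + 1) = 0) = W := by
          ext v
          simp only [mem_filter, mem_union]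
          by_cases hvW : v ∈ W <;> simp [hvW]
        rw [e]
        rfl
      · have hi' : i < L.length := by simpa using hi
        have e : ((W ∪ U).filter fun v => (if v ∈ W then 0 else c v + 1) = i + 1) =
            U.filter fun v => c v = i := by
          ext v
          simp only [mem_filter, mem_union]
          by_cases hvW : v ∈ W
          · have : v ∉ U := fun hvU => hdU v hvU hvW
            simp [hvW, this]
          · simp [hvW]
        rw [e, h3 i hi']
        rfl

theorem claimColor : ClaimColor := by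
  intro V _ _ G L s hPL hL
  obtain ⟨c, h1, h2, h3⟩ := color_aux hPL
  refine ⟨SimpleGraph.Coloring.mk (fun v => ⟨c v, h1 v (mem_univ v)⟩) fun {v w} hadj h => ?_,
    fun i j => ?_⟩
  · exact h2 v (mem_univ v) w (mem_univ w) hadj (Fin.mk.inj_iff.1 h)
  · have key : ∀ i : Fin L.length, (univ.filter fun v => (SimpleGraph.Coloring.mk
        (fun v => (⟨c v, h1 v (mem_univ v)⟩ : Fin L.length)) (fun {v w} hadj h =>
          h2 v (mem_univ v) w (mem_univ w) hadj (Fin.mk.inj_iff.1 h)) :
          G.Coloring (Fin L.length)) v = i).card = L[(i : ℕ)]'i.2 := by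
      intro i
      rw [← h3 i i.2]
      congr 1
      ext v
      simp only [mem_filter, mem_univ, true_and]
      exact Fin.ext_iff
    rw [key, key]
    have a1 := hL (L[(i : ℕ)]'i.2) (List.getElem_mem _)
    have a2 := hL (L[(j : ℕ)]'j.2) (List.getElem_mem _)
    omega

end Pool.Agent.Work.MP_47f387_co

end

section

/-!
# Item Flex: both sizes `s` and `s + 1` are plentiful
-/

namespace Pool.Agent.Work.MP_47f387_co

open Finset

section Flex

variable {V : Type} [DecidableEq V] {G : SimpleGraph V}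

lemma flex_til {L : List ℕ} {U : Finset V} {S : ℕ} (h : PL G L U) (hL : ∀ a ∈ L, S ∣ a) :
    Til G S U := by
  induction h with
  | nil => exact Til.empty S
  | @cons L U W hd hW hU ih =>
    refine Til.union (Til.of_ind hW (hL _ List.mem_cons_self)) (ih fun a ha => ?_) hd
    exact hL a (List.mem_cons_of_mem _ ha)

lemma flex_til_repl {q a : ℕ} {U : Finset V} {S : ℕ} (h : PL G (List.replicate q a) U)
    (ha : S ∣ a) : Til G S U := by
  refine flex_til h fun b hb => ?_
  rw [List.eq_of_mem_replicate hb]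
  exact ha

/-- Step 1: the vertices of the small classes are completed one by one. -/
lemma flex_step1 [Fintype V] [DecidableRel G.Adj] {t s D : ℕ} (A : Fin t → Finset V)
    (hA : ∀ i, Ind G (A i)) (hd : ∀ i j, i ≠ j → Disjoint (A i) (A j))
    (hdeg : ∀ v, G.degree v ≤ D) (hs : 2 ≤ s) (I : Finset (Fin t))
    (hI : ∀ i ∈ I, s ^ 2 ≤ (A i).card) (Sm : Finset V) (hSm : Disjoint Sm (I.biUnion A))
    (hSc : Sm.card ≤ t * s ^ 2)
    (hn : D + 3 * t * s ^ 3 + t * s ^ 3 ≤ (I.biUnion A).card + t * s ^ 2) :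
    ∀ X ⊆ Sm, ∃ R ⊆ I.biUnion A, R.card = (s - 1) * X.card ∧
      (∀ i ∈ I, s ^ 2 ≤ (A i \ R).card) ∧ Til G s (X ∪ R) := by
  intro X
  induction X using Finset.induction_on with
  | empty =>
    intro _
    refine ⟨∅, empty_subset _, by simp, fun i hi => by simpa using hI i hi, ?_⟩
    simpa using Til.empty s
  | insert v X hv ih =>
    intro hX
    have hXs : X ⊆ Sm := (subset_insert v X).trans hX
    have hvS : v ∈ Sm := hX (mem_insert_self v X)
    obtain ⟨R, hR, hRc, hRi, hRt⟩ := ih hXs
    have hcard : X.card + 1 ≤ t * s ^ 2 := by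
      have h1 := card_le_card hX
      rw [card_insert_of_notMem hv] at h1
      omega
    have ht : 0 < t := by
      rcases Nat.eq_zero_or_pos t with h | h
      · rw [h] at hcard
        omega
      · exact h
    obtain ⟨s', rfl⟩ : ∃ s', s = s' + 2 := ⟨s - 2, by omega⟩
    -- a class with many vertices outside the neighbourhood
    have hex : ∃ i ∈ I, (s' + 2) ^ 2 + (s' + 2) - 1 ≤ ((A i \ R) \ G.neighborFinset v).card := by
      by_contra hcon
      push Not at hcon
      have h2 : ((I.biUnion A \ R) \ G.neighborFinset v).card ≤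
          I.card * ((s' + 2) ^ 2 + (s' + 2)) := by
        have h3 : (I.biUnion A \ R) \ G.neighborFinset v =
            I.biUnion fun i => (A i \ R) \ G.neighborFinset v := by
          ext x
          simp only [mem_sdiff, mem_biUnion]
          constructor
          · rintro ⟨⟨⟨i, hi, hx⟩, h4⟩, h5⟩
            exact ⟨i, hi, ⟨hx, h4⟩, h5⟩
          · rintro ⟨i, hi, ⟨hx, h4⟩, h5⟩
            exact ⟨⟨⟨i, hi, hx⟩, h4⟩, h5⟩
        rw [h3]
        refine card_biUnion_le_card_mul _ _ _ fun i hi => ?_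
        have := hcon i hi
        omega
      have h4 : I.card ≤ t := by
        have := card_le_univ I
        simpa using this
      have h5 : (I.biUnion A \ R).card = (I.biUnion A).card - R.card := card_sdiff_of_subset hR
      have h6 : (I.biUnion A \ R).card ≤ ((I.biUnion A \ R) \ G.neighborFinset v).card +
          (G.neighborFinset v).card := by
        have := card_le_card (show (I.biUnion A \ R) ⊆
          ((I.biUnion A \ R) \ G.neighborFinset v) ∪ G.neighborFinset v by
            intro x hx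
            by_cases hxn : x ∈ G.neighborFinset v
            · exact mem_union_right _ hxn
            · exact mem_union_left _ (mem_sdiff.mpr ⟨hx, hxn⟩))
        exact this.trans (card_union_le _ _)
      have h7 : (G.neighborFinset v).card ≤ D := by
        rw [SimpleGraph.card_neighborFinset_eq_degree]
        exact hdeg v
      have h8 : R.card + (s' + 1) ≤ (s' + 1) * (t * (s' + 2) ^ 2) := by
        rw [hRc]
        have : s' + 2 - 1 = s' + 1 := by omega
        rw [this]
        calc (s' + 1) * X.card + (s' + 1) = (s' + 1) * (X.card + 1) := by ring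
          _ ≤ _ := Nat.mul_le_mul_left _ hcard
      have h9 : I.card * ((s' + 2) ^ 2 + (s' + 2)) ≤ t * ((s' + 2) ^ 2 + (s' + 2)) :=
        Nat.mul_le_mul_right _ h4
      have h10 : (I.biUnion A).card ≤ t * ((s' + 2) ^ 2 + (s' + 2)) + D +
          (s' + 1) * (t * (s' + 2) ^ 2) := by
        omega
      have h11 : D + 3 * t * (s' + 2) ^ 3 + t * (s' + 2) ^ 3 ≤
          t * ((s' + 2) ^ 2 + (s' + 2)) + D + (s' + 1) * (t * (s' + 2) ^ 2) +
            t * (s' + 2) ^ 2 := by
        omega
      have h12 : (s' + 1) * (t * (s' + 2) ^ 2) + t * (s' + 2) ^ 2 = t * (s' + 2) ^ 3 := by ring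
      have h13 : t * ((s' + 2) ^ 2 + (s' + 2)) < 3 * t * (s' + 2) ^ 3 := by
        have h14 : (s' + 2) ^ 2 + (s' + 2) < 3 * (s' + 2) ^ 3 := by
          ring_nf
          omega
        calc t * ((s' + 2) ^ 2 + (s' + 2)) < t * (3 * (s' + 2) ^ 3) :=
              Nat.mul_lt_mul_of_pos_left h14 ht
          _ = _ := by ring
      omega
    obtain ⟨i, hi, hic⟩ := hex
    have h15 : s' + 1 ≤ ((A i \ R) \ G.neighborFinset v).card := by
      refine le_trans ?_ hic
      have : 0 < (s' + 2) ^ 2 := by positivity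
      omega
    obtain ⟨D', hD', hD'c⟩ := exists_subset_card_eq h15
    have hD'A : D' ⊆ A i := fun x hx => (mem_sdiff.mp (mem_sdiff.mp (hD' hx)).1).1
    have hD'R : Disjoint D' R := disjoint_left.mpr fun x hx =>
      (mem_sdiff.mp (mem_sdiff.mp (hD' hx)).1).2
    have hD'N : ∀ x ∈ D', ¬ G.Adj v x := fun x hx hadj =>
      (mem_sdiff.mp (hD' hx)).2 ((G.mem_neighborFinset v x).mpr hadj)
    have hD'B : D' ⊆ I.biUnion A := hD'A.trans (subset_biUnion_of_mem A hi)
    have hvB : v ∉ I.biUnion A := disjoint_left.mp hSm hvS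
    have hvD : v ∉ D' := fun h => hvB (hD'B h)
    refine ⟨D' ∪ R, union_subset hD'B hR, ?_, ?_, ?_⟩
    · rw [card_union_of_disjoint hD'R, hD'c, hRc, card_insert_of_notMem hv]
      have : s' + 2 - 1 = s' + 1 := by omega
      rw [this]
      ring
    · intro j hj
      by_cases hji : j = i
      · subst hji
        have h16 : (A j \ R).card ≤ (A j \ (D' ∪ R)).card + D'.card := by
          have := card_le_card (show (A j \ R) ⊆ (A j \ (D' ∪ R)) ∪ D' by
            intro x hx
            by_cases hxn : x ∈ D'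
            · exact mem_union_right _ hxn
            · refine mem_union_left _ (mem_sdiff.mpr ⟨(mem_sdiff.mp hx).1, ?_⟩)
              intro hc
              rcases mem_union.mp hc with hc | hc
              · exact hxn hc
              · exact (mem_sdiff.mp hx).2 hc)
          exact this.trans (card_union_le _ _)
        have h17 : ((A j \ R) \ G.neighborFinset v).card ≤ (A j \ R).card :=
          card_le_card sdiff_subset
        have : 0 < (s' + 2) ^ 2 := by positivity
        omega
      · have h18 : A j \ (D' ∪ R) = A j \ R := by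
          ext x
          simp only [mem_sdiff, mem_union]
          constructor
          · rintro ⟨h1, h2⟩
            exact ⟨h1, fun h => h2 (Or.inr h)⟩
          · rintro ⟨h1, h2⟩
            refine ⟨h1, ?_⟩
            rintro (h | h)
            · exact disjoint_left.mp (hd j i hji) h1 (hD'A h)
            · exact h2 h
        rw [h18]
        exact hRi j hj
    · have hind : Ind G (insert v D') := by
        intro a ha b hb hab
        rcases mem_insert.mp ha with rfl | ha'
        · rcases mem_insert.mp hb with rfl | hb'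
          · exact G.loopless.irrefl _ hab
          · exact hD'N b hb' hab
        · rcases mem_insert.mp hb with rfl | hb'
          · exact hD'N a ha' hab.symm
          · exact hA i a (hD'A ha') b (hD'A hb') hab
      have hc : (insert v D').card = s' + 2 := by
        rw [card_insert_of_notMem hvD, hD'c]
      have hdis : Disjoint (insert v D') (X ∪ R) := by
        rw [disjoint_left]
        intro x hx hx2
        rcases mem_insert.mp hx with rfl | hx'
        · rcases mem_union.mp hx2 with h | h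
          · exact hv h
          · exact hvB (hR h)
        · rcases mem_union.mp hx2 with h | h
          · exact disjoint_left.mp hSm (hXs h) (hD'B hx')
          · exact disjoint_left.mp hD'R hx' h
      have h19 := Til.union (Til.one hind hc) hRt hdis
      have h20 : insert v D' ∪ (X ∪ R) = insert v X ∪ (D' ∪ R) := by
        ext x
        simp only [mem_union, mem_insert]
        tauto
      rwa [h20] at h19

end Flex

theorem claimFlex (hP : ClaimPure) : ClaimFlex := by
  intro V _ _ G _ t k s e D A hA hd hcov hdeg hs hn hek hD he hk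
  classical
  have hcovm : ∀ v : V, ∃ i, v ∈ A i := by
    intro v
    have h1 : v ∈ univ.biUnion A := by
      rw [hcov]
      exact mem_univ v
    obtain ⟨i, -, hi⟩ := mem_biUnion.mp h1
    exact ⟨i, hi⟩
  -- small and big classes
  set I : Finset (Fin t) := univ.filter fun i => s ^ 2 ≤ (A i).card with hI
  set Sm : Finset V := univ \ I.biUnion A with hSm
  have hSmd : Disjoint Sm (I.biUnion A) := sdiff_disjoint
  have hSmc : Sm.card ≤ t * s ^ 2 := by
    have h1 : Sm ⊆ (univ \ I).biUnion A := by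
      intro v hv
      obtain ⟨i, hi⟩ := hcovm v
      refine mem_biUnion.mpr ⟨i, ?_, hi⟩
      rw [mem_sdiff]
      refine ⟨mem_univ i, fun h => ?_⟩
      exact (mem_sdiff.mp hv).2 (mem_biUnion.mpr ⟨i, h, hi⟩)
    refine (card_le_card h1).trans ?_
    refine (card_biUnion_le_card_mul _ _ (s ^ 2) fun i hi => ?_).trans ?_
    · have h2 : i ∉ I := (mem_sdiff.mp hi).2
      rw [hI, mem_filter] at h2
      push Not at h2
      exact (h2 (mem_univ i)).le
    · refine Nat.mul_le_mul_right _ ?_
      have := card_le_univ (univ \ I)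
      simpa using this
  have hBc : (I.biUnion A).card + Sm.card = Fintype.card V := by
    rw [hSm, card_sdiff_of_subset (subset_univ _), card_univ]
    have := card_le_univ (I.biUnion A)
    omega
  have hnB : D + 3 * t * s ^ 3 + t * s ^ 3 ≤ (I.biUnion A).card + t * s ^ 2 := by
    have : D + 3 * t * s ^ 3 + t * s ^ 3 = D + 4 * t * s ^ 3 := by ring
    omega
  obtain ⟨R, hR, hRc, hRi, hRt⟩ := flex_step1 A hA hd hdeg hs I
    (fun i hi => (mem_filter.mp hi).2) Sm hSmd hSmc hnB Sm (Subset.refl _)
  -- the remaining set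
  set W : Finset V := I.biUnion A \ R with hW
  have hWc : W.card + s * Sm.card = Fintype.card V := by
    have h1 : W.card = (I.biUnion A).card - R.card := card_sdiff_of_subset hR
    have h2 : R.card ≤ (I.biUnion A).card := card_le_card hR
    have h3 : s * Sm.card = (s - 1) * Sm.card + Sm.card := by
      obtain ⟨s', rfl⟩ : ∃ s', s = s' + 1 := ⟨s - 1, by omega⟩
      rw [Nat.add_sub_cancel]
      ring
    omega
  have hWi : ∀ i ∈ I, A i ∩ W = A i \ R := by
    intro i hi
    ext x
    simp only [hW, mem_inter, mem_sdiff]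
    constructor
    · rintro ⟨h1, -, h2⟩
      exact ⟨h1, h2⟩
    · rintro ⟨h1, h2⟩
      exact ⟨h1, mem_biUnion.mpr ⟨i, hi, h1⟩, h2⟩
  have hWn : ∀ i ∉ I, A i ∩ W = ∅ := by
    intro i hi
    ext x
    simp only [hW, mem_inter, mem_sdiff, notMem_empty, iff_false]
    rintro ⟨h1, h2, -⟩
    obtain ⟨j, hj, hj2⟩ := mem_biUnion.mp h2
    have hne : i ≠ j := by
      rintro rfl
      exact hi hj
    exact disjoint_left.mp (hd i j hne) h1 hj2
  -- step 2
  have hT : ∀ i, ∃ T ⊆ A i ∩ W, T.card = (A i ∩ W).card % s * (s + 1) := by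
    intro i
    apply exists_subset_card_eq
    by_cases hi : i ∈ I
    · have h1 := hRi i hi
      rw [← hWi i hi] at h1
      refine le_trans ?_ h1
      obtain ⟨s', rfl⟩ : ∃ s', s = s' + 1 := ⟨s - 1, by omega⟩
      have h2 : (A i ∩ W).card % (s' + 1) ≤ s' := by
        have := Nat.mod_lt (A i ∩ W).card (show 0 < s' + 1 by omega)
        omega
      calc (A i ∩ W).card % (s' + 1) * (s' + 1 + 1) ≤ s' * (s' + 1 + 1) :=
            Nat.mul_le_mul_right _ h2
        _ ≤ (s' + 1) ^ 2 := by nlinarith
    · rw [hWn i hi]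
      simp
  choose T hTs hTc using hT
  have hTd : ∀ i j, i ≠ j → Disjoint (T i) (T j) := by
    intro i j hij
    refine disjoint_of_subset_left ((hTs i).trans inter_subset_left) ?_
    exact disjoint_of_subset_right ((hTs j).trans inter_subset_left) (hd i j hij)
  have hTind : ∀ i, Ind G (T i) := fun i => (hA i).mono ((hTs i).trans inter_subset_left)
  set TT : Finset V := univ.biUnion T with hTT
  set b : ℕ := ∑ i, (A i ∩ W).card % s with hb
  have hTTc : TT.card = b * (s + 1) := by
    rw [hTT, card_biUnion (fun i _ j _ hij => hTd i j hij), hb, sum_mul]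
    exact sum_congr rfl fun i _ => hTc i
  have hTTt : Til G (s + 1) TT := by
    refine Til.biUnion univ T (fun i _ j _ hij => hTd i j hij) fun i _ => ?_
    exact Til.of_ind (hTind i) (by rw [hTc i]; exact Dvd.intro_left _ rfl)
  have hTTW : TT ⊆ W := by
    intro x hx
    obtain ⟨i, -, hi⟩ := mem_biUnion.mp hx
    exact (mem_inter.mp (hTs i hi)).2
  have hbt : b ≤ t * s := by
    calc b ≤ ∑ _i : Fin t, s := by
          rw [hb]
          exact sum_le_sum fun i _ => (Nat.mod_lt _ (by omega)).le
      _ = t * s := by simp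
  set W2 : Finset V := W \ TT with hW2
  have hW2c : W2.card + b * (s + 1) = W.card := by
    have h1 : W2.card = W.card - TT.card := card_sdiff_of_subset hTTW
    have h2 := card_le_card hTTW
    omega
  have hW2i : ∀ i, (A i ∩ W2).card + (T i).card = (A i ∩ W).card := by
    intro i
    have h1 : A i ∩ W2 = (A i ∩ W) \ T i := by
      ext x
      simp only [hW2, mem_inter, mem_sdiff]
      constructor
      · rintro ⟨h1, h2, h3⟩
        exact ⟨⟨h1, h2⟩, fun h => h3 (mem_biUnion.mpr ⟨i, mem_univ i, h⟩)⟩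
      · rintro ⟨⟨h1, h2⟩, h3⟩
        refine ⟨h1, h2, fun h => ?_⟩
        obtain ⟨j, -, hj⟩ := mem_biUnion.mp h
        by_cases hij : i = j
        · subst hij
          exact h3 hj
        · exact disjoint_left.mp (hd i j hij) h1 (mem_inter.mp (hTs j hj)).1
    rw [h1, card_sdiff_of_subset (hTs i)]
    have := card_le_card (hTs i)
    omega
  have hW2d : ∀ i, s ∣ (A i ∩ W2).card := by
    intro i
    have h1 := hW2i i
    rw [hTc i] at h1
    have h2 := Nat.div_add_mod (A i ∩ W).card s
    set c := (A i ∩ W).card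
    have h3 : s ∣ (A i ∩ W2).card + (c % s) * s := by
      refine ⟨c / s, ?_⟩
      have h4 : c % s * (s + 1) = c % s * s + c % s := by ring
      omega
    exact (Nat.dvd_add_left (Dvd.intro_left _ rfl)).mp h3
  have hsum : ∀ Y : Finset V, Y.card = ∑ i, (A i ∩ Y).card := by
    intro Y
    have h1 : Y = univ.biUnion fun i => A i ∩ Y := by
      ext x
      simp only [mem_biUnion, mem_univ, true_and, mem_inter]
      constructor
      · intro hx
        obtain ⟨i, hi⟩ := hcovm x
        exact ⟨i, hi, hx⟩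
      · rintro ⟨i, -, hx⟩
        exact hx
    conv_lhs => rw [h1]
    rw [card_biUnion]
    intro i _ j _ hij
    exact disjoint_of_subset_left inter_subset_left
      (disjoint_of_subset_right inter_subset_left (hd i j hij))
  have hW2s : s ∣ W2.card := by
    rw [hsum W2]
    exact dvd_sum fun i _ => hW2d i
  have hbe : b ≤ e := by
    refine hbt.trans (le_trans ?_ he)
    refine Nat.mul_le_mul_left t ?_
    nlinarith [Nat.pos_of_ne_zero (show s ≠ 0 by omega), sq_nonneg s]
  -- step 3
  obtain ⟨f, hf⟩ : ∃ f, e = b + f * s := by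
    obtain ⟨w, hw⟩ := hW2s
    have h1 : s ∣ (e - b) + k * s := by
      refine ⟨Sm.card + b + w, ?_⟩
      have h2 : b * (s + 1) = s * b + b := by ring
      have h3 : s * (Sm.card + b + w) = s * Sm.card + s * b + s * w := by ring
      omega
    have h2 : s ∣ e - b := (Nat.dvd_add_left (Dvd.intro_left _ rfl)).mp h1
    obtain ⟨f, hf⟩ := h2
    refine ⟨f, ?_⟩
    rw [mul_comm f s]
    omega
  have hnum : f * (s * (s + 1)) + t * (s * (s + 1)) ≤ W2.card := by
    have h1 : e + t * (s + 1) + Sm.card ≤ k := by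
      have h2 : t * (s + 1) + t * s ^ 2 ≤ t * (s + 1) ^ 3 := by
        rw [← mul_add]
        refine Nat.mul_le_mul_left t ?_
        ring_nf
        omega
      omega
    have h3 : s * (e + t * (s + 1) + Sm.card) ≤ s * k := Nat.mul_le_mul_left s h1
    have h4 : s * (e + t * (s + 1) + Sm.card) = s * e + t * (s * (s + 1)) + s * Sm.card := by
      ring
    have h5 : e * s + e = b * (s + 1) + f * (s * (s + 1)) := by
      rw [hf]
      ring
    have h6 : s * e = e * s := mul_comm s e
    have h7 : s * k = k * s := mul_comm s k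
    omega
  obtain ⟨W', hW', hPL, hm⟩ := hP V G t f (s * (s + 1)) A W2 hA hd
    (by rw [hcov]; exact subset_univ _) (Nat.mul_pos (by omega) (by omega)) hnum
  have hE : Til G (s + 1) (W2 \ W') := flex_til_repl hPL (Dvd.intro_left _ rfl)
  have hEc : (W2 \ W').card = f * (s * (s + 1)) := by
    rw [← hPL.sum, List.sum_replicate, smul_eq_mul]
  have hW'd : ∀ i, s ∣ (A i ∩ W').card := by
    intro i
    obtain ⟨m, hm⟩ := hm i
    have h1 := hW2d i
    rw [hm] at h1
    exact (Nat.dvd_add_left (Dvd.intro (m * (s + 1)) (by ring))).mp h1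
  have hW't : Til G s W' := by
    have h1 : W' = univ.biUnion fun i => A i ∩ W' := by
      ext x
      simp only [mem_biUnion, mem_univ, true_and, mem_inter]
      constructor
      · intro hx
        obtain ⟨i, hi⟩ := hcovm x
        exact ⟨i, hi, hx⟩
      · rintro ⟨i, -, hx⟩
        exact hx
    rw [h1]
    refine Til.biUnion univ _ (fun i _ j _ hij => ?_) fun i _ => ?_
    · exact disjoint_of_subset_left inter_subset_left
        (disjoint_of_subset_right inter_subset_left (hd i j hij))
    · exact Til.of_ind ((hA i).mono inter_subset_left) (hW'd i)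
  -- assembly
  have hRW : Disjoint (Sm ∪ R) W := by
    rw [disjoint_union_left]
    refine ⟨disjoint_of_subset_right sdiff_subset hSmd, ?_⟩
    exact disjoint_sdiff
  have hW'W : W' ⊆ W := hW'.trans sdiff_subset
  have hU1 : Til G s ((Sm ∪ R) ∪ W') := Til.union hRt hW't (disjoint_of_subset_right hW'W hRW)
  have hTE : Disjoint TT (W2 \ W') :=
    disjoint_of_subset_right sdiff_subset disjoint_sdiff
  have hU2 : Til G (s + 1) (TT ∪ (W2 \ W')) := Til.union hTTt hE hTE
  have hU2c : (TT ∪ (W2 \ W')).card = e * (s + 1) := by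
    rw [card_union_of_disjoint hTE, hTTc, hEc, hf]
    ring
  have hdis : Disjoint ((Sm ∪ R) ∪ W') (TT ∪ (W2 \ W')) := by
    rw [disjoint_union_left]
    constructor
    · refine disjoint_of_subset_right ?_ hRW
      exact union_subset hTTW (sdiff_subset.trans sdiff_subset)
    · rw [disjoint_union_right]
      exact ⟨disjoint_of_subset_left hW' sdiff_disjoint, disjoint_sdiff⟩
  have huniv : ((Sm ∪ R) ∪ W') ∪ (TT ∪ (W2 \ W')) = univ := by
    ext x
    simp only [mem_union, mem_univ, iff_true, hW2, hW, hSm, mem_sdiff, true_and]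
    by_cases h1 : x ∈ I.biUnion A
    · by_cases h2 : x ∈ R
      · exact Or.inl (Or.inl (Or.inr h2))
      · by_cases h3 : x ∈ TT
        · exact Or.inr (Or.inl h3)
        · by_cases h4 : x ∈ W'
          · exact Or.inl (Or.inr h4)
          · exact Or.inr (Or.inr ⟨⟨⟨h1, h2⟩, h3⟩, h4⟩)
    · exact Or.inl (Or.inl (Or.inl h1))
  have hU1c : ((Sm ∪ R) ∪ W').card = (k - e) * s := by
    have h1 := card_union_of_disjoint hdis
    rw [huniv, card_univ, hU2c, hn] at h1
    have h2 : (k - e) * s = k * s - e * s := Nat.sub_mul k e s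
    have h3 : e * (s + 1) = e * s + e := by ring
    omega
  refine ⟨List.replicate (k - e) s ++ List.replicate e (s + 1), ?_, ?_, ?_⟩
  · rw [← huniv]
    exact (Til.PL_card (by omega) hU1 hU1c).append (Til.PL_card (by omega) hU2 hU2c) hdis
  · rw [List.length_append, List.length_replicate, List.length_replicate]
    omega
  · intro a ha
    rcases List.mem_append.mp ha with h | h
    · exact Or.inl (List.eq_of_mem_replicate h)
    · exact Or.inr (List.eq_of_mem_replicate h)

end Pool.Agent.Work.MP_47f387_co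

end

section

/-!
# MP_47f387_co (equitable colouring of graphs with small chromatic number): the final assembly
-/

namespace Pool.Agent.Work.MP_47f387_co

open Finset

lemma main_empty {V : Type} [Fintype V] [DecidableEq V] (G : SimpleGraph V) [IsEmpty V] (k : ℕ) :
    Equi G k := by
  refine ⟨SimpleGraph.Coloring.mk (fun v => isEmptyElim v) (fun {v} => isEmptyElim v),
    fun i j => ?_⟩
  simp

lemma main_isEmpty {V : Type} {G : SimpleGraph V} (h : G.Colorable 0) : IsEmpty V := by
  obtain ⟨C⟩ := h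
  exact ⟨fun v => (C v).elim0⟩

lemma main_classes {V : Type} [Fintype V] [DecidableEq V] {G : SimpleGraph V} {t : ℕ}
    (h : G.Colorable t) : ∃ A : Fin t → Finset V, (∀ i, Ind G (A i)) ∧
      (∀ i j, i ≠ j → Disjoint (A i) (A j)) ∧ univ.biUnion A = (univ : Finset V) := by
  obtain ⟨C⟩ := h
  refine ⟨fun i => univ.filter fun v => C v = i, fun i v hv w hw hadj => ?_, fun i j hij => ?_, ?_⟩
  · rw [mem_filter] at hv hw
    exact C.valid hadj (hv.2.trans hw.2.symm)
  · rw [disjoint_left]
    intro v hv hw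
    rw [mem_filter] at hv hw
    exact hij (hv.2.symm.trans hw.2)
  · ext v
    simp

/-- Case I: `n ≤ 1.9 Δ`. -/
lemma main_one (hP : ClaimPure) (hC : ClaimColor) {V : Type} [Fintype V] [DecidableEq V]
    (G : SimpleGraph V) {t r : ℕ} (ht : G.Colorable t) (hr : 10 ^ 6 * t ≤ r)
    (hn : r ≤ Fintype.card V) (h : 10 * Fintype.card V ≤ 19 * r) : Equi G r := by
  obtain ⟨A, hA1, hA2, hA3⟩ := main_classes ht
  obtain ⟨W', hW', hPL, -⟩ := hP V G t (Fintype.card V - r) 2 A univ hA1 hA2 (by rw [hA3])
    (by norm_num) (by rw [card_univ]; omega)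
  have h1 := hPL.sum
  rw [List.sum_replicate, smul_eq_mul, card_sdiff_of_subset hW', card_univ] at h1
  have h2 : W'.card ≤ Fintype.card V := by
    rw [← card_univ]
    exact card_le_card hW'
  have h3 : W'.card = 2 * r - Fintype.card V := by omega
  have h4 := hPL.append (PL.singles (G := G) W') sdiff_disjoint
  rw [sdiff_union_of_subset hW'] at h4
  have h5 := hC V G _ 1 h4 (fun a ha => by
    rw [List.mem_append] at ha
    rcases ha with ha | ha
    · exact Or.inr (List.eq_of_mem_replicate ha)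
    · exact Or.inl (List.eq_of_mem_replicate ha))
  rw [List.length_append, List.length_replicate, List.length_replicate, h3] at h5
  have h6 : Fintype.card V - r + (2 * r - Fintype.card V) = r := by omega
  rwa [h6] at h5

/-- Case II: `n ≥ 2.1 Δ`. -/
lemma main_two (hF : ClaimFlex) (h2 : ClaimTwo) (hC : ClaimColor) {V : Type} [Fintype V]
    [DecidableEq V] (G : SimpleGraph V) [DecidableRel G.Adj] {t : ℕ} (ht : G.Colorable t)
    (ht1 : 1 ≤ t) (hr : 10 ^ 6 * t ≤ G.maxDegree)
    (h : 21 * G.maxDegree ≤ 10 * Fintype.card V) : Equi G G.maxDegree := by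
  obtain ⟨r, hrdef⟩ : ∃ r, r = G.maxDegree := ⟨_, rfl⟩
  have hdeg : ∀ v, G.degree v ≤ r := fun v => by
    rw [hrdef]
    exact G.degree_le_maxDegree v
  rw [← hrdef] at hr h ⊢
  obtain ⟨n, hndef⟩ : ∃ n, n = Fintype.card V := ⟨_, rfl⟩
  rw [← hndef] at h
  have hr0 : 0 < r := by omega
  obtain ⟨s, hs⟩ : ∃ s, s = n / r := ⟨_, rfl⟩
  obtain ⟨e, he⟩ : ∃ e, e = n % r := ⟨_, rfl⟩
  have hdiv : n = r * s + e := by
    rw [hs, he]
    exact (Nat.div_add_mod n r).symm
  have her : e < r := by
    rw [he]
    exact Nat.mod_lt n hr0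
  have hs2 : 2 ≤ s := by
    rw [hs]
    rw [Nat.le_div_iff_mul_le hr0]
    omega
  by_cases hcase : s ≤ 5 ∧ r ≤ 100 * e ∧ r ≤ 100 * (r - e)
  · obtain ⟨c1, c2, c3⟩ := hcase
    obtain ⟨A, hA1, hA2, hA3⟩ := main_classes ht
    have p1 : s ^ 3 ≤ 5 ^ 3 := Nat.pow_le_pow_left c1 3
    have p2 : (s + 1) ^ 3 ≤ 6 ^ 3 := Nat.pow_le_pow_left (by omega) 3
    have q1 : 4 * t * s ^ 3 ≤ 4 * t * 5 ^ 3 := Nat.mul_le_mul_left _ p1
    have q2 : t * (s + 1) ^ 3 ≤ t * 6 ^ 3 := Nat.mul_le_mul_left _ p2
    have q3 : r * 2 ≤ r * s := Nat.mul_le_mul_left _ hs2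
    obtain ⟨L, hL1, hL2, hL3⟩ := hF V G t r s e r A hA1 hA2 hA3 hdeg hs2 (hndef ▸ hdiv) her.le
      (by rw [← hndef]; omega) (by omega) (by omega)
    have := hC V G L s hL1 hL3
    rwa [hL2] at this
  · refine h2 V G t r s e (if 2 * e ≤ r then (if s ≤ 5 then 1 else s / 6)
      else (if s + 1 ≤ 5 then 1 else (s + 1) / 6)) 11 r (if 2 * e ≤ r then s else s + 1) ht hdeg ht1
      (hndef ▸ hdiv) her.le hs2 ?_ ?_ ?_ ?_ (by omega)
    · by_cases h2e : 2 * e ≤ r
      · left
        rw [if_pos h2e, if_pos h2e]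
        refine ⟨h2e, rfl, ?_⟩
        by_cases h5 : s ≤ 5
        · rw [if_pos h5]
          have h6 : 100 * e < r := by
            by_contra hcon
            exact hcase ⟨h5, by omega, by omega⟩
          have h7 : 3 ≤ s := by
            by_contra hcon
            have : s = 2 := by omega
            subst this
            omega
          have h8 : (r - e) * 3 ≤ (r - e) * s := Nat.mul_le_mul_left _ h7
          omega
        · rw [if_neg h5]
          have h6 : 6 * (s / 6) ≤ s := Nat.mul_div_le s 6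
          have h7 : r * (s / 6) * 6 ≤ r * s := by nlinarith
          have h8 : r * s ≤ 2 * ((r - e) * s) := by
            have : r ≤ 2 * (r - e) := by omega
            nlinarith
          nlinarith
      · right
        rw [if_neg h2e, if_neg h2e]
        refine ⟨by omega, rfl, ?_⟩
        by_cases h5 : s + 1 ≤ 5
        · rw [if_pos h5]
          have h6 : 100 * (r - e) < r := by
            by_contra hcon
            exact hcase ⟨by omega, by omega, by omega⟩
          have h8 : e * 3 ≤ e * (s + 1) := Nat.mul_le_mul_left _ (by omega)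
          omega
        · rw [if_neg h5]
          have h6 : 6 * ((s + 1) / 6) ≤ s + 1 := Nat.mul_div_le (s + 1) 6
          have h7 : r * ((s + 1) / 6) * 6 ≤ r * (s + 1) := by nlinarith
          have h8 : r * (s + 1) ≤ 2 * (e * (s + 1)) := by
            have : r ≤ 2 * e := by omega
            nlinarith
          nlinarith
    · split_ifs <;> omega
    · split_ifs <;> omega
    · split_ifs <;> omega

/-- Case III: `1.9 Δ < n < 2.1 Δ`. -/
lemma main_three (hF : ClaimFlex) (hC : ClaimColor) {V : Type} [Fintype V]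
    [DecidableEq V] (G : SimpleGraph V) [DecidableRel G.Adj] {t : ℕ} (ht : G.Colorable t)
    (ht1 : 1 ≤ t) (hr : 10 ^ 6 * t ≤ G.maxDegree)
    (h : 19 * G.maxDegree < 10 * Fintype.card V) (h' : 10 * Fintype.card V < 21 * G.maxDegree) :
    ∃ k ≤ G.maxDegree, Equi G k := by
  obtain ⟨r, hrdef⟩ : ∃ r, r = G.maxDegree := ⟨_, rfl⟩
  have hdeg : ∀ v, G.degree v ≤ r := fun v => by
    rw [hrdef]
    exact G.degree_le_maxDegree v
  rw [← hrdef] at hr h h' ⊢
  obtain ⟨n, hndef⟩ : ∃ n, n = Fintype.card V := ⟨_, rfl⟩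
  rw [← hndef] at h h'
  obtain ⟨k, hk⟩ : ∃ k, k = 2 * n / 5 := ⟨_, rfl⟩
  obtain ⟨A, hA1, hA2, hA3⟩ := main_classes ht
  obtain ⟨L, hL1, hL2, hL3⟩ := hF V G t k 2 (n - 2 * k) r A hA1 hA2 hA3 hdeg le_rfl
    (by rw [← hndef]; omega) (by omega) (by rw [← hndef]; omega) (by omega) (by omega)
  refine ⟨k, by omega, ?_⟩
  have := hC V G L 2 hL1 hL3
  rwa [hL2] at this

lemma main_part_one (hF : ClaimFlex) (h2 : ClaimTwo) (hP : ClaimPure) (hC : ClaimColor)
    {V : Type} [Fintype V] [DecidableEq V] (G : SimpleGraph V) [DecidableRel G.Adj] {t : ℕ}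
    (ht : G.Colorable t) (hr : 10 ^ 6 * t ≤ G.maxDegree) :
    ((10 * Fintype.card V ≤ 19 * G.maxDegree ∨ 21 * G.maxDegree ≤ 10 * Fintype.card V) →
      Equi G G.maxDegree) ∧ ∃ k ≤ G.maxDegree, Equi G k := by
  rcases Nat.eq_zero_or_pos t with h0 | ht1
  · subst h0
    have := main_isEmpty ht
    exact ⟨fun _ => main_empty G _, _, le_rfl, main_empty G _⟩
  · have hV : Nonempty V := by
      by_contra hcon
      rw [not_nonempty_iff] at hcon
      have h1 : G.maxDegree = 0 := by
        apply Nat.le_zero.mp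
        exact G.maxDegree_le_of_forall_degree_le 0 fun v => isEmptyElim v
      omega
    have hlt := G.maxDegree_lt_card_verts
    have key : (10 * Fintype.card V ≤ 19 * G.maxDegree ∨
        21 * G.maxDegree ≤ 10 * Fintype.card V) → Equi G G.maxDegree := by
      rintro (h | h)
      · exact main_one hP hC G ht hr hlt.le h
      · exact main_two hF h2 hC G ht ht1 hr h
    refine ⟨key, ?_⟩
    by_cases h : 10 * Fintype.card V ≤ 19 * G.maxDegree ∨
        21 * G.maxDegree ≤ 10 * Fintype.card V
    · exact ⟨_, le_rfl, key h⟩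
    · push Not at h
      exact main_three hF hC G ht ht1 hr h.1 h.2

lemma main_part_two (h2 : ClaimTwo) (R : ℕ) : ∃ C : ℕ, ∀ (V : Type) [Fintype V] [DecidableEq V]
    (G : SimpleGraph V) [DecidableRel G.Adj] (t k : ℕ), G.Colorable t → C * t ≤ k →
    C * k ≤ Fintype.card V → G.maxDegree ≤ R * k → Equi G k := by
  obtain ⟨R', hR'⟩ : ∃ R', R' = R + 1 := ⟨_, rfl⟩
  obtain ⟨P, hPdef⟩ : ∃ P, P = (5 * (12 * R') + 101) * (40 * (5 * (12 * R') + 13)) := ⟨_, rfl⟩
  refine ⟨2 * P + 12 * R' + 10, fun V _ _ G _ t k ht hCt hCk hmax => ?_⟩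
  rcases Nat.eq_zero_or_pos t with h0 | ht1
  · subst h0
    have := main_isEmpty ht
    exact main_empty G _
  have hk0 : 0 < k := by
    have : 1 * 1 ≤ (2 * P + 12 * R' + 10) * t := Nat.mul_le_mul (by omega) ht1
    omega
  obtain ⟨n, hndef⟩ : ∃ n, n = Fintype.card V := ⟨_, rfl⟩
  rw [← hndef] at hCk
  obtain ⟨s, hs⟩ : ∃ s, s = n / k := ⟨_, rfl⟩
  obtain ⟨e, he⟩ : ∃ e, e = n % k := ⟨_, rfl⟩
  have hdiv : n = k * s + e := by
    rw [hs, he]
    exact (Nat.div_add_mod n k).symm
  have hek : e < k := by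
    rw [he]
    exact Nat.mod_lt n hk0
  have hsC : 2 * P + 12 * R' + 10 ≤ s := by
    rw [hs, Nat.le_div_iff_mul_le hk0]
    exact hCk
  have hR0 : 0 < R' := by omega
  have hy : ∀ S : ℕ, s ≤ S → 1 ≤ S / (6 * R') ∧ S / (6 * R') ≤ S ∧
      S ≤ 12 * R' * (S / (6 * R')) ∧ 6 * R' * (S / (6 * R')) ≤ S := by
    intro S hS
    have h6 : 0 < 6 * R' := by omega
    have h1 : 1 ≤ S / (6 * R') := by
      rw [Nat.le_div_iff_mul_le h6]
      omega
    refine ⟨h1, Nat.div_le_self _ _, ?_, Nat.mul_div_le S (6 * R')⟩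
    have h3 := Nat.div_add_mod S (6 * R')
    have h4 := Nat.mod_lt S h6
    nlinarith
  have hnum : ∀ S k' : ℕ, s ≤ S → k ≤ 2 * k' →
      100 * (R * k * (S / (6 * R'))) ≤ 34 * (k' * S) := by
    intro S k' hS hk'
    obtain ⟨-, -, -, h4⟩ := hy S hS
    obtain ⟨y, hy'⟩ : ∃ y, y = S / (6 * R') := ⟨_, rfl⟩
    rw [← hy'] at h4 ⊢
    have h5 : R * k * y ≤ R' * k * y := by
      refine Nat.mul_le_mul_right _ (Nat.mul_le_mul_right _ (by omega))
    have h6 : k * (6 * R' * y) ≤ k * S := Nat.mul_le_mul_left _ h4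
    have h7 : k * S ≤ 2 * k' * S := Nat.mul_le_mul_right _ hk'
    nlinarith
  have hdeg : ∀ v, G.degree v ≤ R * k := fun v => (G.degree_le_maxDegree v).trans hmax
  have hlast : 2 * ((5 * (12 * R') + 101) * (40 * (5 * (12 * R') + 13)) * t) ≤ k := by
    rw [← hPdef]
    nlinarith
  by_cases h2e : 2 * e ≤ k
  · obtain ⟨y1, y2, y3, -⟩ := hy s le_rfl
    exact h2 V G t k s e (s / (6 * R')) (12 * R') (R * k) s ht hdeg ht1 (hndef ▸ hdiv) hek.le
      (by omega) (Or.inl ⟨h2e, rfl, hnum s (k - e) le_rfl (by omega)⟩) y1 y2 y3 hlast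
  · obtain ⟨y1, y2, y3, -⟩ := hy (s + 1) (by omega)
    exact h2 V G t k s e ((s + 1) / (6 * R')) (12 * R') (R * k) (s + 1) ht hdeg ht1 (hndef ▸ hdiv)
      hek.le (by omega) (Or.inr ⟨by omega, rfl, hnum (s + 1) e (by omega) (by omega)⟩) y1 y2 y3
      hlast

theorem mainThm (hF : ClaimFlex) (h2 : ClaimTwo) (hP : ClaimPure) (hC : ClaimColor) : MainThm :=
  ⟨fun _ _ _ G _ _ ht hr => main_part_one hF h2 hP hC G ht hr, fun R => main_part_two h2 R⟩

end Pool.Agent.Work.MP_47f387_co

end

section

/-!
# Item Peel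
-/

namespace Pool.Agent.Work.MP_47f387_co

open Finset

theorem peel_step {V : Type} [Fintype V] [DecidableEq V] (G : SimpleGraph V) [DecidableRel G.Adj]
    (X1 Y : Finset V) (S y d : ℕ) (hX : Ind G X1) (hY : Ind G Y) (hXY : Disjoint X1 Y)
    (hc : X1.card ≤ y) (hyS : y ≤ S)
    (hd : ∀ v ∈ X1, (G.neighborFinset v ∩ Y).card ≤ d) (hbig : y * d + S ≤ Y.card) :
    ∃ D ⊆ Y, X1.card + D.card = S ∧ Ind G (X1 ∪ D) ∧ Disjoint X1 D := by
  set N := X1.biUnion fun v => G.neighborFinset v ∩ Y with hN
  have hNY : N ⊆ Y := by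
    intro v hv
    rw [hN, mem_biUnion] at hv
    obtain ⟨u, _, hu⟩ := hv
    exact (mem_inter.1 hu).2
  have hNc : N.card ≤ y * d := by
    calc N.card ≤ ∑ v ∈ X1, (G.neighborFinset v ∩ Y).card := card_biUnion_le
      _ ≤ ∑ _v ∈ X1, d := sum_le_sum hd
      _ = X1.card * d := by rw [sum_const, smul_eq_mul]
      _ ≤ y * d := Nat.mul_le_mul_right d hc
  have h1 : S - X1.card ≤ (Y \ N).card := by
    rw [card_sdiff_of_subset hNY]
    omega
  obtain ⟨D, hD, hDc⟩ := exists_subset_card_eq h1
  have hDY : D ⊆ Y := hD.trans sdiff_subset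
  refine ⟨D, hDY, by omega, ?_, hXY.mono_right hDY⟩
  have hno : ∀ v ∈ X1, ∀ w ∈ D, ¬ G.Adj v w := by
    intro v hv w hw hadj
    have := (mem_sdiff.1 (hD hw)).2
    apply this
    rw [hN, mem_biUnion]
    exact ⟨v, hv, mem_inter.2 ⟨(G.mem_neighborFinset v w).2 hadj, hDY hw⟩⟩
  intro v hv w hw
  rcases mem_union.1 hv with hv | hv <;> rcases mem_union.1 hw with hw | hw
  · exact hX v hv w hw
  · exact hno v hv w hw
  · exact fun h => hno w hw v hv h.symm
  · exact hY v (hDY hv) w (hDY hw)

theorem claimPeel : ClaimPeel := by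
  intro V _ _ G _ X Y S y d
  induction hn : X.card using Nat.strong_induction_on generalizing X Y with
  | _ n ih =>
    intro hX hY hXY hy hyS hd hbig
    rcases Nat.eq_zero_or_pos n with h0 | h0
    · have hXe : X = ∅ := by
        rw [← card_eq_zero]
        omega
      subst hXe
      exact ⟨∅, empty_subset _, 0, Nat.zero_le _, by simp [h0],
        by rw [empty_union]; exact Til.empty S⟩
    · have hS1 : y * d + S ≤ Y.card := by
        have : S ≤ (n / y + 1) * S := Nat.le_mul_of_pos_left S (Nat.succ_pos _)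
        omega
      rcases le_or_gt n y with hle | hgt
      · obtain ⟨D, hDY, hc, hI, -⟩ := peel_step G X Y S y d hX hY hXY (by omega) hyS hd hS1
        refine ⟨D, hDY, 1, Nat.le_add_left 1 _, by omega, Til.one hI ?_⟩
        rw [card_union_of_disjoint (hXY.mono_right hDY)]
        exact hc
      · obtain ⟨X1, hX1, hX1c⟩ := exists_subset_card_eq (s := X) (n := y) (by omega)
        obtain ⟨D1, hD1Y, hc1, hI1, hdis1⟩ := peel_step G X1 Y S y d (hX.mono hX1) hY
          (hXY.mono_left hX1) (by omega) hyS (fun v hv => hd v (hX1 hv)) hS1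
        have hX2c : (X \ X1).card = n - y := by
          rw [card_sdiff_of_subset hX1, hX1c, hn]
        have hY2c : (Y \ D1).card = Y.card - D1.card := card_sdiff_of_subset hD1Y
        have hdiv : (n - y) / y + 1 = n / y := (Nat.div_eq_sub_div (by omega) hgt.le).symm
        obtain ⟨D2, hD2Y, h2, hh2, hc2, hT2⟩ := ih (n - y) (by omega) (X \ X1) (Y \ D1) hX2c
          (hX.mono sdiff_subset) (hY.mono sdiff_subset)
          ((hXY.mono_left sdiff_subset).mono_right sdiff_subset) hy hyS
          (fun v hv => (card_le_card (inter_subset_inter_left sdiff_subset)).trans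
            (hd v (mem_sdiff.1 hv).1))
          (by
            rw [hdiv, hY2c]
            have : (n / y + 1) * S = n / y * S + S := Nat.succ_mul _ _
            omega)
        have hdis2 : Disjoint (X1 ∪ D1) (X \ X1 ∪ D2) := by
          rw [disjoint_union_left, disjoint_union_right, disjoint_union_right]
          refine ⟨⟨disjoint_sdiff, ?_⟩, ?_, ?_⟩
          · exact (hXY.mono_left hX1).mono_right (hD2Y.trans sdiff_subset)
          · exact ((hXY.mono_left sdiff_subset).mono_right hD1Y).symm
          · exact disjoint_sdiff.mono_right hD2Y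
        refine ⟨D1 ∪ D2, union_subset hD1Y (hD2Y.trans sdiff_subset), h2 + 1, by omega, ?_, ?_⟩
        · have : (D1 ∪ D2).card = D1.card + D2.card :=
            card_union_of_disjoint (disjoint_sdiff.mono_right hD2Y)
          rw [this]
          have : (h2 + 1) * S = h2 * S + S := Nat.succ_mul _ _
          omega
        · have e : X ∪ (D1 ∪ D2) = (X1 ∪ D1) ∪ (X \ X1 ∪ D2) := by
            ext v
            simp only [mem_union, mem_sdiff]
            have := @hX1 v
            tauto
          rw [e]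
          refine Til.union (Til.one hI1 ?_) hT2 hdis2
          rw [card_union_of_disjoint hdis1]
          exact hc1

end Pool.Agent.Work.MP_47f387_co

end

section

/-!
# Item Pure
-/

namespace Pool.Agent.Work.MP_47f387_co

open Finset

theorem claimPure : ClaimPure := by
  intro V _ _ G t q S A W hI hdisj hW hS hcard
  induction q generalizing W with
  | zero =>
    refine ⟨W, subset_rfl, ?_, fun i => ⟨0, by simp⟩⟩
    rw [sdiff_self]
    exact PL.nil
  | succ q ih =>
    have hWeq : W = univ.biUnion fun i => A i ∩ W := by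
      ext v
      simp only [mem_biUnion, mem_univ, true_and, mem_inter]
      constructor
      · intro hv
        obtain ⟨i, _, hi⟩ := mem_biUnion.1 (hW hv)
        exact ⟨i, hi, hv⟩
      · rintro ⟨i, _, hv⟩
        exact hv
    obtain ⟨i, hi⟩ : ∃ i, S ≤ (A i ∩ W).card := by
      by_contra hcon
      push Not at hcon
      have h1 : W.card ≤ t * S := by
        calc W.card = (univ.biUnion fun i => A i ∩ W).card := by rw [← hWeq]
          _ ≤ ∑ i, (A i ∩ W).card := card_biUnion_le
          _ ≤ ∑ _i : Fin t, S := sum_le_sum fun i _ => (hcon i).le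
          _ = t * S := by rw [sum_const, card_univ, Fintype.card_fin, smul_eq_mul]
      have h2 : (q + 1) * S = q * S + S := Nat.succ_mul _ _
      omega
    obtain ⟨T, hT, hTc⟩ := exists_subset_card_eq hi
    have hTA : T ⊆ A i := hT.trans inter_subset_left
    have hTW : T ⊆ W := hT.trans inter_subset_right
    have hc : (W \ T).card = W.card - S := by
      rw [card_sdiff_of_subset hTW, hTc]
    have h2 : (q + 1) * S = q * S + S := Nat.succ_mul _ _
    obtain ⟨W', hW', hPL, hm⟩ := ih (W \ T) (sdiff_subset.trans hW) (by omega)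
    refine ⟨W', hW'.trans sdiff_subset, ?_, fun j => ?_⟩
    · have hd : Disjoint T ((W \ T) \ W') := disjoint_sdiff.mono_right sdiff_subset
      have := PL.cons' hd ((hI i).mono hTA) hTc hPL
      rw [← List.replicate_succ] at this
      have e : W \ W' = T ∪ (W \ T) \ W' := by
        ext v
        simp only [mem_union, mem_sdiff]
        have a1 := @hTW v
        have a2 := @hW' v
        simp only [mem_sdiff] at a2
        tauto
      rw [e]
      exact this
    · obtain ⟨m, hm'⟩ := hm j
      by_cases hij : i = j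
      · subst hij
        refine ⟨m + 1, ?_⟩
        have e : (A i ∩ W).card = (A i ∩ (W \ T)).card + S := by
          have e1 : A i ∩ W = (A i ∩ (W \ T)) ∪ T := by
            ext v
            simp only [mem_union, mem_sdiff, mem_inter]
            have a1 := @hTW v
            have a2 := @hTA v
            tauto
          rw [e1, card_union_of_disjoint, hTc]
          rw [disjoint_left]
          intro v hv hvT
          exact (mem_sdiff.1 (mem_inter.1 hv).2).2 hvT
        rw [e, hm', Nat.succ_mul]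
        ring
      · refine ⟨m, ?_⟩
        have e : A j ∩ W = A j ∩ (W \ T) := by
          ext v
          simp only [mem_sdiff, mem_inter]
          constructor
          · rintro ⟨h1, h3⟩
            exact ⟨h1, h3, fun hvT => disjoint_left.1 (hdisj i j hij) (hTA hvT) h1⟩
          · rintro ⟨h1, h3, _⟩
            exact ⟨h1, h3⟩
        rw [e]
        exact hm'

end Pool.Agent.Work.MP_47f387_co

end

section

/-!
# MP_47f387_co : item A (small pieces completed by different blocks)
-/

namespace Pool.Agent.Work.MP_47f387_co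

open Finset

/-- The union of a list of finite sets. -/
lemma stepA_mem_foldr {V : Type} [DecidableEq V] (Ls : List (Finset V)) (v : V) :
    v ∈ Ls.foldr (· ∪ ·) ∅ ↔ ∃ X ∈ Ls, v ∈ X := by
  induction Ls with
  | nil => simp
  | cons X Ls ih => simp [ih]

/-- Some unused block has many vertices outside a small set. -/
lemma stepA_choose {V : Type} [DecidableEq V] (p S Z k : ℕ) (B : Fin p → Finset V)
    (N : Finset V) (U0 : Finset (Fin p)) (hdis : ∀ i j, i ≠ j → Disjoint (B i) (B j))
    (hS : 1 ≤ S) (hZ : 520 * S ≤ Z) (hB : ∀ i, (B i).card = Z) (hp : 100 ≤ p)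
    (hN : N.card ≤ k) (hk : 100 * k ≤ 35 * (p * Z)) (hU : 5 * U0.card ≤ p) :
    ∃ j, j ∉ U0 ∧ S ≤ (B j \ N).card := by
  by_contra hcon
  push Not at hcon
  set Bd : Finset (Fin p) := univ \ U0 with hBd
  have h1 : ∀ j ∈ Bd, Z - S ≤ (B j ∩ N).card := by
    intro j hj
    have hj' : j ∉ U0 := by simpa [hBd] using hj
    have h2 := hcon j hj'
    have h3 := card_sdiff_add_card_inter (B j) N
    rw [hB j] at h3
    omega
  have h2 : Bd.card * (Z - S) ≤ ∑ j ∈ Bd, (B j ∩ N).card := by
    rw [← smul_eq_mul]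
    exact card_nsmul_le_sum _ _ _ h1
  have h3 : ∑ j ∈ Bd, (B j ∩ N).card ≤ N.card := by
    rw [← card_biUnion]
    · apply card_le_card
      intro v hv
      rw [mem_biUnion] at hv
      obtain ⟨j, _, hv⟩ := hv
      exact (mem_inter.1 hv).2
    · intro i _ j _ hij
      exact (hdis i j hij).mono inter_subset_left inter_subset_left
  have h4 : Bd.card + U0.card = p := by
    rw [hBd, card_sdiff_add_card, union_comm]
    have : U0 ∪ (univ : Finset (Fin p)) = univ := by simp
    rw [this, card_univ, Fintype.card_fin]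
  have h5 : Bd.card * (Z - S) ≤ k := h2.trans (h3.trans hN)
  obtain ⟨c, hc⟩ : ∃ c, Z = S + c := ⟨Z - S, by omega⟩
  have h6 : Z - S = c := by omega
  rw [h6] at h5
  have h7 : 519 * Z ≤ 520 * c := by omega
  have h8 : 4 * p ≤ 5 * Bd.card := by omega
  -- 4 p c ≤ 5 |Bd| c ≤ 5 k, 100 k ≤ 35 p Z
  have h9 : 4 * p * c ≤ 5 * k := by
    calc 4 * p * c ≤ 5 * Bd.card * c := Nat.mul_le_mul_right _ h8
      _ = 5 * (Bd.card * c) := by ring
      _ ≤ 5 * k := Nat.mul_le_mul_left _ h5
  have h10 : 80 * (p * c) ≤ 35 * (p * Z) := by nlinarith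
  have h11 : 519 * (p * Z) ≤ 520 * (p * c) := by nlinarith
  have h12 : 0 < p * Z := by
    have : 0 < Z := by omega
    positivity
  omega

/-- Item A. -/
theorem claimA : ClaimA := by
  intro V _ _ G _ p S y M D Z B Ls hBi hdis hdeg hy hyS hSM hZ hB hp hD hLs hpw hX
  have hS : 1 ≤ S := hy.trans hyS
  have hZ' : 520 * S ≤ Z := by rw [hZ]; nlinarith
  suffices h : ∃ W ⊆ univ.biUnion B, ∃ U0 : Finset (Fin p), U0.card ≤ Ls.length ∧
      (∀ i, i ∉ U0 → B i ⊆ W) ∧ (∀ i, (B i \ W).card ≤ S) ∧
      Til G S (Ls.foldr (· ∪ ·) ∅ ∪ (univ.biUnion B \ W)) by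
    obtain ⟨W, h1, _, _, _, h2, h3⟩ := h
    exact ⟨W, h1, h2, h3⟩
  induction Ls with
  | nil =>
    refine ⟨univ.biUnion B, Subset.refl _, ∅, by simp, ?_, ?_, ?_⟩
    · intro i _; exact subset_biUnion_of_mem B (mem_univ i)
    · intro i
      rw [sdiff_eq_empty_iff_subset.2 (subset_biUnion_of_mem B (mem_univ i))]; simp
    · simpa using Til.empty (G := G) S
  | cons X Ls ih =>
    rw [List.length_cons] at hLs
    rw [List.pairwise_cons] at hpw
    obtain ⟨W, hW1, U0, hU0, hU1, hW2, hW3⟩ := ih (by omega) hpw.2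
      (fun X' h => hX X' (List.mem_cons_of_mem _ h))
    obtain ⟨hXi, hXy, hXB⟩ := hX X List.mem_cons_self
    have hN : (X.biUnion fun v => G.neighborFinset v).card ≤ D * y := by
      calc (X.biUnion fun v => G.neighborFinset v).card
          ≤ ∑ v ∈ X, (G.neighborFinset v).card := card_biUnion_le
        _ ≤ ∑ _v ∈ X, D := sum_le_sum fun v _ => by
            rw [SimpleGraph.card_neighborFinset_eq_degree]; exact hdeg v
        _ = X.card * D := by rw [sum_const, smul_eq_mul]
        _ ≤ y * D := Nat.mul_le_mul_right _ hXy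
        _ = D * y := mul_comm _ _
    obtain ⟨j, hj, hjS⟩ := stepA_choose p S Z (D * y) B _ U0 hdis hS hZ' hB hp hN hD (by omega)
    obtain ⟨D', hD'1, hD'2⟩ := exists_subset_card_eq (show S - X.card ≤ _ from
      (Nat.sub_le _ _).trans hjS)
    have hD'B : D' ⊆ B j := hD'1.trans sdiff_subset
    have hBU : B j ⊆ univ.biUnion B := subset_biUnion_of_mem B (mem_univ j)
    have hD'U : D' ⊆ univ.biUnion B := hD'B.trans hBU
    have hD'W : D' ⊆ W := hD'B.trans (hU1 j hj)
    have hXD : Disjoint X D' := hXB.mono_right hD'U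
    have hcard : (X ∪ D').card = S := by
      rw [card_union_of_disjoint hXD, hD'2]; omega
    have hind : Ind G (X ∪ D') := by
      intro v hv w hw hadj
      rw [mem_union] at hv hw
      rcases hv with hv | hv <;> rcases hw with hw | hw
      · exact hXi v hv w hw hadj
      · have := (mem_sdiff.1 (hD'1 hw)).2
        exact this (mem_biUnion.2 ⟨v, hv, by simpa using hadj⟩)
      · have := (mem_sdiff.1 (hD'1 hv)).2
        exact this (mem_biUnion.2 ⟨w, hw, by simpa using hadj.symm⟩)
      · exact hBi j v (hD'B hv) w (hD'B hw) hadj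
    refine ⟨W \ D', sdiff_subset.trans hW1, insert j U0, ?_, ?_, ?_, ?_⟩
    · rw [List.length_cons]
      exact (card_insert_le _ _).trans (by omega)
    · intro i hi
      rw [mem_insert, not_or] at hi
      intro v hv
      refine mem_sdiff.2 ⟨hU1 i hi.2 hv, fun hv' => ?_⟩
      exact (disjoint_left.1 (hdis i j hi.1)) hv (hD'B hv')
    · intro i
      by_cases hij : i = j
      · subst hij
        have : B i \ (W \ D') ⊆ D' := by
          intro v hv
          rw [mem_sdiff, mem_sdiff, not_and, not_not] at hv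
          exact hv.2 (hU1 i hj hv.1)
        exact (card_le_card this).trans (by rw [hD'2]; omega)
      · have : B i \ (W \ D') ⊆ B i \ W := by
          intro v hv
          rw [mem_sdiff, mem_sdiff, not_and, not_not] at hv
          refine mem_sdiff.2 ⟨hv.1, fun hw => ?_⟩
          exact (disjoint_left.1 (hdis i j hij)) hv.1 (hD'B (hv.2 hw))
        exact (card_le_card this).trans (hW2 i)
    · have e : (X :: Ls).foldr (· ∪ ·) ∅ ∪ (univ.biUnion B \ (W \ D')) =
          (X ∪ D') ∪ (Ls.foldr (· ∪ ·) ∅ ∪ (univ.biUnion B \ W)) := by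
        ext v
        simp only [List.foldr_cons, mem_union, mem_sdiff]
        constructor
        · rintro ((h | h) | ⟨h1, h2⟩)
          · exact Or.inl (Or.inl h)
          · exact Or.inr (Or.inl h)
          · by_cases hv : v ∈ D'
            · exact Or.inl (Or.inr hv)
            · exact Or.inr (Or.inr ⟨h1, fun hw => h2 ⟨hw, hv⟩⟩)
        · rintro ((h | h) | (h | ⟨h1, h2⟩))
          · exact Or.inl (Or.inl h)
          · exact Or.inr ⟨hD'U h, fun hh => hh.2 h⟩
          · exact Or.inl (Or.inr h)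
          · exact Or.inr ⟨h1, fun hh => h2 hh.1⟩
      rw [e]
      refine Til.union (Til.one hind hcard) hW3 ?_
      rw [disjoint_left]
      intro v hv hv'
      rw [mem_union] at hv hv'
      rcases hv' with hv' | hv'
      · rw [stepA_mem_foldr] at hv'
        obtain ⟨X', hX', hvX'⟩ := hv'
        rcases hv with hv | hv
        · exact (disjoint_left.1 (hpw.1 X' hX')) hv hvX'
        · exact (disjoint_left.1 (hX X' (List.mem_cons_of_mem _ hX')).2.2) hvX' (hD'U hv)
      · rw [mem_sdiff] at hv'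
        rcases hv with hv | hv
        · exact (disjoint_left.1 hXB) hv hv'.1
        · exact hv'.2 (hD'W hv)

end Pool.Agent.Work.MP_47f387_co

end

section

/-!
# MP_47f387_co : item AB (assembling A and B)
-/

namespace Pool.Agent.Work.MP_47f387_co

open Finset

lemma stepAB_mem_foldr {V : Type} [DecidableEq V] (Ls : List (Finset V)) (v : V) :
    v ∈ Ls.foldr (· ∪ ·) ∅ ↔ ∃ X ∈ Ls, v ∈ X := by
  induction Ls with
  | nil => simp
  | cons X Ls ih => simp [ih]

/-- Cutting a set into `m` disjoint pieces of size at most `y`. -/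
lemma stepAB_cut {V : Type} [DecidableEq V] (y m : ℕ) (X : Finset V) (h : X.card ≤ m * y) :
    ∃ Ls : List (Finset V), Ls.length = m ∧ Ls.Pairwise Disjoint ∧
      (∀ X' ∈ Ls, X' ⊆ X ∧ X'.card ≤ y) ∧ ∀ v ∈ X, ∃ X' ∈ Ls, v ∈ X' := by
  induction m generalizing X with
  | zero =>
    have : X = ∅ := by rw [← card_eq_zero]; simpa using h
    subst this
    exact ⟨[], rfl, List.Pairwise.nil, by simp, by simp⟩
  | succ m ih =>
    obtain ⟨Y, hY, hc⟩ := exists_subset_card_eq (show min y X.card ≤ X.card from min_le_right _ _)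
    have h1 : (X \ Y).card ≤ m * y := by
      rw [card_sdiff_of_subset hY, hc]
      rw [Nat.succ_mul] at h
      rcases le_total y X.card with h2 | h2
      · rw [min_eq_left h2]; omega
      · rw [min_eq_right h2]; simp
    obtain ⟨Ls, l1, l2, l3, l4⟩ := ih (X \ Y) h1
    refine ⟨Y :: Ls, by simp [l1], ?_, ?_, ?_⟩
    · rw [List.pairwise_cons]
      refine ⟨fun X' hX' => ?_, l2⟩
      exact disjoint_sdiff.mono_right (l3 X' hX').1
    · intro X' hX'
      rw [List.mem_cons] at hX'
      rcases hX' with rfl | hX'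
      · exact ⟨hY, by rw [hc]; exact min_le_left _ _⟩
      · exact ⟨(l3 X' hX').1.trans sdiff_subset, (l3 X' hX').2⟩
    · intro v hv
      by_cases hvY : v ∈ Y
      · exact ⟨Y, List.mem_cons_self, hvY⟩
      · obtain ⟨X', h1, h2⟩ := l4 v (mem_sdiff.2 ⟨hv, hvY⟩)
        exact ⟨X', List.mem_cons_of_mem _ h1, h2⟩

/-- Item AB. -/
theorem claimAB (hA : ClaimA) (hB : ClaimB) : ClaimAB := by
  intro V _ _ G _ p t S y M D Z B C hBi hCi hBd hCd hBC hdeg hy hyS hSM hZ hBc hCc hp hpt hD hdvd
  have hS : 1 ≤ S := hy.trans hyS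
  -- tiles inside the rests
  have hT : ∀ i, ∃ T ⊆ C i, T.card = S * ((C i).card / S) := fun i =>
    exists_subset_card_eq (Nat.mul_div_le _ _)
  choose T hT1 hT2 using hT
  have hX : ∀ i, (C i \ T i).card ≤ M * y := by
    intro i
    rw [card_sdiff_of_subset (hT1 i), hT2 i]
    have h1 := Nat.mod_add_div (C i).card S
    have h2 := Nat.mod_lt (C i).card (show 0 < S by omega)
    omega
  choose L hL1 hL2 hL3 hL4 using fun i => stepAB_cut y M (C i \ T i) (hX i)
  set Ls : List (Finset V) := (List.finRange t).flatMap L with hLs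
  have hmem : ∀ X', X' ∈ Ls ↔ ∃ i, X' ∈ L i := by
    intro X'; simp [hLs, List.mem_flatMap]
  have hlen : Ls.length ≤ (M + 1) * t := by
    have : Ls.length = M * t := by
      rw [hLs, List.length_flatMap]
      have : (List.map (fun a => (L a).length) (List.finRange t)) = List.replicate t M := by
        rw [List.eq_replicate_iff]
        refine ⟨by simp, ?_⟩
        intro b hb
        rw [List.mem_map] at hb
        obtain ⟨a, _, rfl⟩ := hb
        exact hL1 a
      rw [this, List.sum_replicate, smul_eq_mul, mul_comm]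
    rw [this]; nlinarith
  have hpw : Ls.Pairwise Disjoint := by
    rw [hLs, List.pairwise_flatMap]
    refine ⟨fun i _ => hL2 i, ?_⟩
    have hnd := List.nodup_finRange t
    refine hnd.imp ?_
    intro i j hij X1 h1 X2 h2
    exact (hCd i j hij).mono ((hL3 i X1 h1).1.trans sdiff_subset)
      ((hL3 j X2 h2).1.trans sdiff_subset)
  have hBU : ∀ X' ∈ Ls, Ind G X' ∧ X'.card ≤ y ∧ Disjoint X' (univ.biUnion B) := by
    intro X' hX'
    rw [hmem] at hX'
    obtain ⟨i, hi⟩ := hX'
    obtain ⟨h1, h2⟩ := hL3 i X' hi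
    refine ⟨(hCi i).mono (h1.trans sdiff_subset), h2, ?_⟩
    rw [disjoint_biUnion_right]
    intro j _
    exact ((hBC j i).mono_right (h1.trans sdiff_subset)).symm
  obtain ⟨W, hW1, hW2, hW3⟩ := hA V G p S y M D Z B Ls hBi hBd hdeg hy hyS hSM hZ hBc hp hD
    (by
      calc 5 * Ls.length ≤ 5 * ((M + 1) * t) := Nat.mul_le_mul_left _ hlen
        _ ≤ p := hpt) hpw hBU
  have hWB : univ.biUnion (fun i => B i ∩ W) = W := by
    ext v
    simp only [mem_biUnion, mem_univ, true_and, mem_inter]
    constructor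
    · rintro ⟨_, _, h⟩; exact h
    · intro h
      obtain ⟨i, _, hi⟩ := mem_biUnion.1 (hW1 h)
      exact ⟨i, hi, h⟩
  -- the fold
  set F : Finset V := Ls.foldr (· ∪ ·) ∅ with hF
  have hFm : ∀ v, v ∈ F ↔ ∃ i, v ∈ C i ∧ v ∉ T i := by
    intro v
    rw [hF, stepAB_mem_foldr]
    constructor
    · rintro ⟨X', hX', hv⟩
      rw [hmem] at hX'
      obtain ⟨i, hi⟩ := hX'
      have := (hL3 i X' hi).1 hv
      rw [mem_sdiff] at this
      exact ⟨i, this⟩
    · rintro ⟨i, hi⟩
      obtain ⟨X', h1, h2⟩ := hL4 i v (mem_sdiff.2 hi)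
      exact ⟨X', (hmem X').2 ⟨i, h1⟩, h2⟩
  have hTt : Til G S (univ.biUnion T) := by
    apply Til.biUnion
    · intro i _ j _ hij
      exact (hCd i j hij).mono (hT1 i) (hT1 j)
    · intro i _
      exact Til.of_ind ((hCi i).mono (hT1 i)) (by rw [hT2 i]; exact Dvd.intro _ rfl)
  have hnotBC : ∀ v i j, v ∈ B i → v ∈ C j → False := fun v i j h1 h2 =>
    (disjoint_left.1 (hBC i j)) h1 h2
  have hCeq : ∀ v i j, v ∈ C i → v ∈ C j → i = j := by
    intro v i j h1 h2
    by_contra hne
    exact (disjoint_left.1 (hCd i j hne)) h1 h2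
  have hd1 : Disjoint (F ∪ (univ.biUnion B \ W)) (univ.biUnion T) := by
    rw [disjoint_left]
    intro v hv hv'
    obtain ⟨j, _, hj⟩ := mem_biUnion.1 hv'
    rw [mem_union, hFm] at hv
    rcases hv with ⟨i, hi, hi'⟩ | hv
    · have := hCeq v i j hi (hT1 j hj)
      subst this; exact hi' hj
    · obtain ⟨i, _, hi⟩ := mem_biUnion.1 (mem_sdiff.1 hv).1
      exact hnotBC v i j hi (hT1 j hj)
  have hd2 : Disjoint W ((F ∪ (univ.biUnion B \ W)) ∪ univ.biUnion T) := by
    rw [disjoint_left]
    intro v hv hv'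
    obtain ⟨i, _, hi⟩ := mem_biUnion.1 (hW1 hv)
    rw [mem_union, mem_union, hFm] at hv'
    rcases hv' with (⟨j, hj, _⟩ | h) | h
    · exact hnotBC v i j hi hj
    · exact (mem_sdiff.1 h).2 hv
    · obtain ⟨j, _, hj⟩ := mem_biUnion.1 h
      exact hnotBC v i j hi (hT1 j hj)
  have hU : univ.biUnion B ∪ univ.biUnion C =
      W ∪ ((F ∪ (univ.biUnion B \ W)) ∪ univ.biUnion T) := by
    ext v
    simp only [mem_union, mem_sdiff, hFm]
    constructor
    · rintro (h | h)
      · by_cases hv : v ∈ W
        · exact Or.inl hv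
        · exact Or.inr (Or.inl (Or.inr ⟨h, hv⟩))
      · obtain ⟨i, _, hi⟩ := mem_biUnion.1 h
        by_cases hv : v ∈ T i
        · exact Or.inr (Or.inr (mem_biUnion.2 ⟨i, mem_univ i, hv⟩))
        · exact Or.inr (Or.inl (Or.inl ⟨i, hi, hv⟩))
    · rintro (h | (⟨i, hi, _⟩ | h) | h)
      · exact Or.inl (hW1 h)
      · exact Or.inr (mem_biUnion.2 ⟨i, mem_univ i, hi⟩)
      · exact Or.inl h.1
      · obtain ⟨i, _, hi⟩ := mem_biUnion.1 h
        exact Or.inr (mem_biUnion.2 ⟨i, mem_univ i, hT1 i hi⟩)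
  have hR : Til G S ((F ∪ (univ.biUnion B \ W)) ∪ univ.biUnion T) := hW3.union hTt hd1
  have hWd : S ∣ W.card := by
    rw [hU, card_union_of_disjoint hd2] at hdvd
    exact (Nat.dvd_add_iff_left hR.dvd).2 hdvd
  have hWt : Til G S (univ.biUnion (fun i => B i ∩ W)) := by
    refine hB V G p S y M D Z (fun i => B i ∩ W) (fun i => (hBi i).mono inter_subset_left)
      (fun i j hij => (hBd i j hij).mono inter_subset_left inter_subset_left) hdeg hy hyS hSM hZ
      (fun i => ?_) (fun i => ?_) hp hD (by rw [hWB]; exact hWd)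
    · have h1 := card_sdiff_add_card_inter (B i) W
      have h2 := hW2 i
      rw [hBc i] at h1
      omega
    · exact (card_le_card inter_subset_left).trans (hBc i).le
  rw [hWB] at hWt
  rw [hU]
  exact hWt.union hR hd2

end Pool.Agent.Work.MP_47f387_co

end

section

/-!
# MP_47f387_co, item B: the blocks are made divisible one after the other
-/

namespace Pool.Agent.Work.MP_47f387_co

open Finset

section B

variable {V : Type} [Fintype V] [DecidableEq V] (G : SimpleGraph V) [DecidableRel G.Adj]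

/-- The number of edges between two disjoint sets. -/
def eB (X Y : Finset V) : ℕ := ∑ v ∈ X, (G.neighborFinset v ∩ Y).card

lemma b_sum {p D : ℕ} (B : Fin p → Finset V) (hd : ∀ i j, i ≠ j → Disjoint (B i) (B j))
    (hD : ∀ v, G.degree v ≤ D) (X : Finset V) :
    ∑ P, eB G X (B P) ≤ D * X.card := by
  unfold eB
  rw [Finset.sum_comm]
  calc ∑ v ∈ X, ∑ P, (G.neighborFinset v ∩ B P).card ≤ ∑ v ∈ X, D := by
        apply Finset.sum_le_sum
        intro v _
        rw [← Finset.card_biUnion]
        · refine (Finset.card_le_card (t := G.neighborFinset v) ?_).trans (by simpa using hD v)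
          intro w hw
          rw [mem_biUnion] at hw
          obtain ⟨i, _, hi⟩ := hw
          exact (mem_inter.1 hi).1
        · intro i _ j _ hij
          exact (hd i j hij).mono inter_subset_right inter_subset_right
    _ = D * X.card := by simp [mul_comm]

lemma b_bad {p D Z y : ℕ} (B : Fin p → Finset V) (hd : ∀ i j, i ≠ j → Disjoint (B i) (B j))
    (hD : ∀ v, G.degree v ≤ D) (hZ : 1 ≤ Z) (i : Fin p) (hi : (B i).card ≤ Z) :
    9 * Z * (univ.filter (fun P => 9 * Z ^ 2 < 10 * y * eB G (B i) (B P))).card ≤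
      10 * y * D := by
  set bad := univ.filter (fun P => 9 * Z ^ 2 < 10 * y * eB G (B i) (B P)) with hbad
  have h1 : bad.card * (9 * Z ^ 2) ≤ ∑ P ∈ bad, 10 * y * eB G (B i) (B P) := by
    rw [← smul_eq_mul]
    apply Finset.card_nsmul_le_sum
    intro P hP
    rw [hbad, mem_filter] at hP
    exact hP.2.le
  have h2 : ∑ P ∈ bad, 10 * y * eB G (B i) (B P) ≤ ∑ P, 10 * y * eB G (B i) (B P) :=
    Finset.sum_le_sum_of_subset (subset_univ _)
  have h3 : ∑ P, 10 * y * eB G (B i) (B P) ≤ 10 * y * (D * Z) := by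
    rw [← Finset.mul_sum]
    exact Nat.mul_le_mul_left _ ((b_sum G B hd hD (B i)).trans (Nat.mul_le_mul_left _ hi))
  have h4 : (9 * Z * bad.card) * Z ≤ (10 * y * D) * Z := by
    calc (9 * Z * bad.card) * Z = bad.card * (9 * Z ^ 2) := by ring
      _ ≤ 10 * y * (D * Z) := h1.trans (h2.trans h3)
      _ = (10 * y * D) * Z := by ring
  exact Nat.le_of_mul_le_mul_right h4 hZ

lemma b_low {Z y S x : ℕ} {P0 Bj BP : Finset V} (hy : 1 ≤ y) (hsub : P0 ⊆ Bj)
    (he : 10 * y * eB G Bj BP ≤ 9 * Z ^ 2) (hP : 39 * Z ≤ 40 * P0.card) (hS : 520 * S ≤ Z)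
    (hx : x ≤ S) (hZ : 1 ≤ Z) :
    ∃ X ⊆ P0, X.card = x ∧
      ∀ v ∈ X, (G.neighborFinset v ∩ BP).card ≤ 19 * Z / (20 * y) := by
  set dd := 19 * Z / (20 * y) with hdd
  set H := P0.filter (fun v => dd < (G.neighborFinset v ∩ BP).card) with hH
  set K := P0.filter (fun v => ¬ dd < (G.neighborFinset v ∩ BP).card) with hK
  have h1 : H.card + K.card = P0.card := by
    rw [hH, hK]; exact Finset.card_filter_add_card_filter_not _
  have h2 : H.card * (dd + 1) ≤ ∑ v ∈ H, (G.neighborFinset v ∩ BP).card := by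
    rw [← smul_eq_mul]
    apply Finset.card_nsmul_le_sum
    intro v hv
    rw [hH, mem_filter] at hv
    exact hv.2
  have h3 : ∑ v ∈ H, (G.neighborFinset v ∩ BP).card ≤ eB G Bj BP :=
    Finset.sum_le_sum_of_subset ((filter_subset _ _).trans hsub)
  have h4 : 19 * Z < 20 * y * (dd + 1) := by
    rw [hdd]
    exact Nat.lt_mul_div_succ _ (by omega)
  have h5 : (19 * H.card) * Z ≤ (18 * Z) * Z := by
    calc (19 * H.card) * Z = (19 * Z) * H.card := by ring
      _ ≤ (20 * y * (dd + 1)) * H.card := Nat.mul_le_mul_right _ h4.le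
      _ = (20 * y) * (H.card * (dd + 1)) := by ring
      _ ≤ (20 * y) * eB G Bj BP := Nat.mul_le_mul_left _ (h2.trans h3)
      _ = 2 * (10 * y * eB G Bj BP) := by ring
      _ ≤ 2 * (9 * Z ^ 2) := Nat.mul_le_mul_left _ he
      _ = (18 * Z) * Z := by ring
  have h6 : 19 * H.card ≤ 18 * Z := Nat.le_of_mul_le_mul_right h5 hZ
  have h7 : x ≤ K.card := by omega
  obtain ⟨X, hX, hXc⟩ := exists_subset_card_eq h7
  refine ⟨X, hX.trans (filter_subset _ _), hXc, fun v hv => ?_⟩
  have := hX hv
  rw [hK, mem_filter] at this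
  exact not_lt.1 this.2

lemma b_partner {p D Z y j : ℕ} (B : Fin p → Finset V)
    (hd : ∀ i j, i ≠ j → Disjoint (B i) (B j))
    (hD : ∀ v, G.degree v ≤ D) (hZ : 1 ≤ Z) (hB : ∀ i, (B i).card ≤ Z) (hp : 100 ≤ p)
    (hDy : 100 * (D * y) ≤ 35 * (p * Z)) (u : Fin p → ℕ)
    (hs : ∑ i, u i ≤ j) (hj : j + 1 < p) (a b : Fin p) :
    ∃ P, P ≠ a ∧ P ≠ b ∧ u P ≤ 4 ∧ 10 * y * eB G (B a) (B P) ≤ 9 * Z ^ 2 ∧
      10 * y * eB G (B b) (B P) ≤ 9 * Z ^ 2 := by
  by_contra hcon
  push Not at hcon
  set F := univ.filter (fun P => 5 ≤ u P) with hF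
  set ba := univ.filter (fun P => 9 * Z ^ 2 < 10 * y * eB G (B a) (B P)) with hba
  set bb := univ.filter (fun P => 9 * Z ^ 2 < 10 * y * eB G (B b) (B P)) with hbb
  have hcov : (univ : Finset (Fin p)) ⊆ ({a, b} ∪ F) ∪ (ba ∪ bb) := by
    intro P _
    by_contra hP
    simp only [mem_union, not_or, hF, hba, hbb, mem_filter, mem_univ, true_and, mem_insert,
      mem_singleton, not_le, not_lt] at hP
    obtain ⟨⟨⟨h1, h2⟩, h3⟩, h4, h5⟩ := hP
    exact absurd (hcon P h1 h2 (by omega) h4) (by omega)
  have hc := card_le_card hcov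
  have hc1 := card_union_le ({a, b} ∪ F) (ba ∪ bb)
  have hc2 := card_union_le ({a, b} : Finset (Fin p)) F
  have hc3 := card_union_le ba bb
  have hc4 : ({a, b} : Finset (Fin p)).card ≤ 2 := card_le_two
  rw [card_univ, Fintype.card_fin] at hc
  have hF5 : F.card * 5 ≤ ∑ i, u i := by
    rw [← smul_eq_mul]
    refine (Finset.card_nsmul_le_sum F u 5 ?_).trans
      (Finset.sum_le_sum_of_subset (subset_univ _))
    intro P hP
    rw [hF, mem_filter] at hP
    exact hP.2
  have hba' := b_bad G B hd hD (y := y) hZ a (hB a)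
  have hbb' := b_bad G B hd hD (y := y) hZ b (hB b)
  rw [← hba] at hba'
  rw [← hbb] at hbb'
  have key : ∀ c : ℕ, 9 * Z * c ≤ 10 * y * D → 18 * c ≤ 7 * p := by
    intro c hc
    have : (90 * c) * Z ≤ (35 * p) * Z := by
      calc (90 * c) * Z = 10 * (9 * Z * c) := by ring
        _ ≤ 10 * (10 * y * D) := Nat.mul_le_mul_left _ hc
        _ = 100 * (D * y) := by ring
        _ ≤ 35 * (p * Z) := hDy
        _ = (35 * p) * Z := by ring
    have := Nat.le_of_mul_le_mul_right this hZ
    omega
  have k1 := key _ hba'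
  have k2 := key _ hbb'
  omega

/-- The number of times block `i` has played its own role before step `j`. -/
def bOwn (j i : ℕ) : ℕ := if i < j then 2 else if i = j then 1 else 0

lemma bOwn_le (j i : ℕ) : bOwn j i ≤ 2 := by
  unfold bOwn; split_ifs <;> omega

lemma bOwn_mono (j i : ℕ) : bOwn j i ≤ bOwn (j + 1) i := by
  unfold bOwn; split_ifs <;> omega

/-- The invariant of the sequential process. -/
def BInv {p : ℕ} (S M : ℕ) (B : Fin p → Finset V) (j : ℕ) : Prop :=
  ∃ W ⊆ univ.biUnion B, Til G S (univ.biUnion B \ W) ∧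
    (∀ i : Fin p, i.val < j → S ∣ (B i ∩ W).card) ∧
    ∃ u : Fin p → ℕ, (∀ i, u i ≤ 5) ∧ ∑ i, u i ≤ j ∧
      ∀ i, (B i \ W).card ≤ bOwn j i.val * S + (M + 2) * S * u i

lemma b_step (hPeel : ClaimPeel) {p S y M D Z j : ℕ} (B : Fin p → Finset V)
    (hind : ∀ i, Ind G (B i))
    (hd : ∀ i j, i ≠ j → Disjoint (B i) (B j)) (hD : ∀ v, G.degree v ≤ D)
    (hy : 1 ≤ y) (hyS : y ≤ S) (hM : S ≤ M * y) (hZ : Z = 40 * (5 * M + 13) * S)
    (hB1 : ∀ i, Z ≤ (B i).card + S) (hB2 : ∀ i, (B i).card ≤ Z) (hp : 100 ≤ p)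
    (hDy : 100 * (D * y) ≤ 35 * (p * Z)) (hj : j + 1 < p) (hI : BInv G S M B j) :
    BInv G S M B (j + 1) := by
  obtain ⟨W, hW, hT, hdiv, u, hu, hs, hloss⟩ := hI
  set Q := (M + 2) * S with hQ
  have hZQ : Z = 200 * Q + 120 * S := by rw [hZ, hQ]; ring
  have hS : 1 ≤ S := hy.trans hyS
  have hQS : 2 * S ≤ Q := by rw [hQ]; exact Nat.mul_le_mul_right _ (by omega)
  have hZ1 : 1 ≤ Z := by omega
  have hcard : ∀ i, (B i ∩ W).card + (B i \ W).card = (B i).card := fun i =>
    card_inter_add_card_sdiff _ _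
  have hQu : ∀ i, Q * u i ≤ 5 * Q := fun i => by
    rw [mul_comm]; exact Nat.mul_le_mul_right _ (hu i)
  have hbig : ∀ i, 39 * Z ≤ 40 * (B i ∩ W).card := by
    intro i
    have h1 := hloss i
    have h2 := bOwn_le j i.val
    have h3 : bOwn j i.val * S ≤ 2 * S := Nat.mul_le_mul_right _ h2
    have h4 := hQu i
    have h5 := hcard i
    have h6 := hB1 i
    omega
  have hmem : ∀ {i i' : Fin p} {v : V}, v ∈ B i → v ∈ B i' → i = i' := by
    intro i i' v hv hv'
    by_contra hne
    exact (disjoint_left.1 (hd i i' hne)) hv hv'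
  set a : Fin p := ⟨j, by omega⟩ with ha
  set b : Fin p := ⟨j + 1, hj⟩ with hb
  have hab : a ≠ b := by
    intro h
    have := congrArg Fin.val h
    simp [ha, hb] at this
  set x := (B a ∩ W).card % S with hx
  have hxS : x < S := Nat.mod_lt _ (by omega)
  by_cases hx0 : x = 0
  · refine ⟨W, hW, hT, ?_, u, hu, hs.trans (Nat.le_succ _), ?_⟩
    · intro i hi
      rcases Nat.lt_succ_iff_lt_or_eq.1 hi with h | h
      · exact hdiv i h
      · have : i = a := Fin.ext h
        rw [this]
        exact Nat.dvd_of_mod_eq_zero (by rw [← hx, hx0])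
    · intro i
      exact (hloss i).trans (Nat.add_le_add_right (Nat.mul_le_mul_right _ (bOwn_mono j i.val)) _)
  obtain ⟨P, hPa, hPb, huP, hea, heb⟩ := b_partner G B hd hD hZ1 hB2 hp hDy u hs hj a b
  set Y := B P ∩ W with hY
  set dd := 19 * Z / (20 * y) with hdd
  obtain ⟨X1, hX1, hX1c, hX1d⟩ := b_low G (P0 := B a ∩ W) (Bj := B a) (BP := B P) (S := S)
    hy inter_subset_left hea (hbig a) (by omega) hxS.le hZ1
  obtain ⟨X2, hX2, hX2c, hX2d⟩ := b_low G (P0 := B b ∩ W) (Bj := B b) (BP := B P) (S := S)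
    (x := S - x) hy inter_subset_left heb (hbig b) (by omega) (Nat.sub_le _ _) hZ1
  have hdd1 : 20 * (y * dd) ≤ 19 * Z := by
    have := Nat.mul_div_le (19 * Z) (20 * y)
    rw [← hdd] at this
    linarith
  have hdiv1 : x / y + (S - x) / y ≤ M := by
    have h1 : x / y + (S - x) / y ≤ (x + (S - x)) / y := Nat.div_add_div_le_add_div
    have h2 : (x + (S - x)) / y ≤ M := by
      rw [show x + (S - x) = S by omega]
      exact Nat.div_le_of_le_mul (by rw [mul_comm]; exact hM)
    exact h1.trans h2
  have hmul : (x / y + 1) * S + ((S - x) / y + 1) * S ≤ Q := by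
    rw [hQ, ← Nat.add_mul]
    exact Nat.mul_le_mul_right _ (by omega)
  have hYbig := hbig P
  rw [← hY] at hYbig
  have hX1B : X1 ⊆ B a := hX1.trans inter_subset_left
  have hX2B : X2 ⊆ B b := hX2.trans inter_subset_left
  have hYB : Y ⊆ B P := inter_subset_left
  obtain ⟨D1, hD1, h1, hh1, hc1, hT1⟩ := hPeel V G X1 Y S y dd ((hind a).mono hX1B)
    ((hind P).mono hYB) ((hd a P hPa.symm).mono hX1B hYB) hy hyS
    (fun v hv => (card_le_card (inter_subset_inter_left hYB)).trans (hX1d v hv))
    (by rw [hX1c]; omega)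
  rw [hX1c] at hh1 hc1
  have hD1c : D1.card ≤ (x / y + 1) * S := by
    have : h1 * S ≤ (x / y + 1) * S := Nat.mul_le_mul_right _ hh1
    omega
  have hY2c : (Y \ D1).card + D1.card = Y.card := by
    rw [card_sdiff_of_subset hD1]
    have := card_le_card hD1
    omega
  have hY2B : Y \ D1 ⊆ B P := sdiff_subset.trans hYB
  obtain ⟨D2, hD2, h2, hh2, hc2, hT2⟩ := hPeel V G X2 (Y \ D1) S y dd ((hind b).mono hX2B)
    ((hind P).mono hY2B) ((hd b P hPb.symm).mono hX2B hY2B) hy hyS
    (fun v hv => (card_le_card (inter_subset_inter_left hY2B)).trans (hX2d v hv))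
    (by rw [hX2c]; omega)
  rw [hX2c] at hh2 hc2
  have hD2c : D2.card ≤ ((S - x) / y + 1) * S := by
    have : h2 * S ≤ ((S - x) / y + 1) * S := Nat.mul_le_mul_right _ hh2
    omega
  have hD1B : D1 ⊆ B P := hD1.trans hYB
  have hD2B : D2 ⊆ B P := hD2.trans hY2B
  have hD12 : Disjoint D1 D2 := by
    rw [disjoint_comm]
    exact (disjoint_of_subset_left hD2 sdiff_disjoint)
  have hDsum : D1.card + D2.card + S = (h1 + h2) * S := by
    rw [Nat.add_mul]; omega
  have hDdvd : S ∣ D1.card + D2.card := by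
    have h3 : S ∣ D1.card + D2.card + S := by rw [hDsum]; exact Dvd.intro_left _ rfl
    exact (Nat.dvd_add_left (dvd_refl S)).1 h3
  set R := (X1 ∪ D1) ∪ (X2 ∪ D2) with hR
  have hRW : R ⊆ W := by
    rw [hR]
    refine union_subset (union_subset (hX1.trans inter_subset_right) ?_)
      (union_subset (hX2.trans inter_subset_right) ?_)
    · exact hD1.trans inter_subset_right
    · exact (hD2.trans sdiff_subset).trans inter_subset_right
  have hRa : B a ∩ R = X1 := by
    ext v
    simp only [hR, mem_inter, mem_union]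
    constructor
    · rintro ⟨hv, (h | h) | (h | h)⟩
      · exact h
      · exact absurd (hmem hv (hD1B h)) hPa.symm
      · exact absurd (hmem hv (hX2B h)) hab
      · exact absurd (hmem hv (hD2B h)) hPa.symm
    · intro h
      exact ⟨hX1B h, Or.inl (Or.inl h)⟩
  have hRb : B b ∩ R = X2 := by
    ext v
    simp only [hR, mem_inter, mem_union]
    constructor
    · rintro ⟨hv, (h | h) | (h | h)⟩
      · exact absurd (hmem hv (hX1B h)) hab.symm
      · exact absurd (hmem hv (hD1B h)) hPb.symm
      · exact h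
      · exact absurd (hmem hv (hD2B h)) hPb.symm
    · intro h
      exact ⟨hX2B h, Or.inr (Or.inl h)⟩
  have hRP : B P ∩ R = D1 ∪ D2 := by
    ext v
    simp only [hR, mem_inter, mem_union]
    constructor
    · rintro ⟨hv, (h | h) | (h | h)⟩
      · exact absurd (hmem hv (hX1B h)) hPa
      · exact Or.inl h
      · exact absurd (hmem hv (hX2B h)) hPb
      · exact Or.inr h
    · rintro (h | h)
      · exact ⟨hD1B h, Or.inl (Or.inr h)⟩
      · exact ⟨hD2B h, Or.inr (Or.inr h)⟩
  have hRo : ∀ i, i ≠ a → i ≠ b → i ≠ P → B i ∩ R = ∅ := by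
    intro i h1 h2 h3
    ext v
    simp only [hR, mem_inter, mem_union, notMem_empty, iff_false, not_and]
    rintro hv ((h | h) | (h | h))
    · exact h1 (hmem hv (hX1B h))
    · exact h3 (hmem hv (hD1B h))
    · exact h2 (hmem hv (hX2B h))
    · exact h3 (hmem hv (hD2B h))
  have hcardI : ∀ i, (B i ∩ (W \ R)).card + (B i ∩ R).card = (B i ∩ W).card := by
    intro i
    rw [← card_union_of_disjoint]
    · congr 1
      ext v
      simp only [mem_union, mem_inter, mem_sdiff]
      constructor
      · rintro (⟨h1, h2, _⟩ | ⟨h1, h2⟩)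
        · exact ⟨h1, h2⟩
        · exact ⟨h1, hRW h2⟩
      · rintro ⟨h1, h2⟩
        by_cases h : v ∈ R
        · exact Or.inr ⟨h1, h⟩
        · exact Or.inl ⟨h1, h2, h⟩
    · rw [disjoint_left]
      intro v hv hv'
      rw [mem_inter, mem_sdiff] at hv
      rw [mem_inter] at hv'
      exact hv.2.2 hv'.2
  have hcardS : ∀ i, (B i \ (W \ R)).card = (B i \ W).card + (B i ∩ R).card := by
    intro i
    rw [← card_union_of_disjoint]
    · congr 1
      ext v
      simp only [mem_union, mem_inter, mem_sdiff]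
      constructor
      · rintro ⟨h1, h2⟩
        by_cases h : v ∈ R
        · exact Or.inr ⟨h1, h⟩
        · exact Or.inl ⟨h1, fun hw => h2 ⟨hw, h⟩⟩
      · rintro (⟨h1, h2⟩ | ⟨h1, h2⟩)
        · exact ⟨h1, fun hw => h2 hw.1⟩
        · exact ⟨h1, fun hw => hw.2 h2⟩
    · rw [disjoint_left]
      intro v hv hv'
      rw [mem_sdiff] at hv
      rw [mem_inter] at hv'
      exact hv.2 (hRW hv'.2)
  refine ⟨W \ R, sdiff_subset.trans hW, ?_, ?_, Function.update u P (u P + 1), ?_, ?_, ?_⟩
  · have e : univ.biUnion B \ (W \ R) = (univ.biUnion B \ W) ∪ R := by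
      ext v
      simp only [mem_union, mem_sdiff]
      constructor
      · rintro ⟨h1, h2⟩
        by_cases h : v ∈ R
        · exact Or.inr h
        · exact Or.inl ⟨h1, fun hw => h2 ⟨hw, h⟩⟩
      · rintro (⟨h1, h2⟩ | h)
        · exact ⟨h1, fun hw => h2 hw.1⟩
        · exact ⟨hW (hRW h), fun hw => hw.2 h⟩
    rw [e]
    apply hT.union (hT1.union hT2 ?_) ?_
    · rw [disjoint_union_left, disjoint_union_right, disjoint_union_right]
      exact ⟨⟨(hd a b hab).mono hX1B hX2B, (hd a P hPa.symm).mono hX1B hD2B⟩,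
        ⟨(hd P b hPb).mono hD1B hX2B, hD12⟩⟩
    · rw [disjoint_left]
      intro v hv hv'
      exact (mem_sdiff.1 hv).2 (hRW hv')
  · intro i hi
    have hib : i ≠ b := by
      intro h
      rw [h, hb] at hi
      simp at hi
    by_cases hia : i = a
    · subst hia
      have h3 := hcardI a
      rw [hRa, hX1c] at h3
      have h4 : (B a ∩ (W \ R)).card = (B a ∩ W).card - (B a ∩ W).card % S := by
        rw [← hx]; omega
      rw [h4]
      exact Nat.dvd_sub_mod _
    · have hij : i.val < j := by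
        rcases Nat.lt_succ_iff_lt_or_eq.1 hi with h | h
        · exact h
        · exact absurd (Fin.ext h) hia
      have h3 := hcardI i
      by_cases hiP : i = P
      · rw [hiP, hRP, card_union_of_disjoint hD12] at h3
        rw [hiP]
        have h4 : S ∣ (B P ∩ W).card := by rw [← hiP]; exact hdiv i hij
        rw [← h3] at h4
        exact (Nat.dvd_add_left hDdvd).1 h4
      · rw [hRo i hia hib hiP, card_empty, add_zero] at h3
        rw [h3]
        exact hdiv i hij
  · intro i
    by_cases h : i = P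
    · subst h; simp; omega
    · rw [Function.update_of_ne h]; exact hu i
  · have e : Function.update u P (u P + 1) = fun i => u i + if i = P then 1 else 0 := by
      funext i
      by_cases h : i = P
      · subst h; simp
      · rw [Function.update_of_ne h, if_neg h, add_zero]
    rw [e, Finset.sum_add_distrib, Finset.sum_ite_eq', if_pos (mem_univ P)]
    omega
  · intro i
    rw [hcardS i, ← hQ]
    have h3 := hloss i
    have h4 : bOwn j i.val * S ≤ bOwn (j + 1) i.val * S :=
      Nat.mul_le_mul_right _ (bOwn_mono j i.val)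
    by_cases hiP : i = P
    · rw [hiP, hRP, card_union_of_disjoint hD12, Function.update_self]
      rw [hiP] at h3 h4
      have : Q * (u P + 1) = Q * u P + Q := by ring
      rw [this]
      omega
    rw [Function.update_of_ne hiP]
    by_cases hia : i = a
    · rw [hia, hRa, hX1c]
      rw [hia] at h3
      have e1 : bOwn j a.val = 1 := by simp [bOwn, ha]
      have e2 : bOwn (j + 1) a.val = 2 := by simp [bOwn, ha]
      rw [e1] at h3
      rw [e2]
      omega
    by_cases hib : i = b
    · rw [hib, hRb, hX2c]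
      rw [hib] at h3
      have e1 : bOwn j b.val = 0 := by simp [bOwn, hb]
      have e2 : bOwn (j + 1) b.val = 1 := by simp [bOwn, hb]
      rw [e1] at h3
      rw [e2]
      omega
    · rw [hRo i hia hib hiP, card_empty]
      omega

end B

/-- Item B. -/
theorem claimB (hPeel : ClaimPeel) : ClaimB := by
  intro V _ _ G _ p S y M D Z B hind hd hD hy hyS hM hZ hB1 hB2 hp hDy hdvd
  have hall : ∀ j, j < p → BInv G S M B j := by
    intro j
    induction j with
    | zero =>
      intro _
      refine ⟨univ.biUnion B, Subset.refl _, ?_, ?_, fun _ => 0, fun _ => Nat.zero_le _, by simp, ?_⟩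
      · rw [sdiff_self]; exact Til.empty S
      · intro i hi; omega
      · intro i
        have : B i \ univ.biUnion B = ∅ := by
          rw [sdiff_eq_empty_iff_subset]
          exact subset_biUnion_of_mem B (mem_univ i)
        rw [this]; simp
    | succ j ih =>
      intro hj
      exact b_step G hPeel B hind hd hD hy hyS hM hZ hB1 hB2 hp hDy hj (ih (by omega))
  obtain ⟨W, hW, hT, hdiv, -⟩ := hall (p - 1) (by omega)
  have hWu : W = univ.biUnion (fun i => B i ∩ W) := by
    ext v
    simp only [mem_biUnion, mem_univ, true_and, mem_inter]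
    constructor
    · intro hv
      obtain ⟨i, _, hi⟩ := mem_biUnion.1 (hW hv)
      exact ⟨i, hi, hv⟩
    · rintro ⟨i, _, hv⟩; exact hv
  have hdis : ∀ i j, i ≠ j → Disjoint (B i ∩ W) (B j ∩ W) := fun i j hij =>
    (hd i j hij).mono inter_subset_left inter_subset_left
  have hWc : W.card = ∑ i, (B i ∩ W).card := by
    conv_lhs => rw [hWu]
    exact card_biUnion (fun i _ j _ hij => hdis i j hij)
  have hSW : S ∣ W.card := by
    have h1 : (univ.biUnion B \ W).card + W.card = (univ.biUnion B).card := by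
      rw [card_sdiff_of_subset hW]
      have := card_le_card hW
      omega
    rw [← h1] at hdvd
    exact (Nat.dvd_add_right hT.dvd).1 hdvd
  set l : Fin p := ⟨p - 1, by omega⟩ with hl
  have hlast : S ∣ (B l ∩ W).card := by
    rw [hWc, ← Finset.add_sum_erase _ _ (mem_univ l)] at hSW
    refine (Nat.dvd_add_left ?_).1 hSW
    apply Finset.dvd_sum
    intro i hi
    apply hdiv i
    have h1 := (mem_erase.1 hi).1
    have h2 : i.val ≠ p - 1 := fun h => h1 (Fin.ext h)
    have := i.isLt
    omega
  have hTW : Til G S W := by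
    rw [hWu]
    apply Til.biUnion
    · intro i _ j _ hij; exact hdis i j hij
    · intro i _
      apply Til.of_ind ((hind i).mono inter_subset_left)
      by_cases h : i = l
      · rw [h]; exact hlast
      · apply hdiv i
        have h2 : i.val ≠ p - 1 := fun h' => h (Fin.ext h')
        have := i.isLt
        omega
  have := hT.union hTW sdiff_disjoint
  rwa [sdiff_union_of_subset hW] at this

end Pool.Agent.Work.MP_47f387_co

end

section

/-!
# MP_47f387_co : item One (the divisible case)
-/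

namespace Pool.Agent.Work.MP_47f387_co

open Finset

/-- Cutting a set into pieces of size exactly `Z` and a rest of size less than `Z`. -/
lemma stepOne_cut {V : Type} [DecidableEq V] (Z : ℕ) (hZ : 0 < Z) (n : ℕ) (X : Finset V)
    (h : X.card ≤ n) :
    ∃ (Ls : List (Finset V)) (R : Finset V), R ⊆ X ∧ R.card < Z ∧ Ls.Pairwise Disjoint ∧
      (∀ X' ∈ Ls, X' ⊆ X ∧ X'.card = Z ∧ Disjoint X' R) ∧
      ∀ v ∈ X, v ∈ R ∨ ∃ X' ∈ Ls, v ∈ X' := by
  induction n generalizing X with
  | zero =>
    exact ⟨[], X, Subset.refl _, by omega, List.Pairwise.nil, by simp, fun v hv => Or.inl hv⟩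
  | succ n ih =>
    rcases lt_or_ge X.card Z with h1 | h1
    · exact ⟨[], X, Subset.refl _, h1, List.Pairwise.nil, by simp, fun v hv => Or.inl hv⟩
    · obtain ⟨Y, hY, hc⟩ := exists_subset_card_eq h1
      have h2 : (X \ Y).card ≤ n := by
        rw [card_sdiff_of_subset hY, hc]; omega
      obtain ⟨Ls, R, r1, r2, r3, r4, r5⟩ := ih (X \ Y) h2
      refine ⟨Y :: Ls, R, r1.trans sdiff_subset, r2, ?_, ?_, ?_⟩
      · rw [List.pairwise_cons]
        exact ⟨fun X' hX' => disjoint_sdiff.mono_right (r4 X' hX').1, r3⟩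
      · intro X' hX'
        rw [List.mem_cons] at hX'
        rcases hX' with rfl | hX'
        · exact ⟨hY, hc, disjoint_sdiff.mono_right r1⟩
        · exact ⟨(r4 X' hX').1.trans sdiff_subset, (r4 X' hX').2⟩
      · intro v hv
        by_cases hvY : v ∈ Y
        · exact Or.inr ⟨Y, List.mem_cons_self, hvY⟩
        · rcases r5 v (mem_sdiff.2 ⟨hv, hvY⟩) with h | ⟨X', h3, h4⟩
          · exact Or.inl h
          · exact Or.inr ⟨X', List.mem_cons_of_mem _ h3, h4⟩

/-- Item One. -/
theorem claimOne (hAB : ClaimAB) : ClaimOne := by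
  intro V _ _ G _ t S y M D A hAi hAd hdeg hy hyS hSM ht hn hD hdvd
  have hS : 1 ≤ S := hy.trans hyS
  set Z := 40 * (5 * M + 13) * S with hZ
  have hZ0 : 0 < Z := by rw [hZ]; positivity
  choose L R r1 r2 r3 r4 r5 using fun i => stepOne_cut Z hZ0 _ (A i) le_rfl
  set Ls : List (Finset V) := (List.finRange t).flatMap L with hLs
  have hmem : ∀ X', X' ∈ Ls ↔ ∃ i, X' ∈ L i := by
    intro X'; simp [hLs, List.mem_flatMap]
  have hpw : Ls.Pairwise Disjoint := by
    rw [hLs, List.pairwise_flatMap]
    refine ⟨fun i _ => r3 i, ?_⟩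
    refine (List.nodup_finRange t).imp ?_
    intro i j hij X1 h1 X2 h2
    exact (hAd i j hij).mono (r4 i X1 h1).1 (r4 j X2 h2).1
  set p := Ls.length with hp
  set B : Fin p → Finset V := fun j => Ls.get j with hB
  have hBmem : ∀ j, ∃ i, B j ∈ L i := fun j => (hmem _).1 (List.get_mem _ _)
  have hBc : ∀ j, (B j).card = Z := by
    intro j
    obtain ⟨i, hi⟩ := hBmem j
    exact (r4 i _ hi).2.1
  have hBd : ∀ i j, i ≠ j → Disjoint (B i) (B j) := by
    have h := List.pairwise_iff_get.1 hpw
    intro i j hij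
    rcases lt_or_gt_of_ne hij with h1 | h1
    · exact h i j h1
    · exact (h j i h1).symm
  have hBi : ∀ i, Ind G (B i) := by
    intro j
    obtain ⟨i, hi⟩ := hBmem j
    exact (hAi i).mono (r4 i _ hi).1
  have hRd : ∀ i j, i ≠ j → Disjoint (R i) (R j) := fun i j hij =>
    (hAd i j hij).mono (r1 i) (r1 j)
  have hBR : ∀ j i, Disjoint (B j) (R i) := by
    intro j i
    obtain ⟨i', hi'⟩ := hBmem j
    by_cases h : i' = i
    · subst h; exact (r4 i' _ hi').2.2
    · exact (hAd i' i h).mono (r4 i' _ hi').1 (r1 i)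
  have hU : univ.biUnion B ∪ univ.biUnion R = univ.biUnion A := by
    ext v
    simp only [mem_union, mem_biUnion, mem_univ, true_and]
    constructor
    · rintro (⟨j, hj⟩ | ⟨i, hi⟩)
      · obtain ⟨i, hi⟩ := hBmem j
        exact ⟨i, (r4 i _ hi).1 hj⟩
      · exact ⟨i, r1 i hi⟩
    · rintro ⟨i, hi⟩
      rcases r5 i v hi with h | ⟨X', h1, h2⟩
      · exact Or.inr ⟨i, h⟩
      · obtain ⟨j, hj⟩ := List.get_of_mem ((hmem X').2 ⟨i, h1⟩)
        exact Or.inl ⟨j, by rw [hB]; simp only []; rw [hj]; exact h2⟩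
  have hcard : (univ.biUnion A).card ≤ (p + t) * Z := by
    rw [← hU]
    calc (univ.biUnion B ∪ univ.biUnion R).card
        ≤ (univ.biUnion B).card + (univ.biUnion R).card := card_union_le _ _
      _ ≤ (∑ j, (B j).card) + ∑ i, (R i).card := add_le_add card_biUnion_le card_biUnion_le
      _ ≤ (∑ _j : Fin p, Z) + ∑ _i : Fin t, Z :=
          add_le_add (sum_le_sum fun j _ => (hBc j).le) (sum_le_sum fun i _ => (r2 i).le)
      _ = (p + t) * Z := by simp [add_mul]
  have hpt : (5 * M + 101) * t ≤ p + t := by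
    have h1 : ((5 * M + 101) * t) * Z ≤ (p + t) * Z := by
      calc ((5 * M + 101) * t) * Z = (5 * M + 101) * Z * t := by ring
        _ ≤ _ := hn.trans hcard
    exact Nat.le_of_mul_le_mul_right h1 hZ0
  have hp1 : 100 * t ≤ p := by nlinarith
  have hp2 : 5 * ((M + 1) * t) ≤ p := by nlinarith
  have hp3 : 100 ≤ p := by omega
  rw [← hU] at hdvd ⊢
  refine hAB V G p t S y M D Z B R hBi (fun i => (hAi i).mono (r1 i)) hBd hRd hBR hdeg hy hyS hSM
    hZ hBc (fun i => (r2 i).le) hp3 hp2 ?_ hdvd
  calc 100 * (D * y) ≤ 34 * (univ.biUnion A).card := hD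
    _ ≤ 34 * ((p + t) * Z) := Nat.mul_le_mul_left _ hcard
    _ ≤ 35 * (p * Z) := by nlinarith

end Pool.Agent.Work.MP_47f387_co

end

section

/-!
# Item Two
-/

namespace Pool.Agent.Work.MP_47f387_co

open Finset

/-- Both cases at once: `q` tiles of size `a` first, then `r` tiles of size `S`. -/
theorem two_aux (hP : ClaimPure) (h1 : ClaimOne) {V : Type} [Fintype V] [DecidableEq V]
    (G : SimpleGraph V) [DecidableRel G.Adj] (t q a r S y M D : ℕ) (C : G.Coloring (Fin t))
    (hdeg : ∀ v, G.degree v ≤ D) (ht : 1 ≤ t) (hcard : Fintype.card V = q * a + r * S)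
    (ha : 1 ≤ a) (hta : t * a ≤ r * S) (hy : 1 ≤ y) (hyS : y ≤ S) (hSM : S ≤ M * y)
    (hr : (5 * M + 101) * (40 * (5 * M + 13)) * t ≤ r)
    (hD : 100 * (D * y) ≤ 34 * (r * S)) :
    PL G (List.replicate q a ++ List.replicate r S) (univ : Finset V) := by
  set A : Fin t → Finset V := fun i => univ.filter fun v => C v = i with hA
  have hAI : ∀ i, Ind G (A i) := by
    intro i v hv w hw hadj
    rw [hA, mem_filter] at hv hw
    exact C.valid hadj (hv.2.trans hw.2.symm)
  have hAd : ∀ i j, i ≠ j → Disjoint (A i) (A j) := by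
    intro i j hij
    rw [disjoint_left]
    intro v hv hw
    rw [hA, mem_filter] at hv hw
    exact hij (hv.2.symm.trans hw.2)
  have hAU : univ.biUnion A = (univ : Finset V) := by
    ext v
    simp [hA]
  obtain ⟨W', -, hPL, -⟩ := hP V G t q a A univ hAI hAd (by rw [hAU]) ha (by
    rw [card_univ, hcard]
    omega)
  have hsum := hPL.sum
  rw [List.sum_replicate, smul_eq_mul] at hsum
  have hW'c : W'.card = r * S := by
    have := card_sdiff_add_card_inter (univ : Finset V) W'
    rw [univ_inter, card_univ, hcard] at this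
    omega
  have hU' : univ.biUnion (fun i => A i ∩ W') = W' := by
    ext v
    simp only [mem_biUnion, mem_univ, true_and, mem_inter]
    constructor
    · rintro ⟨i, _, hv⟩
      exact hv
    · intro hv
      exact ⟨C v, by simp [hA], hv⟩
  have hTil : Til G S W' := by
    rw [← hU']
    refine h1 V G t S y M D (fun i => A i ∩ W') (fun i => (hAI i).mono inter_subset_left)
      (fun i j hij => (hAd i j hij).mono inter_subset_left inter_subset_left) hdeg hy hyS hSM ht
      ?_ ?_ ?_
    · rw [hU', hW'c]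
      calc (5 * M + 101) * (40 * (5 * M + 13) * S) * t =
          (5 * M + 101) * (40 * (5 * M + 13)) * t * S := by ring
        _ ≤ r * S := Nat.mul_le_mul_right S hr
    · rw [hU', hW'c]
      exact hD
    · rw [hU', hW'c]
      exact Dvd.intro_left r rfl
  have hPL2 : PL G (List.replicate r S) W' := hTil.PL_card (by omega) hW'c
  have := hPL.append hPL2 sdiff_disjoint
  rwa [sdiff_union_of_subset (subset_univ W')] at this

theorem claimTwo (hP : ClaimPure) (h1 : ClaimOne) (hC : ClaimColor) : ClaimTwo := by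
  intro V _ _ G _ t k s e y M D S hcol hdeg ht hcard hek hs hcase hy hyS hSM hk
  obtain ⟨C⟩ := hcol
  have hK : 2 * (2 * t) ≤ 2 * ((5 * M + 101) * (40 * (5 * M + 13)) * t) := by
    refine Nat.mul_le_mul_left 2 (Nat.mul_le_mul_right t ?_)
    have : 1 * 40 ≤ (5 * M + 101) * (40 * (5 * M + 13)) :=
      Nat.mul_le_mul (by omega) (by omega)
    omega
  rcases hcase with ⟨h2e, hS, hDy⟩ | ⟨h2e, hS, hDy⟩
  · subst hS
    have hr : (5 * M + 101) * (40 * (5 * M + 13)) * t ≤ k - e := by omega
    have hPL := two_aux hP h1 G t e (S + 1) (k - e) S y M D C hdeg ht (by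
      rw [hcard]
      obtain ⟨l, rfl⟩ := Nat.exists_eq_add_of_le hek
      rw [Nat.add_sub_cancel_left]
      ring) (by omega) (by
        have h3 : 2 * t ≤ k - e := by omega
        calc t * (S + 1) ≤ t * (2 * S) := Nat.mul_le_mul_left t (by omega)
          _ = 2 * t * S := by ring
          _ ≤ (k - e) * S := Nat.mul_le_mul_right S h3) hy hyS hSM hr hDy
    have h4 := hC V G _ S hPL (by
      intro a ha
      rcases List.mem_append.1 ha with h | h
      · exact Or.inr (List.eq_of_mem_replicate h)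
      · exact Or.inl (List.eq_of_mem_replicate h))
    have h5 : (List.replicate e (S + 1) ++ List.replicate (k - e) S).length = k := by
      rw [List.length_append, List.length_replicate, List.length_replicate]
      omega
    rwa [h5] at h4
  · subst hS
    have hr : (5 * M + 101) * (40 * (5 * M + 13)) * t ≤ e := by omega
    have hPL := two_aux hP h1 G t (k - e) s e (s + 1) y M D C hdeg ht (by
      rw [hcard]
      obtain ⟨l, rfl⟩ := Nat.exists_eq_add_of_le hek
      rw [Nat.add_sub_cancel_left]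
      ring) (by omega) (by
        have h3 : t ≤ e := by omega
        exact Nat.mul_le_mul h3 (by omega)) hy hyS hSM hr hDy
    have h4 := hC V G _ s hPL (by
      intro a ha
      rcases List.mem_append.1 ha with h | h
      · exact Or.inl (List.eq_of_mem_replicate h)
      · exact Or.inr (List.eq_of_mem_replicate h))
    have h5 : (List.replicate (k - e) s ++ List.replicate e (s + 1)).length = k := by
      rw [List.length_append, List.length_replicate, List.length_replicate]
      omega
    rwa [h5] at h4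

end Pool.Agent.Work.MP_47f387_co

end
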