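import Pool.Agent.Work.MP_47f387_co.Bd.Z

/-! Bundle of small proof modules (one section per former module). -/

section

namespace Pool.Agent.Work.MP_47f387_co.Large

open Finset Classical

noncomputable section

namespace IB3

variable {d : ℕ}

def pick (s : Equiv.Perm (Fin d)) (S : Finset (Fin d)) : Option (Fin d) :=
  if h : (univ.filter (fun j => s j ∉ S)).Nonempty then some (s (Finset.min' _ h)) else none

lemma pick_not_mem {s : Equiv.Perm (Fin d)} {S : Finset (Fin d)} {c : Fin d}
    (h : pick s S = some c) : c ∉ S := by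
  unfold pick at h
  split_ifs at h with h1
  rw [Option.some.injEq] at h
  have h2 := Finset.min'_mem _ h1
  rw [mem_filter] at h2
  rw [← h]
  exact h2.2

lemma pick_ne_none {s : Equiv.Perm (Fin d)} {S : Finset (Fin d)} (h : S.card < d) :
    pick s S ≠ none := by
  unfold pick
  have h1 : (univ.filter (fun j => s j ∉ S)).Nonempty := by
    by_contra hne
    rw [Finset.not_nonempty_iff_eq_empty, Finset.filter_eq_empty_iff] at hne
    have h2 : (univ : Finset (Fin d)) ⊆ S := by
      intro c _
      have h3 := hne (mem_univ (s.symm c))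
      rw [not_not, Equiv.apply_symm_apply] at h3
      exact h3
    have h3 := card_le_card h2
    rw [card_univ, Fintype.card_fin] at h3
    omega
  rw [dif_pos h1]
  exact Option.some_ne_none _

lemma pick_map (π s : Equiv.Perm (Fin d)) (S : Finset (Fin d)) :
    pick (π * s) (S.image π) = (pick s S).map π := by
  have h : (univ.filter (fun j => (π * s) j ∉ S.image π)) = univ.filter (fun j => s j ∉ S) := by
    ext j
    rw [mem_filter, mem_filter, Equiv.Perm.mul_apply, Finset.mem_image]
    constructor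
    · rintro ⟨h1, h2⟩
      exact ⟨h1, fun h3 => h2 ⟨_, h3, rfl⟩⟩
    · rintro ⟨h1, h2⟩
      refine ⟨h1, ?_⟩
      rintro ⟨c, h3, h4⟩
      rw [π.injective h4] at h3
      exact h2 h3
  unfold pick
  by_cases h1 : (univ.filter (fun j => s j ∉ S)).Nonempty
  · rw [dif_pos h1]
    have h2 : (univ.filter (fun j => (π * s) j ∉ S.image π)).Nonempty := by
      rw [h]
      exact h1
    rw [dif_pos h2, Option.map_some, Equiv.Perm.mul_apply]
    congr 3
    simp only [h]
  · rw [dif_neg h1]
    have h2 : ¬ (univ.filter (fun j => (π * s) j ∉ S.image π)).Nonempty := by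
      rw [h]
      exact h1
    rw [dif_neg h2]
    rfl

variable {V : Type} [Fintype V] (G : SimpleGraph V) (key : V → ℕ)

def col (σ : V → Equiv.Perm (Fin d)) : ℕ → V → Option (Fin d)
  | 0, _ => none
  | n + 1, v => if key v = n then
      pick (σ v) (univ.filter (fun c => ∃ u, G.Adj v u ∧ key u < n ∧ col σ n u = some c))
      else col σ n v

lemma col_stable (σ : V → Equiv.Perm (Fin d)) (v : V) (m : ℕ) (hm : key v < m) :
    col G key σ m v = col G key σ (key v + 1) v := by
  induction m with
  | zero => omega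
  | succ m ih =>
    by_cases h : key v = m
    · rw [h]
    · have h1 : col G key σ (m + 1) v = col G key σ m v := by
        rw [col, if_neg h]
      rw [h1]
      exact ih (by omega)

lemma col_eq (σ : V → Equiv.Perm (Fin d)) (K : ℕ) (hK : ∀ v, key v < K) (v : V) :
    col G key σ K v = pick (σ v) (univ.filter
      (fun c => ∃ u, G.Adj v u ∧ key u < key v ∧ col G key σ K u = some c)) := by
  rw [col_stable G key σ v K (hK v), col, if_pos rfl]
  congr 1
  ext c
  rw [mem_filter, mem_filter]
  refine and_congr_right fun _ => exists_congr fun u => and_congr_right fun _ => ?_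
  refine and_congr_right fun h => ?_
  rw [col_stable G key σ u K (hK u), col_stable G key σ u (key v) h]

end IB3

open IB3 in
theorem prfB3 : B3 := by
  intro d V _ G K Z key hBD hK hne hZ
  refine ⟨fun σ => col G key σ K, ?_, ?_, ?_, ?_⟩
  · -- proper
    have aux : ∀ (σ : V → Equiv.Perm (Fin d)) u v c, G.Adj u v → key u < key v →
        col G key σ K u = some c → col G key σ K v ≠ some c := by
      intro σ u v c huv hlt hu hv
      rw [col_eq G key σ K hK v] at hv
      refine pick_not_mem hv ?_
      rw [mem_filter]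
      exact ⟨mem_univ _, u, huv.symm, hlt, hu⟩
    intro σ u v c huv hu hv
    rcases lt_or_gt_of_ne (hne u v huv) with h | h
    · exact aux σ u v c huv h hu hv
    · exact aux σ v u c huv.symm h hv hu
  · intro σ v hv
    obtain ⟨u0, hu0, hlt0⟩ := hZ v hv
    simp only
    rw [col_eq G key σ K hK v]
    refine pick_ne_none ?_
    have h1 : (univ.filter
        (fun c => ∃ u, G.Adj v u ∧ key u < key v ∧ col G key σ K u = some c)).image some ⊆
        ((univ.filter (fun u => G.Adj v u)).erase u0).image (col G key σ K) := by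
      intro o ho
      obtain ⟨c, hc, rfl⟩ := mem_image.1 ho
      obtain ⟨u, h2, h3, h4⟩ := (mem_filter.1 hc).2
      refine mem_image.2 ⟨u, mem_erase.2 ⟨?_, mem_filter.2 ⟨mem_univ _, h2⟩⟩, h4⟩
      rintro rfl
      omega
    have h2 := (card_le_card h1).trans card_image_le
    rw [card_image_of_injective _ (Option.some_injective _),
      card_erase_of_mem (mem_filter.2 ⟨mem_univ _, hu0⟩)] at h2
    have h3 : (filter (G.Adj v) univ).card ≤ d := hBD v
    have h4 : 0 < (filter (G.Adj v) univ).card :=
      card_pos.2 ⟨u0, mem_filter.2 ⟨mem_univ _, hu0⟩⟩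
    omega
  · intro π σ
    have aux : ∀ n v, key v = n →
        col G key (fun u => π * σ u) K v = (col G key σ K v).map π := by
      intro n
      induction n using Nat.strong_induction_on with
      | _ n ih =>
        intro v hv
        rw [col_eq G key _ K hK v, col_eq G key σ K hK v, ← pick_map]
        congr 1
        ext c
        rw [mem_filter, mem_image]
        constructor
        · rintro ⟨_, u, h1, h2, h3⟩
          rw [ih (key u) (by omega) u rfl, Option.map_eq_some_iff] at h3
          obtain ⟨c', h4, h5⟩ := h3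
          exact ⟨c', mem_filter.2 ⟨mem_univ _, u, h1, h2, h4⟩, h5⟩
        · rintro ⟨c', h1, rfl⟩
          obtain ⟨u, h2, h3, h4⟩ := (mem_filter.1 h1).2
          refine ⟨mem_univ _, u, h2, h3, ?_⟩
          rw [ih (key u) (by omega) u rfl, h4]
          rfl
    intro v
    exact aux _ v rfl
  · intro σ τ
    have aux : ∀ n v, key v = n → (∀ u, Near G n v u → σ u = τ u) →
        col G key σ K v = col G key τ K v := by
      intro n
      induction n using Nat.strong_induction_on with
      | _ n ih =>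
        intro v hv hst
        rw [col_eq G key σ K hK v, col_eq G key τ K hK v, hst v (near_refl n v)]
        congr 1
        ext c
        rw [mem_filter, mem_filter]
        refine and_congr_right fun _ => exists_congr fun u => and_congr_right fun h1 => ?_
        refine and_congr_right fun h2 => ?_
        rw [ih (key u) (by omega) u rfl fun w hw => hst w ?_]
        have h3 := near_trans (near_of_adj h1) hw
        exact near_mono (by omega) h3
    intro v hst
    exact aux _ v rfl fun u hu => hst u (near_mono (hK v).le hu)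

end

end Pool.Agent.Work.MP_47f387_co.Large

end

section

/-!
# Item B4: second moment method for local indicators
-/

namespace Pool.Agent.Work.MP_47f387_co.Large

open Finset Classical

noncomputable section

namespace IB4

/-- indicator -/
def ind (p : Prop) : ℝ := if p then 1 else 0

lemma ind_nonneg (p : Prop) : 0 ≤ ind p := by
  unfold ind
  split_ifs <;> norm_num

lemma ind_le_one (p : Prop) : ind p ≤ 1 := by
  unfold ind
  split_ifs <;> norm_num

lemma ind_congr {p q : Prop} (h : p ↔ q) : ind p = ind q := by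
  rw [propext h]

lemma card_eq {α : Type} [Fintype α] (p : α → Prop) :
    (((univ.filter (fun v => p v)).card : ℕ) : ℝ) = ∑ v, ind (p v) := by
  unfold ind
  rw [Finset.sum_boole]

section

variable {V S : Type} [Fintype V] [Fintype S]

/-- `σ` outside `A`, `τ` on `A` -/
def mix (A : Finset V) (σ τ : V → S) : V → S := fun u => if u ∈ A then τ u else σ u

omit [Fintype V] [Fintype S] in
lemma mix_mix (A : Finset V) (σ τ : V → S) : mix A (mix A σ τ) (mix A τ σ) = σ := by
  funext u
  unfold mix
  by_cases h : u ∈ A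
  · rw [if_pos h, if_pos h]
  · rw [if_neg h, if_neg h]

/-- the exchange on `A` -/
def ex (A : Finset V) : Equiv.Perm ((V → S) × (V → S)) where
  toFun p := (mix A p.1 p.2, mix A p.2 p.1)
  invFun p := (mix A p.1 p.2, mix A p.2 p.1)
  left_inv p := by
    show (mix A (mix A p.1 p.2) (mix A p.2 p.1), mix A (mix A p.2 p.1) (mix A p.1 p.2)) = p
    rw [mix_mix, mix_mix]
  right_inv p := by
    show (mix A (mix A p.1 p.2) (mix A p.2 p.1), mix A (mix A p.2 p.1) (mix A p.1 p.2)) = p
    rw [mix_mix, mix_mix]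

/-- independence -/
lemma indep (p q : (V → S) → Prop) (A B : Finset V) (hAB : Disjoint A B)
    (hp : ∀ σ τ, (∀ u ∈ A, σ u = τ u) → (p σ → p τ))
    (hq : ∀ σ τ, (∀ u ∈ B, σ u = τ u) → (q σ → q τ)) :
    (Fintype.card (V → S) : ℝ) * ∑ σ, ind (p σ) * ind (q σ) =
      (∑ σ, ind (p σ)) * ∑ σ, ind (q σ) := by
  have h1 : (∑ σ, ind (p σ)) * ∑ σ, ind (q σ) =
      ∑ x : (V → S) × (V → S), ind (p x.1) * ind (q x.2) := by
    rw [Fintype.sum_prod_type, Finset.sum_mul_sum]
  have h2 : (Fintype.card (V → S) : ℝ) * ∑ σ, ind (p σ) * ind (q σ) =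
      ∑ x : (V → S) × (V → S), ind (p x.1) * ind (q x.1) := by
    rw [Fintype.sum_prod_type]
    simp only [Finset.sum_const, Finset.card_univ, nsmul_eq_mul]
    rw [Finset.mul_sum]
  rw [h1, h2, ← Equiv.sum_comp (ex B) (fun x => ind (p x.1) * ind (q x.1))]
  refine Finset.sum_congr rfl fun x _ => ?_
  have ha : ∀ u ∈ A, mix B x.1 x.2 u = x.1 u := by
    intro u hu
    unfold mix
    rw [if_neg (Finset.disjoint_left.1 hAB hu)]
  have hb : ∀ u ∈ B, mix B x.1 x.2 u = x.2 u := by
    intro u hu
    unfold mix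
    rw [if_pos hu]
  show ind (p (mix B x.1 x.2)) * ind (q (mix B x.1 x.2)) = _
  rw [ind_congr ⟨hp _ _ ha, hp _ _ fun u hu => (ha u hu).symm⟩,
    ind_congr ⟨hq _ _ hb, hq _ _ fun u hu => (hb u hu).symm⟩]

/-- the covariance -/
lemma cov_zero [Nonempty S] (p q : (V → S) → Prop) (A B : Finset V) (hAB : Disjoint A B)
    (hp : ∀ σ τ, (∀ u ∈ A, σ u = τ u) → (p σ → p τ))
    (hq : ∀ σ τ, (∀ u ∈ B, σ u = τ u) → (q σ → q τ)) :
    ∑ σ : V → S, (ind (p σ) - (∑ τ, ind (p τ)) / (Fintype.card (V → S) : ℝ)) *
      (ind (q σ) - (∑ τ, ind (q τ)) / (Fintype.card (V → S) : ℝ)) = 0 := by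
  have hM : (Fintype.card (V → S) : ℝ) ≠ 0 := by
    have : 0 < Fintype.card (V → S) := Fintype.card_pos
    exact_mod_cast this.ne'
  have h := indep p q A B hAB hp hq
  set M : ℝ := (Fintype.card (V → S) : ℝ) with hMdef
  set a := ∑ τ : V → S, ind (p τ) with ha
  set b := ∑ τ : V → S, ind (q τ) with hb
  have h1 : ∑ σ : V → S, (ind (p σ) - a / M) * (ind (q σ) - b / M) =
      ∑ σ : V → S, ind (p σ) * ind (q σ) - a * (b / M) - (a / M) * b + M * (a / M * (b / M)) := by
    have : ∀ σ : V → S, (ind (p σ) - a / M) * (ind (q σ) - b / M) =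
        ind (p σ) * ind (q σ) - ind (p σ) * (b / M) - (a / M) * ind (q σ) + a / M * (b / M) := by
      intro σ; ring
    simp_rw [this]
    rw [Finset.sum_add_distrib, Finset.sum_sub_distrib, Finset.sum_sub_distrib, ← Finset.sum_mul,
      ← Finset.mul_sum, Finset.sum_const, Finset.card_univ, nsmul_eq_mul]
  rw [h1]
  have h2 : ∑ σ : V → S, ind (p σ) * ind (q σ) = a * b / M := by
    rw [eq_div_iff hM, mul_comm]
    exact h
  rw [h2]
  field_simp
  ring

lemma cov_le [Nonempty S] (p q : (V → S) → Prop) :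
    ∑ σ : V → S, (ind (p σ) - (∑ τ, ind (p τ)) / (Fintype.card (V → S) : ℝ)) *
      (ind (q σ) - (∑ τ, ind (q τ)) / (Fintype.card (V → S) : ℝ)) ≤
      (Fintype.card (V → S) : ℝ) := by
  have hM : (0 : ℝ) < (Fintype.card (V → S) : ℝ) := by
    have : 0 < Fintype.card (V → S) := Fintype.card_pos
    exact_mod_cast this
  have hE : ∀ r : (V → S) → Prop, 0 ≤ (∑ τ, ind (r τ)) / (Fintype.card (V → S) : ℝ) ∧
      (∑ τ, ind (r τ)) / (Fintype.card (V → S) : ℝ) ≤ 1 := by
    intro r
    constructor
    · exact div_nonneg (Finset.sum_nonneg fun _ _ => ind_nonneg _) hM.le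
    · rw [div_le_one hM]
      calc ∑ τ, ind (r τ) ≤ ∑ τ : V → S, (1 : ℝ) := Finset.sum_le_sum fun _ _ => ind_le_one _
        _ = _ := by rw [Finset.sum_const, Finset.card_univ, nsmul_eq_mul, mul_one]
  have habs : ∀ (r : (V → S) → Prop) (σ : V → S),
      |ind (r σ) - (∑ τ, ind (r τ)) / (Fintype.card (V → S) : ℝ)| ≤ 1 := by
    intro r σ
    have h1 := hE r
    have h2 := ind_nonneg (r σ)
    have h3 := ind_le_one (r σ)
    rw [abs_le]
    constructor <;> linarith [h1.1, h1.2]
  calc _ ≤ ∑ σ : V → S, (1 : ℝ) := by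
        refine Finset.sum_le_sum fun σ _ => ?_
        calc _ ≤ |(ind (p σ) - (∑ τ, ind (p τ)) / (Fintype.card (V → S) : ℝ)) *
              (ind (q σ) - (∑ τ, ind (q τ)) / (Fintype.card (V → S) : ℝ))| := le_abs_self _
          _ ≤ 1 := by
            rw [abs_mul]
            exact mul_le_one₀ (habs p σ) (abs_nonneg _) (habs q σ)
    _ = _ := by rw [Finset.sum_const, Finset.card_univ, nsmul_eq_mul, mul_one]

/-- the second moment -/
lemma second [Nonempty S] (P : V → (V → S) → Prop) (U : V → Finset V) (D : ℕ)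
    (hP : ∀ v σ τ, (∀ u ∈ U v, σ u = τ u) → (P v σ → P v τ))
    (hU : ∀ v, (univ.filter (fun v' => ¬ Disjoint (U v) (U v'))).card ≤ D) :
    ∑ σ : V → S, (((univ.filter (fun v => P v σ)).card : ℝ) -
      (∑ τ : V → S, ((univ.filter (fun v => P v τ)).card : ℝ)) /
        (Fintype.card (V → S) : ℝ)) ^ 2 ≤
      (Fintype.card (V → S) : ℝ) * ((Fintype.card V : ℝ) * (D : ℝ)) := by
  simp_rw [card_eq]
  have h1 : ∀ σ : V → S, (∑ v, ind (P v σ) - (∑ τ : V → S, ∑ v, ind (P v τ)) /
      (Fintype.card (V → S) : ℝ)) ^ 2 =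
      ∑ v, ∑ v', (ind (P v σ) - (∑ τ, ind (P v τ)) / (Fintype.card (V → S) : ℝ)) *
        (ind (P v' σ) - (∑ τ, ind (P v' τ)) / (Fintype.card (V → S) : ℝ)) := by
    intro σ
    rw [Finset.sum_comm (s := univ) (t := univ) (f := fun τ v => ind (P v τ)), Finset.sum_div,
      ← Finset.sum_sub_distrib, sq, Finset.sum_mul_sum]
  simp_rw [h1]
  rw [Finset.sum_comm]
  calc _ = ∑ v, ∑ v', ∑ σ : V → S,
        (ind (P v σ) - (∑ τ, ind (P v τ)) / (Fintype.card (V → S) : ℝ)) *
        (ind (P v' σ) - (∑ τ, ind (P v' τ)) / (Fintype.card (V → S) : ℝ)) := by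
        refine Finset.sum_congr rfl fun v _ => ?_
        rw [Finset.sum_comm]
    _ ≤ ∑ v : V, ∑ v' : V, if Disjoint (U v) (U v') then 0 else (Fintype.card (V → S) : ℝ) := by
        refine Finset.sum_le_sum fun v _ => Finset.sum_le_sum fun v' _ => ?_
        split_ifs with h
        · exact (cov_zero (P v) (P v') (U v) (U v') h (hP v) (hP v')).le
        · exact cov_le (P v) (P v')
    _ ≤ ∑ v : V, (D : ℝ) * (Fintype.card (V → S) : ℝ) := by
        refine Finset.sum_le_sum fun v _ => ?_
        have h2 : ∀ v', (if Disjoint (U v) (U v') then 0 else (Fintype.card (V → S) : ℝ)) =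
            if ¬ Disjoint (U v) (U v') then (Fintype.card (V → S) : ℝ) else 0 := by
          intro v'
          by_cases h : Disjoint (U v) (U v')
          · rw [if_pos h, if_neg (not_not.2 h)]
          · rw [if_neg h, if_pos h]
        simp_rw [h2]
        rw [← Finset.sum_filter, Finset.sum_const, nsmul_eq_mul]
        refine mul_le_mul_of_nonneg_right ?_ (Nat.cast_nonneg _)
        exact_mod_cast hU v
    _ = _ := by
        rw [Finset.sum_const, Finset.card_univ, nsmul_eq_mul]
        ring

end

end IB4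

open IB4 in
theorem prfB4 : B4 := by
  intro V S ι _ _ _ _ P U D hP hU
  set N : ι → (V → S) → ℝ := fun k σ => (((univ.filter (fun v => P k v σ)).card : ℝ) -
        (∑ τ : V → S, ((univ.filter (fun v => P k v τ)).card : ℝ)) /
          (Fintype.card (V → S) : ℝ)) ^ 2 with hN
  have h1 : ∑ σ : V → S, ∑ k, N k σ ≤
      ∑ σ : V → S, (Fintype.card ι : ℝ) * (Fintype.card V : ℝ) * (D : ℝ) := by
    rw [Finset.sum_comm]
    calc ∑ k, ∑ σ, N k σ ≤ ∑ k : ι, (Fintype.card (V → S) : ℝ) * ((Fintype.card V : ℝ) * (D : ℝ)) :=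
          Finset.sum_le_sum fun k _ => second (P k) U D (hP k) hU
      _ = _ := by
          rw [Finset.sum_const, Finset.sum_const, Finset.card_univ, Finset.card_univ, nsmul_eq_mul,
            nsmul_eq_mul]
          ring
  obtain ⟨σ, _, h2⟩ := Finset.exists_le_of_sum_le (Finset.univ_nonempty) h1
  refine ⟨σ, fun k => ?_⟩
  refine le_trans ?_ h2
  exact Finset.single_le_sum (f := fun k => N k σ) (fun k _ => sq_nonneg _) (Finset.mem_univ k)

end

end Pool.Agent.Work.MP_47f387_co.Large

end

section

/-!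
# MP_47f387_co, item B5: `Flex` is local and equivariant
-/

namespace Pool.Agent.Work.MP_47f387_co.Large

open Finset Classical

noncomputable section

namespace IB5

lemma near_perm {V : Type} {G : SimpleGraph V} {v : V} (e : Equiv.Perm V)
    (he : ∀ u, e u ≠ u → Near G 2 v u) {u : V} (hu : Near G 3 v u) : Near G 3 v (e u) := by
  by_cases h : e u = u
  · rw [h]; exact hu
  · exact near_succ (he (e u) (fun h' => h (e.injective h')))

end IB5

theorem prfB5 : B5 := by
  intro d V G
  constructor
  · intro f g i j v hfg hF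
    obtain ⟨e, he, hp, w, hw, hs1, hs2, hs3⟩ := hF
    have key : ∀ u, Near G 3 v u → g (e u) = f (e u) :=
      fun u hu => (hfg (e u) (IB5.near_perm e he hu)).symm
    refine ⟨e, he, ?_, w, hw, ?_, hs2, ?_⟩
    · intro u x c hu hux hc
      rw [key u (near_succ hu)] at hc
      rw [key x (near_adj hu hux)]
      exact hp u x c hu hux hc
    · change g (e w) = some i
      rw [key w (near_succ hw)]
      exact hs1
    · rintro ⟨x, hx, hxj⟩
      refine hs3 ⟨x, hx, ?_⟩
      change g (e x) = some j at hxj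
      change f (e x) = some j
      rw [← key x (near_adj hw hx)]
      exact hxj
  · intro f π i j v hF
    obtain ⟨e, he, hp, w, hw, hs1, hs2, hs3⟩ := hF
    have key : ∀ (o : Option (Fin d)) (c : Fin d), o.map π = some c ↔ o = some (π.symm c) := by
      intro o c
      cases o with
      | none => simp
      | some a =>
        simp only [Option.map_some, Option.some.injEq]
        constructor
        · intro h; rw [← h, Equiv.symm_apply_apply]
        · intro h; rw [h, Equiv.apply_symm_apply]
    refine ⟨e, he, ?_, w, hw, ?_, fun h => hs2 (π.injective h), ?_⟩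
    · intro u x c hu hux hc hc'
      exact hp u x (π.symm c) hu hux ((key _ _).1 hc) ((key _ _).1 hc')
    · change (f (e w)).map π = some (π i)
      rw [key, Equiv.symm_apply_apply]
      exact hs1
    · rintro ⟨x, hx, hxj⟩
      refine hs3 ⟨x, hx, ?_⟩
      have h1 := (key _ _).1 hxj
      rw [Equiv.symm_apply_apply] at h1
      exact h1

end

end Pool.Agent.Work.MP_47f387_co.Large

end

section

/-!
# MP_47f387_co, item B6: averages of the counters
-/

namespace Pool.Agent.Work.MP_47f387_co.Large

open Finset Classical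

noncomputable section

theorem prfB6 (h5 : B5) : B6 := by
  intro d V _ G F hF
  have hbij : ∀ π : Equiv.Perm (Fin d), Function.Bijective
      (fun (σ : V → Equiv.Perm (Fin d)) => (fun u => π * σ u : V → Equiv.Perm (Fin d))) := by
    intro π
    constructor
    · intro σ τ h
      funext u
      have := congrFun h u
      exact mul_left_cancel this
    · intro τ
      refine ⟨fun u => π⁻¹ * τ u, ?_⟩
      funext u
      simp
  constructor
  · intro c c'
    have h1 : ∀ σ, cnt (F σ) (some c) = cnt (F (fun u => Equiv.swap c c' * σ u)) (some c') := by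
      intro σ
      unfold cnt
      congr 1
      ext v
      simp only [mem_filter, mem_univ, true_and]
      rw [hF]
      cases hv : F σ v with
      | none => simp
      | some a =>
        simp only [Option.map_some, Option.some.injEq]
        constructor
        · rintro rfl; simp
        · intro h
          have : Equiv.swap c c' a = Equiv.swap c c' c := by rw [h]; simp
          exact (Equiv.swap c c').injective this
    calc ∑ σ : V → Equiv.Perm (Fin d), cnt (F σ) (some c)
        = ∑ σ : V → Equiv.Perm (Fin d), cnt (F (fun u => Equiv.swap c c' * σ u)) (some c') :=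
          Finset.sum_congr rfl (fun σ _ => h1 σ)
      _ = _ := Fintype.sum_bijective _ (hbij (Equiv.swap c c')) _ _ (fun σ => rfl)
  · have hle : ∀ i j i' j' : Fin d, i ≠ j → i' ≠ j' →
      ∑ σ : V → Equiv.Perm (Fin d), (univ.filter (fun v => Flex G (F σ) i j v)).card ≤
      ∑ σ : V → Equiv.Perm (Fin d), (univ.filter (fun v => Flex G (F σ) i' j' v)).card := by
      intro i j i' j' hij hij'
      obtain ⟨π, hπi, hπj⟩ : ∃ π : Equiv.Perm (Fin d), π i = i' ∧ π j = j' := by
        refine ⟨Equiv.swap (Equiv.swap i i' j) j' * Equiv.swap i i', ?_, ?_⟩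
        · rw [Equiv.Perm.mul_apply, Equiv.swap_apply_left]
          refine Equiv.swap_apply_of_ne_of_ne ?_ hij'
          intro h
          apply hij
          have : Equiv.swap i i' i = Equiv.swap i i' j := by rw [← h]; simp
          exact (Equiv.swap i i').injective this
        · rw [Equiv.Perm.mul_apply, Equiv.swap_apply_left]
      calc ∑ σ : V → Equiv.Perm (Fin d), (univ.filter (fun v => Flex G (F σ) i j v)).card
          ≤ ∑ σ : V → Equiv.Perm (Fin d),
            (univ.filter (fun v => Flex G (F (fun u => π * σ u)) i' j' v)).card := by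
            apply Finset.sum_le_sum
            intro σ _
            apply card_le_card
            intro v hv
            simp only [mem_filter, mem_univ, true_and] at hv ⊢
            have h := (h5 d V G).2 (F σ) π i j v hv
            rw [hπi, hπj] at h
            have he : (fun u => (F σ u).map π) = F (fun u => π * σ u) := by
              funext u; rw [hF]
            rw [he] at h
            exact h
        _ = _ := Fintype.sum_bijective _ (hbij π) _ _ (fun σ => rfl)
    intro i j i' j' hij hij'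
    exact le_antisymm (hle i j i' j' hij hij') (hle i' j' i j hij' hij)

end

end Pool.Agent.Work.MP_47f387_co.Large

end

section

/-!
# MP_47f387_co, large connected graphs: item B7 (a good colouring)
-/

namespace Pool.Agent.Work.MP_47f387_co.Large

open Finset Classical

noncomputable section

namespace IB7

lemma sq_step {x y e m : ℝ} (hx : (x - e) ^ 2 ≤ m) (hy : (y - e) ^ 2 ≤ m) :
    (x - y) ^ 2 ≤ 4 * m := by
  nlinarith [sq_nonneg ((x - e) + (y - e))]

lemma low_step {x e m : ℝ} (hx : (x - e) ^ 2 ≤ m) : e ≤ x + Real.sqrt m := by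
  have h1 : |x - e| ≤ Real.sqrt m := Real.abs_le_sqrt hx
  have h2 := (abs_le.1 h1).1
  linarith

lemma flex_irrefl {V : Type} {d : ℕ} {G : SimpleGraph V} {f : V → Option (Fin d)} {i : Fin d}
    {v : V} : ¬ Flex G f i i v := by
  rintro ⟨e, -, -, w, -, hw⟩
  exact hw.2.1 rfl

/-- the averages are at least the average of the sum -/
lemma avg_low {Ω : Type} [Fintype Ω] (d : ℕ) (hd : 1 ≤ d) (c : Fin d → Fin d → Ω → ℝ)
    (T A : ℝ) (hT : T = (Fintype.card Ω : ℝ)) (hT0 : 0 < T)
    (hc : ∀ i j τ, 0 ≤ c i j τ) (hii : ∀ i τ, c i i τ = 0)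
    (heq : ∀ i j i' j', i ≠ j → i' ≠ j' → ∑ τ, c i j τ = ∑ τ, c i' j' τ)
    (hA : ∀ τ, A ≤ ∑ i, ∑ j, c i j τ) (i j : Fin d) (hij : i ≠ j) :
    A / (d : ℝ) ^ 2 ≤ (∑ τ, c i j τ) / T := by
  have hle : ∀ i' j', ∑ τ, c i' j' τ ≤ ∑ τ, c i j τ := by
    intro i' j'
    by_cases hij' : i' = j'
    · subst hij'
      rw [Finset.sum_eq_zero (fun τ _ => hii i' τ)]
      exact Finset.sum_nonneg (fun τ _ => hc i j τ)
    · exact (heq i' j' i j hij' hij).le
  have hsum : A * T ≤ ∑ i', ∑ j', ∑ τ, c i' j' τ := by
    have e1 : ∑ i', ∑ j', ∑ τ, c i' j' τ = ∑ τ, ∑ i', ∑ j', c i' j' τ := by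
      calc ∑ i', ∑ j', ∑ τ, c i' j' τ = ∑ i', ∑ τ, ∑ j', c i' j' τ :=
            Finset.sum_congr rfl (fun i' _ => Finset.sum_comm)
        _ = ∑ τ, ∑ i', ∑ j', c i' j' τ := Finset.sum_comm
    rw [e1]
    calc A * T = ∑ _τ : Ω, A := by
          rw [Finset.sum_const, Finset.card_univ, nsmul_eq_mul, mul_comm, hT]
      _ ≤ _ := Finset.sum_le_sum (fun τ _ => hA τ)
  have hd2 : (0 : ℝ) < (d : ℝ) ^ 2 := by positivity
  rw [div_le_div_iff₀ hd2 hT0]
  refine hsum.trans ?_
  calc ∑ i', ∑ j', ∑ τ, c i' j' τ ≤ ∑ _i' : Fin d, ∑ _j' : Fin d, ∑ τ, c i j τ :=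
        Finset.sum_le_sum (fun i' _ => Finset.sum_le_sum (fun j' _ => hle i' j'))
    _ = (∑ τ, c i j τ) * (d : ℝ) ^ 2 := by
        rw [Finset.sum_const, Finset.sum_const, Finset.card_univ, Fintype.card_fin,
          nsmul_eq_mul, nsmul_eq_mul]
        ring

/-- the events -/
def PP {V : Type} {d : ℕ} (G : SimpleGraph V)
    (F : (V → Equiv.Perm (Fin d)) → V → Option (Fin d)) :
    Fin d ⊕ (Fin d × Fin d) → V → (V → Equiv.Perm (Fin d)) → Prop
  | Sum.inl c, v, σ => F σ v = some c
  | Sum.inr p, v, σ => Flex G (F σ) p.1 p.2 v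

lemma PP_inl {V : Type} [Fintype V] {d : ℕ} (G : SimpleGraph V)
    (F : (V → Equiv.Perm (Fin d)) → V → Option (Fin d)) (c : Fin d)
    (σ : V → Equiv.Perm (Fin d)) :
    (univ.filter (fun v => PP G F (Sum.inl c) v σ)).card = cnt (F σ) (some c) := by
  unfold cnt
  congr 1
  ext v
  rw [mem_filter, mem_filter]
  exact Iff.rfl

lemma PP_inr {V : Type} [Fintype V] {d : ℕ} (G : SimpleGraph V)
    (F : (V → Equiv.Perm (Fin d)) → V → Option (Fin d)) (p : Fin d × Fin d)
    (σ : V → Equiv.Perm (Fin d)) :
    (univ.filter (fun v => PP G F (Sum.inr p) v σ)).card =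
      (univ.filter (fun v => Flex G (F σ) p.1 p.2 v)).card := by
  congr 1

lemma second {V : Type} [Fintype V] {d K D : ℕ} (h4 : B4) (h5 : B5)
    (G : SimpleGraph V)
    (F : (V → Equiv.Perm (Fin d)) → V → Option (Fin d)) (hBD : BD d G)
    (hloc : ∀ σ τ v, (∀ u, Near G K v u → σ u = τ u) → F σ v = F τ v)
    (hD : D = (d + 1) ^ ((K + 3) + (K + 3))) :
    ∃ σ : V → Equiv.Perm (Fin d), ∀ k : Fin d ⊕ (Fin d × Fin d),
      (((univ.filter (fun v => PP G F k v σ)).card : ℝ) -
        (∑ τ : V → Equiv.Perm (Fin d), ((univ.filter (fun v => PP G F k v τ)).card : ℝ)) /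
          (Fintype.card (V → Equiv.Perm (Fin d)) : ℝ)) ^ 2 ≤
        (((d + d * d) * D : ℕ) : ℝ) * (Fintype.card V : ℝ) := by
  have hU : ∀ v v' : V, ¬ Disjoint (univ.filter (fun u => Near G (K + 3) v u))
      (univ.filter (fun u => Near G (K + 3) v' u)) → Near G ((K + 3) + (K + 3)) v v' := by
    intro v v' h
    rw [Finset.not_disjoint_iff] at h
    obtain ⟨a, ha, hb⟩ := h
    rw [mem_filter] at ha hb
    exact near_trans ha.2 (near_symm hb.2)
  obtain ⟨σ, hσ⟩ := h4 V (Equiv.Perm (Fin d)) (Fin d ⊕ (Fin d × Fin d)) (PP G F)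
    (fun v => univ.filter (fun u => Near G (K + 3) v u)) D
    (by
      intro k v σ τ hst hP
      have hst' : ∀ u, Near G (K + 3) v u → σ u = τ u :=
        fun u hu => hst u (by rw [mem_filter]; exact ⟨mem_univ _, hu⟩)
      rcases k with c | p
      · change F τ v = some c
        have h1 : F σ v = F τ v := hloc σ τ v (fun u hu => hst' u (near_mono (by omega) hu))
        rw [← h1]
        exact hP
      · change Flex G (F τ) p.1 p.2 v
        refine (h5 d V G).1 (F σ) (F τ) p.1 p.2 v ?_ hP
        intro u hu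
        refine hloc σ τ u (fun w hw => hst' w ?_)
        exact near_mono (by omega) (near_trans hu hw))
    (by
      intro v
      rw [hD]
      refine (card_le_card ?_).trans (near_card hBD ((K + 3) + (K + 3)) v)
      intro v' hv'
      rw [mem_filter] at hv' ⊢
      exact ⟨mem_univ _, hU v v' hv'.2⟩)
  refine ⟨σ, fun k => (hσ k).trans (le_of_eq ?_)⟩
  rw [Fintype.card_sum, Fintype.card_prod, Fintype.card_fin]
  push_cast
  ring

end IB7

open IB7 in
theorem prfB7 (h4 : B4) (h5 : B5) (h6 : B6) : B7 := by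
  intro d K hd
  refine ⟨4 * ((d + d * d) * (d + 1) ^ ((K + 3) + (K + 3))), ?_⟩
  intro V _ G F hBD heq hloc A hA
  obtain ⟨D, hD⟩ : ∃ D : ℕ, D = (d + 1) ^ ((K + 3) + (K + 3)) := ⟨_, rfl⟩
  obtain ⟨σ, hσ⟩ := second h4 h5 G F hBD hloc hD
  rw [← hD]
  have hT : (0 : ℝ) < (Fintype.card (V → Equiv.Perm (Fin d)) : ℝ) :=
    Nat.cast_pos.2 Fintype.card_pos
  obtain ⟨T, hTdef⟩ : ∃ T : ℝ, T = (Fintype.card (V → Equiv.Perm (Fin d)) : ℝ) := ⟨_, rfl⟩
  rw [← hTdef] at hσ hT
  obtain ⟨m, hm⟩ : ∃ m : ℝ, m = (((d + d * d) * D : ℕ) : ℝ) * (Fintype.card V : ℝ) := ⟨_, rfl⟩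
  rw [← hm] at hσ
  have hm4 : (4 : ℝ) * m = ((4 * ((d + d * d) * D) : ℕ) : ℝ) * (Fintype.card V : ℝ) := by
    rw [hm]; push_cast; ring
  have hm0 : 0 ≤ m := by
    rw [hm]
    exact mul_nonneg (Nat.cast_nonneg _) (Nat.cast_nonneg _)
  obtain ⟨h61, h62⟩ := h6 d V G F heq
  refine ⟨σ, ?_, ?_⟩
  · intro c c'
    have h1 := hσ (Sum.inl c)
    have h2 := hσ (Sum.inl c')
    simp_rw [PP_inl] at h1 h2
    have h3 : (∑ τ : V → Equiv.Perm (Fin d), ((cnt (F τ) (some c) : ℕ) : ℝ)) =
        ∑ τ : V → Equiv.Perm (Fin d), ((cnt (F τ) (some c') : ℕ) : ℝ) := by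
      rw [← Nat.cast_sum, ← Nat.cast_sum, h61 c c']
    rw [h3] at h1
    exact (sq_step h1 h2).trans hm4.le
  · intro i j hij
    have h1 := low_step (hσ (Sum.inr (i, j)))
    simp_rw [PP_inr] at h1
    have h2 := avg_low d hd (fun i' j' (τ : V → Equiv.Perm (Fin d)) =>
      ((univ.filter (fun v => Flex G (F τ) i' j' v)).card : ℝ)) T (A : ℝ) hTdef hT
      (fun i' j' τ => Nat.cast_nonneg _)
      (fun i' τ => by
        rw [Nat.cast_eq_zero, Finset.card_eq_zero, Finset.filter_eq_empty_iff]
        intro v _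
        exact flex_irrefl)
      (fun i₁ j₁ i₂ j₂ h₁ h₂ => by
        rw [← Nat.cast_sum, ← Nat.cast_sum, h62 i₁ j₁ i₂ j₂ h₁ h₂])
      (fun τ => by exact_mod_cast hA τ) i j hij
    refine h2.trans (h1.trans ?_)
    have h3 : Real.sqrt m ≤
        Real.sqrt (((4 * ((d + d * d) * D) : ℕ) : ℝ) * (Fintype.card V : ℝ)) := by
      apply Real.sqrt_le_sqrt
      rw [← hm4]
      linarith
    linarith

end

end Pool.Agent.Work.MP_47f387_co.Large

end

section

/-!
# MP_47f387_co, item B8: the conclusion of part 2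
-/

namespace Pool.Agent.Work.MP_47f387_co.Large

open Finset Classical

noncomputable section

namespace IB8

lemma notGood_card {d : ℕ} {V : Type} [Fintype V] {G : SimpleGraph V} (hd : BD d G)
    (Z : Finset V) (f : V → Option (Fin d)) (hf : ∀ v, v ∉ Z → f v ≠ none) :
    (univ.filter (fun v => ¬ Good G f v)).card ≤ Z.card * (d + 1) ^ 3 +
      (∑ i : Fin d, ∑ j : Fin d, (univ.filter (fun v => Flex G f i j v)).card) +
      (univ.filter (fun v => InK d G v)).card := by
  have hsub : (univ.filter (fun v => ¬ Good G f v)) ⊆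
      ((Z.biUnion (fun z => univ.filter (fun u => Near G 3 z u))) ∪
      ((univ : Finset (Fin d)).biUnion (fun i => (univ : Finset (Fin d)).biUnion
        (fun j => univ.filter (fun v => Flex G f i j v))))) ∪
      (univ.filter (fun v => InK d G v)) := by
    intro v hv
    rw [mem_filter] at hv
    have hv2 := hv.2
    unfold Good at hv2
    rw [mem_union, mem_union]
    by_cases h1 : ∀ u, Near G 3 v u → f u ≠ none
    · by_cases h2 : ∀ i j, ¬ Flex G f i j v
      · right
        rw [mem_filter]
        refine ⟨mem_univ _, ?_⟩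
        by_contra h3
        exact hv2 ⟨h1, h2, h3⟩
      · left; right
        push Not at h2
        obtain ⟨i, j, hij⟩ := h2
        rw [mem_biUnion]
        refine ⟨i, mem_univ _, ?_⟩
        rw [mem_biUnion]
        exact ⟨j, mem_univ _, by simp [hij]⟩
    · left; left
      push Not at h1
      obtain ⟨u, hu, hfu⟩ := h1
      have hz : u ∈ Z := by
        by_contra hz
        exact hf u hz hfu
      rw [mem_biUnion]
      exact ⟨u, hz, by simp [near_symm hu]⟩
  refine (card_le_card hsub).trans ?_
  refine (card_union_le _ _).trans ?_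
  refine Nat.add_le_add_right ?_ _
  refine (card_union_le _ _).trans ?_
  refine Nat.add_le_add ?_ ?_
  · apply card_biUnion_le_card_mul
    intro z _
    exact near_card hd 3 z
  · refine card_biUnion_le.trans ?_
    apply Finset.sum_le_sum
    intro i _
    exact card_biUnion_le

lemma real_sq_le {R a n M : ℝ} (hR : 0 ≤ R) (hn : 0 ≤ n) (h : a ^ 2 ≤ M * n)
    (hN : R ^ 2 * M ≤ n) : R * a ≤ n := by
  have h1 : (R * a) ^ 2 ≤ n ^ 2 := by
    calc (R * a) ^ 2 = R ^ 2 * a ^ 2 := by ring
      _ ≤ R ^ 2 * (M * n) := by gcongr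
      _ = (R ^ 2 * M) * n := by ring
      _ ≤ n * n := by gcongr
      _ = n ^ 2 := by ring
  exact le_of_abs_le (by simpa [abs_of_nonneg hn] using sq_le_sq.1 h1)

end IB8

open IB8 in
theorem prfB8 (h13 : A13) (h1 : B1) (h2 : B2) (h3 : B3) (h7 : B7) : B8 := by
  intro d hd
  set C0 : ℕ := 5 * (d + 1) ^ rad d with hC0
  have hC0pos : 1 ≤ C0 := by
    have : 0 < (d + 1) ^ rad d := by positivity
    omega
  refine ⟨16 * C0 * d ^ 2, ?_, ?_⟩
  · have : 0 < 16 * C0 * d ^ 2 := by positivity
    omega
  intro R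
  set R' : ℕ := 2 * R + 8 * C0 * (d + 1) ^ 3 with hR'
  obtain ⟨M, hM⟩ := h7 d ((R' + 1) * (d + 1)) (by omega)
  refine ⟨R' + R ^ 2 * M + 16 * C0 + 256 * C0 ^ 2 * d ^ 4 * M, ?_⟩
  intro V _ G hconn hBD hInK hN
  obtain ⟨Z, hZ1, hZ2⟩ := h1 V G R' hconn (by omega)
  obtain ⟨key, hk1, hk2, hk3⟩ := h2 d V G R' Z hBD hZ2
  obtain ⟨F, hF1, hF2, hF3, hF4⟩ := h3 d V G _ Z key hBD hk1 hk2 hk3
  set n := Fintype.card V with hn
  have key1 : ∀ σ, n / (2 * C0) ≤ ∑ i : Fin d, ∑ j : Fin d,
      (univ.filter (fun v => Flex G (F σ) i j v)).card := by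
    intro σ
    have e1 := h13 d V G (F σ) hd hBD (hF1 σ)
    have e2 := notGood_card hBD Z (F σ) (hF2 σ)
    set S := ∑ i : Fin d, ∑ j : Fin d, (univ.filter (fun v => Flex G (F σ) i j v)).card with hS
    set q := (univ.filter (fun v => InK d G v)).card with hq
    have e3 : n ≤ C0 * (Z.card * (d + 1) ^ 3 + S + q) := e1.trans (Nat.mul_le_mul_left _ e2)
    have e4 : 8 * (C0 * (Z.card * (d + 1) ^ 3)) ≤ 2 * n := by
      calc 8 * (C0 * (Z.card * (d + 1) ^ 3)) = 8 * C0 * (d + 1) ^ 3 * Z.card := by ring
        _ ≤ R' * Z.card := Nat.mul_le_mul_right _ (by omega)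
        _ ≤ 2 * n := hZ1
    have e5 : 16 * (C0 * q) ≤ n := by
      refine le_trans ?_ hInK
      have hd2 : 1 ≤ d ^ 2 := Nat.one_le_pow _ _ (by omega)
      calc 16 * (C0 * q) = 16 * C0 * 1 * q := by ring
        _ ≤ 16 * C0 * d ^ 2 * q := by gcongr
    have e6 : n ≤ 2 * C0 * S := by
      have : C0 * (Z.card * (d + 1) ^ 3 + S + q) =
        C0 * (Z.card * (d + 1) ^ 3) + C0 * S + C0 * q := by ring
      have h' : 2 * C0 * S = 2 * (C0 * S) := by ring
      omega
    exact Nat.div_le_of_le_mul e6
  obtain ⟨σ, hσ1, hσ2⟩ := hM V G F hBD hF3 hF4 (n / (2 * C0)) key1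
  have hnR : ((R : ℝ) ^ 2 * M) ≤ (n : ℝ) := by
    have : R ^ 2 * M ≤ n := by omega
    exact_mod_cast this
  refine ⟨F σ, hF1 σ, ?_, ?_, ?_⟩
  · have hc : cnt (F σ) none ≤ Z.card := by
      apply card_le_card
      intro v hv
      rw [mem_filter] at hv
      by_contra hz
      exact hF2 σ v hz hv.2
    have h5 : 2 * (R * Z.card) ≤ 2 * n := by
      calc 2 * (R * Z.card) = 2 * R * Z.card := by ring
        _ ≤ R' * Z.card := Nat.mul_le_mul_right _ (by omega)
        _ ≤ 2 * n := hZ1
    have h6 : R * cnt (F σ) none ≤ R * Z.card := Nat.mul_le_mul_left _ hc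
    omega
  · intro c c'
    have h5 := real_sq_le (R := (R : ℝ)) (n := (n : ℝ)) (M := (M : ℝ)) (by positivity)
      (by positivity) (hσ1 c c') hnR
    have h6 : (R : ℝ) * cnt (F σ) (some c) ≤ R * cnt (F σ) (some c') + n := by
      rw [mul_sub] at h5
      linarith
    exact_mod_cast h6
  · intro i j hij
    have h5 := hσ2 i j hij
    set x : ℝ := ((univ.filter (fun v => Flex G (F σ) i j v)).card : ℝ) with hx
    have hd0 : (0 : ℝ) < (d : ℝ) ^ 2 := by
      have : (0 : ℝ) < d := by exact_mod_cast (by omega : 0 < d)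
      positivity
    have hC0r : (0 : ℝ) < (C0 : ℝ) := by exact_mod_cast hC0pos
    have h6 : (n : ℝ) / (2 * C0) - 1 ≤ ((n / (2 * C0) : ℕ) : ℝ) := by
      have := Nat.lt_floor_add_one ((n : ℝ) / ((2 * C0 : ℕ) : ℝ))
      rw [Nat.floor_div_eq_div] at this
      push_cast at this
      push_cast
      linarith
    have h7 : (16 * C0 * (d : ℝ) ^ 2) * Real.sqrt ((M : ℝ) * n) ≤ n := by
      have h8 : (16 * C0 * (d : ℝ) ^ 2) ^ 2 * M ≤ (n : ℝ) := by
        have : 256 * C0 ^ 2 * d ^ 4 * M ≤ n := by omega
        have h9 : ((256 * C0 ^ 2 * d ^ 4 * M : ℕ) : ℝ) ≤ (n : ℝ) := by exact_mod_cast this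
        push_cast at h9
        linarith
      apply real_sq_le (M := (M : ℝ)) (by positivity) (by positivity) _ h8
      rw [Real.sq_sqrt (by positivity)]
    have h8 : (16 * (C0 : ℝ)) ≤ n := by
      have : 16 * C0 ≤ n := by omega
      exact_mod_cast this
    have h9 : ((n / (2 * C0) : ℕ) : ℝ) ≤ (d : ℝ) ^ 2 * (x + Real.sqrt ((M : ℝ) * n)) := by
      rw [div_le_iff₀ hd0] at h5
      linarith
    have h10 : 16 * (C0 : ℝ) * ((n : ℝ) / (2 * C0) - 1) = 8 * n - 16 * C0 := by
      field_simp
      ring
    have h11 : 16 * (C0 : ℝ) * ((n : ℝ) / (2 * C0) - 1) ≤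
        16 * (C0 : ℝ) * ((d : ℝ) ^ 2 * (x + Real.sqrt ((M : ℝ) * n))) := by
      gcongr
      exact h6.trans h9
    have h12 : (n : ℝ) ≤ 16 * C0 * (d : ℝ) ^ 2 * x := by nlinarith
    have h13 : (n : ℝ) ≤ ((16 * C0 * d ^ 2 *
        (univ.filter (fun v => Flex G (F σ) i j v)).card : ℕ) : ℝ) := by
      push_cast
      exact h12
    exact_mod_cast h13

end

end Pool.Agent.Work.MP_47f387_co.Large

end

section

/-!
# MP_47f387_co, item C1: selection of far apart places
-/

namespace Pool.Agent.Work.MP_47f387_co.Large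

open Finset Classical

noncomputable section

theorem prfC1 : C1 := by
  intro d r V _ G Q _ A hd hA
  have key : ∀ s : Finset Q, ∃ x : Q → V, (∀ q, x q ∈ A q) ∧
      ∀ q ∈ s, ∀ q' ∈ s, q ≠ q' → ¬ Near G r (x q) (x q') := by
    intro s
    induction s using Finset.induction_on with
    | empty =>
      have hne : ∀ q, ∃ x, x ∈ A q := by
        intro q
        have h1 : 0 < (A q).card :=
          lt_of_lt_of_le (Nat.mul_pos (Fintype.card_pos_iff.2 ⟨q⟩) (by positivity)) (hA q)
        exact Finset.card_pos.1 h1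
      choose x hx using hne
      exact ⟨x, hx, by simp⟩
    | insert q0 s hq0 ih =>
      obtain ⟨x, hx, hxs⟩ := ih
      have hBc : (s.biUnion (fun q => univ.filter (fun u => Near G r (x q) u))).card ≤
          s.card * (d + 1) ^ r :=
        card_biUnion_le_card_mul _ _ _ (fun q _ => near_card hd r (x q))
      have hs : s.card < Fintype.card Q := by
        have : (insert q0 s).card ≤ Fintype.card Q := card_le_univ _
        rw [card_insert_of_notMem hq0] at this; omega
      have hlt : (s.biUnion (fun q => univ.filter (fun u => Near G r (x q) u))).card <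
          (A q0).card := by
        calc _ ≤ s.card * (d + 1) ^ r := hBc
          _ < Fintype.card Q * (d + 1) ^ r := Nat.mul_lt_mul_of_pos_right hs (by positivity)
          _ ≤ _ := hA q0
      obtain ⟨u, huA, huB⟩ := Finset.exists_mem_notMem_of_card_lt_card hlt
      have hu : ∀ q ∈ s, ¬ Near G r (x q) u := by
        intro q hq hN
        apply huB
        rw [mem_biUnion]
        exact ⟨q, hq, by simp [hN]⟩
      refine ⟨Function.update x q0 u, ?_, ?_⟩
      · intro q
        by_cases h : q = q0
        · subst h; simpa using huA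
        · rw [Function.update_of_ne h]; exact hx q
      · intro q hq q' hq' hne hN
        by_cases h : q = q0
        · have h' : q' ≠ q0 := fun h' => hne (h.trans h'.symm)
          subst h
          rw [Function.update_self, Function.update_of_ne h'] at hN
          exact hu q' (mem_of_mem_insert_of_ne hq' h') (near_symm hN)
        · by_cases h' : q' = q0
          · subst h'
            rw [Function.update_self, Function.update_of_ne h] at hN
            exact hu q (mem_of_mem_insert_of_ne hq h) hN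
          · rw [Function.update_of_ne h, Function.update_of_ne h'] at hN
            exact hxs q (mem_of_mem_insert_of_ne hq h) q' (mem_of_mem_insert_of_ne hq' h') hne hN
  obtain ⟨x, hx, hxs⟩ := key univ
  exact ⟨x, hx, fun q q' h => hxs q (mem_univ _) q' (mem_univ _) h⟩

end

end Pool.Agent.Work.MP_47f387_co.Large

end

section

/-!
# MP_47f387_co, item C2: simultaneous modifications
-/

namespace Pool.Agent.Work.MP_47f387_co.Large

open Finset Classical

noncomputable section

namespace IC2

lemma perm_near {V : Type} {G : SimpleGraph V} {v : V} (e : Equiv.Perm V)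
    (he : ∀ u, e u ≠ u → Near G 2 v u) {u : V} (hu : Near G 2 v u) : Near G 2 v (e u) := by
  by_cases h : e (e u) = e u
  · have : e u = u := e.injective h
    rw [this]; exact hu
  · exact he _ h

lemma perm_near3 {V : Type} {G : SimpleGraph V} {v : V} (e : Equiv.Perm V)
    (he : ∀ u, e u ≠ u → Near G 2 v u) {u : V} (hu : Near G 3 v u) : Near G 3 v (e u) := by
  by_cases h : e u = u
  · rw [h]; exact hu
  · exact near_succ (perm_near e he (he u h))

end IC2

theorem prfC2 : C2 := by
  intro d V _ G f Q _ a b x hf hfl hfar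
  have key : ∀ s : Finset Q, ∃ (f' : V → Option (Fin d)) (w : Q → V), Proper G f' ∧
      (∀ o, cnt f' o = cnt f o) ∧ (∀ u, (∀ q ∈ s, ¬ Near G 2 (x q) u) → f' u = f u) ∧
      ∀ q ∈ s, Near G 2 (x q) (w q) ∧ Switch G f' (w q) (a q) (b q) := by
    intro s
    induction s using Finset.induction_on with
    | empty => exact ⟨f, x, hf, fun _ => rfl, fun _ _ => rfl, by simp⟩
    | insert q0 s hq0 ih =>
      obtain ⟨f', w, hf', hcnt, hagree, hsw⟩ := ih
      obtain ⟨e, he, hprop, w0, hw0, hsw0⟩ := hfl q0
      -- `f'` agrees with `f` near `x q0`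
      have hloc : ∀ u, Near G 3 (x q0) u → f' u = f u := by
        intro u hu
        apply hagree
        intro q hq hN
        have hne : q ≠ q0 := fun h => hq0 (h ▸ hq)
        exact hfar q q0 hne (near_mono (by omega) (near_trans hN (near_symm hu)))
      have hloce : ∀ u, Near G 3 (x q0) u → f' (e u) = f (e u) := fun u hu =>
        hloc _ (IC2.perm_near3 e he hu)
      have hfix : ∀ u, ¬ Near G 2 (x q0) u → e u = u := by
        intro u hu
        by_contra h
        exact hu (he u h)
      refine ⟨fun u => f' (e u), Function.update w q0 w0, ?_, ?_, ?_, ?_⟩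
      · intro u v c huv hu hv
        by_cases h1 : Near G 2 (x q0) u
        · have h3 : Near G 3 (x q0) v := near_adj h1 huv
          have hu' := hloce u (near_succ h1)
          have hv' := hloce v h3
          exact hprop u v c h1 huv (by rw [← hu']; exact hu) (by rw [← hv']; exact hv)
        · by_cases h2 : Near G 2 (x q0) v
          · have h3 : Near G 3 (x q0) u := near_adj h2 huv.symm
            have hu' := hloce u h3
            have hv' := hloce v (near_succ h2)
            exact hprop v u c h2 huv.symm (by rw [← hv']; exact hv) (by rw [← hu']; exact hu)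
          · simp only [hfix u h1, hfix v h2] at hu hv
            exact hf' u v c huv hu hv
      · intro o
        rw [← hcnt o]
        unfold cnt
        apply Finset.card_bij (fun u _ => e u)
        · intro u hu
          simpa using hu
        · intro u _ v _ h
          exact e.injective h
        · intro v hv
          refine ⟨e.symm v, ?_, by simp⟩
          simpa using hv
      · intro u hu
        have h0 : ¬ Near G 2 (x q0) u := hu q0 (mem_insert_self _ _)
        show f' (e u) = f u
        rw [hfix u h0]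
        exact hagree u (fun q hq => hu q (mem_insert_of_mem hq))
      · intro q hq
        by_cases h : q = q0
        · subst h
          rw [Function.update_self]
          refine ⟨hw0, ?_, hsw0.2.1, ?_⟩
          · show f' (e w0) = _
            rw [hloce w0 (near_succ hw0)]
            exact hsw0.1
          · rintro ⟨u, hu, hu'⟩
            apply hsw0.2.2
            refine ⟨u, hu, ?_⟩
            have := hloce u (near_adj hw0 hu)
            show f (e u) = _
            rw [← this]; exact hu'
        · rw [Function.update_of_ne h]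
          have hqs : q ∈ s := mem_of_mem_insert_of_ne hq h
          obtain ⟨h1, h2⟩ := hsw q hqs
          have hout : ∀ u, Near G 3 (x q) u → e u = u := by
            intro u hu
            apply hfix
            intro hN
            exact hfar q q0 h (near_mono (by omega) (near_trans hu (near_symm hN)))
          refine ⟨h1, ?_, h2.2.1, ?_⟩
          · show f' (e (w q)) = _
            rw [hout _ (near_succ h1)]
            exact h2.1
          · rintro ⟨u, hu, hu'⟩
            apply h2.2.2
            refine ⟨u, hu, ?_⟩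
            have h3 : f' (e u) = some (b q) := hu'
            rwa [hout u (near_adj h1 hu)] at h3
  obtain ⟨f', w, h1, h2, _, h3⟩ := key univ
  exact ⟨f', w, h1, h2, fun q => h3 q (mem_univ _)⟩

end

end Pool.Agent.Work.MP_47f387_co.Large

end

section

namespace Pool.Agent.Work.MP_47f387_co.Large

open Finset Classical

noncomputable section

theorem prfC3 (h8 : B8) (h1 : C1) (h2 : C2) : C3 := by
  intro d hd
  obtain ⟨C0, hC0, hB8⟩ := h8 d hd
  set D : ℕ := C0 * (d * d * (d + 1) ^ 6) with hD
  have hDpos : 0 < D := by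
    have : 0 < d := by omega
    positivity
  have hC0D : C0 ≤ D := by
    have : 0 < d * d * (d + 1) ^ 6 := by
      have : 0 < d := by omega
      positivity
    exact Nat.le_mul_of_pos_right _ this
  refine ⟨2 * D, by omega, fun R => ?_⟩
  obtain ⟨N0, hN0⟩ := hB8 R
  refine ⟨max N0 D, fun V _ G hconn hBD hK hn => ?_⟩
  obtain ⟨f, hP, hholes, hbal, hflex⟩ := hN0 V G hconn hBD
    ((Nat.mul_le_mul_right _ (by omega)).trans hK) ((le_max_left _ _).trans hn)
  set n := Fintype.card V with hn_def
  have hDn : D ≤ n := (le_max_right _ _).trans hn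
  set m : ℕ := n / D with hm
  have hm1 : 1 ≤ m := (Nat.one_le_div_iff hDpos).2 hDn
  have hmD : D * m ≤ n := Nat.mul_div_le n D
  have hmD2 : n ≤ 2 * D * m := by
    have q1 : n < D * (m + 1) := Nat.lt_mul_div_succ n hDpos
    nlinarith
  let Q : Type := {q : Fin d × Fin d × Fin m // q.1 ≠ q.2.1}
  have hQcard : Fintype.card Q ≤ d * d * m := by
    refine (Fintype.card_subtype_le _).trans (le_of_eq ?_)
    rw [Fintype.card_prod, Fintype.card_prod, Fintype.card_fin, Fintype.card_fin, mul_assoc]
  obtain ⟨x, hx1, hx2⟩ := h1 d 6 V G Q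
    (fun q => univ.filter (fun v => Flex G f q.1.1 q.1.2.1 v)) hBD (fun q => by
      have q1 := hflex q.1.1 q.1.2.1 q.2
      have q2 : Fintype.card Q * (d + 1) ^ 6 ≤ d * d * m * (d + 1) ^ 6 :=
        Nat.mul_le_mul_right _ hQcard
      refine q2.trans ?_
      refine Nat.le_of_mul_le_mul_left ?_ (by omega : 0 < C0)
      refine le_trans (le_of_eq ?_) (hmD.trans q1)
      rw [hD]
      ring)
  obtain ⟨f', w, hP', hcnt, hw⟩ := h2 d V G f Q (fun q => q.1.1) (fun q => q.1.2.1) x hP
    (fun q => (mem_filter.1 (hx1 q)).2) hx2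
  have hfar : ∀ q q', q ≠ q' → ¬ Near G 2 (w q) (w q') := by
    intro q q' hqq' hnear
    apply hx2 q q' hqq'
    have q1 := near_trans (near_trans (hw q).1 hnear) (near_symm (hw q').1)
    exact near_mono (by omega) q1
  have hinj : Function.Injective w := by
    intro q q' h
    by_contra hne
    exact hfar q q' hne (h ▸ near_refl 2 (w q))
  have hd0 : 0 < d := by omega
  let a : V → Fin d := fun v => if h : ∃ q, w q = v then (Classical.choose h).1.1 else ⟨0, hd0⟩
  let b : V → Fin d := fun v => if h : ∃ q, w q = v then (Classical.choose h).1.2.1 else ⟨0, hd0⟩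
  have ha : ∀ q, a (w q) = q.1.1 := by
    intro q
    have h : ∃ q', w q' = w q := ⟨q, rfl⟩
    have e : Classical.choose h = q := hinj (Classical.choose_spec h)
    simp only [a]
    rw [dif_pos h, e]
  have hb : ∀ q, b (w q) = q.1.2.1 := by
    intro q
    have h : ∃ q', w q' = w q := ⟨q, rfl⟩
    have e : Classical.choose h = q := hinj (Classical.choose_spec h)
    simp only [b]
    rw [dif_pos h, e]
  refine ⟨f', hP', ?_, ?_, univ.image w, a, b, ⟨?_, ?_⟩, ?_⟩
  · rw [hcnt]
    exact hholes
  · intro c c'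
    rw [hcnt, hcnt]
    exact hbal c c'
  · intro v hv
    obtain ⟨q, _, rfl⟩ := mem_image.1 hv
    rw [ha, hb]
    exact (hw q).2
  · intro v hv v' hv' hne
    obtain ⟨q, _, rfl⟩ := mem_image.1 hv
    obtain ⟨q', _, rfl⟩ := mem_image.1 hv'
    exact hfar q q' fun h => hne (by rw [h])
  · intro i j hij
    refine hmD2.trans (Nat.mul_le_mul_left _ ?_)
    let g : Fin m → V := fun k => w ⟨(i, j, k), hij⟩
    have hg : Function.Injective g := by
      intro k k' h
      have q1 := hinj h
      have q2 := congrArg (fun q : Q => q.1.2.2) q1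
      exact q2
    have hsub : univ.image g ⊆ (univ.image w).filter (fun v => a v = i ∧ b v = j) := by
      intro v hv
      obtain ⟨k, _, rfl⟩ := mem_image.1 hv
      refine mem_filter.2 ⟨mem_image.2 ⟨_, mem_univ _, rfl⟩, ?_, ?_⟩
      · exact ha ⟨(i, j, k), hij⟩
      · exact hb ⟨(i, j, k), hij⟩
    have q1 := card_le_card hsub
    rw [card_image_of_injective _ hg, card_univ, Fintype.card_fin] at q1
    exact q1

end

end Pool.Agent.Work.MP_47f387_co.Large

end

section

/-!
# MP_47f387_co, large connected graphs: C4, filling one hole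
-/

namespace Pool.Agent.Work.MP_47f387_co.Large

open Finset Classical

noncomputable section

namespace IC4

/-- recolouring one vertex -/
def upd {V : Type} {d : ℕ} (f : V → Option (Fin d)) (x : V) (o : Option (Fin d)) :
    V → Option (Fin d) := fun v => if v = x then o else f v

section

variable {V : Type} {d : ℕ}

lemma upd_self (f : V → Option (Fin d)) (x : V) (o : Option (Fin d)) : upd f x o x = o := by
  simp [upd]

lemma upd_ne (f : V → Option (Fin d)) (x : V) (o : Option (Fin d)) {v : V} (h : v ≠ x) :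
    upd f x o v = f v := by
  simp [upd, h]

lemma cnt_upd_ne [Fintype V] (f : V → Option (Fin d)) (x : V) (o o' : Option (Fin d))
    (h1 : f x ≠ o') (h2 : o ≠ o') : cnt (upd f x o) o' = cnt f o' := by
  unfold cnt
  congr 1
  ext v
  simp only [mem_filter, mem_univ, true_and]
  by_cases hv : v = x
  · rw [hv, upd_self]
    exact ⟨fun h => absurd h h2, fun h => absurd h h1⟩
  · rw [upd_ne f x o hv]

lemma cnt_upd_new [Fintype V] (f : V → Option (Fin d)) (x : V) (o : Option (Fin d))
    (h1 : f x ≠ o) : cnt (upd f x o) o = cnt f o + 1 := by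
  unfold cnt
  have : (univ.filter fun v => upd f x o v = o) = insert x (univ.filter fun v => f v = o) := by
    ext v
    simp only [mem_filter, mem_univ, true_and, mem_insert]
    by_cases hv : v = x
    · rw [hv, upd_self]
      simp
    · rw [upd_ne f x o hv]
      exact ⟨fun h => Or.inr h, fun h => h.resolve_left hv⟩
  rw [this, card_insert_of_notMem]
  simpa using h1

lemma cnt_upd_old [Fintype V] (f : V → Option (Fin d)) (x : V) (o : Option (Fin d))
    (h1 : f x ≠ o) : cnt (upd f x o) (f x) + 1 = cnt f (f x) := by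
  unfold cnt
  have : (univ.filter fun v => f v = f x) =
      insert x (univ.filter fun v => upd f x o v = f x) := by
    ext v
    simp only [mem_filter, mem_univ, true_and, mem_insert]
    by_cases hv : v = x
    · rw [hv]
      simp
    · rw [upd_ne f x o hv]
      exact ⟨fun h => Or.inr h, fun h => h.resolve_left hv⟩
  rw [this, card_insert_of_notMem]
  rw [mem_filter, upd_self]
  exact fun h => h1 h.2.symm

end

lemma exists_near {V : Type} {G : SimpleGraph V} (hG : G.Connected) (x w : V) :
    ∃ r, Near G r x w := by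
  obtain ⟨p⟩ := hG.preconnected x w
  induction p with
  | nil => exact ⟨0, rfl⟩
  | cons h p ih =>
    obtain ⟨r, hr⟩ := ih
    exact ⟨1 + r, near_trans (near_of_adj h) hr⟩

/-- if all colours occur at the neighbours of `x` then they are coloured, with different
colours -/
lemma distinct {V : Type} [Fintype V] {G : SimpleGraph V} {d : ℕ} (hd : BD d G)
    (f : V → Option (Fin d)) (x : V) (hx : ∀ c, Sees G f x c) :
    (∀ u, G.Adj x u → f u ≠ none) ∧
      ∀ u u', G.Adj x u → G.Adj x u' → f u = f u' → u = u' := by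
  set S : Finset V := univ.filter (fun u => G.Adj x u) with hS
  have hSc : S.card ≤ d := hd x
  set T : Finset (Option (Fin d)) := (univ : Finset (Fin d)).image some with hT
  have hTc : T.card = d := by
    rw [hT, card_image_of_injective _ (Option.some_injective _), card_univ, Fintype.card_fin]
  have hTS : T ⊆ S.image f := by
    intro o ho
    rw [hT, mem_image] at ho
    obtain ⟨c, -, rfl⟩ := ho
    obtain ⟨u, hu, huc⟩ := hx c
    exact mem_image.2 ⟨u, by simp [hS, hu], huc⟩
  have hle : (S.image f).card ≤ S.card := card_image_le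
  have hle2 : T.card ≤ (S.image f).card := card_le_card hTS
  have heq : T = S.image f := eq_of_subset_of_card_le hTS (by omega)
  have hinj : Set.InjOn f S := card_image_iff.1 (by omega)
  refine ⟨fun u hu h0 => ?_, fun u u' hu hu' h => hinj (by simp [hS, hu]) (by simp [hS, hu']) h⟩
  have h1 : f u ∈ T := by
    rw [heq]
    exact mem_image_of_mem _ (by simp [hS, hu])
  rw [h0, hT] at h1
  simp at h1

/-- the conclusion -/
def Concl {V : Type} [Fintype V] {d : ℕ} (G : SimpleGraph V) (f : V → Option (Fin d))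
    (W : Finset V) (a b : V → Fin d) : Prop :=
  ∃ (f' : V → Option (Fin d)) (W' : Finset V), Proper G f' ∧ W' ⊆ W ∧ W.card ≤ W'.card + 1 ∧
      Special G f' W' a b ∧ cnt f' none + 1 = cnt f none ∧
      ∀ c, cnt f (some c) ≤ cnt f' (some c) ∧ cnt f' (some c) ≤ cnt f (some c) + 1

/-- case (i) -/
lemma case1 {V : Type} [Fintype V] {d : ℕ} {G : SimpleGraph V} {f : V → Option (Fin d)}
    {W : Finset V} {a b : V → Fin d} (hf : Proper G f) (hW : Special G f W a b) {x : V}
    (hx : f x = none) {c : Fin d} (hc : ¬ Sees G f x c) : Concl G f W a b := by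
  refine ⟨upd f x (some c), W.filter (fun w => ¬ (G.Adj x w ∧ b w = c)), ?_, filter_subset _ _,
    ?_, ⟨?_, ?_⟩, ?_, ?_⟩
  · intro u v e huv hu hv
    by_cases hux : u = x
    · subst hux
      have hvx : v ≠ u := huv.ne'
      rw [upd_self] at hu
      rw [upd_ne f u _ hvx] at hv
      exact hc ⟨v, huv, by rw [hv, ← hu]⟩
    · by_cases hvx : v = x
      · subst hvx
        rw [upd_self] at hv
        rw [upd_ne f v _ hux] at hu
        exact hc ⟨u, huv.symm, by rw [hu, ← hv]⟩
      · rw [upd_ne f x _ hux] at hu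
        rw [upd_ne f x _ hvx] at hv
        exact hf u v e huv hu hv
  · have h1 : (W.filter (fun w => G.Adj x w ∧ b w = c)).card ≤ 1 := by
      rw [card_le_one]
      intro w hw w' hw'
      rw [mem_filter] at hw hw'
      by_contra hne
      exact hW.2 w hw.1 w' hw'.1 hne (near_adj (near_of_adj hw.2.1.symm) hw'.2.1)
    have h2 := card_filter_add_card_filter_not (s := W) (fun w => G.Adj x w ∧ b w = c)
    omega
  · intro w hw
    rw [mem_filter] at hw
    obtain ⟨h1, h2, h3⟩ := hW.1 w hw.1
    have hwx : w ≠ x := by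
      rintro rfl
      rw [hx] at h1
      exact absurd h1 (by simp)
    refine ⟨by rw [upd_ne f x _ hwx]; exact h1, h2, ?_⟩
    rintro ⟨u, hwu, hu⟩
    by_cases hux : u = x
    · subst hux
      rw [upd_self] at hu
      exact hw.2 ⟨hwu.symm, (Option.some_injective _ hu).symm⟩
    · rw [upd_ne f x _ hux] at hu
      exact h3 ⟨u, hwu, hu⟩
  · intro w hw w' hw' hne
    rw [mem_filter] at hw hw'
    exact hW.2 w hw.1 w' hw'.1 hne
  · have := cnt_upd_old f x (some c) (by rw [hx]; simp)
    rw [hx] at this
    exact this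
  · intro e
    by_cases hec : c = e
    · subst hec
      rw [cnt_upd_new f x (some c) (by rw [hx]; simp)]
      omega
    · rw [cnt_upd_ne f x (some c) (some e) (by rw [hx]; simp) (by simpa using hec)]
      omega

/-- case (ii) -/
lemma case2 {V : Type} [Fintype V] {d : ℕ} {G : SimpleGraph V} (hd : BD d G)
    {f : V → Option (Fin d)}
    {W : Finset V} {a b : V → Fin d} (hf : Proper G f) (hW : Special G f W a b) {x : V}
    (hx : f x = none) (hc : ∀ c, Sees G f x c) {w : V} (hw : w ∈ W) (hxw : G.Adj x w) :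
    Concl G f W a b := by
  obtain ⟨hcol, hdis⟩ := distinct hd f x hc
  obtain ⟨hfw, hab, hns⟩ := hW.1 w hw
  have hwx : w ≠ x := hxw.ne'
  have key : ∀ u v e, G.Adj u v → f u = some e → f v ≠ some e := hf
  set g := upd f x (some (a w)) with hg
  have hgw : g w = some (a w) := by rw [hg, upd_ne f x _ hwx, hfw]
  have hf'w : upd g w (some (b w)) w = some (b w) := upd_self _ _ _
  have hf'x : upd g w (some (b w)) x = some (a w) := by
    rw [upd_ne g w _ hwx.symm, hg, upd_self]
  have hf'o : ∀ v, v ≠ w → v ≠ x → upd g w (some (b w)) v = f v := by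
    intro v h1 h2
    rw [upd_ne g w _ h1, hg, upd_ne f x _ h2]
  refine ⟨upd g w (some (b w)), W.erase w, ?_, erase_subset _ _, ?_, ⟨?_, ?_⟩, ?_, ?_⟩
  · -- proper
    have half : ∀ u v e, G.Adj u v → (u = w ∨ u = x) → upd g w (some (b w)) u = some e →
        upd g w (some (b w)) v ≠ some e := by
      intro u v e huv h hu hv
      rcases h with rfl | rfl
      · rw [hf'w] at hu
        have he : b u = e := Option.some_injective _ hu
        subst he
        by_cases hvx : v = x
        · subst hvx
          rw [hf'x] at hv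
          exact hab (Option.some_injective _ hv)
        · rw [hf'o v huv.ne' hvx] at hv
          exact hns ⟨v, huv, hv⟩
      · rw [hf'x] at hu
        have he : a w = e := Option.some_injective _ hu
        subst he
        by_cases hvw : v = w
        · subst hvw
          rw [hf'w] at hv
          exact hab (Option.some_injective _ hv).symm
        · rw [hf'o v hvw huv.ne'] at hv
          exact hvw (hdis v w huv hxw (by rw [hv, hfw]))
    intro u v e huv hu hv
    by_cases h1 : u = w ∨ u = x
    · exact half u v e huv h1 hu hv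
    · by_cases h2 : v = w ∨ v = x
      · exact half v u e huv.symm h2 hv hu
      · push Not at h1 h2
        rw [hf'o u h1.1 h1.2] at hu
        rw [hf'o v h2.1 h2.2] at hv
        exact hf u v e huv hu hv
  · rw [card_erase_of_mem hw]
    omega
  · intro w' hw'
    rw [mem_erase] at hw'
    obtain ⟨h1, h2, h3⟩ := hW.1 w' hw'.2
    have hw'x : w' ≠ x := by
      rintro rfl
      rw [hx] at h1
      exact absurd h1 (by simp)
    refine ⟨by rw [hf'o w' hw'.1 hw'x]; exact h1, h2, ?_⟩
    rintro ⟨u, hwu, hu⟩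
    have hnn := hW.2 w hw w' hw'.2 (Ne.symm hw'.1)
    by_cases huw : u = w
    · subst huw
      exact hnn (near_mono (by omega) (near_of_adj hwu.symm))
    · by_cases hux : u = x
      · subst hux
        exact hnn (near_adj (near_of_adj hxw.symm) hwu.symm)
      · rw [hf'o u huw hux] at hu
        exact h3 ⟨u, hwu, hu⟩
  · intro w1 hw1 w2 hw2 hne
    exact hW.2 w1 (mem_of_mem_erase hw1) w2 (mem_of_mem_erase hw2) hne
  · rw [cnt_upd_ne g w _ none (by rw [hgw]; simp) (by simp)]
    have := cnt_upd_old f x (some (a w)) (by rw [hx]; simp)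
    rw [hx] at this
    exact this
  · intro e
    have hgn : ∀ e, e ≠ a w → cnt g (some e) = cnt f (some e) := by
      intro e he
      exact cnt_upd_ne f x _ _ (by rw [hx]; simp) (by simpa using Ne.symm he)
    have hga : cnt g (some (a w)) = cnt f (some (a w)) + 1 :=
      cnt_upd_new f x _ (by rw [hx]; simp)
    by_cases hea : e = a w
    · subst hea
      have h1 := cnt_upd_old g w (some (b w)) (by rw [hgw]; simpa using hab)
      rw [hgw] at h1
      omega
    · by_cases heb : e = b w
      · subst heb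
        have h1 := cnt_upd_new g w (some (b w)) (by rw [hgw]; simpa using hab)
        have h2 := hgn _ hea
        omega
      · have h1 := cnt_upd_ne g w (some (b w)) (some e) (by rw [hgw]; simpa using Ne.symm hea)
          (by simpa using Ne.symm heb)
        have h2 := hgn _ hea
        omega

theorem main {V : Type} [Fintype V] {d : ℕ} {G : SimpleGraph V} (hd : BD d G)
    {W : Finset V} {a b : V → Fin d} {w : V} (hw : w ∈ W) (r : ℕ) :
    ∀ (f : V → Option (Fin d)) (x : V), Proper G f → Special G f W a b → f x = none →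
      Near G r x w → Concl G f W a b := by
  induction r with
  | zero =>
    intro f x hf hW hx hr
    have hxw : x = w := hr
    subst hxw
    have h1 := (hW.1 x hw).1
    rw [hx] at h1
    exact absurd h1 (by simp)
  | succ r ih =>
    intro f x hf hW hx hr
    by_cases hc : ∀ c, Sees G f x c
    · by_cases hadj : ∃ w' ∈ W, G.Adj x w'
      · obtain ⟨w', hw', h⟩ := hadj
        exact case2 hd hf hW hx hc hw' h
      · push Not at hadj
        rcases near_symm hr with h | ⟨y, hy, hyx⟩
        · exact ih f x hf hW hx (near_symm h)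
        · obtain ⟨hcol, hdis⟩ := distinct hd f x hc
          have hyW : y ∉ W := fun h => hadj y h hyx.symm
          have hyn : f y ≠ none := hcol y hyx.symm
          have hyx' : y ≠ x := hyx.ne
          set g := upd f x (f y) with hg
          have hgy : g y = f y := by rw [hg, upd_ne f x _ hyx']
          have h1x : upd g y none x = f y := by
            rw [upd_ne g y _ hyx'.symm, hg, upd_self]
          have h1y : upd g y none y = none := upd_self _ _ _
          have h1o : ∀ v, v ≠ x → v ≠ y → upd g y none v = f v := by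
            intro v h1 h2
            rw [upd_ne g y _ h2, hg, upd_ne f x _ h1]
          have hcnt : ∀ o, cnt (upd g y none) o = cnt f o := by
            intro o
            have h2 := cnt_upd_new f x (f y) (by rw [hx]; exact Ne.symm hyn)
            have h3 := cnt_upd_old f x (f y) (by rw [hx]; exact Ne.symm hyn)
            have h4 := cnt_upd_new g y none (by rw [hgy]; exact hyn)
            have h5 := cnt_upd_old g y none (by rw [hgy]; exact hyn)
            rw [hgy] at h5
            rw [hx] at h3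
            rw [← hg] at h2 h3
            by_cases ho : o = none
            · subst ho
              omega
            · by_cases ho2 : o = f y
              · subst ho2
                omega
              · rw [cnt_upd_ne g y none o (by rw [hgy]; exact Ne.symm ho2) (Ne.symm ho)]
                exact cnt_upd_ne f x (f y) o (by rw [hx]; exact Ne.symm ho) (Ne.symm ho2)
          have hprop : Proper G (upd g y none) := by
            have half : ∀ u v e, G.Adj u v → (u = y ∨ u = x) → upd g y none u = some e →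
                upd g y none v ≠ some e := by
              intro u v e huv h hu hv
              rcases h with rfl | rfl
              · rw [h1y] at hu
                exact absurd hu (by simp)
              · rw [h1x] at hu
                by_cases hvy : v = y
                · subst hvy
                  rw [h1y] at hv
                  exact absurd hv (by simp)
                · rw [h1o v huv.ne' hvy] at hv
                  exact hvy (hdis v y huv hyx.symm (by rw [hv, hu]))
            intro u v e huv hu hv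
            by_cases h1 : u = y ∨ u = x
            · exact half u v e huv h1 hu hv
            · by_cases h2 : v = y ∨ v = x
              · exact half v u e huv.symm h2 hv hu
              · push Not at h1 h2
                rw [h1o u h1.2 h1.1] at hu
                rw [h1o v h2.2 h2.1] at hv
                exact hf u v e huv hu hv
          have hspec : Special G (upd g y none) W a b := by
            refine ⟨fun w' hw' => ?_, hW.2⟩
            obtain ⟨h1, h2, h3⟩ := hW.1 w' hw'
            have hw'x : w' ≠ x := by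
              rintro rfl
              rw [hx] at h1
              exact absurd h1 (by simp)
            have hw'y : w' ≠ y := by
              rintro rfl
              exact hyW hw'
            refine ⟨by rw [h1o w' hw'x hw'y]; exact h1, h2, ?_⟩
            rintro ⟨u, hwu, hu⟩
            by_cases hux : u = x
            · subst hux
              exact hadj w' hw' hwu.symm
            · by_cases huy : u = y
              · subst huy
                rw [h1y] at hu
                exact absurd hu (by simp)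
              · rw [h1o u hux huy] at hu
                exact h3 ⟨u, hwu, hu⟩
          obtain ⟨f', W', h1, h2, h3, h4, h5, h6⟩ := ih (upd g y none) y hprop hspec h1y
            (near_symm hy)
          refine ⟨f', W', h1, h2, h3, h4, ?_, ?_⟩
          · rw [h5, hcnt]
          · intro c
            have := h6 c
            rw [hcnt] at this
            exact this
    · push Not at hc
      obtain ⟨c, hc⟩ := hc
      exact case1 hf hW hx hc

end IC4

theorem prfC4 : C4 := by
  intro d V _ G f W a b hG hd hf hW hWn hcnt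
  obtain ⟨w, hw⟩ := hWn
  have hx : ∃ x, f x = none := by
    unfold cnt at hcnt
    obtain ⟨x, hx⟩ := card_pos.1 hcnt
    exact ⟨x, (mem_filter.1 hx).2⟩
  obtain ⟨x, hx⟩ := hx
  obtain ⟨r, hr⟩ := IC4.exists_near hG x w
  exact IC4.main hd hw r f x hf hW hx hr

end

end Pool.Agent.Work.MP_47f387_co.Large

end

section

/-!
# MP_47f387_co, item C5: filling all holes
-/

namespace Pool.Agent.Work.MP_47f387_co.Large

open Finset Classical

noncomputable section

theorem prfC5 (h4 : C4) : C5 := by
  intro d V _ G f W a b hG hd hf hS hlt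
  suffices H : ∀ (h : ℕ) (f : V → Option (Fin d)) (W : Finset V), Proper G f →
      Special G f W a b → cnt f none = h → h < W.card →
      ∃ (f' : V → Option (Fin d)) (W' : Finset V), Proper G f' ∧ W' ⊆ W ∧
        W.card ≤ W'.card + h ∧ Special G f' W' a b ∧ cnt f' none = 0 ∧
        ∀ c, cnt f (some c) ≤ cnt f' (some c) ∧ cnt f' (some c) ≤ cnt f (some c) + h by
    exact H _ f W hf hS rfl hlt
  intro h
  induction h with
  | zero =>
    intro f W hf hS h0 _
    exact ⟨f, W, hf, Subset.refl _, by omega, hS, h0, fun c => ⟨le_rfl, by omega⟩⟩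
  | succ h ih =>
    intro f W hf hS h0 hlt
    have hne : W.Nonempty := Finset.card_pos.1 (by omega)
    obtain ⟨f1, W1, hf1, hW1, hc1, hS1, hn1, hb1⟩ :=
      h4 d V G f W a b hG hd hf hS hne (by omega)
    obtain ⟨f2, W2, hf2, hW2, hc2, hS2, hn2, hb2⟩ :=
      ih f1 W1 hf1 hS1 (by omega) (by omega)
    refine ⟨f2, W2, hf2, hW2.trans hW1, by omega, hS2, hn2, fun c => ?_⟩
    have h1 := hb1 c
    have h2 := hb2 c
    omega

end

end Pool.Agent.Work.MP_47f387_co.Large

end

section

/-!
# MP_47f387_co, item C6: balancing with special vertices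
-/

namespace Pool.Agent.Work.MP_47f387_co.Large

open Finset Classical

noncomputable section

namespace IC6

variable {V : Type} [Fintype V] {d : ℕ} {G : SimpleGraph V}

lemma sum_cnt (f : V → Option (Fin d)) : ∑ c : Fin d, cnt f (some c) + cnt f none =
    Fintype.card V := by
  have h := Finset.card_eq_sum_card_fiberwise (f := f) (s := (univ : Finset V))
    (t := (univ : Finset (Option (Fin d)))) (fun x _ => mem_univ _)
  rw [Fintype.sum_option, Finset.card_univ] at h
  rw [h, add_comm]
  rfl

lemma base {f : V → Option (Fin d)} {t : Fin d → ℕ} (h0 : cnt f none = 0)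
    (ht : ∑ c, t c = Fintype.card V) (hS : ∀ c, cnt f (some c) ≤ t c) :
    ∀ c, cnt f (some c) = t c := by
  have h1 := sum_cnt f
  rw [h0, add_zero, ← ht] at h1
  intro c
  exact (Finset.sum_eq_sum_iff_of_le (fun i _ => hS i)).1 h1 c (mem_univ _)

lemma cnt_update_old {f : V → Option (Fin d)} {w : V} {i j : Fin d} (hw : f w = some i)
    (hij : i ≠ j) : cnt (Function.update f w (some j)) (some i) + 1 = cnt f (some i) := by
  unfold cnt
  have : (univ.filter (fun v => Function.update f w (some j) v = some i)) =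
      (univ.filter (fun v => f v = some i)).erase w := by
    ext v
    rw [mem_erase, mem_filter, mem_filter]
    by_cases hv : v = w
    · subst hv
      simp only [mem_univ, Function.update_self, true_and, ne_eq, not_true_eq_false, false_and,
        iff_false]
      intro h
      exact hij (Option.some.inj h).symm
    · simp [hv]
  rw [this, card_erase_of_mem (by simp [hw])]
  have hpos : 0 < (univ.filter (fun v => f v = some i)).card :=
    card_pos.2 ⟨w, by simp [hw]⟩
  omega

lemma cnt_update_new {f : V → Option (Fin d)} {w : V} {i j : Fin d} (hw : f w = some i)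
    (hij : i ≠ j) : cnt (Function.update f w (some j)) (some j) = cnt f (some j) + 1 := by
  unfold cnt
  have : (univ.filter (fun v => Function.update f w (some j) v = some j)) =
      insert w (univ.filter (fun v => f v = some j)) := by
    ext v
    rw [mem_insert, mem_filter, mem_filter]
    by_cases hv : v = w
    · subst hv
      simp
    · simp [hv]
  rw [this, card_insert_of_notMem]
  rw [mem_filter]
  rintro ⟨_, h⟩
  rw [hw] at h
  exact hij (Option.some.inj h)

lemma cnt_update_other {f : V → Option (Fin d)} {w : V} {i j : Fin d} {o : Option (Fin d)}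
    (hw : f w = some i) (hoi : o ≠ some i) (hoj : o ≠ some j) :
    cnt (Function.update f w (some j)) o = cnt f o := by
  unfold cnt
  congr 1
  ext v
  rw [mem_filter, mem_filter]
  by_cases hv : v = w
  · subst hv
    simp only [mem_univ, Function.update_self, true_and]
    rw [hw]
    constructor
    · intro h; exact absurd h.symm hoj
    · intro h; exact absurd h.symm hoi
  · simp [hv]

lemma proper_update {f : V → Option (Fin d)} {w : V} {i j : Fin d} (hf : Proper G f)
    (hw : Switch G f w i j) : Proper G (Function.update f w (some j)) := by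
  intro u v c huv hu hv
  by_cases h1 : u = w
  · subst h1
    have hne : v ≠ u := huv.symm.ne
    rw [Function.update_self] at hu
    rw [Function.update_of_ne hne] at hv
    have hc := Option.some.inj hu
    subst hc
    exact hw.2.2 ⟨v, huv, hv⟩
  · rw [Function.update_of_ne h1] at hu
    by_cases h2 : v = w
    · subst h2
      rw [Function.update_self] at hv
      have hc := Option.some.inj hv
      subst hc
      exact hw.2.2 ⟨u, huv.symm, hu⟩
    · rw [Function.update_of_ne h2] at hv
      exact hf u v c huv hu hv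

lemma special_update {f : V → Option (Fin d)} {W : Finset V} {a b : V → Fin d} {w : V}
    {o : Option (Fin d)} (hS : Special G f W a b) (hw : w ∈ W) :
    Special G (Function.update f w o) (W.erase w) a b := by
  constructor
  · intro w' hw'
    rw [mem_erase] at hw'
    have h1 := hS.1 w' hw'.2
    have h2 := hS.2 w' hw'.2 w hw hw'.1
    refine ⟨?_, h1.2.1, ?_⟩
    · rw [Function.update_of_ne hw'.1]; exact h1.1
    · rintro ⟨u, hu, hfu⟩
      have hne : u ≠ w := by
        rintro rfl
        exact h2 (near_succ (near_of_adj hu))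
      rw [Function.update_of_ne hne] at hfu
      exact h1.2.2 ⟨u, hu, hfu⟩
  · intro w1 h1 w2 h2 hne
    exact hS.2 w1 (mem_of_mem_erase h1) w2 (mem_of_mem_erase h2) hne

end IC6

open IC6 in
theorem prfC6 : C6 := by
  intro d V _ G f W a b t m
  induction m generalizing f W with
  | zero =>
    intro hf hS h0 ht hm _
    have h1 : ∀ c, cnt f (some c) ≤ t c := by
      intro c
      have h2 : ∑ c, (cnt f (some c) - t c) = 0 := Nat.le_zero.1 hm
      have h3 := (Finset.sum_eq_zero_iff.1 h2) c (mem_univ _)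
      omega
    exact ⟨f, hf, h0, base h0 ht h1⟩
  | succ m ih =>
    intro hf hS h0 ht hm hW
    by_cases hle : ∀ c, cnt f (some c) ≤ t c
    · exact ⟨f, hf, h0, base h0 ht hle⟩
    push Not at hle
    obtain ⟨i, hi⟩ := hle
    have hex : ∃ j, cnt f (some j) < t j := by
      by_contra hno
      push Not at hno
      have h1 := sum_cnt f
      rw [h0, add_zero, ← ht] at h1
      have h2 := (Finset.sum_eq_sum_iff_of_le (fun i (_ : i ∈ univ) => hno i)).1 h1.symm i
        (mem_univ _)
      omega
    obtain ⟨j, hj⟩ := hex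
    have hij : i ≠ j := by rintro rfl; omega
    have hpos : 0 < (W.filter (fun w => a w = i ∧ b w = j)).card := by
      have := hW i j hij
      omega
    obtain ⟨w, hw⟩ := card_pos.1 hpos
    rw [mem_filter] at hw
    obtain ⟨hwW, hwi, hwj⟩ := hw
    have hsw : Switch G f w i j := by
      have := hS.1 w hwW
      rwa [hwi, hwj] at this
    have e1 := cnt_update_old hsw.1 hij
    have e2 := cnt_update_new hsw.1 hij
    refine ih (Function.update f w (some j)) (W.erase w) (proper_update hf hsw)
      (special_update hS hwW) ?_ ht ?_ ?_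
    · rw [cnt_update_other hsw.1 (by simp) (by simp)]
      exact h0
    · have h3 : ∑ c, (cnt (Function.update f w (some j)) (some c) - t c) <
          ∑ c, (cnt f (some c) - t c) := by
        apply Finset.sum_lt_sum
        · intro c _
          by_cases hci : c = i
          · subst hci; omega
          · by_cases hcj : c = j
            · subst hcj; omega
            · rw [cnt_update_other hsw.1 (by simpa using hci) (by simpa using hcj)]
        · exact ⟨i, mem_univ _, by omega⟩
      omega
    · intro i' j' hij'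
      have h4 := hW i' j' hij'
      have h5 : (W.filter (fun w => a w = i' ∧ b w = j')).card ≤
          ((W.erase w).filter (fun w => a w = i' ∧ b w = j')).card + 1 := by
        rw [Finset.filter_erase]
        have := Finset.pred_card_le_card_erase (s := W.filter (fun w => a w = i' ∧ b w = j'))
          (a := w)
        omega
      omega

end

end Pool.Agent.Work.MP_47f387_co.Large

end

section

namespace Pool.Agent.Work.MP_47f387_co.Large

open Finset Classical

noncomputable section

namespace IC7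

lemma sum_cnt {V : Type} [Fintype V] {d : ℕ} (f : V → Option (Fin d)) :
    ∑ c : Fin d, cnt f (some c) + cnt f none = Fintype.card V := by
  have h := Finset.card_eq_sum_card_fiberwise (s := (univ : Finset V)) (t := (univ : Finset (Option (Fin d))))
    (f := f) (fun _ _ => mem_univ _)
  rw [Fintype.sum_option] at h
  rw [card_univ] at h
  rw [h, add_comm]
  rfl

/-- the target sizes -/
def tgt (d n : ℕ) (c : Fin d) : ℕ := n / d + if (c : ℕ) < n % d then 1 else 0

lemma sum_tgt {d : ℕ} (hd : 0 < d) (n : ℕ) : ∑ c : Fin d, tgt d n c = n := by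
  unfold tgt
  rw [sum_add_distrib, sum_const, card_univ, Fintype.card_fin, smul_eq_mul, ← card_filter]
  have h1 : (univ.filter (fun c : Fin d => (c : ℕ) < n % d)).card = n % d := by
    have := Fin.card_filter_val_lt (n := d) (m := n % d)
    rw [this]
    exact min_eq_right (Nat.mod_lt _ hd).le
  rw [h1]
  exact Nat.div_add_mod n d

lemma tgt_close {d n : ℕ} (c c' : Fin d) : tgt d n c ≤ tgt d n c' + 1 := by
  unfold tgt
  split_ifs <;> omega

lemma div_le_tgt {d n : ℕ} (c : Fin d) : n / d ≤ tgt d n c := Nat.le_add_right _ _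

end IC7

theorem prfC7 (h3 : C3) (h5 : C5) (h6 : C6) : C7 := by
  intro d hd
  obtain ⟨C, hC1, hC⟩ := h3 d hd
  obtain ⟨N, hN⟩ := hC (8 * (d + 1) * C)
  refine ⟨C, N + 1, ?_⟩
  intro V _ _ G _ hG hdeg hK hn
  have hBD : BD d G := by
    intro v
    have : Deg G v = G.degree v := by
      unfold Deg
      rw [← SimpleGraph.card_neighborFinset_eq_degree]
      congr 1
      ext u
      simp
    rw [this]
    exact hdeg v
  have hK' : C * (univ.filter (fun v => InK d G v)).card ≤ Fintype.card V := by
    refine le_trans (le_of_eq ?_) hK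
    congr 1
    rw [Nat.card_eq_fintype_card, Fintype.card_subtype]
    congr 1
    ext v
    rw [mem_filter, mem_filter]
    exact Iff.rfl
  obtain ⟨f, hf, hh, hbal, W, a, b, hW, hWc⟩ := hN V G hG hBD hK' (by omega)
  set n := Fintype.card V with hndef
  have hn1 : 1 ≤ n := by omega
  set h := cnt f none with hhdef
  have hd0 : 0 < d := by omega
  -- |W| is large
  let i0 : Fin d := ⟨0, by omega⟩
  let i1 : Fin d := ⟨1, by omega⟩
  have h01 : i0 ≠ i1 := by
    intro h; simpa [i0, i1] using congrArg Fin.val h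
  have hWbig : n ≤ C * W.card :=
    (hWc i0 i1 h01).trans (Nat.mul_le_mul_left _ (card_le_card (filter_subset _ _)))
  have hhC : 8 * (d + 1) * (C * h) ≤ n := by
    calc 8 * (d + 1) * (C * h) = 8 * (d + 1) * C * h := by ring
      _ ≤ n := hh
  have hlt : h < W.card := by
    by_contra hcon
    push Not at hcon
    have h1 : C * W.card ≤ C * h := Nat.mul_le_mul_left _ hcon
    have h2 : n ≤ C * h := hWbig.trans h1
    nlinarith [Nat.zero_le d]
  obtain ⟨f1, W1, hf1, hW1s, hW1c, hW1, hno1, hcnt1⟩ := h5 d V G f W a b hG hBD hf hW hlt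
  -- choose a class of size at most n / d
  have hsum1 : ∑ c : Fin d, cnt f1 (some c) = n := by
    have := IC7.sum_cnt f1
    rw [hno1, add_zero] at this
    exact this
  obtain ⟨c0, hc0⟩ : ∃ c0 : Fin d, cnt f1 (some c0) ≤ n / d := by
    by_contra hcon
    push Not at hcon
    have h1 : ∑ c : Fin d, (n / d + 1) ≤ ∑ c : Fin d, cnt f1 (some c) :=
      sum_le_sum (fun c _ => hcon c)
    rw [hsum1, sum_const, card_univ, Fintype.card_fin, smul_eq_mul] at h1
    have h2 := Nat.lt_mul_div_succ n hd0
    omega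
  -- the excess of each class
  set S := ∑ c : Fin d, (cnt f1 (some c) - IC7.tgt d n c) with hS
  have hexc : ∀ c : Fin d, 8 * (d + 1) * C * (cnt f1 (some c) - IC7.tgt d n c) ≤ 2 * n := by
    intro c
    have h1 : cnt f1 (some c) - IC7.tgt d n c ≤ cnt f (some c) + h - cnt f (some c0) := by
      have e1 := (hcnt1 c).2
      have e2 := (hcnt1 c0).1
      have e3 := IC7.div_le_tgt (d := d) (n := n) c
      omega
    have h2 : 8 * (d + 1) * C * (cnt f (some c) + h - cnt f (some c0)) ≤
        8 * (d + 1) * C * (cnt f (some c) - cnt f (some c0)) + 8 * (d + 1) * C * h := by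
      rw [← mul_add]
      exact Nat.mul_le_mul_left _ (by omega)
    have h3 : 8 * (d + 1) * C * (cnt f (some c) - cnt f (some c0)) ≤ n := by
      have := hbal c c0
      rw [Nat.mul_sub]
      omega
    calc 8 * (d + 1) * C * (cnt f1 (some c) - IC7.tgt d n c)
        ≤ 8 * (d + 1) * C * (cnt f (some c) + h - cnt f (some c0)) := Nat.mul_le_mul_left _ h1
      _ ≤ _ := h2
      _ ≤ n + n := Nat.add_le_add h3 hh
      _ = 2 * n := by ring
  have hS2 : 8 * (d + 1) * C * S ≤ 2 * d * n := by
    rw [hS, mul_sum]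
    calc ∑ c : Fin d, 8 * (d + 1) * C * (cnt f1 (some c) - IC7.tgt d n c)
        ≤ ∑ c : Fin d, 2 * n := sum_le_sum (fun c _ => hexc c)
      _ = 2 * d * n := by
          rw [sum_const, card_univ, Fintype.card_fin, smul_eq_mul]; ring
  -- special vertices that remain
  have hm : ∀ i j : Fin d, i ≠ j → S ≤ (W1.filter (fun w => a w = i ∧ b w = j)).card := by
    intro i j hij
    have h1 : (W.filter (fun w => a w = i ∧ b w = j)).card ≤
        (W1.filter (fun w => a w = i ∧ b w = j)).card + h := by
      have hsub : W.filter (fun w => a w = i ∧ b w = j) ⊆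
          W1.filter (fun w => a w = i ∧ b w = j) ∪ (W \ W1) := by
        intro w hw
        rw [mem_filter] at hw
        by_cases hw1 : w ∈ W1
        · exact mem_union_left _ (mem_filter.2 ⟨hw1, hw.2⟩)
        · exact mem_union_right _ (mem_sdiff.2 ⟨hw.1, hw1⟩)
      have h2 := (card_le_card hsub).trans (card_union_le _ _)
      have h3 : (W \ W1).card = W.card - W1.card := card_sdiff_of_subset hW1s
      omega
    have h2 := hWc i j hij
    by_contra hcon
    push Not at hcon
    set x := (W1.filter (fun w => a w = i ∧ b w = j)).card with hx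
    have h3 : n ≤ C * (S + h) := h2.trans (Nat.mul_le_mul_left _ (by omega))
    have h4 : 8 * (d + 1) * (C * (S + h)) ≤ 2 * d * n + n := by
      calc 8 * (d + 1) * (C * (S + h)) = 8 * (d + 1) * C * S + 8 * (d + 1) * C * h := by ring
        _ ≤ 2 * d * n + n := Nat.add_le_add hS2 hh
    have h5 : 8 * (d + 1) * n ≤ 2 * d * n + n := (Nat.mul_le_mul_left _ h3).trans h4
    nlinarith
  obtain ⟨f2, hf2, hno2, hcnt2⟩ := h6 d V G f1 W1 a b (IC7.tgt d n) S hf1 hW1 hno1
    (IC7.sum_tgt hd0 n) le_rfl hm
  -- the total colouring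
  have htot : ∀ v, ∃ c, f2 v = some c := by
    intro v
    have : f2 v ≠ none := by
      intro hv
      have h0 : (univ.filter (fun v => f2 v = none)) = ∅ := card_eq_zero.1 hno2
      have : v ∈ univ.filter (fun v => f2 v = none) := by simp [hv]
      rw [h0] at this
      simp at this
    exact Option.ne_none_iff_exists'.1 this
  choose col hcol using htot
  refine ⟨SimpleGraph.Coloring.mk col ?_, ?_⟩
  · intro u v huv heq
    exact hf2 u v (col u) huv (hcol u) (by rw [hcol v, heq])
  · intro i j
    have hc : ∀ i : Fin d, (univ.filter (fun v => col v = i)).card = IC7.tgt d n i := by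
      intro i
      rw [← hcnt2 i]
      unfold cnt
      congr 1
      ext v
      simp [hcol v]
    have e1 := hc i
    have e2 := hc j
    have e3 := IC7.tgt_close (n := n) i j
    have g1 : (univ.filter (fun v => (SimpleGraph.Coloring.mk col (G := G) (by
      intro u v huv heq
      exact hf2 u v (col u) huv (hcol u) (by rw [hcol v, heq]))) v = i)).card =
        (univ.filter (fun v => col v = i)).card := rfl
    have g2 : (univ.filter (fun v => (SimpleGraph.Coloring.mk col (G := G) (by
      intro u v huv heq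
      exact hf2 u v (col u) huv (hcol u) (by rw [hcol v, heq]))) v = j)).card =
        (univ.filter (fun v => col v = j)).card := rfl
    rw [g1, g2, e1, e2]
    exact e3

end

end Pool.Agent.Work.MP_47f387_co.Large

end

section

/-!
# MP_47f387_co: graphs with many copies of `K_d`, disconnected graphs, finite reduction

`Colb G S t`: the subgraph of `G` on `S` has a proper colouring with class sizes `t`.
-/

namespace Pool.Agent.Work.MP_47f387_co.Large

open Finset Classical

noncomputable section

/-- the graph on `S` has a proper colouring with class sizes `t` -/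
def Colb {V : Type} {d : ℕ} (G : SimpleGraph V) (S : Finset V) (t : Fin d → ℕ) : Prop :=
  ∃ g : V → Fin d, (∀ u ∈ S, ∀ v ∈ S, G.Adj u v → g u ≠ g v) ∧
    ∀ c, (S.filter (fun v => g v = c)).card = t c

/-- balanced vector -/
def Bal {d : ℕ} (t : Fin d → ℕ) : Prop := ∀ i j, t i ≤ t j + 1

/-- all edges of `G` are inside `S` -/
def Ins {V : Type} (G : SimpleGraph V) (S : Finset V) : Prop := ∀ u v, G.Adj u v → u ∈ S ∧ v ∈ S

/-- `G` contains no complete bipartite graph `K_{d,d}` -/
def KF {V : Type} (d : ℕ) (G : SimpleGraph V) : Prop :=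
  ∀ X Y : Finset V, X.card = d → Y.card = d → ¬ ∀ x ∈ X, ∀ y ∈ Y, G.Adj x y

/-- `t'` arises from `t` by moving one unit from `a` to `b` -/
def Mv {d : ℕ} (t t' : Fin d → ℕ) (a b : Fin d) : Prop :=
  a ≠ b ∧ t' a + 1 = t a ∧ t' b = t b + 1 ∧ ∀ c, c ≠ a → c ≠ b → t' c = t c

/-- families of vectors closed under permutation of the colours -/
def PC {K : Type} {d : ℕ} (F : K → Set (Fin d → ℕ)) : Prop :=
  ∀ (k : K) (t : Fin d → ℕ) (π : Equiv.Perm (Fin d)), t ∈ F k → (fun c => t (π c)) ∈ F k

/-! ## Prescribed sizes and single moves for `K_d`-free graphs -/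

/-- D1: large connected `K_d`-free graphs have colourings with all nearly balanced class sizes. -/
def D1 : Prop := ∀ d : ℕ, 6 ≤ d → ∀ m : ℕ, ∃ N : ℕ, ∀ (V : Type) [Fintype V] (G : SimpleGraph V),
  G.Connected → BD d G → G.CliqueFree d → N ≤ Fintype.card V → ∀ t : Fin d → ℕ,
    ∑ c, t c = Fintype.card V → (∀ i j, t i ≤ t j + m) → Colb G univ t

/-- D2: every colouring of a nonempty `K_d`-free graph allows a move. -/
def D2 : Prop := ∀ (d : ℕ) (V : Type) [Fintype V] [Nonempty V] (G : SimpleGraph V), 6 ≤ d →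
  BD d G → G.CliqueFree d → ∀ t : Fin d → ℕ, Colb G univ t →
    ∃ (t' : Fin d → ℕ) (a b : Fin d), Mv t t' a b ∧ Colb G univ t'

/-! ## Brooks' theorem -/

/-- a proper partial colouring with the least number of holes -/
def MinH {V : Type} [Fintype V] {d : ℕ} (G : SimpleGraph V) (f : V → Option (Fin d)) : Prop :=
  Proper G f ∧ ∀ f' : V → Option (Fin d), Proper G f' → cnt f none ≤ cnt f' none

/-- `x` and the vertices of colour `i` or `j` -/
def UU {V : Type} {d : ℕ} (f : V → Option (Fin d)) (x : V) (i j : Fin d) : Set V :=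
  {v | v = x ∨ f v = some i ∨ f v = some j}

/-- reachable inside `U` -/
def Rc {V : Type} (G : SimpleGraph V) (U : Set V) (x v : V) : Prop :=
  Relation.ReflTransGen (fun a b => G.Adj a b ∧ a ∈ U ∧ b ∈ U) x v

/-- E1: a hole sees every colour exactly once, and it can be moved. -/
def E1 : Prop := ∀ (d : ℕ) (V : Type) [Fintype V] (G : SimpleGraph V) (f : V → Option (Fin d))
  (x : V), BD d G → MinH G f → f x = none →
    (∀ y, G.Adj x y → f y ≠ none) ∧
    (∀ c, ∃ y, G.Adj x y ∧ f y = some c ∧ ∀ z, G.Adj x z → f z = some c → z = y) ∧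
    ∀ y, G.Adj x y → MinH G (fun v => f (Equiv.swap x y v))

/-- E2: two-coloured components through a hole are 2-regular. -/
def E2 : Prop := ∀ (d : ℕ) (V : Type) [Fintype V] (G : SimpleGraph V) (f : V → Option (Fin d))
  (x : V) (i j : Fin d), BD d G → MinH G f → f x = none → i ≠ j →
    ∀ w, Rc G (UU f x i j) x w → (univ.filter (fun z => G.Adj w z ∧ z ∈ UU f x i j)).card = 2

/-- E3: two such components meet only next to the hole. -/
def E3 : Prop := ∀ (d : ℕ) (V : Type) [Fintype V] (G : SimpleGraph V) (f : V → Option (Fin d))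
  (x : V) (i j k : Fin d), BD d G → MinH G f → f x = none → i ≠ j → i ≠ k → j ≠ k →
    ∀ w, Rc G (UU f x i j) x w → Rc G (UU f x i k) x w → w ≠ x → G.Adj x w

/-- E4: the neighbours of a hole are pairwise adjacent. -/
def E4 : Prop := ∀ (d : ℕ) (V : Type) [Fintype V] (G : SimpleGraph V) (f : V → Option (Fin d))
  (x y z : V), 3 ≤ d → BD d G → MinH G f → f x = none → G.Adj x y → G.Adj x z → y ≠ z →
    G.Adj y z

/-- E5: Brooks' theorem. -/
def E5 : Prop := ∀ (d : ℕ) (V : Type) [Fintype V] (G : SimpleGraph V), 3 ≤ d → BD d G →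
  G.CliqueFree (d + 1) → ∃ t : Fin d → ℕ, Colb G univ t

/-! ## Vectors -/

/-- V0: two balanced vectors. -/
def V0 : Prop := ∀ (d : ℕ) (s t : Fin d → ℕ), Bal s → Bal t →
  ∃ π : Equiv.Perm (Fin d), Bal (fun c => s c + t (π c))

/-- V1: sums of balanced vectors, one from each family. -/
def V1 : Prop := ∀ (d : ℕ) (K : Type) [Fintype K] (F : K → Set (Fin d → ℕ)) (A : Finset K),
  PC F → (∀ k ∈ A, ∃ t ∈ F k, Bal t) →
    ∃ w : K → Fin d → ℕ, (∀ k ∈ A, w k ∈ F k) ∧ Bal (fun c => ∑ k ∈ A, w k c)

/-- V2: greedy sums. -/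
def V2 : Prop := ∀ (d s : ℕ) (K : Type) [Fintype K] (F : K → Set (Fin d → ℕ)) (A : Finset K),
  PC F → (∀ k ∈ A, ∃ t ∈ F k, ∀ c, t c ≤ s) →
    ∃ w : K → Fin d → ℕ, (∀ k ∈ A, w k ∈ F k) ∧
      ∀ i j, ∑ k ∈ A, w k i ≤ ∑ k ∈ A, w k j + s

/-- V3: `L` groups of `d!` families containing the same `t`, `t'`: all small corrections of a
constant vector are possible. -/
def V3 : Prop := ∀ (d L : ℕ) (K : Type) [Fintype K] (F : K → Set (Fin d → ℕ)) (A : Finset K)
  (t t' : Fin d → ℕ) (a b : Fin d), PC F → Mv t t' a b → (∀ k ∈ A, t ∈ F k ∧ t' ∈ F k) →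
  A.card = L * d.factorial →
    ∃ q : ℕ, ∀ x y : Fin d → ℕ, ∑ c, x c = ∑ c, y c → ∑ c, (x c - y c) ≤ L →
      ∃ w : K → Fin d → ℕ, (∀ k ∈ A, w k ∈ F k) ∧
        ∀ c, ∑ k ∈ A, w k c + x c = q + y c

/-- V4: many small families with moves have a balanced sum. -/
def V4 : Prop := ∀ d s : ℕ, ∃ N : ℕ, ∀ (K : Type) [Fintype K] (F : K → Set (Fin d → ℕ))
  (A : Finset K), PC F →
  (∀ k ∈ A, ∃ t ∈ F k, ∃ t' ∈ F k, ∃ a b, Mv t t' a b ∧ ∑ c, t c ≤ s) → N ≤ A.card →
    ∃ w : K → Fin d → ℕ, (∀ k ∈ A, w k ∈ F k) ∧ Bal (fun c => ∑ k ∈ A, w k c)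

/-- V5: the general vector lemma. -/
def V5 : Prop := ∀ d : ℕ, 1 ≤ d → ∀ N1 : ℕ → ℕ, ∃ N : ℕ, ∀ (K : Type) [Fintype K]
  (F : K → Set (Fin d → ℕ)) (p : K → ℕ), PC F → (∀ k, ∀ t ∈ F k, ∑ c, t c = p k) →
  (∀ k, 1 ≤ p k) → (∀ k, ∃ t ∈ F k, ∃ t' ∈ F k, ∃ a b, Mv t t' a b) →
  (∀ m k, N1 m ≤ p k → ∀ t : Fin d → ℕ, ∑ c, t c = p k → (∀ i j, t i ≤ t j + m) → t ∈ F k) →
  N ≤ ∑ k, p k →
    ∃ w : K → Fin d → ℕ, (∀ k, w k ∈ F k) ∧ Bal (fun c => ∑ k, w k c)

/-! ## Components and subtypes -/

/-- P1: colourings of the components give a colouring of the graph. -/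
def P1 : Prop := ∀ (d : ℕ) (V : Type) [Fintype V] (G : SimpleGraph V)
  (w : G.ConnectedComponent → Fin d → ℕ), 1 ≤ d →
  (∀ k : G.ConnectedComponent, Colb k.toSimpleGraph univ (w k)) →
    Colb G univ (fun c => ∑ k, w k c)

/-- P2: induced subgraphs. -/
def P2 : Prop := ∀ (d : ℕ) (V : Type) [Fintype V] (G : SimpleGraph V) (S : Set V), 1 ≤ d →
  (BD d G → BD d (G.induce S)) ∧ (∀ k, G.CliqueFree k → (G.induce S).CliqueFree k) ∧
  (KF d G → KF d (G.induce S)) ∧
  ∀ t : Fin d → ℕ, Colb (G.induce S) univ t → Colb G (univ.filter (fun v => v ∈ S)) t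

/-! ## Removing copies of `K_d` -/

/-- R1: extension of a colouring to a `K_d`. -/
def R1 : Prop := ∀ (d : ℕ) (V : Type) [Fintype V] (G : SimpleGraph V) (S B : Finset V), 2 ≤ d →
  BD d G → G.IsNClique d B → B ⊆ S → ∀ g : V → Fin d,
  (∀ u ∈ S \ B, ∀ v ∈ S \ B, G.Adj u v → g u ≠ g v) →
  (¬ ∃ c, ∀ b ∈ B, ∃ z ∈ S \ B, G.Adj b z ∧ g z = c) →
    Colb G S (fun c => ((S \ B).filter (fun v => g v = c)).card + 1)

/-- the conclusion of the reduction step -/
def RedStep {V : Type} [Fintype V] (d : ℕ) (G : SimpleGraph V) (S B : Finset V) : Prop :=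
  ∃ G' : SimpleGraph V, Ins G' (S \ B) ∧ BD d G' ∧ G'.CliqueFree (d + 1) ∧
    (∀ s : Finset V, G'.IsNClique d s → G.IsNClique d s) ∧ (KF d G → KF d G') ∧
    (∀ v, (∀ u, ¬ G.Adj v u) → ∀ u, ¬ G'.Adj v u) ∧
    ∀ t : Fin d → ℕ, Colb G' (S \ B) t → Colb G S (fun c => t c + 1)

/-- the exceptional components for `d = 5` and `d = 6`: a `K_d` (on `B`) and a `K_{d-2}` (on `Q`),
joined by three vertices, each of them adjacent to all of `Q` and to at most two vertices
of `B` -/
def C13 {V : Type} (d : ℕ) (G : SimpleGraph V) (B : Finset V) : Prop :=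
  d ≤ 6 ∧ ∃ (Q : Finset V) (y₁ y₂ y₃ b₁ b₂ : V), Q.card + 2 = d ∧ Disjoint Q B ∧
    y₁ ∉ B ∧ y₂ ∉ B ∧ y₃ ∉ B ∧ y₁ ∉ Q ∧ y₂ ∉ Q ∧ y₃ ∉ Q ∧ y₁ ≠ y₂ ∧ y₁ ≠ y₃ ∧ y₂ ≠ y₃ ∧
    b₁ ∈ B ∧ b₂ ∈ B ∧ G.Adj b₁ y₁ ∧ G.Adj b₂ y₂ ∧ (∃ u, G.Adj y₃ u) ∧ (∀ q ∈ Q, G.Adj y₁ q) ∧
    (∀ v, G.Adj y₁ v → v ∈ Q ∪ B) ∧ (∀ v, G.Adj y₂ v → v ∈ Q ∪ B) ∧
    (d = 6 → ∀ v, G.Adj y₃ v → v ∈ Q ∪ B) ∧
    ∀ q ∈ Q, ∀ v, G.Adj q v → v ∈ Q ∨ v = y₁ ∨ v = y₂ ∨ v = y₃

/-- the conclusion of the exceptional reduction step -/
def RedTwo {V : Type} [Fintype V] (d : ℕ) (G : SimpleGraph V) (S B : Finset V) : Prop :=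
  ∃ (G' : SimpleGraph V) (T : Finset V), T ⊆ S \ B ∧ T.card = d ∧ (∀ v ∈ T, ∃ u, G.Adj v u) ∧
    G' ≤ G ∧ Ins G' ((S \ B) \ T) ∧
    (d = 6 → ∃ y ∈ (S \ B) \ T, (∃ u, G.Adj y u) ∧ ∀ u, ¬ G'.Adj y u) ∧
    ∀ t : Fin d → ℕ, Colb G' ((S \ B) \ T) t → Colb G S (fun c => t c + 2)

/-- R2: the easy case, `G' = G - B`. -/
def R2 : Prop := ∀ (d : ℕ) (V : Type) [Fintype V] (G : SimpleGraph V) (S B : Finset V), 5 ≤ d →
  Ins G S → BD d G → G.CliqueFree (d + 1) → G.IsNClique d B → B ⊆ S →
  ((∃ b ∈ B, ∀ v, v ∉ B → ¬ G.Adj b v) ∨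
    ∃ b ∈ B, ∃ b' ∈ B, ∃ z z', z ∉ B ∧ z' ∉ B ∧ G.Adj b z ∧ G.Adj b' z' ∧ G.Adj z z') →
    RedStep d G S B

/-- R3: choice of the new edge. -/
def R3 : Prop := ∀ (d : ℕ) (V : Type) [Fintype V] (G : SimpleGraph V) (B : Finset V), 5 ≤ d →
  BD d G → G.CliqueFree (d + 1) → G.IsNClique d B →
  (∀ b ∈ B, ∃ v, v ∉ B ∧ G.Adj b v) →
  (∀ b ∈ B, ∀ b' ∈ B, ∀ z z', z ∉ B → z' ∉ B → G.Adj b z → G.Adj b' z' → ¬ G.Adj z z') →
    C13 d G B ∨
    ∃ b ∈ B, ∃ b' ∈ B, ∃ y y', y ∉ B ∧ y' ∉ B ∧ y ≠ y' ∧ G.Adj b y ∧ G.Adj b' y' ∧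
      (∀ Q : Finset V, G.IsNClique (d - 2) Q → ¬ ∀ q ∈ Q, G.Adj y q ∧ G.Adj y' q) ∧
      ∀ X Y : Finset V, X.card = d → Y.card = d → y ∈ X → y' ∈ Y → Disjoint X B → Disjoint Y B →
        ¬ ∀ x ∈ X, ∀ z ∈ Y, G.Adj x z ∨ (x = y ∧ z = y') ∨ (x = y' ∧ z = y)

/-- R4: the case with a new edge. -/
def R4 : Prop := ∀ (d : ℕ) (V : Type) [Fintype V] (G : SimpleGraph V) (S B : Finset V), 5 ≤ d →
  Ins G S → BD d G → G.CliqueFree (d + 1) → G.IsNClique d B → B ⊆ S →
  (∀ b ∈ B, ∃ v, v ∉ B ∧ G.Adj b v) →
  (∀ b ∈ B, ∀ b' ∈ B, ∀ z z', z ∉ B → z' ∉ B → G.Adj b z → G.Adj b' z' → ¬ G.Adj z z') →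
  ¬ C13 d G B →
    RedStep d G S B

/-- R6: the exceptional case. -/
def R6 : Prop := ∀ (d : ℕ) (V : Type) [Fintype V] (G : SimpleGraph V) (S B : Finset V), 5 ≤ d →
  Ins G S → BD d G → G.IsNClique d B → B ⊆ S → C13 d G B → RedTwo d G S B

/-- R5: iteration. -/
def R5 : Prop := ∀ (d : ℕ) (V : Type) [Fintype V] (G : SimpleGraph V) (S : Finset V), 5 ≤ d →
  Ins G S → BD d G → G.CliqueFree (d + 1) →
    ∃ (G₀ : SimpleGraph V) (P : Finset (Finset V)) (S₀ : Finset V) (k : ℕ),
      (∀ B ∈ P, G.IsNClique d B) ∧ (∀ B ∈ P, ∀ B' ∈ P, B ≠ B' → Disjoint B B') ∧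
      S₀ ⊆ S \ P.biUnion id ∧ (6 ≤ d → (S \ P.biUnion id).card ≤ 7 * S₀.card) ∧
      Ins G₀ S₀ ∧ BD d G₀ ∧ G₀.CliqueFree d ∧ (KF d G → KF d G₀) ∧
      ∀ t : Fin d → ℕ, Colb G₀ S₀ t → Colb G S (fun c => t c + k)

/-! ## Final statements -/

/-- T1: large `K_d`-free graphs, connected or not. -/
def T1 : Prop := ∀ d : ℕ, 6 ≤ d → ∃ N : ℕ, ∀ (V : Type) [Fintype V] (G : SimpleGraph V),
  BD d G → G.CliqueFree d → N ≤ Fintype.card V → ∃ t : Fin d → ℕ, Bal t ∧ Colb G univ t

/-- T2: the finite reduction for `K_d`-free graphs. -/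
def T2 : Prop := ∀ d : ℕ, 6 ≤ d → ∃ N : ℕ,
  (∀ (V : Type) [Fintype V] (G : SimpleGraph V), G.Connected → BD d G → G.CliqueFree d →
    (Odd d → KF d G) → Fintype.card V < N → ∃ t : Fin d → ℕ, Bal t ∧ Colb G univ t) →
  ∀ (V : Type) [Fintype V] (G : SimpleGraph V), BD d G → G.CliqueFree d →
    (Odd d → KF d G) → ∃ t : Fin d → ℕ, Bal t ∧ Colb G univ t

/-- T3: every graph with many vertices outside disjoint copies of `K_d`. -/
def T3 : Prop := ∀ d : ℕ, 6 ≤ d → ∃ N : ℕ, ∀ (V : Type) [Fintype V] [DecidableEq V]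
  (G : SimpleGraph V) [DecidableRel G.Adj], (∀ v, G.degree v ≤ d) → G.CliqueFree (d + 1) →
  (∀ P : Finset (Finset V), (∀ B ∈ P, G.IsNClique d B) →
    (∀ B ∈ P, ∀ B' ∈ P, B ≠ B' → Disjoint B B') → P.card * d + N ≤ Fintype.card V) →
    Equi G d

/-- T4: the finite reduction. -/
def T4 : Prop := ∀ d : ℕ, 6 ≤ d → ∃ N : ℕ,
  (∀ (V : Type) [Fintype V] [DecidableEq V] (G : SimpleGraph V) [DecidableRel G.Adj],
    G.Connected → (∀ v, G.degree v ≤ d) → G.CliqueFree d → (Odd d → KF d G) →
    Fintype.card V < N → Equi G d) →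
  ∀ (V : Type) [Fintype V] [DecidableEq V] (G : SimpleGraph V) [DecidableRel G.Adj],
    (∀ v, G.degree v ≤ d) → G.CliqueFree (d + 1) → (Odd d → KF d G) → Equi G d

end

end Pool.Agent.Work.MP_47f387_co.Large

end

section

/-!
# MP_47f387_co, large connected graphs: assembly
-/

namespace Pool.Agent.Work.MP_47f387_co.Large

theorem asmA4 : A4 := prfA4 prfA2 prfA3

theorem asmA9 : A9 := prfA9 prfA1 prfA3 asmA4

theorem asmA10 : A10 := prfA10 prfA1 prfA3 asmA4 asmA9

theorem asmA11 : A11 := prfA11 prfA1 prfA3 asmA4 asmA9 asmA10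

theorem asmA12 : A12 := prfA12 prfA1 prfA2 prfA3 asmA9 asmA10 asmA11

theorem asmA5 : A5 := prfA5 prfA1 prfA3 asmA4

theorem asmA6 : A6 := prfA6 prfA1 prfA3 asmA4

theorem asmA7 : A7 := prfA7 prfA1 prfA3 asmA5 asmA6

theorem asmA8 : A8 := prfA8 asmA7

theorem asmA13 : A13 := prfA13 prfA1 prfA2 prfA3 asmA4 asmA6 asmA8 asmA12

theorem asmB7 : B7 := prfB7 prfB4 prfB5 (prfB6 prfB5)

theorem asmB8 : B8 := prfB8 asmA13 prfB1 prfB2 prfB3 asmB7

theorem asmC3 : C3 := prfC3 asmB8 prfC1 prfC2

theorem asmC7 : C7 := prfC7 asmC3 (prfC5 prfC4) prfC6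

end Pool.Agent.Work.MP_47f387_co.Large

end

section

namespace Pool.Agent.Work.MP_47f387_co.Large

open Finset Classical

noncomputable section

theorem prfD1 (h3 : C3) (h5 : C5) (h6 : C6) : D1 := by
  intro d hd m
  obtain ⟨C, hC1, hC⟩ := h3 d hd
  obtain ⟨N, hN⟩ := hC (8 * (d + 1) * C)
  refine ⟨N + 8 * (d + 1) * C * (m + 1), ?_⟩
  intro V _ G hG hBD hfree hn t ht htm
  have hK' : C * (univ.filter (fun v => InK d G v)).card ≤ Fintype.card V := by
    have : (univ.filter (fun v => InK d G v)) = ∅ := by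
      rw [filter_eq_empty_iff]
      rintro v _ ⟨s, _, hs⟩
      exact hfree s hs
    rw [this]
    simp
  obtain ⟨f, hf, hh, hbal, W, a, b, hW, hWc⟩ := hN V G hG hBD hK' (by omega)
  set n := Fintype.card V with hndef
  have hC8 : 1 ≤ 8 * (d + 1) * C := by
    have : 1 ≤ 8 * (d + 1) := by omega
    exact Nat.mul_le_mul this hC1
  have hmn : 8 * (d + 1) * C * m ≤ n := by
    refine le_trans ?_ hn
    exact (Nat.mul_le_mul_left _ (Nat.le_succ m)).trans (Nat.le_add_left _ _)
  have hn1 : 1 ≤ n := by
    refine le_trans ?_ hn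
    have : 1 ≤ 8 * (d + 1) * C * (m + 1) := Nat.mul_le_mul hC8 (Nat.le_add_left 1 m)
    exact this.trans (Nat.le_add_left _ _)
  set h := cnt f none with hhdef
  have hd0 : 0 < d := by omega
  let i0 : Fin d := ⟨0, by omega⟩
  let i1 : Fin d := ⟨1, by omega⟩
  have h01 : i0 ≠ i1 := by
    intro h; simpa [i0, i1] using congrArg Fin.val h
  have hWbig : n ≤ C * W.card :=
    (hWc i0 i1 h01).trans (Nat.mul_le_mul_left _ (card_le_card (filter_subset _ _)))
  have hhC : 8 * (d + 1) * (C * h) ≤ n := by
    calc 8 * (d + 1) * (C * h) = 8 * (d + 1) * C * h := by ring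
      _ ≤ n := hh
  have hlt : h < W.card := by
    by_contra hcon
    push Not at hcon
    have h1 : C * W.card ≤ C * h := Nat.mul_le_mul_left _ hcon
    have h2 : n ≤ C * h := hWbig.trans h1
    nlinarith [Nat.zero_le d]
  obtain ⟨f1, W1, hf1, hW1s, hW1c, hW1, hno1, hcnt1⟩ := h5 d V G f W a b hG hBD hf hW hlt
  have hsum1 : ∑ c : Fin d, cnt f1 (some c) = n := by
    have := IC7.sum_cnt f1
    rw [hno1, add_zero] at this
    exact this
  obtain ⟨c0, hc0⟩ : ∃ c0 : Fin d, cnt f1 (some c0) ≤ t c0 := by
    by_contra hcon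
    push Not at hcon
    have h1 : ∑ c : Fin d, (t c + 1) ≤ ∑ c : Fin d, cnt f1 (some c) :=
      sum_le_sum (fun c _ => hcon c)
    rw [hsum1, sum_add_distrib, ht, sum_const, card_univ, Fintype.card_fin, smul_eq_mul,
      mul_one] at h1
    omega
  set S := ∑ c : Fin d, (cnt f1 (some c) - t c) with hS
  have hexc : ∀ c : Fin d, 8 * (d + 1) * C * (cnt f1 (some c) - t c) ≤ 3 * n := by
    intro c
    have h1 : cnt f1 (some c) - t c ≤ cnt f (some c) + h + m - cnt f (some c0) := by
      have e1 := (hcnt1 c).2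
      have e2 := (hcnt1 c0).1
      have e3 := htm c0 c
      omega
    have h2 : 8 * (d + 1) * C * (cnt f (some c) + h + m - cnt f (some c0)) ≤
        8 * (d + 1) * C * (cnt f (some c) - cnt f (some c0)) + 8 * (d + 1) * C * h +
          8 * (d + 1) * C * m := by
      rw [← mul_add, ← mul_add]
      exact Nat.mul_le_mul_left _ (by omega)
    have h3 : 8 * (d + 1) * C * (cnt f (some c) - cnt f (some c0)) ≤ n := by
      have := hbal c c0
      rw [Nat.mul_sub]
      omega
    calc 8 * (d + 1) * C * (cnt f1 (some c) - t c)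
        ≤ 8 * (d + 1) * C * (cnt f (some c) + h + m - cnt f (some c0)) :=
          Nat.mul_le_mul_left _ h1
      _ ≤ _ := h2
      _ ≤ n + n + n := Nat.add_le_add (Nat.add_le_add h3 hh) hmn
      _ = 3 * n := by ring
  have hS2 : 8 * (d + 1) * C * S ≤ 3 * d * n := by
    rw [hS, mul_sum]
    calc ∑ c : Fin d, 8 * (d + 1) * C * (cnt f1 (some c) - t c)
        ≤ ∑ c : Fin d, 3 * n := sum_le_sum (fun c _ => hexc c)
      _ = 3 * d * n := by
          rw [sum_const, card_univ, Fintype.card_fin, smul_eq_mul]; ring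
  have hm : ∀ i j : Fin d, i ≠ j → S ≤ (W1.filter (fun w => a w = i ∧ b w = j)).card := by
    intro i j hij
    have h1 : (W.filter (fun w => a w = i ∧ b w = j)).card ≤
        (W1.filter (fun w => a w = i ∧ b w = j)).card + h := by
      have hsub : W.filter (fun w => a w = i ∧ b w = j) ⊆
          W1.filter (fun w => a w = i ∧ b w = j) ∪ (W \ W1) := by
        intro w hw
        rw [mem_filter] at hw
        by_cases hw1 : w ∈ W1
        · exact mem_union_left _ (mem_filter.2 ⟨hw1, hw.2⟩)
        · exact mem_union_right _ (mem_sdiff.2 ⟨hw.1, hw1⟩)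
      have h2 := (card_le_card hsub).trans (card_union_le _ _)
      have h3 : (W \ W1).card = W.card - W1.card := card_sdiff_of_subset hW1s
      omega
    have h2 := hWc i j hij
    by_contra hcon
    push Not at hcon
    set x := (W1.filter (fun w => a w = i ∧ b w = j)).card with hx
    have h3 : n ≤ C * (S + h) := h2.trans (Nat.mul_le_mul_left _ (by omega))
    have h4 : 8 * (d + 1) * (C * (S + h)) ≤ 3 * d * n + n := by
      calc 8 * (d + 1) * (C * (S + h)) = 8 * (d + 1) * C * S + 8 * (d + 1) * C * h := by ring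
        _ ≤ 3 * d * n + n := Nat.add_le_add hS2 hh
    have h5 : 8 * (d + 1) * n ≤ 3 * d * n + n := (Nat.mul_le_mul_left _ h3).trans h4
    nlinarith
  obtain ⟨f2, hf2, hno2, hcnt2⟩ := h6 d V G f1 W1 a b t S hf1 hW1 hno1 ht le_rfl hm
  have htot : ∀ v, ∃ c, f2 v = some c := by
    intro v
    have : f2 v ≠ none := by
      intro hv
      have h0 : (univ.filter (fun v => f2 v = none)) = ∅ := card_eq_zero.1 hno2
      have : v ∈ univ.filter (fun v => f2 v = none) := by simp [hv]
      rw [h0] at this
      simp at this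
    exact Option.ne_none_iff_exists'.1 this
  choose col hcol using htot
  refine ⟨col, ?_, ?_⟩
  · intro u _ v _ huv heq
    exact hf2 u v (col u) huv (hcol u) (by rw [hcol v, heq])
  · intro c
    rw [← hcnt2 c]
    unfold cnt
    congr 1
    ext v
    simp [hcol v]

end

end Pool.Agent.Work.MP_47f387_co.Large

end
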