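import Pool.Agent.Work.MP_47f387_co.Bd.B03

/-! Bundle of small proof modules (one section per former module). -/

section

/-!
# MP_47f387_co: every colouring of a nonempty `K_d`-free graph allows a move
-/

namespace Pool.Agent.Work.MP_47f387_co.Large

open Finset Classical

noncomputable section

/-- D2 -/
theorem prfD2 (h13 : A13) : D2 := by
  intro d V _ _ G hd hbd hcf t ht
  obtain ⟨g, hg, hgc⟩ := ht
  set f : V → Option (Fin d) := fun v => some (g v) with hf
  have hp : Proper G f := by
    intro u v c huv hu hv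
    simp only [hf, Option.some.injEq] at hu hv
    exact hg u (mem_univ _) v (mem_univ _) huv (by rw [hu, hv])
  have h1 := h13 d V G f hd hbd hp
  have hpos : 0 < Fintype.card V := Fintype.card_pos
  have hne : (univ.filter (fun v => ¬ Good G f v)).Nonempty := by
    rw [nonempty_iff_ne_empty]
    intro h0
    rw [h0] at h1
    simp at h1
  obtain ⟨v, hv⟩ := hne
  rw [mem_filter] at hv
  have hv := hv.2
  have hflex : ∃ i j, Flex G f i j v := by
    by_contra hno
    push Not at hno
    apply hv
    refine ⟨fun u _ => by simp [hf], hno, ?_⟩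
    rintro ⟨s, -, hs⟩
    exact hcf s hs
  obtain ⟨i, j, e, he1, he2, w, hw1, hw2, hij, hw3⟩ := hflex
  have hwi : g (e w) = i := by simpa [hf] using hw2
  have hprop : ∀ u u', G.Adj u u' → g (e u) ≠ g (e u') := by
    intro u u' huu h
    by_cases hn : Near G 2 v u
    · exact he2 u u' (g (e u)) hn huu (by simp [hf]) (by simp [hf, h])
    · by_cases hn' : Near G 2 v u'
      · exact he2 u' u (g (e u')) hn' huu.symm (by simp [hf]) (by simp [hf, h])
      · have e1 : e u = u := by
          by_contra h3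
          exact hn (he1 u h3)
        have e2 : e u' = u' := by
          by_contra h3
          exact hn' (he1 u' h3)
        rw [e1, e2] at h
        exact hg u (mem_univ _) u' (mem_univ _) huu h
  have hsee : ∀ u, G.Adj w u → g (e u) ≠ j := by
    intro u hu h
    exact hw3 ⟨u, hu, by simp [hf, h]⟩
  set g2 : V → Fin d := Function.update (fun u => g (e u)) w j with hg2
  have hg2w : g2 w = j := by rw [hg2, Function.update_self]
  have hg2o : ∀ u, u ≠ w → g2 u = g (e u) := by
    intro u hu
    rw [hg2, Function.update_of_ne hu]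
  have hsz : ∀ c, (univ.filter (fun u => g (e u) = c)).card = t c := by
    intro c
    rw [← hgc c]
    apply Finset.card_equiv e
    intro u
    simp
  refine ⟨fun c => (univ.filter (fun u => g2 u = c)).card, i, j, ⟨hij, ?_, ?_, ?_⟩, g2, ?_, ?_⟩
  · have : univ.filter (fun u => g2 u = i) = (univ.filter (fun u => g (e u) = i)).erase w := by
      ext u
      rw [mem_erase, mem_filter, mem_filter]
      by_cases hu : u = w
      · subst hu
        simp only [hg2w, mem_univ, true_and, ne_eq, not_true_eq_false, false_and, iff_false]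
        exact fun h => hij h.symm
      · rw [hg2o u hu]
        simp [hu]
    simp only [this]
    have hmem : w ∈ univ.filter (fun u => g (e u) = i) := by simp [hwi]
    rw [card_erase_of_mem hmem, ← hsz i]
    have : 0 < (univ.filter (fun u => g (e u) = i)).card := card_pos.2 ⟨w, hmem⟩
    omega
  · have : univ.filter (fun u => g2 u = j) = insert w (univ.filter (fun u => g (e u) = j)) := by
      ext u
      rw [mem_insert, mem_filter, mem_filter]
      by_cases hu : u = w
      · subst hu
        simp [hg2w]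
      · rw [hg2o u hu]
        simp [hu]
    simp only [this]
    have hmem : w ∉ univ.filter (fun u => g (e u) = j) := by simp [hwi, hij]
    rw [card_insert_of_notMem hmem, ← hsz j]
  · intro c hci hcj
    have : univ.filter (fun u => g2 u = c) = univ.filter (fun u => g (e u) = c) := by
      ext u
      rw [mem_filter, mem_filter]
      by_cases hu : u = w
      · subst hu
        rw [hg2w, hwi]
        simp [Ne.symm hci, Ne.symm hcj]
      · rw [hg2o u hu]
    simp only [this]
    exact hsz c
  · intro u _ u' _ huu h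
    by_cases hu : u = w
    · subst hu
      have hu' : u' ≠ u := huu.symm.ne
      rw [hg2w, hg2o u' hu'] at h
      exact hsee u' huu h.symm
    · rw [hg2o u hu] at h
      by_cases hu' : u' = w
      · subst hu'
        rw [hg2w] at h
        exact hsee u huu.symm h
      · rw [hg2o u' hu'] at h
        exact hprop u u' huu h
  · intro c
    rfl

end

end Pool.Agent.Work.MP_47f387_co.Large

end

section

/-!
# MP_47f387_co: a hole in a minimal-hole colouring sees each colour exactly once
-/

namespace Pool.Agent.Work.MP_47f387_co.Large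

open Finset Classical

noncomputable section

namespace ITE1

lemma cnt_equiv {V : Type} [Fintype V] {d : ℕ} (f : V → Option (Fin d)) (e : Equiv.Perm V)
    (o : Option (Fin d)) : cnt (fun v => f (e v)) o = cnt f o := by
  unfold cnt
  apply Finset.card_equiv e
  intro v
  simp

lemma sees_all {V : Type} [Fintype V] {d : ℕ} {G : SimpleGraph V} {f : V → Option (Fin d)}
    {x : V} (hm : MinH G f) (hx : f x = none) (c : Fin d) : ∃ y, G.Adj x y ∧ f y = some c := by
  by_contra hno
  push Not at hno
  have hp : Proper G (Function.update f x (some c)) := by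
    intro u v c' huv hu hv
    by_cases h1 : u = x
    · subst h1
      have hvu : v ≠ u := huv.symm.ne
      rw [Function.update_self] at hu
      rw [Function.update_of_ne hvu] at hv
      exact hno v huv (by rw [hv, hu])
    · rw [Function.update_of_ne h1] at hu
      by_cases h2 : v = x
      · subst h2
        rw [Function.update_self] at hv
        exact hno u huv.symm (by rw [hu, hv])
      · rw [Function.update_of_ne h2] at hv
        exact hm.1 u v c' huv hu hv
  have hle := hm.2 _ hp
  have hlt : cnt (Function.update f x (some c)) none < cnt f none := by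
    unfold cnt
    apply Finset.card_lt_card
    rw [Finset.ssubset_iff_of_subset]
    · refine ⟨x, by simp [hx], ?_⟩
      simp
    · intro v hv
      rw [mem_filter] at hv ⊢
      refine ⟨mem_univ _, ?_⟩
      by_cases h1 : v = x
      · rw [h1]; exact hx
      · rw [Function.update_of_ne h1] at hv
        exact hv.2
  omega

lemma core {V : Type} [Fintype V] {d : ℕ} {G : SimpleGraph V} {f : V → Option (Fin d)}
    {x : V} (hd : BD d G) (hm : MinH G f) (hx : f x = none) :
    (∀ y, G.Adj x y → f y ≠ none) ∧ ∀ y z, G.Adj x y → G.Adj x z → f y = f z → y = z := by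
  set N : Finset V := univ.filter (fun u => G.Adj x u) with hN
  have hNd : N.card ≤ d := hd x
  set S : Finset (Option (Fin d)) := (univ : Finset (Fin d)).image some with hS
  have hScard : S.card = d := by
    rw [hS, card_image_of_injective _ (Option.some_injective _)]
    simp
  have hsub : S ⊆ N.image f := by
    intro o ho
    rw [hS, mem_image] at ho
    obtain ⟨c, -, rfl⟩ := ho
    obtain ⟨y, hy, hfy⟩ := sees_all hm hx c
    rw [mem_image]
    exact ⟨y, by simp [hN, hy], hfy⟩
  have hle : (N.image f).card ≤ N.card := card_image_le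
  have heq : S = N.image f := eq_of_subset_of_card_le hsub (by omega)
  have hcard : (N.image f).card = N.card := by
    have : (N.image f).card = d := by rw [← heq, hScard]
    omega
  have hinj : Set.InjOn f (N : Set V) := Finset.card_image_iff.1 hcard
  refine ⟨?_, ?_⟩
  · intro y hy hfy
    have : f y ∈ N.image f := mem_image_of_mem f (by simp [hN, hy])
    rw [← heq, hfy, hS] at this
    simp at this
  · intro y z hy hz hyz
    exact hinj (by simp [hN, hy]) (by simp [hN, hz]) hyz

end ITE1

open ITE1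

/-- E1 -/
theorem prfE1 : E1 := by
  intro d V _ G f x hd hm hx
  obtain ⟨h1, h2⟩ := core hd hm hx
  refine ⟨h1, ?_, ?_⟩
  · intro c
    obtain ⟨y, hy, hfy⟩ := sees_all hm hx c
    exact ⟨y, hy, hfy, fun z hz hfz => h2 z y hz hy (by rw [hfz, hfy])⟩
  · intro y hy
    have hxy : x ≠ y := hy.ne
    refine ⟨?_, ?_⟩
    · intro u v c huv hu hv
      have hgy : f (Equiv.swap x y y) = none := by rw [Equiv.swap_apply_right]; exact hx
      have huy : u ≠ y := by
        rintro rfl
        simp only [Equiv.swap_apply_right] at hu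
        rw [hx] at hu
        simp at hu
      have hvy : v ≠ y := by
        rintro rfl
        simp only [Equiv.swap_apply_right] at hv
        rw [hx] at hv
        simp at hv
      by_cases hux : u = x
      · subst hux
        have hvu : v ≠ u := huv.symm.ne
        simp only [Equiv.swap_apply_left] at hu
        simp only [Equiv.swap_apply_of_ne_of_ne hvu hvy] at hv
        exact hvy (h2 v y huv hy (by rw [hv, hu]))
      · simp only [Equiv.swap_apply_of_ne_of_ne hux huy] at hu
        by_cases hvx : v = x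
        · subst hvx
          simp only [Equiv.swap_apply_left] at hv
          exact huy (h2 u y huv.symm hy (by rw [hu, hv]))
        · simp only [Equiv.swap_apply_of_ne_of_ne hvx hvy] at hv
          exact hm.1 u v c huv hu hv
    · intro f' hf'
      rw [cnt_equiv]
      exact hm.2 f' hf'

end

end Pool.Agent.Work.MP_47f387_co.Large

end

section

/-!
# MP_47f387_co: item E2, two-coloured components through a hole are 2-regular
-/

namespace Pool.Agent.Work.MP_47f387_co.Large

open Finset Classical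

noncomputable section

theorem prfE2 (h1 : E1) : E2 := by
  intro d V _ G f x i j hBD hM hx hij w hw
  have key : ∃ g : V → Option (Fin d), MinH G g ∧ g w = none ∧
      ∀ v, (v = w ∨ g v = some i ∨ g v = some j) ↔ v ∈ UU f x i j := by
    induction hw with
    | refl => exact ⟨f, hM, hx, fun v => Iff.rfl⟩
    | @tail w w' _ hstep ih =>
      obtain ⟨g, hg, hgw, hgU⟩ := ih
      obtain ⟨hadj, hwU, hwU'⟩ := hstep
      have hne : w' ≠ w := hadj.ne'
      refine ⟨fun v => g (Equiv.swap w w' v), (h1 d V G g w hBD hg hgw).2.2 w' hadj, ?_, ?_⟩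
      · simp only [Equiv.swap_apply_right]
        exact hgw
      · intro v
        by_cases hv : v = w'
        · subst hv
          exact ⟨fun _ => hwU', fun _ => Or.inl rfl⟩
        by_cases hv2 : v = w
        · subst hv2
          refine ⟨fun _ => hwU, fun _ => ?_⟩
          simp only [Equiv.swap_apply_left]
          exact Or.inr (((hgU w').2 hwU').resolve_left hne)
        · have h3 := hgU v
          simp only [Equiv.swap_apply_of_ne_of_ne hv2 hv]
          constructor
          · intro h
            exact h3.1 (Or.inr (h.resolve_left hv))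
          · intro h
            exact Or.inr ((h3.2 h).resolve_left hv2)
  obtain ⟨g, hg, hgw, hgU⟩ := key
  obtain ⟨_, hall, _⟩ := h1 d V G g w hBD hg hgw
  obtain ⟨yi, hyi, hyi2, hyi3⟩ := hall i
  obtain ⟨yj, hyj, hyj2, hyj3⟩ := hall j
  have hne : yi ≠ yj := by
    intro h
    rw [h, hyj2] at hyi2
    exact hij (Option.some.inj hyi2).symm
  have heq : univ.filter (fun z => G.Adj w z ∧ z ∈ UU f x i j) = {yi, yj} := by
    ext z
    simp only [mem_filter, mem_univ, true_and, mem_insert, mem_singleton]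
    constructor
    · rintro ⟨h2, h3⟩
      rcases (hgU z).2 h3 with h | h | h
      · exact absurd h h2.ne'
      · exact Or.inl (hyi3 z h2 h)
      · exact Or.inr (hyj3 z h2 h)
    · rintro (h | h)
      · rw [h]
        exact ⟨hyi, (hgU yi).1 (Or.inr (Or.inl hyi2))⟩
      · rw [h]
        exact ⟨hyj, (hgU yj).1 (Or.inr (Or.inr hyj2))⟩
  rw [heq]
  exact card_pair hne

end

end Pool.Agent.Work.MP_47f387_co.Large

end

section

/-!
# MP_47f387_co: item E3, two two-coloured components through a hole meet only next to it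
-/

namespace Pool.Agent.Work.MP_47f387_co.Large

open Finset Classical

noncomputable section

namespace ITE3

lemma rc_mem {V : Type} {G : SimpleGraph V} {U : Set V} {x v : V} (h : Rc G U x v) :
    v = x ∨ v ∈ U := by
  cases h with
  | refl => exact Or.inl rfl
  | tail _ h => exact Or.inr h.2.2

lemma two_nb {V : Type} [Fintype V] {G : SimpleGraph V} {d : ℕ} {f : V → Option (Fin d)}
    (h2 : E2) (hBD : BD d G) (hM : MinH G f) {x : V} (hx : f x = none) {i j : Fin d}
    (hij : i ≠ j) {w : V} (hw : Rc G (UU f x i j) x w) (hna : ¬ G.Adj x w) (hfw : f w = some i) :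
    (univ.filter (fun z => G.Adj w z ∧ f z = some j)).card = 2 := by
  rw [← h2 d V G f x i j hBD hM hx hij w hw]
  congr 1
  ext z
  simp only [mem_filter, mem_univ, true_and]
  constructor
  · rintro ⟨h3, h4⟩
    exact ⟨h3, Or.inr (Or.inr h4)⟩
  · rintro ⟨h3, h4⟩
    refine ⟨h3, ?_⟩
    rcases h4 with h4 | h4 | h4
    · rw [h4] at h3
      exact absurd h3.symm hna
    · exact absurd h4 (hM.1 w z i h3 hfw)
    · exact h4

end ITE3

open ITE3 in
theorem prfE3 (h1 : E1) (h2 : E2) : E3 := by
  intro d V _ G f x i j k hBD hM hx hij hik hjk w hw1 hw2 hwx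
  by_contra hna
  have hfw : f w = some i := by
    have a1 := (rc_mem hw1).resolve_left hwx
    have a2 := (rc_mem hw2).resolve_left hwx
    rcases a1 with h | h | h
    · exact absurd h hwx
    · exact h
    · rcases a2 with h' | h' | h'
      · exact absurd h' hwx
      · exact h'
      · rw [h] at h'
        exact absurd (Option.some.inj h') hjk
  have c1 := two_nb h2 hBD hM hx hij hw1 hna hfw
  have c2 := two_nb h2 hBD hM hx hik hw2 hna hfw
  -- a colour which is not seen
  obtain ⟨l, hli, hlj, hlk, hl⟩ : ∃ l, l ≠ i ∧ l ≠ j ∧ l ≠ k ∧ ∀ z, G.Adj w z → f z ≠ some l := by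
    by_contra hcon
    push Not at hcon
    haveI : Nonempty V := ⟨w⟩
    choose! y hy using hcon
    have hd : ((((univ : Finset (Fin d)).erase i).erase j).erase k).card = d - 3 := by
      rw [card_erase_of_mem, card_erase_of_mem, card_erase_of_mem (mem_univ i), card_univ,
        Fintype.card_fin]
      · omega
      · simp [hij.symm]
      · simp [hik.symm, hjk.symm]
    set T := (((univ : Finset (Fin d)).erase i).erase j).erase k with hT
    have hTm : ∀ l, l ∈ T ↔ l ≠ i ∧ l ≠ j ∧ l ≠ k := by
      intro l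
      simp only [hT, mem_erase, mem_univ, and_true]
      tauto
    have hinj : ∀ l ∈ T, ∀ l' ∈ T, y l = y l' → l = l' := by
      intro l hl l' hl' h
      have e1 := (hy l ((hTm l).1 hl).1 ((hTm l).1 hl).2.1 ((hTm l).1 hl).2.2).2
      have e2 := (hy l' ((hTm l').1 hl').1 ((hTm l').1 hl').2.1 ((hTm l').1 hl').2.2).2
      rw [h, e2] at e1
      exact (Option.some.inj e1).symm
    have hcI : (T.image y).card = d - 3 := by
      rw [card_image_of_injOn (fun l hl l' hl' h => hinj l hl l' hl' h), hd]
    have hdj1 : Disjoint (univ.filter (fun z => G.Adj w z ∧ f z = some j))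
        (univ.filter (fun z => G.Adj w z ∧ f z = some k)) := by
      rw [disjoint_left]
      intro z hz hz'
      have e1 := (mem_filter.1 hz).2.2
      have e2 := (mem_filter.1 hz').2.2
      rw [e1] at e2
      exact hjk (Option.some.inj e2)
    have hdj2 : Disjoint (univ.filter (fun z => G.Adj w z ∧ f z = some j) ∪
        univ.filter (fun z => G.Adj w z ∧ f z = some k)) (T.image y) := by
      rw [disjoint_left]
      intro z hz hz'
      obtain ⟨l, hl, rfl⟩ := mem_image.1 hz'
      have e1 := (hy l ((hTm l).1 hl).1 ((hTm l).1 hl).2.1 ((hTm l).1 hl).2.2).2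
      rcases mem_union.1 hz with h | h
      · have e2 := (mem_filter.1 h).2.2
        rw [e1] at e2
        exact ((hTm l).1 hl).2.1 (Option.some.inj e2)
      · have e2 := (mem_filter.1 h).2.2
        rw [e1] at e2
        exact ((hTm l).1 hl).2.2 (Option.some.inj e2)
    have hsub : (univ.filter (fun z => G.Adj w z ∧ f z = some j) ∪
        univ.filter (fun z => G.Adj w z ∧ f z = some k)) ∪ (T.image y) ⊆
        univ.filter (fun u => G.Adj w u) := by
      intro z hz
      simp only [mem_filter, mem_univ, true_and]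
      rcases mem_union.1 hz with h | h
      · rcases mem_union.1 h with h | h
        · exact (mem_filter.1 h).2.1
        · exact (mem_filter.1 h).2.1
      · obtain ⟨l, hl, rfl⟩ := mem_image.1 h
        exact (hy l ((hTm l).1 hl).1 ((hTm l).1 hl).2.1 ((hTm l).1 hl).2.2).1
    have h5 := (card_le_card hsub).trans (hBD w)
    rw [card_union_of_disjoint hdj2, card_union_of_disjoint hdj1, c1, c2, hcI] at h5
    have hd3 : 3 ≤ d := by
      have h6 : ({i, j, k} : Finset (Fin d)).card = 3 := by
        rw [card_insert_of_notMem (by simp [hij, hik]), card_pair hjk]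
      have h7 := card_le_univ ({i, j, k} : Finset (Fin d))
      rw [h6, Fintype.card_fin] at h7
      exact h7
    omega
  -- recolour
  have hxw : x ≠ w := fun h => hwx h.symm
  set f2 : V → Option (Fin d) := fun v => if v = w then some l else f v with hf2
  have hf2w : f2 w = some l := by simp [hf2]
  have hf2o : ∀ v, v ≠ w → f2 v = f v := by
    intro v hv
    simp [hf2, hv]
  have hP2 : Proper G f2 := by
    intro u v c hadj hu hv
    by_cases h : u = w
    · subst h
      rw [hf2w] at hu
      rw [hf2o v hadj.ne'] at hv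
      exact hl v hadj (by rw [hv, ← hu])
    · rw [hf2o u h] at hu
      by_cases h' : v = w
      · subst h'
        rw [hf2w] at hv
        exact hl u hadj.symm (by rw [hu, ← hv])
      · rw [hf2o v h'] at hv
        exact hM.1 u v c hadj hu hv
  have hcnt : cnt f2 none = cnt f none := by
    unfold cnt
    congr 1
    ext v
    simp only [mem_filter, mem_univ, true_and]
    by_cases h : v = w
    · rw [h, hf2w, hfw]
      simp
    · rw [hf2o v h]
  have hM2 : MinH G f2 := by
    refine ⟨hP2, fun f' hf' => ?_⟩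
    rw [hcnt]
    exact hM.2 f' hf'
  have hf2x : f2 x = none := by rw [hf2o x hxw, hx]
  have hU : ∀ v, v ∈ UU f2 x i j ↔ v ∈ UU f x i j ∧ v ≠ w := by
    intro v
    by_cases h : v = w
    · subst h
      constructor
      · rintro (h3 | h3 | h3)
        · exact absurd h3 hwx
        · rw [hf2w] at h3
          exact absurd (Option.some.inj h3) hli
        · rw [hf2w] at h3
          exact absurd (Option.some.inj h3) hlj
      · rintro ⟨_, h3⟩
        exact absurd rfl h3
    · constructor
      · rintro (h3 | h3 | h3)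
        · exact ⟨Or.inl h3, h⟩
        · rw [hf2o v h] at h3
          exact ⟨Or.inr (Or.inl h3), h⟩
        · rw [hf2o v h] at h3
          exact ⟨Or.inr (Or.inr h3), h⟩
      · rintro ⟨h3 | h3 | h3, _⟩
        · exact Or.inl h3
        · rw [← hf2o v h] at h3
          exact Or.inr (Or.inl h3)
        · rw [← hf2o v h] at h3
          exact Or.inr (Or.inr h3)
  have hreach : ∀ v, Rc G (UU f x i j) x v → Rc G (UU f2 x i j) x v := by
    intro v hv
    induction hv with
    | refl => exact Relation.ReflTransGen.refl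
    | @tail v v' hv hstep ih =>
      obtain ⟨hadj, hvU, hvU'⟩ := hstep
      have e1 := h2 d V G f x i j hBD hM hx hij v hv
      have e2 := h2 d V G f2 x i j hBD hM2 hf2x hij v ih
      have hsub : univ.filter (fun z => G.Adj v z ∧ z ∈ UU f2 x i j) ⊆
          univ.filter (fun z => G.Adj v z ∧ z ∈ UU f x i j) := by
        intro z hz
        have h3 := (mem_filter.1 hz).2
        exact mem_filter.2 ⟨mem_univ _, h3.1, ((hU z).1 h3.2).1⟩
      have heq := eq_of_subset_of_card_le hsub (by rw [e1, e2])
      have hv'm : v' ∈ univ.filter (fun z => G.Adj v z ∧ z ∈ UU f2 x i j) := by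
        rw [heq]
        exact mem_filter.2 ⟨mem_univ _, hadj, hvU'⟩
      have hvm : v ∈ UU f2 x i j := by
        rcases rc_mem ih with h | h
        · exact Or.inl h
        · exact h
      exact Relation.ReflTransGen.tail ih ⟨hadj, hvm, (mem_filter.1 hv'm).2.2⟩
  rcases rc_mem (hreach w hw1) with h | h
  · exact hwx h
  · exact ((hU w).1 h).2 rfl

end

end Pool.Agent.Work.MP_47f387_co.Large

end

section

/-!
# MP_47f387_co, item E4: the neighbours of a hole are pairwise adjacent
-/

namespace Pool.Agent.Work.MP_47f387_co.Large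

open Finset Classical

noncomputable section

namespace ITE4

variable {V : Type} {d : ℕ}

lemma rc_mem {G : SimpleGraph V} {U : Set V} {x v : V} (h : Rc G U x v) : v = x ∨ v ∈ U := by
  rcases Relation.ReflTransGen.cases_tail h with h | ⟨c, -, h⟩
  · exact Or.inl h
  · exact Or.inr h.2.2

lemma rc_step {G : SimpleGraph V} {U : Set V} {x v w : V} (h : Rc G U x v) (hv : v ∈ U)
    (hw : w ∈ U) (ha : G.Adj v w) : Rc G U x w :=
  Relation.ReflTransGen.tail h ⟨ha, hv, hw⟩

/-- exchange of the colours `i` and `k` in the component of `x` -/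
def fl (G : SimpleGraph V) (f : V → Option (Fin d)) (x : V) (i k : Fin d) :
    V → Option (Fin d) :=
  fun v => if Rc G (UU f x i k) x v ∧ v ≠ x then (f v).map (Equiv.swap i k) else f v

lemma fl_none {G : SimpleGraph V} {f : V → Option (Fin d)} {x : V} {i k : Fin d} (v : V) :
    fl G f x i k v = none ↔ f v = none := by
  unfold fl
  split_ifs
  · simp
  · rfl

lemma swap_cases {f : V → Option (Fin d)} {x u : V} {i k c : Fin d}
    (hu : u ∈ UU f x i k) (hux : u ≠ x) (h : (f u).map (Equiv.swap i k) = some c) :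
    c = i ∨ c = k := by
  rcases hu with hu | hu | hu
  · exact absurd hu hux
  · rw [hu] at h
    simp at h
    exact Or.inr h.symm
  · rw [hu] at h
    simp at h
    exact Or.inl h.symm

lemma fl_aux {G : SimpleGraph V} {f : V → Option (Fin d)} {x : V} {i k : Fin d}
    (hx : f x = none) {u v : V} {c : Fin d} (hadj : G.Adj u v)
    (h1 : Rc G (UU f x i k) x u ∧ u ≠ x) (h2 : ¬ (Rc G (UU f x i k) x v ∧ v ≠ x))
    (hu : (f u).map (Equiv.swap i k) = some c) (hv : f v = some c) : False := by
  have hvx : v ≠ x := by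
    rintro rfl
    rw [hx] at hv
    cases hv
  have huU : u ∈ UU f x i k := by
    rcases rc_mem h1.1 with h | h
    · exact absurd h h1.2
    · exact h
  apply h2
  refine ⟨?_, hvx⟩
  apply rc_step h1.1 huU _ hadj
  rcases swap_cases huU h1.2 hu with h | h
  · subst h; exact Or.inr (Or.inl hv)
  · subst h; exact Or.inr (Or.inr hv)

lemma fl_proper {G : SimpleGraph V} {f : V → Option (Fin d)} {x : V} {i k : Fin d}
    (hf : Proper G f) (hx : f x = none) : Proper G (fl G f x i k) := by
  intro u v c hadj hu hv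
  unfold fl at hu hv
  split_ifs at hu hv with h1 h2 h2
  · rw [Option.map_eq_some_iff] at hu hv
    obtain ⟨a, ha, hac⟩ := hu
    obtain ⟨b, hb, hbc⟩ := hv
    have hab : a = b := (Equiv.swap i k).injective (hac.trans hbc.symm)
    subst hab
    exact hf u v a hadj ha hb
  · exact fl_aux hx hadj h1 h2 hu hv
  · exact fl_aux hx hadj.symm h2 h1 hv hu
  · exact hf u v c hadj hu hv

lemma fl_minH [Fintype V] {G : SimpleGraph V} {f : V → Option (Fin d)} {x : V} {i k : Fin d}
    (hf : MinH G f) (hx : f x = none) : MinH G (fl G f x i k) := by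
  refine ⟨fl_proper hf.1 hx, ?_⟩
  intro f' hf'
  have : cnt (fl G f x i k) none = cnt f none := by
    unfold cnt
    congr 1
    ext v
    simp only [mem_filter, mem_univ, true_and]
    exact fl_none v
  rw [this]
  exact hf.2 f' hf'

/-- the handshake argument -/
lemma handshake [Fintype V] (G : SimpleGraph V) (E : Set V) (x : V) (hx : x ∈ E)
    (h1 : (univ.filter (fun z => G.Adj x z ∧ z ∈ E)).card = 1)
    (h2 : ∀ v ∈ E, v ≠ x → (univ.filter (fun z => G.Adj v z ∧ z ∈ E)).card = 2) : False := by
  let H : SimpleGraph V :=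
    { Adj := fun a b => G.Adj a b ∧ a ∈ E ∧ b ∈ E
      symm := ⟨fun a b h => ⟨h.1.symm, h.2.2, h.2.1⟩⟩
      loopless := ⟨fun a h => G.loopless.irrefl a h.1⟩ }
  have hdeg : ∀ v ∈ E, H.degree v = (univ.filter (fun z => G.Adj v z ∧ z ∈ E)).card := by
    intro v hv
    rw [← SimpleGraph.card_neighborFinset_eq_degree]
    congr 1
    ext z
    simp only [SimpleGraph.mem_neighborFinset, mem_filter, mem_univ, true_and, H]
    exact ⟨fun h => ⟨h.1, h.2.2⟩, fun h => ⟨h.1, hv, h.2⟩⟩
  have hdeg0 : ∀ v, v ∉ E → H.degree v = 0 := by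
    intro v hv
    rw [← SimpleGraph.card_neighborFinset_eq_degree, card_eq_zero, eq_empty_iff_forall_notMem]
    intro z hz
    rw [SimpleGraph.mem_neighborFinset] at hz
    exact hv hz.2.1
  have hodd : (univ.filter (fun v => Odd (H.degree v))) = {x} := by
    ext v
    simp only [mem_filter, mem_univ, true_and, mem_singleton]
    constructor
    · intro ho
      by_contra hvx
      by_cases hv : v ∈ E
      · rw [hdeg v hv, h2 v hv hvx] at ho
        exact absurd ho (by decide)
      · rw [hdeg0 v hv] at ho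
        exact absurd ho (by decide)
    · rintro rfl
      rw [hdeg v hx, h1]
      decide
  have hev := H.even_card_odd_degree_vertices
  have : (univ.filter (fun v => Odd (H.degree v))).card = 1 := by
    rw [hodd]; rfl
  rw [this] at hev
  exact absurd hev (by decide)

end ITE4

open ITE4 in
theorem prfE4 (h1 : E1) (h2 : E2) (h3 : E3) : E4 := by
  intro d V _ G f x y z hd hBD hM hx hxy hxz hyz
  obtain ⟨n1, n2, -⟩ := h1 d V G f x hBD hM hx
  -- colours
  obtain ⟨i, hi⟩ := Option.ne_none_iff_exists'.1 (n1 y hxy)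
  obtain ⟨j, hj⟩ := Option.ne_none_iff_exists'.1 (n1 z hxz)
  have uniq : ∀ c a b, G.Adj x a → G.Adj x b → f a = some c → f b = some c → a = b := by
    intro c a b ha hb hac hbc
    obtain ⟨w, -, -, hw⟩ := n2 c
    rw [hw a ha hac, hw b hb hbc]
  have hij : i ≠ j := by
    rintro rfl
    exact hyz (uniq i y z hxy hxz hi hj)
  obtain ⟨k, hki, hkj⟩ : ∃ k : Fin d, k ≠ i ∧ k ≠ j := by
    have : ({i, j} : Finset (Fin d)).card < (univ : Finset (Fin d)).card := by
      rw [card_univ, Fintype.card_fin]
      exact lt_of_le_of_lt card_le_two (by omega)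
    obtain ⟨k, -, hk⟩ := exists_mem_notMem_of_card_lt_card this
    simp only [mem_insert, mem_singleton, not_or] at hk
    exact ⟨k, hk.1, hk.2⟩
  by_contra hnadj
  have hxU : ∀ g : V → Option (Fin d), ∀ a b, x ∈ UU g x a b := fun g a b => Or.inl rfl
  have hyx : y ≠ x := hxy.ne'
  have hzx : z ≠ x := hxz.ne'
  have hyU : y ∈ UU f x i j := Or.inr (Or.inl hi)
  have hzU : z ∈ UU f x i j := Or.inr (Or.inr hj)
  have hRy : Rc G (UU f x i j) x y := rc_step Relation.ReflTransGen.refl (hxU _ _ _) hyU hxy
  have hRz : Rc G (UU f x i j) x z := rc_step Relation.ReflTransGen.refl (hxU _ _ _) hzU hxz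
  -- the second neighbour `u` of `y`
  have hcard := h2 d V G f x i j hBD hM hx hij y hRy
  have hxmem : x ∈ univ.filter (fun w => G.Adj y w ∧ w ∈ UU f x i j) := by
    simp [hxy.symm, hxU f i j]
  obtain ⟨u, hu⟩ : ∃ u, (univ.filter (fun w => G.Adj y w ∧ w ∈ UU f x i j)).erase x = {u} := by
    rw [← card_eq_one, card_erase_of_mem hxmem, hcard]
  have hu' : u ∈ (univ.filter (fun w => G.Adj y w ∧ w ∈ UU f x i j)).erase x := by
    rw [hu]; exact mem_singleton_self u
  rw [mem_erase, mem_filter] at hu'
  obtain ⟨hux, -, hyu, huU⟩ := hu'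
  have honly : ∀ w, G.Adj y w → w ∈ UU f x i j → w ≠ x → w = u := by
    intro w hw hwU hwx
    have : w ∈ (univ.filter (fun w => G.Adj y w ∧ w ∈ UU f x i j)).erase x := by
      rw [mem_erase, mem_filter]
      exact ⟨hwx, mem_univ _, hw, hwU⟩
    rw [hu] at this
    exact mem_singleton.1 this
  have hfu : f u = some j := by
    rcases huU with h | h | h
    · exact absurd h hux
    · exact absurd h (hM.1 y u i hyu hi)
    · exact h
  have hnxu : ¬ G.Adj x u := by
    intro h
    have := uniq j u z h hxz hfu hj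
    exact hnadj (this ▸ hyu)
  -- the new colouring
  have hM' : MinH G (fl G f x i k) := fl_minH hM hx
  have hx' : fl G f x i k x = none := (fl_none x).2 hx
  have hC : ∀ v, Rc G (UU f x i k) x v → v ≠ x → f v = some i ∨ f v = some k := by
    intro v hv hvx
    rcases rc_mem hv with h | h | h
    · exact absurd h hvx
    · exact absurd h hvx
    · exact h
  have hy' : fl G f x i k y = some k := by
    have : Rc G (UU f x i k) x y :=
      rc_step Relation.ReflTransGen.refl (hxU _ _ _) (Or.inr (Or.inl hi)) hxy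
    unfold fl
    rw [if_pos ⟨this, hyx⟩, hi]
    simp
  have hu'' : fl G f x i k u = some j := by
    unfold fl
    rw [if_neg]
    · exact hfu
    · rintro ⟨h, -⟩
      rcases hC u h hux with h' | h'
      · rw [hfu] at h'
        exact hij (Option.some.inj h').symm
      · rw [hfu] at h'
        exact hkj (Option.some.inj h').symm
  -- (a)
  have hA : Rc G (UU (fl G f x i k) x j k) x u := by
    have hyU' : y ∈ UU (fl G f x i k) x j k := Or.inr (Or.inr hy')
    have huU' : u ∈ UU (fl G f x i k) x j k := Or.inr (Or.inl hu'')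
    exact rc_step (rc_step Relation.ReflTransGen.refl (hxU _ _ _) hyU' hxy) hyU' huU' hyu
  -- (b)
  have hsame : ∀ v, Rc G (UU f x i j) x v → v ≠ y → fl G f x i k v = f v := by
    intro v hv hvy
    unfold fl
    rw [if_neg]
    rintro ⟨h, hvx⟩
    have hadj := h3 d V G f x i j k hBD hM hx hij hki.symm hkj.symm v hv h hvx
    have hfv : f v = some i := by
      rcases rc_mem hv with h' | h' | h' | h'
      · exact absurd h' hvx
      · exact absurd h' hvx
      · exact h'
      · rcases hC v h hvx with h'' | h''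
        · exact h''
        · rw [h'] at h''
          exact absurd (Option.some.inj h'').symm hkj
    exact hvy (uniq i v y hadj hxy hfv hi)
  have hB : Rc G (UU (fl G f x i k) x j i) x u := by
    by_contra hnu
    let E : Set V := {v | Rc G (UU (fl G f x i k) x j i) x v ∧ Rc G (UU f x i j) x v ∧ v ≠ y}
    have hxE : x ∈ E := ⟨Relation.ReflTransGen.refl, Relation.ReflTransGen.refl, hyx.symm⟩
    have hEU : ∀ v ∈ E, v ∈ UU f x i j := by
      rintro v ⟨-, hv, -⟩
      rcases rc_mem hv with h | h
      · rw [h]; exact hxU _ _ _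
      · exact h
    have hEU' : ∀ v ∈ E, v ∈ UU (fl G f x i k) x j i := by
      rintro v ⟨hv, -, -⟩
      rcases rc_mem hv with h | h
      · rw [h]; exact hxU _ _ _
      · exact h
    -- extension
    have hext : ∀ v ∈ E, ∀ w, G.Adj v w → w ∈ UU f x i j → w ≠ y → w ∈ E := by
      intro v hv w hvw hw hwy
      have hRw : Rc G (UU f x i j) x w := rc_step hv.2.1 (hEU v hv) hw hvw
      refine ⟨?_, hRw, hwy⟩
      apply rc_step hv.1 (hEU' v hv) _ hvw
      rcases hw with h | h | h
      · exact Or.inl h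
      · right; right
        rw [hsame w hRw hwy]; exact h
      · right; left
        rw [hsame w hRw hwy]; exact h
    apply handshake G E x hxE
    · rw [card_eq_one]
      refine ⟨z, ?_⟩
      ext w
      simp only [mem_filter, mem_univ, true_and, mem_singleton]
      constructor
      · rintro ⟨hw, hwE⟩
        rcases hEU w hwE with h | h | h
        · exact absurd h hw.ne'
        · exact absurd (uniq i w y hw hxy h hi) hwE.2.2
        · exact uniq j w z hw hxz h hj
      · rintro rfl
        exact ⟨hxz, hext x hxE w hxz hzU hyz.symm⟩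
    · intro v hv hvx
      rw [← h2 d V G f x i j hBD hM hx hij v hv.2.1]
      congr 1
      ext w
      simp only [mem_filter, mem_univ, true_and]
      constructor
      · rintro ⟨hw, hwE⟩
        exact ⟨hw, hEU w hwE⟩
      · rintro ⟨hw, hwU⟩
        refine ⟨hw, hext v hv w hw hwU ?_⟩
        rintro rfl
        have := honly v hw.symm (hEU v hv) hvx
        rw [this] at hv
        exact hnu hv.1
  exact hnxu (h3 d V G (fl G f x i k) x j i k hBD hM' hx' hij.symm hkj.symm hki.symm u hB hA hux)

end

end Pool.Agent.Work.MP_47f387_co.Large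

end

section

/-!
# MP_47f387_co: item E5, Brooks' theorem
-/

namespace Pool.Agent.Work.MP_47f387_co.Large

open Finset Classical

noncomputable section

theorem prfE5 (h1 : E1) (h4 : E4) : E5 := by
  intro d V _ G hd hbd hcf
  obtain ⟨f, hf⟩ : ∃ f : V → Option (Fin d), MinH G f := by
    have hne : (univ.filter (fun f : V → Option (Fin d) => Proper G f)).Nonempty :=
      ⟨fun _ => none, by
        rw [mem_filter]
        exact ⟨mem_univ _, fun u v c _ h => absurd h (by simp)⟩⟩
    obtain ⟨f, hf, hmin⟩ := exists_min_image _ (fun f => cnt f none) hne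
    exact ⟨f, (mem_filter.1 hf).2, fun f' hf' => hmin f' (mem_filter.2 ⟨mem_univ _, hf'⟩)⟩
  have htot : ∀ x, ∃ c, f x = some c := by
    intro x
    by_contra hx
    have hx' : f x = none := by
      rcases h : f x with _ | c
      · rfl
      · exact absurd ⟨c, h⟩ hx
    obtain ⟨-, hE, -⟩ := h1 d V G f x hbd hf hx'
    choose y hy using hE
    have hinj : Function.Injective y := by
      intro c c' h
      have h2 := (hy c).2.1
      rw [h, (hy c').2.1] at h2
      exact (Option.some.inj h2).symm
    have hadj : ∀ c c', c ≠ c' → G.Adj (y c) (y c') := fun c c' h =>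
      h4 d V G f x (y c) (y c') hd hbd hf hx' (hy c).1 (hy c').1 fun h' => h (hinj h')
    refine hcf (insert x (univ.image y)) ⟨?_, ?_⟩
    · rw [coe_insert, SimpleGraph.isClique_insert]
      refine ⟨?_, ?_⟩
      · intro a ha b hb hab
        rw [mem_coe, mem_image] at ha hb
        obtain ⟨c, -, rfl⟩ := ha
        obtain ⟨c', -, rfl⟩ := hb
        exact hadj c c' fun h => hab (by rw [h])
      · intro b hb _
        rw [mem_coe, mem_image] at hb
        obtain ⟨c, -, rfl⟩ := hb
        exact (hy c).1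
    · rw [card_insert_of_notMem, card_image_of_injective _ hinj, card_univ, Fintype.card_fin]
      intro h
      rw [mem_image] at h
      obtain ⟨c, -, h⟩ := h
      exact G.loopless.irrefl x (by have := (hy c).1; rwa [h] at this)
  choose g hg using htot
  refine ⟨fun c => (univ.filter (fun v => g v = c)).card, g, ?_, fun c => rfl⟩
  intro u _ v _ huv h
  exact hf.1 u v (g u) huv (hg u) (by rw [hg v, h])

end

end Pool.Agent.Work.MP_47f387_co.Large

end

section

/-!
# MP_47f387_co, item P1: colourings of components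
-/

namespace Pool.Agent.Work.MP_47f387_co.Large

open Finset Classical

noncomputable section

theorem prfP1 : P1 := by
  intro d V _ G w _ h
  choose gk hgk hcard using h
  have hmem : ∀ v, v ∈ (G.connectedComponentMk v) := fun v =>
    SimpleGraph.ConnectedComponent.connectedComponentMk_mem
  have htr : ∀ (v : V) (k : G.ConnectedComponent) (hv : v ∈ k),
      gk (G.connectedComponentMk v) ⟨v, hmem v⟩ = gk k ⟨v, hv⟩ := by
    intro v k hv
    have hk : G.connectedComponentMk v = k := hv
    subst hk
    rfl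
  refine ⟨fun v => gk (G.connectedComponentMk v) ⟨v, hmem v⟩, ?_, ?_⟩
  · intro u _ v _ huv
    have hk : G.connectedComponentMk u = G.connectedComponentMk v :=
      SimpleGraph.ConnectedComponent.sound huv.reachable
    have hu : u ∈ G.connectedComponentMk v := hk
    beta_reduce
    rw [htr u (G.connectedComponentMk v) hu]
    exact hgk (G.connectedComponentMk v) ⟨u, hu⟩ (mem_univ _) ⟨v, hmem v⟩ (mem_univ _) huv
  · intro c
    rw [card_eq_sum_card_fiberwise (f := fun v => G.connectedComponentMk v) (t := univ)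
      (by intro x _; exact mem_coe.2 (mem_univ _))]
    apply sum_congr rfl
    intro k _
    rw [← hcard k c]
    symm
    refine card_bij (fun x _ => (x : V)) ?_ ?_ ?_
    · intro x hx
      rw [mem_filter] at hx
      rw [mem_filter, mem_filter]
      refine ⟨⟨mem_univ _, ?_⟩, ?_⟩
      · beta_reduce
        rw [htr x.1 k x.2]
        exact hx.2
      · exact x.2
    · intro x _ y _ hxy
      exact Subtype.ext hxy
    · intro v hv
      rw [mem_filter, mem_filter] at hv
      have hvk : v ∈ k := hv.2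
      refine ⟨⟨v, hvk⟩, ?_, rfl⟩
      rw [mem_filter]
      refine ⟨mem_univ _, ?_⟩
      rw [← htr v k hvk]
      exact hv.1.2

end

end Pool.Agent.Work.MP_47f387_co.Large

end

section

/-!
# MP_47f387_co, item P2: induced subgraphs
-/

namespace Pool.Agent.Work.MP_47f387_co.Large

open Finset Classical

noncomputable section

theorem prfP2 : P2 := by
  intro d V _ G S hd
  refine ⟨?_, ?_, ?_, ?_⟩
  · intro h v
    refine le_trans ?_ (h v.1)
    unfold Deg
    refine card_le_card_of_injOn (fun x : S => (x : V)) ?_ ?_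
    · intro x hx
      simp only [coe_filter, mem_univ, true_and, Set.mem_ofPred_eq] at hx ⊢
      exact hx
    · intro x _ y _ hxy
      exact Subtype.ext hxy
  · intro k hk
    exact hk.comap ⟨(SimpleGraph.Embedding.induce S).toCopy⟩
  · intro h X Y hX hY hadj
    refine h (X.map (Function.Embedding.subtype _)) (Y.map (Function.Embedding.subtype _))
      (by rw [card_map, hX]) (by rw [card_map, hY]) ?_
    intro x hx y hy
    rw [mem_map] at hx hy
    obtain ⟨x', hx', rfl⟩ := hx
    obtain ⟨y', hy', rfl⟩ := hy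
    exact hadj x' hx' y' hy'
  · rintro t ⟨g', hg', hc⟩
    refine ⟨fun v => if h : v ∈ S then g' ⟨v, h⟩ else ⟨0, hd⟩, ?_, ?_⟩
    · intro u hu v hv huv
      rw [mem_filter] at hu hv
      beta_reduce
      rw [dif_pos hu.2, dif_pos hv.2]
      exact hg' ⟨u, hu.2⟩ (mem_univ _) ⟨v, hv.2⟩ (mem_univ _) huv
    · intro c
      rw [← hc c]
      symm
      refine card_bij (fun x _ => (x : V)) ?_ ?_ ?_
      · intro x hx
        rw [mem_filter] at hx
        rw [mem_filter, mem_filter]
        refine ⟨⟨mem_univ _, x.2⟩, ?_⟩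
        beta_reduce
        rw [dif_pos x.2]
        exact hx.2
      · intro x _ y _ hxy
        exact Subtype.ext hxy
      · intro v hv
        rw [mem_filter, mem_filter] at hv
        refine ⟨⟨v, hv.1.2⟩, ?_, rfl⟩
        rw [mem_filter]
        refine ⟨mem_univ _, ?_⟩
        have h2 := hv.2
        beta_reduce at h2
        rw [dif_pos hv.1.2] at h2
        exact h2

end

end Pool.Agent.Work.MP_47f387_co.Large

end

section

/-!
# MP_47f387_co: extension of a colouring to a `K_d` (item R1)
-/

namespace Pool.Agent.Work.MP_47f387_co.Large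

open Finset Classical

noncomputable section

namespace ITR1

/-- the neighbours outside the clique -/
def Out {V : Type} (G : SimpleGraph V) (S B : Finset V) (b : V) : Finset V :=
  (S \ B).filter fun z => G.Adj b z

/-- admissible colours -/
def Li {V : Type} {d : ℕ} (G : SimpleGraph V) (S B : Finset V) (g : V → Fin d) (b : V) :
    Finset (Fin d) := univ \ (Out G S B b).image g

theorem out_le {V : Type} [Fintype V] {d : ℕ} {G : SimpleGraph V} {S B : Finset V} (hd : 2 ≤ d)
    (hG : BD d G) (hB : G.IsNClique d B) {b : V} (hb : b ∈ B) : (Out G S B b).card ≤ 1 := by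
  have h1 : (B.erase b) ∪ Out G S B b ⊆ univ.filter (fun u => G.Adj b u) := by
    intro u hu
    rw [mem_filter]
    refine ⟨mem_univ _, ?_⟩
    rcases mem_union.1 hu with h | h
    · exact hB.1 hb (mem_coe.2 (mem_of_mem_erase h)) (ne_of_mem_erase h).symm
    · exact (mem_filter.1 h).2
  have h2 : Disjoint (B.erase b) (Out G S B b) := by
    rw [Finset.disjoint_left]
    intro u hu hu'
    exact (mem_sdiff.1 (mem_filter.1 hu').1).2 (mem_of_mem_erase hu)
  have h3 := card_le_card h1
  rw [card_union_of_disjoint h2, card_erase_of_mem hb, hB.2] at h3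
  have h4 := hG b
  unfold Deg at h4
  omega

theorem li_ge {V : Type} [Fintype V] {d : ℕ} {G : SimpleGraph V} {S B : Finset V} (hd : 2 ≤ d)
    (hG : BD d G) (hB : G.IsNClique d B) (g : V → Fin d) {b : V} (hb : b ∈ B) :
    d - 1 ≤ (Li G S B g b).card := by
  unfold Li
  rw [card_sdiff_of_subset (subset_univ _), card_univ, Fintype.card_fin]
  have h1 := out_le (S := S) hd hG hB hb
  have h2 : ((Out G S B b).image g).card ≤ 1 := card_image_le.trans h1
  omega

theorem mem_Li {V : Type} {d : ℕ} {G : SimpleGraph V} {S B : Finset V} {g : V → Fin d} {b : V}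
    {c : Fin d} : c ∈ Li G S B g b ↔ ∀ z ∈ S \ B, G.Adj b z → g z ≠ c := by
  unfold Li Out
  simp only [mem_sdiff, mem_univ, true_and, mem_image, mem_filter, not_exists, not_and]
  constructor
  · intro h z hz ha he
    exact h z ⟨hz, ha⟩ he
  · intro h z hz he
    exact h z hz.1 hz.2 he

end ITR1

open ITR1 in
theorem prfR1 : R1 := by
  intro d V _ G S B hd hG hB hBS g hg hno
  have hcard : Fintype.card {b // b ∈ B} = d := by
    rw [Fintype.card_coe]; exact hB.2
  have hall : ∀ s : Finset {b // b ∈ B}, s.card ≤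
      (s.biUnion fun b => Li G S B g b.1).card := by
    intro s
    rcases s.eq_empty_or_nonempty with hs | ⟨b, hb⟩
    · rw [hs]; simp
    by_cases hu : s = univ
    · have h1 : (s.biUnion fun b => Li G S B g b.1) = univ := by
        apply eq_univ_of_forall
        intro c
        push Not at hno
        obtain ⟨b, hb, hz⟩ := hno c
        rw [mem_biUnion]
        exact ⟨⟨b, hb⟩, by rw [hu]; exact mem_univ _, mem_Li.2 hz⟩
      rw [h1, hu, card_univ, card_univ, hcard, Fintype.card_fin]
    · have h1 : s.card < d := by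
        have := card_lt_card ((subset_univ s).ssubset_of_ne hu)
        rwa [card_univ, hcard] at this
      have h2 := li_ge (S := S) hd hG hB g b.2
      have h3 : (Li G S B g b.1).card ≤ (s.biUnion fun b => Li G S B g b.1).card :=
        card_le_card (subset_biUnion_of_mem (fun b : {b // b ∈ B} => Li G S B g b.1) hb)
      omega
  obtain ⟨h, hinj, hmem⟩ := (Finset.all_card_le_biUnion_card_iff_exists_injective _).1 hall
  have hbij : Function.Bijective h := by
    rw [Fintype.bijective_iff_injective_and_card]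
    exact ⟨hinj, by rw [hcard, Fintype.card_fin]⟩
  have hmem' : ∀ (b : V) (hb : b ∈ B), ∀ z ∈ S \ B, G.Adj b z → g z ≠ h ⟨b, hb⟩ :=
    fun b hb => mem_Li.1 (hmem ⟨b, hb⟩)
  refine ⟨fun v => if hv : v ∈ B then h ⟨v, hv⟩ else g v, ?_, ?_⟩
  · intro u hu v hv huv
    by_cases hub : u ∈ B <;> by_cases hvb : v ∈ B
    · simp only [hub, hvb, dif_pos]
      intro he
      have := hinj he
      exact huv.ne (congrArg Subtype.val this)
    · simp only [hub, hvb, dif_pos, dif_neg, not_false_eq_true]
      exact (hmem' u hub v (mem_sdiff.2 ⟨hv, hvb⟩) huv).symm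
    · simp only [hub, hvb, dif_pos, dif_neg, not_false_eq_true]
      exact hmem' v hvb u (mem_sdiff.2 ⟨hu, hub⟩) huv.symm
    · simp only [hub, hvb, dif_neg, not_false_eq_true]
      exact hg u (mem_sdiff.2 ⟨hu, hub⟩) v (mem_sdiff.2 ⟨hv, hvb⟩) huv
  · intro c
    obtain ⟨b, hb⟩ := hbij.2 c
    have hset : (S.filter fun v => (if hv : v ∈ B then h ⟨v, hv⟩ else g v) = c) =
        insert b.1 ((S \ B).filter fun v => g v = c) := by
      ext v
      rw [mem_filter, mem_insert, mem_filter, mem_sdiff]
      constructor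
      · rintro ⟨hv, he⟩
        by_cases hvb : v ∈ B
        · rw [dif_pos hvb] at he
          left
          have := hinj (he.trans hb.symm)
          exact congrArg Subtype.val this
        · rw [dif_neg hvb] at he
          exact Or.inr ⟨⟨hv, hvb⟩, he⟩
      · rintro (he | ⟨⟨hv, hvb⟩, he⟩)
        · subst he
          refine ⟨hBS b.2, ?_⟩
          rw [dif_pos b.2]
          exact hb
        · refine ⟨hv, ?_⟩
          rw [dif_neg hvb]
          exact he
    rw [hset, card_insert_of_notMem]
    intro hcon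
    exact (mem_sdiff.1 (mem_filter.1 hcon).1).2 b.2

end

end Pool.Agent.Work.MP_47f387_co.Large

end

section

namespace Pool.Agent.Work.MP_47f387_co.Large

open Finset Classical

noncomputable section

namespace ITR2

/-- a vertex of a `K_d` has at most one neighbour outside -/
theorem uniq {d : ℕ} {V : Type} [Fintype V] {G : SimpleGraph V} {B : Finset V}
    (hBD : BD d G) (hB : G.IsNClique d B) {b z z1 : V} (hb : b ∈ B) (hz : z ∉ B)
    (hz1 : z1 ∉ B) (h : G.Adj b z) (h1 : G.Adj b z1) : z1 = z := by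
  by_contra hne
  have hsub : insert z (insert z1 (B.erase b)) ⊆ univ.filter (fun u => G.Adj b u) := by
    intro u hu
    rw [Finset.mem_filter]
    refine ⟨Finset.mem_univ _, ?_⟩
    rcases Finset.mem_insert.mp hu with h2 | h2
    · rw [h2]
      exact h
    · rcases Finset.mem_insert.mp h2 with h3 | h3
      · rw [h3]
        exact h1
      · exact hB.isClique hb (Finset.mem_of_mem_erase h3) (Ne.symm (Finset.ne_of_mem_erase h3))
  have hcard := Finset.card_le_card hsub
  have e1 : z1 ∉ B.erase b := fun h2 => hz1 (Finset.mem_of_mem_erase h2)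
  have e2 : z ∉ insert z1 (B.erase b) := by
    intro h2
    rcases Finset.mem_insert.mp h2 with h3 | h3
    · exact hne h3.symm
    · exact hz (Finset.mem_of_mem_erase h3)
  rw [Finset.card_insert_of_notMem e2, Finset.card_insert_of_notMem e1,
    Finset.card_erase_of_mem hb, hB.card_eq] at hcard
  have hpos : 0 < B.card := Finset.card_pos.mpr ⟨b, hb⟩
  rw [hB.card_eq] at hpos
  have h5 : (univ.filter (fun u => G.Adj b u)).card ≤ d := hBD b
  omega

/-- `G - B` -/
def del {V : Type} (G : SimpleGraph V) (B : Finset V) : SimpleGraph V where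
  Adj u v := G.Adj u v ∧ u ∉ B ∧ v ∉ B
  symm := ⟨fun _ _ h => ⟨h.1.symm, h.2.2, h.2.1⟩⟩
  loopless := ⟨fun _ h => G.loopless.irrefl _ h.1⟩

theorem del_le {V : Type} (G : SimpleGraph V) (B : Finset V) : del G B ≤ G := fun _ _ h => h.1

end ITR2

theorem prfR2 (h1 : R1) : R2 := by
  intro d V _ G S B hd hI hBD hcf hB hBS hcase
  have hle := ITR2.del_le G B
  refine ⟨ITR2.del G B, ?_, ?_, ?_, ?_, ?_, fun v hv u h => hv u h.1, ?_⟩
  · intro u v h
    have h2 := hI u v h.1
    exact ⟨Finset.mem_sdiff.mpr ⟨h2.1, h.2.1⟩, Finset.mem_sdiff.mpr ⟨h2.2, h.2.2⟩⟩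
  · intro v
    refine le_trans ?_ (hBD v)
    apply Finset.card_le_card
    intro u hu
    rw [Finset.mem_filter] at hu ⊢
    exact ⟨hu.1, hu.2.1⟩
  · exact hcf.anti hle
  · intro s hs
    exact hs.mono hle
  · intro hK X Y hX hY hXY
    exact hK X Y hX hY (fun x hx y hy => (hXY x hx y hy).1)
  · intro t ht
    obtain ⟨g, hg, hc⟩ := ht
    have hg' : ∀ u ∈ S \ B, ∀ v ∈ S \ B, G.Adj u v → g u ≠ g v := by
      intro u hu v hv h
      exact hg u hu v hv ⟨h, (Finset.mem_sdiff.mp hu).2, (Finset.mem_sdiff.mp hv).2⟩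
    have hno : ¬ ∃ c, ∀ b ∈ B, ∃ z ∈ S \ B, G.Adj b z ∧ g z = c := by
      rintro ⟨c, hcc⟩
      rcases hcase with ⟨b, hb, hb2⟩ | ⟨b, hb, b', hb', z, z', hz, hz', hbz, hbz', hzz⟩
      · obtain ⟨z, hz, hbz, _⟩ := hcc b hb
        exact hb2 z (Finset.mem_sdiff.mp hz).2 hbz
      · obtain ⟨z1, hz1, hbz1, hgz1⟩ := hcc b hb
        obtain ⟨z2, hz2, hbz2, hgz2⟩ := hcc b' hb'
        have e1 := ITR2.uniq hBD hB hb hz (Finset.mem_sdiff.mp hz1).2 hbz hbz1
        have e2 := ITR2.uniq hBD hB hb' hz' (Finset.mem_sdiff.mp hz2).2 hbz' hbz2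
        subst e1
        subst e2
        exact hg' _ hz1 _ hz2 hzz (hgz1.trans hgz2.symm)
    have h2 := h1 d V G S B (by omega) hBD hB hBS g hg' hno
    have h3 : (fun c => ((S \ B).filter (fun v => g v = c)).card + 1)
        = (fun c => t c + 1) := by
      funext c
      rw [hc c]
    rw [h3] at h2
    exact h2

end

end Pool.Agent.Work.MP_47f387_co.Large

end

section

/-!
# MP_47f387_co: item R3, the choice of the new edge
-/

namespace Pool.Agent.Work.MP_47f387_co.Large

open Finset Classical

noncomputable section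

namespace ITR3

variable {V : Type} [Fintype V] {G : SimpleGraph V} {d : ℕ}

lemma hdeg (hBD : BD d G) (v : V) (S : Finset V) (hS : ∀ u ∈ S, G.Adj v u) : S.card ≤ d := by
  refine le_trans (Finset.card_le_card ?_) (hBD v)
  intro u hu
  simp [hS u hu]

lemma hfull (hBD : BD d G) (v : V) (S : Finset V) (hS : ∀ u ∈ S, G.Adj v u) (hc : S.card = d)
    (u : V) (hu : G.Adj v u) : u ∈ S := by
  by_contra hn
  have h := hdeg hBD v (insert u S) (by
    intro w hw
    rcases mem_insert.1 hw with h | h
    · rw [h]; exact hu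
    · exact hS w h)
  rw [card_insert_of_notMem hn] at h
  omega

lemma huniq (hd : 5 ≤ d) (hBD : BD d G) (B : Finset V) (hB : G.IsNClique d B) (b : V) (hb : b ∈ B)
    (z z' : V) (hz : z ∉ B) (hz' : z' ∉ B) (hbz : G.Adj b z) (hbz' : G.Adj b z') : z = z' := by
  have h := hfull hBD b (insert z (B.erase b)) (by
    intro w hw
    rcases mem_insert.1 hw with h | h
    · rw [h]; exact hbz
    · exact hB.isClique (mem_coe.2 hb) (mem_coe.2 (mem_of_mem_erase h))
        (ne_of_mem_erase h).symm) (by
    rw [card_insert_of_notMem (fun h => hz (mem_of_mem_erase h)), card_erase_of_mem hb,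
      hB.card_eq]
    omega) z' hbz'
  rcases mem_insert.1 h with h | h
  · exact h.symm
  · exact absurd (mem_of_mem_erase h) hz'

/-- the good properties of a pair -/
def GP (d : ℕ) (G : SimpleGraph V) (B : Finset V) (y y' : V) : Prop :=
  (∀ Q : Finset V, G.IsNClique (d - 2) Q → ¬ ∀ q ∈ Q, G.Adj y q ∧ G.Adj y' q) ∧
  ∀ X Y : Finset V, X.card = d → Y.card = d → y ∈ X → y' ∈ Y → Disjoint X B → Disjoint Y B →
    ¬ ∀ x ∈ X, ∀ z ∈ Y, G.Adj x z ∨ (x = y ∧ z = y') ∨ (x = y' ∧ z = y)

/-- case I: a pair which is bad for `K_{d,d}`: there is another good pair -/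
lemma caseI (hd : 5 ≤ d) (hBD : BD d G) (B : Finset V) (hB : G.IsNClique d B)
    (o : V → V) (ho1 : ∀ b ∈ B, o b ∉ B) (ho2 : ∀ b ∈ B, G.Adj b (o b))
    (hind : ∀ b ∈ B, ∀ b' ∈ B, ¬ G.Adj (o b) (o b'))
    (b b' : V) (hb : b ∈ B) (hb' : b' ∈ B) (hne : o b ≠ o b')
    (X Y : Finset V) (hX : X.card = d) (hY : Y.card = d) (hyX : o b ∈ X) (hyY : o b' ∈ Y)
    (hXB : Disjoint X B) (hYB : Disjoint Y B)
    (hadj : ∀ x ∈ X, ∀ z ∈ Y, G.Adj x z ∨ (x = o b ∧ z = o b') ∨ (x = o b' ∧ z = o b)) :
    ∃ b'' ∈ B, o b ≠ o b'' ∧ GP d G B (o b) (o b'') := by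
  have h1 : o b' ∉ X := by
    intro h
    rcases hadj _ h _ hyY with h2 | h2 | h2
    · exact G.loopless.irrefl _ h2
    · exact hne h2.1.symm
    · exact hne h2.2.symm
  have h2 : o b ∉ Y := by
    intro h
    rcases hadj _ hyX _ h with h2 | h2 | h2
    · exact G.loopless.irrefl _ h2
    · exact hne h2.2
    · exact hne h2.1
  have hadj' : ∀ x ∈ X, ∀ z ∈ Y, G.Adj x z ∨ (x = o b ∧ z = o b') := by
    intro x hx z hz
    rcases hadj _ hx _ hz with h | h | h
    · exact Or.inl h
    · exact Or.inr h
    · rw [h.1] at hx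
      exact absurd hx h1
  have hdisj : ∀ x ∈ X, x ∉ Y := by
    intro x hx hx'
    rcases hadj' x hx x hx' with h | h
    · exact G.loopless.irrefl _ h
    · exact hne (h.1.symm.trans h.2)
  -- neighbourhoods
  have hNx : ∀ x ∈ X, x ≠ o b → ∀ u, G.Adj x u → u ∈ Y := by
    intro x hx hxb u hu
    refine hfull hBD x Y ?_ hY u hu
    intro z hz
    rcases hadj' x hx z hz with h | h
    · exact h
    · exact absurd h.1 hxb
  have hNz : ∀ z ∈ Y, z ≠ o b' → ∀ u, G.Adj z u → u ∈ X := by
    intro z hz hzb u hu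
    refine hfull hBD z X ?_ hX u hu
    intro x hx
    rcases hadj' x hx z hz with h | h
    · exact h.symm
    · exact absurd h.2 hzb
  have hNy : ∀ u, G.Adj (o b) u → u = b ∨ (u ∈ Y ∧ u ≠ o b') := by
    intro u hu
    have h := hfull hBD (o b) (insert b (Y.erase (o b'))) (by
      intro z hz
      rcases mem_insert.1 hz with h | h
      · rw [h]; exact (ho2 b hb).symm
      · rcases hadj' _ hyX z (mem_of_mem_erase h) with h3 | h3
        · exact h3
        · exact absurd h3.2 (ne_of_mem_erase h)) (by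
      rw [card_insert_of_notMem (fun h => disjoint_left.1 hYB (mem_of_mem_erase h) hb),
        card_erase_of_mem hyY, hY]
      omega) u hu
    rcases mem_insert.1 h with h | h
    · exact Or.inl h
    · exact Or.inr ⟨mem_of_mem_erase h, ne_of_mem_erase h⟩
  have hNy' : ∀ u, G.Adj (o b') u → u = b' ∨ (u ∈ X ∧ u ≠ o b) := by
    intro u hu
    have h := hfull hBD (o b') (insert b' (X.erase (o b))) (by
      intro z hz
      rcases mem_insert.1 hz with h | h
      · rw [h]; exact (ho2 b' hb').symm
      · rcases hadj' z (mem_of_mem_erase h) _ hyY with h3 | h3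
        · exact h3.symm
        · exact absurd h3.1 (ne_of_mem_erase h)) (by
      rw [card_insert_of_notMem (fun h => disjoint_left.1 hXB (mem_of_mem_erase h) hb'),
        card_erase_of_mem hyX, hX]
      omega) u hu
    rcases mem_insert.1 h with h | h
    · exact Or.inl h
    · exact Or.inr ⟨mem_of_mem_erase h, ne_of_mem_erase h⟩
  -- the third element
  obtain ⟨b'', hb'', hnb, hnb'⟩ : ∃ b'' ∈ B, b'' ≠ b ∧ b'' ≠ b' := by
    have h : ((B.erase b).erase b').Nonempty := by
      rw [← card_pos]
      have h3 := pred_card_le_card_erase (s := B.erase b) (a := b')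
      rw [card_erase_of_mem hb, hB.card_eq] at h3
      omega
    obtain ⟨b'', h⟩ := h
    exact ⟨b'', mem_of_mem_erase (mem_of_mem_erase h), ne_of_mem_erase (mem_of_mem_erase h),
      ne_of_mem_erase h⟩
  have hy1 : o b ≠ o b'' := by
    intro h
    have h3 := (ho2 b'' hb'').symm
    rw [← h] at h3
    rcases hNy b'' h3 with h4 | h4
    · exact hnb h4
    · exact disjoint_left.1 hYB h4.1 hb''
  have hy2 : o b' ≠ o b'' := by
    intro h
    have h3 := (ho2 b'' hb'').symm
    rw [← h] at h3
    rcases hNy' b'' h3 with h4 | h4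
    · exact hnb' h4
    · exact disjoint_left.1 hXB h4.1 hb''
  -- elements outside
  obtain ⟨x0, hx0, hx0b⟩ : ∃ x0 ∈ X, x0 ≠ o b := by
    apply Finset.exists_mem_ne
    omega
  obtain ⟨z0, hz0, hz0b⟩ : ∃ z0 ∈ Y, z0 ≠ o b' := by
    apply Finset.exists_mem_ne
    omega
  refine ⟨b'', hb'', hy1, ?_, ?_⟩
  · intro Q hQ hall
    have hQc := hQ.card_eq
    have hQY : ∀ q ∈ Q, q ∈ Y ∧ q ≠ o b' := by
      intro q hq
      rcases hNy q (hall q hq).1 with h | h
      · exfalso
        rw [h] at hq
        exact hy1 (huniq hd hBD B hB b hb _ _ (ho1 b hb) (ho1 b'' hb'') (ho2 b hb)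
          (hall b hq).2.symm)
      · exact h
    have : Q.card ≤ 1 := by
      rw [card_le_one]
      intro q1 hq1 q2 hq2
      by_contra hn
      have h3 : G.Adj q1 q2 := hQ.isClique (mem_coe.2 hq1) (mem_coe.2 hq2) hn
      exact hdisj _ (hNz q1 (hQY q1 hq1).1 (hQY q1 hq1).2 q2 h3) (hQY q2 hq2).1
    omega
  · intro X2 Y2 hX2 hY2 hyX2 hyY2 hX2B hY2B hadj2
    have k2 : o b ∉ Y2 := by
      intro h
      rcases hadj2 _ hyX2 _ h with h2 | h2 | h2
      · exact G.loopless.irrefl _ h2
      · exact hy1 h2.2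
      · exact hy1 h2.1
    have k1 : o b'' ∉ X2 := by
      intro h
      rcases hadj2 _ h _ hyY2 with h2 | h2 | h2
      · exact G.loopless.irrefl _ h2
      · exact hy1 h2.1.symm
      · exact hy1 h2.2.symm
    have hadj2' : ∀ x ∈ X2, ∀ z ∈ Y2, G.Adj x z ∨ (x = o b ∧ z = o b'') := by
      intro x hx z hz
      rcases hadj2 _ hx _ hz with h | h | h
      · exact Or.inl h
      · exact Or.inr h
      · rw [h.1] at hx
        exact absurd hx k1
    have hsub : Y2.erase (o b'') ⊆ Y.erase (o b') := by
      intro z hz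
      have hz2 := mem_of_mem_erase hz
      rcases hadj2' _ hyX2 z hz2 with h | h
      · rcases hNy z h with h3 | h3
        · rw [h3] at hz2
          exact absurd hb (disjoint_left.1 hY2B hz2)
        · exact mem_erase.2 ⟨h3.2, h3.1⟩
      · exact absurd h.2 (ne_of_mem_erase hz)
    have heq : Y2.erase (o b'') = Y.erase (o b') := by
      apply eq_of_subset_of_card_le hsub
      rw [card_erase_of_mem hyY, card_erase_of_mem hyY2, hY, hY2]
    have hz0' : z0 ∈ Y2.erase (o b'') := by
      rw [heq]
      exact mem_erase.2 ⟨hz0b, hz0⟩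
    have hX2X : X2 ⊆ X := by
      intro x hx
      rcases hadj2' x hx z0 (mem_of_mem_erase hz0') with h | h
      · exact hNz z0 hz0 hz0b x h.symm
      · exact absurd h.2 (ne_of_mem_erase hz0')
    have hXeq : X2 = X := eq_of_subset_of_card_le hX2X (by rw [hX, hX2])
    have hx02 : x0 ∈ X2 := by rw [hXeq]; exact hx0
    rcases hadj2' x0 hx02 _ hyY2 with h | h
    · have h3 := hNx x0 hx0 hx0b _ h
      rcases hadj' _ hyX _ h3 with h4 | h4
      · exact hind b hb b'' hb'' h4
      · exact hy2 h4.2.symm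
    · exact hx0b h.1

/-- case II: all pairs are clique-bad, only possible in the exceptional component -/
lemma caseII (hd : 5 ≤ d) (hBD : BD d G) (B : Finset V) (hB : G.IsNClique d B)
    (o : V → V) (ho1 : ∀ b ∈ B, o b ∉ B) (ho2 : ∀ b ∈ B, G.Adj b (o b))
    (hind : ∀ b ∈ B, ∀ b' ∈ B, ¬ G.Adj (o b) (o b'))
    (b0 b0' : V) (hb0 : b0 ∈ B) (hb0' : b0' ∈ B) (hne : o b0 ≠ o b0')
    (hbad : ∀ b ∈ B, ∀ b' ∈ B, o b ≠ o b' →
      ∃ Q : Finset V, G.IsNClique (d - 2) Q ∧ ∀ q ∈ Q, G.Adj (o b) q ∧ G.Adj (o b') q) :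
    C13 d G B := by
  -- cliques avoid B
  have hQB : ∀ b ∈ B, ∀ b' ∈ B, o b ≠ o b' → ∀ q, G.Adj (o b) q → G.Adj (o b') q → q ∉ B := by
    intro b hb b' hb' hn q h1 h2 hq
    exact hn (huniq hd hBD B hB q hq _ _ (ho1 b hb) (ho1 b' hb') h1.symm h2.symm)
  have hfib : ∀ a ∈ B.image o, (B.filter (fun x => o x = a)).card ≤ 2 := by
    intro a ha
    obtain ⟨b, hb, rfl⟩ := mem_image.1 ha
    obtain ⟨b', hb', hn⟩ : ∃ b' ∈ B, o b ≠ o b' := by
      by_cases h : o b = o b0
      · exact ⟨b0', hb0', by rw [h]; exact hne⟩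
      · exact ⟨b0, hb0, h⟩
    obtain ⟨Q, hQ, hall⟩ := hbad b hb b' hb' hn
    have hdj : Disjoint Q (B.filter (fun x => o x = o b)) := by
      rw [disjoint_left]
      intro q hq hq'
      exact hQB b hb b' hb' hn q (hall q hq).1 (hall q hq).2 (mem_filter.1 hq').1
    have h := hdeg hBD (o b) (Q ∪ B.filter (fun x => o x = o b)) (by
      intro u hu
      rcases mem_union.1 hu with h | h
      · exact (hall u h).1
      · have h3 := mem_filter.1 h
        have h4 := ho2 u h3.1
        rw [h3.2] at h4
        exact h4.symm)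
    rw [card_union_of_disjoint hdj, hQ.card_eq] at h
    omega
  by_cases hc4 : ¬ 4 ≤ (B.image o).card
  · have h := card_le_mul_card_image B 2 hfib
    rw [hB.card_eq] at h
    have hd6 : d ≤ 6 := by omega
    have h3 : (B.image o).card = 3 := by omega
    refine ⟨hd6, ?_⟩
    have hsum : ∀ y1 y2 y3, B.image o = {y1, y2, y3} →
        B.card ≤ (B.filter (fun x => o x = y1)).card + (B.filter (fun x => o x = y2)).card +
        (B.filter (fun x => o x = y3)).card := by
      intro y1 y2 y3 himg
      have hsub : B ⊆ (B.filter (fun x => o x = y1)) ∪ (B.filter (fun x => o x = y2)) ∪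
          (B.filter (fun x => o x = y3)) := by
        intro b hb
        have hob : o b ∈ B.image o := mem_image_of_mem o hb
        rw [himg] at hob
        simp only [mem_insert, mem_singleton] at hob
        simp only [mem_union, mem_filter]
        tauto
      exact (card_le_card hsub).trans ((card_union_le _ _).trans
        (Nat.add_le_add_right (card_union_le _ _) _))
    obtain ⟨y1, y2, y3, h12, h13, h23, himg, e1, e2, e3⟩ : ∃ y1 y2 y3, y1 ≠ y2 ∧ y1 ≠ y3 ∧
        y2 ≠ y3 ∧ B.image o = {y1, y2, y3} ∧ (B.filter (fun x => o x = y1)).card = 2 ∧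
        (B.filter (fun x => o x = y2)).card = 2 ∧
        (d = 6 → (B.filter (fun x => o x = y3)).card = 2) := by
      obtain ⟨y1, y2, y3, h12, h13, h23, himg⟩ := card_eq_three.1 h3
      have hf1 := hfib y1 (by rw [himg]; simp)
      have hf2 := hfib y2 (by rw [himg]; simp)
      have hf3 := hfib y3 (by rw [himg]; simp)
      have hs := hsum y1 y2 y3 himg
      rw [hB.card_eq] at hs
      by_cases h1 : (B.filter (fun x => o x = y1)).card = 2
      · by_cases h2 : (B.filter (fun x => o x = y2)).card = 2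
        · exact ⟨y1, y2, y3, h12, h13, h23, himg, h1, h2, fun _ => by omega⟩
        · refine ⟨y1, y3, y2, h13, h12, h23.symm, ?_, h1, by omega, fun _ => by omega⟩
          rw [himg]
          ext z
          simp only [mem_insert, mem_singleton]
          tauto
      · refine ⟨y2, y3, y1, h23, h12.symm, h13.symm, ?_, by omega, by omega, fun _ => by omega⟩
        rw [himg]
        ext z
        simp only [mem_insert, mem_singleton]
        tauto
    have m1 : y1 ∈ B.image o := by rw [himg]; simp
    have m2 : y2 ∈ B.image o := by rw [himg]; simp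
    have m3 : y3 ∈ B.image o := by rw [himg]; simp
    obtain ⟨b1, hb1, rfl⟩ := mem_image.1 m1
    obtain ⟨b2, hb2, rfl⟩ := mem_image.1 m2
    obtain ⟨b3, hb3, rfl⟩ := mem_image.1 m3
    obtain ⟨Q, hQ, ha⟩ := hbad b1 hb1 b2 hb2 h12
    obtain ⟨Q', hQ', ha'⟩ := hbad b1 hb1 b3 hb3 h13
    have hQ4 : Q.card + 2 = d := by rw [hQ.card_eq]; omega
    have hQ4' : Q'.card = Q.card := by rw [hQ'.card_eq, hQ.card_eq]
    have hQd : ∀ q ∈ Q, q ∉ B := fun q hq =>
      hQB b1 hb1 b2 hb2 h12 q (ha q hq).1 (ha q hq).2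
    have hQd' : ∀ q ∈ Q', q ∉ B := fun q hq =>
      hQB b1 hb1 b3 hb3 h13 q (ha' q hq).1 (ha' q hq).2
    have hdisj : ∀ a, Disjoint Q (B.filter (fun x => o x = a)) := by
      intro a
      rw [disjoint_left]
      intro q hq hq'
      exact hQd q hq (mem_filter.1 hq').1
    have hfl : ∀ b, (∀ q ∈ Q, G.Adj (o b) q) → (B.filter (fun x => o x = o b)).card = 2 →
        ∀ u, G.Adj (o b) u → u ∈ Q ∪ B.filter (fun x => o x = o b) := by
      intro b hq hc
      refine hfull hBD (o b) _ ?_ ?_
      · intro w hw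
        rcases mem_union.1 hw with h | h
        · exact hq w h
        · have h4 := mem_filter.1 h
          have h5 := ho2 w h4.1
          rw [h4.2] at h5
          exact h5.symm
      · rw [card_union_of_disjoint (hdisj _), hc]
        exact hQ4
    have hfl' : ∀ b, (∀ q ∈ Q, G.Adj (o b) q) → (B.filter (fun x => o x = o b)).card = 2 →
        ∀ u, G.Adj (o b) u → u ∈ Q ∪ B := by
      intro b hq hc u hu
      rcases mem_union.1 (hfl b hq hc u hu) with h | h
      · exact mem_union_left _ h
      · exact mem_union_right _ (mem_filter.1 h).1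
    have q1 : ∀ q ∈ Q, G.Adj (o b1) q := fun q hq => (ha q hq).1
    have q2 : ∀ q ∈ Q, G.Adj (o b2) q := fun q hq => (ha q hq).2
    have hQQ : Q' = Q := by
      apply eq_of_subset_of_card_le
      · intro q hq
        rcases mem_union.1 (hfl' b1 q1 e1 q (ha' q hq).1) with h | h
        · exact h
        · exact absurd h (hQd' q hq)
      · exact hQ4'.ge
    have q3 : ∀ q ∈ Q, G.Adj (o b3) q := fun q hq => (ha' q (by rw [hQQ]; exact hq)).2
    have n1 : o b1 ∉ Q := fun h => G.loopless.irrefl _ (q1 _ h)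
    have n2 : o b2 ∉ Q := fun h => G.loopless.irrefl _ (q2 _ h)
    have n3 : o b3 ∉ Q := fun h => G.loopless.irrefl _ (q3 _ h)
    refine ⟨Q, o b1, o b2, o b3, b1, b2, hQ4, disjoint_left.2 hQd, ho1 b1 hb1, ho1 b2 hb2,
      ho1 b3 hb3, n1, n2, n3, h12, h13, h23, hb1, hb2, ho2 b1 hb1, ho2 b2 hb2,
      ⟨b3, (ho2 b3 hb3).symm⟩, q1, hfl' b1 q1 e1, hfl' b2 q2 e2,
      fun h => hfl' b3 q3 (e3 h), ?_⟩
    intro q hq v hv
    have hk := hfull hBD q (insert (o b1) (insert (o b2) (insert (o b3) (Q.erase q)))) (by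
      intro w hw
      rcases mem_insert.1 hw with h | hw
      · rw [h]; exact (q1 q hq).symm
      rcases mem_insert.1 hw with h | hw
      · rw [h]; exact (q2 q hq).symm
      rcases mem_insert.1 hw with h | hw
      · rw [h]; exact (q3 q hq).symm
      exact hQ.isClique (mem_coe.2 hq) (mem_coe.2 (mem_of_mem_erase hw))
        (ne_of_mem_erase hw).symm) (by
      rw [card_insert_of_notMem, card_insert_of_notMem, card_insert_of_notMem,
        card_erase_of_mem hq]
      · have := card_pos.2 ⟨q, hq⟩
        omega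
      · exact fun h => n3 (mem_of_mem_erase h)
      · intro h
        rcases mem_insert.1 h with h | h
        · exact h23 h
        · exact n2 (mem_of_mem_erase h)
      · intro h
        rcases mem_insert.1 h with h | h
        · exact h12 h
        rcases mem_insert.1 h with h | h
        · exact h13 h
        · exact n1 (mem_of_mem_erase h)) v hv
    rcases mem_insert.1 hk with h | hk
    · exact Or.inr (Or.inl h)
    rcases mem_insert.1 hk with h | hk
    · exact Or.inr (Or.inr (Or.inl h))
    rcases mem_insert.1 hk with h | hk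
    · exact Or.inr (Or.inr (Or.inr h))
    · exact Or.inl (mem_of_mem_erase hk)
  exfalso
  rw [not_not] at hc4
  have hmem : o b0 ∈ B.image o := mem_image_of_mem o hb0
  have hc3 : 2 < ((B.image o).erase (o b0)).card := by
    rw [card_erase_of_mem hmem]
    omega
  obtain ⟨y2, hy2, y3, hy3, y4, hy4, h23, h24, h34⟩ := two_lt_card.1 hc3
  obtain ⟨b2, hb2, rfl⟩ := mem_image.1 (mem_of_mem_erase hy2)
  obtain ⟨b3, hb3, rfl⟩ := mem_image.1 (mem_of_mem_erase hy3)
  obtain ⟨b4, hb4, rfl⟩ := mem_image.1 (mem_of_mem_erase hy4)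
  have n2 := (ne_of_mem_erase hy2).symm
  have n3 := (ne_of_mem_erase hy3).symm
  have n4 := (ne_of_mem_erase hy4).symm
  obtain ⟨Q2, hQ2, ha2⟩ := hbad b0 hb0 b2 hb2 n2
  obtain ⟨Q3, hQ3, ha3⟩ := hbad b0 hb0 b3 hb3 n3
  obtain ⟨Q4, hQ4, ha4⟩ := hbad b0 hb0 b4 hb4 n4
  have hQ2c := hQ2.card_eq
  have hQ3c := hQ3.card_eq
  have hQ4c := hQ4.card_eq
  -- all in N(y1) \ B
  have hunion : ∀ S : Finset V, (∀ u ∈ S, G.Adj (o b0) u) → b0 ∉ S → S.card ≤ d - 1 := by
    intro S hS hbS
    have h := hdeg hBD (o b0) (insert b0 S) (by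
      intro w hw
      rcases mem_insert.1 hw with h | h
      · rw [h]; exact (ho2 b0 hb0).symm
      · exact hS w h)
    rw [card_insert_of_notMem hbS] at h
    omega
  have i2 : b0 ∉ Q2 := fun h => hQB b0 hb0 b2 hb2 n2 b0 (ha2 b0 h).1 (ha2 b0 h).2 hb0
  have i3 : b0 ∉ Q3 := fun h => hQB b0 hb0 b3 hb3 n3 b0 (ha3 b0 h).1 (ha3 b0 h).2 hb0
  have i4 : b0 ∉ Q4 := fun h => hQB b0 hb0 b4 hb4 n4 b0 (ha4 b0 h).1 (ha4 b0 h).2 hb0
  have hU1 : (Q2 ∪ Q3).card ≤ d - 1 := hunion _ (by
    intro u hu
    rcases mem_union.1 hu with h | h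
    · exact (ha2 u h).1
    · exact (ha3 u h).1) (by
    intro h
    rcases mem_union.1 h with h | h
    · exact i2 h
    · exact i3 h)
  have hI1 := card_union_add_card_inter Q2 Q3
  have hU2 : ((Q2 ∩ Q3) ∪ Q4).card ≤ d - 1 := hunion _ (by
    intro u hu
    rcases mem_union.1 hu with h | h
    · exact (ha2 u (mem_inter.1 h).1).1
    · exact (ha4 u h).1) (by
    intro h
    rcases mem_union.1 h with h | h
    · exact i2 (mem_inter.1 h).1
    · exact i4 h)
  have hI2 := card_union_add_card_inter (Q2 ∩ Q3) Q4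
  have hpos : 0 < ((Q2 ∩ Q3) ∩ Q4).card := by omega
  obtain ⟨q, hq⟩ := card_pos.1 hpos
  have hq4 := (mem_inter.1 hq).2
  have hq3 := (mem_inter.1 (mem_inter.1 hq).1).2
  have hq2 := (mem_inter.1 (mem_inter.1 hq).1).1
  have j1 : o b0 ∉ Q2 := fun h => G.loopless.irrefl _ (ha2 _ h).1
  have j2 : o b2 ∉ Q2 := fun h => G.loopless.irrefl _ (ha2 _ h).2
  have j3 : o b3 ∉ Q2 := fun h => hind b0 hb0 b3 hb3 (ha2 _ h).1
  have j4 : o b4 ∉ Q2 := fun h => hind b0 hb0 b4 hb4 (ha2 _ h).1
  have hfin := hdeg hBD q (insert (o b0) (insert (o b2) (insert (o b3) (insert (o b4)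
    (Q2.erase q))))) (by
    intro w hw
    rcases mem_insert.1 hw with h | hw
    · rw [h]; exact (ha2 q hq2).1.symm
    rcases mem_insert.1 hw with h | hw
    · rw [h]; exact (ha2 q hq2).2.symm
    rcases mem_insert.1 hw with h | hw
    · rw [h]; exact (ha3 q hq3).2.symm
    rcases mem_insert.1 hw with h | hw
    · rw [h]; exact (ha4 q hq4).2.symm
    exact hQ2.isClique (mem_coe.2 hq2) (mem_coe.2 (mem_of_mem_erase hw))
      (ne_of_mem_erase hw).symm)
  have e4 : o b4 ∉ Q2.erase q := fun h => j4 (mem_of_mem_erase h)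
  have e3 : o b3 ∉ insert (o b4) (Q2.erase q) := by
    intro h
    rcases mem_insert.1 h with h | h
    · exact h34 h
    · exact j3 (mem_of_mem_erase h)
  have e2 : o b2 ∉ insert (o b3) (insert (o b4) (Q2.erase q)) := by
    intro h
    rcases mem_insert.1 h with h | h
    · exact h23 h
    rcases mem_insert.1 h with h | h
    · exact h24 h
    · exact j2 (mem_of_mem_erase h)
  have e1 : o b0 ∉ insert (o b2) (insert (o b3) (insert (o b4) (Q2.erase q))) := by
    intro h
    rcases mem_insert.1 h with h | h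
    · exact n2 h
    rcases mem_insert.1 h with h | h
    · exact n3 h
    rcases mem_insert.1 h with h | h
    · exact n4 h
    · exact j1 (mem_of_mem_erase h)
  rw [card_insert_of_notMem e1, card_insert_of_notMem e2, card_insert_of_notMem e3,
    card_insert_of_notMem e4, card_erase_of_mem hq2, hQ2c] at hfin
  omega

end ITR3

open ITR3 in
theorem prfR3 : R3 := by
  intro d V _ G B hd hBD hcf hB h1 h2
  choose! o ho1 ho2 using h1
  have hind : ∀ b ∈ B, ∀ b' ∈ B, ¬ G.Adj (o b) (o b') := fun b hb b' hb' =>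
    h2 b hb b' hb' _ _ (ho1 b hb) (ho1 b' hb') (ho2 b hb) (ho2 b' hb')
  -- two different outside neighbours
  obtain ⟨b0, hb0, b0', hb0', hne⟩ : ∃ b0 ∈ B, ∃ b0' ∈ B, o b0 ≠ o b0' := by
    by_contra hcon
    push Not at hcon
    have hBn : B.Nonempty := by
      rw [← card_pos, hB.card_eq]
      omega
    obtain ⟨b, hb⟩ := hBn
    refine hcf (insert (o b) B) ?_
    have h := hB.insert (a := o b) (by
      intro b' hb'
      rw [hcon b hb b' hb']
      exact (ho2 b' hb').symm)
    exact h
  by_contra hno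
  rw [not_or] at hno
  obtain ⟨hno0, hno⟩ := hno
  apply hno0
  have hno' : ∀ b ∈ B, ∀ b' ∈ B, o b ≠ o b' → ¬ GP d G B (o b) (o b') := by
    intro b hb b' hb' hn hgp
    exact hno ⟨b, hb, b', hb', o b, o b', ho1 b hb, ho1 b' hb', hn, ho2 b hb, ho2 b' hb',
      hgp.1, hgp.2⟩
  refine caseII hd hBD B hB o ho1 ho2 hind b0 b0' hb0 hb0' hne ?_
  intro b hb b' hb' hn
  by_contra hc
  push Not at hc
  apply hno' b hb b' hb' hn
  refine ⟨?_, ?_⟩
  · intro Q hQ hall
    obtain ⟨q, hq, h3⟩ := hc Q hQ
    exact h3 (hall q hq).1 (hall q hq).2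
  · intro X Y hX hY hyX hyY hXB hYB hadj
    obtain ⟨b'', hb'', hn', hgp⟩ := caseI hd hBD B hB o ho1 ho2 hind b b' hb hb' hn X Y hX hY
      hyX hyY hXB hYB hadj
    exact hno' b hb b'' hb'' hn' hgp

end

end Pool.Agent.Work.MP_47f387_co.Large

end

section

/-!
# R4: the reduction step with a new edge
-/

namespace Pool.Agent.Work.MP_47f387_co.Large

open Finset Classical

noncomputable section

namespace ITR4

/-- the new graph -/
def NG {V : Type} (G : SimpleGraph V) (B : Finset V) (y y' : V) (hy : y ≠ y') : SimpleGraph V where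
  Adj u v := (G.Adj u v ∧ u ∉ B ∧ v ∉ B) ∨ (u = y ∧ v = y') ∨ (u = y' ∧ v = y)
  symm := ⟨by
    intro u v h
    rcases h with ⟨h1, h2, h3⟩ | ⟨h1, h2⟩ | ⟨h1, h2⟩
    · exact Or.inl ⟨h1.symm, h3, h2⟩
    · exact Or.inr (Or.inr ⟨h2, h1⟩)
    · exact Or.inr (Or.inl ⟨h2, h1⟩)⟩
  loopless := ⟨by
    intro u h
    rcases h with ⟨h1, _, _⟩ | ⟨h1, h2⟩ | ⟨h1, h2⟩
    · exact h1.ne rfl
    · exact hy (h1.symm.trans h2)
    · exact hy (h2.symm.trans h1)⟩

variable {V : Type} {d : ℕ} {G : SimpleGraph V} {B : Finset V} {y y' : V}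

theorem adj_iff {hy : y ≠ y'} {u v : V} : (NG G B y y' hy).Adj u v ↔
    (G.Adj u v ∧ u ∉ B ∧ v ∉ B) ∨ (u = y ∧ v = y') ∨ (u = y' ∧ v = y) := Iff.rfl

theorem not_mem {hy : y ≠ y'} (hyB : y ∉ B) (hyB' : y' ∉ B) {u v : V}
    (h : (NG G B y y' hy).Adj u v) : u ∉ B ∧ v ∉ B := by
  rcases h with ⟨_, h2, h3⟩ | ⟨h1, h2⟩ | ⟨h1, h2⟩
  · exact ⟨h2, h3⟩
  · subst h1; subst h2; exact ⟨hyB, hyB'⟩
  · subst h1; subst h2; exact ⟨hyB', hyB⟩

/-- the outside neighbour is unique -/
theorem uniq [Fintype V] (hBD : BD d G) (hB : G.IsNClique d B) {b : V} (hb : b ∈ B) {z z' : V}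
    (hz : z ∉ B) (hz' : z' ∉ B) (h : G.Adj b z) (h' : G.Adj b z') : z = z' := by
  by_contra hne
  have hsub : insert z (insert z' (B.erase b)) ⊆ univ.filter (fun u => G.Adj b u) := by
    intro u hu
    rw [mem_insert, mem_insert, mem_erase] at hu
    rw [mem_filter]
    refine ⟨mem_univ _, ?_⟩
    rcases hu with rfl | rfl | ⟨h1, h2⟩
    · exact h
    · exact h'
    · exact hB.isClique (by exact_mod_cast hb) (by exact_mod_cast h2) (Ne.symm h1)
  have h1 := card_le_card hsub
  have h2 : (univ.filter (fun u => G.Adj b u)).card ≤ d := hBD b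
  rw [card_insert_of_notMem, card_insert_of_notMem, card_erase_of_mem hb, hB.card_eq] at h1
  · have h3 : 0 < d := by
      rw [← hB.card_eq]
      exact card_pos.mpr ⟨b, hb⟩
    omega
  · intro h3
    exact hz' (mem_of_mem_erase h3)
  · intro h3
    rw [mem_insert] at h3
    rcases h3 with h3 | h3
    · exact hne h3
    · exact hz (mem_of_mem_erase h3)

theorem bd [Fintype V] (hBD : BD d G) (hy : y ≠ y') (hyB : y ∉ B) (hyB' : y' ∉ B) {b b' : V} (hb : b ∈ B)
    (hb' : b' ∈ B) (h : G.Adj b y) (h' : G.Adj b' y') : BD d (NG G B y y' hy) := by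
  intro v
  unfold Deg
  have key : ∀ (p p' q : V), p ∉ B → q ∈ B → G.Adj q p →
      (univ.filter (fun u => (G.Adj p u ∧ u ∉ B) ∨ u = p')).card ≤ d := by
    intro p p' q _ hq hqp
    have hsub : univ.filter (fun u => (G.Adj p u ∧ u ∉ B) ∨ u = p') ⊆
        insert p' ((univ.filter (fun u => G.Adj p u)).erase q) := by
      intro u hu
      rw [mem_filter] at hu
      rw [mem_insert, mem_erase, mem_filter]
      rcases hu.2 with ⟨h1, h2⟩ | h1
      · refine Or.inr ⟨?_, mem_univ _, h1⟩
        rintro rfl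
        exact h2 hq
      · exact Or.inl h1
    have h1 := card_le_card hsub
    have h2 := card_insert_le p' ((univ.filter (fun u => G.Adj p u)).erase q)
    have hqm : q ∈ univ.filter (fun u => G.Adj p u) := by
      rw [mem_filter]
      exact ⟨mem_univ _, hqp.symm⟩
    rw [card_erase_of_mem hqm] at h2
    have h3 : (univ.filter (fun u => G.Adj p u)).card ≤ d := hBD p
    have h4 : 0 < (univ.filter (fun u => G.Adj p u)).card := card_pos.mpr ⟨q, hqm⟩
    omega
  by_cases hv : v = y
  · subst hv
    refine le_trans (card_le_card ?_) (key v y' b hyB hb h)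
    intro u hu
    rw [mem_filter] at hu ⊢
    refine ⟨mem_univ _, ?_⟩
    rcases hu.2 with ⟨h1, _, h3⟩ | ⟨_, h2⟩ | ⟨h1, _⟩
    · exact Or.inl ⟨h1, h3⟩
    · exact Or.inr h2
    · exact absurd h1 hy
  by_cases hv' : v = y'
  · subst hv'
    refine le_trans (card_le_card ?_) (key v y b' hyB' hb' h')
    intro u hu
    rw [mem_filter] at hu ⊢
    refine ⟨mem_univ _, ?_⟩
    rcases hu.2 with ⟨h1, _, h3⟩ | ⟨h1, _⟩ | ⟨_, h2⟩
    · exact Or.inl ⟨h1, h3⟩
    · exact absurd h1 hv
    · exact Or.inr h2
  · refine le_trans (card_le_card ?_) (hBD v)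
    intro u hu
    rw [mem_filter] at hu ⊢
    refine ⟨mem_univ _, ?_⟩
    rcases hu.2 with ⟨h1, _, _⟩ | ⟨h1, _⟩ | ⟨h1, _⟩
    · exact h1
    · exact absurd h1 hv
    · exact absurd h1 hv'

/-- cliques of the new graph -/
theorem clique {hy : y ≠ y'} {k : ℕ} {s : Finset V} (hs : (NG G B y y' hy).IsNClique k s) :
    G.IsNClique k s ∨ (y ∈ s ∧ y' ∈ s) := by
  by_cases hyy : y ∈ s ∧ y' ∈ s
  · exact Or.inr hyy
  · left
    rw [SimpleGraph.isNClique_iff] at hs ⊢
    refine ⟨?_, hs.2⟩
    intro u hu v hv huv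
    rcases hs.1 hu hv huv with ⟨h1, _, _⟩ | ⟨h1, h2⟩ | ⟨h1, h2⟩
    · exact h1
    · subst h1; subst h2
      exact absurd ⟨by exact_mod_cast hu, by exact_mod_cast hv⟩ hyy
    · subst h1; subst h2
      exact absurd ⟨by exact_mod_cast hv, by exact_mod_cast hu⟩ hyy

theorem no_big {hy : y ≠ y'} {k : ℕ} (hd : 2 ≤ d) (hk : d ≤ k) {s : Finset V}
    (hQ : ∀ Q : Finset V, G.IsNClique (d - 2) Q → ¬ ∀ q ∈ Q, G.Adj y q ∧ G.Adj y' q)
    (hs : (NG G B y y' hy).IsNClique k s) (h1 : y ∈ s) (h2 : y' ∈ s) : False := by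
  have hc : d - 2 ≤ ((s.erase y).erase y').card := by
    rw [card_erase_of_mem (mem_erase.2 ⟨hy.symm, h2⟩), card_erase_of_mem h1, hs.card_eq]
    omega
  obtain ⟨Q, hQs, hQc⟩ := exists_subset_card_eq hc
  have hG : ∀ u ∈ s, ∀ v ∈ s, u ≠ v → v ≠ y → v ≠ y' → G.Adj u v := by
    intro u hu v hv huv hvy hvy'
    rcases hs.isClique (by exact_mod_cast hu) (by exact_mod_cast hv) huv with
      ⟨h1, _, _⟩ | ⟨_, h2⟩ | ⟨_, h2⟩
    · exact h1
    · exact absurd h2 hvy'
    · exact absurd h2 hvy
  have hmem : ∀ q ∈ Q, q ∈ s ∧ q ≠ y ∧ q ≠ y' := by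
    intro q hq
    have h3 := hQs hq
    rw [mem_erase, mem_erase] at h3
    exact ⟨h3.2.2, h3.2.1, h3.1⟩
  apply hQ Q
  · rw [SimpleGraph.isNClique_iff]
    refine ⟨?_, hQc⟩
    intro u hu v hv huv
    have hu' := hmem u (by exact_mod_cast hu)
    have hv' := hmem v (by exact_mod_cast hv)
    exact hG u hu'.1 v hv'.1 huv hv'.2.1 hv'.2.2
  · intro q hq
    have hq' := hmem q hq
    exact ⟨hG y h1 q hq'.1 (Ne.symm hq'.2.1) hq'.2.1 hq'.2.2,
      hG y' h2 q hq'.1 (Ne.symm hq'.2.2) hq'.2.1 hq'.2.2⟩

end ITR4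

theorem prfR4 (h1 : R1) (h3 : R3) : R4 := by
  intro d V _ G S B hd hIns hBD hCF hB hBS hout hna hne
  obtain ⟨b, hb, b', hb', y, y', hyB, hyB', hy, hby, hby', hQ, hXY⟩ :=
    (h3 d V G B hd hBD hCF hB hout hna).resolve_left hne
  refine ⟨ITR4.NG G B y y' hy, ?_, ITR4.bd hBD hy hyB hyB' hb hb' hby hby', ?_, ?_, ?_, ?_, ?_⟩
  · -- inside
    intro u v huv
    have hn := ITR4.not_mem hyB hyB' huv
    have hyS : y ∈ S := (hIns b y hby).2
    have hyS' : y' ∈ S := (hIns b' y' hby').2
    rcases huv with ⟨h4, _, _⟩ | ⟨h4, h5⟩ | ⟨h4, h5⟩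
    · have := hIns u v h4
      exact ⟨mem_sdiff.2 ⟨this.1, hn.1⟩, mem_sdiff.2 ⟨this.2, hn.2⟩⟩
    · subst h4; subst h5
      exact ⟨mem_sdiff.2 ⟨hyS, hn.1⟩, mem_sdiff.2 ⟨hyS', hn.2⟩⟩
    · subst h4; subst h5
      exact ⟨mem_sdiff.2 ⟨hyS', hn.1⟩, mem_sdiff.2 ⟨hyS, hn.2⟩⟩
  · -- no clique of size d + 1
    intro s hs
    rcases ITR4.clique hs with h4 | ⟨h4, h5⟩
    · exact hCF s h4
    · exact ITR4.no_big (by omega) (by omega) hQ hs h4 h5
  · -- cliques of size d
    intro s hs
    rcases ITR4.clique hs with h4 | ⟨h4, h5⟩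
    · exact h4
    · exact (ITR4.no_big (by omega) le_rfl hQ hs h4 h5).elim
  · -- no K_{d,d}
    intro hKF X Y hX hY hall
    have hXne : X.Nonempty := card_pos.mp (by omega)
    have hYne : Y.Nonempty := card_pos.mp (by omega)
    obtain ⟨x0, hx0⟩ := hXne
    obtain ⟨z0, hz0⟩ := hYne
    have hXB : Disjoint X B := by
      rw [disjoint_left]
      intro x hx
      exact (ITR4.not_mem hyB hyB' (hall x hx z0 hz0)).1
    have hYB : Disjoint Y B := by
      rw [disjoint_left]
      intro z hz
      exact (ITR4.not_mem hyB hyB' (hall x0 hx0 z hz)).2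
    by_cases hc1 : y ∈ X ∧ y' ∈ Y
    · apply hXY X Y hX hY hc1.1 hc1.2 hXB hYB
      intro x hx z hz
      rcases hall x hx z hz with ⟨h4, _, _⟩ | h4 | h4
      · exact Or.inl h4
      · exact Or.inr (Or.inl h4)
      · exact Or.inr (Or.inr h4)
    by_cases hc2 : y ∈ Y ∧ y' ∈ X
    · apply hXY Y X hY hX hc2.1 hc2.2 hYB hXB
      intro x hx z hz
      rcases (hall z hz x hx).symm with ⟨h4, _, _⟩ | h4 | h4
      · exact Or.inl h4
      · exact Or.inr (Or.inl h4)
      · exact Or.inr (Or.inr h4)
    · apply hKF X Y hX hY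
      intro x hx z hz
      rcases hall x hx z hz with ⟨h4, _, _⟩ | ⟨h4, h5⟩ | ⟨h4, h5⟩
      · exact h4
      · subst h4; subst h5
        exact absurd ⟨hx, hz⟩ hc1
      · subst h4; subst h5
        exact absurd ⟨hz, hx⟩ hc2
  · -- isolated vertices
    intro v hv u huv
    rcases huv with ⟨h4, _, _⟩ | ⟨h4, _⟩ | ⟨h4, _⟩
    · exact hv u h4
    · exact hv b (by rw [h4]; exact hby.symm)
    · exact hv b' (by rw [h4]; exact hby'.symm)
  · -- extension of colourings
    rintro t ⟨g, hg, hgt⟩
    have hyS : y ∈ S \ B := mem_sdiff.2 ⟨(hIns b y hby).2, hyB⟩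
    have hyS' : y' ∈ S \ B := mem_sdiff.2 ⟨(hIns b' y' hby').2, hyB'⟩
    have h5 := h1 d V G S B (by omega) hBD hB hBS g (by
      intro u hu v hv huv
      exact hg u hu v hv (Or.inl ⟨huv, (mem_sdiff.1 hu).2, (mem_sdiff.1 hv).2⟩)) (by
      rintro ⟨c, hc⟩
      obtain ⟨z, hz, hbz, hgz⟩ := hc b hb
      obtain ⟨z', hz', hbz', hgz'⟩ := hc b' hb'
      have e1 : z = y := ITR4.uniq hBD hB hb (mem_sdiff.1 hz).2 hyB hbz hby
      have e2 : z' = y' := ITR4.uniq hBD hB hb' (mem_sdiff.1 hz').2 hyB' hbz' hby'
      subst e1; subst e2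
      exact hg z hyS z' hyS' (Or.inr (Or.inl ⟨rfl, rfl⟩)) (hgz.trans hgz'.symm))
    have e3 : (fun c => t c + 1) = fun c => ((S \ B).filter (fun v => g v = c)).card + 1 := by
      funext c
      rw [hgt c]
    rw [e3]
    exact h5

end

end Pool.Agent.Work.MP_47f387_co.Large

end

section

/-!
# MP_47f387_co: item R5, iteration of the reduction step
-/

namespace Pool.Agent.Work.MP_47f387_co.Large

open Finset Classical

noncomputable section

namespace ITR5

lemma clique_sub {V : Type} {G : SimpleGraph V} {S B : Finset V} {d : ℕ} (hd : 5 ≤ d)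
    (hI : Ins G S) (hB : G.IsNClique d B) : B ⊆ S := by
  intro b hb
  obtain ⟨b', hb', hne⟩ : ∃ b' ∈ B, b' ≠ b := by
    apply Finset.exists_mem_ne
    rw [hB.card_eq]
    omega
  exact (hI b b' (hB.isClique (mem_coe.2 hb) (mem_coe.2 hb') hne.symm)).1

/-- isolated vertex -/
def Isol {V : Type} (G : SimpleGraph V) (v : V) : Prop := ∀ u, ¬ G.Adj v u

/-- the number of isolated vertices -/
def iso {V : Type} (G : SimpleGraph V) (S : Finset V) : ℕ :=
  (S.filter (fun v => Isol G v)).card

end ITR5

theorem prfR6 (h1 : R1) : R6 := by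
  intro d V _ G S B hd hI hBD hB hBS hC
  obtain ⟨-, Q, y₁, y₂, y₃, b₁, b₂, hQ4, hQB, hy1B, hy2B, hy3B, hy1Q, hy2Q, hy3Q, h12, h13, h23,
    hb1, hb2, hb1y, hb2y, hy3u, hy1q, hN1, hN2, hN3, hNq⟩ := hC
  obtain ⟨T, hT⟩ : ∃ T : Finset V, T = insert y₁ (insert y₂ Q) := ⟨_, rfl⟩
  have hmemT : ∀ v, v ∈ T ↔ v = y₁ ∨ v = y₂ ∨ v ∈ Q := by
    intro v
    rw [hT, mem_insert, mem_insert]
  have hTc : T.card = d := by
    rw [hT, card_insert_of_notMem, card_insert_of_notMem hy2Q]
    · exact hQ4
    rw [mem_insert, not_or]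
    exact ⟨h12, hy1Q⟩
  have hy3T : y₃ ∉ T := by
    rw [hmemT]
    rintro (h | h | h)
    · exact h13 h.symm
    · exact h23 h.symm
    · exact hy3Q h
  have hTS : T ⊆ S \ B := by
    intro v hv
    rw [mem_sdiff]
    rcases (hmemT v).1 hv with h | h | h
    · subst h
      exact ⟨(hI b₁ v hb1y).2, hy1B⟩
    · subst h
      exact ⟨(hI b₂ v hb2y).2, hy2B⟩
    · exact ⟨(hI y₁ v (hy1q v h)).2, disjoint_left.1 hQB h⟩
  obtain ⟨u3, hu3⟩ := hy3u
  have hy3S : y₃ ∈ (S \ B) \ T := by
    rw [mem_sdiff, mem_sdiff]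
    exact ⟨⟨(hI y₃ u3 hu3).1, hy3B⟩, hy3T⟩
  have hK : ∀ v, v ∈ (S \ B) \ T → v ∉ B ∪ T := by
    intro v hv h
    rw [mem_sdiff, mem_sdiff] at hv
    rcases mem_union.1 h with h | h
    · exact hv.1.2 h
    · exact hv.2 h
  refine ⟨ITR2.del G (B ∪ T), T, hTS, hTc, ?_, ITR2.del_le _ _, ?_,
    fun h6 => ⟨y₃, hy3S, ⟨u3, hu3⟩, ?_⟩, ?_⟩
  · intro v hv
    rcases (hmemT v).1 hv with h | h | h
    · subst h
      exact ⟨b₁, hb1y.symm⟩
    · subst h
      exact ⟨b₂, hb2y.symm⟩
    · exact ⟨y₁, (hy1q v h).symm⟩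
  · intro u v huv
    obtain ⟨h2, h3, h4⟩ := huv
    rw [mem_union, not_or] at h3 h4
    rw [mem_sdiff, mem_sdiff, mem_sdiff, mem_sdiff]
    exact ⟨⟨⟨(hI u v h2).1, h3.1⟩, h3.2⟩, ⟨(hI u v h2).2, h4.1⟩, h4.2⟩
  · intro u h
    apply h.2.2
    rcases mem_union.1 (hN3 h6 u h.1) with h' | h'
    · exact mem_union_right _ ((hmemT u).2 (Or.inr (Or.inr h')))
    · exact mem_union_left _ h'
  · rintro t ⟨g, hg, hgt⟩
    -- the colouring on `T`
    obtain ⟨φ, hφ1, hφ2, hφ3, hφ4⟩ : ∃ φ : V → Fin d, (∀ u ∈ T, ∀ v ∈ T, φ u = φ v → u = v) ∧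
        φ y₁ = g y₃ ∧ (∀ v, v ∉ T → φ v = g v) ∧ ∀ c, ∃ v ∈ T, φ v = c := by
      have e : T ≃ Fin d := Finset.equivFinOfCardEq hTc
      have hy1T : y₁ ∈ T := (hmemT y₁).2 (Or.inl rfl)
      have hdef : ∀ v (h : v ∈ T), (fun v => if h : v ∈ T then
          (Equiv.swap (e ⟨y₁, hy1T⟩) (g y₃)) (e ⟨v, h⟩) else g v) v =
          (Equiv.swap (e ⟨y₁, hy1T⟩) (g y₃)) (e ⟨v, h⟩) := fun v h => dif_pos h
      refine ⟨fun v => if h : v ∈ T then (Equiv.swap (e ⟨y₁, hy1T⟩) (g y₃)) (e ⟨v, h⟩) else g v,
        ?_, ?_, ?_, ?_⟩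
      · intro u hu v hv huv
        rw [hdef u hu, hdef v hv] at huv
        have := e.injective ((Equiv.swap (e ⟨y₁, hy1T⟩) (g y₃)).injective huv)
        exact congrArg Subtype.val this
      · rw [hdef y₁ hy1T]
        exact Equiv.swap_apply_left _ _
      · intro v hv
        exact dif_neg hv
      · intro c
        refine ⟨(e.symm ((Equiv.swap (e ⟨y₁, hy1T⟩) (g y₃)) c)).1,
          (e.symm ((Equiv.swap (e ⟨y₁, hy1T⟩) (g y₃)) c)).2, ?_⟩
        rw [hdef _ (e.symm ((Equiv.swap (e ⟨y₁, hy1T⟩) (g y₃)) c)).2]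
        simp
    have hy1T : y₁ ∈ T := (hmemT y₁).2 (Or.inl rfl)
    have hy2T : y₂ ∈ T := (hmemT y₂).2 (Or.inr (Or.inl rfl))
    have hTo : ∀ u ∈ T, ∀ v ∈ S \ B, v ∉ T → G.Adj u v → φ u ≠ φ v := by
      intro u hu v hv hvT huv
      rw [mem_sdiff] at hv
      rcases (hmemT u).1 hu with h | h | h
      · subst h
        rcases mem_union.1 (hN1 v huv) with h' | h'
        · exact absurd ((hmemT v).2 (Or.inr (Or.inr h'))) hvT
        · exact absurd h' hv.2
      · subst h
        rcases mem_union.1 (hN2 v huv) with h' | h'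
        · exact absurd ((hmemT v).2 (Or.inr (Or.inr h'))) hvT
        · exact absurd h' hv.2
      · rcases hNq u h v huv with h' | h' | h' | h'
        · exact absurd ((hmemT v).2 (Or.inr (Or.inr h'))) hvT
        · exact absurd ((hmemT v).2 (Or.inl h')) hvT
        · exact absurd ((hmemT v).2 (Or.inr (Or.inl h'))) hvT
        · rw [h', hφ3 y₃ hy3T, ← hφ2]
          intro he
          have := hφ1 u hu y₁ hy1T he
          exact hy1Q (this ▸ h)
    have hprop : ∀ u ∈ S \ B, ∀ v ∈ S \ B, G.Adj u v → φ u ≠ φ v := by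
      intro u hu v hv huv
      by_cases huT : u ∈ T
      · by_cases hvT : v ∈ T
        · intro he
          exact huv.ne (hφ1 u huT v hvT he)
        · exact hTo u huT v hv hvT huv
      · by_cases hvT : v ∈ T
        · exact (hTo v hvT u hu huT huv.symm).symm
        · have hu' : u ∈ (S \ B) \ T := mem_sdiff.2 ⟨hu, huT⟩
          have hv' : v ∈ (S \ B) \ T := mem_sdiff.2 ⟨hv, hvT⟩
          rw [hφ3 u huT, hφ3 v hvT]
          exact hg u hu' v hv' ⟨huv, hK u hu', hK v hv'⟩
    have h5 := h1 d V G S B (by omega) hBD hB hBS φ hprop (by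
      rintro ⟨c, hc⟩
      obtain ⟨z, hz, hbz, hgz⟩ := hc b₁ hb1
      obtain ⟨z', hz', hbz', hgz'⟩ := hc b₂ hb2
      have e1 : z = y₁ := ITR2.uniq hBD hB hb1 hy1B (mem_sdiff.1 hz).2 hb1y hbz
      have e2 : z' = y₂ := ITR2.uniq hBD hB hb2 hy2B (mem_sdiff.1 hz').2 hb2y hbz'
      subst e1; subst e2
      exact h12 (hφ1 z hy1T z' hy2T (hgz.trans hgz'.symm)))
    have e3 : (fun c => t c + 2) = fun c => ((S \ B).filter (fun v => φ v = c)).card + 1 := by
      funext c
      obtain ⟨v0, hv0, hv0c⟩ := hφ4 c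
      have hsplit : (S \ B).filter (fun v => φ v = c) =
          insert v0 (((S \ B) \ T).filter (fun v => g v = c)) := by
        ext v
        rw [mem_filter, mem_insert, mem_filter, mem_sdiff (s := S \ B)]
        constructor
        · rintro ⟨hv, hvc⟩
          by_cases hvT : v ∈ T
          · exact Or.inl (hφ1 v hvT v0 hv0 (hvc.trans hv0c.symm))
          · exact Or.inr ⟨⟨hv, hvT⟩, by rw [← hφ3 v hvT]; exact hvc⟩
        · rintro (h | ⟨⟨h, h'⟩, h''⟩)
          · rw [h]
            exact ⟨hTS hv0, hv0c⟩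
          · exact ⟨h, by rw [hφ3 v h']; exact h''⟩
      rw [hsplit, card_insert_of_notMem, hgt c]
      rw [mem_filter, mem_sdiff (s := S \ B)]
      exact fun h => h.1.2 hv0
    rw [e3]
    exact h5

open ITR5 in
theorem prfR5 (h2 : R2) (h4 : R4) (h6 : R6) : R5 := by
  intro d V _ G S hd
  have main : ∀ n : ℕ, ∀ (G : SimpleGraph V) (S : Finset V), S.card ≤ n →
      Ins G S → BD d G → G.CliqueFree (d + 1) →
      ∃ (G₀ : SimpleGraph V) (P : Finset (Finset V)) (S₀ : Finset V) (k : ℕ),
      (∀ B ∈ P, G.IsNClique d B) ∧ (∀ B ∈ P, ∀ B' ∈ P, B ≠ B' → Disjoint B B') ∧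
      S₀ ⊆ S \ P.biUnion id ∧ (6 ≤ d → (S \ P.biUnion id).card + 6 * iso G S ≤ 7 * S₀.card) ∧
      Ins G₀ S₀ ∧ BD d G₀ ∧ G₀.CliqueFree d ∧ (KF d G → KF d G₀) ∧
      ∀ t : Fin d → ℕ, Colb G₀ S₀ t → Colb G S (fun c => t c + k) := by
    intro n
    induction n with
    | zero =>
      intro G S hS hI hBD hcf
      have hS0 : S = ∅ := card_eq_zero.1 (Nat.le_zero.1 hS)
      have hK : G.CliqueFree d := by
        intro B hB
        have h := card_le_card (clique_sub hd hI hB)
        rw [hB.card_eq, hS0] at h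
        simp at h
        omega
      have hiso : iso G S ≤ S.card := card_filter_le _ _
      refine ⟨G, ∅, S, 0, by simp, by simp, by simp, fun _ => ?_, hI, hBD, hK, id,
        fun t ht => ht⟩
      have : (S \ (∅ : Finset (Finset V)).biUnion id) = S := by simp
      rw [this]
      omega
    | succ n ih =>
      intro G S hS hI hBD hcf
      by_cases hK : G.CliqueFree d
      · have hiso : iso G S ≤ S.card := card_filter_le _ _
        refine ⟨G, ∅, S, 0, by simp, by simp, by simp, fun _ => ?_, hI, hBD, hK, id,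
          fun t ht => ht⟩
        have : (S \ (∅ : Finset (Finset V)).biUnion id) = S := by simp
        rw [this]
        omega
      · obtain ⟨B, hB⟩ : ∃ B, G.IsNClique d B := by
          by_contra h
          push Not at h
          exact hK h
        have hBS := clique_sub hd hI hB
        have hBne : B.Nonempty := by
          rw [← card_pos, hB.card_eq]
          omega
        have hcard : (S \ B).card ≤ n := by
          have h3 := card_sdiff_add_card_eq_card hBS
          have h4 := card_pos.2 hBne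
          omega
        have hBadj : ∀ b ∈ B, ∃ u, G.Adj b u := by
          intro b hb
          obtain ⟨b', hb', hne⟩ : ∃ b' ∈ B, b' ≠ b := by
            apply Finset.exists_mem_ne
            rw [hB.card_eq]
            omega
          exact ⟨b', hB.isClique (mem_coe.2 hb) (mem_coe.2 hb') hne.symm⟩
        by_cases hex : C13 d G B
        · -- the exceptional component
          obtain ⟨G', T, hTS, hTc, hTa, hle, hI', hyy, hcol⟩ :=
            h6 d V G S B hd hI hBD hB hBS hex
          have hd6 : d ≤ 6 := hex.1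
          have hcard' : ((S \ B) \ T).card ≤ n := (card_le_card sdiff_subset).trans hcard
          have hBD' : BD d G' := by
            intro v
            refine le_trans ?_ (hBD v)
            apply Finset.card_le_card
            intro u hu
            rw [Finset.mem_filter] at hu ⊢
            exact ⟨hu.1, hle hu.2⟩
          obtain ⟨G₀, P, S₀, k, hP1, hP2, hS0, hc0, hI0, hBD0, hcf0, hKF0, hcol0⟩ :=
            ih G' ((S \ B) \ T) hcard' hI' hBD' (hcf.anti hle)
          have hPB : ∀ B' ∈ P, Disjoint B B' := by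
            intro B' hB'
            have h3 := clique_sub hd hI' (hP1 B' hB')
            rw [disjoint_left]
            intro v hv hv'
            exact (mem_sdiff.1 (mem_sdiff.1 (h3 hv')).1).2 hv
          have hU : S \ (insert B P).biUnion id = (S \ B) \ P.biUnion id := by
            rw [biUnion_insert]
            ext v
            simp only [mem_sdiff, mem_union, id]
            tauto
          refine ⟨G₀, insert B P, S₀, k + 2, ?_, ?_, ?_, ?_, hI0, hBD0, hcf0, ?_, ?_⟩
          · intro B' hB'
            rcases mem_insert.1 hB' with h | h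
            · rw [h]; exact hB
            · exact (hP1 B' h).mono hle
          · intro B1 hB1 B2 hB2 hne
            rcases mem_insert.1 hB1 with h | h
            · rcases mem_insert.1 hB2 with h' | h'
              · exact absurd (h.trans h'.symm) hne
              · rw [h]; exact hPB B2 h'
            · rcases mem_insert.1 hB2 with h' | h'
              · rw [h']; exact (hPB B1 h).symm
              · exact hP2 B1 h B2 h' hne
          · rw [hU]
            intro v hv
            have h3 := mem_sdiff.1 (hS0 hv)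
            exact mem_sdiff.2 ⟨(mem_sdiff.1 h3.1).1, h3.2⟩
          · intro h6d
            obtain ⟨y, hy, hyu, hyi⟩ := hyy (le_antisymm hd6 h6d)
            have hc0 := hc0 h6d
            rw [hU]
            have hle1 : ((S \ B) \ P.biUnion id).card ≤
                (((S \ B) \ T) \ P.biUnion id).card + d := by
              rw [← hTc]
              refine (card_le_card ?_).trans (card_union_le _ _)
              intro v hv
              rw [mem_sdiff] at hv
              by_cases hvT : v ∈ T
              · exact mem_union_right _ hvT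
              · exact mem_union_left _ (mem_sdiff.2 ⟨mem_sdiff.2 ⟨hv.1, hvT⟩, hv.2⟩)
            have hle2 : iso G S + 1 ≤ iso G' ((S \ B) \ T) := by
              unfold iso
              have hyn : y ∉ S.filter (fun v => Isol G v) := by
                rw [mem_filter]
                rintro ⟨_, h⟩
                obtain ⟨u, hu⟩ := hyu
                exact h u hu
              rw [← card_insert_of_notMem hyn]
              apply card_le_card
              intro v hv
              rw [mem_filter]
              rcases mem_insert.1 hv with h | h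
              · rw [h]
                exact ⟨hy, hyi⟩
              · rw [mem_filter] at h
                refine ⟨?_, fun u hu => h.2 u (hle hu)⟩
                rw [mem_sdiff, mem_sdiff]
                refine ⟨⟨h.1, ?_⟩, ?_⟩
                · intro hvB
                  obtain ⟨u, hu⟩ := hBadj v hvB
                  exact h.2 u hu
                · intro hvT
                  obtain ⟨u, hu⟩ := hTa v hvT
                  exact h.2 u hu
            omega
          · intro hKF
            refine hKF0 ?_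
            intro X Y hX hY h
            exact hKF X Y hX hY (fun x hx y hy => hle (h x hx y hy))
          · intro t ht
            exact hcol _ (hcol0 t ht)
        · have hred : RedStep d G S B := by
            by_cases hA : (∃ b ∈ B, ∀ v, v ∉ B → ¬ G.Adj b v) ∨
                ∃ b ∈ B, ∃ b' ∈ B, ∃ z z', z ∉ B ∧ z' ∉ B ∧ G.Adj b z ∧ G.Adj b' z' ∧ G.Adj z z'
            · exact h2 d V G S B hd hI hBD hcf hB hBS hA
            · push Not at hA
              refine h4 d V G S B hd hI hBD hcf hB hBS hA.1 ?_ hex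
              intro b hb b' hb' z z' hz hz' hbz hbz'
              exact hA.2 b hb b' hb' z z' hz hz' hbz hbz'
          obtain ⟨G', hI', hBD', hcf', hcl, hKF, hisol, hcol⟩ := hred
          obtain ⟨G₀, P, S₀, k, hP1, hP2, hS0, hc0, hI0, hBD0, hcf0, hKF0, hcol0⟩ :=
            ih G' (S \ B) hcard hI' hBD' hcf'
          have hPB : ∀ B' ∈ P, Disjoint B B' := by
            intro B' hB'
            have h3 := clique_sub hd hI' (hP1 B' hB')
            rw [disjoint_left]
            intro v hv hv'
            exact (mem_sdiff.1 (h3 hv')).2 hv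
          have hU : S \ (insert B P).biUnion id = (S \ B) \ P.biUnion id := by
            rw [biUnion_insert]
            ext v
            simp only [mem_sdiff, mem_union, id]
            tauto
          refine ⟨G₀, insert B P, S₀, k + 1, ?_, ?_, ?_, ?_, hI0, hBD0, hcf0,
            fun h => hKF0 (hKF h), ?_⟩
          · intro B' hB'
            rcases mem_insert.1 hB' with h | h
            · rw [h]; exact hB
            · exact hcl B' (hP1 B' h)
          · intro B1 hB1 B2 hB2 hne
            rcases mem_insert.1 hB1 with h | h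
            · rcases mem_insert.1 hB2 with h' | h'
              · exact absurd (h.trans h'.symm) hne
              · rw [h]; exact hPB B2 h'
            · rcases mem_insert.1 hB2 with h' | h'
              · rw [h']; exact (hPB B1 h).symm
              · exact hP2 B1 h B2 h' hne
          · rw [hU]; exact hS0
          · intro h6d
            have hc0 := hc0 h6d
            rw [hU]
            have hle2 : iso G S ≤ iso G' (S \ B) := by
              unfold iso
              apply card_le_card
              intro v hv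
              rw [mem_filter] at hv ⊢
              refine ⟨mem_sdiff.2 ⟨hv.1, ?_⟩, hisol v hv.2⟩
              intro hvB
              obtain ⟨u, hu⟩ := hBadj v hvB
              exact hv.2 u hu
            omega
          · intro t ht
            exact hcol _ (hcol0 t ht)
  intro hI hBD hcf
  obtain ⟨G₀, P, S₀, k, hP1, hP2, hS0, hc0, hI0, hBD0, hcf0, hKF0, hcol0⟩ :=
    main S.card G S le_rfl hI hBD hcf
  exact ⟨G₀, P, S₀, k, hP1, hP2, hS0, fun h => by have := hc0 h; omega, hI0, hBD0, hcf0, hKF0,
    hcol0⟩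

end

end Pool.Agent.Work.MP_47f387_co.Large

end

section

namespace Pool.Agent.Work.MP_47f387_co.Large

open Finset Classical

noncomputable section

namespace IT1

lemma colb_perm {V : Type} {d : ℕ} {G : SimpleGraph V} {S : Finset V} {t : Fin d → ℕ}
    (h : Colb G S t) (π : Equiv.Perm (Fin d)) : Colb G S (fun c => t (π c)) := by
  obtain ⟨g, hg, hc⟩ := h
  refine ⟨fun v => π.symm (g v), fun u hu v hv huv heq => hg u hu v hv huv (π.symm.injective heq),
    fun c => ?_⟩
  show (S.filter (fun v => π.symm (g v) = c)).card = t (π c)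
  rw [← hc (π c)]
  congr 1
  ext v
  simp only [mem_filter]
  constructor
  · rintro ⟨h1, h2⟩
    exact ⟨h1, by rw [← h2]; simp⟩
  · rintro ⟨h1, h2⟩
    exact ⟨h1, by rw [h2]; simp⟩

lemma colb_sum {V : Type} [Fintype V] {d : ℕ} {G : SimpleGraph V} {t : Fin d → ℕ}
    (h : Colb G univ t) : ∑ c, t c = Fintype.card V := by
  obtain ⟨g, _, hc⟩ := h
  have := Finset.card_eq_sum_card_fiberwise (s := (univ : Finset V))
    (t := (univ : Finset (Fin d))) (f := g) (fun _ _ => mem_univ _)
  rw [card_univ] at this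
  rw [this]
  exact sum_congr rfl (fun c _ => (hc c).symm)

lemma comp_BD (p2 : P2) {d : ℕ} (hd : 1 ≤ d) {V : Type} [Fintype V] {G : SimpleGraph V}
    (h : BD d G) (k : G.ConnectedComponent) : BD d k.toSimpleGraph := by
  have h1 := (p2 d V G k.supp hd).1 h
  intro v
  refine le_trans (le_of_eq ?_) (h1 v)
  unfold Deg
  exact Finset.card_bij (fun x _ => x) (fun a ha => by simpa [SimpleGraph.ConnectedComponent.toSimpleGraph] using ha)
    (fun a _ b _ h => h) (fun b hb => ⟨b, by simpa [SimpleGraph.ConnectedComponent.toSimpleGraph] using hb, rfl⟩)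

lemma comp_CF (p2 : P2) {d : ℕ} (hd : 1 ≤ d) {V : Type} [Fintype V] {G : SimpleGraph V} {r : ℕ}
    (h : G.CliqueFree r) (k : G.ConnectedComponent) : k.toSimpleGraph.CliqueFree r :=
  (p2 d V G k.supp hd).2.1 r h

lemma comp_KF (p2 : P2) {d : ℕ} (hd : 1 ≤ d) {V : Type} [Fintype V] {G : SimpleGraph V}
    (h : KF d G) (k : G.ConnectedComponent) : KF d k.toSimpleGraph :=
  (p2 d V G k.supp hd).2.2.1 h

lemma comp_card {V : Type} [Fintype V] (G : SimpleGraph V) :
    ∑ k : G.ConnectedComponent, Fintype.card k = Fintype.card V := by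
  have := Finset.card_eq_sum_card_fiberwise (s := (univ : Finset V))
    (t := (univ : Finset G.ConnectedComponent)) (f := G.connectedComponentMk) (fun _ _ => mem_univ _)
  rw [card_univ] at this
  rw [this]
  refine sum_congr rfl (fun k _ => ?_)
  rw [Fintype.card_subtype]
  congr 1

/-- the balanced vector with sum `n` -/
lemma exists_bal {d : ℕ} (hd : 1 ≤ d) (n : ℕ) : ∃ t : Fin d → ℕ, ∑ c, t c = n ∧ Bal t := by
  refine ⟨fun c => n / d + if (c : ℕ) < n % d then 1 else 0, ?_, ?_⟩
  · rw [sum_add_distrib, sum_const, card_univ, Fintype.card_fin, smul_eq_mul, ← card_filter]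
    have h1 : (univ.filter (fun c : Fin d => (c : ℕ) < n % d)).card = n % d := by
      have := Fin.card_filter_val_lt (n := d) (m := n % d)
      rw [this]
      exact min_eq_right (Nat.mod_lt _ hd).le
    rw [h1]
    exact Nat.div_add_mod n d
  · intro i j
    dsimp only
    split_ifs <;> omega

end IT1

theorem prfT1 (h5 : V5) (hb : E5) (h1 : D1) (h2 : D2) (p1 : P1) (p2 : P2) : T1 := by
  intro d hd
  have hd1 : 1 ≤ d := by omega
  choose N1 hN1 using h1 d hd
  obtain ⟨N, hN⟩ := h5 d hd1 N1
  refine ⟨N, fun V _ G hBD hfree hn => ?_⟩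
  obtain ⟨w, hw, hbal⟩ := hN G.ConnectedComponent
    (fun k => {t | Colb k.toSimpleGraph univ t}) (fun k => Fintype.card k)
    (fun k t π ht => IT1.colb_perm ht π)
    (fun k t ht => IT1.colb_sum ht)
    (fun k => by
      have : Nonempty k := ⟨⟨k.out, k.out_eq⟩⟩
      exact Fintype.card_pos)
    (fun k => by
      have hB := IT1.comp_BD p2 hd1 hBD k
      have hC := IT1.comp_CF p2 hd1 hfree k
      obtain ⟨t, ht⟩ := hb d k k.toSimpleGraph (by omega) hB (hC.mono (Nat.le_succ d))
      have : Nonempty k := ⟨⟨k.out, k.out_eq⟩⟩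
      obtain ⟨t', a, b, hm, ht'⟩ := h2 d k k.toSimpleGraph hd hB hC t ht
      exact ⟨t, ht, t', ht', a, b, hm⟩)
    (fun m k hk t hsum hr => hN1 m k k.toSimpleGraph k.connected_toSimpleGraph
      (IT1.comp_BD p2 hd1 hBD k) (IT1.comp_CF p2 hd1 hfree k) hk t hsum hr)
    (by rw [IT1.comp_card G]; exact hn)
  exact ⟨_, hbal, p1 d V G w hd1 hw⟩

end

end Pool.Agent.Work.MP_47f387_co.Large

end

section

namespace Pool.Agent.Work.MP_47f387_co.Large

open Finset Classical

noncomputable section

namespace IT4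

lemma equi_of_colb {V : Type} [Fintype V] [DecidableEq V] {d : ℕ} {G : SimpleGraph V}
    {t : Fin d → ℕ} (hb : Bal t) (h : Colb G univ t) : Equi G d := by
  obtain ⟨g, hg, hc⟩ := h
  refine ⟨SimpleGraph.Coloring.mk g (fun {u v} huv => hg u (mem_univ _) v (mem_univ _) huv), ?_⟩
  intro i j
  have h1 : ∀ c, (univ.filter (fun v => g v = c)).card = t c := hc
  have := hb i j
  rw [← h1 i, ← h1 j] at this
  exact this

lemma colb_of_equi {V : Type} [Fintype V] [DecidableEq V] {d : ℕ} {G : SimpleGraph V}
    (h : Equi G d) : ∃ t : Fin d → ℕ, Bal t ∧ Colb G univ t := by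
  obtain ⟨C, hC⟩ := h
  exact ⟨fun c => (univ.filter (fun v => C v = c)).card, hC,
    C, fun u _ v _ huv => C.valid huv, fun c => rfl⟩

lemma BD_iff {V : Type} [Fintype V] {d : ℕ} {G : SimpleGraph V} [DecidableRel G.Adj] :
    BD d G ↔ ∀ v, G.degree v ≤ d := by
  have : ∀ v, Deg G v = G.degree v := by
    intro v
    unfold Deg
    rw [← SimpleGraph.card_neighborFinset_eq_degree]
    congr 1
    ext u
    simp
  unfold BD
  simp only [this]

/-- the reduction to a `K_d`-free graph on a subset -/
lemma reduce (r5 : R5) (p2 : P2) {d : ℕ} (hd : 5 ≤ d) {V : Type} [Fintype V]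
    {G : SimpleGraph V} (hB : BD d G) (hC : G.CliqueFree (d + 1)) :
    ∃ (P : Finset (Finset V)), (∀ B ∈ P, G.IsNClique d B) ∧
      (∀ B ∈ P, ∀ B' ∈ P, B ≠ B' → Disjoint B B') ∧
      ∃ (W : Type) (_ : Fintype W) (H : SimpleGraph W),
        (6 ≤ d → Fintype.card V ≤ P.card * d + 7 * Fintype.card W) ∧
        BD d H ∧ H.CliqueFree d ∧ (KF d G → KF d H) ∧
        ∀ t : Fin d → ℕ, Bal t → Colb H univ t → ∃ t' : Fin d → ℕ, Bal t' ∧ Colb G univ t' := by
  obtain ⟨G₀, P, S₀, k, hP, hPd, hS0, hc0, hins, hB0, hC0, hK0, ht⟩ := r5 d V G univ hd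
    (fun u v _ => ⟨mem_univ _, mem_univ _⟩) hB hC
  obtain ⟨q1, q2, q3, q4⟩ := p2 d V G₀ {v | v ∈ S₀} (by omega)
  have h3 : (univ.filter (fun v => v ∈ {v | v ∈ S₀})) = S₀ := by
    ext v
    rw [mem_filter]
    exact ⟨fun h => h.2, fun h => ⟨mem_univ _, h⟩⟩
  refine ⟨P, hP, hPd, _, _, G₀.induce {v | v ∈ S₀}, ?_, q1 hB0,
    q2 d hC0, fun h => q3 (hK0 h), ?_⟩
  · intro h6
    have hc0 := hc0 h6
    rw [Fintype.card_subtype, h3]
    rw [card_sdiff_of_subset (subset_univ _), card_univ] at hc0
    have h4 : (P.biUnion id).card = P.card * d := by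
      have e1 : (P.biUnion id).card = ∑ B ∈ P, (id B : Finset V).card :=
        card_biUnion (fun B hB B' hB' hne => hPd B hB B' hB' hne)
      have e2 : ∀ B ∈ P, (id B : Finset V).card = d := fun B hB => (hP B hB).card_eq
      rw [e1, sum_congr rfl e2, sum_const, smul_eq_mul]
    rw [h4] at hc0
    omega
  · intro t hbt htH
    have h2 := q4 t htH
    have h4 : Colb G₀ S₀ t := by
      obtain ⟨g, hg, hc⟩ := h2
      refine ⟨g, fun u hu v hv huv => hg u ?_ v ?_ huv, fun c => ?_⟩
      · simpa using hu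
      · simpa using hv
      · rw [← hc c]
        congr 1
        ext v
        simp
    exact ⟨_, fun i j => Nat.add_le_add_right (hbt i j) k |>.trans (by omega), ht t h4⟩

end IT4

theorem prfT4 (t2 : T2) (r5 : R5) (p2 : P2) : T4 := by
  intro d hd
  obtain ⟨N, hN⟩ := t2 d hd
  refine ⟨N, fun hyp V _ _ G _ hdeg hfree hKF => ?_⟩
  have hyp' : ∀ (V : Type) [Fintype V] (G : SimpleGraph V), G.Connected → BD d G →
      G.CliqueFree d → (Odd d → KF d G) → Fintype.card V < N →
        ∃ t : Fin d → ℕ, Bal t ∧ Colb G univ t := by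
    intro V _ G hG hBD hCF hK hc
    exact IT4.colb_of_equi (hyp V G hG (IT4.BD_iff.1 hBD) hCF hK hc)
  obtain ⟨P, _, _, W, _, H, _, hBH, hCH, hKH, hH⟩ :=
    IT4.reduce r5 p2 (by omega) (IT4.BD_iff.2 hdeg) hfree
  obtain ⟨t, ht1, ht2⟩ := hN hyp' W H hBH hCH (fun ho => hKH (hKF ho))
  obtain ⟨t', ht1', ht2'⟩ := hH t ht1 ht2
  exact IT4.equi_of_colb ht1' ht2'

end

end Pool.Agent.Work.MP_47f387_co.Large

end

section

namespace Pool.Agent.Work.MP_47f387_co.Large

open Finset Classical

theorem prfV0 : V0 := by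
  intro d s t hs ht
  obtain ⟨σ, hσ⟩ : ∃ σ : Equiv.Perm (Fin d), Monotone (s ∘ σ) := ⟨_, Tuple.monotone_sort s⟩
  obtain ⟨τ, hτ⟩ : ∃ τ : Equiv.Perm (Fin d), Monotone (t ∘ τ) := ⟨_, Tuple.monotone_sort t⟩
  refine ⟨σ.symm.trans (Fin.revPerm.trans τ), ?_⟩
  have key : ∀ i j : Fin d, σ.symm i ≤ σ.symm j →
      s i ≤ s j ∧ t (τ (σ.symm j).rev) ≤ t (τ (σ.symm i).rev) := by
    intro i j h
    constructor
    · have := hσ h
      simpa using this
    · exact hτ (Fin.rev_le_rev.2 h)
  intro i j
  have e : ∀ c, (σ.symm.trans (Fin.revPerm.trans τ)) c = τ (σ.symm c).rev := by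
    intro c
    simp [Equiv.trans_apply]
  show s i + t ((σ.symm.trans (Fin.revPerm.trans τ)) i) ≤
    s j + t ((σ.symm.trans (Fin.revPerm.trans τ)) j) + 1
  rw [e, e]
  have h1 := hs i j
  have h2 := hs j i
  have h3 := ht (τ (σ.symm i).rev) (τ (σ.symm j).rev)
  have h4 := ht (τ (σ.symm j).rev) (τ (σ.symm i).rev)
  rcases le_total (σ.symm i) (σ.symm j) with h | h
  · have := key i j h
    omega
  · have := key j i h
    omega

end Pool.Agent.Work.MP_47f387_co.Large

end
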