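import Pool.Agent.Work.MP_47f387_co.Bd.B03
import Pool.Agent.Work.MP_47f387_co.Bd.B04

/-! Bundle of small proof modules (one section per former module). -/

section

/-!
# MP_47f387_co, item V1: sums of balanced vectors
-/

namespace Pool.Agent.Work.MP_47f387_co.Large

open Finset Classical

noncomputable section

theorem prfV1 (h0 : V0) : V1 := by
  intro d K _ F A hF
  induction A using Finset.induction_on with
  | empty =>
    intro _
    exact ⟨fun _ _ => 0, by simp, fun i j => by simp⟩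
  | insert k A hk ih =>
    intro h
    obtain ⟨w, hw, hb⟩ := ih (fun j hj => h j (mem_insert_of_mem hj))
    obtain ⟨t, ht, htb⟩ := h k (mem_insert_self _ _)
    obtain ⟨π, hπ⟩ := h0 d _ t hb htb
    refine ⟨Function.update w k (fun c => t (π c)), ?_, ?_⟩
    · intro j hj
      by_cases hjk : j = k
      · subst hjk
        rw [Function.update_self]
        exact hF _ _ π ht
      · rw [Function.update_of_ne hjk]
        exact hw j (mem_of_mem_insert_of_ne hj hjk)
    · have key : ∀ c, ∑ j ∈ insert k A, Function.update w k (fun c => t (π c)) j c =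
          ∑ j ∈ A, w j c + t (π c) := by
        intro c
        rw [sum_insert hk, Function.update_self, add_comm]
        congr 1
        apply sum_congr rfl
        intro j hj
        have hjk : j ≠ k := fun h => hk (h ▸ hj)
        rw [Function.update_of_ne hjk]
      intro i j
      beta_reduce
      rw [key i, key j]
      exact hπ i j

end

end Pool.Agent.Work.MP_47f387_co.Large

end

section

/-!
# MP_47f387_co: item V2, greedy sums
-/

namespace Pool.Agent.Work.MP_47f387_co.Large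

open Finset Classical

noncomputable section

namespace ITV2

/-- a permutation which is opposite to the order of `x` -/
lemma opp {d : ℕ} (x t : Fin d → ℕ) :
    ∃ π : Equiv.Perm (Fin d), ∀ i j, x i < x j → t (π j) ≤ t (π i) := by
  refine ⟨(Tuple.sort x).symm.trans (Fin.revPerm.trans (Tuple.sort t)), ?_⟩
  intro i j hij
  simp only [Equiv.trans_apply, Fin.revPerm_apply]
  have h1 := Tuple.monotone_sort x
  have h2 := Tuple.monotone_sort t
  have h3 : (Tuple.sort x).symm i < (Tuple.sort x).symm j := by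
    by_contra h
    have h4 := h1 (not_lt.1 h)
    simp only [Function.comp_apply, Equiv.apply_symm_apply] at h4
    omega
  have h5 : Fin.rev ((Tuple.sort x).symm j) ≤ Fin.rev ((Tuple.sort x).symm i) := by
    rw [Fin.rev_le_rev]
    exact h3.le
  exact h2 h5

end ITV2

open ITV2 in
theorem prfV2 : V2 := by
  intro d s K _ F A hPC hA
  induction A using Finset.induction_on with
  | empty => exact ⟨fun _ _ => 0, by simp, by simp⟩
  | insert k A hk ih =>
    obtain ⟨w, hw1, hw2⟩ := ih (fun k' hk' => hA k' (mem_insert_of_mem hk'))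
    obtain ⟨t, ht, hts⟩ := hA k (mem_insert_self k A)
    obtain ⟨π, hπ⟩ := opp (fun c => ∑ k' ∈ A, w k' c) t
    refine ⟨fun k' => if k' = k then fun c => t (π c) else w k', ?_, ?_⟩
    · intro k' hk'
      by_cases h : k' = k
      · simp only [h, if_true]
        exact hPC k t π ht
      · simp only [h, if_false]
        exact hw1 k' ((mem_insert.1 hk').resolve_left h)
    · have hsum : ∀ c, ∑ k' ∈ insert k A, (if k' = k then fun c => t (π c) else w k') c =
          t (π c) + ∑ k' ∈ A, w k' c := by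
        intro c
        rw [sum_insert hk]
        simp only [if_true]
        congr 1
        apply sum_congr rfl
        intro k' hk'
        have h : k' ≠ k := by
          rintro rfl
          exact hk hk'
        simp only [h, if_false]
      intro i j
      rw [hsum i, hsum j]
      have h1 := hw2 i j
      have h2 := hπ i j
      have h3 := hπ j i
      have h4 := hts (π i)
      rcases lt_trichotomy (∑ k' ∈ A, w k' i) (∑ k' ∈ A, w k' j) with h | h | h
      · omega
      · omega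
      · have h5 := h3 h
        omega

end

end Pool.Agent.Work.MP_47f387_co.Large

end

section

namespace Pool.Agent.Work.MP_47f387_co.Large

open Finset Classical

noncomputable section

namespace ITV3

theorem sumperm {d : ℕ} (t : Fin d → ℕ) (c c' : Fin d) :
    ∑ π : Equiv.Perm (Fin d), t (π c) = ∑ π : Equiv.Perm (Fin d), t (π c') := by
  apply Fintype.sum_equiv (Equiv.mulRight (Equiv.swap c c'))
  intro π
  simp [Equiv.Perm.mul_apply]

theorem exQ {d : ℕ} (t : Fin d → ℕ) :
    ∃ Q : ℕ, ∀ c, ∑ π : Equiv.Perm (Fin d), t (π c) = Q := by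
  rcases isEmpty_or_nonempty (Fin d) with h | h
  · exact ⟨0, fun c => (h.false c).elim⟩
  · obtain ⟨c0⟩ := h
    exact ⟨∑ π : Equiv.Perm (Fin d), t (π c0), fun c => sumperm t c c0⟩

theorem experm {d : ℕ} {a b i j : Fin d} (hab : a ≠ b) (hij : i ≠ j) :
    ∃ π : Equiv.Perm (Fin d), π i = a ∧ π j = b := by
  have h1 : (Equiv.swap i a) i = a := Equiv.swap_apply_left i a
  have h2 : (Equiv.swap i a) j ≠ a := by
    intro h
    apply hij
    apply (Equiv.swap i a).injective
    rw [h1, h]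
  refine ⟨Equiv.swap ((Equiv.swap i a) j) b * Equiv.swap i a, ?_, ?_⟩
  · rw [Equiv.Perm.mul_apply, h1]
    exact Equiv.swap_apply_of_ne_of_ne (Ne.symm h2) hab
  · rw [Equiv.Perm.mul_apply]
    exact Equiv.swap_apply_left _ _

theorem grp {d : ℕ} {K : Type} {F : K → Set (Fin d → ℕ)} {A : Finset K}
    {t t' : Fin d → ℕ} {a b : Fin d} {Q : ℕ}
    (hQ : ∀ c, ∑ π : Equiv.Perm (Fin d), t (π c) = Q)
    (hF : PC F) (hM : Mv t t' a b) (hA : ∀ k ∈ A, t ∈ F k ∧ t' ∈ F k)
    (hc : A.card = d.factorial) :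
    (∃ w : K → Fin d → ℕ, (∀ k ∈ A, w k ∈ F k) ∧ ∀ c, ∑ k ∈ A, w k c = Q) ∧
    ∀ i j : Fin d, i ≠ j → ∃ w : K → Fin d → ℕ, (∀ k ∈ A, w k ∈ F k) ∧
      ∀ c, ∑ k ∈ A, w k c + (if c = i then 1 else 0) = Q + (if c = j then 1 else 0) := by
  have hcard : Fintype.card A = Fintype.card (Equiv.Perm (Fin d)) := by
    rw [Fintype.card_coe, hc, Fintype.card_perm, Fintype.card_fin]
  let e : A ≃ Equiv.Perm (Fin d) := Fintype.equivOfCardEq hcard
  let w1 : K → Fin d → ℕ := fun k => if h : k ∈ A then fun c => t (e ⟨k, h⟩ c) else t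
  have hw1 : ∀ k ∈ A, w1 k ∈ F k := by
    intro k hk
    have : w1 k = fun c => t (e ⟨k, hk⟩ c) := by simp [w1, hk]
    rw [this]
    exact hF k t _ (hA k hk).1
  have hs1 : ∀ c, ∑ k ∈ A, w1 k c = Q := by
    intro c
    rw [← Finset.sum_coe_sort, ← hQ c]
    apply Fintype.sum_equiv e
    intro x
    simp [w1]
  refine ⟨⟨w1, hw1, hs1⟩, ?_⟩
  intro i j hij
  obtain ⟨π, hπi, hπj⟩ := experm hM.1 hij
  let k0 : A := e.symm π
  have hk0 : (k0 : K) ∈ A := k0.2
  have hw10 : w1 k0 = fun c => t (π c) := by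
    have : e ⟨(k0 : K), hk0⟩ = π := by simp [k0]
    simp only [w1, dif_pos hk0, this]
  refine ⟨Function.update w1 (k0 : K) (fun c => t' (π c)), ?_, ?_⟩
  · intro k hk
    by_cases hkk : k = (k0 : K)
    · subst hkk
      rw [Function.update_self]
      exact hF _ t' π (hA _ hk).2
    · rw [Function.update_of_ne hkk]
      exact hw1 k hk
  · intro c
    have h1 := hs1 c
    rw [← Finset.add_sum_erase A _ hk0] at h1 ⊢
    rw [Function.update_self]
    have h2 : ∑ k ∈ A.erase (k0 : K), Function.update w1 (k0 : K) (fun c => t' (π c)) k c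
        = ∑ k ∈ A.erase (k0 : K), w1 k c := by
      apply Finset.sum_congr rfl
      intro k hk
      rw [Function.update_of_ne (Finset.ne_of_mem_erase hk)]
    rw [h2]
    rw [hw10] at h1
    obtain ⟨hab, hta, htb, hto⟩ := hM
    have key : t' (π c) + (if c = i then 1 else 0) = t (π c) + (if c = j then 1 else 0) := by
      by_cases hci : c = i
      · subst hci
        rw [hπi, if_pos rfl, if_neg hij]
        omega
      · by_cases hcj : c = j
        · subst hcj
          rw [hπj, if_pos rfl, if_neg hci]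
          omega
        · rw [if_neg hci, if_neg hcj]
          have e1 : π c ≠ a := by
            intro h
            apply hci
            apply π.injective
            rw [h, hπi]
          have e2 : π c ≠ b := by
            intro h
            apply hcj
            apply π.injective
            rw [h, hπj]
          rw [hto _ e1 e2]
    have h1' : t (π c) + ∑ k ∈ A.erase (k0 : K), w1 k c = Q := h1
    omega

theorem main {d : ℕ} {K : Type} {F : K → Set (Fin d → ℕ)}
    {t t' : Fin d → ℕ} {a b : Fin d} {Q : ℕ}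
    (hQ : ∀ c, ∑ π : Equiv.Perm (Fin d), t (π c) = Q)
    (hF : PC F) (hM : Mv t t' a b) : ∀ (L : ℕ) (A : Finset K),
    (∀ k ∈ A, t ∈ F k ∧ t' ∈ F k) → A.card = L * d.factorial →
    ∀ x y : Fin d → ℕ, ∑ c, x c = ∑ c, y c → ∑ c, (x c - y c) ≤ L →
      ∃ w : K → Fin d → ℕ, (∀ k ∈ A, w k ∈ F k) ∧
        ∀ c, ∑ k ∈ A, w k c + x c = L * Q + y c := by
  intro L
  induction L with
  | zero =>
    intro A _ hc x y hxy hle
    have hA0 : A = ∅ := by
      apply Finset.card_eq_zero.mp
      simpa using hc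
    subst hA0
    refine ⟨fun _ _ => 0, by simp, ?_⟩
    have h0 : ∀ c, x c - y c = 0 := by
      intro c
      have h1 : x c - y c ≤ ∑ c, (x c - y c) :=
        Finset.single_le_sum (f := fun c => x c - y c) (fun i _ => Nat.zero_le _)
          (Finset.mem_univ c)
      omega
    have h1 : ∀ c ∈ (univ : Finset (Fin d)), x c = y c := by
      apply (Finset.sum_eq_sum_iff_of_le _).mp hxy
      intro c _
      have := h0 c
      omega
    intro c
    have := h1 c (Finset.mem_univ c)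
    simp [this]
  | succ L ih =>
    intro A hA hc x y hxy hle
    obtain ⟨A1, hA1, hcA1⟩ := Finset.exists_subset_card_eq (s := A) (n := d.factorial)
      (by rw [hc]; nlinarith [Nat.factorial_pos d])
    have hcA2 : (A \ A1).card = L * d.factorial := by
      rw [Finset.card_sdiff_of_subset hA1, hc, hcA1]
      have : (L + 1) * d.factorial = L * d.factorial + d.factorial := by ring
      omega
    obtain ⟨g1, g2⟩ := grp (A := A1) hQ hF hM (fun k hk => hA k (hA1 hk)) hcA1
    have comb : ∀ (w1 w2 : K → Fin d → ℕ) (c : Fin d),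
        ∑ k ∈ A, (if k ∈ A1 then w1 k else w2 k) c
          = ∑ k ∈ A1, w1 k c + ∑ k ∈ A \ A1, w2 k c := by
      intro w1 w2 c
      rw [← Finset.sum_sdiff hA1, add_comm]
      congr 1
      · apply Finset.sum_congr rfl
        intro k hk
        rw [if_pos hk]
      · apply Finset.sum_congr rfl
        intro k hk
        rw [if_neg (Finset.mem_sdiff.mp hk).2]
    have memc : ∀ (w1 w2 : K → Fin d → ℕ), (∀ k ∈ A1, w1 k ∈ F k) →
        (∀ k ∈ A \ A1, w2 k ∈ F k) → ∀ k ∈ A, (if k ∈ A1 then w1 k else w2 k) ∈ F k := by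
      intro w1 w2 h1 h2 k hk
      by_cases hk1 : k ∈ A1
      · rw [if_pos hk1]
        exact h1 k hk1
      · rw [if_neg hk1]
        exact h2 k (Finset.mem_sdiff.mpr ⟨hk, hk1⟩)
    by_cases hne : x = y
    · subst hne
      obtain ⟨w1, hw1, hs1⟩ := g1
      obtain ⟨w2, hw2, hs2⟩ := ih (A \ A1) (fun k hk => hA k (Finset.mem_sdiff.mp hk).1)
        hcA2 x x rfl (by simp)
      refine ⟨fun k => if k ∈ A1 then w1 k else w2 k, memc w1 w2 hw1 hw2, ?_⟩
      intro c
      rw [comb w1 w2 c, hs1 c]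
      have := hs2 c
      have e : (L + 1) * Q = L * Q + Q := by ring
      omega
    · have hi : ∃ i, y i < x i := by
        by_contra hcon
        push Not at hcon
        apply hne
        funext c
        exact (Finset.sum_eq_sum_iff_of_le (fun c _ => hcon c)).mp hxy c (Finset.mem_univ c)
      have hj : ∃ j, x j < y j := by
        by_contra hcon
        push Not at hcon
        apply hne
        funext c
        exact ((Finset.sum_eq_sum_iff_of_le (fun c _ => hcon c)).mp hxy.symm c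
          (Finset.mem_univ c)).symm
      obtain ⟨i, hi⟩ := hi
      obtain ⟨j, hj⟩ := hj
      have hij : i ≠ j := by
        intro h
        subst h
        omega
      obtain ⟨w1, hw1, hs1⟩ := g2 i j hij
      let y' : Fin d → ℕ := fun c => if c = i then y i + 1 else if c = j then y j - 1 else y c
      have hy' : ∀ c, y' c + (if c = j then 1 else 0) = y c + (if c = i then 1 else 0) := by
        intro c
        by_cases hci : c = i
        · subst hci
          simp [y', hij]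
        · by_cases hcj : c = j
          · subst hcj
            simp only [y', if_neg hci, if_true]
            omega
          · simp [y', hci, hcj]
      have hsy : ∑ c, y' c = ∑ c, y c := by
        have h1 : ∑ c, (y' c + (if c = j then 1 else 0))
            = ∑ c, (y c + (if c = i then 1 else 0)) :=
          Finset.sum_congr rfl (fun c _ => hy' c)
        rw [Finset.sum_add_distrib, Finset.sum_add_distrib] at h1
        simp only [Finset.sum_ite_eq', Finset.mem_univ, if_true] at h1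
        omega
      have hd : ∀ c, (x c - y' c) + (if c = i then 1 else 0) = x c - y c := by
        intro c
        by_cases hci : c = i
        · subst hci
          simp only [y', if_true, if_neg hij]
          omega
        · by_cases hcj : c = j
          · subst hcj
            simp only [y', if_neg hci, if_true]
            omega
          · simp [y', hci, hcj]
      have hsd : ∑ c, (x c - y' c) ≤ L := by
        have h1 : ∑ c, ((x c - y' c) + (if c = i then 1 else 0)) = ∑ c, (x c - y c) :=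
          Finset.sum_congr rfl (fun c _ => hd c)
        rw [Finset.sum_add_distrib] at h1
        simp only [Finset.sum_ite_eq', Finset.mem_univ, if_true] at h1
        omega
      obtain ⟨w2, hw2, hs2⟩ := ih (A \ A1) (fun k hk => hA k (Finset.mem_sdiff.mp hk).1)
        hcA2 x y' (by rw [hsy, hxy]) hsd
      refine ⟨fun k => if k ∈ A1 then w1 k else w2 k, memc w1 w2 hw1 hw2, ?_⟩
      intro c
      rw [comb w1 w2 c]
      have e1 := hs1 c
      have e2 := hs2 c
      have e3 := hy' c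
      have e : (L + 1) * Q = L * Q + Q := by ring
      omega

end ITV3

theorem prfV3 : V3 := by
  intro d L K _ F A t t' a b hF hM hA hc
  obtain ⟨Q, hQ⟩ := ITV3.exQ t
  exact ⟨L * Q, fun x y hxy hle => ITV3.main hQ hF hM L A hA hc x y hxy hle⟩

end

end Pool.Agent.Work.MP_47f387_co.Large

end

section

namespace Pool.Agent.Work.MP_47f387_co.Large

open Finset Classical

noncomputable section

namespace ITV4

theorem sum_bal (d X : ℕ) (hd : 0 < d) :
    ∑ c : Fin d, (X / d + (if (c : ℕ) < X % d then 1 else 0)) = X := by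
  rw [Finset.sum_add_distrib]
  have h1 : ∑ c : Fin d, (if (c : ℕ) < X % d then 1 else 0) = X % d := by
    rw [Finset.sum_boole]
    have h2 : (univ.filter (fun c : Fin d => (c : ℕ) < X % d)).card = X % d := by
      have hlt : X % d < d := Nat.mod_lt _ hd
      rw [Fin.card_filter_val_lt]
      omega
    simpa using h2
  rw [h1]
  simp only [Finset.sum_const, Finset.card_univ, Fintype.card_fin, smul_eq_mul]
  exact Nat.div_add_mod X d

theorem exlow (d : ℕ) (hd : 0 < d) (x : Fin d → ℕ) : ∃ j, x j ≤ (∑ c, x c) / d := by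
  by_contra hcon
  push Not at hcon
  have h1 : ∑ _c : Fin d, ((∑ c, x c) / d + 1) ≤ ∑ c, x c :=
    Finset.sum_le_sum (fun c _ => hcon c)
  simp only [Finset.sum_const, Finset.card_univ, Fintype.card_fin, smul_eq_mul] at h1
  have h2 := Nat.lt_div_mul_add (a := ∑ c, x c) hd
  have h3 : (∑ c, x c) / d * d = d * ((∑ c, x c) / d) := Nat.mul_comm _ _
  have h4 : d * ((∑ c, x c) / d + 1) = d * ((∑ c, x c) / d) + d := by ring
  omega

theorem mv_unique {d : ℕ} {t t1 t2 : Fin d → ℕ} {a b : Fin d} (h1 : Mv t t1 a b)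
    (h2 : Mv t t2 a b) : t1 = t2 := by
  obtain ⟨_, h1a, h1b, h1c⟩ := h1
  obtain ⟨_, h2a, h2b, h2c⟩ := h2
  funext c
  by_cases hca : c = a
  · subst hca
    omega
  · by_cases hcb : c = b
    · subst hcb
      omega
    · rw [h1c c hca hcb, h2c c hca hcb]

end ITV4

theorem prfV4 (h2 : V2) (h3 : V3) : V4 := by
  intro d s
  rcases Nat.eq_zero_or_pos d with hd | hd
  · subst hd
    refine ⟨0, ?_⟩
    intro K _ F A _ hA _
    have : ∀ k, ∃ t : Fin 0 → ℕ, k ∈ A → t ∈ F k := by
      intro k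
      by_cases hk : k ∈ A
      · obtain ⟨t, ht, _⟩ := hA k hk
        exact ⟨t, fun _ => ht⟩
      · exact ⟨fun _ => 0, fun h => absurd h hk⟩
    choose w hw using this
    exact ⟨w, hw, fun i => i.elim0⟩
  refine ⟨Fintype.card ((Fin d → Fin (s + 1)) × Fin d × Fin d) * (d * s * d.factorial) + 1, ?_⟩
  intro K _ F A hF hA hN
  have hex : ∀ k, ∃ (t t' : Fin d → ℕ) (a b : Fin d), k ∈ A →
      t ∈ F k ∧ t' ∈ F k ∧ Mv t t' a b ∧ ∑ c, t c ≤ s := by
    intro k
    by_cases hk : k ∈ A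
    · obtain ⟨t, ht, t', ht', a, b, hm, hs⟩ := hA k hk
      exact ⟨t, t', a, b, fun _ => ⟨ht, ht', hm, hs⟩⟩
    · exact ⟨fun _ => 0, fun _ => 0, ⟨0, hd⟩, ⟨0, hd⟩, fun h => absurd h hk⟩
  choose T T' a b hT using hex
  let f : K → (Fin d → Fin (s + 1)) × Fin d × Fin d := fun k =>
    (fun c => ⟨min (T k c) s, by omega⟩, a k, b k)
  obtain ⟨y, _, hy⟩ := Finset.exists_lt_card_fiber_of_mul_lt_card_of_maps_to
    (s := A) (t := (univ : Finset ((Fin d → Fin (s + 1)) × Fin d × Fin d))) (f := f)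
    (n := d * s * d.factorial) (fun _ _ => Finset.mem_univ _) (by rw [Finset.card_univ]; omega)
  obtain ⟨A1, hA1, hcA1⟩ := Finset.exists_subset_card_eq
    (s := A.filter (fun x => f x = y)) (n := d * s * d.factorial) hy.le
  have hne : (A.filter (fun x => f x = y)).Nonempty := by
    apply Finset.card_pos.mp
    omega
  obtain ⟨k0, hk0⟩ := hne
  have hk0A : k0 ∈ A := (Finset.mem_filter.mp hk0).1
  have hk0y : f k0 = y := (Finset.mem_filter.mp hk0).2
  have hA1A : A1 ⊆ A := fun k hk => (Finset.mem_filter.mp (hA1 hk)).1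
  have hle : ∀ k ∈ A, ∀ c, T k c ≤ s := by
    intro k hk c
    have h1 := (hT k hk).2.2.2
    have h2 : T k c ≤ ∑ c, T k c :=
      Finset.single_le_sum (f := fun c => T k c) (fun i _ => Nat.zero_le _) (Finset.mem_univ c)
    omega
  have hsame : ∀ k ∈ A1, T k0 ∈ F k ∧ T' k0 ∈ F k := by
    intro k hk
    have hkA := hA1A hk
    have hfk : f k = f k0 := by
      rw [hk0y]
      exact (Finset.mem_filter.mp (hA1 hk)).2
    have hab : a k = a k0 ∧ b k = b k0 := by
      have := congrArg Prod.snd hfk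
      simp only [f, Prod.mk.injEq] at this
      exact this
    have hTT : T k = T k0 := by
      have h1 := congrArg Prod.fst hfk
      funext c
      have h2 := congrArg Fin.val (congrFun h1 c)
      simp only [f] at h2
      have h3 := hle k hkA c
      have h4 := hle k0 hk0A c
      omega
    have hTT' : T' k = T' k0 := by
      have h1 := (hT k hkA).2.2.1
      have h2 := (hT k0 hk0A).2.2.1
      rw [hTT, hab.1, hab.2] at h1
      exact ITV4.mv_unique h1 h2
    refine ⟨?_, ?_⟩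
    · rw [← hTT]
      exact (hT k hkA).1
    · rw [← hTT']
      exact (hT k hkA).2.1
  obtain ⟨q, hq⟩ := h3 d (d * s) K F A1 (T k0) (T' k0) (a k0) (b k0) hF (hT k0 hk0A).2.2.1
    hsame hcA1
  obtain ⟨w2, hw2, hb2⟩ := h2 d s K F (A \ A1) hF (by
    intro k hk
    have hkA := (Finset.mem_sdiff.mp hk).1
    exact ⟨T k, (hT k hkA).1, hle k hkA⟩)
  let x : Fin d → ℕ := fun c => ∑ k ∈ A \ A1, w2 k c
  let yb : Fin d → ℕ := fun c => (∑ c, x c) / d + (if (c : ℕ) < (∑ c, x c) % d then 1 else 0)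
  have hsum : ∑ c, x c = ∑ c, yb c := (ITV4.sum_bal d (∑ c, x c) hd).symm
  have hdiff : ∑ c, (x c - yb c) ≤ d * s := by
    obtain ⟨j, hj⟩ := ITV4.exlow d hd x
    have h1 : ∀ c ∈ (univ : Finset (Fin d)), x c - yb c ≤ s := by
      intro c _
      have h5 : x c ≤ x j + s := hb2 c j
      have h6 : (∑ c, x c) / d ≤ yb c := Nat.le_add_right _ _
      omega
    calc ∑ c, (x c - yb c) ≤ ∑ _c : Fin d, s := Finset.sum_le_sum h1
      _ = d * s := by simp
  obtain ⟨w1, hw1, hs1⟩ := hq x yb hsum hdiff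
  refine ⟨fun k => if k ∈ A1 then w1 k else w2 k, ?_, ?_⟩
  · intro k hk
    by_cases hk1 : k ∈ A1
    · simp only [if_pos hk1]
      exact hw1 k hk1
    · simp only [if_neg hk1]
      exact hw2 k (Finset.mem_sdiff.mpr ⟨hk, hk1⟩)
  · have comb : ∀ c : Fin d, ∑ k ∈ A, (if k ∈ A1 then w1 k else w2 k) c = q + yb c := by
      intro c
      rw [← Finset.sum_sdiff hA1A, add_comm]
      rw [← hs1 c]
      congr 1
      · apply Finset.sum_congr rfl
        intro k hk
        rw [if_pos hk]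
      · apply Finset.sum_congr rfl
        intro k hk
        rw [if_neg (Finset.mem_sdiff.mp hk).2]
    intro i j
    simp only []
    rw [comb i, comb j]
    have h1 : yb i ≤ (∑ c, x c) / d + 1 := by
      simp only [yb]
      split_ifs <;> omega
    have h2 : (∑ c, x c) / d ≤ yb j := Nat.le_add_right _ _
    omega

end

end Pool.Agent.Work.MP_47f387_co.Large

end

section

/-!
# MP_47f387_co, item V5: the general vector lemma
-/

namespace Pool.Agent.Work.MP_47f387_co.Large

open Finset Classical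

noncomputable section

namespace ITV5

/-- balanced vectors with given sum -/
theorem exBal (d : ℕ) (hd : 1 ≤ d) (P : ℕ) : ∃ b : Fin d → ℕ, Bal b ∧ ∑ c, b c = P := by
  refine ⟨fun c => P / d + if c.val < P % d then 1 else 0, ?_, ?_⟩
  · intro i j
    dsimp only
    split_ifs <;> omega
  · rw [Finset.sum_add_distrib]
    simp only [Finset.sum_const, Finset.card_univ, Fintype.card_fin, smul_eq_mul]
    have h1 : ∑ c : Fin d, (if c.val < P % d then 1 else 0) = P % d := by
      rw [Fin.sum_univ_eq_sum_range (fun i => if i < P % d then 1 else 0) d,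
        ← Finset.card_filter]
      have : (range d).filter (fun i => i < P % d) = range (P % d) := by
        ext i
        simp only [mem_filter, mem_range]
        have := Nat.mod_lt P (by omega : d > 0)
        constructor
        · exact fun h => h.2
        · intro h
          exact ⟨by omega, h⟩
      rw [this, card_range]
    rw [h1]
    exact Nat.div_add_mod P d

theorem caseA (h0 : V0) {d : ℕ} {K : Type} [Fintype K] (F : K → Set (Fin d → ℕ)) (hPC : PC F)
    (S : Finset K) (w1 w2 : K → Fin d → ℕ) (h1 : ∀ k ∈ S, w1 k ∈ F k)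
    (h2 : ∀ k ∈ Sᶜ, w2 k ∈ F k) (b1 : Bal (fun c => ∑ k ∈ S, w1 k c))
    (b2 : Bal (fun c => ∑ k ∈ Sᶜ, w2 k c)) :
    ∃ w : K → Fin d → ℕ, (∀ k, w k ∈ F k) ∧ Bal (fun c => ∑ k, w k c) := by
  obtain ⟨π, hπ⟩ := h0 d _ _ b1 b2
  refine ⟨fun k => if k ∈ S then w1 k else fun c => w2 k (π c), ?_, ?_⟩
  · intro k
    by_cases hk : k ∈ S
    · simp only [hk, if_true]
      exact h1 k hk
    · simp only [hk, if_false]
      exact hPC k _ π (h2 k (by simpa using hk))
  · have : (fun c => ∑ k, (if k ∈ S then w1 k else fun c => w2 k (π c)) c) =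
        fun c => ∑ k ∈ S, w1 k c + ∑ k ∈ Sᶜ, w2 k (π c) := by
      funext c
      rw [← Finset.sum_add_sum_compl S]
      congr 1
      · refine Finset.sum_congr rfl fun k hk => ?_
        simp only [hk, if_true]
      · refine Finset.sum_congr rfl fun k hk => ?_
        have : k ∉ S := by simpa using hk
        simp only [this, if_false]
    rw [this]
    exact hπ

theorem caseB {d : ℕ} (hd : 1 ≤ d) {K : Type} [Fintype K] (F : K → Set (Fin d → ℕ))
    (p : K → ℕ) (hp : ∀ k, ∀ t ∈ F k, ∑ c, t c = p k) (k0 : K) (m : ℕ)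
    (w : K → Fin d → ℕ) (hw : ∀ k, k ≠ k0 → w k ∈ F k)
    (hu : ∀ i j, ∑ k ∈ univ.erase k0, w k i ≤ ∑ k ∈ univ.erase k0, w k j + m)
    (hk0 : ∀ t : Fin d → ℕ, ∑ c, t c = p k0 → (∀ i j, t i ≤ t j + (m + 1)) → t ∈ F k0)
    (hb : d * (m + 2) ≤ p k0) :
    ∃ w : K → Fin d → ℕ, (∀ k, w k ∈ F k) ∧ Bal (fun c => ∑ k, w k c) := by
  set u : Fin d → ℕ := fun c => ∑ k ∈ univ.erase k0, w k c with hudef
  have hu' : ∀ i j, u i ≤ u j + m := hu
  obtain ⟨τ, hτ, hτs⟩ := exBal d hd (∑ k, p k)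
  have hsum : ∑ c, u c = ∑ k ∈ univ.erase k0, p k := by
    rw [hudef, Finset.sum_comm]
    refine Finset.sum_congr rfl fun k hk => ?_
    exact hp k _ (hw k (Finset.ne_of_mem_erase hk))
  have hP : ∑ k, p k = p k0 + ∑ c, u c := by
    rw [hsum, Finset.add_sum_erase univ p (Finset.mem_univ k0)]
  have hdu : ∀ c, d * u c ≤ ∑ j, u j + d * m := by
    intro c
    have : ∑ _j : Fin d, u c ≤ ∑ j : Fin d, (u j + m) := Finset.sum_le_sum fun j _ => hu' c j
    simpa [Finset.sum_add_distrib] using this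
  have hdt : ∀ c, ∑ j, τ j ≤ d * τ c + d := by
    intro c
    have : ∑ j : Fin d, τ j ≤ ∑ _j : Fin d, (τ c + 1) := Finset.sum_le_sum fun j _ => hτ j c
    simpa [mul_add] using this
  have hle : ∀ c, u c ≤ τ c := by
    intro c
    have h1 := hdu c
    have h2 := hdt c
    rw [hτs, hP] at h2
    have h3 : d * (u c + 1) ≤ d * (τ c) := by nlinarith
    have h4 := Nat.le_of_mul_le_mul_left h3 (by omega)
    omega
  set t : Fin d → ℕ := fun c => τ c - u c with htdef
  have htu : ∀ c, t c + u c = τ c := fun c => Nat.sub_add_cancel (hle c)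
  have htF : t ∈ F k0 := by
    refine hk0 t ?_ ?_
    · have h1 : ∑ c, t c + ∑ c, u c = ∑ c, τ c := by
        rw [← Finset.sum_add_distrib]
        exact Finset.sum_congr rfl fun c _ => htu c
      rw [hτs, hP] at h1
      omega
    · intro i j
      have h1 := htu i
      have h2 := htu j
      have h3 := hτ i j
      have h4 := hu' j i
      omega
  refine ⟨fun k => if k = k0 then t else w k, ?_, ?_⟩
  · intro k
    by_cases hk : k = k0
    · subst hk
      simp only [if_true]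
      exact htF
    · simp only [hk, if_false]
      exact hw k hk
  · have : (fun c => ∑ k, (if k = k0 then t else w k) c) = τ := by
      funext c
      rw [← Finset.add_sum_erase univ _ (Finset.mem_univ k0)]
      simp only [if_true]
      rw [← htu c]
      congr 1
      refine Finset.sum_congr rfl fun k hk => ?_
      rw [if_neg (Finset.ne_of_mem_erase hk)]
    rw [this]
    exact hτ

end ITV5

theorem prfV5 (h0 : V0) (h1 : V1) (h4 : V4) : V5 := by
  intro d hd N1
  obtain ⟨N2, hN2⟩ := h4 d (N1 1)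
  set m0 := N1 1 * N2 with hm0
  set N3 := max (N1 (m0 + 2)) (d * (m0 + 3)) + 1 with hN3
  obtain ⟨N4, hN4⟩ := h4 d N3
  refine ⟨N3 * N4 + 1, ?_⟩
  intro K _ F p hPC hp hp1 hmv hF hN
  set S : Finset K := univ.filter fun k => p k < N1 1 with hS
  have hbal : ∀ k, k ∉ S → ∃ t ∈ F k, Bal t := by
    intro k hk
    have hk' : N1 1 ≤ p k := by
      by_contra hlt
      exact hk (by rw [hS]; simp; omega)
    obtain ⟨b, hb, hbs⟩ := ITV5.exBal d hd (p k)
    exact ⟨b, hF 1 k hk' b hbs hb, hb⟩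
  by_cases hA : N2 ≤ S.card
  · obtain ⟨w1, hw1, hb1⟩ := hN2 K F S hPC (by
      intro k hk
      obtain ⟨t, ht, t', ht', a, b, hab⟩ := hmv k
      refine ⟨t, ht, t', ht', a, b, hab, ?_⟩
      rw [hp k t ht]
      rw [hS] at hk
      simp at hk
      omega) hA
    obtain ⟨w2, hw2, hb2⟩ := h1 d K F Sᶜ hPC (by
      intro k hk
      exact hbal k (by simpa using hk))
    exact ITV5.caseA h0 F hPC S w1 w2 hw1 hw2 hb1 hb2
  by_cases hB : ∃ k0, N3 ≤ p k0
  · obtain ⟨k0, hk0⟩ := hB
    have hk0' : max (N1 (m0 + 2)) (d * (m0 + 3)) ≤ p k0 := by omega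
    obtain ⟨w2, hw2, hb2⟩ := h1 d K F (Sᶜ.erase k0) hPC (by
      intro k hk
      exact hbal k (by simpa using (Finset.mem_of_mem_erase hk)))
    choose t ht _ _ _ _ _ using hmv
    have htle : ∀ k ∈ S, ∀ c, t k c ≤ N1 1 := by
      intro k hk c
      have h5 := hp k (t k) (ht k)
      have h6 : t k c ≤ ∑ c, t k c := Finset.single_le_sum (f := t k)
        (fun _ _ => Nat.zero_le _) (Finset.mem_univ c)
      rw [hS] at hk
      simp at hk
      omega
    have hu1 : ∀ c, ∑ k ∈ S.erase k0, t k c ≤ m0 := by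
      intro c
      calc ∑ k ∈ S.erase k0, t k c ≤ ∑ _k ∈ S.erase k0, N1 1 :=
            Finset.sum_le_sum fun k hk => htle k (Finset.mem_of_mem_erase hk) c
        _ = (S.erase k0).card * N1 1 := by simp
        _ ≤ N2 * N1 1 := by
            have := Finset.card_le_card (Finset.erase_subset k0 S)
            exact Nat.mul_le_mul_right _ (by omega)
        _ = m0 := by rw [hm0, mul_comm]
    have hsplit : ∀ c, ∑ k ∈ univ.erase k0, (if k ∈ S then t k else w2 k) c =
        ∑ k ∈ S.erase k0, t k c + ∑ k ∈ Sᶜ.erase k0, w2 k c := by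
      intro c
      have hdis : Disjoint (S.erase k0) (Sᶜ.erase k0) :=
        Disjoint.mono (Finset.erase_subset _ _) (Finset.erase_subset _ _) disjoint_compl_right
      have hun : univ.erase k0 = (S.erase k0) ∪ (Sᶜ.erase k0) := by
        ext k
        simp only [mem_erase, mem_univ, and_true, mem_union, mem_compl]
        tauto
      rw [hun, Finset.sum_union hdis]
      congr 1
      · refine Finset.sum_congr rfl fun k hk => ?_
        rw [if_pos (Finset.mem_of_mem_erase hk)]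
      · refine Finset.sum_congr rfl fun k hk => ?_
        have : k ∉ S := by simpa using (Finset.mem_of_mem_erase hk)
        rw [if_neg this]
    refine ITV5.caseB hd F p hp k0 (m0 + 1) (fun k => if k ∈ S then t k else w2 k) ?_ ?_ ?_ ?_
    · intro k hk
      by_cases hkS : k ∈ S
      · simp only [hkS, if_true]
        exact ht k
      · simp only [hkS, if_false]
        exact hw2 k (by simp [hk, hkS])
    · intro i j
      rw [hsplit i, hsplit j]
      have h5 := hb2 i j
      have h6 := hu1 i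
      simp only at h5
      omega
    · intro t' hs' ht'
      exact hF (m0 + 2) k0 (le_trans (le_max_left _ _) hk0') t' hs' ht'
    · exact le_trans (le_max_right _ _) hk0'
  · push Not at hB
    have hcard : N4 ≤ (univ : Finset K).card := by
      by_contra hlt
      have h5 : ∑ k, p k ≤ ∑ _k : K, N3 := Finset.sum_le_sum fun k _ => (hB k).le
      have h6 : ∑ _k : K, N3 = (univ : Finset K).card * N3 := by simp
      have h7 : (univ : Finset K).card * N3 ≤ N4 * N3 := Nat.mul_le_mul_right _ (by omega)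
      have h8 : N4 * N3 = N3 * N4 := mul_comm _ _
      omega
    obtain ⟨w, hw, hb⟩ := hN4 K F univ hPC (by
      intro k _
      obtain ⟨t, ht, t', ht', a, b, hab⟩ := hmv k
      refine ⟨t, ht, t', ht', a, b, hab, ?_⟩
      rw [hp k t ht]
      exact (hB k).le) hcard
    exact ⟨w, fun k => hw k (Finset.mem_univ k), hb⟩

end

end Pool.Agent.Work.MP_47f387_co.Large

end

section

/-!
# MP_47f387_co: versions with explicit constants
-/

namespace Pool.Agent.Work.MP_47f387_co.Large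

open Finset Classical

noncomputable section

/-- the constant of `B7` -/
def cM (d K : ℕ) : ℕ := 4 * ((d + d * d) * (d + 1) ^ ((K + 3) + (K + 3)))

/-- the constant of `A13` -/
def c0 (d : ℕ) : ℕ := 5 * (d + 1) ^ rad d

/-- the constant of `B8` -/
def c8 (d : ℕ) : ℕ := 16 * c0 d * d ^ 2

/-- the radius of `B8` -/
def cR (d R : ℕ) : ℕ := 2 * R + 8 * c0 d * (d + 1) ^ 3

/-- the order of `B8` -/
def n8 (d R : ℕ) : ℕ :=
  cR d R + R ^ 2 * cM d ((cR d R + 1) * (d + 1)) + 16 * c0 d +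
    256 * c0 d ^ 2 * d ^ 4 * cM d ((cR d R + 1) * (d + 1))

/-- the constant of `C3` -/
def c3 (d : ℕ) : ℕ := c8 d * (d * d * (d + 1) ^ 6)

/-- the order of `C3` -/
def n3 (d R : ℕ) : ℕ := max (n8 d R) (c3 d)

/-- the order of `D1` -/
def n1 (d m : ℕ) : ℕ :=
  n3 d (8 * (d + 1) * (2 * c3 d)) + 8 * (d + 1) * (2 * c3 d) * (m + 1)

/-- explicit `B7` -/
def B7x : Prop := ∀ (d K : ℕ), 1 ≤ d → ∀ (V : Type) [Fintype V] (G : SimpleGraph V)
  (F : (V → Equiv.Perm (Fin d)) → V → Option (Fin d)), BD d G →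
  (∀ (π : Equiv.Perm (Fin d)) σ v, F (fun u => π * σ u) v = (F σ v).map π) →
  (∀ σ τ v, (∀ u, Near G K v u → σ u = τ u) → F σ v = F τ v) →
  ∀ A : ℕ, (∀ σ, A ≤ ∑ i : Fin d, ∑ j : Fin d, (univ.filter (fun v => Flex G (F σ) i j v)).card) →
    ∃ σ, (∀ c c' : Fin d, ((cnt (F σ) (some c) : ℝ) - cnt (F σ) (some c')) ^ 2 ≤
        (cM d K : ℝ) * Fintype.card V) ∧
      ∀ i j : Fin d, i ≠ j →
        (A : ℝ) / (d : ℝ) ^ 2 ≤ ((univ.filter (fun v => Flex G (F σ) i j v)).card : ℝ) +
          Real.sqrt ((cM d K : ℝ) * Fintype.card V)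

/-- explicit `B8` -/
def B8x : Prop := ∀ d : ℕ, 6 ≤ d → ∀ R : ℕ,
  ∀ (V : Type) [Fintype V] (G : SimpleGraph V), G.Connected → BD d G →
    c8 d * (univ.filter (fun v => InK d G v)).card ≤ Fintype.card V → n8 d R ≤ Fintype.card V →
    ∃ f : V → Option (Fin d), Proper G f ∧ R * cnt f none ≤ Fintype.card V ∧
      (∀ c c' : Fin d, R * cnt f (some c) ≤ R * cnt f (some c') + Fintype.card V) ∧
      ∀ i j : Fin d, i ≠ j →
        Fintype.card V ≤ c8 d * (univ.filter (fun v => Flex G f i j v)).card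

/-- explicit `C3` -/
def C3x : Prop := ∀ d : ℕ, 6 ≤ d → ∀ R : ℕ,
  ∀ (V : Type) [Fintype V] (G : SimpleGraph V), G.Connected → BD d G →
    2 * c3 d * (univ.filter (fun v => InK d G v)).card ≤ Fintype.card V →
    n3 d R ≤ Fintype.card V →
    ∃ f : V → Option (Fin d), Proper G f ∧ R * cnt f none ≤ Fintype.card V ∧
      (∀ c c' : Fin d, R * cnt f (some c) ≤ R * cnt f (some c') + Fintype.card V) ∧
      ∃ (W : Finset V) (a b : V → Fin d), Special G f W a b ∧
        ∀ i j : Fin d, i ≠ j →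
          Fintype.card V ≤ 2 * c3 d * (W.filter (fun w => a w = i ∧ b w = j)).card

/-- explicit `D1` -/
def D1x : Prop := ∀ d : ℕ, 6 ≤ d → ∀ m : ℕ, ∀ (V : Type) [Fintype V] (G : SimpleGraph V),
  G.Connected → BD d G → G.CliqueFree d → n1 d m ≤ Fintype.card V → ∀ t : Fin d → ℕ,
    ∑ c, t c = Fintype.card V → (∀ i j, t i ≤ t j + m) → Colb G univ t

/-- simple upper bound for the orders -/
def N1x : Prop := ∀ d m : ℕ, 6 ≤ d →
  n1 d m * (d + 1) ≤ (m + 1) * (d + 1) ^ ((d + 1) ^ (rad d + 17))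

/-- the number of families in `V4` -/
def v4 (d s : ℕ) : ℕ := (s + 1) ^ d * (d * d) * (d * s * d.factorial) + 1

/-- explicit `V4` -/
def V4x : Prop := ∀ d s : ℕ, ∀ (K : Type) [Fintype K] (F : K → Set (Fin d → ℕ))
  (A : Finset K), PC F →
  (∀ k ∈ A, ∃ t ∈ F k, ∃ t' ∈ F k, ∃ a b, Mv t t' a b ∧ ∑ c, t c ≤ s) →
  v4 d s ≤ A.card →
    ∃ w : K → Fin d → ℕ, (∀ k ∈ A, w k ∈ F k) ∧ Bal (fun c => ∑ k ∈ A, w k c)

/-- the bound for the small families in `V5` -/
def m5 (d B : ℕ) : ℕ := 2 * B * v4 d (2 * B)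

/-- the size of a very large family in `V5` -/
def s5 (d B : ℕ) : ℕ := max ((m5 d B + 3) * B) (d * (m5 d B + 3)) + 1

/-- explicit `V5`, with a linear bound for the orders of the large families -/
def V5x : Prop := ∀ d B : ℕ, 1 ≤ d → ∀ (K : Type) [Fintype K]
  (F : K → Set (Fin d → ℕ)) (p : K → ℕ), PC F → (∀ k, ∀ t ∈ F k, ∑ c, t c = p k) →
  (∀ k, 1 ≤ p k) → (∀ k, ∃ t ∈ F k, ∃ t' ∈ F k, ∃ a b, Mv t t' a b) →
  (∀ m k, (m + 1) * B ≤ p k → ∀ t : Fin d → ℕ, ∑ c, t c = p k → (∀ i j, t i ≤ t j + m) →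
    t ∈ F k) →
  s5 d B * v4 d (s5 d B) + 1 ≤ ∑ k, p k →
    ∃ w : K → Fin d → ℕ, (∀ k, w k ∈ F k) ∧ Bal (fun c => ∑ k, w k c)

/-- simple upper bound for the order in `V5` -/
def NVx : Prop := ∀ d B : ℕ, 2 ≤ d → 1 ≤ B →
  s5 d B * v4 d (s5 d B) + 1 ≤ (2 * d * B) ^ (10 * d ^ 3)

/-- the final numeric bound -/
def NFx : Prop := ∀ d : ℕ, 6 ≤ d →
  (d + 1) * (2 * d * (d + 1) ^ ((d + 1) ^ (rad d + 17))) ^ (10 * d ^ 3) ≤
    (d + 1) ^ ((d + 1) ^ 30)

/-- explicit `T1` -/
def T1x : Prop := ∀ d : ℕ, 6 ≤ d → ∀ (V : Type) [Fintype V] (G : SimpleGraph V),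
  BD d G → G.CliqueFree d → (d + 1) ^ ((d + 1) ^ 30) ≤ (d + 1) * Fintype.card V →
    ∃ t : Fin d → ℕ, Bal t ∧ Colb G univ t

/-- explicit `T2` -/
def T2x : Prop := ∀ d : ℕ, 6 ≤ d →
  (∀ (V : Type) [Fintype V] (G : SimpleGraph V), G.Connected → BD d G → G.CliqueFree d →
    (Odd d → KF d G) → Fintype.card V < (d + 1) ^ ((d + 1) ^ (rad d + 17)) →
    ∃ t : Fin d → ℕ, Bal t ∧ Colb G univ t) →
  ∀ (V : Type) [Fintype V] (G : SimpleGraph V), BD d G → G.CliqueFree d →
    (Odd d → KF d G) → ∃ t : Fin d → ℕ, Bal t ∧ Colb G univ t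

/-- explicit `T3` -/
def T3x : Prop := ∀ d : ℕ, 6 ≤ d → ∀ (V : Type) [Fintype V] [DecidableEq V]
  (G : SimpleGraph V) [DecidableRel G.Adj], (∀ v, G.degree v ≤ d) → G.CliqueFree (d + 1) →
  (∀ P : Finset (Finset V), (∀ B ∈ P, G.IsNClique d B) →
    (∀ B ∈ P, ∀ B' ∈ P, B ≠ B' → Disjoint B B') →
    P.card * d + (d + 1) ^ ((d + 1) ^ 30) ≤ Fintype.card V) →
    Equi G d

/-- explicit `T4` -/
def T4x : Prop := ∀ d : ℕ, 6 ≤ d →
  (∀ (V : Type) [Fintype V] [DecidableEq V] (G : SimpleGraph V) [DecidableRel G.Adj],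
    G.Connected → (∀ v, G.degree v ≤ d) → G.CliqueFree d → (Odd d → KF d G) →
    Fintype.card V < (d + 1) ^ ((d + 1) ^ (rad d + 17)) → Equi G d) →
  ∀ (V : Type) [Fintype V] [DecidableEq V] (G : SimpleGraph V) [DecidableRel G.Adj],
    (∀ v, G.degree v ≤ d) → G.CliqueFree (d + 1) → (Odd d → KF d G) → Equi G d

end

end Pool.Agent.Work.MP_47f387_co.Large

end

section

namespace Pool.Agent.Work.MP_47f387_co.Large

open Finset Classical

noncomputable section

theorem prfT2 (h1 : V1) (d1 : D1) (p1 : P1) (p2 : P2) : T2 := by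
  intro d hd
  have hd1 : 1 ≤ d := by omega
  obtain ⟨N, hN⟩ := d1 d hd 1
  refine ⟨N, fun hyp V _ G hBD hfree hKF => ?_⟩
  obtain ⟨w, hw, hbal⟩ := h1 d G.ConnectedComponent
    (fun k => {t | Colb k.toSimpleGraph univ t}) univ
    (fun k t π ht => IT1.colb_perm ht π)
    (fun k _ => by
      have hB := IT1.comp_BD p2 hd1 hBD k
      have hC := IT1.comp_CF p2 hd1 hfree k
      by_cases hk : Fintype.card k < N
      · obtain ⟨t, ht1, ht2⟩ := hyp k k.toSimpleGraph k.connected_toSimpleGraph hB hC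
          (fun ho => IT1.comp_KF p2 hd1 (hKF ho) k) hk
        exact ⟨t, ht2, ht1⟩
      · obtain ⟨t, ht1, ht2⟩ := IT1.exists_bal hd1 (Fintype.card k)
        exact ⟨t, hN k k.toSimpleGraph k.connected_toSimpleGraph hB hC (not_lt.1 hk) t ht1 ht2,
          ht2⟩)
  exact ⟨_, hbal, p1 d V G w hd1 (fun k => hw k (mem_univ k))⟩

end

end Pool.Agent.Work.MP_47f387_co.Large

end

section

namespace Pool.Agent.Work.MP_47f387_co.Large

open Finset Classical

noncomputable section

open IB7 in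
theorem prfB7x (h4 : B4) (h5 : B5) (h6 : B6) : B7x := by
  intro d K hd
  intro V _ G F hBD heq hloc A hA
  obtain ⟨D, hD⟩ : ∃ D : ℕ, D = (d + 1) ^ ((K + 3) + (K + 3)) := ⟨_, rfl⟩
  obtain ⟨σ, hσ⟩ := second h4 h5 G F hBD hloc hD
  unfold cM
  rw [← hD]
  have hT : (0 : ℝ) < (Fintype.card (V → Equiv.Perm (Fin d)) : ℝ) :=
    Nat.cast_pos.2 Fintype.card_pos
  obtain ⟨T, hTdef⟩ : ∃ T : ℝ, T = (Fintype.card (V → Equiv.Perm (Fin d)) : ℝ) := ⟨_, rfl⟩
  rw [← hTdef] at hσ hT
  obtain ⟨m, hm⟩ : ∃ m : ℝ, m = (((d + d * d) * D : ℕ) : ℝ) * (Fintype.card V : ℝ) := ⟨_, rfl⟩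
  rw [← hm] at hσ
  have hm4 : (4 : ℝ) * m = ((4 * ((d + d * d) * D) : ℕ) : ℝ) * (Fintype.card V : ℝ) := by
    rw [hm]; push_cast; ring
  have hm0 : 0 ≤ m := by
    rw [hm]
    exact mul_nonneg (Nat.cast_nonneg _) (Nat.cast_nonneg _)
  obtain ⟨h61, h62⟩ := h6 d V G F heq
  refine ⟨σ, ?_, ?_⟩
  · intro c c'
    have h1 := hσ (Sum.inl c)
    have h2 := hσ (Sum.inl c')
    simp_rw [PP_inl] at h1 h2
    have h3 : (∑ τ : V → Equiv.Perm (Fin d), ((cnt (F τ) (some c) : ℕ) : ℝ)) =
        ∑ τ : V → Equiv.Perm (Fin d), ((cnt (F τ) (some c') : ℕ) : ℝ) := by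
      rw [← Nat.cast_sum, ← Nat.cast_sum, h61 c c']
    rw [h3] at h1
    exact (sq_step h1 h2).trans hm4.le
  · intro i j hij
    have h1 := low_step (hσ (Sum.inr (i, j)))
    simp_rw [PP_inr] at h1
    have h2 := avg_low d hd (fun i' j' (τ : V → Equiv.Perm (Fin d)) =>
      ((univ.filter (fun v => Flex G (F τ) i' j' v)).card : ℝ)) T (A : ℝ) hTdef hT
      (fun i' j' τ => Nat.cast_nonneg _)
      (fun i' τ => by
        rw [Nat.cast_eq_zero, Finset.card_eq_zero, Finset.filter_eq_empty_iff]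
        intro v _
        exact flex_irrefl)
      (fun i₁ j₁ i₂ j₂ h₁ h₂ => by
        rw [← Nat.cast_sum, ← Nat.cast_sum, h62 i₁ j₁ i₂ j₂ h₁ h₂])
      (fun τ => by exact_mod_cast hA τ) i j hij
    refine h2.trans (h1.trans ?_)
    have h3 : Real.sqrt m ≤
        Real.sqrt (((4 * ((d + d * d) * D) : ℕ) : ℝ) * (Fintype.card V : ℝ)) := by
      apply Real.sqrt_le_sqrt
      rw [← hm4]
      linarith
    linarith

end

end Pool.Agent.Work.MP_47f387_co.Large

end

section

namespace Pool.Agent.Work.MP_47f387_co.Large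

open Finset Classical

noncomputable section

open IB8 in
theorem prfB8x (h13 : A13) (h1 : B1) (h2 : B2) (h3 : B3) (h7 : B7x) : B8x := by
  intro d hd
  set C0 : ℕ := 5 * (d + 1) ^ rad d with hC0
  have hC0pos : 1 ≤ C0 := by
    have : 0 < (d + 1) ^ rad d := by positivity
    omega
  intro R
  set R' : ℕ := 2 * R + 8 * C0 * (d + 1) ^ 3 with hR'
  obtain ⟨M, hMdef⟩ : ∃ M, M = cM d ((R' + 1) * (d + 1)) := ⟨_, rfl⟩
  have hM := h7 d ((R' + 1) * (d + 1)) (by omega)
  rw [← hMdef] at hM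
  intro V _ G hconn hBD hInK hN
  have hc8 : c8 d = 16 * C0 * d ^ 2 := rfl
  rw [hc8] at hInK ⊢
  have hn8 : n8 d R = R' + R ^ 2 * M + 16 * C0 + 256 * C0 ^ 2 * d ^ 4 * M := by
    rw [hMdef]; rfl
  rw [hn8] at hN
  clear hn8 hc8 hMdef
  clear_value R' C0
  obtain ⟨Z, hZ1, hZ2⟩ := h1 V G R' hconn (by omega)
  obtain ⟨key, hk1, hk2, hk3⟩ := h2 d V G R' Z hBD hZ2
  obtain ⟨F, hF1, hF2, hF3, hF4⟩ := h3 d V G _ Z key hBD hk1 hk2 hk3
  set n := Fintype.card V with hn
  have key1 : ∀ σ, n / (2 * C0) ≤ ∑ i : Fin d, ∑ j : Fin d,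
      (univ.filter (fun v => Flex G (F σ) i j v)).card := by
    intro σ
    have e1 := h13 d V G (F σ) hd hBD (hF1 σ)
    rw [← hC0] at e1
    have e2 := notGood_card hBD Z (F σ) (hF2 σ)
    set S := ∑ i : Fin d, ∑ j : Fin d, (univ.filter (fun v => Flex G (F σ) i j v)).card with hS
    set q := (univ.filter (fun v => InK d G v)).card with hq
    have e3 : n ≤ C0 * (Z.card * (d + 1) ^ 3 + S + q) := e1.trans (Nat.mul_le_mul_left _ e2)
    have e4 : 8 * (C0 * (Z.card * (d + 1) ^ 3)) ≤ 2 * n := by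
      calc 8 * (C0 * (Z.card * (d + 1) ^ 3)) = 8 * C0 * (d + 1) ^ 3 * Z.card := by ring
        _ ≤ R' * Z.card := Nat.mul_le_mul_right _ (by omega)
        _ ≤ 2 * n := hZ1
    have e5 : 16 * (C0 * q) ≤ n := by
      refine le_trans ?_ hInK
      have hd2 : 1 ≤ d ^ 2 := Nat.one_le_pow _ _ (by omega)
      calc 16 * (C0 * q) = 16 * C0 * 1 * q := by ring
        _ ≤ 16 * C0 * d ^ 2 * q := by gcongr
    have e6 : n ≤ 2 * C0 * S := by
      have : C0 * (Z.card * (d + 1) ^ 3 + S + q) =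
        C0 * (Z.card * (d + 1) ^ 3) + C0 * S + C0 * q := by ring
      have h' : 2 * C0 * S = 2 * (C0 * S) := by ring
      omega
    exact Nat.div_le_of_le_mul e6
  obtain ⟨σ, hσ1, hσ2⟩ := hM V G F hBD hF3 hF4 (n / (2 * C0)) key1
  have hnR : ((R : ℝ) ^ 2 * M) ≤ (n : ℝ) := by
    have : R ^ 2 * M ≤ n := by omega
    exact_mod_cast this
  refine ⟨F σ, hF1 σ, ?_, ?_, ?_⟩
  · have hc : cnt (F σ) none ≤ Z.card := by
      apply card_le_card
      intro v hv
      rw [mem_filter] at hv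
      by_contra hz
      exact hF2 σ v hz hv.2
    have h5 : 2 * (R * Z.card) ≤ 2 * n := by
      calc 2 * (R * Z.card) = 2 * R * Z.card := by ring
        _ ≤ R' * Z.card := Nat.mul_le_mul_right _ (by omega)
        _ ≤ 2 * n := hZ1
    have h6 : R * cnt (F σ) none ≤ R * Z.card := Nat.mul_le_mul_left _ hc
    omega
  · intro c c'
    have h5 := real_sq_le (R := (R : ℝ)) (n := (n : ℝ)) (M := (M : ℝ)) (by positivity)
      (by positivity) (hσ1 c c') hnR
    have h6 : (R : ℝ) * cnt (F σ) (some c) ≤ R * cnt (F σ) (some c') + n := by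
      rw [mul_sub] at h5
      linarith
    exact_mod_cast h6
  · intro i j hij
    have h5 := hσ2 i j hij
    set x : ℝ := ((univ.filter (fun v => Flex G (F σ) i j v)).card : ℝ) with hx
    have hd0 : (0 : ℝ) < (d : ℝ) ^ 2 := by
      have : (0 : ℝ) < d := by exact_mod_cast (by omega : 0 < d)
      positivity
    have hC0r : (0 : ℝ) < (C0 : ℝ) := by exact_mod_cast hC0pos
    have h6 : (n : ℝ) / (2 * C0) - 1 ≤ ((n / (2 * C0) : ℕ) : ℝ) := by
      have := Nat.lt_floor_add_one ((n : ℝ) / ((2 * C0 : ℕ) : ℝ))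
      rw [Nat.floor_div_eq_div] at this
      push_cast at this
      push_cast
      linarith
    have h7 : (16 * C0 * (d : ℝ) ^ 2) * Real.sqrt ((M : ℝ) * n) ≤ n := by
      have h8 : (16 * C0 * (d : ℝ) ^ 2) ^ 2 * M ≤ (n : ℝ) := by
        have : 256 * C0 ^ 2 * d ^ 4 * M ≤ n := by omega
        have h9 : ((256 * C0 ^ 2 * d ^ 4 * M : ℕ) : ℝ) ≤ (n : ℝ) := by exact_mod_cast this
        push_cast at h9
        linarith
      apply real_sq_le (M := (M : ℝ)) (by positivity) (by positivity) _ h8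
      rw [Real.sq_sqrt (by positivity)]
    have h8 : (16 * (C0 : ℝ)) ≤ n := by
      have : 16 * C0 ≤ n := by omega
      exact_mod_cast this
    have h9 : ((n / (2 * C0) : ℕ) : ℝ) ≤ (d : ℝ) ^ 2 * (x + Real.sqrt ((M : ℝ) * n)) := by
      rw [div_le_iff₀ hd0] at h5
      linarith
    have h10 : 16 * (C0 : ℝ) * ((n : ℝ) / (2 * C0) - 1) = 8 * n - 16 * C0 := by
      field_simp
      ring
    have h11 : 16 * (C0 : ℝ) * ((n : ℝ) / (2 * C0) - 1) ≤
        16 * (C0 : ℝ) * ((d : ℝ) ^ 2 * (x + Real.sqrt ((M : ℝ) * n))) := by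
      gcongr
      exact h6.trans h9
    have h12 : (n : ℝ) ≤ 16 * C0 * (d : ℝ) ^ 2 * x := by nlinarith
    have h13 : (n : ℝ) ≤ ((16 * C0 * d ^ 2 *
        (univ.filter (fun v => Flex G (F σ) i j v)).card : ℕ) : ℝ) := by
      push_cast
      exact h12
    exact_mod_cast h13

end

end Pool.Agent.Work.MP_47f387_co.Large

end

section

namespace Pool.Agent.Work.MP_47f387_co.Large

open Finset Classical

noncomputable section

theorem prfC3x (h8 : B8x) (h1 : C1) (h2 : C2) : C3x := by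
  intro d hd
  obtain ⟨C0, hC0def⟩ : ∃ C0, C0 = c8 d := ⟨_, rfl⟩
  have hC0 : 1 ≤ C0 := by
    rw [hC0def]
    unfold c8 c0
    have : 0 < 16 * (5 * (d + 1) ^ rad d) * d ^ 2 := by
      have : 0 < d := by omega
      positivity
    omega
  have hB8 := h8 d hd
  rw [← hC0def] at hB8
  set D : ℕ := C0 * (d * d * (d + 1) ^ 6) with hD
  have hDpos : 0 < D := by
    have : 0 < d := by omega
    positivity
  have hC0D : C0 ≤ D := by
    have : 0 < d * d * (d + 1) ^ 6 := by
      have : 0 < d := by omega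
      positivity
    exact Nat.le_mul_of_pos_right _ this
  intro R
  have hN0 := hB8 R
  intro V _ G hconn hBD hK hn
  have hc3 : c3 d = D := by rw [hD, hC0def]; rfl
  have hn3 : n3 d R = max (n8 d R) D := by rw [← hc3]; rfl
  rw [hc3] at hK ⊢
  rw [hn3] at hn
  obtain ⟨f, hP, hholes, hbal, hflex⟩ := hN0 V G hconn hBD
    ((Nat.mul_le_mul_right _ (by omega)).trans hK) ((le_max_left _ _).trans hn)
  set n := Fintype.card V with hn_def
  have hDn : D ≤ n := (le_max_right _ _).trans hn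
  set m : ℕ := n / D with hm
  have hm1 : 1 ≤ m := (Nat.one_le_div_iff hDpos).2 hDn
  have hmD : D * m ≤ n := Nat.mul_div_le n D
  have hmD2 : n ≤ 2 * D * m := by
    have q1 : n < D * (m + 1) := Nat.lt_mul_div_succ n hDpos
    nlinarith
  let Q : Type := {q : Fin d × Fin d × Fin m // q.1 ≠ q.2.1}
  have hQcard : Fintype.card Q ≤ d * d * m := by
    refine (Fintype.card_subtype_le _).trans (le_of_eq ?_)
    rw [Fintype.card_prod, Fintype.card_prod, Fintype.card_fin, Fintype.card_fin, mul_assoc]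
  obtain ⟨x, hx1, hx2⟩ := h1 d 6 V G Q
    (fun q => univ.filter (fun v => Flex G f q.1.1 q.1.2.1 v)) hBD (fun q => by
      have q1 := hflex q.1.1 q.1.2.1 q.2
      have q2 : Fintype.card Q * (d + 1) ^ 6 ≤ d * d * m * (d + 1) ^ 6 :=
        Nat.mul_le_mul_right _ hQcard
      refine q2.trans ?_
      refine Nat.le_of_mul_le_mul_left ?_ (by omega : 0 < C0)
      refine le_trans (le_of_eq ?_) (hmD.trans q1)
      rw [hD]
      ring)
  obtain ⟨f', w, hP', hcnt, hw⟩ := h2 d V G f Q (fun q => q.1.1) (fun q => q.1.2.1) x hP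
    (fun q => (mem_filter.1 (hx1 q)).2) hx2
  have hfar : ∀ q q', q ≠ q' → ¬ Near G 2 (w q) (w q') := by
    intro q q' hqq' hnear
    apply hx2 q q' hqq'
    have q1 := near_trans (near_trans (hw q).1 hnear) (near_symm (hw q').1)
    exact near_mono (by omega) q1
  have hinj : Function.Injective w := by
    intro q q' h
    by_contra hne
    exact hfar q q' hne (h ▸ near_refl 2 (w q))
  have hd0 : 0 < d := by omega
  let a : V → Fin d := fun v => if h : ∃ q, w q = v then (Classical.choose h).1.1 else ⟨0, hd0⟩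
  let b : V → Fin d := fun v => if h : ∃ q, w q = v then (Classical.choose h).1.2.1 else ⟨0, hd0⟩
  have ha : ∀ q, a (w q) = q.1.1 := by
    intro q
    have h : ∃ q', w q' = w q := ⟨q, rfl⟩
    have e : Classical.choose h = q := hinj (Classical.choose_spec h)
    simp only [a]
    rw [dif_pos h, e]
  have hb : ∀ q, b (w q) = q.1.2.1 := by
    intro q
    have h : ∃ q', w q' = w q := ⟨q, rfl⟩
    have e : Classical.choose h = q := hinj (Classical.choose_spec h)
    simp only [b]
    rw [dif_pos h, e]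
  refine ⟨f', hP', ?_, ?_, univ.image w, a, b, ⟨?_, ?_⟩, ?_⟩
  · rw [hcnt]
    exact hholes
  · intro c c'
    rw [hcnt, hcnt]
    exact hbal c c'
  · intro v hv
    obtain ⟨q, _, rfl⟩ := mem_image.1 hv
    rw [ha, hb]
    exact (hw q).2
  · intro v hv v' hv' hne
    obtain ⟨q, _, rfl⟩ := mem_image.1 hv
    obtain ⟨q', _, rfl⟩ := mem_image.1 hv'
    exact hfar q q' fun h => hne (by rw [h])
  · intro i j hij
    refine hmD2.trans (Nat.mul_le_mul_left _ ?_)
    let g : Fin m → V := fun k => w ⟨(i, j, k), hij⟩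
    have hg : Function.Injective g := by
      intro k k' h
      have q1 := hinj h
      have q2 := congrArg (fun q : Q => q.1.2.2) q1
      exact q2
    have hsub : univ.image g ⊆ (univ.image w).filter (fun v => a v = i ∧ b v = j) := by
      intro v hv
      obtain ⟨k, _, rfl⟩ := mem_image.1 hv
      refine mem_filter.2 ⟨mem_image.2 ⟨_, mem_univ _, rfl⟩, ?_, ?_⟩
      · exact ha ⟨(i, j, k), hij⟩
      · exact hb ⟨(i, j, k), hij⟩
    have q1 := card_le_card hsub
    rw [card_image_of_injective _ hg, card_univ, Fintype.card_fin] at q1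
    exact q1

end

end Pool.Agent.Work.MP_47f387_co.Large

end

section

namespace Pool.Agent.Work.MP_47f387_co.Large

open Finset Classical

noncomputable section

theorem prfD1x (h3 : C3x) (h5 : C5) (h6 : C6) : D1x := by
  intro d hd m
  obtain ⟨C, hCdef⟩ : ∃ C, C = 2 * c3 d := ⟨_, rfl⟩
  have hC1 : 1 ≤ C := by
    rw [hCdef]
    unfold c3 c8 c0
    have : 0 < 2 * (16 * (5 * (d + 1) ^ rad d) * d ^ 2 * (d * d * (d + 1) ^ 6)) := by
      have : 0 < d := by omega
      positivity
    omega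
  have hC := h3 d hd
  rw [← hCdef] at hC
  have hN := hC (8 * (d + 1) * C)
  intro V _ G hG hBD hfree hn t ht htm
  obtain ⟨N, hNdef⟩ : ∃ N, N = n3 d (8 * (d + 1) * C) := ⟨_, rfl⟩
  rw [← hNdef] at hN
  have hn1' : n1 d m = N + 8 * (d + 1) * C * (m + 1) := by
    rw [hNdef, hCdef]; rfl
  rw [hn1'] at hn
  have hK' : C * (univ.filter (fun v => InK d G v)).card ≤ Fintype.card V := by
    have : (univ.filter (fun v => InK d G v)) = ∅ := by
      rw [filter_eq_empty_iff]
      rintro v _ ⟨s, _, hs⟩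
      exact hfree s hs
    rw [this]
    simp
  obtain ⟨f, hf, hh, hbal, W, a, b, hW, hWc⟩ := hN V G hG hBD hK' (by omega)
  set n := Fintype.card V with hndef
  have hC8 : 1 ≤ 8 * (d + 1) * C := by
    have : 1 ≤ 8 * (d + 1) := by omega
    exact Nat.mul_le_mul this hC1
  have hmn : 8 * (d + 1) * C * m ≤ n := by
    refine le_trans ?_ hn
    exact (Nat.mul_le_mul_left _ (Nat.le_succ m)).trans (Nat.le_add_left _ _)
  have hn1 : 1 ≤ n := by
    refine le_trans ?_ hn
    have : 1 ≤ 8 * (d + 1) * C * (m + 1) := Nat.mul_le_mul hC8 (Nat.le_add_left 1 m)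
    exact this.trans (Nat.le_add_left _ _)
  set h := cnt f none with hhdef
  have hd0 : 0 < d := by omega
  let i0 : Fin d := ⟨0, by omega⟩
  let i1 : Fin d := ⟨1, by omega⟩
  have h01 : i0 ≠ i1 := by
    intro h; simpa [i0, i1] using congrArg Fin.val h
  have hWbig : n ≤ C * W.card :=
    (hWc i0 i1 h01).trans (Nat.mul_le_mul_left _ (card_le_card (filter_subset _ _)))
  have hhC : 8 * (d + 1) * (C * h) ≤ n := by
    calc 8 * (d + 1) * (C * h) = 8 * (d + 1) * C * h := by ring
      _ ≤ n := hh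
  have hlt : h < W.card := by
    by_contra hcon
    push Not at hcon
    have h1 : C * W.card ≤ C * h := Nat.mul_le_mul_left _ hcon
    have h2 : n ≤ C * h := hWbig.trans h1
    nlinarith [Nat.zero_le d]
  obtain ⟨f1, W1, hf1, hW1s, hW1c, hW1, hno1, hcnt1⟩ := h5 d V G f W a b hG hBD hf hW hlt
  have hsum1 : ∑ c : Fin d, cnt f1 (some c) = n := by
    have := IC7.sum_cnt f1
    rw [hno1, add_zero] at this
    exact this
  obtain ⟨c0, hc0⟩ : ∃ c0 : Fin d, cnt f1 (some c0) ≤ t c0 := by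
    by_contra hcon
    push Not at hcon
    have h1 : ∑ c : Fin d, (t c + 1) ≤ ∑ c : Fin d, cnt f1 (some c) :=
      sum_le_sum (fun c _ => hcon c)
    rw [hsum1, sum_add_distrib, ht, sum_const, card_univ, Fintype.card_fin, smul_eq_mul,
      mul_one] at h1
    omega
  set S := ∑ c : Fin d, (cnt f1 (some c) - t c) with hS
  have hexc : ∀ c : Fin d, 8 * (d + 1) * C * (cnt f1 (some c) - t c) ≤ 3 * n := by
    intro c
    have h1 : cnt f1 (some c) - t c ≤ cnt f (some c) + h + m - cnt f (some c0) := by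
      have e1 := (hcnt1 c).2
      have e2 := (hcnt1 c0).1
      have e3 := htm c0 c
      omega
    have h2 : 8 * (d + 1) * C * (cnt f (some c) + h + m - cnt f (some c0)) ≤
        8 * (d + 1) * C * (cnt f (some c) - cnt f (some c0)) + 8 * (d + 1) * C * h +
          8 * (d + 1) * C * m := by
      rw [← mul_add, ← mul_add]
      exact Nat.mul_le_mul_left _ (by omega)
    have h3 : 8 * (d + 1) * C * (cnt f (some c) - cnt f (some c0)) ≤ n := by
      have := hbal c c0
      rw [Nat.mul_sub]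
      omega
    calc 8 * (d + 1) * C * (cnt f1 (some c) - t c)
        ≤ 8 * (d + 1) * C * (cnt f (some c) + h + m - cnt f (some c0)) :=
          Nat.mul_le_mul_left _ h1
      _ ≤ _ := h2
      _ ≤ n + n + n := Nat.add_le_add (Nat.add_le_add h3 hh) hmn
      _ = 3 * n := by ring
  have hS2 : 8 * (d + 1) * C * S ≤ 3 * d * n := by
    rw [hS, mul_sum]
    calc ∑ c : Fin d, 8 * (d + 1) * C * (cnt f1 (some c) - t c)
        ≤ ∑ c : Fin d, 3 * n := sum_le_sum (fun c _ => hexc c)
      _ = 3 * d * n := by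
          rw [sum_const, card_univ, Fintype.card_fin, smul_eq_mul]; ring
  have hm : ∀ i j : Fin d, i ≠ j → S ≤ (W1.filter (fun w => a w = i ∧ b w = j)).card := by
    intro i j hij
    have h1 : (W.filter (fun w => a w = i ∧ b w = j)).card ≤
        (W1.filter (fun w => a w = i ∧ b w = j)).card + h := by
      have hsub : W.filter (fun w => a w = i ∧ b w = j) ⊆
          W1.filter (fun w => a w = i ∧ b w = j) ∪ (W \ W1) := by
        intro w hw
        rw [mem_filter] at hw
        by_cases hw1 : w ∈ W1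
        · exact mem_union_left _ (mem_filter.2 ⟨hw1, hw.2⟩)
        · exact mem_union_right _ (mem_sdiff.2 ⟨hw.1, hw1⟩)
      have h2 := (card_le_card hsub).trans (card_union_le _ _)
      have h3 : (W \ W1).card = W.card - W1.card := card_sdiff_of_subset hW1s
      omega
    have h2 := hWc i j hij
    by_contra hcon
    push Not at hcon
    set x := (W1.filter (fun w => a w = i ∧ b w = j)).card with hx
    have h3 : n ≤ C * (S + h) := h2.trans (Nat.mul_le_mul_left _ (by omega))
    have h4 : 8 * (d + 1) * (C * (S + h)) ≤ 3 * d * n + n := by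
      calc 8 * (d + 1) * (C * (S + h)) = 8 * (d + 1) * C * S + 8 * (d + 1) * C * h := by ring
        _ ≤ 3 * d * n + n := Nat.add_le_add hS2 hh
    have h5 : 8 * (d + 1) * n ≤ 3 * d * n + n := (Nat.mul_le_mul_left _ h3).trans h4
    nlinarith
  obtain ⟨f2, hf2, hno2, hcnt2⟩ := h6 d V G f1 W1 a b t S hf1 hW1 hno1 ht le_rfl hm
  have htot : ∀ v, ∃ c, f2 v = some c := by
    intro v
    have : f2 v ≠ none := by
      intro hv
      have h0 : (univ.filter (fun v => f2 v = none)) = ∅ := card_eq_zero.1 hno2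
      have : v ∈ univ.filter (fun v => f2 v = none) := by simp [hv]
      rw [h0] at this
      simp at this
    exact Option.ne_none_iff_exists'.1 this
  choose col hcol using htot
  refine ⟨col, ?_, ?_⟩
  · intro u _ v _ huv heq
    exact hf2 u v (col u) huv (hcol u) (by rw [hcol v, heq])
  · intro c
    rw [← hcnt2 c]
    unfold cnt
    congr 1
    ext v
    simp [hcol v]

end

end Pool.Agent.Work.MP_47f387_co.Large

end

section

namespace Pool.Agent.Work.MP_47f387_co.Large

open Finset Classical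

noncomputable section

theorem prfN1x : N1x := by
  intro d m hd
  obtain ⟨r, hr⟩ : ∃ r, r = rad d := ⟨_, rfl⟩
  have hr9 : r ≤ 9 := by
    rw [hr]
    unfold rad
    split_ifs <;> omega
  obtain ⟨q, hq⟩ : ∃ q, q = d + 1 := ⟨_, rfl⟩
  have hq7 : 7 ≤ q := by omega
  have hdq : d ≤ q := by omega
  have hq0 : 0 < q := by omega
  have p2 : 49 ≤ q ^ 2 := Nat.pow_le_pow_left hq7 2
  have p3 : 343 ≤ q ^ 3 := Nat.pow_le_pow_left hq7 3
  have p4 : 2401 ≤ q ^ 4 := Nat.pow_le_pow_left hq7 4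
  have p5 : 16807 ≤ q ^ 5 := Nat.pow_le_pow_left hq7 5
  have p8 : 5764801 ≤ q ^ 8 := Nat.pow_le_pow_left hq7 8
  have hd2 : d ^ 2 ≤ q ^ 2 := Nat.pow_le_pow_left hdq 2
  have hd4 : d ^ 4 ≤ q ^ 4 := Nat.pow_le_pow_left hdq 4
  have hdd : d * d ≤ q ^ 2 := by rw [← pow_two]; exact hd2
  -- c3
  have hc0 : c0 d = 5 * q ^ r := by rw [hq, hr]; rfl
  have hc8 : c8 d ≤ 80 * q ^ (r + 2) := by
    calc c8 d = 16 * (5 * q ^ r) * d ^ 2 := by rw [← hc0]; rfl
      _ ≤ 16 * (5 * q ^ r) * q ^ 2 := Nat.mul_le_mul_left _ hd2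
      _ = 80 * q ^ (r + 2) := by ring
  have hc3 : c3 d ≤ 80 * q ^ (r + 10) := by
    calc c3 d = c8 d * (d * d * q ^ 6) := by rw [hq]; rfl
      _ ≤ 80 * q ^ (r + 2) * (q ^ 2 * q ^ 6) := by gcongr
      _ = 80 * q ^ (r + 10) := by ring
  obtain ⟨R, hR⟩ : ∃ R, R = 8 * (d + 1) * (2 * c3 d) := ⟨_, rfl⟩
  have hR1 : R ≤ 1280 * q ^ (r + 11) := by
    rw [hR, ← hq]
    calc 8 * q * (2 * c3 d) ≤ 8 * q * (2 * (80 * q ^ (r + 10))) := by gcongr
      _ = 1280 * q ^ (r + 11) := by ring
  have hcR : cR d R ≤ 2561 * q ^ (r + 11) := by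
    have e1 : cR d R = 2 * R + 8 * (5 * q ^ r) * q ^ 3 := by rw [← hc0, hq]; rfl
    have e2 : 8 * (5 * q ^ r) * q ^ 3 ≤ q ^ (r + 11) := by
      calc 8 * (5 * q ^ r) * q ^ 3 = 40 * q ^ (r + 3) := by ring
        _ ≤ q ^ 2 * q ^ (r + 3) := by gcongr; omega
        _ = q ^ (r + 5) := by ring
        _ ≤ q ^ (r + 11) := Nat.pow_le_pow_right hq0 (by omega)
    rw [e1]
    omega
  obtain ⟨K, hK⟩ : ∃ K, K = (cR d R + 1) * (d + 1) := ⟨_, rfl⟩
  have hK1 : K ≤ 2562 * q ^ (r + 12) := by
    rw [hK, ← hq]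
    have e1 : 1 ≤ q ^ (r + 11) := Nat.one_le_pow _ _ hq0
    calc (cR d R + 1) * q ≤ (2562 * q ^ (r + 11)) * q := Nat.mul_le_mul_right _ (by omega)
      _ = 2562 * q ^ (r + 12) := by ring
  have hM : cM d K ≤ q ^ (2 * K + 9) := by
    have e1 : cM d K = 4 * ((d + d * d) * q ^ ((K + 3) + (K + 3))) := by rw [hq]; rfl
    have e2 : d + d * d ≤ q ^ 2 := by
      rw [hq]; nlinarith
    rw [e1]
    calc 4 * ((d + d * d) * q ^ ((K + 3) + (K + 3)))
        ≤ q * (q ^ 2 * q ^ ((K + 3) + (K + 3))) := by gcongr; omega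
      _ = q ^ (2 * K + 9) := by
          rw [← pow_add, ← pow_succ']
          congr 1
          omega
  have hR2 : R ^ 2 ≤ q ^ 48 := by
    calc R ^ 2 ≤ (1280 * q ^ (r + 11)) ^ 2 := Nat.pow_le_pow_left hR1 2
      _ = 1638400 * q ^ (2 * r + 22) := by ring
      _ ≤ q ^ 8 * q ^ (2 * r + 22) := by gcongr; omega
      _ = q ^ (2 * r + 30) := by ring
      _ ≤ q ^ 48 := Nat.pow_le_pow_right hq0 (by omega)
  have hE : 256 * c0 d ^ 2 * d ^ 4 ≤ q ^ 48 := by
    rw [hc0]
    calc 256 * (5 * q ^ r) ^ 2 * d ^ 4 ≤ 256 * (5 * q ^ r) ^ 2 * q ^ 4 := by gcongr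
      _ = 6400 * q ^ (2 * r + 4) := by ring
      _ ≤ q ^ 5 * q ^ (2 * r + 4) := by gcongr; omega
      _ = q ^ (2 * r + 9) := by ring
      _ ≤ q ^ 48 := Nat.pow_le_pow_right hq0 (by omega)
  have hX : q ^ 48 * q ^ (2 * K + 9) = q ^ (2 * K + 57) := by
    rw [← pow_add]; congr 1; omega
  have hsmall : ∀ k ≤ 48, q ^ k ≤ q ^ (2 * K + 57) := fun k hk =>
    Nat.pow_le_pow_right hq0 (by omega)
  have hn8 : n8 d R ≤ 4 * q ^ (2 * K + 57) := by
    have e1 : n8 d R = cR d R + R ^ 2 * cM d K + 16 * c0 d +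
        256 * c0 d ^ 2 * d ^ 4 * cM d K := by rw [hK]; rfl
    have e2 : cR d R ≤ q ^ (2 * K + 57) := by
      refine le_trans ?_ (hsmall (r + 16) (by omega))
      calc cR d R ≤ 2561 * q ^ (r + 11) := hcR
        _ ≤ q ^ 5 * q ^ (r + 11) := by gcongr; omega
        _ = q ^ (r + 16) := by ring
    have e3 : R ^ 2 * cM d K ≤ q ^ (2 * K + 57) := by
      rw [← hX]; gcongr
    have e4 : 16 * c0 d ≤ q ^ (2 * K + 57) := by
      refine le_trans ?_ (hsmall (r + 3) (by omega))
      rw [hc0]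
      calc 16 * (5 * q ^ r) = 80 * q ^ r := by ring
        _ ≤ q ^ 3 * q ^ r := by gcongr; omega
        _ = q ^ (r + 3) := by ring
    have e5 : 256 * c0 d ^ 2 * d ^ 4 * cM d K ≤ q ^ (2 * K + 57) := by
      rw [← hX]; gcongr
    rw [e1]
    omega
  have hc3' : c3 d ≤ q ^ (2 * K + 57) := by
    refine le_trans ?_ (hsmall (r + 13) (by omega))
    calc c3 d ≤ 80 * q ^ (r + 10) := hc3
      _ ≤ q ^ 3 * q ^ (r + 10) := by gcongr; omega
      _ = q ^ (r + 13) := by ring
  have hn3 : n3 d R ≤ 4 * q ^ (2 * K + 57) := max_le hn8 (by omega)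
  have hR3 : R ≤ q ^ (2 * K + 57) := by
    refine le_trans ?_ (hsmall (r + 15) (by omega))
    calc R ≤ 1280 * q ^ (r + 11) := hR1
      _ ≤ q ^ 4 * q ^ (r + 11) := by gcongr; omega
      _ = q ^ (r + 15) := by ring
  have hn1 : n1 d m ≤ (m + 1) * (5 * q ^ (2 * K + 57)) := by
    have e1 : n1 d m = n3 d R + R * (m + 1) := by rw [hR]; rfl
    rw [e1]
    have e2 : n3 d R ≤ (m + 1) * (4 * q ^ (2 * K + 57)) :=
      hn3.trans (Nat.le_mul_of_pos_left _ (Nat.succ_pos m))
    have e3 : R * (m + 1) ≤ q ^ (2 * K + 57) * (m + 1) := Nat.mul_le_mul_right _ hR3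
    calc n3 d R + R * (m + 1) ≤ (m + 1) * (4 * q ^ (2 * K + 57)) + q ^ (2 * K + 57) * (m + 1) :=
          Nat.add_le_add e2 e3
      _ = (m + 1) * (5 * q ^ (2 * K + 57)) := by ring
  rw [← hq, ← hr]
  calc n1 d m * q ≤ (m + 1) * (5 * q ^ (2 * K + 57)) * q := Nat.mul_le_mul_right _ hn1
    _ = (m + 1) * (5 * q ^ (2 * K + 58)) := by rw [pow_succ q (2 * K + 57)]; ring
    _ ≤ (m + 1) * q ^ (q ^ (r + 17)) := by
        apply Nat.mul_le_mul_left
        calc 5 * q ^ (2 * K + 58) ≤ q * q ^ (2 * K + 58) := by gcongr; omega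
          _ = q ^ (2 * K + 59) := by rw [← pow_succ']
          _ ≤ q ^ (q ^ (r + 17)) := by
              apply Nat.pow_le_pow_right hq0
              have e1 : 1 ≤ q ^ (r + 12) := Nat.one_le_pow _ _ hq0
              have e2 : q ^ (r + 17) = q ^ 5 * q ^ (r + 12) := by ring
              have e3 : 16807 * q ^ (r + 12) ≤ q ^ 5 * q ^ (r + 12) := Nat.mul_le_mul_right _ p5
              rw [e2]
              omega

namespace IXN

lemma v4_le {d s x : ℕ} (hd : d ≤ x) (hx : 1 ≤ x) : v4 d s ≤ (s + 1) ^ (d + 1) * x ^ (d + 3) := by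
  have hf : d.factorial ≤ x ^ d := (Nat.factorial_le_pow d).trans (Nat.pow_le_pow_left hd d)
  have h1 : (s + 1) ^ d * (d * d) * (d * s * d.factorial) ≤ (s + 1) ^ d * (x * x) * (x * s * x ^ d) := by
    gcongr
  have h2 : (s + 1) ^ d * (x * x) * (x * s * x ^ d) = (s + 1) ^ d * x ^ (d + 3) * s := by
    rw [pow_add]; ring
  have h3 : 1 ≤ (s + 1) ^ d * x ^ (d + 3) :=
    Nat.mul_le_mul (Nat.one_le_pow _ _ (Nat.succ_pos s)) (Nat.one_le_pow _ _ hx)
  unfold v4
  calc (s + 1) ^ d * (d * d) * (d * s * d.factorial) + 1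
      ≤ (s + 1) ^ d * x ^ (d + 3) * s + (s + 1) ^ d * x ^ (d + 3) := by
        rw [h2] at h1
        exact Nat.add_le_add h1 h3
    _ = (s + 1) ^ (d + 1) * x ^ (d + 3) := by ring

end IXN

theorem prfNVx : NVx := by
  intro d B hd hB
  obtain ⟨x, hx⟩ : ∃ x, x = 2 * d * B := ⟨_, rfl⟩
  have hdB : d ≤ d * B := Nat.le_mul_of_pos_right _ hB
  have hBd : 2 * B ≤ d * B := Nat.mul_le_mul_right _ hd
  have hx2 : x = 2 * (d * B) := by rw [hx]; ring
  have hx4 : 4 ≤ x := by
    have : 2 ≤ d * B := hd.trans hdB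
    omega
  have hdx : d ≤ x := by omega
  have hBx : B ≤ x := by omega
  have hB2 : 2 * B + 1 ≤ x := by omega
  have hx0 : 0 < x := by omega
  rw [← hx]
  have h1 : v4 d (2 * B) ≤ x ^ (2 * d + 4) := by
    refine (IXN.v4_le hdx (by omega)).trans ?_
    calc (2 * B + 1) ^ (d + 1) * x ^ (d + 3) ≤ x ^ (d + 1) * x ^ (d + 3) := by gcongr
      _ = x ^ (2 * d + 4) := by rw [← pow_add]; congr 1; omega
  have h2 : m5 d B ≤ x ^ (2 * d + 5) := by
    unfold m5
    calc 2 * B * v4 d (2 * B) ≤ x * x ^ (2 * d + 4) := Nat.mul_le_mul (by omega) h1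
      _ = x ^ (2 * d + 5) := by rw [← pow_succ']
  have hstep : ∀ k, x ^ k + 3 ≤ x ^ (k + 1) := by
    intro k
    have e1 : 1 ≤ x ^ k := Nat.one_le_pow _ _ hx0
    have e2 : 4 * x ^ k ≤ x ^ (k + 1) := by
      rw [pow_succ']
      exact Nat.mul_le_mul_right _ hx4
    omega
  have h3 : m5 d B + 3 ≤ x ^ (2 * d + 6) := by
    have : x ^ (2 * d + 5) + 3 ≤ x ^ (2 * d + 6) := hstep (2 * d + 5)
    omega
  have h4 : s5 d B + 1 ≤ x ^ (2 * d + 8) := by
    have e1 : (m5 d B + 3) * B ≤ x ^ (2 * d + 7) := by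
      calc (m5 d B + 3) * B ≤ x ^ (2 * d + 6) * x := Nat.mul_le_mul h3 hBx
        _ = x ^ (2 * d + 7) := by rw [← pow_succ]
    have e2 : d * (m5 d B + 3) ≤ x ^ (2 * d + 7) := by
      calc d * (m5 d B + 3) ≤ x * x ^ (2 * d + 6) := Nat.mul_le_mul hdx h3
        _ = x ^ (2 * d + 7) := by rw [← pow_succ']
    have e3 : s5 d B ≤ x ^ (2 * d + 7) + 1 := by
      unfold s5
      exact Nat.add_le_add_right (max_le e1 e2) 1
    have : x ^ (2 * d + 7) + 3 ≤ x ^ (2 * d + 8) := hstep (2 * d + 7)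
    omega
  have h5 : v4 d (s5 d B) ≤ (x ^ (2 * d + 8)) ^ (d + 1) * x ^ (d + 3) := by
    refine (IXN.v4_le hdx (by omega)).trans ?_
    gcongr
  have h6 : 1 ≤ v4 d (s5 d B) := by unfold v4; omega
  calc s5 d B * v4 d (s5 d B) + 1 ≤ s5 d B * v4 d (s5 d B) + v4 d (s5 d B) := by omega
    _ = (s5 d B + 1) * v4 d (s5 d B) := by ring
    _ ≤ x ^ (2 * d + 8) * ((x ^ (2 * d + 8)) ^ (d + 1) * x ^ (d + 3)) := Nat.mul_le_mul h4 h5
    _ = x ^ ((2 * d + 8) + ((2 * d + 8) * (d + 1) + (d + 3))) := by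
        rw [← pow_mul, ← pow_add, ← pow_add]
    _ ≤ x ^ (10 * d ^ 3) := by
        apply Nat.pow_le_pow_right hx0
        have e1 : 4 ≤ d * d := Nat.mul_le_mul hd hd
        have e2 : 2 * (d * d) ≤ d ^ 3 := by
          have : d ^ 3 = d * (d * d) := by ring
          rw [this]; exact Nat.mul_le_mul_right _ hd
        have e3 : 4 * d ≤ d ^ 3 := by
          have : d ^ 3 = d * d * d := by ring
          rw [this]; exact Nat.mul_le_mul_right _ e1
        have e4 : (2 * d + 8) + ((2 * d + 8) * (d + 1) + (d + 3)) = 2 * (d * d) + 13 * d + 19 := by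
          ring
        rw [e4]
        omega

theorem prfNFx : NFx := by
  intro d hd
  by_cases hd6 : d = 6
  · have hr : rad d + 17 = 26 := by
      unfold rad
      rw [if_pos hd6]
    rw [hr]
    obtain ⟨q, hq⟩ : ∃ q, q = d + 1 := ⟨_, rfl⟩
    have hq7 : q = 7 := by omega
    have hq0 : 0 < q := by omega
    rw [← hq]
    have h1 : 2 * d ≤ q ^ 2 := by
      rw [hq7, hd6]
      norm_num
    have h2 : 2 * d * q ^ (q ^ 26) ≤ q ^ (2 + q ^ 26) := by
      rw [pow_add]
      exact Nat.mul_le_mul_right _ h1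
    calc q * (2 * d * q ^ (q ^ 26)) ^ (10 * d ^ 3) ≤ q * (q ^ (2 + q ^ 26)) ^ (10 * d ^ 3) :=
          Nat.mul_le_mul_left _ (Nat.pow_le_pow_left h2 _)
      _ = q ^ ((2 + q ^ 26) * (10 * d ^ 3) + 1) := by
          rw [← pow_mul]
          exact (pow_succ' q _).symm
      _ ≤ q ^ (q ^ 30) := by
          apply Nat.pow_le_pow_right hq0
          rw [hq7, hd6]
          norm_num
  · have hr : rad d + 17 = 22 := by
      unfold rad
      rw [if_neg hd6]
    rw [hr]
    obtain ⟨q, hq⟩ : ∃ q, q = d + 1 := ⟨_, rfl⟩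
    have hq8 : 8 ≤ q := by omega
    have hq0 : 0 < q := by omega
    rw [← hq]
    have h1 : 2 * d ≤ q ^ 2 := by
      have : q ^ 2 = q * q := by ring
      rw [this]
      calc 2 * d ≤ 8 * q := by omega
        _ ≤ q * q := Nat.mul_le_mul_right _ hq8
    have h2 : 2 * d * q ^ (q ^ 22) ≤ q ^ (2 + q ^ 22) := by
      rw [pow_add]
      exact Nat.mul_le_mul_right _ h1
    calc q * (2 * d * q ^ (q ^ 22)) ^ (10 * d ^ 3) ≤ q * (q ^ (2 + q ^ 22)) ^ (10 * d ^ 3) :=
          Nat.mul_le_mul_left _ (Nat.pow_le_pow_left h2 _)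
      _ = q ^ ((2 + q ^ 22) * (10 * d ^ 3) + 1) := by
          rw [← pow_mul]
          exact (pow_succ' q _).symm
      _ ≤ q ^ (q ^ 30) := by
          apply Nat.pow_le_pow_right hq0
          have e1 : d ^ 3 ≤ q ^ 3 := Nat.pow_le_pow_left (by omega) 3
          have e2 : 2 ≤ q ^ 22 := (by omega : 2 ≤ q).trans (Nat.le_self_pow (by norm_num) q)
          have p2 : 64 ≤ q ^ 2 := Nat.pow_le_pow_left hq8 2
          have e3 : 1 ≤ q ^ 25 := Nat.one_le_pow _ _ hq0
          calc (2 + q ^ 22) * (10 * d ^ 3) + 1 ≤ (q ^ 22 + q ^ 22) * (10 * q ^ 3) + q ^ 25 := by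
                gcongr
            _ = 21 * q ^ 25 := by ring
            _ ≤ q ^ 2 * q ^ 25 := by gcongr; omega
            _ = q ^ 27 := by ring
            _ ≤ q ^ 30 := Nat.pow_le_pow_right hq0 (by norm_num)

end

end Pool.Agent.Work.MP_47f387_co.Large

end

section

namespace Pool.Agent.Work.MP_47f387_co.Large

open Finset Classical

noncomputable section

theorem prfV4x (h2 : V2) (h3 : V3) : V4x := by
  intro d s
  rcases Nat.eq_zero_or_pos d with hd | hd
  · subst hd
    intro K _ F A _ hA _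
    have : ∀ k, ∃ t : Fin 0 → ℕ, k ∈ A → t ∈ F k := by
      intro k
      by_cases hk : k ∈ A
      · obtain ⟨t, ht, _⟩ := hA k hk
        exact ⟨t, fun _ => ht⟩
      · exact ⟨fun _ => 0, fun h => absurd h hk⟩
    choose w hw using this
    exact ⟨w, hw, fun i => i.elim0⟩
  intro K _ F A hF hA hN
  have hcard : Fintype.card ((Fin d → Fin (s + 1)) × Fin d × Fin d) = (s + 1) ^ d * (d * d) := by
    simp [Fintype.card_prod]
  unfold v4 at hN
  have hex : ∀ k, ∃ (t t' : Fin d → ℕ) (a b : Fin d), k ∈ A →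
      t ∈ F k ∧ t' ∈ F k ∧ Mv t t' a b ∧ ∑ c, t c ≤ s := by
    intro k
    by_cases hk : k ∈ A
    · obtain ⟨t, ht, t', ht', a, b, hm, hs⟩ := hA k hk
      exact ⟨t, t', a, b, fun _ => ⟨ht, ht', hm, hs⟩⟩
    · exact ⟨fun _ => 0, fun _ => 0, ⟨0, hd⟩, ⟨0, hd⟩, fun h => absurd h hk⟩
  choose T T' a b hT using hex
  let f : K → (Fin d → Fin (s + 1)) × Fin d × Fin d := fun k =>
    (fun c => ⟨min (T k c) s, by omega⟩, a k, b k)
  obtain ⟨y, _, hy⟩ := Finset.exists_lt_card_fiber_of_mul_lt_card_of_maps_to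
    (s := A) (t := (univ : Finset ((Fin d → Fin (s + 1)) × Fin d × Fin d))) (f := f)
    (n := d * s * d.factorial) (fun _ _ => Finset.mem_univ _) (by rw [Finset.card_univ, hcard]; omega)
  obtain ⟨A1, hA1, hcA1⟩ := Finset.exists_subset_card_eq
    (s := A.filter (fun x => f x = y)) (n := d * s * d.factorial) hy.le
  have hne : (A.filter (fun x => f x = y)).Nonempty := by
    apply Finset.card_pos.mp
    omega
  obtain ⟨k0, hk0⟩ := hne
  have hk0A : k0 ∈ A := (Finset.mem_filter.mp hk0).1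
  have hk0y : f k0 = y := (Finset.mem_filter.mp hk0).2
  have hA1A : A1 ⊆ A := fun k hk => (Finset.mem_filter.mp (hA1 hk)).1
  have hle : ∀ k ∈ A, ∀ c, T k c ≤ s := by
    intro k hk c
    have h1 := (hT k hk).2.2.2
    have h2 : T k c ≤ ∑ c, T k c :=
      Finset.single_le_sum (f := fun c => T k c) (fun i _ => Nat.zero_le _) (Finset.mem_univ c)
    omega
  have hsame : ∀ k ∈ A1, T k0 ∈ F k ∧ T' k0 ∈ F k := by
    intro k hk
    have hkA := hA1A hk
    have hfk : f k = f k0 := by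
      rw [hk0y]
      exact (Finset.mem_filter.mp (hA1 hk)).2
    have hab : a k = a k0 ∧ b k = b k0 := by
      have := congrArg Prod.snd hfk
      simp only [f, Prod.mk.injEq] at this
      exact this
    have hTT : T k = T k0 := by
      have h1 := congrArg Prod.fst hfk
      funext c
      have h2 := congrArg Fin.val (congrFun h1 c)
      simp only [f] at h2
      have h3 := hle k hkA c
      have h4 := hle k0 hk0A c
      omega
    have hTT' : T' k = T' k0 := by
      have h1 := (hT k hkA).2.2.1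
      have h2 := (hT k0 hk0A).2.2.1
      rw [hTT, hab.1, hab.2] at h1
      exact ITV4.mv_unique h1 h2
    refine ⟨?_, ?_⟩
    · rw [← hTT]
      exact (hT k hkA).1
    · rw [← hTT']
      exact (hT k hkA).2.1
  obtain ⟨q, hq⟩ := h3 d (d * s) K F A1 (T k0) (T' k0) (a k0) (b k0) hF (hT k0 hk0A).2.2.1
    hsame hcA1
  obtain ⟨w2, hw2, hb2⟩ := h2 d s K F (A \ A1) hF (by
    intro k hk
    have hkA := (Finset.mem_sdiff.mp hk).1
    exact ⟨T k, (hT k hkA).1, hle k hkA⟩)
  let x : Fin d → ℕ := fun c => ∑ k ∈ A \ A1, w2 k c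
  let yb : Fin d → ℕ := fun c => (∑ c, x c) / d + (if (c : ℕ) < (∑ c, x c) % d then 1 else 0)
  have hsum : ∑ c, x c = ∑ c, yb c := (ITV4.sum_bal d (∑ c, x c) hd).symm
  have hdiff : ∑ c, (x c - yb c) ≤ d * s := by
    obtain ⟨j, hj⟩ := ITV4.exlow d hd x
    have h1 : ∀ c ∈ (univ : Finset (Fin d)), x c - yb c ≤ s := by
      intro c _
      have h5 : x c ≤ x j + s := hb2 c j
      have h6 : (∑ c, x c) / d ≤ yb c := Nat.le_add_right _ _
      omega
    calc ∑ c, (x c - yb c) ≤ ∑ _c : Fin d, s := Finset.sum_le_sum h1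
      _ = d * s := by simp
  obtain ⟨w1, hw1, hs1⟩ := hq x yb hsum hdiff
  refine ⟨fun k => if k ∈ A1 then w1 k else w2 k, ?_, ?_⟩
  · intro k hk
    by_cases hk1 : k ∈ A1
    · simp only [if_pos hk1]
      exact hw1 k hk1
    · simp only [if_neg hk1]
      exact hw2 k (Finset.mem_sdiff.mpr ⟨hk, hk1⟩)
  · have comb : ∀ c : Fin d, ∑ k ∈ A, (if k ∈ A1 then w1 k else w2 k) c = q + yb c := by
      intro c
      rw [← Finset.sum_sdiff hA1A, add_comm]
      rw [← hs1 c]
      congr 1
      · apply Finset.sum_congr rfl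
        intro k hk
        rw [if_pos hk]
      · apply Finset.sum_congr rfl
        intro k hk
        rw [if_neg (Finset.mem_sdiff.mp hk).2]
    intro i j
    simp only []
    rw [comb i, comb j]
    have h1 : yb i ≤ (∑ c, x c) / d + 1 := by
      simp only [yb]
      split_ifs <;> omega
    have h2 : (∑ c, x c) / d ≤ yb j := Nat.le_add_right _ _
    omega

end

end Pool.Agent.Work.MP_47f387_co.Large

end

section

namespace Pool.Agent.Work.MP_47f387_co.Large

open Finset Classical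

noncomputable section

theorem prfV5x (h0 : V0) (h1 : V1) (h4 : V4x) : V5x := by
  intro d B hd
  obtain ⟨N1, hN1⟩ : ∃ N1 : ℕ → ℕ, N1 = fun m => (m + 1) * B := ⟨_, rfl⟩
  have hN11 : N1 1 = 2 * B := by rw [hN1]
  obtain ⟨N2, hN2d⟩ : ∃ N2, N2 = v4 d (N1 1) := ⟨_, rfl⟩
  have hN2 := h4 d (N1 1)
  rw [← hN2d] at hN2
  set m0 := N1 1 * N2 with hm0
  set N3 := max (N1 (m0 + 2)) (d * (m0 + 3)) + 1 with hN3
  obtain ⟨N4, hN4d⟩ : ∃ N4, N4 = v4 d N3 := ⟨_, rfl⟩
  have hN4 := h4 d N3
  rw [← hN4d] at hN4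
  intro K _ F p hPC hp hp1 hmv hF' hN'
  have hm05 : m5 d B = m0 := by
    rw [hm0, hN2d, hN11]; rfl
  have hs5 : s5 d B = N3 := by
    rw [hN3, ← hm05, hN1]; rfl
  have hN : N3 * N4 + 1 ≤ ∑ k, p k := by
    rw [hs5, ← hN4d] at hN'
    exact hN'
  have hF : ∀ m k, N1 m ≤ p k → ∀ t : Fin d → ℕ, ∑ c, t c = p k → (∀ i j, t i ≤ t j + m) →
      t ∈ F k := by
    intro m k h
    rw [hN1] at h
    exact hF' m k h
  set S : Finset K := univ.filter fun k => p k < N1 1 with hS
  have hbal : ∀ k, k ∉ S → ∃ t ∈ F k, Bal t := by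
    intro k hk
    have hk' : N1 1 ≤ p k := by
      by_contra hlt
      exact hk (by rw [hS]; simp; omega)
    obtain ⟨b, hb, hbs⟩ := ITV5.exBal d hd (p k)
    exact ⟨b, hF 1 k hk' b hbs hb, hb⟩
  by_cases hA : N2 ≤ S.card
  · obtain ⟨w1, hw1, hb1⟩ := hN2 K F S hPC (by
      intro k hk
      obtain ⟨t, ht, t', ht', a, b, hab⟩ := hmv k
      refine ⟨t, ht, t', ht', a, b, hab, ?_⟩
      rw [hp k t ht]
      rw [hS] at hk
      simp at hk
      omega) hA
    obtain ⟨w2, hw2, hb2⟩ := h1 d K F Sᶜ hPC (by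
      intro k hk
      exact hbal k (by simpa using hk))
    exact ITV5.caseA h0 F hPC S w1 w2 hw1 hw2 hb1 hb2
  by_cases hB : ∃ k0, N3 ≤ p k0
  · obtain ⟨k0, hk0⟩ := hB
    have hk0' : max (N1 (m0 + 2)) (d * (m0 + 3)) ≤ p k0 := by omega
    obtain ⟨w2, hw2, hb2⟩ := h1 d K F (Sᶜ.erase k0) hPC (by
      intro k hk
      exact hbal k (by simpa using (Finset.mem_of_mem_erase hk)))
    choose t ht _ _ _ _ _ using hmv
    have htle : ∀ k ∈ S, ∀ c, t k c ≤ N1 1 := by
      intro k hk c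
      have h5 := hp k (t k) (ht k)
      have h6 : t k c ≤ ∑ c, t k c := Finset.single_le_sum (f := t k)
        (fun _ _ => Nat.zero_le _) (Finset.mem_univ c)
      rw [hS] at hk
      simp at hk
      omega
    have hu1 : ∀ c, ∑ k ∈ S.erase k0, t k c ≤ m0 := by
      intro c
      calc ∑ k ∈ S.erase k0, t k c ≤ ∑ _k ∈ S.erase k0, N1 1 :=
            Finset.sum_le_sum fun k hk => htle k (Finset.mem_of_mem_erase hk) c
        _ = (S.erase k0).card * N1 1 := by simp
        _ ≤ N2 * N1 1 := by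
            have := Finset.card_le_card (Finset.erase_subset k0 S)
            exact Nat.mul_le_mul_right _ (by omega)
        _ = m0 := by rw [hm0, mul_comm]
    have hsplit : ∀ c, ∑ k ∈ univ.erase k0, (if k ∈ S then t k else w2 k) c =
        ∑ k ∈ S.erase k0, t k c + ∑ k ∈ Sᶜ.erase k0, w2 k c := by
      intro c
      have hdis : Disjoint (S.erase k0) (Sᶜ.erase k0) :=
        Disjoint.mono (Finset.erase_subset _ _) (Finset.erase_subset _ _) disjoint_compl_right
      have hun : univ.erase k0 = (S.erase k0) ∪ (Sᶜ.erase k0) := by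
        ext k
        simp only [mem_erase, mem_univ, and_true, mem_union, mem_compl]
        tauto
      rw [hun, Finset.sum_union hdis]
      congr 1
      · refine Finset.sum_congr rfl fun k hk => ?_
        rw [if_pos (Finset.mem_of_mem_erase hk)]
      · refine Finset.sum_congr rfl fun k hk => ?_
        have : k ∉ S := by simpa using (Finset.mem_of_mem_erase hk)
        rw [if_neg this]
    refine ITV5.caseB hd F p hp k0 (m0 + 1) (fun k => if k ∈ S then t k else w2 k) ?_ ?_ ?_ ?_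
    · intro k hk
      by_cases hkS : k ∈ S
      · simp only [hkS, if_true]
        exact ht k
      · simp only [hkS, if_false]
        exact hw2 k (by simp [hk, hkS])
    · intro i j
      rw [hsplit i, hsplit j]
      have h5 := hb2 i j
      have h6 := hu1 i
      simp only at h5
      omega
    · intro t' hs' ht'
      exact hF (m0 + 2) k0 (le_trans (le_max_left _ _) hk0') t' hs' ht'
    · exact le_trans (le_max_right _ _) hk0'
  · push Not at hB
    have hcard : N4 ≤ (univ : Finset K).card := by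
      by_contra hlt
      have h5 : ∑ k, p k ≤ ∑ _k : K, N3 := Finset.sum_le_sum fun k _ => (hB k).le
      have h6 : ∑ _k : K, N3 = (univ : Finset K).card * N3 := by simp
      have h7 : (univ : Finset K).card * N3 ≤ N4 * N3 := Nat.mul_le_mul_right _ (by omega)
      have h8 : N4 * N3 = N3 * N4 := mul_comm _ _
      omega
    obtain ⟨w, hw, hb⟩ := hN4 K F univ hPC (by
      intro k _
      obtain ⟨t, ht, t', ht', a, b, hab⟩ := hmv k
      refine ⟨t, ht, t', ht', a, b, hab, ?_⟩
      rw [hp k t ht]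
      exact (hB k).le) hcard
    exact ⟨w, fun k => hw k (Finset.mem_univ k), hb⟩

end

end Pool.Agent.Work.MP_47f387_co.Large

end

section

/-!
# MP_47f387_co: assembly of the second part
-/

namespace Pool.Agent.Work.MP_47f387_co.Large

theorem asmD1 : D1 := prfD1 asmC3 (prfC5 prfC4) prfC6

theorem asmD2 : D2 := prfD2 asmA13

theorem asmE2 : E2 := prfE2 prfE1

theorem asmE3 : E3 := prfE3 prfE1 asmE2

theorem asmE4 : E4 := prfE4 prfE1 asmE2 asmE3

theorem asmE5 : E5 := prfE5 prfE1 asmE4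

theorem asmV1 : V1 := prfV1 prfV0

theorem asmV4 : V4 := prfV4 prfV2 prfV3

theorem asmV5 : V5 := prfV5 prfV0 asmV1 asmV4

theorem asmR2 : R2 := prfR2 prfR1

theorem asmR4 : R4 := prfR4 prfR1 prfR3

theorem asmR5 : R5 := prfR5 asmR2 asmR4 (prfR6 prfR1)

theorem asmT1 : T1 := prfT1 asmV5 asmE5 asmD1 asmD2 prfP1 prfP2

end Pool.Agent.Work.MP_47f387_co.Large

end

section

namespace Pool.Agent.Work.MP_47f387_co.Large

open Finset Classical

noncomputable section

theorem prfT1x (h5 : V5x) (hv : NVx) (hf : NFx) (hn1 : N1x) (hb : E5) (h1 : D1x) (h2 : D2)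
    (p1 : P1) (p2 : P2) : T1x := by
  intro d hd
  have hd1 : 1 ≤ d := by omega
  intro V _ G hBD hfree hn
  obtain ⟨B, hB⟩ : ∃ B, B = (d + 1) ^ ((d + 1) ^ (rad d + 17)) := ⟨_, rfl⟩
  have hB1 : 1 ≤ B := by
    rw [hB]; exact Nat.one_le_pow _ _ (Nat.succ_pos d)
  have hN := h5 d B hd1
  have hN1 := h1 d hd
  have hbig : s5 d B * v4 d (s5 d B) + 1 ≤ Fintype.card V := by
    refine (hv d B (by omega) hB1).trans ?_
    apply Nat.le_of_mul_le_mul_left (c := d + 1) _ (Nat.succ_pos d)
    refine le_trans ?_ hn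
    rw [hB]
    exact hf d hd
  obtain ⟨w, hw, hbal⟩ := hN G.ConnectedComponent
    (fun k => {t | Colb k.toSimpleGraph univ t}) (fun k => Fintype.card k)
    (fun k t π ht => IT1.colb_perm ht π)
    (fun k t ht => IT1.colb_sum ht)
    (fun k => by
      have : Nonempty k := ⟨⟨k.out, k.out_eq⟩⟩
      exact Fintype.card_pos)
    (fun k => by
      have hB := IT1.comp_BD p2 hd1 hBD k
      have hC := IT1.comp_CF p2 hd1 hfree k
      obtain ⟨t, ht⟩ := hb d k k.toSimpleGraph (by omega) hB (hC.mono (Nat.le_succ d))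
      have : Nonempty k := ⟨⟨k.out, k.out_eq⟩⟩
      obtain ⟨t', a, b, hm, ht'⟩ := h2 d k k.toSimpleGraph hd hB hC t ht
      exact ⟨t, ht, t', ht', a, b, hm⟩)
    (fun m k hk t hsum hr => hN1 m k k.toSimpleGraph k.connected_toSimpleGraph
      (IT1.comp_BD p2 hd1 hBD k) (IT1.comp_CF p2 hd1 hfree k)
      ((Nat.le_mul_of_pos_right _ (Nat.succ_pos d)).trans
        ((hn1 d m hd).trans (by rw [← hB]; exact hk))) t hsum hr)
    (by rw [IT1.comp_card G]; exact hbig)
  exact ⟨_, hbal, p1 d V G w hd1 hw⟩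

theorem prfT2x (hn1 : N1x) (h1 : V1) (d1 : D1x) (p1 : P1) (p2 : P2) : T2x := by
  intro d hd
  have hd1 : 1 ≤ d := by omega
  intro hyp V _ G hBD hfree hKF
  obtain ⟨N, hNd⟩ : ∃ N, N = (d + 1) ^ ((d + 1) ^ (rad d + 17)) := ⟨_, rfl⟩
  rw [← hNd] at hyp
  have hN' := d1 d hd 1
  have hle : n1 d 1 ≤ N := by
    apply Nat.le_of_mul_le_mul_left (c := d + 1) _ (Nat.succ_pos d)
    calc (d + 1) * n1 d 1 = n1 d 1 * (d + 1) := Nat.mul_comm _ _
      _ ≤ (1 + 1) * (d + 1) ^ ((d + 1) ^ (rad d + 17)) := hn1 d 1 hd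
      _ ≤ (d + 1) * N := by
          rw [← hNd]
          exact Nat.mul_le_mul_right _ (by omega)
  obtain ⟨w, hw, hbal⟩ := h1 d G.ConnectedComponent
    (fun k => {t | Colb k.toSimpleGraph univ t}) univ
    (fun k t π ht => IT1.colb_perm ht π)
    (fun k _ => by
      have hB := IT1.comp_BD p2 hd1 hBD k
      have hC := IT1.comp_CF p2 hd1 hfree k
      by_cases hk : Fintype.card k < N
      · obtain ⟨t, ht1, ht2⟩ := hyp k k.toSimpleGraph k.connected_toSimpleGraph hB hC
          (fun ho => IT1.comp_KF p2 hd1 (hKF ho) k) hk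
        exact ⟨t, ht2, ht1⟩
      · obtain ⟨t, ht1, ht2⟩ := IT1.exists_bal hd1 (Fintype.card k)
        exact ⟨t, hN' k k.toSimpleGraph k.connected_toSimpleGraph hB hC
          (hle.trans (not_lt.1 hk)) t ht1 ht2,
          ht2⟩)
  exact ⟨_, hbal, p1 d V G w hd1 (fun k => hw k (mem_univ k))⟩

theorem prfT3x (t1 : T1x) (r5 : R5) (p2 : P2) : T3x := by
  intro d hd V _ _ G _ hdeg hfree hP
  obtain ⟨P, hP1, hP2, W, _, H, hcard, hBH, hCH, _, hH⟩ :=
    IT4.reduce r5 p2 (by omega) (IT4.BD_iff.2 hdeg) hfree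
  have h1 := hP P hP1 hP2
  have h2 : (d + 1) ^ ((d + 1) ^ 30) ≤ (d + 1) * Fintype.card W := by
    have h3 := Nat.le_of_add_le_add_left (h1.trans (hcard hd))
    exact h3.trans (Nat.mul_le_mul_right _ (by omega))
  obtain ⟨t, ht1, ht2⟩ := t1 d hd W H hBH hCH h2
  obtain ⟨t', ht1', ht2'⟩ := hH t ht1 ht2
  exact IT4.equi_of_colb ht1' ht2'

theorem prfT4x (t2 : T2x) (r5 : R5) (p2 : P2) : T4x := by
  intro d hd hyp V _ _ G _ hdeg hfree hKF
  have hyp' : ∀ (V : Type) [Fintype V] (G : SimpleGraph V), G.Connected → BD d G →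
      G.CliqueFree d → (Odd d → KF d G) →
      Fintype.card V < (d + 1) ^ ((d + 1) ^ (rad d + 17)) →
        ∃ t : Fin d → ℕ, Bal t ∧ Colb G univ t := by
    intro V _ G hG hBD hCF hK hc
    exact IT4.colb_of_equi (hyp V G hG (IT4.BD_iff.1 hBD) hCF hK hc)
  obtain ⟨P, _, _, W, _, H, _, hBH, hCH, hKH, hH⟩ :=
    IT4.reduce r5 p2 (by omega) (IT4.BD_iff.2 hdeg) hfree
  obtain ⟨t, ht1, ht2⟩ := t2 d hd hyp' W H hBH hCH (fun ho => hKH (hKF ho))
  obtain ⟨t', ht1', ht2'⟩ := hH t ht1 ht2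
  exact IT4.equi_of_colb ht1' ht2'

end

end Pool.Agent.Work.MP_47f387_co.Large

end
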