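import Pool.Agent.Work.MP_47f387_co.Bd.B03

/-! Bundle of small proof modules (one section per former module). -/

section

/-!
# MP_47f387_co, maximum degree 5: definitions and basic lemmas

The definitions `Near`, `Proper`, `Sees`, `Switch`, `Flex`, `Deg`, `BD`, `InK`, `cnt`, `Good`, `Tt`,
`pr`, `II`, `Mut`, `CC` are those of `Bd/B01.lean` (namespace `Large`).
-/

namespace Pool.Agent.Work.MP_47f387_co.Five

open Finset Classical Large

noncomputable section

/-- The two-coloured path `p v p'` (a whole component of the subgraph of the colours `i`, `j`) can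
be recoloured: `p`, `p'` get `j` and `v` gets `i`; and `v`, `g`, `p`, `p'` form a diamond
(`K_4` minus the edge `p p'`). -/
def Dm {V : Type} {d : ℕ} (G : SimpleGraph V) (f : V → Option (Fin d)) (i j : Fin d) (v : V) :
    Prop :=
  ∃ p p' g, p ≠ p' ∧ ¬ G.Adj p p' ∧ G.Adj v p ∧ G.Adj v p' ∧ G.Adj v g ∧ G.Adj g p ∧
    G.Adj g p' ∧ f v = some j ∧ f p = some i ∧ f p' = some i ∧
    (∀ u, G.Adj v u → f u = some i → u = p ∨ u = p') ∧
    (∀ u, G.Adj p u → f u = some j → u = v) ∧ ∀ u, G.Adj p' u → f u = some j → u = v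

/-- flexible in one of the two ways -/
def FX {V : Type} {d : ℕ} (G : SimpleGraph V) (f : V → Option (Fin d)) (i j : Fin d) (v : V) :
    Prop := Flex G f i j v ∨ Dm G f i j v

/-- rigid, also for diamonds -/
def Good5 {V : Type} (G : SimpleGraph V) (f : V → Option (Fin 5)) (v : V) : Prop :=
  Good G f v ∧ ∀ i j, ¬ Dm G f i j v

/-- rigid, of degree five and in exactly two pairs -/
def Rg {V : Type} [Fintype V] (G : SimpleGraph V) (f : V → Option (Fin 5)) (v : V) : Prop :=
  Good5 G f v ∧ Deg G v = 5 ∧ (II G f v).card = 2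

/-- Seven bags `{p k, q k}` (`k ≤ 6`), consecutive bags being completely joined, with 14 different
vertices; the vertices of the bags `1, ..., 5` have no other neighbours. -/
def Chain {V : Type} (G : SimpleGraph V) (p q : ℕ → V) : Prop :=
  (∀ k l, k ≤ 6 → l ≤ 6 → k ≠ l → p k ≠ p l ∧ q k ≠ q l ∧ p k ≠ q l) ∧
  (∀ k, k ≤ 6 → p k ≠ q k) ∧ G.Adj (p 0) (q 0) ∧ G.Adj (p 6) (q 6) ∧
  ∀ k, 1 ≤ k → k ≤ 5 → ∀ u,
    (G.Adj (p k) u ↔ u = q k ∨ u = p (k - 1) ∨ u = q (k - 1) ∨ u = p (k + 1) ∨ u = q (k + 1)) ∧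
    (G.Adj (q k) u ↔ u = p k ∨ u = p (k - 1) ∨ u = q (k - 1) ∨ u = p (k + 1) ∨ u = q (k + 1))

/-- `v` is a place of type `(i, j)`: there is no hole within distance 4; the ball of radius 3 can
be recoloured so that `i` loses one vertex and `j` gains one; and a hole which arrives at distance
exactly 4 can be filled by recolouring the ball of radius 4. -/
def Pl {V : Type} [Fintype V] {d : ℕ} (G : SimpleGraph V) (f : V → Option (Fin d)) (i j : Fin d)
    (v : V) : Prop :=
  (∀ u, Near G 4 v u → f u ≠ none) ∧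
  (∃ f₁ : V → Option (Fin d), Proper G f₁ ∧ (∀ u, ¬ Near G 3 v u → f₁ u = f u) ∧
    (∀ u, Near G 3 v u → f₁ u ≠ none) ∧
    ∀ c, cnt f₁ (some c) + (if c = i then 1 else 0) = cnt f (some c) + (if c = j then 1 else 0)) ∧
  ∀ (g : V → Option (Fin d)) (u : V), Proper G g → Near G 4 v u → ¬ Near G 3 v u → g u = none →
    (∀ w, Near G 4 v w → w ≠ u → g w = f w) →
    ∃ g' : V → Option (Fin d), Proper G g' ∧ (∀ w, ¬ Near G 4 v w → g' w = g w) ∧
      ∀ w, Near G 4 v w → g' w ≠ none

/-- `W` is a set of places (`w` is of type `(a w, b w)`) with pairwise distances greater than 10 -/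
def PS {V : Type} [Fintype V] {d : ℕ} (G : SimpleGraph V) (f : V → Option (Fin d)) (W : Finset V)
    (a b : V → Fin d) : Prop :=
  (∀ w ∈ W, Pl G f (a w) (b w) w) ∧ ∀ w ∈ W, ∀ w' ∈ W, w ≠ w' → ¬ Near G 10 w w'

/-! ### Basic lemmas on rigid vertices -/

section

variable {V : Type} [Fintype V] {d : ℕ} {G : SimpleGraph V} {f : V → Option (Fin d)}

/-- everything within distance 2 of a good vertex is tight -/
lemma tight (hf : Proper G f) {v w : V} (hv : Good G f v) (hw : Near G 2 v w) : Tt G f w :=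
  prfA3 d V G f hf v hv w hw

lemma tight0 (hf : Proper G f) {v : V} (hv : Good G f v) : Tt G f v :=
  tight hf hv (near_refl 2 v)

lemma tight1 (hf : Proper G f) {v u : V} (hv : Good G f v) (hu : G.Adj v u) : Tt G f u :=
  tight hf hv (near_mono (by norm_num) (near_of_adj hu))

/-- the pair of a tight vertex of degree `d` -/
lemma pair (hd : BD d G) (hf : Proper G f) {v : V} (hv : Tt G f v) (hdeg : Deg G v = d) :
    ∃ p p', p ≠ p' ∧ f p = f p' ∧ G.Adj v p ∧ G.Adj v p' ∧ ¬ G.Adj p p' ∧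
      pr G f v = {p, p'} := by
  rcases prfA1 d V G f hd hf v hv with ⟨_, h⟩ | ⟨h, _⟩
  · exact h
  · omega

/-- three elements of `pr v` are not distinct -/
lemma three (hd : BD d G) (hf : Proper G f) {v : V} (hv : Tt G f v) (hdeg : Deg G v = d)
    {a b c : V} (ha : a ∈ pr G f v) (hb : b ∈ pr G f v) (hc : c ∈ pr G f v) (hab : a ≠ b) :
    c = a ∨ c = b := by
  obtain ⟨p, p', _, _, _, _, _, hpr⟩ := pair hd hf hv hdeg
  rw [hpr, mem_insert, mem_singleton] at ha hb hc
  rcases ha with rfl | rfl <;> rcases hb with rfl | rfl <;> rcases hc with rfl | rfl <;>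
    simp_all

/-- two different elements of `pr v` have the same colour and are not adjacent -/
lemma two (hd : BD d G) (hf : Proper G f) {v : V} (hv : Tt G f v) (hdeg : Deg G v = d)
    {a b : V} (ha : a ∈ pr G f v) (hb : b ∈ pr G f v) (hab : a ≠ b) :
    f a = f b ∧ ¬ G.Adj a b ∧ pr G f v = {a, b} := by
  obtain ⟨p, p', _, hfp, _, _, hn, hpr⟩ := pair hd hf hv hdeg
  have ha' := ha
  have hb' := hb
  rw [hpr, mem_insert, mem_singleton] at ha' hb'
  rcases ha' with rfl | rfl
  · rcases hb' with rfl | rfl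
    · exact absurd rfl hab
    · exact ⟨hfp, hn, hpr⟩
  · rcases hb' with rfl | rfl
    · exact ⟨hfp.symm, fun h => hn h.symm, by rw [hpr]; exact Finset.pair_comm _ _⟩
    · exact absurd rfl hab

lemma mem_pr_of {y a b : V} (ha : G.Adj y a) (hb : G.Adj y b) (hne : a ≠ b) (hfe : f a = f b) :
    a ∈ pr G f y ∧ b ∈ pr G f y :=
  ⟨mem_pr.2 ⟨ha, b, hne.symm, hb, hfe.symm⟩, mem_pr.2 ⟨hb, a, hne, ha, hfe⟩⟩

/-- `v` good, `u` a neighbour outside of `pr v` and `II v`: `u` is adjacent to all other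
neighbours of `v` outside of `II v` -/
lemma key (hf : Proper G f) {v : V} (hv : Good G f v) {u w : V} (hu : G.Adj v u)
    (hup : u ∉ pr G f v) (huI : u ∉ II G f v) (hw : G.Adj v w) (hwu : w ≠ u)
    (hwI : w ∉ II G f v) : G.Adj w u :=
  IA6.key prfA3 asmA4 hf hv hu hup huI hw hwu hwI

/-- `v` good, `u` a neighbour outside of `pr v` and `II v`: mutual -/
lemma mut_of (hf : Proper G f) {v u : V} (hv : Good G f v) (hu : G.Adj v u)
    (hup : u ∉ pr G f v) (huI : u ∉ II G f v) : Mut G f v u :=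
  ⟨hu, fun h => huI (mem_II.mpr ⟨tight1 hf hv hu, h⟩), hup⟩

/-- a good vertex is in some pair -/
lemma II_nonempty (hd : BD d G) (hf : Proper G f) {v : V} (hv : Good G f v) :
    (II G f v).Nonempty := asmA5 d V G f hd hf v hv

/-- the double swap -/
lemma DS (hP : Proper G f) {p x x' y y' : V} (hg : Good G f p) (hxx' : x ≠ x')
    (hfx : f x = f x') (hpx : G.Adj p x) (hpx' : G.Adj p x') (hnadj : ¬ G.Adj x x')
    (hpr : pr G f p = {x, x'}) (hM : Mut G f x y) (hM' : Mut G f x' y') (hpy : ¬ G.Adj p y)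
    (hpy' : ¬ G.Adj p y') (hpny : p ≠ y) (hpny' : p ≠ y') (d1 : x ≠ y') (d2 : y ≠ x')
    (d3 : y ≠ y') (hyy' : ¬ G.Adj y y') : False :=
  IZ.DS prfA2 hP hg (tight1 hP hg hpx).1 (tight0 hP hg).1 hxx' hfx hpx hpx' hnadj hpr hM hM'
    hpy hpy' hpny hpny' d1 d2 d3 hyy'

/-- `card (N(v) \ S) + card S = d` if `S ⊆ N(v)` and `v` has degree `d` -/
lemma cover {v : V} (hdeg : Deg G v = d) {S : Finset V} (hS : ∀ a ∈ S, G.Adj v a) :
    ((univ.filter (fun u => G.Adj v u)) \ S).card + S.card = d :=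
  IZ.cover hdeg hS

/-- the neighbourhood of a vertex in exactly one pair: the pair does not contain the tight
vertex -/
lemma disj (hf : Proper G f) {v p p' e : V} (hv : Good G f v) (hdeg : Deg G v = d)
    (hpr : pr G f v = {p, p'}) (he : II G f v = {e}) (hep : e ∈ pr G f v) : False :=
  IA6.disj prfA3 asmA4 hf hv hdeg hpr he hep

/-- a hole which sees all colours: the neighbours are coloured, with different colours -/
lemma distinct (hd : BD d G) (f : V → Option (Fin d)) (x : V) (hx : ∀ c, Sees G f x c) :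
    (∀ u, G.Adj x u → f u ≠ none) ∧ ∀ u u', G.Adj x u → G.Adj x u' → f u = f u' → u = u' :=
  IC4.distinct hd f x hx

omit [Fintype V] in
/-- a vertex which does not see `c` can get the colour `c` -/
lemma fill (hf : Proper G f) {x : V} {c : Fin d} (hc : ¬ Sees G f x c) :
    Proper G (IC4.upd f x (some c)) := by
  intro u v e huv hu hv
  by_cases hux : u = x
  · subst hux
    rw [IC4.upd_self] at hu
    rw [IC4.upd_ne f u _ huv.ne'] at hv
    exact hc ⟨v, huv, by rw [hv, ← hu]⟩
  · by_cases hvx : v = x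
    · subst hvx
      rw [IC4.upd_self] at hv
      rw [IC4.upd_ne f v _ hux] at hu
      exact hc ⟨u, huv.symm, by rw [hu, ← hv]⟩
    · rw [IC4.upd_ne f x _ hux] at hu
      rw [IC4.upd_ne f x _ hvx] at hv
      exact hf u v e huv hu hv

/-- a hole which sees all colours can be moved to a neighbour -/
lemma move (hd : BD d G) (hf : Proper G f) {x y : V} (hx : f x = none)
    (hc : ∀ c, Sees G f x c) (hxy : G.Adj x y) :
    Proper G (fun u => f (Equiv.swap x y u)) := by
  obtain ⟨-, hdis⟩ := IC4.distinct hd f x hc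
  have hy : f (Equiv.swap x y y) = none := by rw [Equiv.swap_apply_right, hx]
  have hxx : f (Equiv.swap x y x) = f y := by rw [Equiv.swap_apply_left]
  have ho : ∀ u, u ≠ x → u ≠ y → f (Equiv.swap x y u) = f u := fun u h1 h2 => by
    rw [Equiv.swap_apply_of_ne_of_ne h1 h2]
  intro u v e huv hu hv
  beta_reduce at hu hv
  by_cases huy : u = y
  · subst huy
    rw [hy] at hu
    exact absurd hu (by simp)
  · by_cases hvy : v = y
    · subst hvy
      rw [hy] at hv
      exact absurd hv (by simp)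
    · by_cases hux : u = x
      · subst hux
        rw [hxx] at hu
        rw [ho v huv.ne' hvy] at hv
        exact hvy (hdis v y huv hxy (by rw [hu, hv]))
      · by_cases hvx : v = x
        · subst hvx
          rw [hxx] at hv
          rw [ho u hux huy] at hu
          exact huy (hdis u y huv.symm hxy (by rw [hu, hv]))
        · rw [ho u hux huy] at hu
          rw [ho v hvx hvy] at hv
          exact hf u v e huv hu hv

/-- permutations do not change the number of vertices of a colour -/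
lemma cnt_perm (f : V → Option (Fin d)) (e : Equiv.Perm V) (o : Option (Fin d)) :
    cnt (fun u => f (e u)) o = cnt f o := by
  unfold cnt
  exact Finset.card_equiv e (by intro i; simp)

omit [Fintype V] in
/-- first vertices at distance `r + 1` -/
lemma exists_far (hG : G.Connected) (v : V) (r : ℕ) {w : V} (hw : ¬ Near G r v w) :
    ∃ u, Near G (r + 1) v u ∧ ¬ Near G r v u := by
  obtain ⟨s, hs⟩ := IC4.exists_near hG v w
  induction s generalizing w with
  | zero =>
    cases hs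
    exact absurd (near_refl r v) hw
  | succ s ih =>
    rcases hs with hs | ⟨x, hx, hxw⟩
    · exact ih hw hs
    · by_cases hxr : Near G r v x
      · exact ⟨w, near_adj hxr hxw, hw⟩
      · exact ih hxr hx

end

end

end Pool.Agent.Work.MP_47f387_co.Five

end

section

/-!
# MP_47f387_co, maximum degree 5: the statements of the items
-/

namespace Pool.Agent.Work.MP_47f387_co.Five

open Finset Classical Large

noncomputable section

/-! ## Part F: there is no rigid region -/

/-- SF1: the pair of a rigid vertex meets `II`; and `II` has at least two elements. -/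
def SF1 : Prop := ∀ (V : Type) [Fintype V] (G : SimpleGraph V) (f : V → Option (Fin 5)),
  BD 5 G → Proper G f → ∀ v, Good5 G f v → Deg G v = 5 →
    ((II G f v).card ≤ 2 → ∃ x ∈ pr G f v, x ∈ II G f v) ∧ 2 ≤ (II G f v).card

/-- SF2: discharging. -/
def SF2 : Prop := ∀ (V : Type) [Fintype V] (G : SimpleGraph V) (f : V → Option (Fin 5)),
  BD 5 G → Proper G f →
  3 * 6 ^ 10 * (univ.filter (fun v => ¬ Good5 G f v)).card < Fintype.card V →
    ∃ v₀, ∀ u, Near G 10 v₀ u → Rg G f u

/-- SF3: `CC v` is a clique. -/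
def SF3 : Prop := ∀ (V : Type) [Fintype V] (G : SimpleGraph V) (f : V → Option (Fin 5)),
  BD 5 G → Proper G f → ∀ v, Rg G f v → G.IsNClique 4 (CC G f v)

/-- SF4: two different 4-cliques never have three common vertices. -/
def SF4 : Prop := ∀ (V : Type) [Fintype V] (G : SimpleGraph V) (f : V → Option (Fin 5)),
  BD 5 G → G.CliqueFree 5 → Proper G f → ∀ a₁, (∀ u, Near G 1 a₁ u → Rg G f u) →
    ∀ a₂ a₃ x x', G.Adj a₁ a₂ → G.Adj a₁ a₃ → G.Adj a₂ a₃ → G.Adj a₁ x → G.Adj a₂ x → G.Adj a₃ x →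
      G.Adj a₁ x' → G.Adj a₂ x' → G.Adj a₃ x' → x = x'

/-- two different 4-cliques through `u` have exactly two common vertices and cover the
neighbourhood of `u` -/
def St {V : Type} [Fintype V] (G : SimpleGraph V) (u : V) : Prop :=
  Deg G u = 5 ∧ ∀ Q Q' : Finset V, G.IsNClique 4 Q → G.IsNClique 4 Q' → u ∈ Q → u ∈ Q' →
    Q ≠ Q' → (Q ∩ Q').card = 2 ∧ ∀ w, G.Adj u w → w ∈ Q ∪ Q'

/-- SF5 -/
def SF5 : Prop := ∀ (V : Type) [Fintype V] (G : SimpleGraph V) (f : V → Option (Fin 5)),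
  BD 5 G → G.CliqueFree 5 → Proper G f → ∀ v, (∀ u, Near G 1 v u → Rg G f u) → St G v

/-- SF6: there are at most two 4-cliques through a vertex. -/
def SF6 : Prop := ∀ (V : Type) [Fintype V] (G : SimpleGraph V) (u : V), St G u →
  ∀ Q₁ Q₂ Q₃ : Finset V, G.IsNClique 4 Q₁ → G.IsNClique 4 Q₂ → G.IsNClique 4 Q₃ → u ∈ Q₁ →
    u ∈ Q₂ → u ∈ Q₃ → Q₁ ≠ Q₂ → Q₃ = Q₁ ∨ Q₃ = Q₂

/-- `Q` is the only 4-clique through `u` -/
def Only {V : Type} (G : SimpleGraph V) (u : V) (Q : Finset V) : Prop :=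
  ∀ Q' : Finset V, G.IsNClique 4 Q' → u ∈ Q' → Q' = Q

/-- SF7: a vertex in only one 4-clique. -/
def SF7 : Prop := ∀ (V : Type) [Fintype V] (G : SimpleGraph V) (f : V → Option (Fin 5)),
  BD 5 G → Proper G f → ∀ e, (∀ u, Near G 1 e u → Rg G f u ∧ St G u) → Only G e (CC G f e) →
    pr G f e = II G f e ∧ ∀ z ∈ II G f e, Only G z (CC G f z)

/-- SF8: every vertex of a rigid region is in two 4-cliques. -/
def SF8 : Prop := ∀ (V : Type) [Fintype V] (G : SimpleGraph V) (f : V → Option (Fin 5)),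
  BD 5 G → Proper G f → ∀ e, (∀ u, Near G 3 e u → Rg G f u ∧ St G u) →
    ¬ Only G e (CC G f e)

/-- `m` is the mate of `u` -/
def Mate {V : Type} (G : SimpleGraph V) (u m : V) : Prop :=
  G.Adj u m ∧ (∀ w, w ≠ u → w ≠ m → (G.Adj m w ↔ G.Adj u w)) ∧
  (∀ Q : Finset V, G.IsNClique 4 Q → u ∈ Q → m ∈ Q) ∧
  ∀ a b, G.Adj u a → G.Adj u b → a ≠ m → b ≠ m → a ≠ b → ¬ G.Adj a b →
    ∃ a' b', a' ≠ m ∧ a' ≠ a ∧ b' ≠ m ∧ b' ≠ b ∧ G.IsNClique 4 {u, m, a, a'} ∧
      G.IsNClique 4 {u, m, b, b'} ∧ ∀ w, G.Adj u w ↔ w = m ∨ w = a ∨ w = a' ∨ w = b ∨ w = b'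

/-- SF9: existence of the mate. -/
def SF9 : Prop := ∀ (V : Type) [Fintype V] (G : SimpleGraph V) (u : V), BD 5 G → St G u →
  (∃ Q Q' : Finset V, G.IsNClique 4 Q ∧ G.IsNClique 4 Q' ∧ u ∈ Q ∧ u ∈ Q' ∧ Q ≠ Q') →
    ∃ m, Mate G u m

/-- SF10: the chain. -/
def SF10 : Prop := ∀ (V : Type) [Fintype V] (G : SimpleGraph V) (v₀ w : V),
  (∀ u, Near G 6 v₀ u → ∃ m, Mate G u m) → Near G 6 v₀ w → ¬ Near G 5 v₀ w →
    ∃ p q : ℕ → V, Chain G p q ∧ Near G 3 v₀ (p 3) ∧
      ∀ k ≤ 6, Near G 7 v₀ (p k) ∧ Near G 7 v₀ (q k)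

/-- `h` is a proper colouring obtained from `f` by a permutation of the vertices of the bags
`1, ..., 5` -/
def Md {V : Type} (G : SimpleGraph V) (p q : ℕ → V) (f h : V → Option (Fin 5)) : Prop :=
  Proper G h ∧ ∃ e : Equiv.Perm V, (∀ u, e u ≠ u → ∃ k, 1 ≤ k ∧ k ≤ 5 ∧ (u = p k ∨ u = q k)) ∧
    ∀ u, h u = f (e u)

/-- the colours of the bag `k` -/
def Tb {V : Type} (p q : ℕ → V) (h : V → Option (Fin 5)) (k : ℕ) : Finset (Option (Fin 5)) :=
  {h (p k), h (q k)}

/-- SF11: all the modified colourings are tight on the chain. -/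
def SF11 : Prop := ∀ (V : Type) [Fintype V] (G : SimpleGraph V) (f h : V → Option (Fin 5))
  (p q : ℕ → V), Chain G p q → Proper G f → (∀ k ≤ 6, f (p k) ≠ none ∧ f (q k) ≠ none) →
  (∀ i j, ¬ Flex G f i j (p 3)) → Md G p q f h →
    (∀ k ≤ 6, none ∉ Tb p q h k ∧ (Tb p q h k).card = 2) ∧
    (∀ k ≤ 5, Disjoint (Tb p q h k) (Tb p q h (k + 1))) ∧
    ∀ k ≤ 4, (Tb p q h k ∩ Tb p q h (k + 2)).card = 1

/-- SF12: the window lemma. -/
def SF12 : Prop := ∀ (V : Type) [Fintype V] (G : SimpleGraph V) (f h : V → Option (Fin 5))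
  (p q : ℕ → V), Chain G p q → Proper G f → (∀ k ≤ 6, f (p k) ≠ none ∧ f (q k) ≠ none) →
  (∀ i j, ¬ Flex G f i j (p 3)) → Md G p q f h →
    ∀ k ≤ 2, ∀ a ∈ Tb p q h k, a ∈ Tb p q h (k + 2) → a ∉ Tb p q h (k + 4)

/-- SF13: a chain is flexible. -/
def SF13 : Prop := ∀ (V : Type) [Fintype V] (G : SimpleGraph V) (f : V → Option (Fin 5))
  (p q : ℕ → V), Chain G p q → Proper G f → (∀ k ≤ 6, f (p k) ≠ none ∧ f (q k) ≠ none) →
    ∃ i j, Flex G f i j (p 3)

/-- SF14: a positive proportion of vertices is not rigid. -/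
def SF14 : Prop := ∀ (V : Type) [Fintype V] (G : SimpleGraph V) (f : V → Option (Fin 5)),
  G.Connected → BD 5 G → G.CliqueFree 5 → Proper G f → 6 ^ 5 < Fintype.card V →
    Fintype.card V ≤ 3 * 6 ^ 10 * (univ.filter (fun v => ¬ Good5 G f v)).card

/-! ## Part P: places -/

/-- SP1: a flexible vertex far from the holes is a place. -/
def SP1 : Prop := ∀ (d : ℕ) (V : Type) [Fintype V] (G : SimpleGraph V) (f : V → Option (Fin d))
  (i j : Fin d) (v : V), BD d G → Proper G f → (∀ u, Near G 4 v u → f u ≠ none) →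
    Flex G f i j v → Pl G f i j v

/-- SP2: colouring a diamond from lists. -/
def SP2 : Prop := ∀ (d : ℕ) (A B C D : Finset (Fin d)), 3 ≤ A.card → 3 ≤ B.card → 2 ≤ C.card →
  2 ≤ D.card → ∃ a ∈ A, ∃ b ∈ B, ∃ c ∈ C, ∃ e ∈ D, a ≠ b ∧ a ≠ c ∧ a ≠ e ∧ b ≠ c ∧ b ≠ e

/-- SP3: recolouring a diamond. -/
def SP3 : Prop := ∀ (d : ℕ) (V : Type) [Fintype V] (G : SimpleGraph V) (g : V → Option (Fin d))
  (v z p p' : V), 3 ≤ d → BD d G → Proper G g → p ≠ p' → ¬ G.Adj p p' → G.Adj v p → G.Adj v p' →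
  G.Adj v z → G.Adj z p → G.Adj z p' →
    ∃ g' : V → Option (Fin d), Proper G g' ∧
      (∀ u, u ≠ v → u ≠ z → u ≠ p → u ≠ p' → g' u = g u) ∧
      g' v ≠ none ∧ g' z ≠ none ∧ g' p ≠ none ∧ g' p' ≠ none

/-- SP4: a hole walks to `v` inside the ball of radius 4. -/
def SP4 : Prop := ∀ (d : ℕ) (V : Type) [Fintype V] (G : SimpleGraph V) (g : V → Option (Fin d))
  (v u : V), BD d G → Proper G g → Near G 4 v u → g u = none →
  (∀ w, Near G 4 v w → w ≠ u → g w ≠ none) →
    ∃ g' : V → Option (Fin d), Proper G g' ∧ (∀ w, ¬ Near G 4 v w → g' w = g w) ∧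
      ∀ w, Near G 4 v w → w ≠ v → g' w ≠ none

/-- SP5: a diamond far from the holes is a place. -/
def SP5 : Prop := ∀ (d : ℕ) (V : Type) [Fintype V] (G : SimpleGraph V) (f : V → Option (Fin d))
  (i j : Fin d) (v : V), 3 ≤ d → BD d G → Proper G f → (∀ u, Near G 4 v u → f u ≠ none) →
    Dm G f i j v → Pl G f i j v

/-- SP6: being a place depends only on the ball of radius 4. -/
def SP6 : Prop := ∀ (d : ℕ) (V : Type) [Fintype V] (G : SimpleGraph V)
  (f f' : V → Option (Fin d)) (i j : Fin d) (v : V), Proper G f' →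
  (∀ u, Near G 4 v u → f' u = f u) → Pl G f i j v → Pl G f' i j v

/-- SP7: a hole walks towards `w` and stops at distance 4. -/
def SP7 : Prop := ∀ (d : ℕ) (V : Type) [Fintype V] (G : SimpleGraph V), BD d G →
  ∀ (w : V) (m : ℕ) (f : V → Option (Fin d)) (y : V), Proper G f → f y = none →
  Near G (m + 4) w y → ¬ Near G (m + 3) w y → (∀ z, Near G (m + 3) w z → f z ≠ none) →
    (∃ f' : V → Option (Fin d), Proper G f' ∧ cnt f' none + 1 = cnt f none ∧
      (∀ c, cnt f (some c) ≤ cnt f' (some c) ∧ cnt f' (some c) ≤ cnt f (some c) + 1) ∧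
      ∀ z, f' z ≠ f z → (∃ s, s < m ∧ Near G s y z) ∨ Near G 4 w z) ∨
    ∃ (f' : V → Option (Fin d)) (u : V), Proper G f' ∧ f' u = none ∧ Near G 4 w u ∧
      ¬ Near G 3 w u ∧ (∀ o, cnt f' o = cnt f o) ∧
      (∀ z, Near G 4 w z → z ≠ u → f' z = f z) ∧ (∀ z, Near G 4 w z → z ≠ u → f' z ≠ none) ∧
      ∀ z, f' z ≠ f z → (∃ s, s < m ∧ Near G s y z) ∨ z = u

/-- SP8: filling one hole. -/
def SP8 : Prop := ∀ (d : ℕ) (V : Type) [Fintype V] (G : SimpleGraph V) (f : V → Option (Fin d))
  (W : Finset V) (a b : V → Fin d), G.Connected → BD d G → Proper G f → PS G f W a b →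
  W.Nonempty → 1 ≤ cnt f none →
    ∃ (f' : V → Option (Fin d)) (W' : Finset V), Proper G f' ∧ W' ⊆ W ∧ W.card ≤ W'.card + 1 ∧
      PS G f' W' a b ∧ cnt f' none + 1 = cnt f none ∧
      ∀ c, cnt f (some c) ≤ cnt f' (some c) + (d + 1) ^ 4 ∧
        cnt f' (some c) ≤ cnt f (some c) + (d + 1) ^ 4

/-- SP9: filling all holes. -/
def SP9 : Prop := ∀ (d : ℕ) (V : Type) [Fintype V] (G : SimpleGraph V) (f : V → Option (Fin d))
  (W : Finset V) (a b : V → Fin d), G.Connected → BD d G → Proper G f → PS G f W a b →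
  cnt f none < W.card →
    ∃ (f' : V → Option (Fin d)) (W' : Finset V), Proper G f' ∧ W' ⊆ W ∧
      W.card ≤ W'.card + cnt f none ∧ PS G f' W' a b ∧ cnt f' none = 0 ∧
      ∀ c, cnt f (some c) ≤ cnt f' (some c) + (d + 1) ^ 4 * cnt f none ∧
        cnt f' (some c) ≤ cnt f (some c) + (d + 1) ^ 4 * cnt f none

/-- SP10: balancing. -/
def SP10 : Prop := ∀ (d : ℕ) (V : Type) [Fintype V] (G : SimpleGraph V) (f : V → Option (Fin d))
  (W : Finset V) (a b : V → Fin d) (t : Fin d → ℕ) (m : ℕ), Proper G f → PS G f W a b →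
  cnt f none = 0 → ∑ c, t c = Fintype.card V → ∑ c, (cnt f (some c) - t c) ≤ m →
  (∀ i j : Fin d, i ≠ j → m ≤ (W.filter (fun w => a w = i ∧ b w = j)).card) →
    ∃ f' : V → Option (Fin d), Proper G f' ∧ cnt f' none = 0 ∧ ∀ c, cnt f' (some c) = t c

/-! ## Part B: random greedy colouring -/

/-- locality with radius 3 -/
def Loc3 {V : Type} {d : ℕ} (G : SimpleGraph V)
    (Φ : (V → Option (Fin d)) → Fin d → Fin d → V → Prop) : Prop :=
  ∀ (f g : V → Option (Fin d)) (i j : Fin d) (v : V), (∀ u, Near G 3 v u → f u = g u) →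
    Φ f i j v → Φ g i j v

/-- equivariance -/
def Eqv {V : Type} {d : ℕ} (Φ : (V → Option (Fin d)) → Fin d → Fin d → V → Prop) : Prop :=
  ∀ (f : V → Option (Fin d)) (π : Equiv.Perm (Fin d)) (i j : Fin d) (v : V),
    Φ f i j v → Φ (fun u => (f u).map π) (π i) (π j) v

/-- SB1: `FX` is local and equivariant. -/
def SB1 : Prop := ∀ (d : ℕ) (V : Type) (G : SimpleGraph V),
  Loc3 G (FX (d := d) G) ∧ Eqv (FX (d := d) G) ∧
    ∀ f : V → Option (Fin d), Proper G f → ∀ i v, ¬ FX G f i i v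

/-- the constant of SB2 -/
def kM (d K : ℕ) : ℕ := 4 * ((d + d * d) * (d + 1) ^ ((K + 3) + (K + 3)))

/-- SB2: a good colouring (all the local and average information). -/
def SB2 : Prop := ∀ (d K : ℕ), 1 ≤ d → ∀ (V : Type) [Fintype V] (G : SimpleGraph V)
  (Φ : (V → Option (Fin d)) → Fin d → Fin d → V → Prop)
  (F : (V → Equiv.Perm (Fin d)) → V → Option (Fin d)), BD d G → Loc3 G Φ → Eqv Φ →
  (∀ σ i v, ¬ Φ (F σ) i i v) →
  (∀ (π : Equiv.Perm (Fin d)) σ v, F (fun u => π * σ u) v = (F σ v).map π) →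
  (∀ σ τ v, (∀ u, Near G K v u → σ u = τ u) → F σ v = F τ v) →
  ∀ A : ℕ, (∀ σ, A ≤ ∑ i : Fin d, ∑ j : Fin d, (univ.filter (fun v => Φ (F σ) i j v)).card) →
    ∃ σ, (∀ c c' : Fin d, ((cnt (F σ) (some c) : ℝ) - cnt (F σ) (some c')) ^ 2 ≤
        (kM d K : ℝ) * Fintype.card V) ∧
      ∀ i j : Fin d, i ≠ j →
        (A : ℝ) / (d : ℝ) ^ 2 ≤ ((univ.filter (fun v => Φ (F σ) i j v)).card : ℝ) +
          Real.sqrt ((kM d K : ℝ) * Fintype.card V)

/-- the constant of SF14 -/
def k0 : ℕ := 3 * 6 ^ 10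

/-- the constant of SB3 -/
def k8 : ℕ := 16 * k0 * 5 ^ 2

/-- the radius of SB3 -/
def kR (R : ℕ) : ℕ := 2 * R + 8 * k0 * 6 ^ 3

/-- the order of SB3 -/
def kN (R : ℕ) : ℕ :=
  kR R + R ^ 2 * kM 5 ((kR R + 1) * 6) + 16 * k0 +
    256 * k0 ^ 2 * 5 ^ 4 * kM 5 ((kR R + 1) * 6) + 6 ^ 5 + 1

/-- SB3: the conclusion of the probabilistic part. -/
def SB3 : Prop := ∀ (R : ℕ) (V : Type) [Fintype V] (G : SimpleGraph V),
  G.Connected → BD 5 G → G.CliqueFree 5 → kN R ≤ Fintype.card V →
    ∃ f : V → Option (Fin 5), Proper G f ∧ R * cnt f none ≤ Fintype.card V ∧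
      (∀ c c' : Fin 5, R * cnt f (some c) ≤ R * cnt f (some c') + Fintype.card V) ∧
      ∀ i j : Fin 5, i ≠ j →
        Fintype.card V ≤ k8 * (univ.filter (fun v => FX G f i j v)).card

/-- the constant of SB4 -/
def k3 : ℕ := 4 * k8 * (5 * 5 * 6 ^ 10)

/-- the order of SB4 -/
def kQ (R : ℕ) : ℕ := max (kN R) k3

/-- SB4: many places of each type. -/
def SB4 : Prop := ∀ (R : ℕ) (V : Type) [Fintype V] (G : SimpleGraph V),
  G.Connected → BD 5 G → G.CliqueFree 5 → 2 * k8 * 6 ^ 4 ≤ R → kQ R ≤ Fintype.card V →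
    ∃ f : V → Option (Fin 5), Proper G f ∧ R * cnt f none ≤ Fintype.card V ∧
      (∀ c c' : Fin 5, R * cnt f (some c) ≤ R * cnt f (some c') + Fintype.card V) ∧
      ∃ (W : Finset V) (a b : V → Fin 5), PS G f W a b ∧
        ∀ i j : Fin 5, i ≠ j →
          Fintype.card V ≤ k3 * (W.filter (fun w => a w = i ∧ b w = j)).card

/-- the number of holes is at most `1 / kS` of the order -/
def kS : ℕ := 6 ^ 7 * k3

/-- the order of SB5 -/
def kF (m : ℕ) : ℕ := kQ kS + 100 * k3 * (m + 1)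

/-- SB5: prescribed nearly balanced class sizes. -/
def SB5 : Prop := ∀ (m : ℕ) (V : Type) [Fintype V] (G : SimpleGraph V),
  G.Connected → BD 5 G → G.CliqueFree 5 → kF m ≤ Fintype.card V → ∀ t : Fin 5 → ℕ,
    ∑ c, t c = Fintype.card V → (∀ i j, t i ≤ t j + m) → Colb G univ t

/-- SB6: simple upper bound for the order. -/
def SB6 : Prop := ∀ m : ℕ, kF m * 6 ≤ (m + 1) * 6 ^ (6 ^ 40)

end

end Pool.Agent.Work.MP_47f387_co.Five

end

section

/-!
# MP_47f387_co, maximum degree 5, item SF1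
-/

namespace Pool.Agent.Work.MP_47f387_co.Five

open Finset Classical Large

noncomputable section

namespace XSF1

variable {V : Type} [Fintype V] {G : SimpleGraph V} {f : V → Option (Fin 5)}

lemma first (hd : BD 5 G) (hf : Proper G f) {v : V} (hv : Good5 G f v) (hdeg : Deg G v = 5)
    (hc : (II G f v).card ≤ 2) : ∃ x ∈ pr G f v, x ∈ II G f v := by
  by_contra hcon
  push Not at hcon
  have ht := tight0 hf hv.1
  obtain ⟨p, p', hne, hfp, hp, hp', hn, hpr⟩ := pair hd hf ht hdeg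
  have hc2 : (pr G f v).card ≤ 2 := by rw [hpr]; exact card_le_two
  obtain ⟨g, hg, hg'⟩ : ∃ g, G.Adj v g ∧ g ∉ pr G f v ∪ II G f v := by
    by_contra h
    push Not at h
    have h1 : univ.filter (fun u => G.Adj v u) ⊆ pr G f v ∪ II G f v := by
      intro u hu
      exact h u (mem_filter.1 hu).2
    have h2 := card_le_card h1
    have h3 := card_union_le (pr G f v) (II G f v)
    have h4 : (univ.filter (fun u => G.Adj v u)).card = 5 := hdeg
    omega
  rw [mem_union, not_or] at hg'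
  have hpm : p ∈ pr G f v := by rw [hpr]; simp
  have hpm' : p' ∈ pr G f v := by rw [hpr]; simp
  have hpI := hcon p hpm
  have hpI' := hcon p' hpm'
  have hpg : G.Adj p g := key hf hv.1 hg hg'.1 hg'.2 hp (fun h => hg'.1 (h ▸ hpm)) hpI
  have hpg' : G.Adj p' g := key hf hv.1 hg hg'.1 hg'.2 hp' (fun h => hg'.1 (h ▸ hpm')) hpI'
  obtain ⟨i, hi⟩ := Option.ne_none_iff_exists'.1 (tight1 hf hv.1 hp).1
  obtain ⟨j, hj⟩ := Option.ne_none_iff_exists'.1 ht.1
  refine hv.2 i j ⟨p, p', g, hne, hn, hp, hp', hg, hpg.symm, hpg'.symm, hj, hi, ?_, ?_, ?_, ?_⟩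
  · rw [← hfp, hi]
  · intro u hu hfu
    by_contra h
    push Not at h
    have h1 := (mem_pr_of (f := f) hu hp h.1 (by rw [hfu, hi])).1
    rw [hpr, mem_insert, mem_singleton] at h1
    rcases h1 with h1 | h1
    · exact h.1 h1
    · exact h.2 h1
  · intro u hu hfu
    by_contra h
    have h1 := (mem_pr_of (f := f) (y := p) hp.symm hu (Ne.symm h) (by rw [hfu, hj])).1
    exact hpI (mem_II.2 ⟨tight1 hf hv.1 hp, h1⟩)
  · intro u hu hfu
    by_contra h
    have h1 := (mem_pr_of (f := f) (y := p') hp'.symm hu (Ne.symm h) (by rw [hfu, hj])).1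
    exact hpI' (mem_II.2 ⟨tight1 hf hv.1 hp', h1⟩)

end XSF1

theorem prf_SF1 : SF1 := by
  intro V _ G f hd hf v hv hdeg
  refine ⟨XSF1.first hd hf hv hdeg, ?_⟩
  have h1 : 1 ≤ (II G f v).card := card_pos.2 (II_nonempty hd hf hv.1)
  by_contra h
  have h2 : (II G f v).card = 1 := by omega
  obtain ⟨e, he⟩ := card_eq_one.1 h2
  obtain ⟨x, hx, hx'⟩ := XSF1.first hd hf hv hdeg (by omega)
  have h3 : x = e := by
    rw [he, mem_singleton] at hx'
    exact hx'
  obtain ⟨p, p', _, _, _, _, _, hpr⟩ := pair hd hf (tight0 hf hv.1) hdeg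
  exact disj hf hv.1 hdeg hpr he (h3 ▸ hx)

end

end Pool.Agent.Work.MP_47f387_co.Five

end

section

/-!
# MP_47f387_co, maximum degree 5, item SF2
-/

namespace Pool.Agent.Work.MP_47f387_co.Five

open Finset Classical Large

noncomputable section

namespace XSF2

variable {V : Type} [Fintype V] {G : SimpleGraph V} {f : V → Option (Fin 5)}

/-- the charge -/
def ch (G : SimpleGraph V) (f : V → Option (Fin 5)) (v : V) : ℤ :=
  ((II G f v).card : ℤ) - (IA7.ps G f v : ℤ)

lemma sum_ch : ∑ v : V, ch G f v = 0 := by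
  unfold ch
  rw [sum_sub_distrib]
  have h := IA7.sum_II (G := G) (f := f)
  have h' : (∑ v : V, ((II G f v).card : ℤ)) = ∑ v : V, (IA7.ps G f v : ℤ) := by
    exact_mod_cast h
  rw [h', sub_self]

lemma ch_ge (h1 : SF1) (hd : BD 5 G) (hf : Proper G f) (v : V) :
    (if Good5 G f v ∧ ¬ Rg G f v then (1 : ℤ) else 0) -
      2 * (if ¬ Good5 G f v then (1 : ℤ) else 0) ≤ ch G f v := by
  unfold ch
  have hp := IA7.ps_le prfA1 hd hf v
  by_cases hg : Good5 G f v
  · have ht := tight0 hf hg.1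
    have hI : 1 ≤ (II G f v).card := card_pos.2 (II_nonempty hd hf hg.1)
    rw [if_neg (not_not.2 hg)]
    by_cases hdeg : Deg G v = 5
    · have h2 := (h1 V G f hd hf v hg hdeg).2
      by_cases hr : Rg G f v
      · rw [if_neg (fun h => h.2 hr)]
        omega
      · rw [if_pos ⟨hg, hr⟩]
        have h3 : (II G f v).card ≠ 2 := fun h => hr ⟨hg, hdeg, h⟩
        omega
    · have hp0 : IA7.ps G f v = 0 := by
        rcases prfA1 5 V G f hd hf v ht with ⟨h, _⟩ | ⟨_, h⟩
        · exact absurd h hdeg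
        · unfold IA7.ps
          rw [if_pos ht, h]
          rfl
      rw [if_pos ⟨hg, fun h => hdeg h.2.1⟩]
      omega
  · rw [if_pos hg, if_neg (fun h => hg h.1)]
    omega

end XSF2

theorem prf_SF2 (h1 : SF1) : SF2 := by
  intro V _ G f hBD hf hlt
  set X₀ : Finset V := univ.filter (fun v => ¬ Good5 G f v) with hX₀
  set X₁ : Finset V := univ.filter (fun v => Good5 G f v ∧ ¬ Rg G f v) with hX₁
  have hX₁c : X₁.card ≤ 2 * X₀.card := by
    have hge := Finset.sum_le_sum fun v (_ : v ∈ (univ : Finset V)) => XSF2.ch_ge h1 hBD hf v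
    rw [XSF2.sum_ch, Finset.sum_sub_distrib, ← Finset.mul_sum, Finset.sum_boole,
      Finset.sum_boole] at hge
    have h : ((X₁.card : ℕ) : ℤ) ≤ ((2 * X₀.card : ℕ) : ℤ) := by
      push_cast
      linarith
    exact_mod_cast h
  have hXc : (X₀ ∪ X₁).card ≤ 3 * X₀.card := by
    have := card_union_le X₀ X₁
    omega
  have hY : ((X₀ ∪ X₁).biUnion (fun x => univ.filter (fun v => Near G 10 x v))).card <
      Fintype.card V := by
    calc _ ≤ (X₀ ∪ X₁).card * (5 + 1) ^ 10 := by
          apply card_biUnion_le_card_mul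
          intro x _
          exact near_card hBD 10 x
      _ ≤ 3 * X₀.card * (5 + 1) ^ 10 := Nat.mul_le_mul_right _ hXc
      _ = 3 * 6 ^ 10 * X₀.card := by ring
      _ < _ := hlt
  obtain ⟨v₀, hv₀⟩ : ∃ v₀, v₀ ∉ (X₀ ∪ X₁).biUnion
      (fun x => univ.filter (fun v => Near G 10 x v)) := by
    by_contra hcon
    push Not at hcon
    have : (X₀ ∪ X₁).biUnion (fun x => univ.filter (fun v => Near G 10 x v)) = univ :=
      eq_univ_iff_forall.2 hcon
    rw [this, card_univ] at hY
    exact lt_irrefl _ hY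
  refine ⟨v₀, fun x hx => ?_⟩
  have hn : x ∉ X₀ ∪ X₁ := by
    intro h
    exact hv₀ (mem_biUnion.2 ⟨x, h, mem_filter.2 ⟨mem_univ _, near_symm hx⟩⟩)
  rw [mem_union, not_or] at hn
  have hg : Good5 G f x := by
    by_contra hg
    exact hn.1 (mem_filter.2 ⟨mem_univ _, hg⟩)
  by_contra hz
  exact hn.2 (mem_filter.2 ⟨mem_univ _, hg, hz⟩)

end

end Pool.Agent.Work.MP_47f387_co.Five

end

section

/-!
# MP_47f387_co, maximum degree 5: item SF3
-/

namespace Pool.Agent.Work.MP_47f387_co.Five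

open Finset Classical Large

noncomputable section

theorem prf_SF3 (h1 : SF1) : SF3 := by
  intro V _ G f hbd hf v hv
  obtain ⟨hg5, hdeg, hII⟩ := hv
  have hg : Good G f v := hg5.1
  obtain ⟨x, hx, hxI⟩ := (h1 V G f hbd hf v hg5 hdeg).1 hII.le
  obtain ⟨p, p', -, -, -, -, -, hpr⟩ := pair hbd hf (tight0 hf hg) hdeg
  set Nv : Finset V := univ.filter (fun u => G.Adj v u) with hNv
  have hNcard : Nv.card = 5 := hdeg
  have hIIN : II G f v ⊆ Nv := by
    intro y hy
    rw [hNv, mem_filter]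
    exact ⟨mem_univ _, adj_of_mem_II hy⟩
  have hCC : CC G f v = insert v (Nv \ II G f v) := by
    ext u
    rw [mem_CC, mem_insert, mem_sdiff, hNv, mem_filter]
    simp
  rw [SimpleGraph.isNClique_iff]
  constructor
  · rw [SimpleGraph.isClique_iff]
    intro a ha b hb hab
    rw [mem_coe, mem_CC] at ha hb
    rcases ha with rfl | ⟨ha, haI⟩
    · rcases hb with rfl | ⟨hb, -⟩
      · exact absurd rfl hab
      · exact hb
    · rcases hb with rfl | ⟨hb, hbI⟩
      · exact ha.symm
      · by_cases hbp : b ∈ pr G f v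
        · by_cases hap : a ∈ pr G f v
          · exfalso
            rw [hpr] at hap hbp hx
            simp only [mem_insert, mem_singleton] at hap hbp hx
            rcases hap with rfl | rfl
            · rcases hbp with rfl | rfl
              · exact hab rfl
              · rcases hx with rfl | rfl
                · exact haI hxI
                · exact hbI hxI
            · rcases hbp with rfl | rfl
              · rcases hx with rfl | rfl
                · exact hbI hxI
                · exact haI hxI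
              · exact hab rfl
          · exact (key hf hg ha hap haI hb hab.symm hbI).symm
        · exact key hf hg hb hbp hbI ha hab haI
  · rw [hCC, card_insert_of_notMem, card_sdiff_of_subset hIIN, hNcard, hII]
    intro h
    rw [mem_sdiff, hNv, mem_filter] at h
    exact G.loopless.irrefl v h.1.2

end

end Pool.Agent.Work.MP_47f387_co.Five

end

section

/-!
# MP_47f387_co, maximum degree 5, item SF4
-/

namespace Pool.Agent.Work.MP_47f387_co.Five

open Finset Classical Large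

noncomputable section

namespace XSF4

variable {V : Type} [Fintype V] {G : SimpleGraph V} {f : V → Option (Fin 5)}

lemma no2 (hd : BD 5 G) (hf : Proper G f) {a b y : V} (hdeg : Deg G y = 5)
    (ha : y ∈ II G f a) (hb : y ∈ II G f b) (hab : G.Adj a b) : False := by
  rw [mem_II] at ha hb
  exact (two hd hf ha.1 hdeg ha.2 hb.2 hab.ne).2.1 hab

lemma one (h3 : SF3) (hd : BD 5 G) (hf : Proper G f) {a x x' : V} (hr : Rg G f a)
    (hx : G.Adj a x) (hx' : G.Adj a x') (hne : x ≠ x') (hn : ¬ G.Adj x x') :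
    x ∈ II G f a ∨ x' ∈ II G f a := by
  by_contra h
  push Not at h
  have hc := (h3 V G f hd hf a hr).1
  exact hn (hc (mem_CC.2 (Or.inr ⟨hx, h.1⟩)) (mem_CC.2 (Or.inr ⟨hx', h.2⟩)) hne)

end XSF4

open XSF4 in
theorem prf_SF4 (h3 : SF3) : SF4 := by
  intro V _ G f hd hfree hf a₁ hR a₂ a₃ x x' h12 h13 h23 h1x h2x h3x h1y h2y h3y
  by_contra hne
  have hn : ¬ G.Adj x x' := by
    intro hxx
    apply hfree {a₁, a₂, a₃, x, x'}
    rw [SimpleGraph.isNClique_iff]
    refine ⟨?_, ?_⟩
    · intro u hu w hw huw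
      simp only [coe_insert, coe_singleton, Set.mem_insert_iff, Set.mem_singleton_iff] at hu hw
      rcases hu with rfl | rfl | rfl | rfl | rfl <;>
        rcases hw with rfl | rfl | rfl | rfl | rfl <;>
        first
          | exact absurd rfl huw
          | assumption
          | (apply SimpleGraph.Adj.symm; assumption)
    · rw [card_insert_of_notMem, card_insert_of_notMem, card_insert_of_notMem,
        card_insert_of_notMem, card_singleton]
      · simp [hne]
      · simp [h3x.ne, h3y.ne]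
      · simp [h23.ne, h2x.ne, h2y.ne]
      · simp [h12.ne, h13.ne, h1x.ne, h1y.ne]
  have r1 : Rg G f a₁ := hR a₁ (near_refl 1 a₁)
  have r2 : Rg G f a₂ := hR a₂ (near_of_adj h12)
  have r3 : Rg G f a₃ := hR a₃ (near_of_adj h13)
  have dx : Deg G x = 5 := (hR x (near_of_adj h1x)).2.1
  have dy : Deg G x' = 5 := (hR x' (near_of_adj h1y)).2.1
  rcases one h3 hd hf r1 h1x h1y hne hn with e1 | e1 <;>
    rcases one h3 hd hf r2 h2x h2y hne hn with e2 | e2 <;>
    rcases one h3 hd hf r3 h3x h3y hne hn with e3 | e3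
  · exact no2 hd hf dx e1 e2 h12
  · exact no2 hd hf dx e1 e2 h12
  · exact no2 hd hf dx e1 e3 h13
  · exact no2 hd hf dy e2 e3 h23
  · exact no2 hd hf dx e2 e3 h23
  · exact no2 hd hf dy e1 e3 h13
  · exact no2 hd hf dy e1 e2 h12
  · exact no2 hd hf dy e1 e2 h12

end

end Pool.Agent.Work.MP_47f387_co.Five

end

section

/-!
# MP_47f387_co, maximum degree 5, item SF5
-/

namespace Pool.Agent.Work.MP_47f387_co.Five

open Finset Classical Large

noncomputable section

namespace XSF5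

variable {V : Type} [Fintype V] {G : SimpleGraph V} {f : V → Option (Fin 5)}

lemma core (h4 : SF4) (hd : BD 5 G) (hfree : G.CliqueFree 5) (hf : Proper G f) {v : V}
    (hR : ∀ u, Near G 1 v u → Rg G f u) {Q Q' : Finset V} (hQ : G.IsNClique 4 Q)
    (hQ' : G.IsNClique 4 Q') (hv : v ∈ Q) (hv' : v ∈ Q') : (Q ∩ Q').card ≠ 3 := by
  intro h3
  have hvv : v ∈ Q ∩ Q' := mem_inter.2 ⟨hv, hv'⟩
  have h5 : ((Q ∩ Q').erase v).card = 2 := by rw [card_erase_of_mem hvv, h3]
  obtain ⟨a₂, a₃, h23, he⟩ := card_eq_two.1 h5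
  have m2 : a₂ ∈ (Q ∩ Q').erase v := by rw [he]; simp
  have m3 : a₃ ∈ (Q ∩ Q').erase v := by rw [he]; simp
  rw [mem_erase, mem_inter] at m2 m3
  have h6 : (Q \ Q').card = 1 := by
    have := card_sdiff_add_card_inter Q Q'
    rw [h3, hQ.card_eq] at this
    omega
  have h7 : (Q' \ Q).card = 1 := by
    have := card_sdiff_add_card_inter Q' Q
    rw [inter_comm, h3, hQ'.card_eq] at this
    omega
  obtain ⟨x, hx⟩ := card_eq_one.1 h6
  obtain ⟨x', hx'⟩ := card_eq_one.1 h7
  have mx : x ∈ Q \ Q' := by rw [hx]; simp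
  have mx' : x' ∈ Q' \ Q := by rw [hx']; simp
  rw [mem_sdiff] at mx mx'
  have nx : ∀ a ∈ Q', a ≠ x := fun a ha h => mx.2 (h ▸ ha)
  have nx' : ∀ a ∈ Q, a ≠ x' := fun a ha h => mx'.2 (h ▸ ha)
  have e := h4 V G f hd hfree hf v hR a₂ a₃ x x'
    (hQ.isClique hv m2.2.1 m2.1.symm) (hQ.isClique hv m3.2.1 m3.1.symm)
    (hQ.isClique m2.2.1 m3.2.1 h23)
    (hQ.isClique hv mx.1 (nx v hv')) (hQ.isClique m2.2.1 mx.1 (nx _ m2.2.2))
    (hQ.isClique m3.2.1 mx.1 (nx _ m3.2.2))
    (hQ'.isClique hv' mx'.1 (nx' v hv)) (hQ'.isClique m2.2.2 mx'.1 (nx' _ m2.2.1))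
    (hQ'.isClique m3.2.2 mx'.1 (nx' _ m3.2.1))
  exact mx.2 (e ▸ mx'.1)

end XSF5

theorem prf_SF5 (h4 : SF4) : SF5 := by
  intro V _ G f hd hfree hf v hR
  have hdeg : Deg G v = 5 := (hR v (near_refl 1 v)).2.1
  refine ⟨hdeg, ?_⟩
  intro Q Q' hQ hQ' hv hv' hne
  have h3 := XSF5.core h4 hd hfree hf hR hQ hQ' hv hv'
  have hsub : (Q ∪ Q').erase v ⊆ univ.filter (fun u => G.Adj v u) := by
    intro u hu
    rw [mem_erase, mem_union] at hu
    rw [mem_filter]
    refine ⟨mem_univ _, ?_⟩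
    rcases hu.2 with h | h
    · exact hQ.isClique hv h hu.1.symm
    · exact hQ'.isClique hv' h hu.1.symm
  have hN : (univ.filter (fun u => G.Adj v u)).card = 5 := hdeg
  have h5 := card_le_card hsub
  rw [hN, card_erase_of_mem (mem_union_left _ hv)] at h5
  have h6 := card_union_add_card_inter Q Q'
  rw [hQ.card_eq, hQ'.card_eq] at h6
  have h7 : (Q ∩ Q').card ≠ 4 := by
    intro h
    have e1 : Q ∩ Q' = Q := eq_of_subset_of_card_le inter_subset_left (by rw [h, hQ.card_eq])
    have e2 : Q ∩ Q' = Q' := eq_of_subset_of_card_le inter_subset_right (by rw [h, hQ'.card_eq])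
    exact hne (e1.symm.trans e2)
  have h8 : (Q ∩ Q').card ≤ 4 := by
    have := card_le_card (inter_subset_left (s₁ := Q) (s₂ := Q'))
    rwa [hQ.card_eq] at this
  have h9 : (Q ∩ Q').card = 2 := by omega
  refine ⟨h9, ?_⟩
  have h10 : (Q ∪ Q').erase v = univ.filter (fun u => G.Adj v u) := by
    apply eq_of_subset_of_card_le hsub
    rw [hN, card_erase_of_mem (mem_union_left _ hv)]
    omega
  intro w hw
  have h11 : w ∈ (Q ∪ Q').erase v := by
    rw [h10, mem_filter]
    exact ⟨mem_univ _, hw⟩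
  exact (mem_erase.1 h11).2

end

end Pool.Agent.Work.MP_47f387_co.Five

end

section

/-!
# MP_47f387_co, maximum degree 5, item SF6
-/

namespace Pool.Agent.Work.MP_47f387_co.Five

open Finset Classical Large

noncomputable section

theorem prf_SF6 : SF6 := by
  intro V _ G u hSt Q₁ Q₂ Q₃ h1 h2 h3 m1 m2 m3 h12
  by_contra hcon
  push Not at hcon
  obtain ⟨hn1, hn2⟩ := hcon
  have e12 := hSt.2 Q₁ Q₂ h1 h2 m1 m2 h12
  have e31 := (hSt.2 Q₃ Q₁ h3 h1 m3 m1 hn1).1
  have e32 := (hSt.2 Q₃ Q₂ h3 h2 m3 m2 hn2).1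
  have hsub : Q₃ ⊆ Q₁ ∪ Q₂ := by
    intro w hw
    by_cases hwu : w = u
    · exact mem_union_left _ (hwu ▸ m1)
    · exact e12.2 w (h3.isClique m3 hw (Ne.symm hwu))
  have h4 : (Q₃ ∩ Q₁) ∪ (Q₃ ∩ Q₂) = Q₃ := by
    rw [← inter_union_distrib_left]
    exact inter_eq_left.2 hsub
  have h5 := card_union_add_card_inter (Q₃ ∩ Q₁) (Q₃ ∩ Q₂)
  have h6 : 1 ≤ ((Q₃ ∩ Q₁) ∩ (Q₃ ∩ Q₂)).card :=
    card_pos.2 ⟨u, mem_inter.2 ⟨mem_inter.2 ⟨m3, m1⟩, mem_inter.2 ⟨m3, m2⟩⟩⟩
  rw [h4, h3.card_eq, e31, e32] at h5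
  omega

end

end Pool.Agent.Work.MP_47f387_co.Five

end

section

/-!
# MP_47f387_co, maximum degree 5, item SF7
-/

namespace Pool.Agent.Work.MP_47f387_co.Five

open Finset Classical Large

noncomputable section

namespace XSF7

variable {V : Type} [Fintype V] {G : SimpleGraph V} {f : V → Option (Fin 5)}

lemma self_mem (v : V) : v ∈ CC G f v := mem_CC.2 (Or.inl rfl)

lemma notMem (h3 : SF3) (hd : BD 5 G) (hf : Proper G f) {e : V}
    (hO : Only G e (CC G f e)) {z : V} (hrz : Rg G f z) (hz : z ∈ II G f e) {C : Finset V}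
    (hC : G.IsNClique 4 C) (hzC : z ∈ C) : e ∉ C := by
  intro he
  have h1 := hO C hC he
  rw [h1, mem_CC] at hzC
  rcases hzC with h | h
  · exact (adj_of_mem_II hz).ne h.symm
  · exact h.2 hz

end XSF7

open XSF7 in
theorem prf_SF7 (h3 : SF3) : SF7 := by
  intro V _ G f hd hf e hR hO
  have re := hR e (near_refl 1 e)
  have hz : ∀ z ∈ II G f e, G.Adj e z ∧ Rg G f z ∧ St G z ∧ G.IsNClique 4 (CC G f z) ∧
      e ∉ CC G f z := by
    intro z hz
    have ha := adj_of_mem_II hz
    have hr := hR z (near_of_adj ha)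
    have hc := h3 V G f hd hf z hr.1
    exact ⟨ha, hr.1, hr.2, hc, notMem h3 hd hf hO hr.1 hz hc (self_mem z)⟩
  refine ⟨?_, ?_⟩
  · symm
    apply eq_of_subset_of_card_le
    · intro z hz'
      obtain ⟨ha, hr, _, _, hn⟩ := hz z hz'
      rw [mem_CC] at hn
      push Not at hn
      exact (mem_II.1 (hn.2 ha.symm)).2
    · obtain ⟨p, p', hne, _, _, _, _, hpr⟩ := pair hd hf (tight0 hf re.1.1.1) re.1.2.1
      rw [hpr, re.1.2.2]
      exact card_le_two
  · intro z hz' Q' hQ' hzQ
    obtain ⟨ha, hr, hSt, hc, hn⟩ := hz z hz'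
    by_contra hne
    have h1 := (hSt.2 (CC G f z) Q' hc hQ' (self_mem z) hzQ (Ne.symm hne)).2 e ha.symm
    rw [mem_union] at h1
    rcases h1 with h1 | h1
    · exact hn h1
    · exact notMem h3 hd hf hO hr hz' hQ' hzQ h1

end

end Pool.Agent.Work.MP_47f387_co.Five

end

section

namespace Pool.Agent.Work.MP_47f387_co.Five

open Finset Classical Large

noncomputable section

namespace XSF8

variable {V : Type} [Fintype V] {G : SimpleGraph V}

/-- the first case: two disjoint 4-cliques, one of them disjoint from `E` -/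
lemma caseOne {A A' E : Finset V} {z z' : V} (hd : BD 5 G)
    (core : ∀ y ∈ A, y ≠ z → y ∉ E → ∀ y' ∈ A', y' ≠ z' → y' ∉ E → y ≠ y' → ¬ G.Adj y y' →
      False)
    (hA : G.IsNClique 4 A) (hA' : G.IsNClique 4 A') (hz : z ∈ A) (hz' : z' ∈ A')
    (hdis : A ∩ A' = ∅) (hAE : (A ∩ E).card ≤ 2) (hA'E : A' ∩ E = ∅) : False := by
  have hcA : A.card = 4 := hA.card_eq
  have hcA' : A'.card = 4 := hA'.card_eq
  obtain ⟨y, hy⟩ : ((A.erase z) \ E).Nonempty := by
    rw [← Finset.card_pos]
    have h1 : (A.erase z).card = 3 := by rw [card_erase_of_mem hz, hcA]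
    have h2 : ((A.erase z) ∩ E).card ≤ 2 :=
      (card_le_card (inter_subset_inter_right (erase_subset z A))).trans hAE
    have h3 := card_sdiff_add_card_inter (A.erase z) E
    omega
  rw [mem_sdiff, mem_erase] at hy
  obtain ⟨⟨hyz, hyA⟩, hyE⟩ := hy
  have hyA' : y ∉ A' := fun h => by
    have : y ∈ A ∩ A' := mem_inter.2 ⟨hyA, h⟩
    rw [hdis] at this
    exact absurd this (notMem_empty y)
  have hex : ∃ y' ∈ A'.erase z', ¬ G.Adj y y' := by
    by_contra hcon
    push Not at hcon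
    have hsub : (A.erase y) ∪ (A'.erase z') ⊆ univ.filter (fun u => G.Adj y u) := by
      intro u hu
      rw [mem_filter]
      refine ⟨mem_univ u, ?_⟩
      rcases mem_union.1 hu with h | h
      · exact hA.isClique hyA (mem_erase.1 h).2 (mem_erase.1 h).1.symm
      · exact hcon u h
    have hdj : Disjoint (A.erase y) (A'.erase z') := by
      rw [Finset.disjoint_left]
      intro u h1 h2
      have : u ∈ A ∩ A' := mem_inter.2 ⟨(mem_erase.1 h1).2, (mem_erase.1 h2).2⟩
      rw [hdis] at this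
      exact absurd this (notMem_empty u)
    have hc := card_le_card hsub
    rw [card_union_of_disjoint hdj, card_erase_of_mem hyA, card_erase_of_mem hz', hcA, hcA'] at hc
    have := hd y
    unfold Deg at this
    omega
  obtain ⟨y', hy', hna⟩ := hex
  rw [mem_erase] at hy'
  have hy'E : y' ∉ E := fun h => by
    have : y' ∈ A' ∩ E := mem_inter.2 ⟨hy'.2, h⟩
    rw [hA'E] at this
    exact absurd this (notMem_empty y')
  exact core y hyA hyz hyE y' hy'.2 hy'.1 hy'E (fun h => hyA' (h ▸ hy'.2)) hna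

end XSF8

theorem prf_SF8 (h3 : SF3) (h6 : SF6) (h7 : SF7) : SF8 := by
  intro V _ G f hd hP e hR hO
  obtain ⟨hpe, hz⟩ := h7 V G f hd hP e (fun u hu => hR u (near_mono (by norm_num) hu)) hO
  have hRe : Rg G f e := (hR e (near_refl 3 e)).1
  have hGe : Good G f e := hRe.1.1
  obtain ⟨z1, z2, hne, hfz, ha1, ha2, hn, hpr⟩ := pair hd hP (tight0 hP hGe) hRe.2.1
  have hII : II G f e = {z1, z2} := by rw [← hpe, hpr]
  have hz1I : z1 ∈ II G f e := by rw [hII]; simp
  have hz2I : z2 ∈ II G f e := by rw [hII]; simp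
  have hO1 := hz z1 hz1I
  have hO2 := hz z2 hz2I
  have nz1 : Near G 1 e z1 := near_of_adj ha1
  have nz2 : Near G 1 e z2 := near_of_adj ha2
  obtain ⟨hp1, -⟩ := h7 V G f hd hP z1
    (fun u hu => hR u (near_mono (by norm_num) (near_trans nz1 hu))) hO1
  obtain ⟨hp2, -⟩ := h7 V G f hd hP z2
    (fun u hu => hR u (near_mono (by norm_num) (near_trans nz2 hu))) hO2
  have hR1 := (hR z1 (near_mono (by norm_num) nz1)).1
  have hR2 := (hR z2 (near_mono (by norm_num) nz2)).1
  have hG1 : Good G f z1 := hR1.1.1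
  have hG2 : Good G f z2 := hR2.1.1
  have hep1 : e ∈ pr G f z1 := (mem_II.1 hz1I).2
  have hep2 : e ∈ pr G f z2 := (mem_II.1 hz2I).2
  have he1 : e ∈ II G f z1 := by rw [← hp1]; exact hep1
  have he2 : e ∈ II G f z2 := by rw [← hp2]; exact hep2
  -- the three cliques
  have hE4 := h3 V G f hd hP e hRe
  have hA4 := h3 V G f hd hP z1 hR1
  have hB4 := h3 V G f hd hP z2 hR2
  have hself : ∀ v, v ∈ CC G f v := fun v => mem_CC.2 (Or.inl rfl)
  have eA : e ∉ CC G f z1 := by
    intro h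
    rcases mem_CC.1 h with h | h
    · exact ha1.ne h
    · exact h.2 he1
  have eB : e ∉ CC G f z2 := by
    intro h
    rcases mem_CC.1 h with h | h
    · exact ha2.ne h
    · exact h.2 he2
  have z1E : z1 ∉ CC G f e := by
    intro h
    rcases mem_CC.1 h with h | h
    · exact ha1.ne h.symm
    · exact h.2 hz1I
  have z2E : z2 ∉ CC G f e := by
    intro h
    rcases mem_CC.1 h with h | h
    · exact ha2.ne h.symm
    · exact h.2 hz2I
  have z2A : z2 ∉ CC G f z1 := by
    intro h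
    rcases mem_CC.1 h with h | h
    · exact hne h.symm
    · exact hn h.1
  have z1B : z1 ∉ CC G f z2 := by
    intro h
    rcases mem_CC.1 h with h | h
    · exact hne h
    · exact hn h.1.symm
  have hadjA : ∀ y ∈ CC G f z1, y ≠ z1 → G.Adj z1 y ∧ y ∉ II G f z1 := by
    intro y hy hyz
    rcases mem_CC.1 hy with h | h
    · exact absurd h hyz
    · exact h
  have hadjB : ∀ y ∈ CC G f z2, y ≠ z2 → G.Adj z2 y ∧ y ∉ II G f z2 := by
    intro y hy hyz
    rcases mem_CC.1 hy with h | h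
    · exact absurd h hyz
    · exact h
  have hNe : ∀ y, G.Adj e y → y ∈ CC G f e ∨ y = z1 ∨ y = z2 := by
    intro y hy
    by_cases h : y ∈ II G f e
    · rw [hII, mem_insert, mem_singleton] at h
      exact Or.inr h
    · exact Or.inl (mem_CC.2 (Or.inr ⟨hy, h⟩))
  have core : ∀ y ∈ CC G f z1, y ≠ z1 → y ∉ CC G f e → ∀ y' ∈ CC G f z2, y' ≠ z2 →
      y' ∉ CC G f e → y ≠ y' → ¬ G.Adj y y' → False := by
    intro y hy hyz hyE y' hy' hyz' hyE' hyy hna
    have h1 := hadjA y hy hyz
    have h2 := hadjB y' hy' hyz'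
    have d2 : y ≠ z2 := fun h => z2A (h ▸ hy)
    have d1 : z1 ≠ y' := fun h => z1B (h ▸ hy')
    have hM : Mut G f z1 y := mut_of hP hG1 h1.1 (by rw [hp1]; exact h1.2) h1.2
    have hM' : Mut G f z2 y' := mut_of hP hG2 h2.1 (by rw [hp2]; exact h2.2) h2.2
    refine DS hP hGe hne hfz ha1 ha2 hn hpr hM hM' ?_ ?_ ?_ ?_ d1 d2 hyy hna
    · intro h
      rcases hNe y h with h | h | h
      · exact hyE h
      · exact hyz h
      · exact d2 h
    · intro h
      rcases hNe y' h with h | h | h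
      · exact hyE' h
      · exact d1 h.symm
      · exact hyz' h
    · exact fun h => hyE (h ▸ hself e)
    · exact fun h => hyE' (h ▸ hself e)
  have nA : ∀ u ∈ CC G f z1, Near G 3 e u := by
    intro u hu
    by_cases h : u = z1
    · rw [h]; exact near_mono (by norm_num) nz1
    · exact near_mono (by norm_num) (near_adj nz1 (hadjA u hu h).1)
  have nB : ∀ u ∈ CC G f z2, Near G 3 e u := by
    intro u hu
    by_cases h : u = z2
    · rw [h]; exact near_mono (by norm_num) nz2
    · exact near_mono (by norm_num) (near_adj nz2 (hadjB u hu h).1)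
  have hAE : CC G f z1 ≠ CC G f e := fun h => z1E (h ▸ hself z1)
  have hBE : CC G f z2 ≠ CC G f e := fun h => z2E (h ▸ hself z2)
  have hAB : CC G f z1 ≠ CC G f z2 := fun h => z1B (h ▸ hself z1)
  have cAE : (CC G f z1 ∩ CC G f e).Nonempty → (CC G f z1 ∩ CC G f e).card = 2 := by
    rintro ⟨u, hu⟩
    rw [mem_inter] at hu
    exact ((hR u (nA u hu.1)).2.2 _ _ hA4 hE4 hu.1 hu.2 hAE).1
  have cBE : (CC G f z2 ∩ CC G f e).Nonempty → (CC G f z2 ∩ CC G f e).card = 2 := by
    rintro ⟨u, hu⟩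
    rw [mem_inter] at hu
    exact ((hR u (nB u hu.1)).2.2 _ _ hB4 hE4 hu.1 hu.2 hBE).1
  by_cases hdis : CC G f z1 ∩ CC G f z2 = ∅
  · -- case 1
    have hleA : (CC G f z1 ∩ CC G f e).card ≤ 2 := by
      rcases (CC G f z1 ∩ CC G f e).eq_empty_or_nonempty with h | h
      · rw [h]; simp
      · exact (cAE h).le
    have hleB : (CC G f z2 ∩ CC G f e).card ≤ 2 := by
      rcases (CC G f z2 ∩ CC G f e).eq_empty_or_nonempty with h | h
      · rw [h]; simp
      · exact (cBE h).le
    rcases (CC G f z2 ∩ CC G f e).eq_empty_or_nonempty with hB | hB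
    · exact XSF8.caseOne hd core hA4 hB4 (hself z1) (hself z2) hdis hleA hB
    · rcases (CC G f z1 ∩ CC G f e).eq_empty_or_nonempty with hA | hA
      · refine XSF8.caseOne hd (fun y hy hyz hyE y' hy' hyz' hyE' hyy hna => ?_) hB4 hA4
          (hself z2) (hself z1) (by rw [inter_comm]; exact hdis) hleB hA
        exact core y' hy' hyz' hyE' y hy hyz hyE hyy.symm (fun h => hna h.symm)
      · have h1 := cAE hA
        have h2 := cBE hB
        have hdj : Disjoint (CC G f z1 ∩ CC G f e) (CC G f z2 ∩ CC G f e) := by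
          rw [Finset.disjoint_left]
          intro u hu hu'
          have : u ∈ CC G f z1 ∩ CC G f z2 := mem_inter.2 ⟨(mem_inter.1 hu).1, (mem_inter.1 hu').1⟩
          rw [hdis] at this
          exact absurd this (notMem_empty u)
        have hsub : (CC G f z1 ∩ CC G f e) ∪ (CC G f z2 ∩ CC G f e) ⊆ (CC G f e).erase e := by
          intro u hu
          rcases mem_union.1 hu with h | h
          · exact mem_erase.2 ⟨fun he => eA (he ▸ (mem_inter.1 h).1), (mem_inter.1 h).2⟩
          · exact mem_erase.2 ⟨fun he => eB (he ▸ (mem_inter.1 h).1), (mem_inter.1 h).2⟩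
        have hc := card_le_card hsub
        rw [card_union_of_disjoint hdj, card_erase_of_mem (hself e), hE4.card_eq, h1, h2] at hc
        omega
  · -- case 2
    obtain ⟨u, hu⟩ := Finset.nonempty_iff_ne_empty.2 hdis
    rw [mem_inter] at hu
    have cAB : (CC G f z1 ∩ CC G f z2).card = 2 :=
      ((hR u (nA u hu.1)).2.2 _ _ hA4 hB4 hu.1 hu.2 hAB).1
    have three' : ∀ u, u ∈ CC G f z1 → u ∈ CC G f z2 → u ∈ CC G f e → False := by
      intro u h1 h2 h3'
      rcases h6 V G u (hR u (nA u h1)).2 _ _ _ hA4 hB4 hE4 h1 h2 h3' hAB with h | h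
      · exact hAE h.symm
      · exact hBE h.symm
    have hAe : CC G f z1 ∩ CC G f e = ∅ := by
      by_contra hcon
      have h1 := cAE (Finset.nonempty_iff_ne_empty.2 hcon)
      have hdj : Disjoint (CC G f z1 ∩ CC G f e) (CC G f z1 ∩ CC G f z2) := by
        rw [Finset.disjoint_left]
        intro u hu hu'
        exact three' u (mem_inter.1 hu).1 (mem_inter.1 hu').2 (mem_inter.1 hu).2
      have hsub : (CC G f z1 ∩ CC G f e) ∪ (CC G f z1 ∩ CC G f z2) ⊆ (CC G f z1).erase z1 := by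
        intro u hu
        rcases mem_union.1 hu with h | h
        · exact mem_erase.2 ⟨fun he => z1E (he ▸ (mem_inter.1 h).2), (mem_inter.1 h).1⟩
        · exact mem_erase.2 ⟨fun he => z1B (he ▸ (mem_inter.1 h).2), (mem_inter.1 h).1⟩
      have hc := card_le_card hsub
      rw [card_union_of_disjoint hdj, card_erase_of_mem (hself z1), hA4.card_eq, h1, cAB] at hc
      omega
    have hBe : CC G f z2 ∩ CC G f e = ∅ := by
      by_contra hcon
      have h1 := cBE (Finset.nonempty_iff_ne_empty.2 hcon)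
      have hdj : Disjoint (CC G f z2 ∩ CC G f e) (CC G f z1 ∩ CC G f z2) := by
        rw [Finset.disjoint_left]
        intro u hu hu'
        exact three' u (mem_inter.1 hu').1 (mem_inter.1 hu').2 (mem_inter.1 hu).2
      have hsub : (CC G f z2 ∩ CC G f e) ∪ (CC G f z1 ∩ CC G f z2) ⊆ (CC G f z2).erase z2 := by
        intro u hu
        rcases mem_union.1 hu with h | h
        · exact mem_erase.2 ⟨fun he => z2E (he ▸ (mem_inter.1 h).2), (mem_inter.1 h).1⟩
        · exact mem_erase.2 ⟨fun he => z2A (he ▸ (mem_inter.1 h).1), (mem_inter.1 h).2⟩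
      have hc := card_le_card hsub
      rw [card_union_of_disjoint hdj, card_erase_of_mem (hself z2), hB4.card_eq, h1, cAB] at hc
      omega
    have noE : ∀ y, y ∈ CC G f z1 ∨ y ∈ CC G f z2 → y ∉ CC G f e := by
      rintro y (h | h) hy
      · have : y ∈ CC G f z1 ∩ CC G f e := mem_inter.2 ⟨h, hy⟩
        rw [hAe] at this
        exact absurd this (notMem_empty y)
      · have : y ∈ CC G f z2 ∩ CC G f e := mem_inter.2 ⟨h, hy⟩
        rw [hBe] at this
        exact absurd this (notMem_empty y)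
    -- `w1`, `w2`
    obtain ⟨w1, hw1⟩ : ∃ w, ((CC G f z1) \ (CC G f z2)).erase z1 = {w} := by
      rw [← Finset.card_eq_one, card_erase_of_mem (mem_sdiff.2 ⟨hself z1, z1B⟩)]
      have := card_sdiff_add_card_inter (CC G f z1) (CC G f z2)
      rw [hA4.card_eq, cAB] at this
      omega
    obtain ⟨w2, hw2⟩ : ∃ w, ((CC G f z2) \ (CC G f z1)).erase z2 = {w} := by
      rw [← Finset.card_eq_one, card_erase_of_mem (mem_sdiff.2 ⟨hself z2, z2A⟩)]
      have := card_sdiff_add_card_inter (CC G f z2) (CC G f z1)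
      rw [hB4.card_eq, inter_comm, cAB] at this
      omega
    have m1 : w1 ∈ ((CC G f z1) \ (CC G f z2)).erase z1 := by rw [hw1]; simp
    have m2 : w2 ∈ ((CC G f z2) \ (CC G f z1)).erase z2 := by rw [hw2]; simp
    rw [mem_erase, mem_sdiff] at m1 m2
    obtain ⟨w1z, w1A, w1B⟩ := m1
    obtain ⟨w2z, w2B, w2A⟩ := m2
    have hcol : f w1 ≠ none := hGe.1 w1 (nA w1 w1A)
    obtain ⟨c, hc⟩ := Option.ne_none_iff_exists'.1 hcol
    have aw1 := hadjA w1 w1A w1z
    have hfe : f e ≠ f w1 := by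
      intro h
      have hne' : e ≠ w1 := fun h' => eA (h' ▸ w1A)
      have := (mem_pr_of (mem_pr.1 hep1).1 aw1.1 hne' h).2
      rw [hp1] at this
      exact aw1.2 this
    have hcz : f z2 ≠ some c := by
      rw [← hfz]
      intro h
      exact hP z1 w1 c aw1.1 h hc
    obtain ⟨v, hv, hfv⟩ := (tight0 hP hG2).2.2 c hcz
    have hvw : v = w2 := by
      by_cases hvI : v ∈ II G f z2
      · exfalso
        rw [← hp2] at hvI
        by_cases hve : v = e
        · exact hfe (by rw [← hve, hfv, hc])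
        · have := (two hd hP (tight0 hP hG2) hR2.2.1 hvI hep2 hve).1
          exact hfe (by rw [← this, hfv, hc])
      · have hvB : v ∈ CC G f z2 := mem_CC.2 (Or.inr ⟨hv, hvI⟩)
        by_cases hvA : v ∈ CC G f z1
        · exfalso
          have hvw1 : v ≠ w1 := fun h => w1B (h ▸ hvB)
          exact hP v w1 c (hA4.isClique hvA w1A hvw1) hfv hc
        · have : v ∈ ((CC G f z2) \ (CC G f z1)).erase z2 :=
            mem_erase.2 ⟨hv.ne', mem_sdiff.2 ⟨hvB, hvA⟩⟩
          rw [hw2] at this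
          exact mem_singleton.1 this
    rw [hvw] at hfv
    refine core w1 w1A w1z (noE w1 (Or.inl w1A)) w2 w2B w2z (noE w2 (Or.inr w2B)) ?_ ?_
    · exact fun h => w2A (h ▸ w1A)
    · exact fun h => hP w1 w2 c h hc hfv

end

end Pool.Agent.Work.MP_47f387_co.Five

end

section

/-!
# MP_47f387_co, maximum degree 5: existence of the mate
-/

namespace Pool.Agent.Work.MP_47f387_co.Five

open Finset Classical Large

noncomputable section

namespace XSF9

variable {V : Type} {G : SimpleGraph V}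

/-- a 4-set containing three given elements -/
lemma fourth {Q : Finset V} (hQ : Q.card = 4) {u m a : V} (hu : u ∈ Q) (hm : m ∈ Q) (ha : a ∈ Q)
    (hum : u ≠ m) (hua : u ≠ a) (hma : m ≠ a) :
    ∃ a', a' ≠ u ∧ a' ≠ m ∧ a' ≠ a ∧ Q = {u, m, a, a'} := by
  have h3 : ({u, m, a} : Finset V).card = 3 := Finset.card_eq_three.2 ⟨u, m, a, hum, hua, hma, rfl⟩
  have hsub : ({u, m, a} : Finset V) ⊆ Q := by
    intro x hx
    simp only [mem_insert, mem_singleton] at hx
    rcases hx with rfl | rfl | rfl <;> assumption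
  have h1 : (Q \ {u, m, a}).card = 1 := by
    rw [card_sdiff_of_subset hsub, hQ, h3]
  obtain ⟨a', ha'⟩ := card_eq_one.1 h1
  have hmem : a' ∈ Q \ {u, m, a} := by rw [ha']; simp
  rw [mem_sdiff] at hmem
  simp only [mem_insert, mem_singleton, not_or] at hmem
  refine ⟨a', hmem.2.1, hmem.2.2.1, hmem.2.2.2, ?_⟩
  ext x
  constructor
  · intro hx
    by_cases h : x ∈ ({u, m, a} : Finset V)
    · simp only [mem_insert, mem_singleton] at h ⊢
      tauto
    · have : x ∈ Q \ {u, m, a} := mem_sdiff.2 ⟨hx, h⟩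
      rw [ha', mem_singleton] at this
      simp [this]
  · intro hx
    simp only [mem_insert, mem_singleton] at hx
    rcases hx with rfl | rfl | rfl | rfl
    · exact hu
    · exact hm
    · exact ha
    · exact hmem.1

/-- the fourth clause for `a ∈ Q`, `b ∈ Q'` -/
lemma clause {u m : V} {Q Q' : Finset V} (hQ : G.IsNClique 4 Q) (hQ' : G.IsNClique 4 Q')
    (hu : u ∈ Q) (hu' : u ∈ Q') (hm : m ∈ Q) (hm' : m ∈ Q') (hum : u ≠ m)
    (hN : ∀ w, G.Adj u w ↔ w ∈ Q ∪ Q' ∧ w ≠ u) {a b : V} (ha : a ∈ Q) (hb : b ∈ Q')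
    (hua : u ≠ a) (hub : u ≠ b) (hma : a ≠ m) (hmb : b ≠ m) :
    ∃ a' b', a' ≠ m ∧ a' ≠ a ∧ b' ≠ m ∧ b' ≠ b ∧ G.IsNClique 4 {u, m, a, a'} ∧
      G.IsNClique 4 {u, m, b, b'} ∧
      ∀ w, G.Adj u w ↔ w = m ∨ w = a ∨ w = a' ∨ w = b ∨ w = b' := by
  obtain ⟨a', h1, h2, h3, h4⟩ := fourth hQ.card_eq hu hm ha hum hua hma.symm
  obtain ⟨b', k1, k2, k3, k4⟩ := fourth hQ'.card_eq hu' hm' hb hum hub hmb.symm
  refine ⟨a', b', h2, h3, k2, k3, by rw [← h4]; exact hQ, by rw [← k4]; exact hQ', ?_⟩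
  intro w
  rw [hN, mem_union, h4, k4]
  simp only [mem_insert, mem_singleton]
  constructor
  · rintro ⟨h, hne⟩
    tauto
  · rintro (rfl | rfl | rfl | rfl | rfl)
    · exact ⟨by tauto, hum.symm⟩
    · exact ⟨by tauto, hua.symm⟩
    · exact ⟨by tauto, h1⟩
    · exact ⟨by tauto, hub.symm⟩
    · exact ⟨by tauto, k1⟩

end XSF9

open XSF9 in
theorem prf_SF9 (h6 : SF6) : SF9 := by
  intro V _ G u hBD hSt ⟨Q, Q', hQ, hQ', hu, hu', hne⟩
  obtain ⟨hI, hN1⟩ := hSt.2 Q Q' hQ hQ' hu hu' hne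
  -- the mate
  obtain ⟨m, hm⟩ : ∃ m, m ∈ (Q ∩ Q').erase u := by
    have hc : ((Q ∩ Q').erase u).card = 1 := by
      rw [card_erase_of_mem (mem_inter.2 ⟨hu, hu'⟩), hI]
    obtain ⟨m, hm⟩ := card_eq_one.1 hc
    exact ⟨m, by rw [hm]; simp⟩
  rw [mem_erase, mem_inter] at hm
  obtain ⟨hmu, hmQ, hmQ'⟩ := hm
  have hadj : ∀ {v w : V} {P : Finset V}, G.IsNClique 4 P → v ∈ P → w ∈ P → v ≠ w → G.Adj v w :=
    fun hP hv hw h => hP.isClique (mem_coe.2 hv) (mem_coe.2 hw) h
  have hN : ∀ w, G.Adj u w ↔ w ∈ Q ∪ Q' ∧ w ≠ u := by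
    intro w
    constructor
    · intro h
      exact ⟨hN1 w h, h.ne'⟩
    · rintro ⟨h, hne'⟩
      rcases mem_union.1 h with h | h
      · exact hadj hQ hu h hne'.symm
      · exact hadj hQ' hu' h hne'.symm
  have hc6 : (Q ∪ Q').card = 6 := by
    have := card_union_add_card_inter Q Q'
    rw [hI, hQ.card_eq, hQ'.card_eq] at this
    omega
  have hNm : ∀ w, G.Adj m w ↔ w ∈ Q ∪ Q' ∧ w ≠ m := by
    have hsub : (Q ∪ Q').erase m ⊆ univ.filter (fun w => G.Adj m w) := by
      intro w hw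
      rw [mem_erase, mem_union] at hw
      rw [mem_filter]
      refine ⟨mem_univ _, ?_⟩
      rcases hw.2 with h | h
      · exact hadj hQ hmQ h hw.1.symm
      · exact hadj hQ' hmQ' h hw.1.symm
    have hcard : ((Q ∪ Q').erase m).card = 5 := by
      rw [card_erase_of_mem (mem_union_left _ hmQ), hc6]
    have hdeg : (univ.filter (fun w => G.Adj m w)).card ≤ 5 := hBD m
    have heq := eq_of_subset_of_card_le hsub (by rw [hcard]; exact hdeg)
    intro w
    have h1 : w ∈ univ.filter (fun w => G.Adj m w) ↔ G.Adj m w := by simp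
    rw [← h1, ← heq, mem_erase, and_comm]
  refine ⟨m, hadj hQ hu hmQ hmu.symm, ?_, ?_, ?_⟩
  · intro w hwu hwm
    rw [hNm, hN]
    exact ⟨fun h => ⟨h.1, hwu⟩, fun h => ⟨h.1, hwm⟩⟩
  · intro P hP huP
    rcases h6 V G u hSt Q Q' P hQ hQ' hP hu hu' huP hne with h | h
    · rw [h]; exact hmQ
    · rw [h]; exact hmQ'
  · intro a b ha hb ham hbm hab hnab
    have ha1 := (hN a).1 ha
    have hb1 := (hN b).1 hb
    rcases mem_union.1 ha1.1 with ha2 | ha2
    · have hb2 : b ∈ Q' := by
        rcases mem_union.1 hb1.1 with h | h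
        · exact absurd (hadj hQ ha2 h hab) hnab
        · exact h
      exact clause hQ hQ' hu hu' hmQ hmQ' hmu.symm hN ha2 hb2 ha1.2.symm hb1.2.symm ham hbm
    · have hb2 : b ∈ Q := by
        rcases mem_union.1 hb1.1 with h | h
        · exact h
        · exact absurd (hadj hQ' ha2 h hab) hnab
      refine clause hQ' hQ hu' hu hmQ' hmQ hmu.symm ?_ ha2 hb2 ha1.2.symm hb1.2.symm ham hbm
      intro w
      rw [hN, union_comm]

end

end Pool.Agent.Work.MP_47f387_co.Five

end

section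

/-!
# MP_47f387_co, maximum degree 5: item SF10, the chain
-/

namespace Pool.Agent.Work.MP_47f387_co.Five

open Finset Classical Large

noncomputable section

namespace XSF10

variable {V : Type} {G : SimpleGraph V}

/-- `x` is at distance exactly `i` from `v₀` -/
def Lv (G : SimpleGraph V) (v₀ : V) (i : ℕ) (x : V) : Prop :=
  Near G i v₀ x ∧ ∀ j, j < i → ¬ Near G j v₀ x

theorem ne_of {v₀ x y : V} {a b : ℕ} (hx : Near G a v₀ x) (hy : ∀ j, j < b → ¬ Near G j v₀ y)
    (h : a < b) : x ≠ y := by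
  rintro rfl
  exact hy a h hx

theorem not_adj {v₀ x y : V} {a b : ℕ} (hx : Near G a v₀ x)
    (hy : ∀ j, j < b → ¬ Near G j v₀ y) (h : a + 1 < b) : ¬ G.Adj x y :=
  fun hxy => hy (a + 1) h (near_adj hx hxy)

theorem geod (v₀ : V) (r : ℕ) : ∀ x, Lv G v₀ r x → ∃ v : ℕ → V, v 0 = v₀ ∧ v r = x ∧
    (∀ i < r, G.Adj (v i) (v (i + 1))) ∧ ∀ i ≤ r, Lv G v₀ i (v i) := by
  induction r with
  | zero =>
    intro x hx
    have h0 : v₀ = x := hx.1
    refine ⟨fun _ => v₀, rfl, h0, fun i hi => absurd hi (Nat.not_lt_zero i), fun i hi => ?_⟩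
    have hi0 : i = 0 := Nat.le_zero.1 hi
    subst hi0
    exact ⟨rfl, fun j hj => absurd hj (Nat.not_lt_zero j)⟩
  | succ r ih =>
    intro x hx
    rcases hx.1 with h | ⟨w, hw, hwx⟩
    · exact absurd h (hx.2 r (Nat.lt_succ_self r))
    · have hlw : Lv G v₀ r w := ⟨hw, fun j hj hn => hx.2 (j + 1) (by omega) (near_adj hn hwx)⟩
      obtain ⟨v, h0, hr, hadj, hlv⟩ := ih w hlw
      refine ⟨fun i => if i ≤ r then v i else x, ?_, ?_, ?_, ?_⟩
      · simp [h0]
      · simp
      · intro i hi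
        by_cases h1 : i < r
        · simp only [if_pos (show i ≤ r by omega), if_pos (show i + 1 ≤ r by omega)]
          exact hadj i h1
        · have h2 : i = r := by omega
          subst h2
          simp only [le_refl, if_true, if_neg (show ¬ i + 1 ≤ i by omega)]
          rw [hr]
          exact hwx
      · intro i hi
        by_cases h1 : i ≤ r
        · simp only [if_pos h1]
          exact hlv i h1
        · have h2 : i = r + 1 := by omega
          subst h2
          simp only [if_neg h1]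
          exact hx

/-- transfer of adjacency to the mate -/
theorem mate_adj {u m w : V} (h : Mate G u m) (hu : w ≠ u) (hm : w ≠ m) (hw : G.Adj u w) :
    G.Adj m w := (h.2.1 w hu hm).2 hw

theorem mate_adj' {u m w : V} (h : Mate G u m) (hu : w ≠ u) (hm : w ≠ m) (hw : G.Adj m w) :
    G.Adj u w := (h.2.1 w hu hm).1 hw

end XSF10

open XSF10 in
theorem prf_SF10 : SF10 := by
  intro V _ G v₀ w hmate hw6 hw5
  have hlw : Lv G v₀ 6 w := ⟨hw6, fun j hj hn => hw5 (near_mono (by omega) hn)⟩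
  obtain ⟨v, hv0, hv6, hadj, hlv⟩ := geod v₀ 6 w hlw
  have hmex : ∀ i, ∃ m, i ≤ 6 → Mate G (v i) m := by
    intro i
    by_cases hi : i ≤ 6
    · obtain ⟨m, hm⟩ := hmate (v i) (near_mono hi (hlv i hi).1)
      exact ⟨m, fun _ => hm⟩
    · exact ⟨v₀, fun h => absurd h hi⟩
  choose m hm using hmex
  -- different vertices of the path
  have hvne : ∀ i j, i < j → j ≤ 6 → v i ≠ v j := fun i j hij hj =>
    ne_of (hlv i (by omega)).1 (hlv j hj).2 hij
  have hvna : ∀ i j, i + 1 < j → j ≤ 6 → ¬ G.Adj (v i) (v j) := fun i j hij hj =>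
    not_adj (hlv i (by omega)).1 (hlv j hj).2 hij
  have hmne : ∀ i, i ≤ 6 → v i ≠ m i := fun i hi => (hm i hi).1.ne
  -- F1
  have F1 : ∀ i, i < 6 → m i ≠ v (i + 1) := by
    intro i hi he
    rcases Nat.eq_zero_or_pos i with h0 | h0
    · subst h0
      have h1 : G.Adj (m 0) (v 2) := by
        rw [he]
        exact hadj 1 (by omega)
      have h2 := mate_adj' (hm 0 (by omega)) (hvne 0 2 (by omega) (by omega)).symm
        (by rw [he]; exact (hvne 1 2 (by omega) (by omega)).symm) h1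
      exact hvna 0 2 (by omega) (by omega) h2
    · obtain ⟨k, rfl⟩ : ∃ k, i = k + 1 := ⟨i - 1, by omega⟩
      have h1 := mate_adj (hm (k + 1) (by omega)) (hvne k (k + 1) (by omega) (by omega))
        (by rw [he]; exact hvne k (k + 1 + 1) (by omega) (by omega)) (hadj k (by omega)).symm
      rw [he] at h1
      exact hvna k (k + 1 + 1) (by omega) (by omega) h1.symm
  -- F2
  have F2 : ∀ i, i < 6 → m (i + 1) ≠ v i := by
    intro i hi he
    by_cases h5 : i + 2 ≤ 6
    · have h1 := mate_adj (hm (i + 1) (by omega)) (hvne (i + 1) (i + 2) (by omega) h5).symm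
        (by rw [he]; exact (hvne i (i + 2) (by omega) h5).symm) (hadj (i + 1) (by omega))
      rw [he] at h1
      exact hvna i (i + 2) (by omega) h5 h1
    · have hi5 : i = 5 := by omega
      subst hi5
      have h1 : G.Adj (m 6) (v 4) := by
        rw [he]
        exact (hadj 4 (by omega)).symm
      have h2 := mate_adj' (hm 6 (by omega)) (hvne 4 6 (by omega) (by omega))
        (by rw [he]; exact hvne 4 5 (by omega) (by omega)) h1
      exact hvna 4 6 (by omega) (by omega) h2.symm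
  -- F3
  have F3 : ∀ i, i < 6 → m i ≠ m (i + 1) := by
    intro i hi he
    rcases Nat.eq_zero_or_pos i with h0 | h0
    · subst h0
      have hne : v 2 ≠ m 1 := by
        intro h
        have h3 := (hm 0 (by omega)).1
        rw [he, ← h] at h3
        exact hvna 0 2 (by omega) (by omega) h3
      have h1 := mate_adj (hm 1 (by omega)) (hvne 1 2 (by omega) (by omega)).symm hne
        (hadj 1 (by omega))
      rw [← he] at h1
      have h2 := mate_adj' (hm 0 (by omega)) (hvne 0 2 (by omega) (by omega)).symm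
        (by rw [he]; exact hne) h1
      exact hvna 0 2 (by omega) (by omega) h2
    · obtain ⟨k, rfl⟩ : ∃ k, i = k + 1 := ⟨i - 1, by omega⟩
      have hne : v k ≠ m (k + 1 + 1) := by
        intro h
        have h3 := (hm (k + 1 + 1) (by omega)).1
        rw [← h] at h3
        exact hvna k (k + 1 + 1) (by omega) (by omega) h3.symm
      have h1 := mate_adj (hm (k + 1) (by omega)) (hvne k (k + 1) (by omega) (by omega))
        (by rw [he]; exact hne) (hadj k (by omega)).symm
      rw [he] at h1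
      have h2 := mate_adj' (hm (k + 1 + 1) (by omega))
        (hvne k (k + 1 + 1) (by omega) (by omega)) hne h1
      exact hvna k (k + 1 + 1) (by omega) (by omega) h2.symm
  -- neighbourhoods
  have HN : ∀ k, k + 2 ≤ 6 → ∀ u, (G.Adj (v (k + 1)) u ↔ u = m (k + 1) ∨ u = v k ∨ u = m k ∨
      u = v (k + 2) ∨ u = m (k + 2)) ∧ (G.Adj (m (k + 1)) u ↔ u = v (k + 1) ∨ u = v k ∨
      u = m k ∨ u = v (k + 2) ∨ u = m (k + 2)) := by
    intro k hk
    have hM := hm (k + 1) (by omega)
    have hMa := hm k (by omega)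
    have hMb := hm (k + 2) (by omega)
    obtain ⟨a', b', ha1, ha2, hb1, hb2, hQ1, hQ2, hN⟩ := hM.2.2.2 (v k) (v (k + 2))
      (hadj k (by omega)).symm (hadj (k + 1) (by omega)) (F2 k (by omega)).symm
      (F1 (k + 1) (by omega)).symm (hvne k (k + 2) (by omega) (by omega))
      (hvna k (k + 2) (by omega) (by omega))
    have ha' : a' = m k := by
      have h1 := hMa.2.2.1 _ hQ1 (by simp)
      simp only [mem_insert, mem_singleton] at h1
      rcases h1 with h1 | h1 | h1 | h1
      · exact absurd h1 (F1 k (by omega))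
      · exact absurd h1 (F3 k (by omega))
      · exact absurd h1.symm (hmne k (by omega))
      · exact h1.symm
    have hb' : b' = m (k + 2) := by
      have h1 := hMb.2.2.1 _ hQ2 (by simp)
      simp only [mem_insert, mem_singleton] at h1
      rcases h1 with h1 | h1 | h1 | h1
      · exact absurd h1 (F2 (k + 1) (by omega))
      · exact absurd h1.symm (F3 (k + 1) (by omega))
      · exact absurd h1.symm (hmne (k + 2) (by omega))
      · exact h1.symm
    subst ha' hb'
    intro u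
    refine ⟨hN u, ?_⟩
    by_cases hu1 : u = v (k + 1)
    · subst hu1
      exact ⟨fun _ => Or.inl rfl, fun _ => hM.1.symm⟩
    · by_cases hu2 : u = m (k + 1)
      · subst hu2
        constructor
        · intro h
          exact absurd h (G.loopless.irrefl _)
        · rintro (h | h | h | h | h)
          · exact absurd h hu1
          · exact absurd h (F2 k (by omega))
          · exact absurd h ha1.symm
          · exact absurd h (F1 (k + 1) (by omega))
          · exact absurd h hb1.symm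
      · rw [hM.2.1 u hu1 hu2, hN u]
        constructor
        · rintro (h | h)
          · exact absurd h hu2
          · exact Or.inr h
        · rintro (h | h)
          · exact absurd h hu1
          · exact Or.inr h
  -- levels of the mates
  have hml : ∀ k, k + 2 ≤ 6 → Lv G v₀ (k + 1) (m (k + 1)) := by
    intro k hk
    have h1 : G.Adj (m (k + 1)) (v k) := ((HN k hk (v k)).2).2 (Or.inr (Or.inl rfl))
    have h2 : G.Adj (m (k + 1)) (v (k + 2)) :=
      ((HN k hk (v (k + 2))).2).2 (Or.inr (Or.inr (Or.inr (Or.inl rfl))))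
    exact ⟨near_adj (hlv k (by omega)).1 h1.symm,
      fun j hj hn => (hlv (k + 2) hk).2 (j + 1) (by omega) (near_adj hn h2)⟩
  have hm0 : Near G 1 v₀ (m 0) := by
    have h1 := near_of_adj (hm 0 (by omega)).1
    rwa [hv0] at h1
  have hm6 : ∀ j, j < 5 → ¬ Near G j v₀ (m 6) := fun j hj hn =>
    (hlv 6 le_rfl).2 (j + 1) (by omega) (near_adj hn (hm 6 le_rfl).1.symm)
  have hm7 : ∀ k, k ≤ 6 → Near G 7 v₀ (m k) := fun k hk =>
    near_mono (show k + 1 ≤ 7 by omega) (near_adj (hlv k hk).1 (hm k hk).1)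
  -- upper and lower bounds of the levels
  have hup : ∀ k, k ≤ 4 → Near G (max k 1) v₀ (m k) := by
    intro k hk
    rcases Nat.eq_zero_or_pos k with h0 | h0
    · subst h0
      exact hm0
    · obtain ⟨l, rfl⟩ : ∃ l, k = l + 1 := ⟨k - 1, by omega⟩
      exact near_mono (le_max_left _ _) (hml l (by omega)).1
  have hlo : ∀ l, 2 ≤ l → l ≤ 6 → ∀ j, j < min l 5 → ¬ Near G j v₀ (m l) := by
    intro l hl hl6 j hj
    by_cases h6 : l = 6
    · subst h6
      exact hm6 j (by omega)
    · obtain ⟨l', rfl⟩ : ∃ l', l = l' + 1 := ⟨l - 1, by omega⟩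
      exact (hml l' (by omega)).2 j (by omega)
  have d1 : ∀ k l, k < l → l ≤ 6 → m k ≠ m l := by
    intro k l hkl hl
    by_cases h1 : l = k + 1
    · subst h1
      exact F3 k (by omega)
    · exact ne_of (hup k (by omega)) (hlo l (by omega) hl) (by omega)
  have d2 : ∀ k l, k < l → l ≤ 6 → v k ≠ m l := by
    intro k l hkl hl
    by_cases h1 : l = k + 1
    · subst h1
      exact (F2 k (by omega)).symm
    · exact ne_of (hlv k (by omega)).1 (hlo l (by omega) hl) (by omega)
  have d3 : ∀ k l, k < l → l ≤ 6 → m k ≠ v l := by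
    intro k l hkl hl
    by_cases h1 : l = k + 1
    · subst h1
      exact F1 k (by omega)
    · exact ne_of (hup k (by omega)) (hlv l hl).2 (by omega)
  refine ⟨v, m, ⟨?_, hmne, (hm 0 (by omega)).1, (hm 6 le_rfl).1, ?_⟩, (hlv 3 (by omega)).1,
    fun k hk => ⟨near_mono (by omega) (hlv k hk).1, hm7 k hk⟩⟩
  · intro k l hk hl hkl
    rcases lt_or_gt_of_ne hkl with h | h
    · exact ⟨hvne k l h hl, d1 k l h hl, d2 k l h hl⟩
    · exact ⟨(hvne l k h hk).symm, (d1 l k h hk).symm, (d3 l k h hk).symm⟩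
  · intro k hk1 hk5 u
    obtain ⟨l, rfl⟩ : ∃ l, k = l + 1 := ⟨k - 1, by omega⟩
    exact HN l (by omega) u

end

end Pool.Agent.Work.MP_47f387_co.Five

end

section

/-!
# MP_47f387_co, maximum degree 5, item SF11: all the modified colourings are tight on the chain
-/

namespace Pool.Agent.Work.MP_47f387_co.Five

open Finset Classical Large

noncomputable section

namespace XSF11

variable {V : Type} {G : SimpleGraph V} {p q : ℕ → V}

theorem adj_bag (hC : Chain G p q) {k : ℕ} (hk : k ≤ 6) : G.Adj (p k) (q k) := by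
  obtain ⟨_, _, h0, h6, h⟩ := hC
  rcases Nat.eq_zero_or_pos k with rfl | hk0
  · exact h0
  · rcases Nat.lt_or_ge k 6 with hk6 | hk6
    · exact ((h k hk0 (by omega) (q k)).1).2 (Or.inl rfl)
    · obtain rfl : k = 6 := by omega
      exact h6

theorem adj_next (hC : Chain G p q) {k : ℕ} (hk : k ≤ 5) :
    G.Adj (p k) (p (k + 1)) ∧ G.Adj (p k) (q (k + 1)) ∧ G.Adj (q k) (p (k + 1)) ∧
      G.Adj (q k) (q (k + 1)) := by
  obtain ⟨_, _, h0, h6, h⟩ := hC
  rcases Nat.eq_zero_or_pos k with rfl | hk0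
  · have h1 := h 1 le_rfl (by norm_num)
    refine ⟨?_, ?_, ?_, ?_⟩
    · exact ((h1 (p 0)).1.2 (by simp)).symm
    · exact ((h1 (p 0)).2.2 (by simp)).symm
    · exact ((h1 (q 0)).1.2 (by simp)).symm
    · exact ((h1 (q 0)).2.2 (by simp)).symm
  · have h1 := h k hk0 hk
    refine ⟨?_, ?_, ?_, ?_⟩
    · exact (h1 _).1.2 (by simp)
    · exact (h1 _).1.2 (by simp)
    · exact (h1 _).2.2 (by simp)
    · exact (h1 _).2.2 (by simp)

/-- the middle bags are within distance 2 of `p 3` -/
theorem near_mid (hC : Chain G p q) {k : ℕ} (hk1 : 1 ≤ k) (hk5 : k ≤ 5) {u : V}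
    (hu : u = p k ∨ u = q k) : Near G 2 (p 3) u := by
  have a1 := adj_next hC (k := 1) (by norm_num)
  have a2 := adj_next hC (k := 2) (by norm_num)
  have a3 := adj_next hC (k := 3) (by norm_num)
  have a4 := adj_next hC (k := 4) (by norm_num)
  have b3 := adj_bag hC (k := 3) (by norm_num)
  simp only [Nat.reduceAdd] at a1 a2 a3 a4
  have n2 : Near G 1 (p 3) (p 2) := near_of_adj a2.1.symm
  have n4 : Near G 1 (p 3) (p 4) := near_of_adj a3.1
  have hk : k = 1 ∨ k = 2 ∨ k = 3 ∨ k = 4 ∨ k = 5 := by omega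
  rcases hk with rfl | rfl | rfl | rfl | rfl <;> rcases hu with rfl | rfl
  · exact near_adj n2 a1.1.symm
  · exact near_adj n2 a1.2.2.1.symm
  · exact near_succ n2
  · exact near_succ (near_of_adj a2.2.2.1.symm)
  · exact near_refl _ _
  · exact near_succ (near_of_adj b3)
  · exact near_succ n4
  · exact near_succ (near_of_adj a3.2.1)
  · exact near_adj n4 a4.1
  · exact near_adj n4 a4.2.1

/-- the permutation preserves the set of coloured vertices of the chain -/
theorem coloured {f h : V → Option (Fin 5)}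
    (hf : ∀ k ≤ 6, f (p k) ≠ none ∧ f (q k) ≠ none) {e : Equiv.Perm V}
    (he : ∀ u, e u ≠ u → ∃ k, 1 ≤ k ∧ k ≤ 5 ∧ (u = p k ∨ u = q k)) (hh : ∀ u, h u = f (e u))
    {u : V} (hu : ∃ k, k ≤ 6 ∧ (u = p k ∨ u = q k)) : h u ≠ none := by
  rw [hh]
  by_cases h1 : e u = u
  · rw [h1]
    obtain ⟨k, hk, rfl | rfl⟩ := hu
    · exact (hf k hk).1
    · exact (hf k hk).2
  · have h2 : e (e u) ≠ e u := fun h3 => h1 (e.injective h3)
    obtain ⟨k, _, hk, h4 | h4⟩ := he _ h2
    · rw [h4]
      exact (hf k (by omega)).1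
    · rw [h4]
      exact (hf k (by omega)).2

theorem ne_of_adj {h : V → Option (Fin 5)} (hP : Proper G h) {u v : V} (huv : G.Adj u v)
    (hu : h u ≠ none) : h u ≠ h v := by
  intro h1
  obtain ⟨c, hc⟩ := Option.ne_none_iff_exists'.1 hu
  exact hP u v c huv hc (by rw [← h1, hc])

theorem count (A B C : Finset (Option (Fin 5))) (hA : none ∉ A) (hB : none ∉ B) (hC : none ∉ C)
    (cA : A.card = 2) (cB : B.card = 2) (cC : C.card = 2) (hAB : Disjoint A B)
    (hBC : Disjoint B C) (hall : ∀ c : Fin 5, some c ∈ A ∪ B ∪ C) : (A ∩ C).card = 1 := by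
  set S : Finset (Option (Fin 5)) := univ.image some with hS
  have cS : S.card = 5 := by
    rw [hS, Finset.card_image_of_injective _ (Option.some_injective _)]
    simp
  have memS : ∀ o : Option (Fin 5), o ≠ none → o ∈ S := by
    intro o ho
    obtain ⟨c, hc⟩ := Option.ne_none_iff_exists'.1 ho
    rw [hS, mem_image]
    exact ⟨c, mem_univ _, hc.symm⟩
  have h1 : S ⊆ (A ∪ C) ∪ B := by
    intro o ho
    rw [hS, mem_image] at ho
    obtain ⟨c, _, rfl⟩ := ho
    have := hall c
    simp only [mem_union] at this ⊢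
    tauto
  have h2 : (A ∪ C) ⊆ S \ B := by
    intro o ho
    rw [mem_sdiff]
    rw [mem_union] at ho
    rcases ho with ho | ho
    · exact ⟨memS o (fun h => hA (h ▸ ho)), fun hb => (Finset.disjoint_left.1 hAB) ho hb⟩
    · exact ⟨memS o (fun h => hC (h ▸ ho)), fun hb => (Finset.disjoint_left.1 hBC) hb ho⟩
  have h3 : B ⊆ S := fun o ho => memS o (fun h => hB (h ▸ ho))
  have h4 : (S \ B).card = 3 := by
    rw [Finset.card_sdiff_of_subset h3, cS, cB]
  have h5 : (A ∪ C).card ≤ 3 := (card_le_card h2).trans h4.le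
  have h6 : 5 ≤ (A ∪ C).card + B.card :=
    cS.symm.le.trans ((card_le_card h1).trans (card_union_le _ _))
  have h7 := Finset.card_union_add_card_inter A C
  omega

end XSF11

open XSF11 in
theorem prf_SF11 : SF11 := by
  intro V _ G f h p q hC hP hf hflex hmd
  obtain ⟨hPh, e, he, hh⟩ := hmd
  have hcp : ∀ k ≤ 6, h (p k) ≠ none := fun k hk => coloured hf he hh ⟨k, hk, Or.inl rfl⟩
  have hcq : ∀ k ≤ 6, h (q k) ≠ none := fun k hk => coloured hf he hh ⟨k, hk, Or.inr rfl⟩
  have hnone : ∀ k ≤ 6, none ∉ Tb p q h k := by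
    intro k hk hn
    rw [Tb, mem_insert, mem_singleton] at hn
    rcases hn with hn | hn
    · exact hcp k hk hn.symm
    · exact hcq k hk hn.symm
  have hcard : ∀ k ≤ 6, (Tb p q h k).card = 2 := by
    intro k hk
    exact Finset.card_pair (ne_of_adj hPh (adj_bag hC hk) (hcp k hk))
  have hdisj : ∀ k ≤ 5, Disjoint (Tb p q h k) (Tb p q h (k + 1)) := by
    intro k hk
    obtain ⟨a1, a2, a3, a4⟩ := adj_next hC hk
    have b1 := ne_of_adj hPh a1 (hcp k (by omega))
    have b2 := ne_of_adj hPh a2 (hcp k (by omega))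
    have b3 := ne_of_adj hPh a3 (hcq k (by omega))
    have b4 := ne_of_adj hPh a4 (hcq k (by omega))
    rw [Finset.disjoint_left]
    intro o ho ho'
    rw [Tb, mem_insert, mem_singleton] at ho ho'
    rcases ho with rfl | rfl
    · rcases ho' with h1 | h1
      · exact b1 h1
      · exact b2 h1
    · rcases ho' with h1 | h1
      · exact b3 h1
      · exact b4 h1
  refine ⟨fun k hk => ⟨hnone k hk, hcard k hk⟩, hdisj, ?_⟩
  intro k hk
  refine count _ (Tb p q h (k + 1)) _ (hnone k (by omega)) (hnone _ (by omega))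
    (hnone _ (by omega)) (hcard k (by omega)) (hcard _ (by omega)) (hcard _ (by omega))
    (hdisj k (by omega)) (hdisj (k + 1) (by omega)) ?_
  intro c
  obtain ⟨i, hi⟩ := Option.ne_none_iff_exists'.1 (hcp (k + 1) (by omega))
  by_cases hci : c = i
  · rw [mem_union, mem_union]
    left
    right
    rw [Tb, mem_insert]
    left
    rw [hi, hci]
  · have hsees : Sees G h (p (k + 1)) c := by
      by_contra hns
      apply hflex i c
      refine ⟨e, ?_, ?_, p (k + 1), ?_, ?_⟩
      · intro u hu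
        obtain ⟨l, hl1, hl5, hul⟩ := he u hu
        exact near_mid hC hl1 hl5 hul
      · intro u w c' _ huw h1
        rw [← hh] at h1 ⊢
        exact hPh u w c' huw h1
      · exact near_mid hC (k := k + 1) (by omega) (by omega) (Or.inl rfl)
      · have h1 : (fun u => f (e u)) = h := by
          funext u
          rw [hh]
        rw [h1]
        exact ⟨hi, Ne.symm hci, hns⟩
    obtain ⟨u, hu, huc⟩ := hsees
    have h1 := ((hC.2.2.2.2 (k + 1) (by omega) (by omega) u).1).1 hu
    rw [Nat.add_sub_cancel] at h1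
    rw [mem_union, mem_union]
    rcases h1 with rfl | rfl | rfl | rfl | rfl
    · left; right
      simp [Tb, huc]
    · left; left
      simp [Tb, huc]
    · left; left
      simp [Tb, huc]
    · right
      simp [Tb, huc]
    · right
      simp [Tb, huc]

end

end Pool.Agent.Work.MP_47f387_co.Five

end

section

/-!
# MP_47f387_co, maximum degree 5: the window lemma
-/

namespace Pool.Agent.Work.MP_47f387_co.Five

open Finset Classical Large

noncomputable section

namespace XSF12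

variable {V : Type} {G : SimpleGraph V} {p q : ℕ → V} {h : V → Option (Fin 5)}

/-- `x`, `x1` are the two vertices of the bag `j` -/
def Bg (p q : ℕ → V) (x x1 : V) (j : ℕ) : Prop := (x = p j ∧ x1 = q j) ∨ (x = q j ∧ x1 = p j)

/-- `u` is in the bag `j` -/
def In (p q : ℕ → V) (u : V) (j : ℕ) : Prop := u = p j ∨ u = q j

lemma mem_T {u : V} {j : ℕ} (hu : In p q u j) : h u ∈ Tb p q h j := by
  unfold Tb
  rcases hu with rfl | rfl
  · exact Finset.mem_insert_self _ _
  · exact Finset.mem_insert_of_mem (Finset.mem_singleton_self _)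

lemma bag_T {x x1 : V} {j : ℕ} (hx : Bg p q x x1 j) : Tb p q h j = {h x, h x1} := by
  rcases hx with ⟨rfl, rfl⟩ | ⟨rfl, rfl⟩
  · rfl
  · exact Finset.pair_comm _ _

lemma bag_in {x x1 : V} {j : ℕ} (hx : Bg p q x x1 j) : In p q x j ∧ In p q x1 j := by
  rcases hx with ⟨rfl, rfl⟩ | ⟨rfl, rfl⟩
  · exact ⟨Or.inl rfl, Or.inr rfl⟩
  · exact ⟨Or.inr rfl, Or.inl rfl⟩

lemma exists_bag {c : Option (Fin 5)} {j : ℕ} (hc : c ∈ Tb p q h j) :
    ∃ x x1, Bg p q x x1 j ∧ h x = c := by
  unfold Tb at hc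
  rw [Finset.mem_insert, Finset.mem_singleton] at hc
  rcases hc with hc | hc
  · exact ⟨p j, q j, Or.inl ⟨rfl, rfl⟩, hc.symm⟩
  · exact ⟨q j, p j, Or.inr ⟨rfl, rfl⟩, hc.symm⟩

lemma bag_ne (hC : Chain G p q) {u v : V} {j l : ℕ} (hj : j ≤ 6) (hl : l ≤ 6) (hjl : j ≠ l)
    (hu : In p q u j) (hv : In p q v l) : u ≠ v := by
  obtain ⟨h1, h2, h3⟩ := hC.1 j l hj hl hjl
  obtain ⟨-, -, h4⟩ := hC.1 l j hl hj hjl.symm
  rcases hu with rfl | rfl <;> rcases hv with rfl | rfl
  · exact h1
  · exact h3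
  · exact h4.symm
  · exact h2

lemma bag_ne1 (hC : Chain G p q) {x x1 : V} {j : ℕ} (hj : j ≤ 6) (hx : Bg p q x x1 j) :
    x ≠ x1 := by
  have h1 := hC.2.1 j hj
  rcases hx with ⟨rfl, rfl⟩ | ⟨rfl, rfl⟩
  · exact h1
  · exact h1.symm

lemma bag_adj (hC : Chain G p q) {x x1 u : V} {j : ℕ} (hj : 1 ≤ j) (hj' : j ≤ 5)
    (hx : Bg p q x x1 j) (hu : G.Adj x u) : u = x1 ∨ In p q u (j - 1) ∨ In p q u (j + 1) := by
  obtain ⟨h1, h2⟩ := hC.2.2.2.2 j hj hj' u
  rcases hx with ⟨rfl, rfl⟩ | ⟨rfl, rfl⟩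
  · rcases h1.1 hu with h | h | h | h | h
    · exact Or.inl h
    · exact Or.inr (Or.inl (Or.inl h))
    · exact Or.inr (Or.inl (Or.inr h))
    · exact Or.inr (Or.inr (Or.inl h))
    · exact Or.inr (Or.inr (Or.inr h))
  · rcases h2.1 hu with h | h | h | h | h
    · exact Or.inl h
    · exact Or.inr (Or.inl (Or.inl h))
    · exact Or.inr (Or.inl (Or.inr h))
    · exact Or.inr (Or.inr (Or.inl h))
    · exact Or.inr (Or.inr (Or.inr h))

/-- exchanging the colours of `x` and `y` -/
lemma swap_proper (hP : Proper G h) {x y : V} (hx : ∀ u, G.Adj x u → u ≠ y → h u ≠ h y)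
    (hy : ∀ u, G.Adj y u → u ≠ x → h u ≠ h x) : Proper G (fun u => h (Equiv.swap x y u)) := by
  by_cases hxy : x = y
  · subst hxy
    simpa using hP
  have ex : h (Equiv.swap x y x) = h y := by rw [Equiv.swap_apply_left]
  have ey : h (Equiv.swap x y y) = h x := by rw [Equiv.swap_apply_right]
  have eo : ∀ u, u ≠ x → u ≠ y → h (Equiv.swap x y u) = h u := fun u h1 h2 => by
    rw [Equiv.swap_apply_of_ne_of_ne h1 h2]
  intro u v c huv hu hv
  beta_reduce at hu hv
  by_cases hux : u = x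
  · subst hux
    rw [ex] at hu
    by_cases hvy : v = y
    · subst hvy
      rw [ey] at hv
      exact hP _ _ _ huv hv hu
    · rw [eo v huv.ne' hvy] at hv
      exact hx v huv hvy (hv.trans hu.symm)
  · by_cases huy : u = y
    · subst huy
      rw [ey] at hu
      by_cases hvx : v = x
      · subst hvx
        rw [ex] at hv
        exact hP _ _ _ huv hv hu
      · rw [eo v hvx huv.ne'] at hv
        exact hy v huv hvx (hv.trans hu.symm)
    · rw [eo u hux huy] at hu
      by_cases hvx : v = x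
      · subst hvx
        rw [ex] at hv
        exact hx u huv.symm huy (hu.trans hv.symm)
      · by_cases hvy : v = y
        · subst hvy
          rw [ey] at hv
          exact hy u huv.symm hux (hu.trans hv.symm)
        · rw [eo v hvx hvy] at hv
          exact hP _ _ _ huv hu hv

/-- exchanging two vertices of the bags `1, ..., 5` -/
lemma swap_md {f : V → Option (Fin 5)} (hM : Md G p q f h) {x y : V} {j l : ℕ}
    (hj : 1 ≤ j ∧ j ≤ 5) (hl : 1 ≤ l ∧ l ≤ 5) (hx : In p q x j) (hy : In p q y l)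
    (hP : Proper G (fun u => h (Equiv.swap x y u))) :
    Md G p q f (fun u => h (Equiv.swap x y u)) := by
  obtain ⟨-, e, he, hfe⟩ := hM
  refine ⟨hP, (Equiv.swap x y).trans e, ?_, ?_⟩
  · intro u hu
    by_cases hux : u = x
    · subst hux
      exact ⟨j, hj.1, hj.2, hx⟩
    · by_cases huy : u = y
      · subst huy
        exact ⟨l, hl.1, hl.2, hy⟩
      · apply he
        rw [Equiv.trans_apply, Equiv.swap_apply_of_ne_of_ne hux huy] at hu
        exact hu
  · intro u
    exact hfe _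

/-- five colours -/
lemma five {T1 T3 : Finset (Option (Fin 5))} {a b z : Option (Fin 5)} (hab : a ≠ b)
    (haz : a ≠ z) (hbz : b ≠ z) (h0 : none ≠ a) (h0b : none ≠ b) (h0z : none ≠ z)
    (h1 : T1.card = 2) (h3 : T3.card = 2) (n1 : none ∉ T1) (n3 : none ∉ T3)
    (a1 : a ∉ T1) (b1 : b ∉ T1) (z1 : z ∉ T1) (a3 : a ∉ T3) (z3 : z ∉ T3)
    (h13 : (T1 ∩ T3).card = 1) : b ∈ T3 := by
  by_contra hb
  have hcard : (({none, a, b, z} : Finset (Option (Fin 5))))ᶜ.card = 2 := by
    rw [Finset.card_compl]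
    have : ({none, a, b, z} : Finset (Option (Fin 5))).card = 4 := by
      rw [Finset.card_insert_of_notMem, Finset.card_insert_of_notMem,
        Finset.card_pair hbz]
      · simp [hab, haz]
      · simp [h0, h0b, h0z]
    rw [this]
    simp
  have e1 : T1 = ({none, a, b, z} : Finset (Option (Fin 5)))ᶜ := by
    apply Finset.eq_of_subset_of_card_le
    · intro w hw
      rw [Finset.mem_compl, Finset.mem_insert, Finset.mem_insert, Finset.mem_insert,
        Finset.mem_singleton]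
      rintro (rfl | rfl | rfl | rfl)
      · exact n1 hw
      · exact a1 hw
      · exact b1 hw
      · exact z1 hw
    · rw [hcard, h1]
  have e3 : T3 = ({none, a, b, z} : Finset (Option (Fin 5)))ᶜ := by
    apply Finset.eq_of_subset_of_card_le
    · intro w hw
      rw [Finset.mem_compl, Finset.mem_insert, Finset.mem_insert, Finset.mem_insert,
        Finset.mem_singleton]
      rintro (rfl | rfl | rfl | rfl)
      · exact n3 hw
      · exact a3 hw
      · exact hb hw
      · exact z3 hw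
    · rw [hcard, h3]
  rw [e1, e3, Finset.inter_self, hcard] at h13
  omega

end XSF12

open XSF12 in
theorem prf_SF12 (h11 : SF11) : SF12 := by
  intro V _ G f h p q hC hf hnn hfl hM k hk a ha ha2 ha4
  obtain ⟨hc, hd, hi⟩ := h11 V G f h p q hC hf hnn hfl hM
  -- the vertices
  obtain ⟨u0, u1, hu, hu0⟩ := exists_bag ha
  obtain ⟨x1, x, hx', hx1⟩ := exists_bag ha2
  have hx : Bg p q x x1 (k + 2) := by
    rcases hx' with ⟨h1, h2⟩ | ⟨h1, h2⟩
    · exact Or.inr ⟨h2, h1⟩
    · exact Or.inl ⟨h2, h1⟩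
  have hTk : Tb p q h k = {a, h u1} := by rw [bag_T hu, hu0]
  have hTk2 : Tb p q h (k + 2) = {a, h x} := by rw [bag_T hx', hx1]
  set b := h u1 with hb
  set z := h x with hz
  have hck := (hc k (by omega)).2
  have hck2 := (hc (k + 2) (by omega)).2
  have hab : a ≠ b := by
    intro e
    rw [hTk, ← e, Finset.pair_eq_singleton, Finset.card_singleton] at hck
    omega
  have haz : a ≠ z := by
    intro e
    rw [hTk2, ← e, Finset.pair_eq_singleton, Finset.card_singleton] at hck2
    omega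
  have hbz : b ≠ z := by
    intro e
    have h1 := hi k (by omega)
    rw [hTk, hTk2, ← e, Finset.inter_self, Finset.card_pair hab] at h1
    omega
  have hbT : b ∈ Tb p q h k := by rw [hTk]; simp
  have hzT : z ∈ Tb p q h (k + 2) := by rw [hTk2]; simp
  -- z is not a colour of the bag k + 4
  have hz4 : z ∉ Tb p q h (k + 4) := by
    intro h1
    have h2 := hi (k + 2) (by omega)
    have h3 : ({a, z} : Finset (Option (Fin 5))) ⊆ Tb p q h (k + 2) ∩ Tb p q h (k + 2 + 2) := by
      intro w hw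
      rw [Finset.mem_insert, Finset.mem_singleton] at hw
      rcases hw with rfl | rfl
      · exact Finset.mem_inter.2 ⟨ha2, ha4⟩
      · exact Finset.mem_inter.2 ⟨hzT, h1⟩
    have h4 := Finset.card_le_card h3
    rw [h2, Finset.card_pair haz] at h4
    omega
  -- disjointness
  have hd0 := hd k (by omega)
  have hd1 := hd (k + 1) (by omega)
  have hd2 := hd (k + 2) (by omega)
  have a1 : a ∉ Tb p q h (k + 1) := Finset.disjoint_left.1 hd0 ha
  have b1 : b ∉ Tb p q h (k + 1) := Finset.disjoint_left.1 hd0 hbT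
  have z1 : z ∉ Tb p q h (k + 1) := Finset.disjoint_right.1 hd1 hzT
  have a3 : a ∉ Tb p q h (k + 3) := Finset.disjoint_left.1 hd2 ha2
  have z3 : z ∉ Tb p q h (k + 3) := Finset.disjoint_left.1 hd2 hzT
  have hn : ∀ j ≤ 6, ∀ w ∈ Tb p q h j, none ≠ w := by
    intro j hj w hw e
    rw [← e] at hw
    exact (hc j hj).1 hw
  have hb3 : b ∈ Tb p q h (k + 3) := five hab haz hbz (hn k (by omega) a ha)
    (hn k (by omega) b hbT) (hn (k + 2) (by omega) z hzT) (hc (k + 1) (by omega)).2
    (hc (k + 3) (by omega)).2 (hc (k + 1) (by omega)).1 (hc (k + 3) (by omega)).1 a1 b1 z1 a3 z3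
    (hi (k + 1) (by omega))
  obtain ⟨y, y1, hy, hyb⟩ := exists_bag hb3
  have hTk3 : Tb p q h (k + 3) = {b, h y1} := by rw [bag_T hy, hyb]
  have hbs : h y1 ≠ b := by
    intro e
    have h1 := (hc (k + 3) (by omega)).2
    rw [hTk3, e, Finset.pair_eq_singleton, Finset.card_singleton] at h1
    omega
  have hy1T : h y1 ∈ Tb p q h (k + 3) := mem_T (bag_in hy).2
  -- the exchange
  have hP : Proper G (fun u => h (Equiv.swap x y u)) := by
    apply swap_proper hM.1
    · intro u hu' huy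
      rw [hyb]
      rcases bag_adj hC (by omega) (by omega) hx hu' with rfl | h1 | h1
      · rw [hx1]
        exact hab
      · have h2 : h u ∈ Tb p q h (k + 1) := mem_T h1
        intro e
        rw [e] at h2
        exact b1 h2
      · rcases h1 with h1 | h1
        · rcases hy with ⟨hy0, hy1⟩ | ⟨hy0, hy1⟩
          · exact absurd (h1.trans hy0.symm) huy
          · rw [h1, ← hy1]
            exact hbs
        · rcases hy with ⟨hy0, hy1⟩ | ⟨hy0, hy1⟩
          · rw [h1, ← hy1]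
            exact hbs
          · exact absurd (h1.trans hy0.symm) huy
    · intro u hu' hux
      rcases bag_adj hC (by omega) (by omega) hy hu' with rfl | h1 | h1
      · intro e
        rw [e] at hy1T
        exact z3 hy1T
      · have h2 : In p q u (k + 2) := h1
        rcases h2 with h1 | h1
        · rcases hx with ⟨hx0, hx01⟩ | ⟨hx0, hx01⟩
          · exact absurd (h1.trans hx0.symm) hux
          · rw [h1, ← hx01, hx1]
            exact haz
        · rcases hx with ⟨hx0, hx01⟩ | ⟨hx0, hx01⟩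
          · rw [h1, ← hx01, hx1]
            exact haz
          · exact absurd (h1.trans hx0.symm) hux
      · have h2 : h u ∈ Tb p q h (k + 4) := mem_T h1
        intro e
        rw [e] at h2
        exact hz4 h2
  have hM' := swap_md hM (j := k + 2) (l := k + 3) ⟨by omega, by omega⟩ ⟨by omega, by omega⟩
    (bag_in hx).1 (bag_in hy).1 hP
  obtain ⟨-, -, hi'⟩ := h11 V G f _ p q hC hf hnn hfl hM'
  have h1 := hi' k (by omega)
  -- the colours of the bags k and k + 2
  have hux : ∀ u, In p q u k → h (Equiv.swap x y u) = h u := by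
    intro u hu'
    rw [Equiv.swap_apply_of_ne_of_ne]
    · exact bag_ne hC (by omega) (by omega) (by omega) hu' (bag_in hx).1
    · exact bag_ne hC (by omega) (by omega) (by omega) hu' (bag_in hy).1
  have e0 : Tb p q (fun u => h (Equiv.swap x y u)) k = {a, b} := by
    rw [bag_T hu]
    beta_reduce
    rw [hux u0 (bag_in hu).1, hux u1 (bag_in hu).2, hu0]
  have e2 : Tb p q (fun u => h (Equiv.swap x y u)) (k + 2) = {b, a} := by
    rw [bag_T hx]
    beta_reduce
    rw [Equiv.swap_apply_left, Equiv.swap_apply_of_ne_of_ne, hyb, hx1]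
    · exact (bag_ne1 hC (by omega) hx).symm
    · exact bag_ne hC (by omega) (by omega) (by omega) (bag_in hx).2 (bag_in hy).1
  rw [e0, e2, Finset.pair_comm b a, Finset.inter_self, Finset.card_pair hab] at h1
  omega

end

end Pool.Agent.Work.MP_47f387_co.Five

end

section

/-!
# MP_47f387_co, block FIVE, item SF13: a chain is flexible
-/

namespace Pool.Agent.Work.MP_47f387_co.Five

open Finset Classical Large

noncomputable section

namespace XSF13

lemma pair_mem {α : Type} {u v a z w : α} (ha : a = u ∨ a = v) (hz : z = u ∨ z = v)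
    (hne : z ≠ a) (hw : w = u ∨ w = v) : w = a ∨ w = z := by
  rcases ha with rfl | rfl <;> rcases hz with rfl | rfl <;> rcases hw with rfl | rfl <;> simp_all

lemma mem_Tb {V : Type} {p q : ℕ → V} {h : V → Option (Fin 5)} {k : ℕ} {o : Option (Fin 5)} :
    o ∈ Tb p q h k ↔ o = h (p k) ∨ o = h (q k) := by
  simp [Tb]

end XSF13

open XSF13 in
theorem prf_SF13 (h11 : SF11) (h12 : SF12) : SF13 := by
  intro V _ G f p q hC hf hcol
  by_contra hcon
  push Not at hcon
  have hMd : Md G p q f f := ⟨hf, 1, fun u hu => absurd rfl hu, fun u => rfl⟩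
  obtain ⟨hcard, hdis, hint⟩ := h11 V G f f p q hC hf hcol hcon hMd
  have hwin := h12 V G f f p q hC hf hcol hcon hMd
  -- the elements
  obtain ⟨a, ha⟩ := Finset.card_pos.1 (by rw [hint 0 (by norm_num)]; norm_num)
  rw [Finset.mem_inter] at ha
  obtain ⟨ha0, ha2⟩ := ha
  obtain ⟨z, hz2, hza⟩ : ∃ z ∈ Tb p q f 2, z ≠ a :=
    Finset.exists_mem_ne (by rw [(hcard 2 (by norm_num)).2]; norm_num) a
  have hz0 : z ∉ Tb p q f 0 := by
    intro h
    have h1 : (Tb p q f 0 ∩ Tb p q f (0 + 2)).card = 1 := hint 0 (by norm_num)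
    obtain ⟨t, ht⟩ := Finset.card_eq_one.1 h1
    have h2 : z ∈ Tb p q f 0 ∩ Tb p q f (0 + 2) := Finset.mem_inter.2 ⟨h, hz2⟩
    have h3 : a ∈ Tb p q f 0 ∩ Tb p q f (0 + 2) := Finset.mem_inter.2 ⟨ha0, ha2⟩
    rw [ht, Finset.mem_singleton] at h2 h3
    exact hza (h2.trans h3.symm)
  obtain ⟨c0, hc1, hc3⟩ : ∃ c ∈ Tb p q f 1, c ∉ Tb p q f 3 := by
    by_contra hall
    push Not at hall
    have h1 : (Tb p q f 1 ∩ Tb p q f (1 + 2)).card = 1 := hint 1 (by norm_num)
    have h2 : Tb p q f 1 ⊆ Tb p q f 1 ∩ Tb p q f (1 + 2) := fun c hc =>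
      Finset.mem_inter.2 ⟨hc, hall c hc⟩
    have h3 := Finset.card_le_card h2
    rw [h1, (hcard 1 (by norm_num)).2] at h3
    omega
  have d12 : ∀ o, o ∈ Tb p q f 1 → o ∉ Tb p q f 2 := fun o h1 h2 =>
    Finset.disjoint_left.1 (hdis 1 (by norm_num)) h1 h2
  have hc2 : c0 ∉ Tb p q f 2 := d12 c0 hc1
  have hc0 : c0 ≠ none := fun h => (hcard 1 (by norm_num)).1 (h ▸ hc1)
  -- c0 in S 4
  have hc4 : c0 ∈ Tb p q f 4 := by
    have e23 : (Tb p q f 2 ∪ Tb p q f 3).card = 4 := by
      rw [Finset.card_union_of_disjoint (hdis 2 (by norm_num)), (hcard 2 (by norm_num)).2,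
        (hcard 3 (by norm_num)).2]
    have e4 : ((Tb p q f 2 ∪ Tb p q f 3) ∩ Tb p q f 4).card = 1 := by
      have : (Tb p q f 2 ∪ Tb p q f 3) ∩ Tb p q f 4 = Tb p q f 2 ∩ Tb p q f 4 := by
        ext o
        simp only [Finset.mem_inter, Finset.mem_union]
        constructor
        · rintro ⟨h1 | h1, h2⟩
          · exact ⟨h1, h2⟩
          · exact absurd h2 (Finset.disjoint_left.1 (hdis 3 (by norm_num)) h1)
        · rintro ⟨h1, h2⟩
          exact ⟨Or.inl h1, h2⟩
      rw [this]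
      exact hint 2 (by norm_num)
    have e5 := Finset.card_union_add_card_inter (Tb p q f 2 ∪ Tb p q f 3) (Tb p q f 4)
    rw [e4, e23, (hcard 4 (by norm_num)).2] at e5
    have hsub : (Tb p q f 2 ∪ Tb p q f 3) ∪ Tb p q f 4 ⊆
        (univ : Finset (Option (Fin 5))).erase none := by
      intro o ho
      refine Finset.mem_erase.2 ⟨?_, Finset.mem_univ _⟩
      rintro rfl
      simp only [Finset.mem_union] at ho
      rcases ho with (h | h) | h
      · exact (hcard 2 (by norm_num)).1 h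
      · exact (hcard 3 (by norm_num)).1 h
      · exact (hcard 4 (by norm_num)).1 h
    have hE : ((univ : Finset (Option (Fin 5))).erase none).card = 5 := by
      rw [Finset.card_erase_of_mem (Finset.mem_univ _), Finset.card_univ, Fintype.card_option,
        Fintype.card_fin]
    have heq := Finset.eq_of_subset_of_card_le hsub (by rw [hE]; omega)
    have hmem : c0 ∈ (Tb p q f 2 ∪ Tb p q f 3) ∪ Tb p q f 4 := by
      rw [heq]
      exact Finset.mem_erase.2 ⟨hc0, Finset.mem_univ _⟩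
    simp only [Finset.mem_union] at hmem
    rcases hmem with (h | h) | h
    · exact absurd h hc2
    · exact absurd h hc3
    · exact h
  -- z in S 4
  have ha4 : a ∉ Tb p q f 4 := hwin 0 (by norm_num) a ha0 ha2
  have hz4 : z ∈ Tb p q f 4 := by
    obtain ⟨w, hw⟩ := Finset.card_pos.1 (by rw [hint 2 (by norm_num)]; norm_num)
    rw [Finset.mem_inter] at hw
    obtain ⟨hw2, hw4⟩ := hw
    rcases pair_mem (mem_Tb.1 ha2) (mem_Tb.1 hz2) hza (mem_Tb.1 hw2) with rfl | rfl
    · exact absurd hw4 ha4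
    · exact hw4
  have hz6 : z ∉ Tb p q f 6 := hwin 2 (by norm_num) z hz2 hz4
  have hzc : z ≠ c0 := fun h => hc2 (h ▸ hz2)
  have hc6 : c0 ∈ Tb p q f 6 := by
    obtain ⟨w, hw⟩ := Finset.card_pos.1 (by rw [hint 4 (by norm_num)]; norm_num)
    rw [Finset.mem_inter] at hw
    obtain ⟨hw4, hw6⟩ := hw
    rcases pair_mem (mem_Tb.1 hc4) (mem_Tb.1 hz4) hzc (mem_Tb.1 hw4) with rfl | rfl
    · exact hw6
    · exact absurd hw6 hz6
  -- the vertices
  have hne1 : f (p 1) ≠ f (q 1) := by
    intro h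
    have := (hcard 1 (by norm_num)).2
    simp [Tb, h] at this
  have hne2 : f (p 2) ≠ f (q 2) := by
    intro h
    have := (hcard 2 (by norm_num)).2
    simp [Tb, h] at this
  have hC0 := hC
  obtain ⟨hCd, hCpq, -, -, hCa⟩ := hC
  obtain ⟨x, x', hx, hfx⟩ : ∃ x x', ((x = p 1 ∧ x' = q 1) ∨ (x = q 1 ∧ x' = p 1)) ∧
      f x = c0 := by
    rcases mem_Tb.1 hc1 with h | h
    · exact ⟨p 1, q 1, Or.inl ⟨rfl, rfl⟩, h.symm⟩
    · exact ⟨q 1, p 1, Or.inr ⟨rfl, rfl⟩, h.symm⟩
  obtain ⟨y, y', hy, hfy⟩ : ∃ y y', ((y = p 2 ∧ y' = q 2) ∨ (y = q 2 ∧ y' = p 2)) ∧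
      f y = z := by
    rcases mem_Tb.1 hz2 with h | h
    · exact ⟨p 2, q 2, Or.inl ⟨rfl, rfl⟩, h.symm⟩
    · exact ⟨q 2, p 2, Or.inr ⟨rfl, rfl⟩, h.symm⟩
  have hbx : x = p 1 ∨ x = q 1 := by rcases hx with h | h <;> simp [h.1]
  have hby : y = p 2 ∨ y = q 2 := by rcases hy with h | h <;> simp [h.1]
  have hadjx : ∀ u, G.Adj x u → u = x' ∨ u = p 0 ∨ u = q 0 ∨ u = p 2 ∨ u = q 2 := by
    intro u hu
    have h := hCa 1 (by norm_num) (by norm_num) u
    rcases hx with ⟨rfl, rfl⟩ | ⟨rfl, rfl⟩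
    · exact h.1.1 hu
    · exact h.2.1 hu
  have hadjy : ∀ u, G.Adj y u → u = y' ∨ u = p 1 ∨ u = q 1 ∨ u = p 3 ∨ u = q 3 := by
    intro u hu
    have h := hCa 2 (by norm_num) (by norm_num) u
    rcases hy with ⟨rfl, rfl⟩ | ⟨rfl, rfl⟩
    · exact h.1.1 hu
    · exact h.2.1 hu
  have hxy : G.Adj x y := by
    have h := hCa 1 (by norm_num) (by norm_num) y
    rcases hx with ⟨rfl, rfl⟩ | ⟨rfl, rfl⟩
    · refine h.1.2 ?_
      rcases hby with h' | h'
      · exact Or.inr (Or.inr (Or.inr (Or.inl h')))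
      · exact Or.inr (Or.inr (Or.inr (Or.inr h')))
    · refine h.2.2 ?_
      rcases hby with h' | h'
      · exact Or.inr (Or.inr (Or.inr (Or.inl h')))
      · exact Or.inr (Or.inr (Or.inr (Or.inr h')))
  have hx'1 : f x' ∈ Tb p q f 1 := by
    rcases hx with ⟨_, rfl⟩ | ⟨_, rfl⟩
    · exact mem_Tb.2 (Or.inr rfl)
    · exact mem_Tb.2 (Or.inl rfl)
  have hx'c : f x' ≠ f x := by
    rcases hx with ⟨rfl, rfl⟩ | ⟨rfl, rfl⟩
    · exact hne1.symm
    · exact hne1
  have hy'2 : f y' ∈ Tb p q f 2 := by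
    rcases hy with ⟨_, rfl⟩ | ⟨_, rfl⟩
    · exact mem_Tb.2 (Or.inr rfl)
    · exact mem_Tb.2 (Or.inl rfl)
  have hy'c : f y' ≠ f y := by
    rcases hy with ⟨rfl, rfl⟩ | ⟨rfl, rfl⟩
    · exact hne2.symm
    · exact hne2
  -- the other vertices of the bags
  have hb2 : ∀ u, (u = p 2 ∨ u = q 2) → u ≠ y → u = y' := by
    intro u hu hne
    rcases hy with ⟨rfl, rfl⟩ | ⟨rfl, rfl⟩
    · rcases hu with h | h
      · exact absurd h hne
      · exact h
    · rcases hu with h | h
      · exact h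
      · exact absurd h hne
  have hb1 : ∀ u, (u = p 1 ∨ u = q 1) → u ≠ x → u = x' := by
    intro u hu hne
    rcases hx with ⟨rfl, rfl⟩ | ⟨rfl, rfl⟩
    · rcases hu with h | h
      · exact absurd h hne
      · exact h
    · rcases hu with h | h
      · exact h
      · exact absurd h hne
  have hMut : Mut G f x y := by
    refine ⟨hxy, ?_, ?_⟩
    · intro hpr
      obtain ⟨-, u, hux, hyu, hfu⟩ := mem_pr.1 hpr
      rw [hfx] at hfu
      rcases hadjy u hyu with h | h | h | h | h
      · rw [h] at hfu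
        exact hc2 (hfu ▸ hy'2)
      · have := hb1 u (Or.inl h) hux
        rw [this] at hfu
        exact hx'c (hfu.trans hfx.symm)
      · have := hb1 u (Or.inr h) hux
        rw [this] at hfu
        exact hx'c (hfu.trans hfx.symm)
      · rw [h] at hfu
        exact hc3 (mem_Tb.2 (Or.inl hfu.symm))
      · rw [h] at hfu
        exact hc3 (mem_Tb.2 (Or.inr hfu.symm))
    · intro hpr
      obtain ⟨-, u, huy, hxu, hfu⟩ := mem_pr.1 hpr
      rw [hfy] at hfu
      rcases hadjx u hxu with h | h | h | h | h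
      · rw [h] at hfu
        exact d12 _ hx'1 (hfu ▸ hz2)
      · rw [h] at hfu
        exact hz0 (mem_Tb.2 (Or.inl hfu.symm))
      · rw [h] at hfu
        exact hz0 (mem_Tb.2 (Or.inr hfu.symm))
      · have := hb2 u (Or.inl h) huy
        rw [this] at hfu
        exact hy'c (hfu.trans hfy.symm)
      · have := hb2 u (Or.inr h) huy
        rw [this] at hfu
        exact hy'c (hfu.trans hfy.symm)
  have hP : Proper G (fun u => f (Equiv.swap x y u)) := prfA2 5 V G f hf x y hMut
  have hMd' : Md G p q f (fun u => f (Equiv.swap x y u)) := by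
    refine ⟨hP, Equiv.swap x y, ?_, fun u => rfl⟩
    intro u hu
    by_cases hux : u = x
    · exact ⟨1, by norm_num, by norm_num, by rw [hux]; exact hbx⟩
    · by_cases huy : u = y
      · exact ⟨2, by norm_num, by norm_num, by rw [huy]; exact hby⟩
      · exact absurd (Equiv.swap_apply_of_ne_of_ne hux huy) hu
  have hwin' := h12 V G f _ p q hC0 hf hcol hcon hMd'
  have hfar : ∀ k, 3 ≤ k → k ≤ 6 → ∀ u, (u = p k ∨ u = q k) → Equiv.swap x y u = u := by
    intro k hk3 hk6 u hu
    refine Equiv.swap_apply_of_ne_of_ne ?_ ?_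
    · intro h
      rcases hu with hu | hu <;> rcases hbx with h1 | h1
      · exact (hCd k 1 hk6 (by norm_num) (by omega)).1 (by rw [← hu, ← h1, h])
      · exact (hCd k 1 hk6 (by norm_num) (by omega)).2.2 (by rw [← hu, ← h1, h])
      · exact (hCd 1 k (by norm_num) hk6 (by omega)).2.2 (by rw [← hu, ← h1, h])
      · exact (hCd k 1 hk6 (by norm_num) (by omega)).2.1 (by rw [← hu, ← h1, h])
    · intro h
      rcases hu with hu | hu <;> rcases hby with h1 | h1
      · exact (hCd k 2 hk6 (by norm_num) (by omega)).1 (by rw [← hu, ← h1, h])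
      · exact (hCd k 2 hk6 (by norm_num) (by omega)).2.2 (by rw [← hu, ← h1, h])
      · exact (hCd 2 k (by norm_num) hk6 (by omega)).2.2 (by rw [← hu, ← h1, h])
      · exact (hCd k 2 hk6 (by norm_num) (by omega)).2.1 (by rw [← hu, ← h1, h])
  have hTb : ∀ k, 3 ≤ k → k ≤ 6 → Tb p q (fun u => f (Equiv.swap x y u)) k = Tb p q f k := by
    intro k hk3 hk6
    unfold Tb
    beta_reduce
    rw [hfar k hk3 hk6 (p k) (Or.inl rfl), hfar k hk3 hk6 (q k) (Or.inr rfl)]
  refine hwin' 2 (by norm_num) c0 ?_ ?_ ?_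
  · rw [mem_Tb]
    have hyy : f (Equiv.swap x y y) = c0 := by rw [Equiv.swap_apply_right, hfx]
    rcases hby with h | h
    · left
      rw [← h]
      exact hyy.symm
    · right
      rw [← h]
      exact hyy.symm
  · rw [hTb 4 (by norm_num) (by norm_num)]
    exact hc4
  · rw [hTb 6 (by norm_num) (by norm_num)]
    exact hc6

end

end Pool.Agent.Work.MP_47f387_co.Five

end

section

/-!
# MP_47f387_co, maximum degree 5: item SF14

A positive proportion of the vertices is not rigid.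
-/

namespace Pool.Agent.Work.MP_47f387_co.Five

open Finset Classical Large

noncomputable section

namespace XSF14

/-- A rigid vertex is coloured. -/
lemma col {V : Type} [Fintype V] {G : SimpleGraph V} {f : V → Option (Fin 5)} {v : V}
    (h : Rg G f v) : f v ≠ none := h.1.1.1 v (near_refl 3 v)

/-- A rigid vertex is not flexible. -/
lemma nflex {V : Type} [Fintype V] {G : SimpleGraph V} {f : V → Option (Fin 5)} {v : V}
    (h : Rg G f v) (i j : Fin 5) : ¬ Flex G f i j v := h.1.1.2.1 i j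

end XSF14

theorem prf_SF14 (h2 : SF2) (h3 : SF3) (h5 : SF5) (h8 : SF8) (h9 : SF9) (h10 : SF10)
    (h13 : SF13) : SF14 := by
  intro V _ G f hG hbd hcf hf hcard
  by_contra hlt
  rw [not_le] at hlt
  obtain ⟨v₀, hR⟩ := h2 V G f hbd hf hlt
  -- the structure of the neighbourhoods
  have hSt : ∀ u, Near G 9 v₀ u → St G u := fun u hu =>
    h5 V G f hbd hcf hf u (fun w hw => hR w (near_trans hu hw))
  -- mates
  have hmate : ∀ u, Near G 6 v₀ u → ∃ m, Mate G u m := by
    intro u hu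
    have hon : ¬ Only G u (CC G f u) := h8 V G f hbd hf u (fun w hw =>
      ⟨hR w (near_mono (by norm_num) (near_trans hu hw)), hSt w (near_trans hu hw)⟩)
    have hC : G.IsNClique 4 (CC G f u) := h3 V G f hbd hf u (hR u (near_mono (by norm_num) hu))
    have huC : u ∈ CC G f u := mem_CC.2 (Or.inl rfl)
    unfold Only at hon
    push Not at hon
    obtain ⟨Q', hQ', huQ', hne⟩ := hon
    exact h9 V G u hbd (hSt u (near_mono (by norm_num) hu))
      ⟨CC G f u, Q', hC, hQ', huC, huQ', fun h => hne h.symm⟩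
  -- a far vertex
  obtain ⟨w', hw'⟩ : ∃ w', ¬ Near G 5 v₀ w' := by
    by_contra hcon
    push Not at hcon
    have h1 : (univ.filter (fun u => Near G 5 v₀ u)) = univ := by
      apply filter_true_of_mem
      intro u _
      exact hcon u
    have h2' := near_card hbd 5 v₀
    rw [h1, card_univ] at h2'
    have h3' : (5 + 1) ^ 5 = 6 ^ 5 := by norm_num
    omega
  obtain ⟨w, hw6, hw5⟩ := exists_far hG v₀ 5 hw'
  obtain ⟨p, q, hch, hp3, hpq⟩ := h10 V G v₀ w hmate hw6 hw5
  obtain ⟨i, j, hfl⟩ := h13 V G f p q hch hf (fun k hk =>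
    ⟨XSF14.col (hR (p k) (near_mono (by norm_num) (hpq k hk).1)),
      XSF14.col (hR (q k) (near_mono (by norm_num) (hpq k hk).2))⟩)
  exact XSF14.nflex (hR (p 3) (near_mono (by norm_num) hp3)) i j hfl

end

end Pool.Agent.Work.MP_47f387_co.Five

end
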