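import Pool.Agent.Work.MP_47f387_co.Bd.B05
import Pool.Agent.Work.MP_47f387_co.Bd.F01

/-! Bundle of small proof modules (one section per former module). -/

section

/-!
# MP_47f387_co, maximum degree 5, item SP1: a flexible vertex far from the holes is a place
-/

namespace Pool.Agent.Work.MP_47f387_co.Five

open Finset Classical Large

noncomputable section

namespace XSP1

section

variable {V : Type} {d : ℕ} {G : SimpleGraph V}

/-- the permutation maps the ball of radius `r + 2` into itself -/
lemma near_e {v : V} {e : Equiv.Perm V} (he : ∀ u, e u ≠ u → Near G 2 v u) {r : ℕ} {u : V}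
    (hu : Near G (r + 2) v u) : Near G (r + 2) v (e u) := by
  by_cases h : e u = u
  · rw [h]; exact hu
  · refine near_mono (by omega) (he (e u) ?_)
    intro h'
    exact h (e.injective h')

lemma fix_e {v : V} {e : Equiv.Perm V} (he : ∀ u, e u ≠ u → Near G 2 v u) {u : V}
    (hu : ¬ Near G 2 v u) : e u = u := by
  by_contra h
  exact hu (he u h)

lemma proper_e {v : V} {e : Equiv.Perm V} (he : ∀ u, e u ≠ u → Near G 2 v u)
    {f g : V → Option (Fin d)}
    (hc : ∀ u w c, Near G 2 v u → G.Adj u w → f (e u) = some c → f (e w) ≠ some c)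
    (hg : Proper G g) (hgf : ∀ u, Near G 3 v u → g u = f u) : Proper G (fun u => g (e u)) := by
  intro a b c hab ha hb
  beta_reduce at ha hb
  by_cases h2a : Near G 2 v a
  · have h3b : Near G 3 v b := near_adj h2a hab
    have h3a : Near G 3 v a := near_succ h2a
    rw [hgf _ (near_e (r := 1) he h3a)] at ha
    rw [hgf _ (near_e (r := 1) he h3b)] at hb
    exact hc a b c h2a hab ha hb
  · by_cases h2b : Near G 2 v b
    · have h3a : Near G 3 v a := near_adj h2b hab.symm
      have h3b : Near G 3 v b := near_succ h2b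
      rw [hgf _ (near_e (r := 1) he h3a)] at ha
      rw [hgf _ (near_e (r := 1) he h3b)] at hb
      exact hc b a c h2b hab.symm hb ha
    · rw [fix_e he h2a] at ha
      rw [fix_e he h2b] at hb
      exact hg a b c hab ha hb

end

/-- the walk lemma -/
lemma walk {V : Type} [Fintype V] {d : ℕ} {G : SimpleGraph V} (hd : BD d G) (B : V → Prop)
    {w : V} {i j : Fin d} (hBw : B w) {y : V}
    (hy : Relation.ReflTransGen (fun a b => G.Adj a b ∧ B b) y w) :
    ∀ g : V → Option (Fin d), Proper G g → B y → y ≠ w → g y = none →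
      (∀ z, B z → z ≠ y → g z ≠ none) → Switch G g w i j →
      ∃ g' : V → Option (Fin d), Proper G g' ∧ (∀ z, ¬ B z → g' z = g z) ∧
        ∀ z, B z → g' z ≠ none := by
  induction hy using Relation.ReflTransGen.head_induction_on with
  | refl =>
    intro g _ _ h
    exact absurd rfl h
  | @head y y' hyy' hrest ih =>
    intro g hg hBy hyw hgy hno hsw
    obtain ⟨hadj, hBy'⟩ := hyy'
    obtain ⟨hs1, hs2, hs3⟩ := hsw
    by_cases hc : ∀ c, Sees G g y c
    · obtain ⟨-, hdis⟩ := IC4.distinct hd g y hc
      by_cases hyw' : G.Adj y w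
      · have hp1 : Proper G (IC4.upd g w (some j)) := fill hg hs3
        have hns : ¬ Sees G (IC4.upd g w (some j)) y i := by
          rintro ⟨x, hx, hxi⟩
          by_cases hxw : x = w
          · subst hxw
            rw [IC4.upd_self, Option.some.injEq] at hxi
            exact hs2 hxi.symm
          · rw [IC4.upd_ne g w _ hxw] at hxi
            exact hxw (hdis x w hx hyw' (by rw [hxi, hs1]))
        refine ⟨IC4.upd (IC4.upd g w (some j)) y (some i), fill hp1 hns, ?_, ?_⟩
        · intro z hz
          have h1 : z ≠ y := fun h => hz (h ▸ hBy)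
          have h2 : z ≠ w := fun h => hz (h ▸ hBw)
          rw [IC4.upd_ne _ _ _ h1, IC4.upd_ne _ _ _ h2]
        · intro z hz
          by_cases h1 : z = y
          · subst h1
            rw [IC4.upd_self]
            exact Option.some_ne_none _
          · rw [IC4.upd_ne _ _ _ h1]
            by_cases h2 : z = w
            · subst h2
              rw [IC4.upd_self]
              exact Option.some_ne_none _
            · rw [IC4.upd_ne _ _ _ h2]
              exact hno z hz h1
      · have hy'w : y' ≠ w := by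
          rintro rfl
          exact hyw' hadj
        have hy'y : y' ≠ y := hadj.ne'
        have e1 : g (Equiv.swap y y' y') = none := by rw [Equiv.swap_apply_right, hgy]
        have e2 : g (Equiv.swap y y' y) = g y' := by rw [Equiv.swap_apply_left]
        have e3 : ∀ z, z ≠ y → z ≠ y' → g (Equiv.swap y y' z) = g z := fun z h1 h2 => by
          rw [Equiv.swap_apply_of_ne_of_ne h1 h2]
        obtain ⟨g', hg', hout, hin⟩ := ih (fun u => g (Equiv.swap y y' u))
          (move hd hg hgy hc hadj) hBy' hy'w e1 (by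
            intro z hz hzy'
            by_cases hzy : z = y
            · subst hzy
              rw [e2]
              exact hno y' hBy' hy'y
            · rw [e3 z hzy hzy']
              exact hno z hz hzy) (by
            refine ⟨?_, hs2, ?_⟩
            · beta_reduce
              rw [e3 w hyw.symm hy'w.symm]
              exact hs1
            · rintro ⟨x, hx, hxj⟩
              beta_reduce at hxj
              have hxy : x ≠ y := by
                rintro rfl
                exact hyw' hx.symm
              by_cases hxy' : x = y'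
              · subst hxy'
                rw [e1] at hxj
                exact absurd hxj (by simp)
              · rw [e3 x hxy hxy'] at hxj
                exact hs3 ⟨x, hx, hxj⟩)
        refine ⟨g', hg', ?_, hin⟩
        intro z hz
        rw [hout z hz]
        exact e3 z (fun h => hz (h ▸ hBy)) (fun h => hz (h ▸ hBy'))
    · push Not at hc
      obtain ⟨c, hc⟩ := hc
      refine ⟨IC4.upd g y (some c), fill hg hc, ?_, ?_⟩
      · intro z hz
        have h1 : z ≠ y := fun h => hz (h ▸ hBy)
        rw [IC4.upd_ne _ _ _ h1]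
      · intro z hz
        by_cases h1 : z = y
        · subst h1
          rw [IC4.upd_self]
          exact Option.some_ne_none _
        · rw [IC4.upd_ne _ _ _ h1]
          exact hno z hz h1

section

variable {V : Type} {G : SimpleGraph V}

lemma chain_to (v : V) : ∀ r, r ≤ 4 → ∀ u, Near G r v u →
    Relation.ReflTransGen (fun a b => G.Adj a b ∧ Near G 4 v b) u v := by
  intro r
  induction r with
  | zero =>
    intro _ u hu
    cases hu
    exact Relation.ReflTransGen.refl
  | succ r ih =>
    intro hr u hu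
    rcases hu with hu | ⟨x, hx, hxu⟩
    · exact ih (by omega) u hu
    · exact Relation.ReflTransGen.head ⟨hxu.symm, near_mono (by omega) hx⟩ (ih (by omega) x hx)

lemma chain_from (v : V) : ∀ r, r ≤ 4 → ∀ u, Near G r v u →
    Relation.ReflTransGen (fun a b => G.Adj a b ∧ Near G 4 v b) v u := by
  intro r
  induction r with
  | zero =>
    intro _ u hu
    cases hu
    exact Relation.ReflTransGen.refl
  | succ r ih =>
    intro hr u hu
    rcases hu with hu | ⟨x, hx, hxu⟩
    · exact ih (by omega) u hu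
    · exact Relation.ReflTransGen.tail (ih (by omega) x hx)
        ⟨hxu, near_mono hr (near_adj hx hxu)⟩

end

end XSP1

open XSP1 in
theorem prf_SP1 : SP1 := by
  intro d V _ G f i j v hd hf hno hfl
  obtain ⟨e, he, hc, w, hw2, hs1, hs2, hs3⟩ := hfl
  beta_reduce at hs1
  have hP : Proper G (fun u => f (e u)) := proper_e he hc hf (fun _ _ => rfl)
  refine ⟨hno, ⟨IC4.upd (fun u => f (e u)) w (some j), fill hP hs3, ?_, ?_, ?_⟩, ?_⟩
  · intro u hu
    have h1 : u ≠ w := by
      rintro rfl
      exact hu (near_succ hw2)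
    rw [IC4.upd_ne _ _ _ h1, fix_e he (fun h => hu (near_succ h))]
  · intro u hu
    by_cases h1 : u = w
    · subst h1
      rw [IC4.upd_self]
      exact Option.some_ne_none _
    · rw [IC4.upd_ne _ _ _ h1]
      exact hno _ (near_succ (near_e (r := 1) he hu))
  · intro c
    have hij : (some i : Option (Fin d)) ≠ some j := fun h => hs2 (Option.some.inj h)
    by_cases hci : c = i
    · subst hci
      have h := IC4.cnt_upd_old (fun u => f (e u)) w (some j) (by rw [hs1]; exact hij)
      beta_reduce at h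
      rw [hs1, cnt_perm] at h
      rw [if_pos rfl, if_neg hs2]
      exact h
    · by_cases hcj : c = j
      · subst hcj
        have h := IC4.cnt_upd_new (fun u => f (e u)) w (some c) (by rw [hs1]; exact hij)
        rw [cnt_perm] at h
        rw [if_neg hci, if_pos rfl]
        exact h
      · have h := IC4.cnt_upd_ne (fun u => f (e u)) w (some j) (some c)
          (by rw [hs1]; exact fun h => hci (Option.some.inj h).symm)
          (fun h => hcj (Option.some.inj h).symm)
        rw [cnt_perm] at h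
        rw [if_neg hci, if_neg hcj]
        exact congrArg (· + 0) h
  · intro g u hg hu4 hu3 hgu hgf
    have hgf3 : ∀ z, Near G 3 v z → g z = f z := fun z hz =>
      hgf z (near_succ hz) (by rintro rfl; exact hu3 hz)
    have hu2 : ¬ Near G 2 v u := fun h => hu3 (near_succ h)
    have hg1 : Proper G (fun z => g (e z)) := proper_e he hc hg hgf3
    have huw : u ≠ w := by
      rintro rfl
      exact hu2 hw2
    obtain ⟨g', hg', hout, hin⟩ := walk hd (fun z => Near G 4 v z) (w := w) (i := i) (j := j)
      (near_mono (by omega) hw2)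
      ((chain_to v 4 le_rfl u hu4).trans (chain_from v 2 (by omega) w hw2))
      (fun z => g (e z)) hg1 hu4 huw (by rw [fix_e he hu2, hgu]) (by
        intro z hz hzu
        rw [hgf (e z) (near_e (r := 2) he hz) (by
          intro h
          apply hzu
          apply e.injective
          rw [h, fix_e he hu2])]
        exact hno _ (near_e (r := 2) he hz)) (by
        refine ⟨?_, hs2, ?_⟩
        · beta_reduce
          rw [hgf3 _ (near_e (r := 1) he (near_succ hw2))]
          exact hs1
        · rintro ⟨x, hx, hxj⟩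
          beta_reduce at hxj
          rw [hgf3 _ (near_e (r := 1) he (near_adj hw2 hx))] at hxj
          exact hs3 ⟨x, hx, hxj⟩)
    refine ⟨g', hg', ?_, hin⟩
    intro z hz
    rw [hout z hz, fix_e he (fun h => hz (near_mono (by omega) h))]

end

end Pool.Agent.Work.MP_47f387_co.Five

end

section

/-!
# SP2: colouring a diamond from lists (MP_47f387_co)
-/

namespace Pool.Agent.Work.MP_47f387_co.Five

open Finset Classical Large

noncomputable section

namespace XSP2

theorem ex1 {α : Type} (S : Finset α) (x : α) (h : 2 ≤ S.card) : ∃ a ∈ S, a ≠ x := by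
  obtain ⟨a, ha, hb⟩ := Finset.exists_mem_notMem_of_card_lt_card (s := {x}) (t := S) (by
    rw [Finset.card_singleton]
    omega)
  exact ⟨a, ha, fun h => hb (Finset.mem_singleton.2 h)⟩

theorem ex2 {α : Type} (S : Finset α) (x y : α) (h : 3 ≤ S.card) :
    ∃ a ∈ S, a ≠ x ∧ a ≠ y := by
  obtain ⟨a, ha, hb⟩ := Finset.exists_mem_notMem_of_card_lt_card (s := {x, y}) (t := S) (by
    have := Finset.card_le_two (a := x) (b := y)
    omega)
  simp only [Finset.mem_insert, Finset.mem_singleton, not_or] at hb
  exact ⟨a, ha, hb⟩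

theorem ex3 {α : Type} (S : Finset α) (x y z : α) (h : 4 ≤ S.card) :
    ∃ a ∈ S, a ≠ x ∧ a ≠ y ∧ a ≠ z := by
  obtain ⟨a, ha, hb⟩ := Finset.exists_mem_notMem_of_card_lt_card (s := {x, y, z}) (t := S) (by
    have := Finset.card_le_three (a := x) (b := y) (c := z)
    omega)
  simp only [Finset.mem_insert, Finset.mem_singleton, not_or] at hb
  exact ⟨a, ha, hb⟩

end XSP2

open XSP2 in
theorem prf_SP2 : SP2 := by
  intro d A B C D hA hB hC hD
  by_cases hCD : (C ∩ D).Nonempty
  · obtain ⟨x, hx⟩ := hCD
    rw [Finset.mem_inter] at hx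
    obtain ⟨b, hb, hbx⟩ := ex1 B x (by omega)
    obtain ⟨a, ha, hab, hax⟩ := ex2 A b x hA
    exact ⟨a, ha, b, hb, x, hx.1, x, hx.2, hab, hax, hax, hbx, hbx⟩
  · rw [Finset.not_nonempty_iff_eq_empty] at hCD
    obtain ⟨c, hc⟩ := Finset.card_pos.1 (show 0 < C.card by omega)
    obtain ⟨e, he⟩ := Finset.card_pos.1 (show 0 < D.card by omega)
    by_cases hA4 : 4 ≤ A.card
    · obtain ⟨b, hb, hbc, hbe⟩ := ex2 B c e hB
      obtain ⟨a, ha, hab, hac, hae⟩ := ex3 A b c e hA4
      exact ⟨a, ha, b, hb, c, hc, e, he, hab, hac, hae, hbc, hbe⟩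
    · have hdis : Disjoint C D := Finset.disjoint_iff_inter_eq_empty.2 hCD
      have hcard : A.card < (C ∪ D).card := by
        rw [Finset.card_union_of_disjoint hdis]
        omega
      obtain ⟨x, hx, hxA⟩ := Finset.exists_mem_notMem_of_card_lt_card hcard
      rcases Finset.mem_union.1 hx with hx | hx
      · obtain ⟨b, hb, hbc, hbe⟩ := ex2 B x e hB
        obtain ⟨a, ha, hab, hae⟩ := ex2 A b e hA
        exact ⟨a, ha, b, hb, x, hx, e, he, hab, fun h => hxA (h ▸ ha), hae, hbc, hbe⟩
      · obtain ⟨b, hb, hbc, hbe⟩ := ex2 B c x hB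
        obtain ⟨a, ha, hab, hac⟩ := ex2 A b c hA
        exact ⟨a, ha, b, hb, c, hc, x, hx, hab, hac, fun h => hxA (h ▸ ha), hbc, hbe⟩

end

end Pool.Agent.Work.MP_47f387_co.Five

end

section

/-!
# MP_47f387_co, maximum degree 5: recolouring a diamond
-/

namespace Pool.Agent.Work.MP_47f387_co.Five

open Finset Classical Large

noncomputable section

namespace XSP3

/-- the colours which are free at `x` outside of `S` -/
def Li {V : Type} [Fintype V] {d : ℕ} (G : SimpleGraph V) (g : V → Option (Fin d))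
    (S : Finset V) (x : V) : Finset (Fin d) :=
  univ.filter fun c => ∀ y, G.Adj x y → y ∉ S → g y ≠ some c

lemma mem_Li {V : Type} [Fintype V] {d : ℕ} {G : SimpleGraph V} {g : V → Option (Fin d)}
    {S : Finset V} {x : V} {c : Fin d} (h : c ∈ Li G g S x) {y : V} (hy : G.Adj x y)
    (hS : y ∉ S) : g y ≠ some c := (mem_filter.1 h).2 y hy hS

lemma card_Li {V : Type} [Fintype V] {d : ℕ} {G : SimpleGraph V} (hd : BD d G)
    (g : V → Option (Fin d)) (S T : Finset V) (x : V) (hT : ∀ t ∈ T, G.Adj x t ∧ t ∈ S) :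
    T.card ≤ (Li G g S x).card := by
  set O : Finset V := univ.filter fun y => G.Adj x y ∧ y ∉ S with hO
  have h1 : O.card + T.card ≤ d := by
    rw [← card_union_of_disjoint]
    · refine le_trans (card_le_card ?_) (hd x)
      intro y hy
      rw [mem_filter]
      rcases mem_union.1 hy with h | h
      · exact ⟨mem_univ _, (mem_filter.1 h).2.1⟩
      · exact ⟨mem_univ _, (hT y h).1⟩
    · rw [Finset.disjoint_left]
      intro y hy hy'
      exact (mem_filter.1 hy).2.2 (hT y hy').2
  have h2 : (Li G g S x)ᶜ.card ≤ O.card := by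
    have h3 : (Li G g S x)ᶜ.image (fun c => some c) ⊆ O.image g := by
      intro o ho
      obtain ⟨c, hc, rfl⟩ := mem_image.1 ho
      rw [mem_compl, Li, mem_filter] at hc
      push Not at hc
      obtain ⟨y, hy1, hy2, hy3⟩ := hc (mem_univ _)
      exact mem_image.2 ⟨y, mem_filter.2 ⟨mem_univ _, hy1, hy2⟩, hy3⟩
    calc (Li G g S x)ᶜ.card = ((Li G g S x)ᶜ.image (fun c => some c)).card :=
          (card_image_of_injective _ (Option.some_injective _)).symm
      _ ≤ (O.image g).card := card_le_card h3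
      _ ≤ O.card := card_image_le
  have h4 := card_add_card_compl (Li G g S x)
  rw [Fintype.card_fin] at h4
  omega

end XSP3

open XSP3 in
theorem prf_SP3 (h2 : SP2) : SP3 := by
  intro d V _ G g v z p p' h3d hd hg hpp hnp hvp hvp' hvz hzp hzp'
  have n1 : v ≠ z := hvz.ne
  have n2 : v ≠ p := hvp.ne
  have n3 : v ≠ p' := hvp'.ne
  have n4 : z ≠ p := hzp.ne
  have n5 : z ≠ p' := hzp'.ne
  set S : Finset V := {v, z, p, p'} with hS
  have hin : ∀ u, u ∈ S ↔ u = v ∨ u = z ∨ u = p ∨ u = p' := by
    intro u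
    simp [hS]
  have cv : 3 ≤ (Li G g S v).card := by
    have h := card_Li hd g S {z, p, p'} v (by
      intro t ht
      simp only [mem_insert, mem_singleton] at ht
      rcases ht with rfl | rfl | rfl
      · exact ⟨hvz, (hin _).2 (by tauto)⟩
      · exact ⟨hvp, (hin _).2 (by tauto)⟩
      · exact ⟨hvp', (hin _).2 (by tauto)⟩)
    rwa [card_eq_three.2 ⟨z, p, p', n4, n5, hpp, rfl⟩] at h
  have cz : 3 ≤ (Li G g S z).card := by
    have h := card_Li hd g S {v, p, p'} z (by
      intro t ht
      simp only [mem_insert, mem_singleton] at ht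
      rcases ht with rfl | rfl | rfl
      · exact ⟨hvz.symm, (hin _).2 (by tauto)⟩
      · exact ⟨hzp, (hin _).2 (by tauto)⟩
      · exact ⟨hzp', (hin _).2 (by tauto)⟩)
    rwa [card_eq_three.2 ⟨v, p, p', n2, n3, hpp, rfl⟩] at h
  have cp : 2 ≤ (Li G g S p).card := by
    have h := card_Li hd g S {v, z} p (by
      intro t ht
      simp only [mem_insert, mem_singleton] at ht
      rcases ht with rfl | rfl
      · exact ⟨hvp.symm, (hin _).2 (by tauto)⟩
      · exact ⟨hzp.symm, (hin _).2 (by tauto)⟩)
    rwa [card_eq_two.2 ⟨v, z, n1, rfl⟩] at h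
  have cp' : 2 ≤ (Li G g S p').card := by
    have h := card_Li hd g S {v, z} p' (by
      intro t ht
      simp only [mem_insert, mem_singleton] at ht
      rcases ht with rfl | rfl
      · exact ⟨hvp'.symm, (hin _).2 (by tauto)⟩
      · exact ⟨hzp'.symm, (hin _).2 (by tauto)⟩)
    rwa [card_eq_two.2 ⟨v, z, n1, rfl⟩] at h
  obtain ⟨a, ha, b, hb, c, hc, e, he, hab, hac, hae, hbc, hbe⟩ := h2 d _ _ _ _ cv cz cp cp'
  set g' : V → Option (Fin d) := fun u => if u = v then some a else if u = z then some b else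
    if u = p then some c else if u = p' then some e else g u with hg'
  have gv : g' v = some a := by simp [hg']
  have gz : g' z = some b := by simp [hg', n1.symm]
  have gp : g' p = some c := by simp [hg', n2.symm, n4.symm]
  have gp' : g' p' = some e := by simp [hg', n3.symm, n5.symm, hpp.symm]
  have go : ∀ u, u ∉ S → g' u = g u := by
    intro u hu
    rw [hin] at hu
    push Not at hu
    simp [hg', hu.1, hu.2.1, hu.2.2.1, hu.2.2.2]
  -- the vertices of `S` against the other ones
  have hout : ∀ u w k, u ∈ S → w ∉ S → G.Adj u w → g' u = some k → g' w ≠ some k := by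
    intro u w k hu hw huw hk
    rw [go w hw]
    rcases (hin u).1 hu with h | h | h | h
    · subst h
      rw [gv] at hk
      rw [← Option.some.inj hk]
      exact mem_Li ha huw hw
    · subst h
      rw [gz] at hk
      rw [← Option.some.inj hk]
      exact mem_Li hb huw hw
    · subst h
      rw [gp] at hk
      rw [← Option.some.inj hk]
      exact mem_Li hc huw hw
    · subst h
      rw [gp'] at hk
      rw [← Option.some.inj hk]
      exact mem_Li he huw hw
  refine ⟨g', ?_, ?_, ?_, ?_, ?_, ?_⟩
  · intro u w k huw hk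
    by_cases hu : u ∈ S
    · by_cases hw : w ∈ S
      · intro hk'
        rcases (hin u).1 hu with h | h | h | h <;> rcases (hin w).1 hw with h' | h' | h' | h' <;>
          rw [h] at hk huw <;> rw [h'] at hk' huw <;>
          simp only [gv, gz, gp, gp', Option.some.injEq] at hk hk' <;>
          first
          | exact G.loopless.irrefl _ huw
          | exact hnp huw
          | exact hnp huw.symm
          | exact hab (hk.trans hk'.symm)
          | exact hab (hk'.trans hk.symm)
          | exact hac (hk.trans hk'.symm)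
          | exact hac (hk'.trans hk.symm)
          | exact hae (hk.trans hk'.symm)
          | exact hae (hk'.trans hk.symm)
          | exact hbc (hk.trans hk'.symm)
          | exact hbc (hk'.trans hk.symm)
          | exact hbe (hk.trans hk'.symm)
          | exact hbe (hk'.trans hk.symm)
      · exact hout u w k hu hw huw hk
    · by_cases hw : w ∈ S
      · intro hk'
        exact hout w u k hw hu huw.symm hk' hk
      · rw [go u hu] at hk
        rw [go w hw]
        exact hg u w k huw hk
  · intro u h1 h2' h3 h4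
    exact go u (fun h => by rcases (hin u).1 h with h | h | h | h <;> contradiction)
  · rw [gv]; exact Option.some_ne_none _
  · rw [gz]; exact Option.some_ne_none _
  · rw [gp]; exact Option.some_ne_none _
  · rw [gp']; exact Option.some_ne_none _

end

end Pool.Agent.Work.MP_47f387_co.Five

end

section

/-!
# MP_47f387_co, maximum degree 5, item SP4: a hole walks to `v` inside the ball of radius 4
-/

namespace Pool.Agent.Work.MP_47f387_co.Five

open Finset Classical Large

noncomputable section

namespace XSP4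

theorem aux (d : ℕ) (V : Type) [Fintype V] (G : SimpleGraph V) (hd : BD d G) (v : V) :
    ∀ r, r ≤ 4 → ∀ (g : V → Option (Fin d)) (u : V), Proper G g → Near G r v u → g u = none →
      (∀ w, Near G 4 v w → w ≠ u → g w ≠ none) →
      ∃ g' : V → Option (Fin d), Proper G g' ∧ (∀ w, ¬ Near G 4 v w → g' w = g w) ∧
        ∀ w, Near G 4 v w → w ≠ v → g' w ≠ none := by
  intro r
  induction r with
  | zero =>
    intro _ g u hP hn hu ho
    have h : v = u := hn
    subst h
    exact ⟨g, hP, fun _ _ => rfl, ho⟩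
  | succ r ih =>
    intro hr g u hP hn hu ho
    rcases hn with hn | ⟨u', hu', hadj⟩
    · exact ih (by omega) g u hP hn hu ho
    · have hn4 : Near G 4 v u := near_mono hr (near_adj hu' hadj)
      have hn4' : Near G 4 v u' := near_mono (by omega) hu'
      by_cases hs : ∀ c, Sees G g u c
      · have hm := move hd hP hu hs hadj.symm
        obtain ⟨g', h1, h2, h3⟩ := ih (by omega) (fun w => g (Equiv.swap u u' w)) u' hm hu'
          (by simp only [Equiv.swap_apply_right, hu]) (by
            intro w hw hwu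
            by_cases hwu' : w = u
            · subst hwu'
              simp only [Equiv.swap_apply_left]
              exact ho u' hn4' hadj.ne
            · simp only [Equiv.swap_apply_of_ne_of_ne hwu' hwu]
              exact ho w hw hwu')
        refine ⟨g', h1, fun w hw => ?_, h3⟩
        have hwu : w ≠ u := fun h => hw (h ▸ hn4)
        have hwu' : w ≠ u' := fun h => hw (h ▸ hn4')
        rw [h2 w hw]
        simp only [Equiv.swap_apply_of_ne_of_ne hwu hwu']
      · push Not at hs
        obtain ⟨c, hc⟩ := hs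
        refine ⟨IC4.upd g u (some c), fill hP hc, fun w hw => ?_, fun w hw hwv => ?_⟩
        · exact IC4.upd_ne g u _ (fun h => hw (h ▸ hn4))
        · by_cases hwu : w = u
          · subst hwu
            rw [IC4.upd_self]
            simp
          · rw [IC4.upd_ne g u _ hwu]
            exact ho w hw hwu

end XSP4

theorem prf_SP4 : SP4 := by
  intro d V _ G g v u hd hP hn hu ho
  exact XSP4.aux d V G hd v 4 le_rfl g u hP hn hu ho

end

end Pool.Agent.Work.MP_47f387_co.Five

end

section

/-!
# MP_47f387_co, maximum degree 5, item SP5: a diamond far from the holes is a place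
-/

namespace Pool.Agent.Work.MP_47f387_co.Five

open Finset Classical Large

noncomputable section

namespace XSP5

/-- recolouring one vertex: the numbers of the vertices of the colours -/
lemma cnt_upd {V : Type} [Fintype V] {d : ℕ} (f : V → Option (Fin d)) (x : V) {a b : Fin d}
    (hx : f x = some a) (hab : a ≠ b) (c : Fin d) :
    cnt (IC4.upd f x (some b)) (some c) + (if c = a then 1 else 0) =
      cnt f (some c) + (if c = b then 1 else 0) := by
  have hne : f x ≠ some b := by
    rw [hx]
    exact fun h => hab (Option.some_injective _ h)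
  by_cases h1 : c = a
  · subst h1
    rw [if_pos rfl, if_neg hab]
    have := IC4.cnt_upd_old f x (some b) hne
    rw [hx] at this
    rw [this, add_zero]
  · by_cases h2 : c = b
    · subst h2
      rw [if_neg h1, if_pos rfl, add_zero]
      exact IC4.cnt_upd_new f x (some c) hne
    · rw [if_neg h1, if_neg h2]
      rw [IC4.cnt_upd_ne f x (some b) (some c)]
      · rw [hx]
        exact fun h => h1 (Option.some_injective _ h).symm
      · exact fun h => h2 (Option.some_injective _ h).symm

end XSP5

open XSP5 in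
theorem prf_SP5 (h3 : SP3) (h4 : SP4) : SP5 := by
  intro d V _ G f i j v hd hBD hf hno hD
  obtain ⟨p, p', z, hpp', hnadj, hvp, hvp', hvz, hzp, hzp', hfv, hfp, hfp', hi, hj, hj'⟩ := hD
  have hij : i ≠ j := by
    rintro rfl
    exact hf v p i hvp hfv hfp
  have hsi : (some i : Option (Fin d)) ≠ some j := fun h => hij (Option.some_injective _ h)
  have nvp : v ≠ p := hvp.ne
  have nvp' : v ≠ p' := hvp'.ne
  refine ⟨hno, ?_, ?_⟩
  · obtain ⟨f₁, ev, ep, ep', eo, hcnt⟩ : ∃ f₁ : V → Option (Fin d), f₁ v = some i ∧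
        f₁ p = some j ∧ f₁ p' = some j ∧ (∀ u, u ≠ v → u ≠ p → u ≠ p' → f₁ u = f u) ∧
        ∀ c, cnt f₁ (some c) + (if c = i then 1 else 0) =
          cnt f (some c) + (if c = j then 1 else 0) := by
      refine ⟨IC4.upd (IC4.upd (IC4.upd f p (some j)) p' (some j)) v (some i),
        IC4.upd_self _ _ _, ?_, ?_, ?_, ?_⟩
      · rw [IC4.upd_ne _ _ _ nvp.symm, IC4.upd_ne _ _ _ hpp', IC4.upd_self]
      · rw [IC4.upd_ne _ _ _ nvp'.symm, IC4.upd_self]
      · intro u h1 h2 h3
        rw [IC4.upd_ne _ _ _ h1, IC4.upd_ne _ _ _ h3, IC4.upd_ne _ _ _ h2]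
      · intro c
        have c1 := cnt_upd f p hfp hij c
        have c2 := cnt_upd (IC4.upd f p (some j)) p' (a := i) (b := j)
          (by rw [IC4.upd_ne _ _ _ hpp'.symm, hfp']) hij c
        have c3 := cnt_upd (IC4.upd (IC4.upd f p (some j)) p' (some j)) v (a := j) (b := i)
          (by rw [IC4.upd_ne _ _ _ nvp', IC4.upd_ne _ _ _ nvp, hfv]) hij.symm c
        omega
    have near4 : ∀ {u}, Near G 1 v u → Near G 3 v u := fun h => near_mono (by norm_num) h
    refine ⟨f₁, ?_, ?_, ?_, hcnt⟩
    · intro u w c huw hu hw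
      by_cases huv : u = v
      · subst huv
        rw [ev] at hu
        obtain rfl := Option.some_injective _ hu
        by_cases hwp : w = p
        · subst hwp
          rw [ep] at hw
          exact hsi hw.symm
        · by_cases hwp' : w = p'
          · subst hwp'
            rw [ep'] at hw
            exact hsi hw.symm
          · rw [eo w huw.ne' hwp hwp'] at hw
            rcases hi w huw hw with h | h
            · exact hwp h
            · exact hwp' h
      · by_cases hup : u = p
        · subst hup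
          rw [ep] at hu
          obtain rfl := Option.some_injective _ hu
          by_cases hwv : w = v
          · subst hwv
            rw [ev] at hw
            exact hsi hw
          · by_cases hwp' : w = p'
            · subst hwp'
              exact hnadj huw
            · rw [eo w hwv huw.ne' hwp'] at hw
              exact hwv (hj w huw hw)
        · by_cases hup' : u = p'
          · subst hup'
            rw [ep'] at hu
            obtain rfl := Option.some_injective _ hu
            by_cases hwv : w = v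
            · subst hwv
              rw [ev] at hw
              exact hsi hw
            · by_cases hwp : w = p
              · subst hwp
                exact hnadj huw.symm
              · rw [eo w hwv hwp huw.ne'] at hw
                exact hwv (hj' w huw hw)
          · rw [eo u huv hup hup'] at hu
            by_cases hwv : w = v
            · subst hwv
              rw [ev] at hw
              obtain rfl := Option.some_injective _ hw
              rcases hi u huw.symm hu with h | h
              · exact hup h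
              · exact hup' h
            · by_cases hwp : w = p
              · subst hwp
                rw [ep] at hw
                obtain rfl := Option.some_injective _ hw
                exact huv (hj u huw.symm hu)
              · by_cases hwp' : w = p'
                · subst hwp'
                  rw [ep'] at hw
                  obtain rfl := Option.some_injective _ hw
                  exact huv (hj' u huw.symm hu)
                · rw [eo w hwv hwp hwp'] at hw
                  exact hf u w c huw hu hw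
    · intro u hu
      apply eo
      · rintro rfl
        exact hu (near_refl 3 u)
      · rintro rfl
        exact hu (near4 (near_of_adj hvp))
      · rintro rfl
        exact hu (near4 (near_of_adj hvp'))
    · intro u hu
      by_cases h1 : u = v
      · rw [h1, ev]
        simp
      · by_cases h2 : u = p
        · rw [h2, ep]
          simp
        · by_cases h3 : u = p'
          · rw [h3, ep']
            simp
          · rw [eo u h1 h2 h3]
            exact hno u (near_succ hu)
  · intro g u hg hu4 hu3 hgu hgf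
    obtain ⟨g1, hg1, hg1o, hg1n⟩ := h4 d V G g v u hBD hg hu4 hgu
      (fun w hw hwu => by rw [hgf w hw hwu]; exact hno w hw)
    obtain ⟨g2, hg2, hg2o, nv, nz, np, np'⟩ := h3 d V G g1 v z p p' hd hBD hg1 hpp' hnadj hvp hvp'
      hvz hzp hzp'
    have near4 : ∀ {u}, Near G 1 v u → Near G 4 v u := fun h => near_mono (by norm_num) h
    refine ⟨g2, hg2, ?_, ?_⟩
    · intro w hw
      rw [hg2o w, hg1o w hw]
      · rintro rfl
        exact hw (near_refl 4 w)
      · rintro rfl
        exact hw (near4 (near_of_adj hvz))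
      · rintro rfl
        exact hw (near4 (near_of_adj hvp))
      · rintro rfl
        exact hw (near4 (near_of_adj hvp'))
    · intro w hw
      by_cases h1 : w = v
      · rw [h1]; exact nv
      · by_cases h2 : w = z
        · rw [h2]; exact nz
        · by_cases h3 : w = p
          · rw [h3]; exact np
          · by_cases h4 : w = p'
            · rw [h4]; exact np'
            · rw [hg2o w h1 h2 h3 h4]
              exact hg1n w hw h1

end

end Pool.Agent.Work.MP_47f387_co.Five

end

section

/-!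
# MP_47f387_co, maximum degree 5, item SP6
-/

namespace Pool.Agent.Work.MP_47f387_co.Five

open Finset Classical Large

noncomputable section

namespace XSP6

/-- splitting a count by a predicate -/
lemma split {V : Type} [Fintype V] {d : ℕ} (f : V → Option (Fin d)) (o : Option (Fin d))
    (P : V → Prop) : cnt f o = (univ.filter (fun v => P v ∧ f v = o)).card +
      (univ.filter (fun v => ¬ P v ∧ f v = o)).card := by
  unfold cnt
  rw [← Finset.card_filter_add_card_filter_not (s := univ.filter (fun v => f v = o)) P]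
  congr 1
  · rw [Finset.filter_filter]
    congr 1
    ext v
    simp only [mem_filter, mem_univ, true_and]
    exact and_comm
  · rw [Finset.filter_filter]
    congr 1
    ext v
    simp only [mem_filter, mem_univ, true_and]
    exact and_comm

/-- equality of partial counts -/
lemma part {V : Type} [Fintype V] {d : ℕ} (f g : V → Option (Fin d)) (o : Option (Fin d))
    (P : V → Prop) (h : ∀ v, P v → f v = g v) : (univ.filter (fun v => P v ∧ f v = o)).card =
      (univ.filter (fun v => P v ∧ g v = o)).card := by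
  congr 1
  ext v
  simp only [mem_filter, mem_univ, true_and]
  constructor
  · rintro ⟨h1, h2⟩
    exact ⟨h1, by rw [← h v h1]; exact h2⟩
  · rintro ⟨h1, h2⟩
    exact ⟨h1, by rw [h v h1]; exact h2⟩

/-- equality of partial counts, complement -/
lemma part' {V : Type} [Fintype V] {d : ℕ} (f g : V → Option (Fin d)) (o : Option (Fin d))
    (P : V → Prop) (h : ∀ v, ¬ P v → f v = g v) :
    (univ.filter (fun v => ¬ P v ∧ f v = o)).card =
      (univ.filter (fun v => ¬ P v ∧ g v = o)).card := by
  congr 1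
  ext v
  simp only [mem_filter, mem_univ, true_and]
  constructor
  · rintro ⟨h1, h2⟩
    exact ⟨h1, by rw [← h v h1]; exact h2⟩
  · rintro ⟨h1, h2⟩
    exact ⟨h1, by rw [h v h1]; exact h2⟩

end XSP6

open XSP6 in
theorem prf_SP6 : SP6 := by
  intro d V _ G f f' i j v hP' hff ⟨h1, ⟨f₁, hf1, hf2, hf3, hf4⟩, h3⟩
  refine ⟨fun u hu => by rw [hff u hu]; exact h1 u hu, ?_, ?_⟩
  · set k : V → Option (Fin d) := fun u => if Near G 3 v u then f₁ u else f' u with hk
    have k1 : ∀ u, Near G 3 v u → k u = f₁ u := fun u hu => if_pos hu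
    have k2 : ∀ u, ¬ Near G 3 v u → k u = f' u := fun u hu => if_neg hu
    have k3 : ∀ u, Near G 4 v u → k u = f₁ u := by
      intro u hu
      by_cases h : Near G 3 v u
      · exact k1 u h
      · rw [k2 u h, hff u hu, hf2 u h]
    refine ⟨k, ?_, k2, ?_, ?_⟩
    · intro x y c hxy hx
      by_cases hx3 : Near G 3 v x
      · rw [k3 y (near_adj hx3 hxy)]
        rw [k1 x hx3] at hx
        exact hf1 x y c hxy hx
      · by_cases hy3 : Near G 3 v y
        · rw [k1 y hy3]
          rw [k3 x (near_adj hy3 hxy.symm)] at hx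
          exact hf1 x y c hxy hx
        · rw [k2 y hy3]
          rw [k2 x hx3] at hx
          exact hP' x y c hxy hx
    · intro u hu
      rw [k1 u hu]
      exact hf3 u hu
    · intro c
      have e1 := split k (some c) (fun u => Near G 3 v u)
      have e2 := split f' (some c) (fun u => Near G 3 v u)
      have e3 := split f₁ (some c) (fun u => Near G 3 v u)
      have e4 := split f (some c) (fun u => Near G 3 v u)
      have p1 := part k f₁ (some c) (fun u => Near G 3 v u) k1
      have p2 := part' k f' (some c) (fun u => Near G 3 v u) k2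
      have p3 := part' f₁ f (some c) (fun u => Near G 3 v u) hf2
      have p4 := part f' f (some c) (fun u => Near G 3 v u)
        (fun u hu => hff u (near_succ hu))
      have h5 := hf4 c
      omega
  · intro g u hg hu hu3 hgu hgw
    exact h3 g u hg hu hu3 hgu (fun w hw hwu => by rw [hgw w hw hwu, hff w hw])

end

end Pool.Agent.Work.MP_47f387_co.Five

end

section

/-!
# MP_47f387_co, block FIVE, item SP7: a hole walks towards `w` and stops at distance 4
-/

namespace Pool.Agent.Work.MP_47f387_co.Five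

open Finset Classical Large

noncomputable section

namespace XSP7

variable {V : Type} [Fintype V] {d : ℕ} {G : SimpleGraph V}

omit [Fintype V] in
/-- walks inside a ball, from the centre -/
lemma reach {w : V} (R : ℕ) : ∀ (r : ℕ), r ≤ R → ∀ u, Near G r w u →
    Relation.ReflTransGen (fun a b => G.Adj a b ∧ Near G R w b) w u := by
  intro r
  induction r with
  | zero =>
    intro _ u hu
    cases hu
    exact Relation.ReflTransGen.refl
  | succ r ih =>
    intro hr u hu
    rcases hu with hu | ⟨x, hx, hxu⟩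
    · exact ih (by omega) u hu
    · exact (ih (by omega) x hx).tail ⟨hxu, near_mono hr (near_adj hx hxu)⟩

omit [Fintype V] in
/-- walks inside a ball, to the centre -/
lemma reach' {w : V} (R : ℕ) : ∀ (r : ℕ), r ≤ R → ∀ u, Near G r w u →
    Relation.ReflTransGen (fun a b => G.Adj a b ∧ Near G R w b) u w := by
  intro r
  induction r with
  | zero =>
    intro _ u hu
    cases hu
    exact Relation.ReflTransGen.refl
  | succ r ih =>
    intro hr u hu
    rcases hu with hu | ⟨x, hx, hxu⟩
    · exact ih (by omega) u hu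
    · exact (ih (by omega) x hx).head ⟨hxu.symm, near_mono (by omega) hx⟩

/-- filling a hole which does not see a colour: the counts -/
lemma fill_cnt {f : V → Option (Fin d)} {y : V} (hy : f y = none) (c : Fin d) :
    cnt (IC4.upd f y (some c)) none + 1 = cnt f none ∧
    ∀ c', cnt f (some c') ≤ cnt (IC4.upd f y (some c)) (some c') ∧
      cnt (IC4.upd f y (some c)) (some c') ≤ cnt f (some c') + 1 := by
  constructor
  · have h := IC4.cnt_upd_old f y (some c) (by rw [hy]; simp)
    rw [hy] at h
    exact h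
  · intro c'
    by_cases hc : c = c'
    · subst hc
      rw [IC4.cnt_upd_new f y (some c) (by rw [hy]; simp)]
      omega
    · rw [IC4.cnt_upd_ne f y (some c) (some c') (by rw [hy]; simp)
        (by simpa using hc)]
      omega

/-- two holes joined by a walk in `S`: one of them can be filled -/
lemma two_holes (hd : BD d G) {w : V} {R : ℕ} {x y : V}
    (hxy : Relation.ReflTransGen (fun a b => G.Adj a b ∧ Near G R w b) x y) :
    ∀ f : V → Option (Fin d), Near G R w x → Proper G f → f x = none → f y = none → x ≠ y →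
    ∃ f' : V → Option (Fin d), Proper G f' ∧ cnt f' none + 1 = cnt f none ∧
      (∀ c, cnt f (some c) ≤ cnt f' (some c) ∧ cnt f' (some c) ≤ cnt f (some c) + 1) ∧
      ∀ z, f' z ≠ f z → Near G R w z := by
  induction hxy using Relation.ReflTransGen.head_induction_on with
  | refl =>
    intro f _ _ _ _ hne
    exact absurd rfl hne
  | head hab _ ih =>
    rename_i a b _
    intro f ha hf hfa hfy hne
    by_cases hsee : ∀ c, Sees G f a c
    · obtain ⟨hnon, -⟩ := distinct hd f a hsee
      have hfb : f b ≠ none := hnon b hab.1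
      have hby : b ≠ y := fun h => hfb (by rw [h]; exact hfy)
      have hm := move hd hf hfa hsee hab.1
      have h1 : f (Equiv.swap a b b) = none := by rw [Equiv.swap_apply_right, hfa]
      have h2 : f (Equiv.swap a b y) = none := by
        rw [Equiv.swap_apply_of_ne_of_ne hne.symm hby.symm, hfy]
      obtain ⟨f', g1, g2, g3, g4⟩ := ih (fun u => f (Equiv.swap a b u)) hab.2 hm h1 h2 hby
      have hc : ∀ o, cnt (fun u => f (Equiv.swap a b u)) o = cnt f o :=
        fun o => cnt_perm f (Equiv.swap a b) o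
      simp only [hc] at g2 g3
      refine ⟨f', g1, g2, g3, ?_⟩
      intro z hz
      by_cases hza : z = a
      · rw [hza]; exact ha
      · by_cases hzb : z = b
        · rw [hzb]; exact hab.2
        · refine g4 z ?_
          show f' z ≠ f (Equiv.swap a b z)
          rw [Equiv.swap_apply_of_ne_of_ne hza hzb]
          exact hz
    · push Not at hsee
      obtain ⟨c, hc⟩ := hsee
      obtain ⟨h1, h2⟩ := fill_cnt hfa c
      refine ⟨IC4.upd f a (some c), fill hf hc, h1, h2, ?_⟩
      intro z hz
      by_cases hza : z = a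
      · rw [hza]; exact ha
      · rw [IC4.upd_ne f a _ hza] at hz
        exact absurd rfl hz

end XSP7

open XSP7 in
theorem prf_SP7 : SP7 := by
  intro d V _ G hd w m
  induction m with
  | zero =>
    intro f y hf hy h1 h2 h3
    by_cases hex : ∃ z, Near G 4 w z ∧ z ≠ y ∧ f z = none
    · left
      obtain ⟨z, hz1, hz2, hz3⟩ := hex
      have h1' : Near G 4 w y := h1
      have hwalk := (reach' (G := G) (w := w) 4 4 le_rfl y h1').trans
        (reach (G := G) (w := w) 4 4 le_rfl z hz1)
      obtain ⟨f', g1, g2, g3, g4⟩ := two_holes hd hwalk f h1' hf hy hz3 hz2.symm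
      exact ⟨f', g1, g2, g3, fun z hz => Or.inr (g4 z hz)⟩
    · right
      push Not at hex
      exact ⟨f, y, hf, hy, h1, h2, fun _ => rfl, fun _ _ _ => rfl, fun z hz hzy => hex z hz hzy,
        fun z hz => absurd rfl hz⟩
  | succ m ih =>
    intro f y hf hy h1 h2 h3
    have h1' : ∃ y', Near G (m + 4) w y' ∧ G.Adj y' y := by
      have h1a : Near G ((m + 4) + 1) w y := by
        have : m + 1 + 4 = (m + 4) + 1 := by omega
        rw [this] at h1
        exact h1
      rcases h1a with h | h
      · exfalso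
        apply h2
        have : m + 1 + 3 = m + 4 := by omega
        rw [this]
        exact h
      · exact h
    obtain ⟨y', hy'1, hy'2⟩ := h1'
    have hy4 : ¬ Near G (m + 4) w y := by
      have : m + 1 + 3 = m + 4 := by omega
      rw [this] at h2
      exact h2
    have h3' : ∀ z, Near G (m + 4) w z → f z ≠ none := by
      have : m + 1 + 3 = m + 4 := by omega
      rw [this] at h3
      exact h3
    have hy'3 : ¬ Near G (m + 3) w y' := fun h => hy4 (near_adj h hy'2)
    have hne : y' ≠ y := fun h => hy4 (h ▸ hy'1)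
    have hfy' : f y' ≠ none := h3' y' hy'1
    by_cases hsee : ∀ c, Sees G f y c
    · have hm := move hd hf hy hsee hy'2.symm
      have hcnt : ∀ o, cnt (fun u => f (Equiv.swap y y' u)) o = cnt f o :=
        fun o => cnt_perm f (Equiv.swap y y') o
      have e1 : f (Equiv.swap y y' y') = none := by rw [Equiv.swap_apply_right, hy]
      have e2 : ∀ z, z ≠ y → z ≠ y' → f (Equiv.swap y y' z) = f z := fun z g1 g2 => by
        rw [Equiv.swap_apply_of_ne_of_ne g1 g2]
      have e3 : ∀ z, Near G (m + 4) w z → z ≠ y' → f (Equiv.swap y y' z) = f z := by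
        intro z hz hzy'
        exact e2 z (fun h => hy4 (h ▸ hz)) hzy'
      rcases Nat.eq_zero_or_pos m with hm0 | hm0
      · subst hm0
        right
        refine ⟨fun u => f (Equiv.swap y y' u), y', hm, e1, hy'1, hy'3, hcnt, ?_, ?_, ?_⟩
        · intro z hz hzy'
          exact e3 z hz hzy'
        · intro z hz hzy'
          show f (Equiv.swap y y' z) ≠ none
          rw [e3 z hz hzy']
          exact h3' z hz
        · intro z hz
          by_cases hzy : z = y
          · left
            exact ⟨0, by omega, hzy.symm⟩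
          · by_cases hzy' : z = y'
            · exact Or.inr hzy'
            · exact absurd (e2 z hzy hzy') hz
      · have hin : ∀ z, Near G (m + 3) w z → f (Equiv.swap y y' z) = f z := by
          intro z hz
          exact e3 z (near_mono (by omega) hz) (fun h => hy'3 (h ▸ hz))
        have hchg : ∀ (f' : V → Option (Fin d)) z, f' z ≠ f z →
            (f' z ≠ f (Equiv.swap y y' z)) ∨ ∃ s, s < m + 1 ∧ Near G s y z := by
          intro f' z hz
          by_cases hzy : z = y
          · exact Or.inr ⟨0, by omega, hzy.symm⟩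
          · by_cases hzy' : z = y'
            · right
              refine ⟨1, by omega, ?_⟩
              rw [hzy']
              exact near_of_adj hy'2.symm
            · left
              rw [e2 z hzy hzy']
              exact hz
        have hlift : ∀ z, (∃ s, s < m ∧ Near G s y' z) → ∃ s, s < m + 1 ∧ Near G s y z := by
          rintro z ⟨s, hs, hsz⟩
          exact ⟨1 + s, by omega, near_trans (near_of_adj hy'2.symm) hsz⟩
        rcases ih (fun u => f (Equiv.swap y y' u)) y' hm e1 hy'1 hy'3 (by
          intro z hz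
          show f (Equiv.swap y y' z) ≠ none
          rw [hin z hz]
          exact h3' z (near_mono (by omega) hz)) with
          ⟨f', g1, g2, g3, g4⟩ | ⟨f', u, g1, g2, g3, g4, g5, g6, g7, g8⟩
        · left
          simp only [hcnt] at g2 g3
          refine ⟨f', g1, g2, g3, ?_⟩
          intro z hz
          rcases hchg f' z hz with h | h
          · rcases g4 z h with h' | h'
            · exact Or.inl (hlift z h')
            · exact Or.inr h'
          · exact Or.inl h
        · right
          simp only [hcnt] at g5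
          refine ⟨f', u, g1, g2, g3, g4, g5, ?_, g7, ?_⟩
          · intro z hz hzu
            rw [g6 z hz hzu]
            exact hin z (near_mono (by omega) hz)
          · intro z hz
            rcases hchg f' z hz with h | h
            · rcases g8 z h with h' | h'
              · exact Or.inl (hlift z h')
              · exact Or.inr h'
            · exact Or.inl h
    · push Not at hsee
      obtain ⟨c, hc⟩ := hsee
      obtain ⟨g1, g2⟩ := fill_cnt hy c
      left
      refine ⟨IC4.upd f y (some c), fill hf hc, g1, g2, ?_⟩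
      intro z hz
      by_cases hzy : z = y
      · exact Or.inl ⟨0, by omega, hzy.symm⟩
      · rw [IC4.upd_ne f y _ hzy] at hz
        exact absurd rfl hz

end

end Pool.Agent.Work.MP_47f387_co.Five

end

section

/-!
# MP_47f387_co, maximum degree 5: filling one hole (SP8)
-/

namespace Pool.Agent.Work.MP_47f387_co.Five

open Finset Classical Large

noncomputable section

namespace XSP8

variable {V : Type} [Fintype V] {d : ℕ} {G : SimpleGraph V}

/-- two colourings which agree outside a ball of radius 4 -/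
lemma cnt_le (hd : BD d G) (w : V) (g h : V → Option (Fin d))
    (hgh : ∀ v, ¬ Near G 4 w v → g v = h v) (o : Option (Fin d)) :
    cnt g o ≤ cnt h o + (d + 1) ^ 4 := by
  unfold cnt
  have hsub : univ.filter (fun v => g v = o) ⊆
      univ.filter (fun v => h v = o) ∪ univ.filter (fun v => Near G 4 w v) := by
    intro v hv
    rw [mem_filter] at hv
    rw [mem_union, mem_filter, mem_filter]
    by_cases hn : Near G 4 w v
    · exact Or.inr ⟨mem_univ _, hn⟩
    · exact Or.inl ⟨mem_univ _, (hgh v hn).symm.trans hv.2⟩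
  exact (card_le_card hsub).trans ((card_union_le _ _).trans
    (Nat.add_le_add_left (near_card hd 4 w) _))

/-- the number of holes -/
lemma cnt_none (w u : V) (g h : V → Option (Fin d)) (hgh : ∀ v, ¬ Near G 4 w v → g v = h v)
    (hu : h u = none) (hnu : Near G 4 w u) (hg : ∀ v, Near G 4 w v → g v ≠ none)
    (hh : ∀ v, Near G 4 w v → v ≠ u → h v ≠ none) : cnt g none + 1 = cnt h none := by
  unfold cnt
  have heq : univ.filter (fun v => h v = none) =
      insert u (univ.filter (fun v => g v = none)) := by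
    ext v
    rw [mem_filter, mem_insert, mem_filter]
    constructor
    · rintro ⟨-, hv⟩
      by_cases hn : Near G 4 w v
      · left
        by_contra hne
        exact hh v hn hne hv
      · exact Or.inr ⟨mem_univ _, (hgh v hn).trans hv⟩
    · rintro (rfl | ⟨-, hv⟩)
      · exact ⟨mem_univ _, hu⟩
      · refine ⟨mem_univ _, ?_⟩
        by_cases hn : Near G 4 w v
        · exact absurd hv (hg v hn)
        · exact (hgh v hn).symm.trans hv
  rw [heq, card_insert_of_notMem]
  intro hmem
  rw [mem_filter] at hmem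
  exact hg u hnu hmem.2

end XSP8

open XSP8 in
theorem prf_SP8 (h6 : SP6) (h7 : SP7) : SP8 := by
  intro d V _ G f W a b hG hd hf hPS hW hcnt
  have hx0 : ∃ x, f x = none := by
    by_contra h
    have h0 : cnt f none = 0 := by
      unfold cnt
      rw [card_eq_zero, filter_eq_empty_iff]
      intro v _ hv
      exact h ⟨v, hv⟩
    omega
  obtain ⟨x0, hx0⟩ := hx0
  obtain ⟨w0, hw0⟩ := hW
  have hex : ∃ r, ∃ x w, f x = none ∧ w ∈ W ∧ Near G r w x := by
    obtain ⟨r, hr⟩ := IC4.exists_near hG w0 x0
    exact ⟨r, x0, w0, hx0, hw0, hr⟩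
  obtain ⟨x, w, hx, hw, hr⟩ := Nat.find_spec hex
  have hmin : ∀ s z w', s < Nat.find hex → f z = none → w' ∈ W → ¬ Near G s w' z :=
    fun s z w' hs hz hw' hn => Nat.find_min hex hs ⟨z, w', hz, hw', hn⟩
  set r := Nat.find hex with hrdef
  have hr5 : 5 ≤ r := by
    by_contra hlt
    have h1 : Near G 4 w x := near_mono (by omega) hr
    exact (hPS.1 w hw).1 x h1 hx
  obtain ⟨m, hm, hm1⟩ : ∃ m, r = m + 4 ∧ 1 ≤ m := ⟨r - 4, by omega, by omega⟩
  rw [hm] at hr hmin
  have key1 : ∀ w' ∈ W, ∀ z, (∃ s, s < m ∧ Near G s x z) → ¬ Near G 4 w' z := by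
    rintro w' hw' z ⟨s, hs, hsz⟩ hz
    exact hmin (4 + s) x w' (by omega) hx hw' (near_trans hz (near_symm hsz))
  have key2 : ∀ w' ∈ W.erase w, ∀ z, Near G 4 w z → ¬ Near G 4 w' z := by
    intro w' hw' z hz hz'
    rw [mem_erase] at hw'
    exact hPS.2 w hw w' hw'.2 (Ne.symm hw'.1)
      (near_mono (by norm_num) (near_trans hz (near_symm hz')))
  have hPS' : ∀ f' : V → Option (Fin d), Proper G f' →
      (∀ z, f' z ≠ f z → (∃ s, s < m ∧ Near G s x z) ∨ Near G 4 w z) →
      PS G f' (W.erase w) a b := by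
    intro f' hf' hch
    refine ⟨?_, ?_⟩
    · intro w' hw'
      refine h6 d V G f f' (a w') (b w') w' hf' ?_ (hPS.1 w' (mem_of_mem_erase hw'))
      intro z hz
      by_contra hne
      rcases hch z hne with h | h
      · exact key1 w' (mem_of_mem_erase hw') z h hz
      · exact key2 w' hw' z h hz
    · intro w' hw' w'' hw'' hne
      exact hPS.2 w' (mem_of_mem_erase hw') w'' (mem_of_mem_erase hw'') hne
  have hcard : W.card ≤ (W.erase w).card + 1 := by
    rw [card_erase_of_mem hw]
    omega
  have hpos : 1 ≤ (d + 1) ^ 4 := Nat.one_le_pow _ _ (by omega)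
  rcases h7 d V G hd w m f x hf hx hr (hmin (m + 3) x w (by omega) hx hw)
    (fun z hz hfz => hmin (m + 3) z w (by omega) hfz hw hz) with
    ⟨f', hf', hn, hc, hch⟩ | ⟨f1, u, hf1, hu, hnu, hnu3, hc, hag, hcol, hch⟩
  · refine ⟨f', W.erase w, hf', erase_subset _ _, hcard, hPS' f' hf' hch, hn, ?_⟩
    intro c
    have h1 := (hc c).1
    have h2 := (hc c).2
    exact ⟨by omega, by omega⟩
  · obtain ⟨g, hg, hgo, hgn⟩ := (hPS.1 w hw).2.2 f1 u hf1 hnu hnu3 hu hag
    refine ⟨g, W.erase w, hg, erase_subset _ _, hcard, hPS' g hg ?_, ?_, ?_⟩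
    · intro z hz
      by_cases hn : Near G 4 w z
      · exact Or.inr hn
      · rw [hgo z hn] at hz
        rcases hch z hz with h | rfl
        · exact Or.inl h
        · exact absurd hnu hn
    · rw [← hc none]
      exact cnt_none w u g f1 hgo hu hnu hgn hcol
    · intro c
      rw [← hc (some c)]
      exact ⟨cnt_le hd w f1 g (fun v hv => (hgo v hv).symm) _, cnt_le hd w g f1 hgo _⟩

end

end Pool.Agent.Work.MP_47f387_co.Five

end

section

/-!
# MP_47f387_co, maximum degree 5, item SP9: filling all holes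
-/

namespace Pool.Agent.Work.MP_47f387_co.Five

open Finset Classical Large

noncomputable section

theorem prf_SP9 (h8 : SP8) : SP9 := by
  intro d V _ G f W a b hG hd hf hS hlt
  suffices H : ∀ (h : ℕ) (f : V → Option (Fin d)) (W : Finset V), Proper G f →
      PS G f W a b → cnt f none = h → h < W.card →
      ∃ (f' : V → Option (Fin d)) (W' : Finset V), Proper G f' ∧ W' ⊆ W ∧
        W.card ≤ W'.card + h ∧ PS G f' W' a b ∧ cnt f' none = 0 ∧
        ∀ c, cnt f (some c) ≤ cnt f' (some c) + (d + 1) ^ 4 * h ∧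
          cnt f' (some c) ≤ cnt f (some c) + (d + 1) ^ 4 * h by
    exact H _ f W hf hS rfl hlt
  intro h
  induction h with
  | zero =>
    intro f W hf hS h0 _
    exact ⟨f, W, hf, Subset.refl _, by omega, hS, h0, fun c => ⟨by omega, by omega⟩⟩
  | succ h ih =>
    intro f W hf hS h0 hlt
    have hne : W.Nonempty := Finset.card_pos.1 (by omega)
    obtain ⟨f1, W1, hf1, hW1, hc1, hS1, hn1, hb1⟩ :=
      h8 d V G f W a b hG hd hf hS hne (by omega)
    obtain ⟨f2, W2, hf2, hW2, hc2, hS2, hn2, hb2⟩ :=
      ih f1 W1 hf1 hS1 (by omega) (by omega)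
    refine ⟨f2, W2, hf2, hW2.trans hW1, by omega, hS2, hn2, fun c => ?_⟩
    have h1 := hb1 c
    have h2 := hb2 c
    have e : (d + 1) ^ 4 * (h + 1) = (d + 1) ^ 4 * h + (d + 1) ^ 4 := by ring
    rw [e]
    generalize (d + 1) ^ 4 * h = L at h2 ⊢
    generalize (d + 1) ^ 4 = K at h1 ⊢
    omega

end

end Pool.Agent.Work.MP_47f387_co.Five

end

section

/-!
# MP_47f387_co, maximum degree 5: item SP10
-/

namespace Pool.Agent.Work.MP_47f387_co.Five

open Finset Classical Large

noncomputable section

namespace XSP10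

variable {V : Type} [Fintype V] {d : ℕ} {G : SimpleGraph V}

lemma no_hole {f f₁ : V → Option (Fin d)} {w : V} (h0 : cnt f none = 0)
    (h1 : ∀ u, ¬ Near G 3 w u → f₁ u = f u) (h2 : ∀ u, Near G 3 w u → f₁ u ≠ none) :
    cnt f₁ none = 0 := by
  unfold cnt at h0 ⊢
  rw [card_eq_zero, filter_eq_empty_iff] at h0 ⊢
  intro u hu h3
  by_cases hw : Near G 3 w u
  · exact h2 u hw h3
  · exact h0 hu ((h1 u hw).symm.trans h3)

lemma ps_erase (h6 : SP6) {f f₁ : V → Option (Fin d)} {W : Finset V} {a b : V → Fin d} {w : V}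
    (hf₁ : Proper G f₁) (hS : PS G f W a b) (hw : w ∈ W)
    (h1 : ∀ u, ¬ Near G 3 w u → f₁ u = f u) : PS G f₁ (W.erase w) a b := by
  constructor
  · intro w' hw'
    rw [mem_erase] at hw'
    refine h6 d V G f f₁ (a w') (b w') w' hf₁ ?_ (hS.1 w' hw'.2)
    intro u hu
    refine h1 u ?_
    intro hu3
    exact hS.2 w hw w' hw'.2 hw'.1.symm
      (near_mono (by norm_num) (near_trans hu3 (near_symm hu)))
  · intro w₁ h₁ w₂ h₂ hne
    exact hS.2 w₁ (mem_erase.1 h₁).2 w₂ (mem_erase.1 h₂).2 hne

end XSP10

open XSP10 in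
theorem prf_SP10 (h6 : SP6) : SP10 := by
  intro d V _ G f W a b t m
  induction m generalizing f W with
  | zero =>
    intro hf hS h0 ht hm _
    have h1 : ∀ c, cnt f (some c) ≤ t c := by
      intro c
      have h2 : ∑ c, (cnt f (some c) - t c) = 0 := Nat.le_zero.1 hm
      have h3 := (Finset.sum_eq_zero_iff.1 h2) c (mem_univ _)
      omega
    exact ⟨f, hf, h0, IC6.base h0 ht h1⟩
  | succ m ih =>
    intro hf hS h0 ht hm hW
    by_cases hle : ∀ c, cnt f (some c) ≤ t c
    · exact ⟨f, hf, h0, IC6.base h0 ht hle⟩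
    push Not at hle
    obtain ⟨i, hi⟩ := hle
    have hex : ∃ j, cnt f (some j) < t j := by
      by_contra hno
      push Not at hno
      have h1 := IC6.sum_cnt f
      rw [h0, add_zero, ← ht] at h1
      have h2 := (Finset.sum_eq_sum_iff_of_le (fun i (_ : i ∈ univ) => hno i)).1 h1.symm i
        (mem_univ _)
      omega
    obtain ⟨j, hj⟩ := hex
    have hij : i ≠ j := by rintro rfl; omega
    have hpos : 0 < (W.filter (fun w => a w = i ∧ b w = j)).card := by
      have := hW i j hij
      omega
    obtain ⟨w, hw⟩ := card_pos.1 hpos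
    rw [mem_filter] at hw
    obtain ⟨hwW, hwi, hwj⟩ := hw
    obtain ⟨-, ⟨f₁, hf₁, hout, hin, hcnt⟩, -⟩ := hS.1 w hwW
    rw [hwi, hwj] at hcnt
    refine ih f₁ (W.erase w) hf₁ (ps_erase h6 hf₁ hS hwW hout) (no_hole h0 hout hin) ht ?_ ?_
    · have h3 : ∑ c, (cnt f₁ (some c) - t c) < ∑ c, (cnt f (some c) - t c) := by
        apply Finset.sum_lt_sum
        · intro c _
          have hc := hcnt c
          by_cases hci : c = i
          · subst hci
            rw [if_pos rfl, if_neg hij] at hc
            omega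
          · by_cases hcj : c = j
            · subst hcj
              rw [if_neg hci, if_pos rfl] at hc
              omega
            · rw [if_neg hci, if_neg hcj] at hc
              omega
        · refine ⟨i, mem_univ _, ?_⟩
          have hc := hcnt i
          rw [if_pos rfl, if_neg hij] at hc
          omega
      omega
    · intro i' j' hij'
      have h4 := hW i' j' hij'
      have h5 : (W.filter (fun w => a w = i' ∧ b w = j')).card ≤
          ((W.erase w).filter (fun w => a w = i' ∧ b w = j')).card + 1 := by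
        rw [Finset.filter_erase]
        have := Finset.pred_card_le_card_erase (s := W.filter (fun w => a w = i' ∧ b w = j'))
          (a := w)
        omega
      omega

end

end Pool.Agent.Work.MP_47f387_co.Five

end

section

/-!
# MP_47f387_co, maximum degree 5: item SB1

`FX` is local and equivariant.
-/

namespace Pool.Agent.Work.MP_47f387_co.Five

open Finset Classical Large

noncomputable section

namespace XSB1

lemma map_key {d : ℕ} (π : Equiv.Perm (Fin d)) (o : Option (Fin d)) (c : Fin d) :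
    o.map π = some (π c) ↔ o = some c := by
  cases o with
  | none => simp
  | some a => simp

lemma dm_local {V : Type} {d : ℕ} {G : SimpleGraph V} {f g : V → Option (Fin d)} {i j : Fin d}
    {v : V} (hfg : ∀ u, Near G 3 v u → f u = g u) (h : Dm G f i j v) : Dm G g i j v := by
  obtain ⟨p, p', z, hpp, hnpp, hvp, hvp', hvz, hzp, hzp', hfv, hfp, hfp', h1, h2, h3⟩ := h
  have nv : Near G 0 v v := rfl
  have np : Near G 1 v p := near_of_adj hvp
  have np' : Near G 1 v p' := near_of_adj hvp'
  refine ⟨p, p', z, hpp, hnpp, hvp, hvp', hvz, hzp, hzp', ?_, ?_, ?_, ?_, ?_, ?_⟩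
  · rw [← hfg v (near_refl 3 v)]; exact hfv
  · rw [← hfg p (near_mono (by norm_num) np)]; exact hfp
  · rw [← hfg p' (near_mono (by norm_num) np')]; exact hfp'
  · intro u hu hgu
    exact h1 u hu (by rw [hfg u (near_mono (by norm_num) (near_of_adj hu))]; exact hgu)
  · intro u hu hgu
    exact h2 u hu (by rw [hfg u (near_mono (by norm_num) (near_adj np hu))]; exact hgu)
  · intro u hu hgu
    exact h3 u hu (by rw [hfg u (near_mono (by norm_num) (near_adj np' hu))]; exact hgu)

lemma dm_eqv {V : Type} {d : ℕ} {G : SimpleGraph V} {f : V → Option (Fin d)}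
    (π : Equiv.Perm (Fin d)) {i j : Fin d} {v : V} (h : Dm G f i j v) :
    Dm G (fun u => (f u).map π) (π i) (π j) v := by
  obtain ⟨p, p', z, hpp, hnpp, hvp, hvp', hvz, hzp, hzp', hfv, hfp, hfp', h1, h2, h3⟩ := h
  exact ⟨p, p', z, hpp, hnpp, hvp, hvp', hvz, hzp, hzp', (map_key π _ _).2 hfv,
    (map_key π _ _).2 hfp, (map_key π _ _).2 hfp', fun u hu hgu => h1 u hu ((map_key π _ _).1 hgu),
    fun u hu hgu => h2 u hu ((map_key π _ _).1 hgu),
    fun u hu hgu => h3 u hu ((map_key π _ _).1 hgu)⟩

end XSB1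

theorem prf_SB1 : SB1 := by
  intro d V G
  refine ⟨?_, ?_, ?_⟩
  · intro f g i j v hfg h
    rcases h with h | h
    · exact Or.inl ((prfB5 d V G).1 f g i j v hfg h)
    · exact Or.inr (XSB1.dm_local hfg h)
  · intro f π i j v h
    rcases h with h | h
    · exact Or.inl ((prfB5 d V G).2 f π i j v h)
    · exact Or.inr (XSB1.dm_eqv π h)
  · intro f hf i v h
    rcases h with h | h
    · obtain ⟨e, -, -, w, -, -, hne, -⟩ := h
      exact hne rfl
    · obtain ⟨p, p', z, -, -, hvp, -, -, -, -, hfv, hfp, -⟩ := h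
      exact hf v p i hvp hfv hfp

end

end Pool.Agent.Work.MP_47f387_co.Five

end

section

/-!
# MP_47f387_co, maximum degree 5: item SB2 (a good colouring)
-/

namespace Pool.Agent.Work.MP_47f387_co.Five

open Finset Classical Large

noncomputable section

namespace XSB2

lemma sq_step {x y e m : ℝ} (hx : (x - e) ^ 2 ≤ m) (hy : (y - e) ^ 2 ≤ m) :
    (x - y) ^ 2 ≤ 4 * m := by
  nlinarith [sq_nonneg ((x - e) + (y - e))]

lemma low_step {x e m : ℝ} (hx : (x - e) ^ 2 ≤ m) : e ≤ x + Real.sqrt m := by
  have h1 : |x - e| ≤ Real.sqrt m := Real.abs_le_sqrt hx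
  have h2 := (abs_le.1 h1).1
  linarith

/-- the averages are at least the average of the sum -/
lemma avg_low {Ω : Type} [Fintype Ω] (d : ℕ) (hd : 1 ≤ d) (c : Fin d → Fin d → Ω → ℝ)
    (T A : ℝ) (hT : T = (Fintype.card Ω : ℝ)) (hT0 : 0 < T)
    (hc : ∀ i j τ, 0 ≤ c i j τ) (hii : ∀ i τ, c i i τ = 0)
    (heq : ∀ i j i' j', i ≠ j → i' ≠ j' → ∑ τ, c i j τ = ∑ τ, c i' j' τ)
    (hA : ∀ τ, A ≤ ∑ i, ∑ j, c i j τ) (i j : Fin d) (hij : i ≠ j) :
    A / (d : ℝ) ^ 2 ≤ (∑ τ, c i j τ) / T := by
  have hle : ∀ i' j', ∑ τ, c i' j' τ ≤ ∑ τ, c i j τ := by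
    intro i' j'
    by_cases hij' : i' = j'
    · subst hij'
      rw [Finset.sum_eq_zero (fun τ _ => hii i' τ)]
      exact Finset.sum_nonneg (fun τ _ => hc i j τ)
    · exact (heq i' j' i j hij' hij).le
  have hsum : A * T ≤ ∑ i', ∑ j', ∑ τ, c i' j' τ := by
    have e1 : ∑ i', ∑ j', ∑ τ, c i' j' τ = ∑ τ, ∑ i', ∑ j', c i' j' τ := by
      calc ∑ i', ∑ j', ∑ τ, c i' j' τ = ∑ i', ∑ τ, ∑ j', c i' j' τ :=
            Finset.sum_congr rfl (fun i' _ => Finset.sum_comm)
        _ = ∑ τ, ∑ i', ∑ j', c i' j' τ := Finset.sum_comm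
    rw [e1]
    calc A * T = ∑ _τ : Ω, A := by
          rw [Finset.sum_const, Finset.card_univ, nsmul_eq_mul, mul_comm, hT]
      _ ≤ _ := Finset.sum_le_sum (fun τ _ => hA τ)
  have hd2 : (0 : ℝ) < (d : ℝ) ^ 2 := by positivity
  rw [div_le_div_iff₀ hd2 hT0]
  refine hsum.trans ?_
  calc ∑ i', ∑ j', ∑ τ, c i' j' τ ≤ ∑ _i' : Fin d, ∑ _j' : Fin d, ∑ τ, c i j τ :=
        Finset.sum_le_sum (fun i' _ => Finset.sum_le_sum (fun j' _ => hle i' j'))
    _ = (∑ τ, c i j τ) * (d : ℝ) ^ 2 := by
        rw [Finset.sum_const, Finset.sum_const, Finset.card_univ, Fintype.card_fin,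
          nsmul_eq_mul, nsmul_eq_mul]
        ring

/-- the events -/
def PP {V : Type} {d : ℕ} (Φ : (V → Option (Fin d)) → Fin d → Fin d → V → Prop)
    (F : (V → Equiv.Perm (Fin d)) → V → Option (Fin d)) :
    Fin d ⊕ (Fin d × Fin d) → V → (V → Equiv.Perm (Fin d)) → Prop
  | Sum.inl c, v, σ => F σ v = some c
  | Sum.inr p, v, σ => Φ (F σ) p.1 p.2 v

lemma PP_inl {V : Type} [Fintype V] {d : ℕ}
    (Φ : (V → Option (Fin d)) → Fin d → Fin d → V → Prop)
    (F : (V → Equiv.Perm (Fin d)) → V → Option (Fin d)) (c : Fin d)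
    (σ : V → Equiv.Perm (Fin d)) :
    (univ.filter (fun v => PP Φ F (Sum.inl c) v σ)).card = cnt (F σ) (some c) := by
  unfold cnt
  congr 1
  ext v
  rw [mem_filter, mem_filter]
  exact Iff.rfl

lemma PP_inr {V : Type} [Fintype V] {d : ℕ}
    (Φ : (V → Option (Fin d)) → Fin d → Fin d → V → Prop)
    (F : (V → Equiv.Perm (Fin d)) → V → Option (Fin d)) (p : Fin d × Fin d)
    (σ : V → Equiv.Perm (Fin d)) :
    (univ.filter (fun v => PP Φ F (Sum.inr p) v σ)).card =
      (univ.filter (fun v => Φ (F σ) p.1 p.2 v)).card := by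
  congr 1

lemma second {V : Type} [Fintype V] {d K D : ℕ} (h4 : B4)
    (G : SimpleGraph V) (Φ : (V → Option (Fin d)) → Fin d → Fin d → V → Prop)
    (h5 : Loc3 G Φ)
    (F : (V → Equiv.Perm (Fin d)) → V → Option (Fin d)) (hBD : BD d G)
    (hloc : ∀ σ τ v, (∀ u, Near G K v u → σ u = τ u) → F σ v = F τ v)
    (hD : D = (d + 1) ^ ((K + 3) + (K + 3))) :
    ∃ σ : V → Equiv.Perm (Fin d), ∀ k : Fin d ⊕ (Fin d × Fin d),
      (((univ.filter (fun v => PP Φ F k v σ)).card : ℝ) -
        (∑ τ : V → Equiv.Perm (Fin d), ((univ.filter (fun v => PP Φ F k v τ)).card : ℝ)) /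
          (Fintype.card (V → Equiv.Perm (Fin d)) : ℝ)) ^ 2 ≤
        (((d + d * d) * D : ℕ) : ℝ) * (Fintype.card V : ℝ) := by
  have hU : ∀ v v' : V, ¬ Disjoint (univ.filter (fun u => Near G (K + 3) v u))
      (univ.filter (fun u => Near G (K + 3) v' u)) → Near G ((K + 3) + (K + 3)) v v' := by
    intro v v' h
    rw [Finset.not_disjoint_iff] at h
    obtain ⟨a, ha, hb⟩ := h
    rw [mem_filter] at ha hb
    exact near_trans ha.2 (near_symm hb.2)
  obtain ⟨σ, hσ⟩ := h4 V (Equiv.Perm (Fin d)) (Fin d ⊕ (Fin d × Fin d)) (PP Φ F)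
    (fun v => univ.filter (fun u => Near G (K + 3) v u)) D
    (by
      intro k v σ τ hst hP
      have hst' : ∀ u, Near G (K + 3) v u → σ u = τ u :=
        fun u hu => hst u (by rw [mem_filter]; exact ⟨mem_univ _, hu⟩)
      rcases k with c | p
      · change F τ v = some c
        have h1 : F σ v = F τ v := hloc σ τ v (fun u hu => hst' u (near_mono (by omega) hu))
        rw [← h1]
        exact hP
      · change Φ (F τ) p.1 p.2 v
        refine h5 (F σ) (F τ) p.1 p.2 v ?_ hP
        intro u hu
        refine hloc σ τ u (fun w hw => hst' w ?_)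
        exact near_mono (by omega) (near_trans hu hw))
    (by
      intro v
      rw [hD]
      refine (card_le_card ?_).trans (near_card hBD ((K + 3) + (K + 3)) v)
      intro v' hv'
      rw [mem_filter] at hv' ⊢
      exact ⟨mem_univ _, hU v v' hv'.2⟩)
  refine ⟨σ, fun k => (hσ k).trans (le_of_eq ?_)⟩
  rw [Fintype.card_sum, Fintype.card_prod, Fintype.card_fin]
  push_cast
  ring

/-- equal averages -/
lemma avg_eq {V : Type} [Fintype V] {d : ℕ}
    (Φ : (V → Option (Fin d)) → Fin d → Fin d → V → Prop) (hE : Eqv Φ)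
    (F : (V → Equiv.Perm (Fin d)) → V → Option (Fin d))
    (hF : ∀ (π : Equiv.Perm (Fin d)) σ v, F (fun u => π * σ u) v = (F σ v).map π) :
    (∀ c c' : Fin d, ∑ σ : V → Equiv.Perm (Fin d), cnt (F σ) (some c) =
      ∑ σ : V → Equiv.Perm (Fin d), cnt (F σ) (some c')) ∧
    (∀ i j i' j' : Fin d, i ≠ j → i' ≠ j' →
      ∑ σ : V → Equiv.Perm (Fin d), (univ.filter (fun v => Φ (F σ) i j v)).card =
      ∑ σ : V → Equiv.Perm (Fin d), (univ.filter (fun v => Φ (F σ) i' j' v)).card) := by
  have hbij : ∀ π : Equiv.Perm (Fin d), Function.Bijective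
      (fun (σ : V → Equiv.Perm (Fin d)) => (fun u => π * σ u : V → Equiv.Perm (Fin d))) := by
    intro π
    constructor
    · intro σ τ h
      funext u
      have := congrFun h u
      exact mul_left_cancel this
    · intro τ
      refine ⟨fun u => π⁻¹ * τ u, ?_⟩
      funext u
      simp
  constructor
  · intro c c'
    have h1 : ∀ σ, cnt (F σ) (some c) = cnt (F (fun u => Equiv.swap c c' * σ u)) (some c') := by
      intro σ
      unfold cnt
      congr 1
      ext v
      simp only [mem_filter, mem_univ, true_and]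
      rw [hF]
      cases hv : F σ v with
      | none => simp
      | some a =>
        simp only [Option.map_some, Option.some.injEq]
        constructor
        · rintro rfl; simp
        · intro h
          have : Equiv.swap c c' a = Equiv.swap c c' c := by rw [h]; simp
          exact (Equiv.swap c c').injective this
    calc ∑ σ : V → Equiv.Perm (Fin d), cnt (F σ) (some c)
        = ∑ σ : V → Equiv.Perm (Fin d), cnt (F (fun u => Equiv.swap c c' * σ u)) (some c') :=
          Finset.sum_congr rfl (fun σ _ => h1 σ)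
      _ = _ := Fintype.sum_bijective _ (hbij (Equiv.swap c c')) _ _ (fun σ => rfl)
  · have hle : ∀ i j i' j' : Fin d, i ≠ j → i' ≠ j' →
      ∑ σ : V → Equiv.Perm (Fin d), (univ.filter (fun v => Φ (F σ) i j v)).card ≤
      ∑ σ : V → Equiv.Perm (Fin d), (univ.filter (fun v => Φ (F σ) i' j' v)).card := by
      intro i j i' j' hij hij'
      obtain ⟨π, hπi, hπj⟩ : ∃ π : Equiv.Perm (Fin d), π i = i' ∧ π j = j' := by
        refine ⟨Equiv.swap (Equiv.swap i i' j) j' * Equiv.swap i i', ?_, ?_⟩
        · rw [Equiv.Perm.mul_apply, Equiv.swap_apply_left]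
          refine Equiv.swap_apply_of_ne_of_ne ?_ hij'
          intro h
          apply hij
          have : Equiv.swap i i' i = Equiv.swap i i' j := by rw [← h]; simp
          exact (Equiv.swap i i').injective this
        · rw [Equiv.Perm.mul_apply, Equiv.swap_apply_left]
      calc ∑ σ : V → Equiv.Perm (Fin d), (univ.filter (fun v => Φ (F σ) i j v)).card
          ≤ ∑ σ : V → Equiv.Perm (Fin d),
            (univ.filter (fun v => Φ (F (fun u => π * σ u)) i' j' v)).card := by
            apply Finset.sum_le_sum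
            intro σ _
            apply card_le_card
            intro v hv
            simp only [mem_filter, mem_univ, true_and] at hv ⊢
            have h := hE (F σ) π i j v hv
            rw [hπi, hπj] at h
            have he : (fun u => (F σ u).map π) = F (fun u => π * σ u) := by
              funext u; rw [hF]
            rw [he] at h
            exact h
        _ = _ := Fintype.sum_bijective _ (hbij π) _ _ (fun σ => rfl)
    intro i j i' j' hij hij'
    exact le_antisymm (hle i j i' j' hij hij') (hle i' j' i j hij' hij)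

end XSB2

open XSB2 in
theorem prf_SB2 : SB2 := by
  intro d K hd V _ G Φ F hBD hL hE hirr heq hloc A hA
  obtain ⟨D, hD⟩ : ∃ D : ℕ, D = (d + 1) ^ ((K + 3) + (K + 3)) := ⟨_, rfl⟩
  obtain ⟨σ, hσ⟩ := second prfB4 G Φ hL F hBD hloc hD
  unfold kM
  rw [← hD]
  have hT : (0 : ℝ) < (Fintype.card (V → Equiv.Perm (Fin d)) : ℝ) :=
    Nat.cast_pos.2 Fintype.card_pos
  obtain ⟨T, hTdef⟩ : ∃ T : ℝ, T = (Fintype.card (V → Equiv.Perm (Fin d)) : ℝ) := ⟨_, rfl⟩
  rw [← hTdef] at hσ hT
  obtain ⟨m, hm⟩ : ∃ m : ℝ, m = (((d + d * d) * D : ℕ) : ℝ) * (Fintype.card V : ℝ) := ⟨_, rfl⟩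
  rw [← hm] at hσ
  have hm4 : (4 : ℝ) * m = ((4 * ((d + d * d) * D) : ℕ) : ℝ) * (Fintype.card V : ℝ) := by
    rw [hm]; push_cast; ring
  have hm0 : 0 ≤ m := by
    rw [hm]
    exact mul_nonneg (Nat.cast_nonneg _) (Nat.cast_nonneg _)
  obtain ⟨h61, h62⟩ := avg_eq Φ hE F heq
  refine ⟨σ, ?_, ?_⟩
  · intro c c'
    have h1 := hσ (Sum.inl c)
    have h2 := hσ (Sum.inl c')
    simp_rw [PP_inl] at h1 h2
    have h3 : (∑ τ : V → Equiv.Perm (Fin d), ((cnt (F τ) (some c) : ℕ) : ℝ)) =
        ∑ τ : V → Equiv.Perm (Fin d), ((cnt (F τ) (some c') : ℕ) : ℝ) := by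
      rw [← Nat.cast_sum, ← Nat.cast_sum, h61 c c']
    rw [h3] at h1
    exact (sq_step h1 h2).trans hm4.le
  · intro i j hij
    have h1 := low_step (hσ (Sum.inr (i, j)))
    simp_rw [PP_inr] at h1
    have h2 := avg_low d hd (fun i' j' (τ : V → Equiv.Perm (Fin d)) =>
      ((univ.filter (fun v => Φ (F τ) i' j' v)).card : ℝ)) T (A : ℝ) hTdef hT
      (fun i' j' τ => Nat.cast_nonneg _)
      (fun i' τ => by
        rw [Nat.cast_eq_zero, Finset.card_eq_zero, Finset.filter_eq_empty_iff]
        intro v _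
        exact hirr τ i' v)
      (fun i₁ j₁ i₂ j₂ h₁ h₂ => by
        rw [← Nat.cast_sum, ← Nat.cast_sum, h62 i₁ j₁ i₂ j₂ h₁ h₂])
      (fun τ => by exact_mod_cast hA τ) i j hij
    refine h2.trans (h1.trans ?_)
    have h3 : Real.sqrt m ≤
        Real.sqrt (((4 * ((d + d * d) * D) : ℕ) : ℝ) * (Fintype.card V : ℝ)) := by
      apply Real.sqrt_le_sqrt
      rw [← hm4]
      linarith
    linarith

end

end Pool.Agent.Work.MP_47f387_co.Five

end

section

/-!
# MP_47f387_co, block FIVE, item SB3: the conclusion of the probabilistic part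
-/

namespace Pool.Agent.Work.MP_47f387_co.Five

open Finset Classical Large

noncomputable section

namespace XSB3

lemma notGood5_card {V : Type} [Fintype V] {G : SimpleGraph V} (hd : BD 5 G)
    (hCF : G.CliqueFree 5) (Z : Finset V) (f : V → Option (Fin 5))
    (hf : ∀ v, v ∉ Z → f v ≠ none) :
    (univ.filter (fun v => ¬ Good5 G f v)).card ≤ Z.card * 6 ^ 3 +
      (∑ i : Fin 5, ∑ j : Fin 5, (univ.filter (fun v => FX G f i j v)).card) := by
  have hsub : (univ.filter (fun v => ¬ Good5 G f v)) ⊆
      ((Z.biUnion (fun z => univ.filter (fun u => Near G 3 z u))) ∪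
      ((univ : Finset (Fin 5)).biUnion (fun i => (univ : Finset (Fin 5)).biUnion
        (fun j => univ.filter (fun v => FX G f i j v))))) := by
    intro v hv
    rw [mem_filter] at hv
    have hv2 := hv.2
    unfold Good5 Good at hv2
    rw [mem_union]
    by_cases h1 : ∀ u, Near G 3 v u → f u ≠ none
    · right
      have hK : ¬ InK 5 G v := by
        rintro ⟨s, _, hs⟩
        exact hCF s hs
      by_cases h2 : ∀ i j, ¬ Flex G f i j v
      · have h3 : ¬ ∀ i j, ¬ Dm G f i j v := fun h3 => hv2 ⟨⟨h1, h2, hK⟩, h3⟩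
        push Not at h3
        obtain ⟨i, j, hij⟩ := h3
        rw [mem_biUnion]
        refine ⟨i, mem_univ _, ?_⟩
        rw [mem_biUnion]
        refine ⟨j, mem_univ _, ?_⟩
        rw [mem_filter]
        exact ⟨mem_univ _, Or.inr hij⟩
      · push Not at h2
        obtain ⟨i, j, hij⟩ := h2
        rw [mem_biUnion]
        refine ⟨i, mem_univ _, ?_⟩
        rw [mem_biUnion]
        refine ⟨j, mem_univ _, ?_⟩
        rw [mem_filter]
        exact ⟨mem_univ _, Or.inl hij⟩
    · left
      push Not at h1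
      obtain ⟨u, hu, hfu⟩ := h1
      have hz : u ∈ Z := by
        by_contra hz
        exact hf u hz hfu
      rw [mem_biUnion]
      exact ⟨u, hz, by simp [near_symm hu]⟩
  refine (card_le_card hsub).trans ?_
  refine (card_union_le _ _).trans ?_
  refine Nat.add_le_add ?_ ?_
  · apply card_biUnion_le_card_mul
    intro z _
    exact near_card hd 3 z
  · refine card_biUnion_le.trans ?_
    apply Finset.sum_le_sum
    intro i _
    exact card_biUnion_le

end XSB3

open XSB3 in
theorem prf_SB3 (h14 : SF14) (h1 : SB1) (h2 : SB2) : SB3 := by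
  intro R V _ G hconn hBD hCF hN
  obtain ⟨C0, hC0⟩ : ∃ C0, C0 = k0 := ⟨_, rfl⟩
  obtain ⟨R', hR'⟩ : ∃ R', R' = kR R := ⟨_, rfl⟩
  obtain ⟨M, hMdef⟩ : ∃ M, M = kM 5 ((R' + 1) * 6) := ⟨_, rfl⟩
  have hC0pos : 1 ≤ C0 := by
    rw [hC0]
    unfold k0
    norm_num
  have hR'2 : R' = 2 * R + 8 * C0 * 6 ^ 3 := by
    rw [hR', hC0]
    rfl
  unfold kN at hN
  rw [← hR', ← hMdef, ← hC0] at hN
  unfold k8
  rw [← hC0]
  have h14' : ∀ f : V → Option (Fin 5), Proper G f → Fintype.card V ≤
      C0 * (univ.filter (fun v => ¬ Good5 G f v)).card := by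
    intro f hf
    rw [hC0]
    have hlt : 6 ^ 5 < Fintype.card V := by omega
    exact h14 V G f hconn hBD hCF hf hlt
  clear hC0 hR'
  obtain ⟨Z, hZ1, hZ2⟩ := prfB1 V G R' hconn (by omega)
  obtain ⟨key, hk1, hk2, hk3⟩ := prfB2 5 V G R' Z hBD hZ2
  obtain ⟨F, hF1, hF2, hF3, hF4⟩ := prfB3 5 V G _ Z key hBD hk1 hk2 hk3
  obtain ⟨hloc, heqv, hirr⟩ := h1 5 V G
  set n := Fintype.card V with hn
  have key1 : ∀ σ, n / (2 * C0) ≤ ∑ i : Fin 5, ∑ j : Fin 5,
      (univ.filter (fun v => FX G (F σ) i j v)).card := by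
    intro σ
    have e1 := h14' (F σ) (hF1 σ)
    have e2 := notGood5_card hBD hCF Z (F σ) (hF2 σ)
    set S := ∑ i : Fin 5, ∑ j : Fin 5, (univ.filter (fun v => FX G (F σ) i j v)).card with hS
    have e3 : n ≤ C0 * (Z.card * 6 ^ 3 + S) := e1.trans (Nat.mul_le_mul_left _ e2)
    have e4 : 8 * (C0 * (Z.card * 6 ^ 3)) ≤ 2 * n := by
      calc 8 * (C0 * (Z.card * 6 ^ 3)) = 8 * C0 * 6 ^ 3 * Z.card := by ring
        _ ≤ R' * Z.card := Nat.mul_le_mul_right _ (by omega)
        _ ≤ 2 * n := hZ1
    have e6 : n ≤ 2 * C0 * S := by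
      have : C0 * (Z.card * 6 ^ 3 + S) =
        C0 * (Z.card * 6 ^ 3) + C0 * S := by ring
      have h' : 2 * C0 * S = 2 * (C0 * S) := by ring
      omega
    exact Nat.div_le_of_le_mul e6
  obtain ⟨σ, hσ1, hσ2⟩ := h2 5 ((R' + 1) * 6) (by norm_num) V G (FX G) F hBD hloc heqv
    (fun σ i v => hirr (F σ) (hF1 σ) i v) hF3 hF4 (n / (2 * C0)) key1
  rw [← hMdef] at hσ1 hσ2
  have hnR : ((R : ℝ) ^ 2 * M) ≤ (n : ℝ) := by
    have : R ^ 2 * M ≤ n := by omega
    exact_mod_cast this
  refine ⟨F σ, hF1 σ, ?_, ?_, ?_⟩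
  · have hc : cnt (F σ) none ≤ Z.card := by
      apply card_le_card
      intro v hv
      rw [mem_filter] at hv
      by_contra hz
      exact hF2 σ v hz hv.2
    have h5 : 2 * (R * Z.card) ≤ 2 * n := by
      calc 2 * (R * Z.card) = 2 * R * Z.card := by ring
        _ ≤ R' * Z.card := Nat.mul_le_mul_right _ (by omega)
        _ ≤ 2 * n := hZ1
    have h6 : R * cnt (F σ) none ≤ R * Z.card := Nat.mul_le_mul_left _ hc
    omega
  · intro c c'
    have h5 := IB8.real_sq_le (R := (R : ℝ)) (n := (n : ℝ)) (M := (M : ℝ)) (by positivity)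
      (by positivity) (hσ1 c c') hnR
    have h6 : (R : ℝ) * cnt (F σ) (some c) ≤ R * cnt (F σ) (some c') + n := by
      rw [mul_sub] at h5
      linarith
    exact_mod_cast h6
  · intro i j hij
    have h5 := hσ2 i j hij
    set x : ℝ := ((univ.filter (fun v => FX G (F σ) i j v)).card : ℝ) with hx
    have hC0r : (0 : ℝ) < (C0 : ℝ) := by exact_mod_cast hC0pos
    have h6 : (n : ℝ) / (2 * C0) - 1 ≤ ((n / (2 * C0) : ℕ) : ℝ) := by
      have := Nat.lt_floor_add_one ((n : ℝ) / ((2 * C0 : ℕ) : ℝ))
      rw [Nat.floor_div_eq_div] at this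
      push_cast at this
      push_cast
      linarith
    have h7 : (16 * C0 * (5 : ℝ) ^ 2) * Real.sqrt ((M : ℝ) * n) ≤ n := by
      have h8 : (16 * C0 * (5 : ℝ) ^ 2) ^ 2 * M ≤ (n : ℝ) := by
        have : 256 * C0 ^ 2 * 5 ^ 4 * M ≤ n := by omega
        have h9 : ((256 * C0 ^ 2 * 5 ^ 4 * M : ℕ) : ℝ) ≤ (n : ℝ) := by exact_mod_cast this
        push_cast at h9
        linarith
      apply IB8.real_sq_le (M := (M : ℝ)) (by positivity) (by positivity) _ h8
      rw [Real.sq_sqrt (by positivity)]
    have h8 : (16 * (C0 : ℝ)) ≤ n := by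
      have : 16 * C0 ≤ n := by omega
      exact_mod_cast this
    have h9 : ((n / (2 * C0) : ℕ) : ℝ) ≤ (5 : ℝ) ^ 2 * (x + Real.sqrt ((M : ℝ) * n)) := by
      have hcast : (((5 : ℕ) : ℝ)) ^ 2 = (5 : ℝ) ^ 2 := by norm_num
      rw [hcast, div_le_iff₀ (by norm_num)] at h5
      linarith
    have h10 : 16 * (C0 : ℝ) * ((n : ℝ) / (2 * C0) - 1) = 8 * n - 16 * C0 := by
      field_simp
      ring
    have h11 : 16 * (C0 : ℝ) * ((n : ℝ) / (2 * C0) - 1) ≤
        16 * (C0 : ℝ) * ((5 : ℝ) ^ 2 * (x + Real.sqrt ((M : ℝ) * n))) := by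
      gcongr
      exact h6.trans h9
    have h12 : (n : ℝ) ≤ 16 * C0 * (5 : ℝ) ^ 2 * x := by nlinarith
    have h13 : (n : ℝ) ≤ ((16 * C0 * 5 ^ 2 *
        (univ.filter (fun v => FX G (F σ) i j v)).card : ℕ) : ℝ) := by
      push_cast
      rw [← hx]
      linarith
    exact_mod_cast h13

end

end Pool.Agent.Work.MP_47f387_co.Five

end

section

/-!
# MP_47f387_co, maximum degree 5: item SB4 (many places of each type)
-/

namespace Pool.Agent.Work.MP_47f387_co.Five

open Finset Classical Large

noncomputable section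

namespace XSB4

/-- few vertices are near a hole -/
lemma near_hole {V : Type} [Fintype V] {G : SimpleGraph V} {d : ℕ} (hd : BD d G) (r : ℕ)
    (f : V → Option (Fin d)) :
    (univ.filter (fun v => ∃ u, Near G r v u ∧ f u = none)).card ≤ (d + 1) ^ r * cnt f none := by
  have hsub : univ.filter (fun v => ∃ u, Near G r v u ∧ f u = none) ⊆
      (univ.filter (fun u => f u = none)).biUnion (fun u => univ.filter (fun v => Near G r u v)) := by
    intro v hv
    obtain ⟨u, hu, hfu⟩ := (mem_filter.1 hv).2
    rw [mem_biUnion]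
    exact ⟨u, mem_filter.2 ⟨mem_univ _, hfu⟩, mem_filter.2 ⟨mem_univ _, near_symm hu⟩⟩
  refine (card_le_card hsub).trans ?_
  rw [mul_comm]
  exact card_biUnion_le_card_mul _ _ _ (fun u _ => near_card hd r u)

/-- many places -/
lemma many {V : Type} [Fintype V] {G : SimpleGraph V} {d : ℕ} (hd : BD d G)
    (f : V → Option (Fin d)) (Φ : V → Prop) (C R : ℕ) (hR : 2 * C * (d + 1) ^ 4 ≤ R)
    (hholes : R * cnt f none ≤ Fintype.card V)
    (hflex : Fintype.card V ≤ C * (univ.filter (fun v => Φ v)).card) :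
    Fintype.card V ≤ 2 * C *
      (univ.filter (fun v => Φ v ∧ ∀ u, Near G 4 v u → f u ≠ none)).card := by
  have h1 := near_hole hd 4 f
  have hsub : univ.filter (fun v => Φ v) ⊆
      univ.filter (fun v => Φ v ∧ ∀ u, Near G 4 v u → f u ≠ none) ∪
        univ.filter (fun v => ∃ u, Near G 4 v u ∧ f u = none) := by
    intro v hv
    rw [mem_union]
    by_cases h : ∃ u, Near G 4 v u ∧ f u = none
    · exact Or.inr (mem_filter.2 ⟨mem_univ _, h⟩)
    · refine Or.inl (mem_filter.2 ⟨mem_univ _, (mem_filter.1 hv).2, ?_⟩)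
      intro u hu hfu
      exact h ⟨u, hu, hfu⟩
  have h2 := (card_le_card hsub).trans (card_union_le _ _)
  generalize (univ.filter (fun v => Φ v ∧ ∀ u, Near G 4 v u → f u ≠ none)).card = P at h2 ⊢
  generalize (univ.filter (fun v => ∃ u, Near G 4 v u ∧ f u = none)).card = H at h1 h2
  generalize (univ.filter (fun v => Φ v)).card = T at h2 hflex
  generalize (d + 1) ^ 4 = E at h1 hR
  generalize cnt f none = h at h1 hholes
  generalize Fintype.card V = n at hholes hflex ⊢
  have h3 : 2 * C * E * h ≤ n := (Nat.mul_le_mul_right h hR).trans hholes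
  have h4 : C * T ≤ C * (P + H) := Nat.mul_le_mul_left _ h2
  have h5 : C * H ≤ C * (E * h) := Nat.mul_le_mul_left _ h1
  have h6 : 2 * C * E * h = 2 * (C * (E * h)) := by ring
  have h7 : C * (P + H) = C * P + C * H := by ring
  have h8 : 2 * C * P = 2 * (C * P) := by ring
  omega

theorem core (h1 : SP1) (h5 : SP5) (C0 R : ℕ) (hC0 : 1 ≤ C0) (V : Type) [Fintype V]
    (G : SimpleGraph V) (hBD : BD 5 G) (f : V → Option (Fin 5)) (hP : Proper G f)
    (hR : 2 * C0 * 6 ^ 4 ≤ R) (hholes : R * cnt f none ≤ Fintype.card V)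
    (hflex : ∀ i j : Fin 5, i ≠ j →
      Fintype.card V ≤ C0 * (univ.filter (fun v => FX G f i j v)).card)
    (hn : 4 * C0 * (5 * 5 * 6 ^ 10) ≤ Fintype.card V) :
    ∃ (W : Finset V) (a b : V → Fin 5), PS G f W a b ∧
      ∀ i j : Fin 5, i ≠ j → Fintype.card V ≤
        4 * C0 * (5 * 5 * 6 ^ 10) * (W.filter (fun w => a w = i ∧ b w = j)).card := by
  have hPl : ∀ i j v, FX G f i j v → (∀ u, Near G 4 v u → f u ≠ none) → Pl G f i j v := by
    intro i j v hv hu
    rcases hv with hv | hv
    · exact h1 5 V G f i j v hBD hP hu hv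
    · exact h5 5 V G f i j v (by norm_num) hBD hP hu hv
  have hmany : ∀ i j : Fin 5, i ≠ j → Fintype.card V ≤ 2 * C0 *
      (univ.filter (fun v => FX G f i j v ∧ ∀ u, Near G 4 v u → f u ≠ none)).card :=
    fun i j hij => many hBD f (fun v => FX G f i j v) C0 R hR hholes (hflex i j hij)
  set n := Fintype.card V with hn_def
  obtain ⟨E, hE⟩ : ∃ E : ℕ, E = 6 ^ 10 := ⟨_, rfl⟩
  have hE0 : 0 < E := by rw [hE]; positivity
  rw [← hE] at hn ⊢
  set D : ℕ := 2 * C0 * (5 * 5 * E) with hD
  have hDpos : 0 < D := by positivity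
  have hDD : 4 * C0 * (5 * 5 * E) = 2 * D := by rw [hD]; ring
  rw [hDD] at hn ⊢
  set m : ℕ := n / D with hm
  have hmD : D * m ≤ n := Nat.mul_div_le n D
  have hm1 : 1 ≤ m := (Nat.one_le_div_iff hDpos).2 (by omega)
  have hmD2 : n ≤ 2 * D * m := by
    have q1 : n < D * (m + 1) := Nat.lt_mul_div_succ n hDpos
    nlinarith
  let Q : Type := {q : Fin 5 × Fin 5 × Fin m // q.1 ≠ q.2.1}
  have hQcard : Fintype.card Q ≤ 5 * 5 * m := by
    refine (Fintype.card_subtype_le _).trans (le_of_eq ?_)
    rw [Fintype.card_prod, Fintype.card_prod, Fintype.card_fin, Fintype.card_fin, mul_assoc]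
  obtain ⟨x, hx1, hx2⟩ := prfC1 5 10 V G Q
    (fun q => univ.filter (fun v => FX G f q.1.1 q.1.2.1 v ∧ ∀ u, Near G 4 v u → f u ≠ none))
    hBD (fun q => by
      have q1 := hmany q.1.1 q.1.2.1 q.2
      have hE' : (5 + 1) ^ 10 = E := by rw [hE]
      rw [hE']
      have q2 : Fintype.card Q * E ≤ 5 * 5 * m * E := Nat.mul_le_mul_right _ hQcard
      refine q2.trans ?_
      refine Nat.le_of_mul_le_mul_left ?_ (by omega : 0 < 2 * C0)
      refine le_trans (le_of_eq ?_) (hmD.trans q1)
      rw [hD]
      ring)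
  have hinj : Function.Injective x := by
    intro q q' h
    by_contra hne
    exact hx2 q q' hne (h ▸ near_refl 10 (x q))
  let a : V → Fin 5 := fun v => if h : ∃ q, x q = v then (Classical.choose h).1.1 else 0
  let b : V → Fin 5 := fun v => if h : ∃ q, x q = v then (Classical.choose h).1.2.1 else 0
  have ha : ∀ q, a (x q) = q.1.1 := by
    intro q
    have h : ∃ q', x q' = x q := ⟨q, rfl⟩
    have e : Classical.choose h = q := hinj (Classical.choose_spec h)
    simp only [a]
    rw [dif_pos h, e]
  have hb : ∀ q, b (x q) = q.1.2.1 := by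
    intro q
    have h : ∃ q', x q' = x q := ⟨q, rfl⟩
    have e : Classical.choose h = q := hinj (Classical.choose_spec h)
    simp only [b]
    rw [dif_pos h, e]
  refine ⟨univ.image x, a, b, ⟨?_, ?_⟩, ?_⟩
  · intro v hv
    obtain ⟨q, _, rfl⟩ := mem_image.1 hv
    rw [ha, hb]
    have h := (mem_filter.1 (hx1 q)).2
    exact hPl _ _ _ h.1 h.2
  · intro v hv v' hv' hne
    obtain ⟨q, _, rfl⟩ := mem_image.1 hv
    obtain ⟨q', _, rfl⟩ := mem_image.1 hv'
    exact hx2 q q' fun h => hne (by rw [h])
  · intro i j hij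
    refine hmD2.trans (Nat.mul_le_mul_left _ ?_)
    let g : Fin m → V := fun k => x ⟨(i, j, k), hij⟩
    have hg : Function.Injective g := by
      intro k k' h
      have q1 := hinj h
      have q2 := congrArg (fun q : Q => q.1.2.2) q1
      exact q2
    have hsub : univ.image g ⊆ (univ.image x).filter (fun v => a v = i ∧ b v = j) := by
      intro v hv
      obtain ⟨k, _, rfl⟩ := mem_image.1 hv
      refine mem_filter.2 ⟨mem_image.2 ⟨_, mem_univ _, rfl⟩, ?_, ?_⟩
      · exact ha ⟨(i, j, k), hij⟩
      · exact hb ⟨(i, j, k), hij⟩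
    have q1 := card_le_card hsub
    rw [card_image_of_injective _ hg, card_univ, Fintype.card_fin] at q1
    exact q1

end XSB4

theorem prf_SB4 (h3 : SB3) (h1 : SP1) (h5 : SP5) : SB4 := by
  intro R V _ G hconn hBD hK hR hn
  obtain ⟨f, hP, hholes, hbal, hflex⟩ := h3 R V G hconn hBD hK ((le_max_left _ _).trans hn)
  have hn3 : k3 ≤ Fintype.card V := (le_max_right _ _).trans hn
  have hk8 : 1 ≤ k8 := by
    unfold k8 k0
    norm_num
  have hk3 : k3 = 4 * k8 * (5 * 5 * 6 ^ 10) := rfl
  obtain ⟨W, a, b, hW, hcard⟩ := XSB4.core h1 h5 k8 R hk8 V G hBD f hP hR hholes hflex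
    (hk3 ▸ hn3)
  refine ⟨f, hP, hholes, hbal, W, a, b, hW, ?_⟩
  intro i j hij
  rw [hk3]
  exact hcard i j hij

end

end Pool.Agent.Work.MP_47f387_co.Five

end

section

/-!
# MP_47f387_co, maximum degree 5: item SB5
-/

namespace Pool.Agent.Work.MP_47f387_co.Five

open Finset Classical Large

noncomputable section

namespace XSB5

lemma k8_pos : 1 ≤ k8 := by
  have : 0 < k8 := by
    unfold k8 k0
    positivity
  omega

lemma k3_pos : 1 ≤ k3 := by
  have h := k8_pos
  have : 0 < k3 := by
    unfold k3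
    have : 0 < k8 := h
    positivity
  omega

lemma kS_eq : kS = 279936 * k3 := by
  unfold kS
  norm_num

lemma k8_le : 2 * k8 * 6 ^ 4 ≤ kS := by
  unfold kS k3
  obtain ⟨K, hK⟩ : ∃ K, K = k8 := ⟨_, rfl⟩
  rw [← hK]
  calc 2 * K * 6 ^ 4 ≤ (2 * K * 6 ^ 4) * (6 ^ 3 * (2 * (5 * 5 * 6 ^ 10))) :=
        Nat.le_mul_of_pos_right _ (by norm_num)
    _ = 6 ^ 7 * (4 * K * (5 * 5 * 6 ^ 10)) := by ring

lemma colb {V : Type} [Fintype V] {G : SimpleGraph V} {f2 : V → Option (Fin 5)}
    (hf2 : Proper G f2) (hno2 : cnt f2 none = 0) {t : Fin 5 → ℕ}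
    (hcnt2 : ∀ c, cnt f2 (some c) = t c) : Colb G univ t := by
  have htot : ∀ v, ∃ c, f2 v = some c := by
    intro v
    have : f2 v ≠ none := by
      intro hv
      have h0 : (univ.filter (fun v => f2 v = none)) = ∅ := card_eq_zero.1 hno2
      have : v ∈ univ.filter (fun v => f2 v = none) := by simp [hv]
      rw [h0] at this
      simp at this
    exact Option.ne_none_iff_exists'.1 this
  choose col hcol using htot
  refine ⟨col, ?_, ?_⟩
  · intro u _ v _ huv heq
    exact hf2 u v (col u) huv (hcol u) (by rw [hcol v, heq])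
  · intro c
    rw [← hcnt2 c]
    unfold cnt
    congr 1
    ext v
    simp [hcol v]

end XSB5

theorem prf_SB5 (h4 : SB4) (h9 : SP9) (h10 : SP10) : SB5 := by
  have hk := XSB5.k8_le
  have hkS := XSB5.kS_eq
  have hC1 := XSB5.k3_pos
  intro m V _ G hG hBD hfree hn t ht htm
  have hN := h4 kS V G hG hBD hfree hk
  unfold kF at hn
  obtain ⟨C, hC⟩ : ∃ C, C = k3 := ⟨_, rfl⟩
  obtain ⟨N, hNdef⟩ : ∃ N, N = kQ kS := ⟨_, rfl⟩
  rw [← hNdef, ← hC] at hn
  rw [← hNdef, hkS, ← hC] at hN
  rw [← hC] at hC1
  clear hk hkS h4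
  clear hNdef hC
  obtain ⟨f, hf, hh, hbal, W, a, b, hW, hWc⟩ := hN (by omega)
  set n := Fintype.card V with hndef
  have hmn : 100 * C * m + 100 * C ≤ n := by
    have e : 100 * C * (m + 1) = 100 * C * m + 100 * C := by ring
    omega
  have hn1 : 1 ≤ n := by omega
  set h := cnt f none with hhdef
  have h01 : (0 : Fin 5) ≠ 1 := by decide
  have hWbig : n ≤ C * W.card :=
    (hWc 0 1 h01).trans (Nat.mul_le_mul_left _ (card_le_card (filter_subset _ _)))
  have hCh : 279936 * (C * h) ≤ n := by
    calc 279936 * (C * h) = 279936 * C * h := by ring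
      _ ≤ n := hh
  have hlt : h < W.card := by
    by_contra hcon
    push Not at hcon
    have h1 : C * W.card ≤ C * h := Nat.mul_le_mul_left _ hcon
    omega
  obtain ⟨f1, W1, hf1, hW1s, hW1c, hW1, hno1, hcnt1⟩ := h9 5 V G f W a b hG hBD hf hW hlt
  have hsum1 : ∑ c : Fin 5, cnt f1 (some c) = n := by
    have := IC7.sum_cnt f1
    rw [hno1, add_zero] at this
    exact this
  obtain ⟨c0, hc0⟩ : ∃ c0 : Fin 5, cnt f1 (some c0) ≤ t c0 := by
    by_contra hcon
    push Not at hcon
    have h1 : ∑ c : Fin 5, (t c + 1) ≤ ∑ c : Fin 5, cnt f1 (some c) :=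
      sum_le_sum (fun c _ => hcon c)
    rw [hsum1, sum_add_distrib, ht, sum_const, card_univ, Fintype.card_fin, smul_eq_mul,
      mul_one] at h1
    omega
  have hnum : ((5 : ℕ) + 1) ^ 4 = 1296 := by norm_num
  rw [hnum] at hcnt1
  set S := ∑ c : Fin 5, (cnt f1 (some c) - t c) with hS
  have hexc : ∀ c : Fin 5, 279936 * C * (cnt f1 (some c) - t c) ≤
      2593 * n + 279936 * C * m := by
    intro c
    have h1 : cnt f1 (some c) - t c ≤
        (cnt f (some c) - cnt f (some c0)) + 2592 * h + m := by
      have e1 := (hcnt1 c).2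
      have e2 := (hcnt1 c0).1
      have e3 := htm c0 c
      omega
    have h3 : 279936 * C * (cnt f (some c) - cnt f (some c0)) ≤ n := by
      have := hbal c c0
      rw [Nat.mul_sub]
      omega
    calc 279936 * C * (cnt f1 (some c) - t c)
        ≤ 279936 * C * ((cnt f (some c) - cnt f (some c0)) + 2592 * h + m) :=
          Nat.mul_le_mul_left _ h1
      _ = 279936 * C * (cnt f (some c) - cnt f (some c0)) + 2592 * (279936 * C * h) +
          279936 * C * m := by ring
      _ ≤ n + 2592 * n + 279936 * C * m :=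
          Nat.add_le_add_right (Nat.add_le_add h3 (Nat.mul_le_mul_left _ hh)) _
      _ = 2593 * n + 279936 * C * m := by ring
  have hS2 : 279936 * C * S ≤ 5 * (2593 * n + 279936 * C * m) := by
    rw [hS, mul_sum]
    calc ∑ c : Fin 5, 279936 * C * (cnt f1 (some c) - t c)
        ≤ ∑ c : Fin 5, (2593 * n + 279936 * C * m) := sum_le_sum (fun c _ => hexc c)
      _ = 5 * (2593 * n + 279936 * C * m) := by
          rw [sum_const, card_univ, Fintype.card_fin, smul_eq_mul]
  have hm : ∀ i j : Fin 5, i ≠ j → S ≤ (W1.filter (fun w => a w = i ∧ b w = j)).card := by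
    intro i j hij
    have h1 : (W.filter (fun w => a w = i ∧ b w = j)).card ≤
        (W1.filter (fun w => a w = i ∧ b w = j)).card + h := by
      have hsub : W.filter (fun w => a w = i ∧ b w = j) ⊆
          W1.filter (fun w => a w = i ∧ b w = j) ∪ (W \ W1) := by
        intro w hw
        rw [mem_filter] at hw
        by_cases hw1 : w ∈ W1
        · exact mem_union_left _ (mem_filter.2 ⟨hw1, hw.2⟩)
        · exact mem_union_right _ (mem_sdiff.2 ⟨hw.1, hw1⟩)
      have h2 := (card_le_card hsub).trans (card_union_le _ _)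
      have h3 : (W \ W1).card = W.card - W1.card := card_sdiff_of_subset hW1s
      omega
    have h2 := hWc i j hij
    by_contra hcon
    push Not at hcon
    set x := (W1.filter (fun w => a w = i ∧ b w = j)).card with hx
    have h3 : n ≤ C * (S + h) := h2.trans (Nat.mul_le_mul_left _ (by omega))
    have e1 : C * (S + h) = C * S + C * h := by ring
    have e2 : 279936 * C * S = 279936 * (C * S) := by ring
    have e3 : 279936 * C * m = 279936 * (C * m) := by ring
    have e4 : 100 * C * m = 100 * (C * m) := by ring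
    rw [e1] at h3
    rw [e2, e3] at hS2
    rw [e4] at hmn
    omega
  obtain ⟨f2, hf2, hno2, hcnt2⟩ := h10 5 V G f1 W1 a b t S hf1 hW1 hno1 ht le_rfl hm
  exact XSB5.colb hf2 hno2 hcnt2

end

end Pool.Agent.Work.MP_47f387_co.Five

end

section

/-!
Item SB6 of the block FIVE: simple upper bound for the order.
-/

set_option autoImplicit false

namespace Pool.Agent.Work.MP_47f387_co.Five

open Finset Classical Large

noncomputable section

namespace XSB6

theorem k3_le : k3 ≤ 6 ^ 27 := by decide +kernel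

theorem kS_le : kS ≤ 6 ^ 34 := by decide +kernel

theorem kR_le : kR kS ≤ 6 ^ 35 := by decide +kernel

theorem K_le : (kR kS + 1) * 6 ≤ 6 ^ 37 := by decide +kernel

theorem c1 : kS ^ 2 ≤ 6 ^ 68 := by
  calc kS ^ 2 ≤ (6 ^ 34) ^ 2 := Nat.pow_le_pow_left kS_le 2
    _ = 6 ^ 68 := by rw [← pow_mul]

theorem c2 : 256 * k0 ^ 2 * 5 ^ 4 ≤ 6 ^ 30 := by decide +kernel

theorem c3 : 16 * k0 ≤ 6 ^ 13 := by decide +kernel

/-- The large constant. -/
theorem kM_le (a K : ℕ) (h : 2 * K + 9 ≤ a) : kM 5 K ≤ 6 ^ a := by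
  have h1 : kM 5 K = 120 * 6 ^ ((K + 3) + (K + 3)) := by
    unfold kM
    rw [← mul_assoc]
    norm_num
  have h2 : (6 : ℕ) ^ (2 * K + 9) = 6 ^ 3 * 6 ^ ((K + 3) + (K + 3)) := by
    rw [← pow_add]
    congr 1
    ring
  calc kM 5 K = 120 * 6 ^ ((K + 3) + (K + 3)) := h1
    _ ≤ 6 ^ 3 * 6 ^ ((K + 3) + (K + 3)) := Nat.mul_le_mul_right _ (by norm_num)
    _ = 6 ^ (2 * K + 9) := h2.symm
    _ ≤ 6 ^ a := Nat.pow_le_pow_right (by norm_num) h

theorem kN_def (R : ℕ) : kN R = kR R + R ^ 2 * kM 5 ((kR R + 1) * 6) + 16 * k0 +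
    256 * k0 ^ 2 * 5 ^ 4 * kM 5 ((kR R + 1) * 6) + 6 ^ 5 + 1 := rfl

theorem aux (r u s w Y : ℕ) (hr : r ≤ Y) (hu : u ≤ Y) (hs : s ≤ Y) (hw : w ≤ Y)
    (h5 : 6 ^ 5 ≤ Y) (_h0 : 1 ≤ Y) : r + u + s + w + 6 ^ 5 + 1 ≤ 36 * Y := by
  omega

theorem kN_le (a : ℕ) (h : 2 * ((kR kS + 1) * 6) + 9 ≤ a) (ha : 70 ≤ a) :
    kN kS ≤ 6 ^ (a + 70) := by
  have hM := kM_le a _ h
  have hX : ∀ e, e ≤ a → (6 : ℕ) ^ e ≤ 6 ^ a := fun e he => Nat.pow_le_pow_right (by norm_num) he
  have e35 := hX 35 (by omega)
  have e12 := hX 13 (by omega)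
  have e5 := hX 5 (by omega)
  have e0 := hX 0 (by omega)
  have hr := kR_le
  have h1 : kS ^ 2 * kM 5 ((kR kS + 1) * 6) ≤ 6 ^ 68 * 6 ^ a := Nat.mul_le_mul c1 hM
  have h2 : 256 * k0 ^ 2 * 5 ^ 4 * kM 5 ((kR kS + 1) * 6) ≤ 6 ^ 30 * 6 ^ a :=
    Nat.mul_le_mul c2 hM
  have h3 := c3
  have h4 : (6 : ℕ) ^ (a + 70) = 36 * (6 ^ 68 * 6 ^ a) := by
    rw [show a + 70 = 2 + (68 + a) by ring, pow_add, pow_add]
    rfl
  have h6 : (6 : ℕ) ^ a ≤ 6 ^ 68 * 6 ^ a := Nat.le_mul_of_pos_left _ (by positivity)
  have h7 : (6 : ℕ) ^ 30 * 6 ^ a ≤ 6 ^ 68 * 6 ^ a :=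
    Nat.mul_le_mul_right _ (Nat.pow_le_pow_right (by norm_num) (by norm_num))
  have h2' := le_trans h2 h7
  have hr' := le_trans (le_trans hr e35) h6
  have h3' := le_trans (le_trans h3 e12) h6
  have e5' := le_trans e5 h6
  have e0' : 1 ≤ 6 ^ 68 * 6 ^ a := le_trans (by simpa using e0) h6
  rw [h4, kN_def]
  exact aux _ _ _ _ _ hr' h1 h3' h2' e5' e0'

theorem main : SB6 := by
  intro m
  obtain ⟨a, ha⟩ : ∃ a : ℕ, a = 6 ^ 38 := ⟨_, rfl⟩
  have h37 : (6 : ℕ) ^ 37 * 6 = a := by rw [ha, ← pow_succ]
  have h39 : (6 : ℕ) ^ 40 = 36 * a := by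
    rw [ha, show (40 : ℕ) = 38 + 1 + 1 from rfl, pow_succ, pow_succ]; ring
  have hK := K_le
  have hbig : 100 ≤ a := by
    rw [← h37]; norm_num
  have h1 : kN kS ≤ 6 ^ (a + 70) := kN_le a (by omega) (by omega)
  have h2 : k3 ≤ 6 ^ (a + 70) :=
    le_trans k3_le (Nat.pow_le_pow_right (by norm_num) (by omega))
  have h3 : kQ kS ≤ 6 ^ (a + 70) := max_le h1 h2
  have h4 : 100 * k3 ≤ 6 ^ (a + 70) := by
    calc 100 * k3 ≤ 6 ^ 3 * 6 ^ 27 := Nat.mul_le_mul (by norm_num) k3_le
      _ = 6 ^ 30 := by rw [← pow_add]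
      _ ≤ 6 ^ (a + 70) := Nat.pow_le_pow_right (by norm_num) (by omega)
  have h5 : kF m = kQ kS + 100 * k3 * (m + 1) := rfl
  rw [h5, h39]
  calc (kQ kS + 100 * k3 * (m + 1)) * 6
      ≤ (6 ^ (a + 70) * (m + 1) + 6 ^ (a + 70) * (m + 1)) * 6 := by
        refine Nat.mul_le_mul_right _ (Nat.add_le_add ?_ (Nat.mul_le_mul_right _ h4))
        exact le_trans h3 (Nat.le_mul_of_pos_right _ (by omega))
    _ = (m + 1) * (12 * 6 ^ (a + 70)) := by ring
    _ ≤ (m + 1) * (6 ^ 2 * 6 ^ (a + 70)) :=
        Nat.mul_le_mul_left _ (Nat.mul_le_mul_right _ (by norm_num))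
    _ = (m + 1) * 6 ^ (2 + (a + 70)) := by rw [← pow_add]
    _ ≤ (m + 1) * 6 ^ (36 * a) :=
        Nat.mul_le_mul_left _ (Nat.pow_le_pow_right (by norm_num) (by omega))

end XSB6

/-- SB6: simple upper bound for the order. -/
theorem prf_SB6 : SB6 := XSB6.main

end

end Pool.Agent.Work.MP_47f387_co.Five

end

section

/-!
# MP_47f387_co, maximum degree 5: the final theorems
-/

namespace Pool.Agent.Work.MP_47f387_co.Five

open Finset Classical Large

lemma kF_le (h6 : SB6) : kF 1 ≤ 6 ^ (6 ^ 40) := by
  have h := h6 1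
  generalize hN : (6 : ℕ) ^ (6 ^ 40) = N at h ⊢
  clear hN
  generalize kF 1 = x at h ⊢
  omega

/-- large connected `K_5`-free graphs -/
theorem large (h5 : SB5) (h6 : SB6) (V : Type) [Fintype V] (G : SimpleGraph V)
    (hG : G.Connected) (hBD : BD 5 G) (hC : G.CliqueFree 5)
    (hn : 6 ^ (6 ^ 40) ≤ Fintype.card V) : ∃ t : Fin 5 → ℕ, Bal t ∧ Colb G univ t := by
  obtain ⟨t, ht1, ht2⟩ := IT1.exists_bal (d := 5) (by norm_num) (Fintype.card V)
  exact ⟨t, ht2, h5 1 V G hG hBD hC ((kF_le h6).trans hn) t ht1 ht2⟩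

/-- the finite reduction for `K_5`-free graphs -/
theorem fin1 (h5 : SB5) (h6 : SB6) (h1 : V1) (p1 : P1) (p2 : P2)
    (hyp : ∀ (V : Type) [Fintype V] (G : SimpleGraph V), G.Connected → BD 5 G →
      G.CliqueFree 5 → KF 5 G → Fintype.card V < 6 ^ (6 ^ 40) →
      ∃ t : Fin 5 → ℕ, Bal t ∧ Colb G univ t)
    (V : Type) [Fintype V] (G : SimpleGraph V) (hBD : BD 5 G) (hC : G.CliqueFree 5)
    (hK : KF 5 G) : ∃ t : Fin 5 → ℕ, Bal t ∧ Colb G univ t := by
  have hd1 : 1 ≤ 5 := by norm_num
  obtain ⟨w, hw, hbal⟩ := h1 5 G.ConnectedComponent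
    (fun k => {t | Colb k.toSimpleGraph univ t}) univ
    (fun k t π ht => IT1.colb_perm ht π)
    (fun k _ => by
      have hB := IT1.comp_BD p2 hd1 hBD k
      have hC := IT1.comp_CF p2 hd1 hC k
      by_cases hk : Fintype.card k < 6 ^ (6 ^ 40)
      · obtain ⟨t, ht1, ht2⟩ := hyp k k.toSimpleGraph k.connected_toSimpleGraph hB hC
          (IT1.comp_KF p2 hd1 hK k) hk
        exact ⟨t, ht2, ht1⟩
      · obtain ⟨t, ht1, ht2⟩ := large h5 h6 k k.toSimpleGraph k.connected_toSimpleGraph hB hC
          (not_lt.1 hk)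
        exact ⟨t, ht2, ht1⟩)
  exact ⟨_, hbal, p1 5 V G w hd1 (fun k => hw k (mem_univ k))⟩

/-- the finite reduction -/
theorem fin2 (h5 : SB5) (h6 : SB6) (h1 : V1) (p1 : P1) (p2 : P2) (r5 : R5)
    (hyp : ∀ (V : Type) [Fintype V] [DecidableEq V] (G : SimpleGraph V) [DecidableRel G.Adj],
      G.Connected → (∀ v, G.degree v ≤ 5) → G.CliqueFree 5 → KF 5 G →
      Fintype.card V < 6 ^ (6 ^ 40) → Equi G 5)
    (V : Type) [Fintype V] [DecidableEq V] (G : SimpleGraph V) [DecidableRel G.Adj]
    (hdeg : ∀ v, G.degree v ≤ 5) (hfree : G.CliqueFree 6) (hK : KF 5 G) : Equi G 5 := by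
  have hyp' : ∀ (V : Type) [Fintype V] (G : SimpleGraph V), G.Connected → BD 5 G →
      G.CliqueFree 5 → KF 5 G → Fintype.card V < 6 ^ (6 ^ 40) →
        ∃ t : Fin 5 → ℕ, Bal t ∧ Colb G univ t := by
    intro V _ G hG hBD hCF hK hc
    exact IT4.colb_of_equi (hyp V G hG (IT4.BD_iff.1 hBD) hCF hK hc)
  obtain ⟨P, _, _, W, _, H, _, hBH, hCH, hKH, hH⟩ :=
    IT4.reduce r5 p2 (le_refl 5) (IT4.BD_iff.2 hdeg) hfree
  obtain ⟨t, ht1, ht2⟩ := fin1 h5 h6 h1 p1 p2 hyp' W H hBH hCH (hKH hK)
  obtain ⟨t', ht1', ht2'⟩ := hH t ht1 ht2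
  exact IT4.equi_of_colb ht1' ht2'

end Pool.Agent.Work.MP_47f387_co.Five

end
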