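import Pool.Agent.Work.MP_47f387_co.Large.AssembledX
import Pool.Agent.Work.MP_47f387_co.Bd.F02
/-!
# MP_47f387_co, maximum degree 5: assembly
-/

namespace Pool.Agent.Work.MP_47f387_co.Five

open Finset Classical Large

theorem asmSF3 : SF3 := prf_SF3 prf_SF1

theorem asmSF5 : SF5 := prf_SF5 (prf_SF4 asmSF3)

theorem asmSF8 : SF8 := prf_SF8 asmSF3 prf_SF6 (prf_SF7 asmSF3)

theorem asmSF13 : SF13 := prf_SF13 prf_SF11 (prf_SF12 prf_SF11)

theorem asmSF14 : SF14 :=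
  prf_SF14 (prf_SF2 prf_SF1) asmSF3 asmSF5 asmSF8 (prf_SF9 prf_SF6) prf_SF10 asmSF13

theorem asmSP5 : SP5 := prf_SP5 (prf_SP3 prf_SP2) prf_SP4

theorem asmSP9 : SP9 := prf_SP9 (prf_SP8 prf_SP6 prf_SP7)

theorem asmSB4 : SB4 := prf_SB4 (prf_SB3 asmSF14 prf_SB1 prf_SB2) prf_SP1 asmSP5

theorem asmSB5 : SB5 := prf_SB5 asmSB4 asmSP9 (prf_SP10 prf_SP6)

/-- large connected `K_5`-free graphs of maximum degree at most five -/
theorem asmLarge (q : ℕ) (hq : q = 6) (V : Type) [Fintype V] [DecidableEq V]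
    (G : SimpleGraph V) [DecidableRel G.Adj]
    (hG : G.Connected) (hdeg : ∀ v, G.degree v ≤ 5) (hC : G.CliqueFree 5)
    (hn : q ^ (q ^ 40) ≤ Fintype.card V) : Equi G 5 := by
  subst hq
  obtain ⟨t, ht1, ht2⟩ := large asmSB5 prf_SB6 V G hG (IT4.BD_iff.2 hdeg) hC hn
  exact IT4.equi_of_colb ht1 ht2

/-- the finite reduction for maximum degree five -/
theorem asmFin (q : ℕ) (hq : q = 6)
    (hyp : ∀ (V : Type) [Fintype V] [DecidableEq V] (G : SimpleGraph V) [DecidableRel G.Adj],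
      G.Connected → (∀ v, G.degree v ≤ 5) → G.CliqueFree 5 → KF 5 G →
      Fintype.card V < q ^ (q ^ 40) → Equi G 5)
    (V : Type) [Fintype V] [DecidableEq V] (G : SimpleGraph V) [DecidableRel G.Adj]
    (hdeg : ∀ v, G.degree v ≤ 5) (hfree : G.CliqueFree 6) (hK : KF 5 G) : Equi G 5 := by
  subst hq
  exact fin2 asmSB5 prf_SB6 asmV1 prfP1 prfP2 asmR5 hyp V G hdeg hfree hK

end Pool.Agent.Work.MP_47f387_co.Five
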