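import Pool.Agent.Work.MP_47f387_co.Bd.B01

/-!
# MP_47f387_co: regions of charge zero, and item A13 for `d ≥ 6`
-/

namespace Pool.Agent.Work.MP_47f387_co.Large

open Finset Classical

noncomputable section

namespace IZ

variable {V : Type} [Fintype V] {d : ℕ} {G : SimpleGraph V} {f : V → Option (Fin d)}

/-- the double swap -/
lemma DS (h2 : A2) (hP : Proper G f) {p x x' y y' : V} (hg : Good G f p) (hTx : f x ≠ none)
    (hTp : f p ≠ none) (hxx' : x ≠ x')
    (hfx : f x = f x') (hpx : G.Adj p x) (hpx' : G.Adj p x') (hnadj : ¬ G.Adj x x')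
    (hpr : pr G f p = {x, x'}) (hM : Mut G f x y) (hM' : Mut G f x' y') (hpy : ¬ G.Adj p y)
    (hpy' : ¬ G.Adj p y') (hpny : p ≠ y) (hpny' : p ≠ y') (d1 : x ≠ y') (d2 : y ≠ x')
    (d3 : y ≠ y') (hyy' : ¬ G.Adj y y') : False := by
  have hN1 : ∀ {u : V}, G.Adj p u → Near G 1 p u := fun h => near_of_adj h
  have hnadj' : ¬ G.Adj x' x := fun h => hnadj h.symm
  have hxy : G.Adj x y := hM.1
  have hxy' : G.Adj x' y' := hM'.1
  have hy2 : Near G 2 p y := near_adj (hN1 hpx) hxy
  have hy2' : Near G 2 p y' := near_adj (hN1 hpx') hxy'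
  have hpnx : p ≠ x := G.ne_of_adj hpx
  have hpnx' : p ≠ x' := G.ne_of_adj hpx'
  obtain ⟨α, hα⟩ := Option.ne_none_iff_exists'.1 hTx
  have hα' : f x' = some α := by rw [← hfx, hα]
  obtain ⟨β, hβ⟩ := Option.ne_none_iff_exists'.1 hTp
  have hyα : f y ≠ some α := hP x y α hxy hα
  have hyα' : f y' ≠ some α := hP x' y' α hxy' hα'
  have hβα : β ≠ α := by
    intro h
    have := hP x p α hpx.symm hα
    rw [hβ, h] at this
    exact this rfl
  have hP1 : Proper G (fun z => f (Equiv.swap x y z)) := h2 d V G f hP x y hM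
  have ex : Equiv.swap x y x = y := Equiv.swap_apply_left x y
  have ey : Equiv.swap x y y = x := Equiv.swap_apply_right x y
  have eo : ∀ z, z ≠ x → z ≠ y → Equiv.swap x y z = z := fun z h h' =>
    Equiv.swap_apply_of_ne_of_ne h h'
  have ex' : Equiv.swap x' y' x' = y' := Equiv.swap_apply_left x' y'
  have ey' : Equiv.swap x' y' y' = x' := Equiv.swap_apply_right x' y'
  have eo' : ∀ z, z ≠ x' → z ≠ y' → Equiv.swap x' y' z = z := fun z h h' =>
    Equiv.swap_apply_of_ne_of_ne h h'
  have fx' : Equiv.swap x y x' = x' := eo x' hxx'.symm d2.symm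
  have fy' : Equiv.swap x y y' = y' := eo y' d1.symm d3.symm
  have hM1 : Mut G (fun z => f (Equiv.swap x y z)) x' y' := by
    refine ⟨hxy', ?_, ?_⟩
    · intro hmem
      obtain ⟨_, z, hzx', hyz, hz⟩ := mem_pr.1 hmem
      simp only [fx'] at hz
      by_cases hzx : z = x
      · subst hzx
        rw [ex, hα'] at hz
        exact hyα hz
      · by_cases hzy : z = y
        · subst hzy
          exact hyy' hyz.symm
        · rw [eo z hzx hzy] at hz
          exact hM'.2.1 (mem_pr.2 ⟨hxy'.symm, z, hzx', hyz, hz⟩)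
    · intro hmem
      obtain ⟨_, z, hzy', hxz, hz⟩ := mem_pr.1 hmem
      simp only [fy'] at hz
      by_cases hzx : z = x
      · subst hzx
        exact hnadj' hxz
      · by_cases hzy : z = y
        · subst hzy
          rw [ey, hα] at hz
          exact hyα' hz.symm
        · rw [eo z hzx hzy] at hz
          exact hM'.2.2 (mem_pr.2 ⟨hxy', z, hzy', hxz, hz⟩)
  have hP2 := h2 d V G _ hP1 x' y' hM1
  apply hg.2.1 β α
  refine ⟨Equiv.swap x y * Equiv.swap x' y', ?_, ?_, p, near_refl 2 p, ?_⟩
  · intro u hu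
    by_cases h1 : u = x
    · subst h1; exact near_mono (by norm_num) (hN1 hpx)
    by_cases h2 : u = y
    · subst h2; exact hy2
    by_cases h3 : u = x'
    · subst h3; exact near_mono (by norm_num) (hN1 hpx')
    by_cases h4 : u = y'
    · subst h4; exact hy2'
    exfalso
    apply hu
    rw [Equiv.Perm.mul_apply, eo' u h3 h4, eo u h1 h2]
  · intro u w c _ huw hc
    simp only [Equiv.Perm.mul_apply] at hc ⊢
    exact hP2 u w c huw hc
  · refine ⟨?_, hβα, ?_⟩
    · simp only [Equiv.Perm.mul_apply]
      rw [eo' p hpnx' hpny', eo p hpnx hpny]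
      exact hβ
    · rintro ⟨z, hpz, hz⟩
      simp only [Equiv.Perm.mul_apply] at hz
      by_cases h3 : z = x'
      · subst h3
        rw [ex', fy'] at hz
        exact hyα' hz
      by_cases h4 : z = y'
      · subst h4
        exact hpy' hpz
      rw [eo' z h3 h4] at hz
      by_cases h1 : z = x
      · subst h1
        rw [ex] at hz
        exact hyα hz
      by_cases h2 : z = y
      · subst h2
        exact hpy hpz
      rw [eo z h1 h2] at hz
      have hmem : z ∈ pr G f p :=
        mem_pr.2 ⟨hpz, x, fun h => h1 h.symm, hpx, by rw [hα, hz]⟩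
      rw [hpr] at hmem
      simp only [mem_insert, mem_singleton] at hmem
      rcases hmem with h | h
      · exact h1 h
      · exact h3 h

/-- the pair of a good vertex of degree `d` -/
lemma pair (h1 : A1) (h3 : A3) (hd : BD d G) (hf : Proper G f) {v : V} (hv : Good G f v)
    (hdeg : Deg G v = d) : ∃ p p', p ≠ p' ∧ f p = f p' ∧ G.Adj v p ∧ G.Adj v p' ∧
      ¬ G.Adj p p' ∧ pr G f v = {p, p'} := by
  rcases h1 d V G f hd hf v (IA6.tight0 h3 hf hv) with ⟨_, h⟩ | ⟨h, _⟩
  · exact h
  · omega

/-- three elements of the pair of a good vertex of degree `d` are not distinct -/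
lemma three (h1 : A1) (h3 : A3) (hd : BD d G) (hf : Proper G f) {v : V} (hv : Good G f v)
    (hdeg : Deg G v = d) {a b c : V} (ha : a ∈ pr G f v) (hb : b ∈ pr G f v) (hc : c ∈ pr G f v)
    (hab : a ≠ b) : c = a ∨ c = b := by
  obtain ⟨p, p', _, _, _, _, _, hpr⟩ := pair h1 h3 hd hf hv hdeg
  rw [hpr, mem_insert, mem_singleton] at ha hb hc
  rcases ha with rfl | rfl <;> rcases hb with rfl | rfl <;> rcases hc with rfl | rfl <;>
    simp_all

lemma mem_pr_of {y a b : V} (ha : G.Adj y a) (hb : G.Adj y b) (hne : a ≠ b) (hfe : f a = f b) :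
    a ∈ pr G f y ∧ b ∈ pr G f y :=
  ⟨mem_pr.2 ⟨ha, b, hne.symm, hb, hfe.symm⟩, mem_pr.2 ⟨hb, a, hne, ha, hfe⟩⟩

/-- structure around a good vertex of degree `d` in exactly one pair -/
lemma S1 (h1 : A1) (h3 : A3) (h4 : A4) (hd : BD d G) (hf : Proper G f) {v : V} (hv : Good G f v)
    (hdeg : Deg G v = d) (ht : (II G f v).card = 1) :
    ∃ y x x', II G f v = {y} ∧ pr G f v = {x, x'} ∧ x ≠ x' ∧ f x = f x' ∧ y ≠ x ∧ y ≠ x' ∧
      G.Adj v y ∧ G.Adj v x ∧ G.Adj v x' ∧
      ∀ g, G.Adj v g → g ≠ x → g ≠ x' → g ≠ y →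
        Mut G f v g ∧ ∀ z, G.Adj v z → z ≠ y → z ≠ g → G.Adj g z := by
  obtain ⟨y, hy⟩ := card_eq_one.mp ht
  obtain ⟨x, x', hxx, hfx, hx, hx', _, hpr⟩ := pair h1 h3 hd hf hv hdeg
  have hyp : y ∉ pr G f v := fun h => IA6.disj h3 h4 hf hv hdeg hpr hy h
  have hxp : x ∈ pr G f v := by rw [hpr]; simp
  have hxp' : x' ∈ pr G f v := by rw [hpr]; simp
  refine ⟨y, x, x', hy, hpr, hxx, hfx, fun h => hyp (h ▸ hxp), fun h => hyp (h ▸ hxp'),
    adj_of_mem_II (f := f) (by rw [hy]; simp), hx, hx', ?_⟩
  intro g hg hgx hgx' hgy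
  have hgp : g ∉ pr G f v := by rw [hpr]; simp [hgx, hgx']
  have hgI : g ∉ II G f v := by rw [hy]; simpa using hgy
  refine ⟨⟨hg, fun h => hgI (mem_II.mpr ⟨IA6.tight1 h3 hf hv hg, h⟩), hgp⟩, ?_⟩
  intro z hz hzy hzg
  exact (IA6.key h3 h4 hf hv hg hgp hgI hz hzg (by rw [hy]; simpa using hzy)).symm

/-- in a region of charge zero, a vertex in one pair has a mutual neighbour which is not adjacent
to the tight vertex of the pair -/
lemma S3 (h1 : A1) (h3 : A3) (h4 : A4) (h6d : d = 6) (hd : BD d G) (hf : Proper G f)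
    {v : V} (hz : ∀ u, Near G 1 v u → Good G f u ∧ Zero G f u) (ht : (II G f v).card = 1)
    {y : V} (hy : y ∈ II G f v) : ∃ g, Mut G f v g ∧ ¬ G.Adj g y ∧
      ∀ z, G.Adj v z → z ≠ y → z ≠ g → G.Adj g z := by
  have hv := (hz v (near_refl 1 v)).1
  have hdeg := (hz v (near_refl 1 v)).2.1
  obtain ⟨y0, x, x', hI, hpr, hxx, hfx, hyx, hyx', hvy, hvx, hvx', hG⟩ :=
    S1 h1 h3 h4 hd hf hv hdeg ht
  have hyy : y = y0 := by rw [hI] at hy; simpa using hy
  subst hyy
  by_contra hcon
  push Not at hcon
  have hall : ∀ g, G.Adj v g → g ≠ x → g ≠ x' → g ≠ y → G.Adj g y := by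
    intro g hg hgx hgx' hgy
    by_contra hgn
    obtain ⟨z, hz1, hz2, hz3, hz4⟩ := hcon g (hG g hg hgx hgx' hgy).1 hgn
    exact hz4 ((hG g hg hgx hgx' hgy).2 z hz1 hz2 hz3)
  -- the set of mutual neighbours
  set M := (univ.filter (fun u => G.Adj v u)) \ ({x, x', y} : Finset V) with hM
  have hmemM : ∀ g, g ∈ M ↔ G.Adj v g ∧ g ≠ x ∧ g ≠ x' ∧ g ≠ y := by
    intro g
    simp [hM]
  have hN : ({x, x', y} : Finset V) ⊆ univ.filter (fun u => G.Adj v u) := by
    intro a ha
    simp only [mem_insert, mem_singleton] at ha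
    rcases ha with rfl | rfl | rfl
    · simpa using hvx
    · simpa using hvx'
    · simpa using hvy
  have hMc : 3 ≤ M.card := by
    have h := card_sdiff_add_card_eq_card hN
    have hc : ({x, x', y} : Finset V).card ≤ 3 := card_le_three
    have hdd : (univ.filter (fun u => G.Adj v u)).card = d := hdeg
    rw [← hM] at h
    omega
  have hvM : v ∉ M := fun h => G.irrefl ((hmemM v).1 h).1
  -- `x` is in four pairs
  have hxI : ∀ g, g ∈ insert v M → x ∈ pr G f g ∧ x' ∈ pr G f g := by
    intro g hg
    rw [mem_insert] at hg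
    rcases hg with rfl | hg
    · rw [hpr]
      simp
    · obtain ⟨hg1, hg2, hg3, hg4⟩ := (hmemM g).1 hg
      have hGg := (hG g hg1 hg2 hg3 hg4).2
      exact mem_pr_of (hGg x hvx hyx.symm (Ne.symm hg2)) (hGg x' hvx' hyx'.symm (Ne.symm hg3))
        hxx hfx
  have hgood : ∀ g, g ∈ insert v M → Good G f g ∧ Zero G f g ∧ Near G 1 v g := by
    intro g hg
    rw [mem_insert] at hg
    rcases hg with rfl | hg
    · exact ⟨hv, (hz g (near_refl 1 g)).2, near_refl 1 g⟩
    · have := near_of_adj ((hmemM g).1 hg).1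
      exact ⟨(hz g this).1, (hz g this).2, this⟩
  have hsub : insert v M ⊆ II G f x := by
    intro g hg
    exact mem_II.2 ⟨IA6.tight0 h3 hf (hgood g hg).1, (hxI g hg).1⟩
  have hc4 : 4 ≤ (insert v M).card := by
    rw [card_insert_of_notMem hvM]
    omega
  have hzx := (hz x (near_of_adj hvx)).2
  have hone : ∀ g ∈ II G f x, (II G f g).card = 1 := by
    have h4' : 4 ≤ (II G f x).card := hc4.trans (card_le_card hsub)
    rcases hzx.2 with h | h | h
    · omega
    · omega
    · exact h.2.2
  -- the tight vertex of the pair of `g`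
  have hloc : ∀ g ∈ insert v M, ∃ o, o ∈ ({x, x', y} : Finset V) ∧ g ∈ pr G f o ∧ Near G 1 v o := by
    intro g hg
    by_cases hgv : g = v
    · subst hgv
      refine ⟨y, by simp, (mem_II.1 hy).2, near_of_adj hvy⟩
    · have hgM : g ∈ M := by
        rw [mem_insert] at hg
        exact hg.resolve_left hgv
      obtain ⟨hg1, hg2, hg3, hg4⟩ := (hmemM g).1 hgM
      obtain ⟨o, ho⟩ := card_eq_one.mp (hone g (hsub hg))
      have hoI : o ∈ II G f g := by rw [ho]; simp
      have hgo : g ∈ pr G f o := (mem_II.1 hoI).2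
      have hado : G.Adj g o := adj_of_mem_II hoI
      -- the neighbourhood of `g`
      have hNg : insert v ((univ.filter (fun u => G.Adj v u)).erase g) =
          univ.filter (fun u => G.Adj g u) := by
        apply Finset.eq_of_subset_of_card_le
        · intro z hz'
          rw [mem_insert, mem_erase, mem_filter] at hz'
          rw [mem_filter]
          refine ⟨mem_univ _, ?_⟩
          rcases hz' with rfl | ⟨hzg, _, hzv⟩
          · exact hg1.symm
          · by_cases hzy : z = y
            · subst hzy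
              exact hall g hg1 hg2 hg3 hg4
            · exact (hG g hg1 hg2 hg3 hg4).2 z hzv hzy hzg
        · have hdg : (univ.filter (fun u => G.Adj g u)).card = d := (hgood g hg).2.1.1
          have hdv : (univ.filter (fun u => G.Adj v u)).card = d := hdeg
          rw [hdg, card_insert_of_notMem (by simp), card_erase_of_mem (by simpa using hg1), hdv]
          omega
      have hoN : o ∈ insert v ((univ.filter (fun u => G.Adj v u)).erase g) := by
        rw [hNg]
        simpa using hado
      have hgx : g ≠ x ∧ g ≠ x' := ⟨hg2, hg3⟩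
      rw [mem_insert, mem_erase, mem_filter] at hoN
      rcases hoN with rfl | ⟨hog, _, hov⟩
      · exfalso
        rw [hpr, mem_insert, mem_singleton] at hgo
        rcases hgo with h | h
        · exact hg2 h
        · exact hg3 h
      · by_cases hoM : o ∈ M
        · exfalso
          have hop := hxI o (mem_insert_of_mem hoM)
          have hgoo := hgood o (mem_insert_of_mem hoM)
          rcases three h1 h3 hd hf hgoo.1 hgoo.2.1.1 hop.1 hop.2 hgo hxx with h | h
          · exact hg2 h
          · exact hg3 h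
        · refine ⟨o, ?_, hgo, near_of_adj hov⟩
          by_contra hno
          simp only [mem_insert, mem_singleton, not_or] at hno
          exact hoM ((hmemM o).2 ⟨hov, hno.1, hno.2.1, hno.2.2⟩)
  choose! o ho1 ho2 ho3 using hloc
  obtain ⟨a, ha, b, hb, hab, hoab⟩ :=
    Finset.exists_ne_map_eq_of_card_lt_of_maps_to (s := insert v M)
      (t := ({x, x', y} : Finset V)) (f := o)
      (lt_of_lt_of_le (lt_of_le_of_lt card_le_three (by norm_num)) hc4)
      (fun u hu => mem_coe.2 (ho1 u (mem_coe.1 hu)))
  -- `a` and `b` are adjacent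
  have hadj : G.Adj a b := by
    rw [mem_insert] at ha hb
    rcases ha with rfl | ha
    · rcases hb with rfl | hb
      · exact absurd rfl hab
      · exact ((hmemM b).1 hb).1
    · rcases hb with rfl | hb
      · exact ((hmemM a).1 ha).1.symm
      · obtain ⟨ha1, ha2, ha3, ha4⟩ := (hmemM a).1 ha
        obtain ⟨hb1, hb2, hb3, hb4⟩ := (hmemM b).1 hb
        exact (hG a ha1 ha2 ha3 ha4).2 b hb1 hb4 (Ne.symm hab)
  have hoa := hz (o a) (ho3 a ha)
  obtain ⟨p, p', _, _, _, _, hnp, hprp⟩ := pair h1 h3 hd hf hoa.1 hoa.2.1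
  have ha' := ho2 a ha
  have hb' := ho2 b hb
  rw [← hoab] at hb'
  rw [hprp, mem_insert, mem_singleton] at ha' hb'
  rcases ha' with rfl | rfl <;> rcases hb' with rfl | rfl
  · exact hab rfl
  · exact hnp hadj
  · exact hnp hadj.symm
  · exact hab rfl

/-- a clique of mutual neighbours -/
lemma cover {v₀ : V} (hdeg : Deg G v₀ = d) {S : Finset V}
    (hS : ∀ a ∈ S, G.Adj v₀ a) : ((univ.filter (fun u => G.Adj v₀ u)) \ S).card + S.card = d := by
  have hN : S ⊆ univ.filter (fun u => G.Adj v₀ u) := by
    intro a ha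
    simpa using hS a ha
  have h := card_sdiff_add_card_eq_card hN
  exact h.trans hdeg

/-- there is no vertex in exactly one pair in the middle of a region of charge zero (`d = 6`) -/
lemma noOne (h1 : A1) (h2 : A2) (h3 : A3) (h4 : A4) (h6 : A6) (h6d : d = 6) (hd : BD d G)
    (hf : Proper G f) {v : V} (hz : ∀ u, Near G 4 v u → Good G f u ∧ Zero G f u)
    (ht : (II G f v).card = 1) : False := by
  have hv := hz v (near_refl 4 v)
  obtain ⟨y, x, x', hI, hpr, hxx, hfx, hyx, hyx', hvy, hvx, hvx', hG⟩ :=
    S1 h1 h3 h4 hd hf hv.1 hv.2.1 ht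
  have hyI : y ∈ II G f v := by rw [hI]; simp
  have hvpy : v ∈ pr G f y := (mem_II.1 hyI).2
  have hyp : y ∉ pr G f v := by rw [hpr]; simp [hyx, hyx']
  obtain ⟨g, hMg, hgy, hGg⟩ := S3 h1 h3 h4 h6d hd hf
    (fun u hu => hz u (near_mono (by norm_num) hu)) ht hyI
  have n1y : Near G 1 v y := near_of_adj hvy
  have hgoody := hz y (near_mono (by norm_num) n1y)
  -- the other element of the pair of `y`
  obtain ⟨w, hwv, hyw, hfw, hnvw, hpry⟩ : ∃ w, w ≠ v ∧ G.Adj y w ∧ f w = f v ∧ ¬ G.Adj v w ∧
      pr G f y = {v, w} := by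
    obtain ⟨p, p', hpp, hfp, hyp1, hyp2, hnp, hprp⟩ := pair h1 h3 hd hf hgoody.1 hgoody.2.1
    have := hvpy
    rw [hprp, mem_insert, mem_singleton] at this
    rcases this with rfl | rfl
    · exact ⟨p', hpp.symm, hyp2, hfp.symm, hnp, hprp⟩
    · exact ⟨p, hpp, hyp1, hfp, fun h => hnp h.symm, by rw [hprp]; exact Finset.pair_comm _ _⟩
  have n2w : Near G 2 v w := near_adj n1y hyw
  have hgoodw := hz w (near_mono (by norm_num) n2w)
  -- common neighbours of `v` and `w`
  have hcom : ∀ z, G.Adj v z → G.Adj w z → z = y := by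
    intro z hvz hwz
    have hzI : z ∈ II G f v := by
      refine mem_II.2 ⟨IA6.tight1 h3 hf hv.1 hvz, ?_⟩
      exact (mem_pr_of hvz.symm hwz.symm hwv.symm hfw.symm).1
    rw [hI] at hzI
    simpa using hzI
  have hwpy : w ∈ pr G f y := by rw [hpry]; simp
  have hyIw : y ∈ II G f w := mem_II.2 ⟨IA6.tight0 h3 hf hgoody.1, hwpy⟩
  -- the mutual neighbour of `w`
  have hex : ∃ g', Mut G f w g' ∧ ¬ G.Adj g' y := by
    by_contra hno
    push Not at hno
    have hIn : ∀ u, Near G 1 w u → Near G 3 v u := fun u hu => near_trans n2w hu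
    rcases hgoodw.2.2 with hw1 | hw2 | ⟨hw4, _, hw41⟩
    · obtain ⟨g', hM', hgy', _⟩ := S3 h1 h3 h4 h6d hd hf
        (fun u hu => hz u (near_mono (by norm_num) (hIn u hu))) hw1 hyIw
      exact hgy' (hno g' hM')
    · -- `w` is in two pairs
      obtain ⟨r, hry, hIw⟩ : ∃ r, r ≠ y ∧ II G f w = {y, r} := by
        obtain ⟨a, b, hab, hab'⟩ := card_eq_two.mp hw2
        have := hyIw
        rw [hab', mem_insert, mem_singleton] at this
        rcases this with rfl | rfl
        · exact ⟨b, hab.symm, hab'⟩
        · exact ⟨a, hab, by rw [hab']; exact Finset.pair_comm _ _⟩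
      obtain ⟨s, s', hss, hfs, hws, hws', _, hprw⟩ := pair h1 h3 hd hf hgoodw.1 hgoodw.2.1
      have hwr : G.Adj w r := adj_of_mem_II (f := f) (by rw [hIw]; simp)
      -- the mutual neighbours of `w`
      have hGw : ∀ g', G.Adj w g' → g' ∉ pr G f w → g' ∉ II G f w →
          Mut G f w g' ∧ G.Adj g' y ∧ ∀ z, G.Adj w z → z ≠ r → z ≠ g' → G.Adj g' z := by
        intro g' hg1 hg2 hg3
        have hM' : Mut G f w g' :=
          ⟨hg1, fun h => hg3 (mem_II.mpr ⟨IA6.tight1 h3 hf hgoodw.1 hg1, h⟩), hg2⟩
        refine ⟨hM', hno g' hM', ?_⟩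
        intro z hz1 hz2 hz3
        by_cases hzy : z = y
        · rw [hzy]
          exact hno g' hM'
        · refine (IA6.key h3 h4 hf hgoodw.1 hg1 hg2 hg3 hz1 hz3 ?_).symm
          rw [hIw]
          simp [hzy, hz2]
      by_cases hyw' : y ∈ pr G f w
      · -- `y` in the pair of `w`
        obtain ⟨s1, hs1, hfs1, hws1, hprw1⟩ : ∃ s1, s1 ≠ y ∧ f s1 = f y ∧ G.Adj w s1 ∧
            pr G f w = {y, s1} := by
          have := hyw'
          rw [hprw, mem_insert, mem_singleton] at this
          rcases this with rfl | rfl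
          · exact ⟨s', hss.symm, hfs.symm, hws', hprw⟩
          · exact ⟨s, hss, hfs, hws, by rw [hprw]; exact Finset.pair_comm _ _⟩
        by_cases hs1r : s1 = r
        · subst hs1r
          apply hgoodw.1.2.2
          refine IA6.inK ((univ.filter (fun u => G.Adj w u)).erase s1) ?_ ?_ ?_
          · intro a ha
            simpa using (mem_erase.mp ha).2
          · intro a ha b hb hab
            have ha1 : G.Adj w a := by simpa using (mem_erase.mp ha).2
            have hb1 : G.Adj w b := by simpa using (mem_erase.mp hb).2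
            have ha2 := (mem_erase.mp ha).1
            have hb2 := (mem_erase.mp hb).1
            by_cases hay : a = y
            · have hby : b ≠ y := fun h => hab (hay.trans h.symm)
              rw [hay]
              exact (hGw b hb1 (by rw [hprw1]; simp [hby, hb2]) (by rw [hIw]; simp [hby, hb2])).2.1.symm
            · exact (hGw a ha1 (by rw [hprw1]; simp [hay, ha2])
                (by rw [hIw]; simp [hay, ha2])).2.2 b hb1 hb2 (Ne.symm hab)
          · have hm : s1 ∈ univ.filter (fun u => G.Adj w u) := by simpa using hws1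
            rw [card_erase_add_one hm]
            exact hgoodw.2.1
        · -- `y` is in four pairs
          have hc := cover hgoodw.2.1 (S := ({y, s1, r} : Finset V)) (by
            intro a ha
            simp only [mem_insert, mem_singleton] at ha
            rcases ha with rfl | rfl | rfl
            · exact hyw.symm
            · exact hws1
            · exact hwr)
          set M := (univ.filter (fun u => G.Adj w u)) \ ({y, s1, r} : Finset V) with hM
          have hmemM : ∀ g, g ∈ M ↔ G.Adj w g ∧ g ≠ y ∧ g ≠ s1 ∧ g ≠ r := by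
            intro g
            simp [hM]
          have h3c : ({y, s1, r} : Finset V).card ≤ 3 := card_le_three
          have hwM : w ∉ M := fun h => G.irrefl ((hmemM w).1 h).1
          have hsub : insert w M ⊆ II G f y := by
            intro g' hg'
            rw [mem_insert] at hg'
            rcases hg' with rfl | hg'
            · exact mem_II.2 ⟨IA6.tight0 h3 hf hgoodw.1, hyw'⟩
            · obtain ⟨e1, e2, e3, e4⟩ := (hmemM g').1 hg'
              have hg2 := hGw g' e1 (by rw [hprw1]; simp [e2, e3]) (by rw [hIw]; simp [e2, e4])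
              refine mem_II.2 ⟨IA6.tight1 h3 hf hgoodw.1 e1, ?_⟩
              exact (mem_pr_of hg2.2.1 (hg2.2.2 s1 hws1 hs1r (Ne.symm e3)) hs1.symm
                hfs1.symm).1
          have hc4 := card_le_card hsub
          rw [card_insert_of_notMem hwM] at hc4
          rcases hgoody.2.2 with h | h | h
          · omega
          · omega
          · have := h.2.2 w (hsub (mem_insert_self _ _))
            omega
      · -- `y` outside of the pair of `w`
        have hclaim : ∀ g', G.Adj w g' → g' ∉ pr G f w → g' ∉ II G f w → y ∈ pr G f g' := by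
          intro g' hg1 hg2 hg3
          obtain ⟨hM', hgy', _⟩ := hGw g' hg1 hg2 hg3
          by_contra hcon
          have hg'v : g' ≠ v := by
            rintro rfl
            exact hnvw hg1.symm
          have hM2 : Mut G f y g' := by
            refine ⟨hgy'.symm, hcon, ?_⟩
            rw [hpry]
            simp [hg'v, hg1.ne']
          apply hyp
          refine (h4 d V G f hf y g' hgoody.1 hM2).1 v hvy hg'v.symm ?_
          intro hvg'
          exact hgy'.ne (hcom g' hvg' hg1)
        by_cases hrs : r ∈ pr G f w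
        · -- `r` in the pair of `w`
          have hc := cover hgoodw.2.1 (S := ({s, s', y} : Finset V)) (by
            intro a ha
            simp only [mem_insert, mem_singleton] at ha
            rcases ha with rfl | rfl | rfl
            · exact hws
            · exact hws'
            · exact hyw.symm)
          set M := (univ.filter (fun u => G.Adj w u)) \ ({s, s', y} : Finset V) with hM
          have hmemM : ∀ g, g ∈ M ↔ G.Adj w g ∧ g ≠ s ∧ g ≠ s' ∧ g ≠ y := by
            intro g
            simp [hM]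
          have h3c : ({s, s', y} : Finset V).card ≤ 3 := card_le_three
          have hmm : ∀ g', g' ∈ M → G.Adj w g' ∧ g' ∉ pr G f w ∧ g' ∉ II G f w := by
            intro g' hg'
            obtain ⟨e1, e2, e3, e4⟩ := (hmemM g').1 hg'
            have hgp : g' ∉ pr G f w := by rw [hprw]; simp [e2, e3]
            refine ⟨e1, hgp, ?_⟩
            rw [hIw]
            simp only [mem_insert, mem_singleton, not_or]
            exact ⟨e4, fun h => hgp (h ▸ hrs)⟩
          have hsub : M ⊆ II G f y := by
            intro g' hg'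
            obtain ⟨e1, e2, e3⟩ := hmm g' hg'
            exact mem_II.2 ⟨IA6.tight1 h3 hf hgoodw.1 e1, hclaim g' e1 e2 e3⟩
          have hc3 := card_le_card hsub
          rcases hgoody.2.2 with h | h | h
          · omega
          · omega
          · obtain ⟨g', hg'⟩ : M.Nonempty := by
              rw [← card_pos]
              omega
            obtain ⟨e1, e2, e3⟩ := hmm g' hg'
            have ht' := h.2.2 g' (hsub hg')
            have n3g : Near G 3 v g' := near_adj n2w e1
            have hgoodg := hz g' (near_mono (by norm_num) n3g)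
            obtain ⟨y1, x1, x1', hI1, hpr1, hxx1, hfx1, hyx1, hyx1', hvy1, hvx1, hvx1', hG1⟩ :=
              S1 h1 h3 h4 hd hf hgoodg.1 hgoodg.2.1 ht'
            have hM' := (hGw g' e1 e2 e3).1
            have hwx : w ≠ x1 ∧ w ≠ x1' := by
              have := hM'.2.1
              rw [hpr1] at this
              simpa using this
            have hwy : w ≠ y1 := by
              intro hwy1
              have : w ∈ II G f g' := by rw [hI1, hwy1]; simp
              exact e2 (mem_II.1 this).2
            have hGG := (hG1 w e1.symm hwx.1 hwx.2 hwy).2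
            have k1 := hGG x1 hvx1 hyx1.symm hwx.1.symm
            have k2 := hGG x1' hvx1' hyx1'.symm hwx.2.symm
            have k3 := mem_pr_of k1 k2 hxx1 hfx1
            have hyg := hclaim g' e1 e2 e3
            rw [hpr1, mem_insert, mem_singleton] at hyg
            rcases hyg with h' | h'
            · exact hyw' (h' ▸ k3.1)
            · exact hyw' (h' ▸ k3.2)
        · -- `r` outside of the pair of `w`
          have hc := cover hgoodw.2.1 (S := ({s, s', y, r} : Finset V)) (by
            intro a ha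
            simp only [mem_insert, mem_singleton] at ha
            rcases ha with rfl | rfl | rfl | rfl
            · exact hws
            · exact hws'
            · exact hyw.symm
            · exact hwr)
          have h4c : ({s, s', y, r} : Finset V).card ≤ 4 := card_le_four
          obtain ⟨g', hg'⟩ : ((univ.filter (fun u => G.Adj w u)) \
              ({s, s', y, r} : Finset V)).Nonempty := by
            rw [← card_pos]
            omega
          rw [mem_sdiff, mem_filter] at hg'
          obtain ⟨⟨_, e1⟩, hg'2⟩ := hg'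
          simp only [mem_insert, mem_singleton, not_or] at hg'2
          obtain ⟨e2, e3, e4, e5⟩ := hg'2
          have hgp : g' ∉ pr G f w := by rw [hprw]; simp [e2, e3]
          have hgI : g' ∉ II G f w := by rw [hIw]; simp [e4, e5]
          have hrs1 : s ≠ r := by
            rintro rfl
            exact hrs (by rw [hprw]; simp)
          have hrs2 : s' ≠ r := by
            rintro rfl
            exact hrs (by rw [hprw]; simp)
          have hGG := (hGw g' e1 hgp hgI).2.2
          have k := mem_pr_of (hGG s hws hrs1 (Ne.symm e2)) (hGG s' hws' hrs2 (Ne.symm e3)) hss hfs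
          have hgoodg := hz g' (near_mono (by norm_num) (near_adj n2w e1))
          have hys := three h1 h3 hd hf hgoodg.1 hgoodg.2.1 k.1 k.2 (hclaim g' e1 hgp hgI) hss
          apply hyw'
          rw [hprw, mem_insert, mem_singleton]
          exact hys
    · -- `w` is in four pairs
      have hy1 := hw41 y hyIw
      have := h6 d V G f hd hf y hgoody.1 hgoody.2.1 hy1 v hvpy
      omega
  obtain ⟨g', hM', hgy'⟩ := hex
  -- the double swap
  have hyg' : y ≠ g' := by
    rintro rfl
    exact hM'.2.1 hwpy
  have hyg : y ≠ g := by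
    rintro rfl
    exact hMg.2.1 hvpy
  have hvg' : v ≠ g' := by
    rintro rfl
    exact hnvw hM'.1.symm
  have hgw : g ≠ w := by
    rintro rfl
    exact hnvw hMg.1
  have hgg' : g ≠ g' := by
    rintro rfl
    exact hyg (hcom g hMg.1 hM'.1).symm
  refine DS h2 hf hgoody.1 (IA6.tight0 h3 hf hv.1).1 (IA6.tight0 h3 hf hgoody.1).1 hwv.symm
    hfw.symm hvy.symm hyw hnvw hpry hMg hM' (fun h => hgy h.symm) (fun h => hgy' h.symm) hyg hyg'
    hvg' hgw hgg' ?_
  intro hadj
  -- `v` sees the colour of `g'`
  have hgoodg := hz g (near_mono (by norm_num) (near_of_adj hMg.1))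
  have hTg' : f g' ≠ none := (IA6.tight1 h3 hf hgoodw.1 hM'.1).1
  obtain ⟨c, hc⟩ := Option.ne_none_iff_exists'.1 hTg'
  have hvc : f v ≠ some c := by
    intro h
    exact hf w g' c hM'.1 (hfw.trans h) hc
  obtain ⟨z, hvz, hfz⟩ := (IA6.tight0 h3 hf hv.1).2.2 c hvc
  have hzg : z ≠ g := by
    rintro rfl
    exact hf z g' c hadj hfz hc
  by_cases hzy : z = y
  · subst hzy
    exact hM'.2.2 (mem_pr_of (f := f) hM'.1 hyw.symm hyg'.symm (by rw [hc, hfz])).1
  · have hgz := hGg z hvz hzy hzg
    by_cases hzg' : z = g'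
    · subst hzg'
      exact hzy (hcom z hvz hM'.1)
    · have k := (mem_pr_of (f := f) hgz hadj hzg' (by rw [hc, hfz])).2
      have hgx : g ≠ x ∧ g ≠ x' := by
        have := hMg.2.2
        rw [hpr] at this
        simpa using this
      have k1 := mem_pr_of (hGg x hvx hyx.symm (Ne.symm hgx.1))
        (hGg x' hvx' hyx'.symm (Ne.symm hgx.2)) hxx hfx
      rcases three h1 h3 hd hf hgoodg.1 hgoodg.2.1 k1.1 k1.2 k hxx with h | h
      · subst h
        exact hyx (hcom _ hvx hM'.1).symm
      · subst h
        exact hyx' (hcom _ hvx' hM'.1).symm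

end IZ

theorem prfA13 (h1 : A1) (h2 : A2) (h3 : A3) (h4 : A4) (h6 : A6) (h8 : A8) (h12 : A12) : A13 := by
  intro d V _ G f hd hBD hf
  by_contra hcon
  obtain ⟨v₀, hv₀⟩ := h8 d V G f hd hBD hf (not_le.1 hcon)
  by_cases hd6 : d = 6
  · have hrad : rad d = 9 := by rw [hd6]; rfl
    rw [hrad] at hv₀
    have hone : ∀ u, Near G 5 v₀ u → (II G f u).card ≠ 1 := by
      intro u hu ht
      exact IZ.noOne h1 h2 h3 h4 h6 hd6 hBD hf (fun w hw => hv₀ w (near_trans hu hw)) ht
    apply h12 d V G f hd hBD hf v₀
    intro u hu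
    have hu0 := hv₀ u (near_mono (by norm_num) hu)
    refine ⟨hu0.1, hu0.2.1, ?_⟩
    rcases hu0.2.2 with h | h | ⟨h, _, h'⟩
    · exact absurd h (hone u (near_succ hu))
    · exact h
    · exfalso
      obtain ⟨y, hy⟩ : (II G f u).Nonempty := by
        rw [← card_pos]
        omega
      exact hone y (near_adj hu (adj_of_mem_II hy)) (h' y hy)
  · have hrad : rad d = 5 := if_neg hd6
    rw [hrad] at hv₀
    apply h12 d V G f hd hBD hf v₀
    intro u hu
    have hu0 := hv₀ u (near_succ hu)
    refine ⟨hu0.1, hu0.2.1, ?_⟩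
    rcases hu0.2.2 with h | h | ⟨_, h, _⟩
    · exfalso
      obtain ⟨p, p', _, _, hup, _, _, hpr⟩ := IZ.pair h1 h3 hBD hf hu0.1 hu0.2.1
      have h := h6 d V G f hBD hf u hu0.1 hu0.2.1 h p (by rw [hpr]; simp)
      have hp := (hv₀ p (near_adj hu hup)).2.2
      rcases hp with h' | h' | h' <;> omega
    · exact h
    · exact absurd h hd6

end

end Pool.Agent.Work.MP_47f387_co.Large
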